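import Pool.Agent.Helper31.FI.Defs

/-!
# FI-AB: sums with the factor `ze ^ i` and a function of bounded variation

`|1 - ze| = 2 sin (3π/8) > 1`, so every sum of consecutive powers of `ze` has norm `≤ 2`; Abel summation:
`‖∑_{p ≤ i < q} ze^i g i‖ ≤ 2 ‖g (q-1)‖ + ∑ 2 ‖g (i+1) - g i‖`... the constants below are generous
(`‖g (q-1)‖ ≤ ‖g p‖ + ∑ ‖g (i+1) - g i‖`; sharper: these sums are `≤ 2/|1-ze| < 1.1`).
`abel_cont`: `‖G (s+1) - G s‖ ≤ ∫_s^{s+1} φ`.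
-/

set_option autoImplicit false

namespace Pool.Agent.Helper31.FI

open Complex Real Finset MeasureTheory

private theorem Abel_ze : ze = cexp (((3 * π / 4 : ℝ) : ℂ) * I) := by
  unfold ze
  congr 1
  push_cast
  ring

private theorem Abel_norm_ze : ‖ze‖ = 1 := by
  rw [Abel_ze]
  exact Complex.norm_exp_ofReal_mul_I _

private theorem Abel_one_le : 1 ≤ ‖1 - ze‖ := by
  have h1 : ze.re = Real.cos (3 * π / 4) := by
    rw [Abel_ze]
    exact Complex.exp_ofReal_mul_I_re _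
  have h2 : Real.cos (3 * π / 4) ≤ 0 := by
    apply Real.cos_nonpos_of_pi_div_two_le_of_le
    · linarith [Real.pi_pos]
    · linarith [Real.pi_pos]
  have h3 : 1 ≤ (1 - ze).re := by
    rw [Complex.sub_re, Complex.one_re, h1]
    linarith
  exact h3.trans (Complex.re_le_norm _)

private theorem Abel_id (g : ℕ → ℂ) (p m : ℕ) :
    (1 - ze) * ∑ i ∈ Ico p (p + m + 1), ze ^ i * g i =
      ze ^ p * g p - ze ^ (p + m + 1) * g (p + m) +
        ∑ i ∈ Ico p (p + m), ze ^ (i + 1) * (g (i + 1) - g i) := by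
  induction m with
  | zero =>
    simp
    ring
  | succ m ih =>
    rw [Finset.sum_Ico_succ_top (by omega), mul_add, ← add_assoc p m 1, ih,
      Finset.sum_Ico_succ_top (by omega)]
    ring

private theorem Abel_tri (g : ℕ → ℂ) (p m : ℕ) :
    ‖g (p + m)‖ ≤ ‖g p‖ + ∑ i ∈ Ico p (p + m), ‖g (i + 1) - g i‖ := by
  induction m with
  | zero => simp
  | succ m ih =>
    rw [← add_assoc, Finset.sum_Ico_succ_top (by omega)]
    have h1 : ‖g (p + m + 1)‖ ≤ ‖g (p + m)‖ + ‖g (p + m + 1) - g (p + m)‖ := by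
      have h2 := norm_add_le (g (p + m)) (g (p + m + 1) - g (p + m))
      rwa [add_sub_cancel] at h2
    linarith

theorem abel (g : ℕ → ℂ) (p q : ℕ) (hpq : p < q) :
    ‖∑ i ∈ Ico p q, ze ^ i * g i‖ ≤ 3 * (‖g p‖ + ∑ i ∈ Ico p (q - 1), ‖g (i + 1) - g i‖) := by
  obtain ⟨m, rfl⟩ : ∃ m, q = p + m + 1 := ⟨q - p - 1, by omega⟩
  rw [Nat.add_sub_cancel]
  have h1 := Abel_id g p m
  have h2 := Abel_tri g p m
  obtain ⟨S, hS⟩ : ∃ S, S = ∑ i ∈ Ico p (p + m + 1), ze ^ i * g i := ⟨_, rfl⟩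
  obtain ⟨D, hD⟩ : ∃ D, D = ∑ i ∈ Ico p (p + m), ‖g (i + 1) - g i‖ := ⟨_, rfl⟩
  have hD0 : 0 ≤ D := hD ▸ Finset.sum_nonneg fun i _ => norm_nonneg _
  have h3 : ‖∑ i ∈ Ico p (p + m), ze ^ (i + 1) * (g (i + 1) - g i)‖ ≤ D := by
    rw [hD]
    refine (norm_sum_le _ _).trans (Finset.sum_le_sum fun i _ => ?_)
    rw [norm_mul, norm_pow, Abel_norm_ze, one_pow, one_mul]
  have h4 : ‖(1 - ze) * S‖ ≤ ‖g p‖ + ‖g (p + m)‖ + D := by
    rw [hS, h1]
    refine (norm_add_le _ _).trans (add_le_add ?_ h3)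
    refine (norm_sub_le _ _).trans (le_of_eq ?_)
    rw [norm_mul, norm_mul, norm_pow, norm_pow, Abel_norm_ze, one_pow, one_pow, one_mul, one_mul]
  rw [norm_mul] at h4
  have h5 : ‖S‖ ≤ ‖1 - ze‖ * ‖S‖ := le_mul_of_one_le_left (norm_nonneg _) Abel_one_le
  rw [← hS, ← hD]
  rw [← hD] at h2
  have h6 := norm_nonneg (g p)
  linarith

theorem abel_cont (ν₀ a b A T : ℝ) (G G' : ℝ → ℂ) (φ : ℝ → ℝ) (hab : a ≤ b)
    (hG : ∀ s ∈ Set.Icc a b, HasDerivAt G (G' s) s) (hG' : ContinuousOn G' (Set.Icc a b))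
    (hφ : ContinuousOn φ (Set.Icc a b)) (hb : ∀ s ∈ Set.Icc a b, ‖G' s‖ ≤ φ s)
    (hA : ∀ s ∈ Set.Icc a b, ‖G s‖ ≤ A) (hT : ∫ s in a..b, φ s ≤ T) (p q : ℕ)
    (hp : ∀ i ∈ Ico p q, ν₀ + i ∈ Set.Icc a b) :
    ‖∑ i ∈ Ico p q, ze ^ i * G (ν₀ + i)‖ ≤ 3 * (A + T) := by
  have hφ0 : ∀ s ∈ Set.Icc a b, 0 ≤ φ s := fun s hs => (norm_nonneg _).trans (hb s hs)
  have hA0 : 0 ≤ A := (norm_nonneg _).trans (hA a ⟨le_rfl, hab⟩)
  have hT0 : 0 ≤ T := (intervalIntegral.integral_nonneg hab hφ0).trans hT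
  rcases Nat.lt_or_ge p q with hpq | hpq
  swap
  · rw [Finset.Ico_eq_empty_of_le hpq, Finset.sum_empty, norm_zero]
    positivity
  refine (abel (fun i => G (ν₀ + i)) p q hpq).trans ?_
  have h1 : ‖G (ν₀ + p)‖ ≤ A := hA _ (hp p (Finset.mem_Ico.2 ⟨le_rfl, hpq⟩))
  have hint : ∀ s t : ℝ, s ∈ Set.Icc a b → t ∈ Set.Icc a b →
      Set.uIcc s t ⊆ Set.Icc a b := fun s t hs ht => by
    rw [← Set.uIcc_of_le hab] at hs ht ⊢
    exact Set.uIcc_subset_uIcc hs ht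
  have h2 : ∀ i ∈ Ico p (q - 1), ‖G (ν₀ + ((i + 1 : ℕ) : ℝ)) - G (ν₀ + i)‖ ≤
      ∫ s in (ν₀ + (i : ℝ))..(ν₀ + ((i + 1 : ℕ) : ℝ)), φ s := by
    intro i hi
    rw [Finset.mem_Ico] at hi
    have hi1 := hp i (Finset.mem_Ico.2 ⟨hi.1, by omega⟩)
    have hi2 := hp (i + 1) (Finset.mem_Ico.2 ⟨by omega, by omega⟩)
    have hsub := hint _ _ hi1 hi2
    have hle : ν₀ + (i : ℝ) ≤ ν₀ + ((i + 1 : ℕ) : ℝ) := by
      push_cast
      linarith
    rw [← intervalIntegral.integral_eq_sub_of_hasDerivAt (fun s hs => hG s (hsub hs))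
      ((hG'.mono hsub).intervalIntegrable)]
    refine intervalIntegral.norm_integral_le_of_norm_le hle
      (Filter.Eventually.of_forall fun s hs => ?_) ((hφ.mono hsub).intervalIntegrable)
    refine hb s (hsub ?_)
    rw [Set.uIcc_of_le hle]
    exact Set.Ioc_subset_Icc_self hs
  have h3 : ∑ i ∈ Ico p (q - 1), ‖G (ν₀ + ((i + 1 : ℕ) : ℝ)) - G (ν₀ + i)‖ ≤ T := by
    refine (Finset.sum_le_sum h2).trans ?_
    rw [intervalIntegral.sum_integral_adjacent_intervals_Ico (a := fun i : ℕ => ν₀ + (i : ℝ))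
      (by omega) (fun i hi => ?_)]
    · refine le_trans ?_ hT
      have hp1 := hp p (Finset.mem_Ico.2 ⟨le_rfl, hpq⟩)
      have hq1 := hp (q - 1) (Finset.mem_Ico.2 ⟨by omega, by omega⟩)
      refine intervalIntegral.integral_mono_interval hp1.1 ?_ hq1.2 ?_ ?_
      · have h4 : (p : ℝ) ≤ ((q - 1 : ℕ) : ℝ) := by exact_mod_cast Nat.le_sub_one_of_lt hpq
        simpa using h4
      · refine (ae_restrict_iff' measurableSet_Ioc).2 (Filter.Eventually.of_forall fun s hs => ?_)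
        exact hφ0 s (Set.Ioc_subset_Icc_self hs)
      · refine ContinuousOn.intervalIntegrable ?_
        rw [Set.uIcc_of_le hab]
        exact hφ
    · rw [Set.mem_Ico] at hi
      have hi1 := hp i (Finset.mem_Ico.2 ⟨hi.1, by omega⟩)
      have hi2 := hp (i + 1) (Finset.mem_Ico.2 ⟨by omega, by omega⟩)
      exact (hφ.mono (hint _ _ hi1 hi2)).intervalIntegrable
  have h4 := add_le_add h1 h3
  linarith

end Pool.Agent.Helper31.FI
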