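import Pool.Agent.Helper31.FI.Fresnel

/-!
# FI-AN: exact antiderivative of one term

Write `X^(1/2)`, `X^(-1/2)` for principal powers on the slit plane.  With `s₋ = √N X^(1/2) - √x X^(-1/2)`,
`s₊ = √N X^(1/2) + √x X^(-1/2)`: `s₋² - (√N-√x)² = s₊² - (√N+√x)² = N X + x / X - N - x` and
`ds₋ + ds₊ = √N X^(-1/2) dX`.  Hence `hasDerivAt_Af`.
`gk_eq`: for `X = 1 - ν y`: `x y / X - N y = (x / X + N X - x - N) / ν`.
`tint`: fundamental theorem of calculus on the segments from `0` to `i/N` and from `i/N` to `1/ν + i/N`, for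
`y ↦ Af x N ν (1 - ν y)`, whose derivative is `- ν √(N/ν) gk = - √(ν N) gk`; on the path `Im y ≥ 0`, so `1 - ν y` stays in
the slit plane (`y = 0` gives `X = 1`; otherwise `Im X < 0`); the last point is `X = - i ν / N`.
-/

set_option autoImplicit false

namespace Pool.Agent.Helper31.FI

open Complex Real Finset MeasureTheory

/-- antiderivative in the variable `X` -/
noncomputable def Af (x N ν : ℝ) (X : ℂ) : ℂ :=
  cexp (-(π * I * ((√N - √x) ^ 2 / ν : ℝ))) *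
      Fr ((√N * X ^ (1 / 2 : ℂ) - √x * X ^ (-(1 / 2) : ℂ)) / √ν) +
    cexp (-(π * I * ((√N + √x) ^ 2 / ν : ℝ))) *
      Fr ((√N * X ^ (1 / 2 : ℂ) + √x * X ^ (-(1 / 2) : ℂ)) / √ν)

/-- one half of the antiderivative; `e = 1` or `e = -1` -/
private theorem Anti_half {x N ν : ℝ} (hx : 0 < x) (hN : 0 < N) (hν : 0 < ν) {X : ℂ}
    (hX : X ∈ slitPlane) (e : ℝ) (he : e ^ 2 = 1) :
    HasDerivAt (fun X : ℂ => cexp (-(π * I * ((√N + e * √x) ^ 2 / ν : ℝ))) *
      Fr ((√N * X ^ (1 / 2 : ℂ) + e * √x * X ^ (-(1 / 2) : ℂ)) / √ν))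
      (cexp (π * I * ((x / X + N * X - x - N) / ν)) *
        ((√N * X ^ (-(1 / 2) : ℂ) / 2 - e * √x * (X ^ (-(1 / 2) : ℂ) / X) / 2) / √ν)) X := by
  have hX0 : X ≠ 0 := slitPlane_ne_zero hX
  have h1 : HasDerivAt (fun X : ℂ => X ^ (1 / 2 : ℂ)) (X ^ (-(1 / 2) : ℂ) / 2) X := by
    have h := (hasDerivAt_id X).cpow_const (c := (1 / 2 : ℂ)) hX
    refine h.congr_deriv ?_
    have h2 : (1 / 2 : ℂ) - 1 = -(1 / 2) := by norm_num
    simp only [id]
    rw [h2]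
    ring
  have h2 : HasDerivAt (fun X : ℂ => X ^ (-(1 / 2) : ℂ)) (-(X ^ (-(1 / 2) : ℂ) / X) / 2) X := by
    have h := (hasDerivAt_id X).cpow_const (c := (-(1 / 2) : ℂ)) hX
    refine h.congr_deriv ?_
    simp only [id]
    rw [cpow_sub _ _ hX0, cpow_one]
    ring
  have h3 := ((h1.const_mul (√N : ℂ)).add (h2.const_mul ((e : ℂ) * √x))).div_const (√ν : ℂ)
  have h4 := ((hasDerivAt_Fr _).comp X h3).const_mul
    (cexp (-(π * I * ((√N + e * √x) ^ 2 / ν : ℝ))))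
  refine h4.congr_deriv ?_
  rw [← mul_assoc, ← Complex.exp_add]
  have ha : (X ^ (1 / 2 : ℂ)) ^ 2 = X := by
    rw [← cpow_nat_mul]
    norm_num
  have hab : X ^ (1 / 2 : ℂ) * X ^ (-(1 / 2) : ℂ) = 1 := by
    rw [← cpow_add _ _ hX0]
    norm_num
  have hb : (X ^ (-(1 / 2) : ℂ)) ^ 2 = 1 / X := by
    rw [← cpow_nat_mul]
    norm_num [cpow_neg]
  have hN2 : (√N : ℂ) ^ 2 = N := by
    rw [← ofReal_pow, Real.sq_sqrt hN.le]
  have hx2 : (√x : ℂ) ^ 2 = x := by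
    rw [← ofReal_pow, Real.sq_sqrt hx.le]
  have hν2 : (√ν : ℂ) ^ 2 = ν := by
    rw [← ofReal_pow, Real.sq_sqrt hν.le]
  have he2 : (e : ℂ) ^ 2 = 1 := by
    rw [← ofReal_pow, he, ofReal_one]
  have hν0 : (ν : ℂ) ≠ 0 := by exact_mod_cast hν.ne'
  congr 1
  · congr 1
    push_cast
    simp only [Pi.add_apply]
    rw [div_pow, hν2]
    generalize X ^ (1 / 2 : ℂ) = a at *
    generalize X ^ (-(1 / 2) : ℂ) = b at *
    have k1 : ((√N : ℂ) * a + e * √x * b) ^ 2 =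
        N * X + 2 * e * √N * √x + x * (1 / X) := by
      linear_combination a ^ 2 * hN2 + N * ha + 2 * e * √N * √x * hab +
        (√x : ℂ) ^ 2 * b ^ 2 * he2 + b ^ 2 * hx2 + x * hb
    have k2 : ((√N : ℂ) + e * √x) ^ 2 = N + 2 * e * √N * √x + x := by
      linear_combination hN2 + (√x : ℂ) ^ 2 * he2 + hx2
    rw [k1, k2]
    field_simp
    ring
  · ring

theorem hasDerivAt_Af {x N ν : ℝ} (hx : 0 < x) (hN : 0 < N) (hν : 0 < ν) {X : ℂ}
    (hX : X ∈ slitPlane) :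
    HasDerivAt (Af x N ν)
      (√(N / ν) * (X ^ (-(1 / 2) : ℂ) * cexp (π * I * ((x / X + N * X - x - N) / ν)))) X := by
  have h1 := (Anti_half hx hN hν hX (-1) (by norm_num)).add
    (Anti_half hx hN hν hX 1 (by norm_num))
  have h2 : Af x N ν = (fun X : ℂ => cexp (-(π * I * ((√N + (-1) * √x) ^ 2 / ν : ℝ))) *
      Fr ((√N * X ^ (1 / 2 : ℂ) + ((-1 : ℝ) : ℂ) * √x * X ^ (-(1 / 2) : ℂ)) / √ν)) +
      (fun X : ℂ => cexp (-(π * I * ((√N + 1 * √x) ^ 2 / ν : ℝ))) *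
      Fr ((√N * X ^ (1 / 2 : ℂ) + ((1 : ℝ) : ℂ) * √x * X ^ (-(1 / 2) : ℂ)) / √ν)) := by
    funext X
    rw [Pi.add_apply, Af]
    have e1 : √N + (-1) * √x = √N - √x := by ring
    have e2 : √N + 1 * √x = √N + √x := by ring
    have e3 : (√N : ℂ) * X ^ (1 / 2 : ℂ) + ((-1 : ℝ) : ℂ) * √x * X ^ (-(1 / 2) : ℂ) =
        √N * X ^ (1 / 2 : ℂ) - √x * X ^ (-(1 / 2) : ℂ) := by
      push_cast
      ring
    have e4 : (√N : ℂ) * X ^ (1 / 2 : ℂ) + ((1 : ℝ) : ℂ) * √x * X ^ (-(1 / 2) : ℂ) =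
        √N * X ^ (1 / 2 : ℂ) + √x * X ^ (-(1 / 2) : ℂ) := by
      push_cast
      ring
    rw [e1, e2, e3, e4]
  rw [h2]
  refine h1.congr_deriv ?_
  rw [Real.sqrt_div' _ hν.le]
  push_cast
  ring

theorem gk_eq {x N ν : ℝ} (hν : 0 < ν) {y : ℂ} (hy : 1 - ν * y ≠ 0) :
    gk x N ν y = (1 - ν * y) ^ (-(1 / 2) : ℂ) *
      cexp (π * I * ((x / (1 - ν * y) + N * (1 - ν * y) - x - N) / ν)) := by
  have hν0 : (ν : ℂ) ≠ 0 := by exact_mod_cast hν.ne'
  rw [gk]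
  congr 3
  generalize hX : 1 - (ν : ℂ) * y = X at hy ⊢
  have hyX : y = (1 - X) / ν := by
    rw [eq_div_iff hν0, ← hX]
    ring
  rw [hyX]
  field_simp
  ring

/-- integral of one term from the cusp `0` through `i/N` to `1/ν + i/N` -/
noncomputable def Tn (x N ν : ℝ) : ℂ :=
  (∫ s in (0 : ℝ)..(1 / N), gk x N ν (I * s) * I) + ∫ u in (0 : ℝ)..(1 / ν), gk x N ν (u + I / N)

private theorem Anti_cont {x N ν : ℝ} (y : ℝ → ℂ) (hy : Continuous y)
    (hs : ∀ s, 1 - ν * y s ∈ slitPlane) : Continuous (fun s => gk x N ν (y s)) := by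
  have h1 : Continuous (fun s => 1 - (ν : ℂ) * y s) := by fun_prop
  have h0 : ∀ s, 1 - (ν : ℂ) * y s ≠ 0 := fun s => slitPlane_ne_zero (hs s)
  unfold gk
  refine Continuous.mul ?_ ?_
  · exact continuous_iff_continuousAt.2 fun s =>
      ContinuousAt.comp (f := fun s => 1 - (ν : ℂ) * y s) (continuousAt_cpow_const (hs s))
        h1.continuousAt
  · refine Complex.continuous_exp.comp ?_
    refine continuous_const.mul (Continuous.sub ?_ (continuous_const.mul hy))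
    exact (continuous_const.mul hy).div h1 h0

private theorem Anti_int {x N ν : ℝ} (hx : 0 < x) (hN : 0 < N) (hν : 0 < ν) (y : ℝ → ℂ) (c : ℂ)
    (hy : ∀ s, HasDerivAt y c s) (hs : ∀ s, 1 - ν * y s ∈ slitPlane) (a b : ℝ) :
    ∫ s in a..b, gk x N ν (y s) * c =
      (1 / √(ν * N) : ℝ) * (Af x N ν (1 - ν * y a) - Af x N ν (1 - ν * y b)) := by
  have hyc : Continuous y := continuous_iff_continuousAt.2 fun s => (hy s).continuousAt
  have hνN : 0 < ν * N := mul_pos hν hN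
  have hsq : √(N / ν) * ν = √(ν * N) := by
    have h1 : √(ν * N) = √(N / ν * ν ^ 2) := by
      congr 1
      field_simp
    rw [h1, Real.sqrt_mul (div_pos hN hν).le, Real.sqrt_sq hν.le]
  have hd : ∀ s ∈ Set.uIcc a b, HasDerivAt (fun s : ℝ => Af x N ν (1 - ν * y s))
      (-(√(ν * N) : ℂ) * (gk x N ν (y s) * c)) s := by
    intro s _
    have h1 : HasDerivAt (fun s : ℝ => 1 - (ν : ℂ) * y s) (-((ν : ℂ) * c)) s := by
      have := ((hy s).const_mul (ν : ℂ)).const_sub 1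
      exact this
    have h2 := (hasDerivAt_Af hx hN hν (hs s)).scomp s h1
    refine h2.congr_deriv ?_
    rw [gk_eq hν (slitPlane_ne_zero (hs s)), ← hsq, smul_eq_mul]
    push_cast
    ring
  have hi : IntervalIntegrable (fun s => -(√(ν * N) : ℂ) * (gk x N ν (y s) * c)) volume a b := by
    have h1 := Anti_cont (x := x) (N := N) y hyc hs
    exact (continuous_const.mul (h1.mul continuous_const)).intervalIntegrable _ _
  have h3 := intervalIntegral.integral_eq_sub_of_hasDerivAt hd hi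
  rw [intervalIntegral.integral_const_mul] at h3
  have hne : (√(ν * N) : ℂ) ≠ 0 := by
    exact_mod_cast (Real.sqrt_pos.2 hνN).ne'
  have h4 : ∫ s in a..b, gk x N ν (y s) * c =
      (Af x N ν (1 - ν * y b) - Af x N ν (1 - ν * y a)) / (-(√(ν * N) : ℂ)) := by
    rw [← h3, mul_div_cancel_left₀ _ (neg_ne_zero.2 hne)]
  rw [h4]
  push_cast
  field_simp
  ring

theorem tint {x N ν : ℝ} (hx : 0 < x) (hN : 0 < N) (hν : 0 < ν) :
    Tn x N ν = (1 / √(ν * N) : ℝ) * (Af x N ν 1 - Af x N ν (-(I * (ν / N)))) := by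
  have hν0 : (ν : ℂ) ≠ 0 := by exact_mod_cast hν.ne'
  have hN0 : (N : ℂ) ≠ 0 := by exact_mod_cast hN.ne'
  have h1 := Anti_int hx hN hν (fun s : ℝ => I * s) I (by
    intro s
    have h := (hasDerivAt_id s).ofReal_comp.const_mul I
    simpa using h) (by
    intro s
    left
    simp) 0 (1 / N)
  have h2 := Anti_int hx hN hν (fun u : ℝ => (u : ℂ) + I / N) 1 (by
    intro s
    have h := (hasDerivAt_id s).ofReal_comp.add_const (I / N)
    simpa using h) (by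
    intro s
    right
    have h3 : (1 - (ν : ℂ) * (s + I / N)).im = -(ν / N) := by
      have h4 : (1 : ℂ) - (ν : ℂ) * (s + I / N) =
          ((1 - ν * s : ℝ) : ℂ) + ((-(ν / N) : ℝ) : ℂ) * I := by
        push_cast
        ring
      rw [h4]
      simp
    rw [h3]
    exact neg_ne_zero.2 (div_pos hν hN).ne') 0 (1 / ν)
  simp only [mul_one] at h2
  rw [Tn, h1, h2]
  have e1 : (1 : ℂ) - ν * (I * ((0 : ℝ) : ℂ)) = 1 := by simp
  have e2 : (1 : ℂ) - ν * (I * ((1 / N : ℝ) : ℂ)) = 1 - ν * (((0 : ℝ) : ℂ) + I / N) := by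
    push_cast
    ring
  have e3 : (1 : ℂ) - ν * (((1 / ν : ℝ) : ℂ) + I / N) = -(I * (ν / N)) := by
    push_cast
    field_simp
    ring
  rw [e1, e2, e3]
  ring

end Pool.Agent.Helper31.FI
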