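import Pool.Agent.Helper31.FI.Defs

/-!
# FI-CX: inverses modulo `j`

`c0 j m` is the inverse of `m` modulo `j` in `[1, j]`.
`Ms j` = odd `m` in `(-j, j]` coprime to `j`; for odd `j` distinct elements of `Ms j` are distinct modulo `j` (difference even and
`< 2 j` in absolute value), so `m ↦ c0 j m` is injective on `Ms j` and
`∑ (c0/j)^(-1/2) ≤ ∑_{c=1}^{j} (c/j)^(-1/2) ≤ √j 2 √j`.
-/

set_option autoImplicit false

namespace Pool.Agent.Helper31.FI

open Complex Real Finset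

/-- inverse of `m` modulo `j` -/
noncomputable def c0 (j : ℕ) (m : ℤ) : ℕ := if j = 1 then 1 else ((m : ZMod j)⁻¹).val

/-- companion of `c0` -/
noncomputable def d0 (j : ℕ) (m : ℤ) : ℤ := ((c0 j m : ℤ) * m - 1) / j

open Classical in
/-- residues -/
noncomputable def Ms (j : ℕ) : Finset ℤ :=
  (Finset.Ioc (-(j : ℤ)) j).filter (fun m => Odd m ∧ IsCoprime (j : ℤ) m)

theorem c0_spec {j : ℕ} {m : ℤ} (hj : 1 ≤ j) (h : IsCoprime (j : ℤ) m) :
    1 ≤ c0 j m ∧ c0 j m ≤ j ∧ (c0 j m : ℤ) * m - j * d0 j m = 1 := by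
  have hj0 : (j : ℤ) ≠ 0 := by
    have : (1 : ℤ) ≤ j := by exact_mod_cast hj
    omega
  have key : 1 ≤ c0 j m ∧ c0 j m ≤ j ∧ (j : ℤ) ∣ (c0 j m : ℤ) * m - 1 := by
    by_cases hj1 : j = 1
    · subst hj1
      have : c0 1 m = 1 := by simp [c0]
      rw [this]
      refine ⟨le_refl _, le_refl _, ?_⟩
      simp
    · have hc : c0 j m = ((m : ZMod j)⁻¹).val := by simp [c0, hj1]
      haveI : NeZero j := ⟨by omega⟩
      haveI : Fact (1 < j) := ⟨by omega⟩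
      have hu : IsUnit (m : ZMod j) := (ZMod.coe_int_isUnit_iff_isCoprime m j).2 h
      have hmul : (m : ZMod j) * (m : ZMod j)⁻¹ = 1 := ZMod.mul_inv_of_unit _ hu
      have hval : (((m : ZMod j)⁻¹).val : ZMod j) = (m : ZMod j)⁻¹ := ZMod.natCast_zmod_val _
      rw [hc]
      refine ⟨?_, (ZMod.val_lt _).le, ?_⟩
      · rw [Nat.one_le_iff_ne_zero]
        intro h0
        rw [ZMod.val_eq_zero] at h0
        rw [h0, mul_zero] at hmul
        exact zero_ne_one hmul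
      · rw [← ZMod.intCast_zmod_eq_zero_iff_dvd]
        push_cast
        rw [hval, mul_comm, hmul, sub_self]
  refine ⟨key.1, key.2.1, ?_⟩
  unfold d0
  rw [Int.mul_ediv_cancel' key.2.2]
  ring

theorem c0_unique {j : ℕ} {m : ℤ} (hj : 1 ≤ j) {c d : ℤ} (hc : 1 ≤ c) (h : c * m - j * d = 1) :
    ∃ i : ℕ, c = c0 j m + i * j ∧ d = d0 j m + i * m := by
  have hj1 : (1 : ℤ) ≤ j := by exact_mod_cast hj
  have hcop : IsCoprime (j : ℤ) m := ⟨-d, c, by linarith⟩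
  obtain ⟨h1, h2, h3⟩ := c0_spec hj hcop
  have h4 : (j : ℤ) ∣ (c - c0 j m) * m := ⟨d - d0 j m, by linarith⟩
  have h5 : (j : ℤ) ∣ c - c0 j m := hcop.dvd_of_dvd_mul_right h4
  obtain ⟨k, hk⟩ := h5
  have h2' : (c0 j m : ℤ) ≤ j := by exact_mod_cast h2
  have hk0 : 0 ≤ k := by
    by_contra hneg
    push Not at hneg
    have : (j : ℤ) * k ≤ j * (-1) := mul_le_mul_of_nonneg_left (by omega) (by omega)
    omega
  obtain ⟨i, rfl⟩ := Int.eq_ofNat_of_zero_le hk0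
  refine ⟨i, by linarith, ?_⟩
  have h6 : (j : ℤ) * d = j * (d0 j m + i * m) := by
    have h7 : c = c0 j m + j * i := by linarith
    have h8 : (j : ℤ) * d = c * m - 1 := by linarith
    rw [h8, h7]
    linarith
  exact mul_left_cancel₀ (by omega) h6

theorem Cidx_inj {j : ℕ} (hj : Odd j) {m m' : ℤ} (h : m ∈ Ms j) (h' : m' ∈ Ms j)
    (hd : (j : ℤ) ∣ m - m') : m = m' := by
  classical
  unfold Ms at h h'
  rw [Finset.mem_filter, Finset.mem_Ioc] at h h'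
  obtain ⟨⟨h1, h2⟩, h3, -⟩ := h
  obtain ⟨⟨h1', h2'⟩, h3', -⟩ := h'
  obtain ⟨k, hk⟩ := hd
  have he : Even (m - m') := h3.sub_odd h3'
  have hjo : ¬ Even (j : ℤ) := by
    rw [Int.not_even_iff_odd]
    exact_mod_cast hj
  have hke : Even k := by
    rw [hk, Int.even_mul] at he
    exact he.resolve_left hjo
  obtain ⟨l, hl⟩ := hke
  have hj1 : (1 : ℤ) ≤ j := by
    have := hj.pos
    exact_mod_cast this
  have hl0 : l = 0 := by
    by_contra hne
    have h5 : m - m' = 2 * (j * l) := by rw [hk, hl]; ring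
    rcases lt_or_gt_of_ne hne with hlt | hgt
    · have : (j : ℤ) * l ≤ j * (-1) := mul_le_mul_of_nonneg_left (by omega) (by omega)
      omega
    · have : (j : ℤ) * 1 ≤ j * l := mul_le_mul_of_nonneg_left (by omega) (by omega)
      omega
  rw [hl0] at hl
  rw [hl] at hk
  simp at hk
  omega

theorem card_Ms {j : ℕ} (hj : Odd j) : (Ms j).card ≤ j := by
  have hj1 : (1 : ℤ) ≤ j := by
    have := hj.pos
    exact_mod_cast this
  have h1 : (Ms j).card ≤ (Finset.Ico (0 : ℤ) j).card := by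
    refine Finset.card_le_card_of_injOn (fun m => m % j) ?_ ?_
    · intro m _
      simp only [Finset.coe_Ico, Set.mem_Ico]
      exact ⟨Int.emod_nonneg _ (by omega), Int.emod_lt_of_pos _ (by omega)⟩
    · intro m hm m' hm' he
      exact Cidx_inj hj hm hm' (Int.ModEq.dvd (Int.ModEq.symm he))
  simpa using h1

theorem Cidx_sum (n : ℕ) : ∑ c ∈ Finset.Icc 1 n, 1 / √(c : ℝ) ≤ 2 * √(n : ℝ) := by
  induction n with
  | zero => simp
  | succ n ih =>
    rw [Finset.sum_Icc_succ_top (by omega)]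
    have h1 : 0 < √((n + 1 : ℕ) : ℝ) := Real.sqrt_pos.2 (by positivity)
    have h2 : √(n : ℝ) ≤ √((n + 1 : ℕ) : ℝ) := Real.sqrt_le_sqrt (by push_cast; linarith)
    have h3 : √((n + 1 : ℕ) : ℝ) ^ 2 = n + 1 := by
      rw [Real.sq_sqrt (by positivity)]
      push_cast
      ring
    have h4 : √(n : ℝ) ^ 2 = n := Real.sq_sqrt (by positivity)
    have h5 : 1 / √((n + 1 : ℕ) : ℝ) ≤ 2 * √((n + 1 : ℕ) : ℝ) - 2 * √(n : ℝ) := by
      rw [div_le_iff₀ h1]
      nlinarith [sq_nonneg (√((n + 1 : ℕ) : ℝ) - √(n : ℝ)), Real.sqrt_nonneg (n : ℝ)]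
    linarith

theorem sum_c0 {j : ℕ} (hj : Odd j) :
    ∑ m ∈ Ms j, ((c0 j m : ℝ) / j) ^ (-(1 / 2) : ℝ) ≤ 2 * j := by
  classical
  have hj1 : 1 ≤ j := hj.pos
  have hj0 : (0 : ℝ) < j := by exact_mod_cast hj1
  have hcop : ∀ m ∈ Ms j, IsCoprime (j : ℤ) m := by
    intro m hm
    unfold Ms at hm
    rw [Finset.mem_filter] at hm
    exact hm.2.2
  have hinj : Set.InjOn (fun m => c0 j m) (Ms j : Set ℤ) := by
    intro m hm m' hm' he
    have h1 := (c0_spec hj1 (hcop m hm)).2.2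
    have h2 := (c0_spec hj1 (hcop m' hm')).2.2
    have he' : c0 j m = c0 j m' := he
    rw [← he'] at h2
    have h3 : IsCoprime (j : ℤ) (c0 j m : ℤ) := ⟨-d0 j m, m, by linarith⟩
    refine Cidx_inj hj hm hm' (h3.dvd_of_dvd_mul_left ⟨d0 j m - d0 j m', ?_⟩)
    linarith
  have h1 : ∑ m ∈ Ms j, ((c0 j m : ℝ) / j) ^ (-(1 / 2) : ℝ) =
      ∑ c ∈ (Ms j).image (fun m => c0 j m), ((c : ℝ) / j) ^ (-(1 / 2) : ℝ) := by
    rw [Finset.sum_image]
    intro m hm m' hm' he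
    exact hinj hm hm' he
  have h2 : ∑ c ∈ (Ms j).image (fun m => c0 j m), ((c : ℝ) / j) ^ (-(1 / 2) : ℝ) ≤
      ∑ c ∈ Finset.Icc 1 j, ((c : ℝ) / j) ^ (-(1 / 2) : ℝ) := by
    refine Finset.sum_le_sum_of_subset_of_nonneg ?_ (fun _ _ _ => by positivity)
    intro c hc
    rw [Finset.mem_image] at hc
    obtain ⟨m, hm, rfl⟩ := hc
    have h3 := c0_spec hj1 (hcop m hm)
    rw [Finset.mem_Icc]
    exact ⟨h3.1, h3.2.1⟩
  have h3 : ∑ c ∈ Finset.Icc 1 j, ((c : ℝ) / j) ^ (-(1 / 2) : ℝ) =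
      √(j : ℝ) * ∑ c ∈ Finset.Icc 1 j, 1 / √(c : ℝ) := by
    rw [Finset.mul_sum]
    refine Finset.sum_congr rfl fun c _ => ?_
    rw [Real.rpow_neg (by positivity), ← Real.sqrt_eq_rpow, Real.sqrt_div (by positivity), inv_div]
    ring
  rw [h1]
  refine h2.trans ?_
  rw [h3]
  calc √(j : ℝ) * ∑ c ∈ Finset.Icc 1 j, 1 / √(c : ℝ) ≤ √(j : ℝ) * (2 * √(j : ℝ)) :=
        mul_le_mul_of_nonneg_left (Cidx_sum j) (Real.sqrt_nonneg _)
    _ = 2 * (√(j : ℝ) * √(j : ℝ)) := by ring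
    _ = 2 * j := by rw [Real.mul_self_sqrt hj0.le]

end Pool.Agent.Helper31.FI
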