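import Pool.Agent.Helper31.FI.MainSum

/-!
# FI-MC: the main sum beyond `2 √t`

`1 ≤ m ≤ m'`, `4 t ≤ m²`.  `mains t ν₀ m' - mains t ν₀ m = ∑_{m ≤ i < m'} ee (ph t ν₀ i) (ν₀ + i)^(-1/2)` (`ze_mul`).  Split `[m, m')` into the blocks
`[M, min (2M, m'))`, `M = m, 2m, 4m, ..`; `block1` (`4 t ≤ M²`) and `wblock` bound each by `4 M^(-1/2)`; the sum is at most
`4 ∑ 2^(-k/2) m^(-1/2) ≤ 14`.
-/

set_option autoImplicit false

namespace Pool.Agent.Helper31.FI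

open Complex Real Finset

private theorem MCut_sum (t ν : ℝ) (ht : 0 ≤ t) (hν : 0 < ν) (hν1 : ν ≤ 1) (K : ℕ) :
    ∀ m n : ℕ, n ≤ m + K → 1 ≤ m → 4 * t ≤ (m : ℝ) ^ 2 →
      ‖∑ i ∈ Ico m n, ee (ph t ν i) * (((ν + (i : ℕ) : ℝ) ^ (-(1 / 2) : ℝ) : ℝ) : ℂ)‖ ≤
        14 * (m : ℝ) ^ (-(1 / 2) : ℝ) := by
  induction K using Nat.strong_induction_on with
  | _ K ih =>
    intro m n hn hm h
    have hm0 : (0 : ℝ) < m := by exact_mod_cast hm
    have hP : 0 < (m : ℝ) ^ (-(1 / 2) : ℝ) := by positivity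
    -- one block
    have hblock : ∀ n' : ℕ, n' ≤ 2 * m →
        ‖∑ i ∈ Ico m n', ee (ph t ν i) * (((ν + (i : ℕ) : ℝ) ^ (-(1 / 2) : ℝ) : ℝ) : ℂ)‖ ≤
          4 * (m : ℝ) ^ (-(1 / 2) : ℝ) := by
      intro n' hn'
      rw [Finset.sum_Ico_eq_sum_range]
      exact wblock t ν m (n' - m) 4 hν hm fun m' hm' =>
        block1 t ν m m' ht hν hν1 hm (by omega) h
    rcases le_or_gt n (2 * m) with h1 | h1
    · exact (hblock n h1).trans (by linarith)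
    · rw [← Finset.sum_Ico_consecutive _ (by omega : m ≤ 2 * m) h1.le]
      refine (norm_add_le _ _).trans ?_
      have h2 := hblock (2 * m) le_rfl
      have h3 := ih (K - m) (by omega) (2 * m) n (by omega) (by omega) (by
        push_cast
        nlinarith)
      have h4 : ((2 * m : ℕ) : ℝ) ^ (-(1 / 2) : ℝ) ≤ 5 / 7 * (m : ℝ) ^ (-(1 / 2) : ℝ) := by
        push_cast
        rw [Real.mul_rpow (by norm_num) hm0.le]
        refine mul_le_mul_of_nonneg_right ?_ hP.le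
        rw [Real.rpow_neg (by norm_num), ← Real.sqrt_eq_rpow, inv_le_comm₀ (by positivity)
          (by norm_num)]
        refine Real.le_sqrt_of_sq_le ?_
        norm_num
      linarith

theorem mains_cut (t ν₀ : ℝ) (m m' : ℕ) (ht : 0 ≤ t) (hν : 0 < ν₀) (hν1 : ν₀ ≤ 1) (hm : 1 ≤ m) (hmm : m ≤ m')
    (h : 4 * t ≤ (m : ℝ) ^ 2) : ‖mains t ν₀ m' - mains t ν₀ m‖ ≤ 14 := by
  have h1 : mains t ν₀ m' - mains t ν₀ m =
      ∑ i ∈ Ico m m', ee (ph t ν₀ i) * (((ν₀ + (i : ℕ) : ℝ) ^ (-(1 / 2) : ℝ) : ℝ) : ℂ) := by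
    unfold mains
    rw [← Finset.sum_Ico_eq_sub _ hmm]
    refine Finset.sum_congr rfl fun i _ => ?_
    rw [← ze_mul]
    ring
  have hm0 : (1 : ℝ) ≤ m := by exact_mod_cast hm
  rw [h1]
  refine (MCut_sum t ν₀ ht hν hν1 (m' - m) m m' (by omega) hm h).trans ?_
  have h2 : (m : ℝ) ^ (-(1 / 2) : ℝ) ≤ 1 := Real.rpow_le_one_of_one_le_of_nonpos hm0 (by norm_num)
  linarith

end Pool.Agent.Helper31.FI
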