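import Pool.Agent.Helper31.FI.MSq
import Pool.Agent.Helper31.FI.MCut

/-!
# FI-MX: mean square in the variable `x`

`k x = cnt ν₀ (√(x N/L)/2)`, `t = (√N - √x)²`.  If `X > N` the integrand vanishes.  For `16 L ≤ X ≤ x ≤ N`:
`k ≥ 2 √N - 1 ≥ 2 (√N - √x)`, `k ≥ 1`, so `4 t ≤ k²`.  Put `s = √N - √x`.  For `S ≤ s ≤ 2S` take `m = ⌈4 S⌉₊ + 1 ≤ 10 (S + 1)`,
`4 t ≤ 16 S² ≤ m²`; `mains_cut` (with the smaller of `m`, `k`) gives `‖mains t ν₀ k‖ ≤ ‖mains t ν₀ m‖ + 14`.
Substitution `x = (√N - s)²`, `dx = 2 √x ds ≤ 2 √(2X) ds` (in absolute value), `0 ≤ s ≤ √N`: sum `ms_dyadic` over `S = 2^(-j) √N`, `j ≥ 1` (or: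
treat `0 ≤ s ≤ 1` directly with `m = 9` and the trivial bound, and `S = 1, 2, 4, .. ≤ √N`):
`≤ C √X √N (1/ν₀ + log (2 + N))`.
Measurability: `k x` is a measurable step function; the integrand is bounded.
-/

set_option autoImplicit false

namespace Pool.Agent.Helper31.FI

open Complex Real Finset MeasureTheory

open Classical in
/-- the truncated main sum as a function of `x` -/
noncomputable def mx (N ν₀ L x : ℝ) : ℝ :=
  if x ≤ N then ‖mains ((√N - √x) ^ 2) ν₀ (cnt ν₀ (√(x * N / L) / 2))‖ else 0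

private theorem MSx_ze (i : ℕ) : ‖ze ^ i‖ = 1 := by
  rw [norm_pow]
  have h1 : ‖ze‖ = 1 := by
    unfold ze
    rw [show (3 * (π : ℂ) * I / 4) = ((3 * π / 4 : ℝ) : ℂ) * I by push_cast; ring]
    exact Complex.norm_exp_ofReal_mul_I _
  rw [h1, one_pow]

private theorem MSx_norm (t ν₀ : ℝ) (m : ℕ) (hν : 0 < ν₀) :
    ‖mains t ν₀ m‖ ≤ ∑ i ∈ range m, (ν₀ + i) ^ (-(1 / 2) : ℝ) := by
  unfold mains
  refine (norm_sum_le _ _).trans (Finset.sum_le_sum fun i _ => ?_)
  have h1 : ‖cexp (-(π * I * t / (ν₀ + i)))‖ = 1 := by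
    rw [show (-((π : ℂ) * I * t / (ν₀ + i))) = ((-(π * t / (ν₀ + i)) : ℝ) : ℂ) * I by
      push_cast
      ring]
    exact Complex.norm_exp_ofReal_mul_I _
  rw [norm_mul, norm_mul, MSx_ze, h1, one_mul, mul_one, Complex.norm_real, Real.norm_eq_abs,
    abs_of_nonneg (by positivity)]

private theorem MSx_cont (ν₀ : ℝ) (m : ℕ) : Continuous fun t : ℝ => mains t ν₀ m := by
  unfold mains
  refine continuous_finsetSum _ fun i _ => ?_
  refine continuous_const.mul ?_
  fun_prop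

private theorem MSx_meas0 (N ν₀ : ℝ) :
    Measurable fun p : ℕ × ℝ => ‖mains ((√N - √p.2) ^ 2) ν₀ p.1‖ := by
  refine measurable_from_prod_countable_right fun m => ?_
  have h2 : Continuous fun x : ℝ => mains ((√N - √x) ^ 2) ν₀ m :=
    (MSx_cont ν₀ m).comp (f := fun x : ℝ => (√N - √x) ^ 2) (by fun_prop)
  exact h2.norm.measurable

private theorem MSx_meas1 (N ν₀ L : ℝ) : Measurable fun x : ℝ => cnt ν₀ (√(x * N / L) / 2) := by
  unfold cnt
  refine Measurable.nat_ceil ?_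
  have h4 : Continuous fun x : ℝ => √(x * N / L) / 2 - ν₀ := by fun_prop
  exact h4.measurable

private theorem MSx_meas2 (N ν₀ L : ℝ) :
    Measurable fun x : ℝ => ‖mains ((√N - √x) ^ 2) ν₀ (cnt ν₀ (√(x * N / L) / 2))‖ :=
  (MSx_meas0 N ν₀).comp (g := fun p : ℕ × ℝ => ‖mains ((√N - √p.2) ^ 2) ν₀ p.1‖)
    (f := fun x : ℝ => (cnt ν₀ (√(x * N / L) / 2), x))
    ((MSx_meas1 N ν₀ L).prodMk measurable_id)

theorem mx_meas (N ν₀ L : ℝ) : Measurable (mx N ν₀ L) := by
  have h := MSx_meas2 N ν₀ L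
  have h0 : MeasurableSet {x : ℝ | x ≤ N} := measurableSet_Iic
  exact Measurable.ite h0 h measurable_const

theorem mx_bdd (N ν₀ L X : ℝ) (hN : 0 < N) (hν : 0 < ν₀) (hL : 1 ≤ L) :
    ∃ B : ℝ, ∀ x : ℝ, 0 ≤ x → x ≤ X → 0 ≤ mx N ν₀ L x ∧ mx N ν₀ L x ≤ B := by
  refine ⟨∑ i ∈ range (cnt ν₀ (√(X * N / L) / 2)), (ν₀ + i) ^ (-(1 / 2) : ℝ), fun x hx hxX => ?_⟩
  have hB : ∀ i ∈ range (cnt ν₀ (√(X * N / L) / 2)), 0 ≤ (ν₀ + i) ^ (-(1 / 2) : ℝ) :=
    fun i _ => by positivity
  unfold mx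
  split_ifs with h
  · refine ⟨norm_nonneg _, (MSx_norm _ _ _ hν).trans ?_⟩
    refine Finset.sum_le_sum_of_subset_of_nonneg ?_ fun i _ _ => by positivity
    refine Finset.range_mono ?_
    unfold cnt
    refine Nat.ceil_mono ?_
    have h1 : √(x * N / L) ≤ √(X * N / L) := by
      refine Real.sqrt_le_sqrt ?_
      gcongr
    linarith
  · exact ⟨le_rfl, Finset.sum_nonneg hB⟩

/-- comparison of two main sums -/
private theorem MSx_cmp (s ν₀ : ℝ) (m k : ℕ) (hν : 0 < ν₀) (hν1 : ν₀ ≤ 1) (hm : 1 ≤ m) (hk : 1 ≤ k)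
    (hsm : 2 * |s| ≤ m) (hsk : 2 * |s| ≤ k) : ‖mains (s ^ 2) ν₀ k‖ ≤ ‖mains (s ^ 2) ν₀ m‖ + 14 := by
  have key : ∀ j : ℕ, 2 * |s| ≤ j → 4 * s ^ 2 ≤ (j : ℝ) ^ 2 := by
    intro j hj
    have h0 : 0 ≤ |s| := abs_nonneg s
    have h1 : (2 * |s|) ^ 2 ≤ (j : ℝ) ^ 2 := pow_le_pow_left₀ (by positivity) hj 2
    rw [mul_pow, sq_abs] at h1
    linarith
  have h2 : ‖mains (s ^ 2) ν₀ k - mains (s ^ 2) ν₀ m‖ ≤ 14 := by
    rcases le_total m k with h | h
    · exact mains_cut _ _ _ _ (sq_nonneg s) hν hν1 hm h (key m hsm)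
    · rw [norm_sub_rev]
      exact mains_cut _ _ _ _ (sq_nonneg s) hν hν1 hk h (key k hsk)
  have h3 : mains (s ^ 2) ν₀ k = mains (s ^ 2) ν₀ m + (mains (s ^ 2) ν₀ k - mains (s ^ 2) ν₀ m) := by
    ring
  rw [h3]
  exact (norm_add_le _ _).trans (by linarith)

private theorem MSx_sq {a b : ℝ} (ha : 0 ≤ a) (h : a ≤ b + 14) : a ^ 2 ≤ 2 * b ^ 2 + 392 := by
  have h1 : a ^ 2 ≤ (b + 14) ^ 2 := pow_le_pow_left₀ ha h 2
  nlinarith [sq_nonneg (b - 14)]

private theorem MSx_pcont (ν₀ : ℝ) (M : ℕ) : Continuous fun s : ℝ => ‖mains (s ^ 2) ν₀ M‖ ^ 2 :=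
  (((MSx_cont ν₀ M).comp (continuous_pow 2)).norm).pow 2

/-- the dyadic sum -/
private theorem MSx_dy {C : ℝ} (hC : 0 < C) (hms : ∀ (S ν₀ : ℝ) (m : ℕ), 0 < S → 0 < ν₀ → ν₀ ≤ 1 →
      (m : ℝ) ≤ 10 * (S + 1) →
      ∫ s in S..(2 * S), ‖mains (s ^ 2) ν₀ m‖ ^ 2 ≤ C * (S * (1 / ν₀ + Real.log (2 + S))))
    (ν₀ : ℝ) (M : ℕ) (hν : 0 < ν₀) (hν1 : ν₀ ≤ 1) (n : ℕ) (hM : 2 * (2 : ℝ) ^ n ≤ M) :
    ∫ s in (0 : ℝ)..(2 ^ n), ‖mains (s ^ 2) ν₀ M‖ ^ 2 ≤
      (2 * C + 452) * (2 ^ n * (1 / ν₀ + Real.log (2 + 2 ^ n))) := by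
  have hin : 1 ≤ 1 / ν₀ := (one_le_div hν).2 hν1
  have hii : ∀ a b : ℝ, IntervalIntegrable (fun s : ℝ => ‖mains (s ^ 2) ν₀ M‖ ^ 2) volume a b :=
    fun a b => (MSx_pcont ν₀ M).intervalIntegrable a b
  induction n with
  | zero =>
    rw [pow_zero, one_mul]
    have hM1 : 1 ≤ M := by
      have : (2 : ℝ) ≤ M := by simpa using hM
      exact_mod_cast (by linarith : (1 : ℝ) ≤ M)
    have hM2 : (2 : ℝ) ≤ M := by simpa using hM
    have hb : ∀ s ∈ Set.Icc (0 : ℝ) 1, ‖mains (s ^ 2) ν₀ M‖ ^ 2 ≤ 452 * (1 / ν₀) := by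
      intro s hs
      have hs1 : |s| ≤ 1 := by rw [abs_of_nonneg hs.1]; exact hs.2
      have h1 := MSx_cmp s ν₀ 2 M hν hν1 (by norm_num) hM1 (by push_cast; linarith) (by linarith)
      have h2 := MSx_norm (s ^ 2) ν₀ 2 hν
      rw [Finset.sum_range_succ, Finset.sum_range_succ, Finset.sum_range_zero, zero_add] at h2
      have h3 : (ν₀ + ((1 : ℕ) : ℝ)) ^ (-(1 / 2) : ℝ) ≤ 1 :=
        Real.rpow_le_one_of_one_le_of_nonpos (by push_cast; linarith) (by norm_num)
      set w : ℝ := ν₀ ^ (-(1 / 2) : ℝ) with hw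
      have hw0 : 0 ≤ w := by positivity
      have hw2 : w ^ 2 = 1 / ν₀ := by
        rw [hw, ← Real.rpow_natCast, ← Real.rpow_mul hν.le]
        norm_num
        rw [Real.rpow_neg_one]
      have h5 : ‖mains (s ^ 2) ν₀ M‖ ≤ w + 15 := by
        have h6 : (ν₀ + ((0 : ℕ) : ℝ)) ^ (-(1 / 2) : ℝ) = w := by
          rw [Nat.cast_zero, add_zero]
        rw [h6] at h2
        linarith
      have h7 : ‖mains (s ^ 2) ν₀ M‖ ^ 2 ≤ (w + 15) ^ 2 := pow_le_pow_left₀ (norm_nonneg _) h5 2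
      have h8 : (w + 15) ^ 2 ≤ 2 * w ^ 2 + 450 := by nlinarith [sq_nonneg (w - 15)]
      rw [hw2] at h8
      linarith
    have h1 : ∫ s in (0 : ℝ)..1, ‖mains (s ^ 2) ν₀ M‖ ^ 2 ≤ ∫ _s in (0 : ℝ)..1, 452 * (1 / ν₀) :=
      intervalIntegral.integral_mono_on (by norm_num) (hii 0 1) (by simp) hb
    rw [intervalIntegral.integral_const, sub_zero, one_smul] at h1
    refine h1.trans ?_
    have h3 : 452 * (1 / ν₀) ≤ (2 * C + 452) * (1 / ν₀) := by
      refine mul_le_mul_of_nonneg_right (by linarith) (by positivity)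
    refine h3.trans (mul_le_mul_of_nonneg_left ?_ (by positivity))
    exact le_add_of_nonneg_right (Real.log_nonneg (by norm_num))
  | succ n ih =>
    have hp : (0 : ℝ) < 2 ^ n := by positivity
    have hp1 : (1 : ℝ) ≤ 2 ^ n := one_le_pow₀ (by norm_num)
    have hps : (2 : ℝ) ^ (n + 1) = 2 * 2 ^ n := by ring
    have ih' := ih (by rw [hps] at hM; linarith)
    rw [← intervalIntegral.integral_add_adjacent_intervals (hii 0 (2 ^ n)) (hii (2 ^ n) (2 ^ (n + 1)))]
    have hM1 : 1 ≤ M := by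
      have : (1 : ℝ) ≤ M := by rw [hps] at hM; linarith
      exact_mod_cast this
    have h1 := hms (2 ^ n) ν₀ (2 ^ (n + 2)) hp hν hν1 (by push_cast; rw [pow_add]; linarith)
    have h2 : ∫ s in (2 : ℝ) ^ n..2 * 2 ^ n, ‖mains (s ^ 2) ν₀ M‖ ^ 2 ≤
        ∫ s in (2 : ℝ) ^ n..2 * 2 ^ n, (2 * ‖mains (s ^ 2) ν₀ (2 ^ (n + 2))‖ ^ 2 + 392) := by
      refine intervalIntegral.integral_mono_on (by linarith) (hii _ _)
        ((((MSx_pcont ν₀ (2 ^ (n + 2))).const_mul 2).add continuous_const).intervalIntegrable _ _) ?_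
      intro s hs
      have hs0 : 0 ≤ s := hp.le.trans hs.1
      refine MSx_sq (norm_nonneg _) (MSx_cmp s ν₀ (2 ^ (n + 2)) M hν hν1 (Nat.one_le_two_pow) hM1 ?_ ?_)
      · rw [abs_of_nonneg hs0]
        push_cast
        rw [pow_add]
        linarith [hs.2]
      · rw [abs_of_nonneg hs0]
        rw [hps] at hM
        linarith [hs.2]
    rw [intervalIntegral.integral_add
      (((MSx_pcont ν₀ (2 ^ (n + 2))).const_mul 2).intervalIntegrable _ _) (by simp),
      intervalIntegral.integral_const_mul, intervalIntegral.integral_const] at h2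
    have h3 : (2 * 2 ^ n - 2 ^ n : ℝ) • (392 : ℝ) = 392 * 2 ^ n := by
      rw [smul_eq_mul]
      ring
    rw [h3] at h2
    rw [hps]
    have hl : Real.log (2 + 2 ^ n) ≤ Real.log (2 + 2 * 2 ^ n) :=
      Real.log_le_log (by positivity) (by linarith)
    have hl0 : 0 ≤ Real.log (2 + 2 ^ n) := Real.log_nonneg (by linarith)
    set Q : ℝ := 1 / ν₀ + Real.log (2 + 2 ^ n) with hQ
    have hQ1 : 1 ≤ Q := by linarith
    have h4 : (392 : ℝ) * 2 ^ n ≤ 392 * (2 ^ n * Q) := by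
      nlinarith
    have h5 : (∫ s in (0 : ℝ)..2 ^ n, ‖mains (s ^ 2) ν₀ M‖ ^ 2) +
        (∫ s in (2 : ℝ) ^ n..2 * 2 ^ n, ‖mains (s ^ 2) ν₀ M‖ ^ 2) ≤
        (2 * C + 452) * (2 * 2 ^ n * Q) := by
      nlinarith
    refine h5.trans ?_
    refine mul_le_mul_of_nonneg_left (mul_le_mul_of_nonneg_left (by linarith) (by positivity))
      (by positivity)

/-- change of variables -/
private theorem MSx_sub {g : ℝ → ℝ} (hg : Continuous g) (hg0 : ∀ s, 0 ≤ g s) {X a : ℝ} (hX : 0 < X) :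
    ∫ x in X..(2 * X), g (a - √x) ≤ 2 * √(2 * X) * ∫ s in (a - √(2 * X))..(a - √X), g s := by
  have hpos : ∀ x ∈ Set.Icc X (2 * X), 0 < x := fun x hx => hX.trans_le hx.1
  have hu : Set.uIcc X (2 * X) = Set.Icc X (2 * X) := Set.uIcc_of_le (by linarith)
  have hder : ∀ x ∈ Set.uIcc X (2 * X), HasDerivAt (fun x => a - √x) (-(1 / (2 * √x))) x := by
    intro x hx
    rw [hu] at hx
    have := (Real.hasDerivAt_sqrt (hpos x hx).ne').const_sub a
    exact this
  have hcont : ContinuousOn (fun x : ℝ => -(1 / (2 * √x))) (Set.uIcc X (2 * X)) := by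
    rw [hu]
    refine ContinuousOn.neg (ContinuousOn.div continuousOn_const (by fun_prop) fun x hx => ?_)
    have := Real.sqrt_pos.2 (hpos x hx)
    positivity
  have hsub := intervalIntegral.integral_comp_mul_deriv hder hcont hg
  rw [intervalIntegral.integral_symm (a - √X)] 
  rw [← hsub, ← intervalIntegral.integral_neg, ← intervalIntegral.integral_const_mul]
  refine intervalIntegral.integral_mono_on (by linarith) ?_ ?_ ?_
  · exact (hg.comp (by fun_prop)).intervalIntegrable _ _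
  · refine ContinuousOn.intervalIntegrable ?_
    refine continuousOn_const.mul (ContinuousOn.neg (ContinuousOn.mul ?_ hcont))
    exact (hg.comp (by fun_prop)).continuousOn
  · intro x hx
    have h1 := Real.sqrt_pos.2 (hpos x hx)
    have h2 : √x ≤ √(2 * X) := Real.sqrt_le_sqrt hx.2
    have h3 : 1 ≤ √(2 * X) / √x := (one_le_div h1).2 h2
    have h4 : 2 * √(2 * X) * -((g ∘ fun x => a - √x) x * -(1 / (2 * √x))) =
        g (a - √x) * (√(2 * X) / √x) := by
      simp only [Function.comp_apply]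
      field_simp
    rw [h4]
    exact le_mul_of_one_le_right (hg0 _) h3

theorem ms_x : ∃ C : ℝ, 0 < C ∧ ∀ X N ν₀ L : ℝ, 1 ≤ L → 16 * L ≤ X → 0 < N → 0 < ν₀ → ν₀ ≤ 1 →
    ∫ x in X..(2 * X), mx N ν₀ L x ^ 2 ≤ C * (√(X * N) * (1 / ν₀ + Real.log (2 + N))) := by
  obtain ⟨C, hC, hms⟩ := ms_dyadic
  refine ⟨24 * (2 * C + 452) + 392, by positivity, ?_⟩
  intro X N ν₀ L hL hX hN hν hν1
  have hX16 : 16 ≤ X := by linarith
  have hX0 : 0 < X := by linarith
  have hin : 1 ≤ 1 / ν₀ := (one_le_div hν).2 hν1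
  have hlN : 0 ≤ Real.log (2 + N) := Real.log_nonneg (by linarith)
  set Q : ℝ := 1 / ν₀ + Real.log (2 + N) with hQ
  have hQ1 : 1 ≤ Q := by linarith
  rcases lt_or_ge N X with hNX | hNX
  · -- the integrand vanishes
    have h1 : ∫ x in X..(2 * X), mx N ν₀ L x ^ 2 = ∫ _x in X..(2 * X), (0 : ℝ) := by
      refine intervalIntegral.integral_congr fun x hx => ?_
      rw [Set.uIcc_of_le (by linarith)] at hx
      have h2 : ¬ x ≤ N := by
        have := hx.1
        linarith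
      simp only [mx, if_neg h2]
      norm_num
    rw [h1, intervalIntegral.integral_zero]
    positivity
  · have hN16 : 16 ≤ N := by linarith
    have hsN : 4 ≤ √N := Real.le_sqrt_of_sq_le (by linarith)
    have hsX : 4 ≤ √X := Real.le_sqrt_of_sq_le (by linarith)
    have hsN2 : √N * √N = N := Real.mul_self_sqrt hN.le
    have hsX2 : √X * √X = X := Real.mul_self_sqrt hX0.le
    have hXN : √X ≤ √N := Real.sqrt_le_sqrt hNX
    have hs2X : √(2 * X) ≤ 3 / 2 * √X := by
      rw [Real.sqrt_mul (by norm_num)]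
      refine mul_le_mul_of_nonneg_right ?_ (by positivity)
      rw [Real.sqrt_le_left (by norm_num)]
      norm_num
    set M : ℕ := ⌈4 * √N⌉₊ with hM
    have hM4 : 4 * √N ≤ M := Nat.le_ceil _
    have hM1 : 1 ≤ M := by
      have : (1 : ℝ) ≤ M := by linarith
      exact_mod_cast this
    set g : ℝ → ℝ := fun s => ‖mains (s ^ 2) ν₀ M‖ ^ 2 with hg
    have hgc : Continuous g := MSx_pcont ν₀ M
    have hg0 : ∀ s, 0 ≤ g s := fun s => by positivity
    -- comparison
    have hcmp : ∀ x ∈ Set.Icc X (2 * X), mx N ν₀ L x ^ 2 ≤ 2 * g (√N - √x) + 392 := by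
      intro x hx
      unfold mx
      split_ifs with h
      · have hx0 : 0 < x := hX0.trans_le hx.1
        have hsx : √X ≤ √x := Real.sqrt_le_sqrt hx.1
        have hsxN : √x ≤ √N := Real.sqrt_le_sqrt h
        have hk : 2 * √N - 1 ≤ (cnt ν₀ (√(x * N / L) / 2) : ℝ) := by
          unfold cnt
          refine le_trans ?_ (Nat.le_ceil _)
          have h1 : 4 * √N ≤ √(x * N / L) := by
            refine Real.le_sqrt_of_sq_le ?_
            rw [mul_pow, Real.sq_sqrt hN.le, le_div_iff₀ (by linarith)]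
            have : 16 * L * N ≤ x * N := by
              refine mul_le_mul_of_nonneg_right (hX.trans hx.1) hN.le
            linarith
          linarith
        have hk1 : 1 ≤ cnt ν₀ (√(x * N / L) / 2) := by
          have : (1 : ℝ) ≤ (cnt ν₀ (√(x * N / L) / 2) : ℝ) := by linarith
          exact_mod_cast this
        refine MSx_sq (norm_nonneg _) (MSx_cmp _ ν₀ M _ hν hν1 hM1 hk1 ?_ ?_)
        · rw [abs_of_nonneg (by linarith)]
          linarith
        · rw [abs_of_nonneg (by linarith)]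
          linarith
      · have := hg0 (√N - √x)
        norm_num
        linarith
    have hle : ∫ x in X..(2 * X), mx N ν₀ L x ^ 2 ≤ ∫ x in X..(2 * X), (2 * g (√N - √x) + 392) := by
      rw [intervalIntegral.integral_of_le (by linarith), intervalIntegral.integral_of_le (by linarith)]
      refine integral_mono_of_nonneg (Filter.Eventually.of_forall fun x => sq_nonneg _) ?_ ?_
      · have : IntervalIntegrable (fun x => 2 * g (√N - √x) + 392) volume X (2 * X) := by
          refine Continuous.intervalIntegrable ?_ _ _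
          exact ((hgc.comp (by fun_prop)).const_mul 2).add continuous_const
        exact (intervalIntegrable_iff_integrableOn_Ioc_of_le (by linarith)).1 this
      · refine (ae_restrict_iff' measurableSet_Ioc).2 (Filter.Eventually.of_forall fun x hx => ?_)
        exact hcmp x ⟨hx.1.le, hx.2⟩
    have hci : IntervalIntegrable (fun x => 2 * g (√N - √x)) volume X (2 * X) :=
      ((hgc.comp (by fun_prop)).const_mul 2).intervalIntegrable _ _
    rw [intervalIntegral.integral_add hci (by simp), intervalIntegral.integral_const_mul,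
      intervalIntegral.integral_const] at hle
    have hsub := MSx_sub hgc hg0 (a := √N) hX0
    -- the integral over s
    obtain ⟨n, hn1, hn2⟩ := exists_nat_pow_near (show (1 : ℝ) ≤ √N by linarith) (show (1 : ℝ) < 2 by norm_num)
    have hn3 : (2 : ℝ) ^ (n + 1) ≤ 2 * √N := by
      rw [pow_succ]
      linarith
    have hdy := MSx_dy hC hms ν₀ M hν hν1 (n + 1) (by linarith)
    have hgi : ∀ a b : ℝ, IntervalIntegrable g volume a b := fun a b => hgc.intervalIntegrable a b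
    have hpos : ∫ s in (0 : ℝ)..√N, g s ≤ ∫ s in (0 : ℝ)..2 ^ (n + 1), g s := by
      refine intervalIntegral.integral_mono_interval le_rfl (by positivity) hn2.le
        (Filter.Eventually.of_forall fun s => hg0 s) (hgi _ _)
    have heven : ∫ s in (-√N)..0, g s = ∫ s in (0 : ℝ)..√N, g s := by
      have h1 := intervalIntegral.integral_comp_neg (a := 0) (b := √N) g
      rw [neg_zero] at h1
      rw [← h1]
      refine intervalIntegral.integral_congr fun s _ => ?_
      simp only [hg, neg_sq]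
    have hint : ∫ s in (√N - √(2 * X))..(√N - √X), g s ≤ ∫ s in (-√N)..√N, g s := by
      refine intervalIntegral.integral_mono_interval ?_ ?_ ?_
        (Filter.Eventually.of_forall fun s => hg0 s) (hgi _ _)
      · linarith
      · have : √X ≤ √(2 * X) := Real.sqrt_le_sqrt (by linarith)
        linarith
      · linarith
    rw [← intervalIntegral.integral_add_adjacent_intervals (hgi (-√N) 0) (hgi 0 √N), heven] at hint
    have hlog : Real.log (2 + 2 ^ (n + 1)) ≤ Real.log (2 + N) := by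
      refine Real.log_le_log (by positivity) ?_
      nlinarith
    have hlog0 : 0 ≤ Real.log (2 + 2 ^ (n + 1)) := Real.log_nonneg (by
      have : (0 : ℝ) < 2 ^ (n + 1) := by positivity
      linarith)
    have hdy2 : ∫ s in (0 : ℝ)..2 ^ (n + 1), g s ≤ (2 * C + 452) * (2 * √N * Q) := by
      refine hdy.trans (mul_le_mul_of_nonneg_left ?_ (by positivity))
      refine mul_le_mul hn3 (by linarith) (by linarith) (by positivity)
    have hint2 : ∫ s in (√N - √(2 * X))..(√N - √X), g s ≤ 4 * ((2 * C + 452) * (√N * Q)) := by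
      linarith
    have hI : ∫ x in X..(2 * X), g (√N - √x) ≤ 12 * ((2 * C + 452) * (√X * √N * Q)) := by
      refine hsub.trans ?_
      have h1 : 0 ≤ (2 * C + 452) * (√N * Q) := by positivity
      calc 2 * √(2 * X) * ∫ s in (√N - √(2 * X))..(√N - √X), g s
          ≤ 2 * √(2 * X) * (4 * ((2 * C + 452) * (√N * Q))) :=
            mul_le_mul_of_nonneg_left hint2 (by positivity)
        _ ≤ 2 * (3 / 2 * √X) * (4 * ((2 * C + 452) * (√N * Q))) := by
            refine mul_le_mul_of_nonneg_right ?_ (by positivity)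
            linarith
        _ = 12 * ((2 * C + 452) * (√X * √N * Q)) := by ring
    have hXX : (2 * X - X) • (392 : ℝ) ≤ 392 * (√X * √N * Q) := by
      rw [smul_eq_mul]
      have h1 : X ≤ √X * √N := by
        nlinarith
      have h2 : √X * √N ≤ √X * √N * Q := le_mul_of_one_le_right (by positivity) hQ1
      linarith
    rw [Real.sqrt_mul hX0.le]
    have h9 : ∫ x in X..(2 * X), mx N ν₀ L x ^ 2 ≤
        2 * (12 * ((2 * C + 452) * (√X * √N * Q))) + 392 * (√X * √N * Q) := by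
      linarith
    refine h9.trans (le_of_eq ?_)
    ring

end Pool.Agent.Helper31.FI
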