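import Pool.Agent.Helper31.FI.Split

/-!
# FI-TL: crude bound for a chain integral

For `ν < rho N u`, `y = u + I/N`, `X = 1 - ν y`: `|X|² = |y|² ((re (1/y) - ν)² + im (1/y)²) ≤ 1` and `|X| ≥ ν/N`, so by `norm_gk`
`‖gk‖ ≤ (N/ν)^(1/2) exp (π - π x/N) ≤ (N/ν₀)^(1/2) exp (π - π x/N)`.  `ch` vanishes unless `ν₀ < rho N u < 1/u`, i.e. `0 < u < 1/ν₀`, and has
at most `N/2 + 1` terms (`rho_le`).
-/

set_option autoImplicit false

namespace Pool.Agent.Helper31.FI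

open Complex Real Finset MeasureTheory

private lemma Tail_re (N ν u : ℝ) : (1 - (ν : ℂ) * (u + I / N)).re = 1 - ν * u := by simp

private lemma Tail_im (N ν u : ℝ) : (1 - (ν : ℂ) * (u + I / N)).im = -(ν / N) := by
  simp
  ring

private lemma Tail_pos {N ν u : ℝ} (hν : 0 < ν) (h : ν < rho N u) : 0 < u := by
  by_contra hcon
  push Not at hcon
  have : rho N u ≤ 0 := div_nonpos_of_nonpos_of_nonneg hcon (by positivity)
  linarith

theorem norm_one_sub_le {N ν u : ℝ} (hN : 0 < N) (hν : 0 < ν) (h : ν < rho N u) :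
    ‖1 - (ν : ℂ) * (u + I / N)‖ ≤ 1 := by
  have hu := Tail_pos hν h
  have hD : 0 < u ^ 2 + (1 / N) ^ 2 := by positivity
  have h1 : ν * (u ^ 2 + (1 / N) ^ 2) < u := by
    unfold rho at h
    rwa [lt_div_iff₀ hD] at h
  have h2 : ‖1 - (ν : ℂ) * (u + I / N)‖ ^ 2 ≤ 1 ^ 2 := by
    rw [Complex.sq_norm, Complex.normSq_apply, Tail_re, Tail_im]
    have h3 : ν * (ν * (u ^ 2 + (1 / N) ^ 2)) ≤ ν * u := mul_le_mul_of_nonneg_left h1.le hν.le
    have h4 : 0 < ν * u := by positivity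
    have h5 : (1 - ν * u) * (1 - ν * u) + -(ν / N) * -(ν / N) =
        1 - 2 * (ν * u) + ν * (ν * (u ^ 2 + (1 / N) ^ 2)) := by
      field_simp
      ring
    rw [h5]
    linarith
  exact le_of_sq_le_sq h2 zero_le_one

private lemma Tail_gk {x N ν₀ ν u : ℝ} (hx : 0 ≤ x) (hN : 0 < N) (hν₀ : 0 < ν₀) (hν : ν₀ ≤ ν)
    (h : ν < rho N u) :
    ‖gk x N ν (u + I / N)‖ ≤ (ν₀ / N) ^ (-(1 / 2) : ℝ) * (rexp π * rexp (-(π * x / N))) := by
  have hν0 : 0 < ν := hν₀.trans_le hν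
  have him : ((u : ℂ) + I / N).im = 1 / N := by simp
  rw [norm_gk (by rw [him]; positivity) hν0.le, him]
  have h1 := norm_one_sub_le hN hν0 h
  have h2 : ν₀ / N ≤ ‖1 - (ν : ℂ) * (u + I / N)‖ := by
    have h3 := Complex.abs_im_le_norm (1 - (ν : ℂ) * (u + I / N))
    rw [Tail_im, abs_neg, abs_of_pos (by positivity)] at h3
    refine le_trans ?_ h3
    gcongr
  have h0 : 0 < ν₀ / N := by positivity
  set R : ℝ := ‖1 - (ν : ℂ) * (u + I / N)‖ with hR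
  have hR0 : 0 < R := h0.trans_le h2
  refine mul_le_mul (Real.rpow_le_rpow_of_nonpos h0 h2 (by norm_num)) ?_ (Real.exp_pos _).le
    (Real.rpow_nonneg h0.le _)
  rw [← Real.exp_add]
  refine Real.exp_le_exp.2 ?_
  have h3 : π * N * (1 / N) = π := by field_simp
  have h4 : π * x / N ≤ π * x * (1 / N) / R ^ 2 := by
    have h5 : R ^ 2 ≤ 1 := pow_le_one₀ hR0.le h1
    rw [le_div_iff₀ (by positivity)]
    have h6 : 0 ≤ π * x / N := by positivity
    calc π * x / N * R ^ 2 ≤ π * x / N * 1 := mul_le_mul_of_nonneg_left h5 h6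
      _ = π * x * (1 / N) := by ring
  rw [h3]
  linarith

theorem tail : ∃ C : ℝ, 0 < C ∧ ∀ x N ν₀ : ℝ, 0 ≤ x → 0 < N → 0 < ν₀ →
    ‖∫ u, ch x N ν₀ u‖ ≤ C * ((N + 1) ^ 2 * ν₀ ^ (-(3 / 2) : ℝ) * rexp (-(π * x / N))) := by
  refine ⟨rexp π, Real.exp_pos _, ?_⟩
  intro x N ν₀ hx hN hν
  have hzero : ∀ u, u ∉ Set.Ioo (0 : ℝ) (1 / ν₀) → ch x N ν₀ u = 0 := by
    intro u hu
    have h1 : cnt ν₀ (rho N u) = 0 := by
      unfold cnt
      rw [Nat.ceil_eq_zero]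
      by_contra hcon
      push Not at hcon
      have h2 : ν₀ < rho N u := by linarith
      have h3 := Tail_pos hν h2
      refine hu ⟨h3, ?_⟩
      have h4 := h2.trans (rho_lt hN h3)
      rw [lt_div_iff₀ h3] at h4
      rw [lt_div_iff₀ hν]
      linarith
    unfold ch
    rw [h1, Finset.range_zero, Finset.sum_empty]
  have hze : ‖ze‖ = 1 := by
    unfold ze
    rw [Complex.norm_exp]
    have : (3 * (π : ℂ) * I / 4).re = 0 := by
      rw [show (3 * (π : ℂ) * I / 4) = ((3 * π / 4 : ℝ) : ℂ) * I by push_cast; ring]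
      simp
    rw [this, Real.exp_zero]
  set K : ℝ := (ν₀ / N) ^ (-(1 / 2) : ℝ) * (rexp π * rexp (-(π * x / N))) with hK
  have hK0 : 0 ≤ K := by positivity
  have hbd : ∀ u ∈ Set.Ioo (0 : ℝ) (1 / ν₀), ‖ch x N ν₀ u‖ ≤ (N + 1) * K := by
    intro u _
    unfold ch
    refine (norm_sum_le _ _).trans ?_
    have h1 : ∀ i ∈ range (cnt ν₀ (rho N u)),
        ‖ze ^ i * gk x N (ν₀ + i) (u + I / N)‖ ≤ K := by
      intro i hi
      have h2 : (i : ℝ) < rho N u - ν₀ := Nat.lt_ceil.1 (Finset.mem_range.1 hi)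
      rw [norm_mul, norm_pow, hze, one_pow, one_mul]
      have h3 := Tail_gk (x := x) hx hN hν (ν := ν₀ + i) (by
        have : (0 : ℝ) ≤ i := Nat.cast_nonneg i
        linarith) (by linarith : ν₀ + i < rho N u)
      exact h3
    refine (Finset.sum_le_card_nsmul _ _ _ h1).trans ?_
    rw [nsmul_eq_mul, Finset.card_range]
    refine mul_le_mul_of_nonneg_right ?_ hK0
    unfold cnt
    rcases le_or_gt 0 (rho N u - ν₀) with h | h
    · have h2 := Nat.ceil_lt_add_one h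
      have h3 := rho_le (u := u) hN
      linarith
    · rw [Nat.ceil_eq_zero.2 h.le]
      push_cast
      linarith
  rw [← setIntegral_eq_integral_of_forall_compl_eq_zero hzero]
  refine (norm_setIntegral_le_of_norm_le_const (by simp) hbd).trans ?_
  rw [Measure.real, Real.volume_Ioo, ENNReal.toReal_ofReal (by rw [sub_zero]; positivity), sub_zero,
    hK]
  have e1 : (ν₀ / N) ^ (-(1 / 2) : ℝ) = ν₀ ^ (-(1 / 2) : ℝ) * N ^ (1 / 2 : ℝ) := by
    rw [Real.div_rpow hν.le hN.le, Real.rpow_neg hN.le, div_inv_eq_mul]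
  have e2 : ν₀ ^ (-(3 / 2) : ℝ) = ν₀ ^ (-(1 / 2) : ℝ) * (1 / ν₀) := by
    rw [show (-(3 / 2) : ℝ) = -(1 / 2) + (-1) by norm_num, Real.rpow_add hν, Real.rpow_neg_one]
    ring
  have e3 : N ^ (1 / 2 : ℝ) ≤ N + 1 := by
    rw [← Real.sqrt_eq_rpow]
    rw [Real.sqrt_le_left (by linarith)]
    nlinarith
  rw [e1, e2]
  have h0 : 0 ≤ ν₀ ^ (-(1 / 2) : ℝ) := Real.rpow_nonneg hν.le _
  calc (N + 1) * (ν₀ ^ (-(1 / 2) : ℝ) * N ^ (1 / 2 : ℝ) * (rexp π * rexp (-(π * x / N)))) *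
        (1 / ν₀) = (rexp π * ((N + 1) * (ν₀ ^ (-(1 / 2) : ℝ) * (1 / ν₀)) *
          rexp (-(π * x / N)))) * N ^ (1 / 2 : ℝ) := by ring
    _ ≤ (rexp π * ((N + 1) * (ν₀ ^ (-(1 / 2) : ℝ) * (1 / ν₀)) *
          rexp (-(π * x / N)))) * (N + 1) :=
        mul_le_mul_of_nonneg_left e3 (by positivity)
    _ = rexp π * ((N + 1) ^ 2 * (ν₀ ^ (-(1 / 2) : ℝ) * (1 / ν₀)) * rexp (-(π * x / N))) := by
        ring

end Pool.Agent.Helper31.FI
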