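import Pool.Agent.Helper31.FI.Chain
import Pool.Agent.Helper31.FI.Tail
import Pool.Agent.Helper31.FI.Cidx
import Pool.Agent.Helper31.FI.MSx

/-!
# FI-MB: summation over `j` and `m`, keeping the main sums

As in `MainInt` (see there), but with `chain` instead of `chain'`: the terms other than the main sums contribute
`≤ C L² n^(1/4) x^(-3/4)`; the main sums occur only for `x ≤ N = n/j²`, with factor `j^(-3/2) N^(-1/2) = j^(-1/2) n^(-1/2)`.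
-/

set_option autoImplicit false

namespace Pool.Agent.Helper31.FI

open Complex Real Finset MeasureTheory

/-- weighted sum of the main sums -/
noncomputable def mw (n : ℕ) (x : ℝ) : ℝ :=
  ∑ j ∈ (range n).filter Odd, ∑ m ∈ Ms j, ((j : ℝ) ^ (-(1 / 2) : ℝ) * (n : ℝ) ^ (-(1 / 2) : ℝ)) *
    mx (n / (j : ℝ) ^ 2) ((c0 j m : ℝ) / j) (2 + 2 * Real.log n) x

private theorem MB_N {n a : ℝ} (hn : 0 < n) (ha : 0 < a) (s : ℝ) :
    (n / a ^ 2) ^ s = n ^ s * a ^ (-(2 * s)) := by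
  rw [Real.div_rpow hn.le (by positivity), ← Real.rpow_natCast a 2, ← Real.rpow_mul ha.le,
    Real.rpow_neg ha.le, div_eq_mul_inv]
  norm_num

private theorem MB_le {L n x s t : ℝ} (hL : 1 ≤ L) (hn : 0 < n) (hx : 1 ≤ x) (hs : s ≤ 2)
    (ht : 3 / 4 ≤ t) :
    L ^ s * (n ^ (1 / 4 : ℝ) * x ^ (-t)) ≤ L ^ 2 * (n ^ (1 / 4 : ℝ) * x ^ (-(3 / 4) : ℝ)) := by
  have h1 : L ^ s ≤ L ^ 2 := by
    rw [← Real.rpow_natCast L 2]
    exact Real.rpow_le_rpow_of_exponent_le hL (by norm_num; exact hs)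
  have h2 : x ^ (-t) ≤ x ^ (-(3 / 4) : ℝ) :=
    Real.rpow_le_rpow_of_exponent_le hx (by linarith)
  have h3 : 0 < n ^ (1 / 4 : ℝ) := by positivity
  have h4 : 0 < x ^ (-t) := by positivity
  gcongr

private theorem MB_mx (N ν₀ L x : ℝ) : 0 ≤ mx N ν₀ L x := by
  unfold mx
  split_ifs
  · exact norm_nonneg _
  · exact le_refl _

/-- the terms for one `j` -/
private theorem MB_A {C : ℝ} (hC : 0 < C) (hch : ∀ (x N ν₀ L : ℝ), 1 ≤ x → 0 < N → 0 < ν₀ →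
    ν₀ ≤ 1 → 1 ≤ L → x ≤ L * N →
    ‖∫ u, ch x N ν₀ u‖ ≤ C * ((mx N ν₀ L x + ν₀ ^ (-(1 / 2) : ℝ)) / √N +
      1 / N + L * N ^ (-(1 / 4) : ℝ) * x ^ (-(3 / 4) : ℝ) + rexp (-L)))
    {n : ℝ} {j : ℕ} {x L J : ℝ} (hj : Odd j) (hn : 0 < n) (hx : 1 ≤ x) (hL : 1 ≤ L)
    (hjJ : (j : ℝ) ≤ J) (hJ : J ^ 2 * x ≤ L * n) :
    ∑ m ∈ Ms j, (j : ℝ) ^ (-(3 / 2) : ℝ) * ‖∫ u, ch x (n / (j : ℝ) ^ 2) ((c0 j m : ℝ) / j) u‖ ≤
      C * (2 * (J ^ (1 / 2 : ℝ) * n ^ (-(1 / 2) : ℝ)) +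
        J ^ (3 / 2 : ℝ) * n ^ (-1 : ℝ) + L * n ^ (-(1 / 4) : ℝ) * x ^ (-(3 / 4) : ℝ) +
        rexp (-L)) +
      C * ∑ m ∈ Ms j, ((j : ℝ) ^ (-(1 / 2) : ℝ) * n ^ (-(1 / 2) : ℝ)) *
        mx (n / (j : ℝ) ^ 2) ((c0 j m : ℝ) / j) L x := by
  have hj1 : 1 ≤ j := hj.pos
  set a : ℝ := (j : ℝ) with ha
  have ha1 : 1 ≤ a := by
    rw [ha]
    exact_mod_cast hj1
  have ha0 : 0 < a := by linarith
  have hJ0 : 0 < J := by linarith
  have hx0 : 0 < x := by linarith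
  have hL0 : 0 < L := by linarith
  set N : ℝ := n / a ^ 2 with hN
  have hN0 : 0 < N := by positivity
  have hxN : x ≤ L * N := by
    have h1 : a ^ 2 ≤ J ^ 2 := pow_le_pow_left₀ ha0.le hjJ 2
    rw [hN, ← mul_div_assoc, le_div_iff₀ (by positivity)]
    nlinarith [mul_le_mul_of_nonneg_left h1 hx0.le]
  have hcop : ∀ m ∈ Ms j, IsCoprime (j : ℤ) m := by
    classical
    intro m hm
    unfold Ms at hm
    rw [Finset.mem_filter] at hm
    exact hm.2.2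
  set K : ℝ := 1 / N + L * N ^ (-(1 / 4) : ℝ) * x ^ (-(3 / 4) : ℝ) +
    rexp (-L) with hK
  have hK0 : 0 ≤ K := by positivity
  have h1 : ∀ m ∈ Ms j, a ^ (-(3 / 2) : ℝ) * ‖∫ u, ch x N ((c0 j m : ℝ) / a) u‖ ≤
      a ^ (-(3 / 2) : ℝ) * (C * (((c0 j m : ℝ) / a) ^ (-(1 / 2) : ℝ) / √N + K)) +
      C * (a ^ (-(3 / 2) : ℝ) * (1 / √N) * mx N ((c0 j m : ℝ) / a) L x) := by
    intro m hm
    obtain ⟨h2, h3, -⟩ := c0_spec hj1 (hcop m hm)
    have h2' : (1 : ℝ) ≤ c0 j m := by exact_mod_cast h2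
    have h3' : (c0 j m : ℝ) ≤ a := by rw [ha]; exact_mod_cast h3
    have h4 := hch x N ((c0 j m : ℝ) / a) L hx hN0 (by positivity)
      ((div_le_one ha0).2 h3') hL hxN
    have h5 : a ^ (-(3 / 2) : ℝ) * ‖∫ u, ch x N ((c0 j m : ℝ) / a) u‖ ≤
        a ^ (-(3 / 2) : ℝ) * (C * ((mx N ((c0 j m : ℝ) / a) L x +
          ((c0 j m : ℝ) / a) ^ (-(1 / 2) : ℝ)) / √N +
        1 / N + L * N ^ (-(1 / 4) : ℝ) * x ^ (-(3 / 4) : ℝ) + rexp (-L))) :=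
      mul_le_mul_of_nonneg_left h4 (by positivity)
    refine h5.trans (le_of_eq ?_)
    rw [hK]
    ring
  refine (Finset.sum_le_sum h1).trans ?_
  rw [Finset.sum_add_distrib]
  have hsN : 0 < √N := Real.sqrt_pos.2 hN0
  have p0 : a ^ (-(3 / 2) : ℝ) * a = a ^ (-(1 / 2) : ℝ) := by
    nth_rewrite 2 [← Real.rpow_one a]
    rw [← Real.rpow_add ha0]
    norm_num
  have p1 : 1 / √N = n ^ (-(1 / 2) : ℝ) * a := by
    rw [Real.sqrt_eq_rpow, one_div, ← Real.rpow_neg hN0.le, hN, MB_N hn ha0]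
    norm_num
  have hmain : ∑ m ∈ Ms j, C * (a ^ (-(3 / 2) : ℝ) * (1 / √N) * mx N ((c0 j m : ℝ) / a) L x) =
      C * ∑ m ∈ Ms j, (a ^ (-(1 / 2) : ℝ) * n ^ (-(1 / 2) : ℝ)) *
        mx N ((c0 j m : ℝ) / a) L x := by
    rw [← Finset.mul_sum]
    congr 1
    refine Finset.sum_congr rfl fun m _ => ?_
    rw [p1, ← p0]
    ring
  rw [hmain]
  refine add_le_add ?_ (le_refl _)
  have h5 : ∑ m ∈ Ms j, a ^ (-(3 / 2) : ℝ) *
      (C * (((c0 j m : ℝ) / a) ^ (-(1 / 2) : ℝ) / √N + K)) =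
      C * (a ^ (-(3 / 2) : ℝ) * ((∑ m ∈ Ms j, ((c0 j m : ℝ) / a) ^ (-(1 / 2) : ℝ)) / √N +
        (Ms j).card * K)) := by
    rw [← Finset.mul_sum, ← Finset.mul_sum, Finset.sum_add_distrib, ← Finset.sum_div,
      Finset.sum_const, nsmul_eq_mul]
    ring
  rw [h5]
  apply mul_le_mul_of_nonneg_left _ hC.le
  have h6 : ∑ m ∈ Ms j, ((c0 j m : ℝ) / a) ^ (-(1 / 2) : ℝ) ≤ 2 * a := sum_c0 hj
  have h7 : ((Ms j).card : ℝ) ≤ a := by rw [ha]; exact_mod_cast card_Ms hj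
  have h8 : a ^ (-(3 / 2) : ℝ) * ((∑ m ∈ Ms j, ((c0 j m : ℝ) / a) ^ (-(1 / 2) : ℝ)) / √N +
        (Ms j).card * K) ≤ a ^ (-(3 / 2) : ℝ) * (2 * a / √N + a * K) := by
    apply mul_le_mul_of_nonneg_left _ (by positivity)
    exact add_le_add (div_le_div_of_nonneg_right h6 hsN.le) (mul_le_mul_of_nonneg_right h7 hK0)
  refine h8.trans ?_
  -- powers
  have p3 : 1 / N = n ^ (-1 : ℝ) * a ^ (2 : ℝ) := by
    rw [one_div, ← Real.rpow_neg_one N, hN, MB_N hn ha0]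
    norm_num
  have p4 : N ^ (-(1 / 4) : ℝ) = n ^ (-(1 / 4) : ℝ) * a ^ (1 / 2 : ℝ) := by
    rw [hN, MB_N hn ha0]
    norm_num
  have q1 : a ^ (-(1 / 2) : ℝ) * a = a ^ (1 / 2 : ℝ) := by
    nth_rewrite 2 [← Real.rpow_one a]
    rw [← Real.rpow_add ha0]
    norm_num
  have q3 : a ^ (-(1 / 2) : ℝ) * a ^ (2 : ℝ) = a ^ (3 / 2 : ℝ) := by
    rw [← Real.rpow_add ha0]
    norm_num
  have q4 : a ^ (-(1 / 2) : ℝ) * a ^ (1 / 2 : ℝ) = 1 := by
    rw [← Real.rpow_add ha0]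
    norm_num
  have e1 : a ^ (-(3 / 2) : ℝ) * (2 * a / √N + a * K) =
      2 * (a ^ (1 / 2 : ℝ) * n ^ (-(1 / 2) : ℝ)) +
        a ^ (3 / 2 : ℝ) * n ^ (-1 : ℝ) + L * n ^ (-(1 / 4) : ℝ) * x ^ (-(3 / 4) : ℝ) +
        a ^ (-(1 / 2) : ℝ) * rexp (-L) := by
    have e2 : a ^ (-(3 / 2) : ℝ) * (2 * a / √N + a * K) =
        (a ^ (-(3 / 2) : ℝ) * a) * (2 * (1 / √N) + K) := by ring
    rw [e2, p0, hK, p3, p4, p1]
    linear_combination (2 * n ^ (-(1 / 2) : ℝ)) * q1 +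
      n ^ (-1 : ℝ) * q3 + (L * n ^ (-(1 / 4) : ℝ) * x ^ (-(3 / 4) : ℝ)) * q4
  rw [e1]
  have r1 : a ^ (1 / 2 : ℝ) ≤ J ^ (1 / 2 : ℝ) := Real.rpow_le_rpow ha0.le hjJ (by norm_num)
  have r3 : a ^ (3 / 2 : ℝ) ≤ J ^ (3 / 2 : ℝ) := Real.rpow_le_rpow ha0.le hjJ (by norm_num)
  have r4 : a ^ (-(1 / 2) : ℝ) ≤ 1 := Real.rpow_le_one_of_one_le_of_nonpos ha1 (by norm_num)
  have r5 : a ^ (-(1 / 2) : ℝ) * rexp (-L) ≤ 1 * rexp (-L) :=
    mul_le_mul_of_nonneg_right r4 (Real.exp_pos _).le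
  rw [one_mul] at r5
  gcongr

/-- the terms for one `j` in the tail -/
private theorem MB_B {C : ℝ} (hC : 0 < C) (ht : ∀ x N ν₀ : ℝ, 0 ≤ x → 0 < N → 0 < ν₀ →
    ‖∫ u, ch x N ν₀ u‖ ≤ C * ((N + 1) ^ 2 * ν₀ ^ (-(3 / 2) : ℝ) * rexp (-(π * x / N))))
    {n : ℝ} {j : ℕ} {x L J : ℝ} (hj : Odd j) (hn : 0 < n) (hx : 1 ≤ x) (hL : 1 ≤ L)
    (hJ0 : 0 ≤ J) (hjJ : J < (j : ℝ)) (hJ : L * n ≤ J ^ 2 * x) (hjn : (j : ℝ) ≤ n) :
    ∑ m ∈ Ms j, (j : ℝ) ^ (-(3 / 2) : ℝ) * ‖∫ u, ch x (n / (j : ℝ) ^ 2) ((c0 j m : ℝ) / j) u‖ ≤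
      n * (C * ((n + 1) ^ 2 * rexp (-(3 * L)))) := by
  have hj1 : 1 ≤ j := hj.pos
  set a : ℝ := (j : ℝ) with ha
  have ha1 : 1 ≤ a := by
    rw [ha]
    exact_mod_cast hj1
  have ha0 : 0 < a := by linarith
  have hx0 : 0 < x := by linarith
  have hL0 : 0 < L := by linarith
  set N : ℝ := n / a ^ 2 with hN
  have hN0 : 0 < N := by positivity
  have hNn : N ≤ n := by
    rw [hN]
    apply div_le_self hn.le
    nlinarith
  have hxN : L ≤ x / N := by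
    rw [le_div_iff₀ hN0, hN, ← mul_div_assoc, div_le_iff₀ (by positivity)]
    have h1 : J ^ 2 ≤ a ^ 2 := pow_le_pow_left₀ hJ0 hjJ.le 2
    nlinarith [mul_le_mul_of_nonneg_left h1 hx0.le]
  have hcop : ∀ m ∈ Ms j, IsCoprime (j : ℤ) m := by
    classical
    intro m hm
    unfold Ms at hm
    rw [Finset.mem_filter] at hm
    exact hm.2.2
  have h1 : ∀ m ∈ Ms j, a ^ (-(3 / 2) : ℝ) * ‖∫ u, ch x N ((c0 j m : ℝ) / a) u‖ ≤
      C * ((n + 1) ^ 2 * rexp (-(3 * L))) := by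
    intro m hm
    obtain ⟨h2, h3, -⟩ := c0_spec hj1 (hcop m hm)
    have h2' : (1 : ℝ) ≤ c0 j m := by exact_mod_cast h2
    have h4 := ht x N ((c0 j m : ℝ) / a) hx0.le hN0 (by positivity)
    have h5 : a ^ (-(3 / 2) : ℝ) * ((c0 j m : ℝ) / a) ^ (-(3 / 2) : ℝ) ≤ 1 := by
      rw [← Real.mul_rpow ha0.le (by positivity), mul_div_cancel₀ _ ha0.ne']
      exact Real.rpow_le_one_of_one_le_of_nonpos h2' (by norm_num)
    have h6 : rexp (-(π * x / N)) ≤ rexp (-(3 * L)) := by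
      apply Real.exp_le_exp.2
      have h7 : π * x / N = π * (x / N) := by ring
      rw [h7]
      have h8 : 3 * L ≤ π * (x / N) := by
        have := Real.pi_gt_three
        nlinarith
      linarith
    have h9 : (N + 1) ^ 2 ≤ (n + 1) ^ 2 := pow_le_pow_left₀ (by positivity) (by linarith) 2
    have h10 : 0 ≤ rexp (-(π * x / N)) := (Real.exp_pos _).le
    calc a ^ (-(3 / 2) : ℝ) * ‖∫ u, ch x N ((c0 j m : ℝ) / a) u‖ ≤
        a ^ (-(3 / 2) : ℝ) * (C * ((N + 1) ^ 2 * ((c0 j m : ℝ) / a) ^ (-(3 / 2) : ℝ) *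
          rexp (-(π * x / N)))) := mul_le_mul_of_nonneg_left h4 (by positivity)
      _ = (a ^ (-(3 / 2) : ℝ) * ((c0 j m : ℝ) / a) ^ (-(3 / 2) : ℝ)) *
          (C * ((N + 1) ^ 2 * rexp (-(π * x / N)))) := by ring
      _ ≤ 1 * (C * ((n + 1) ^ 2 * rexp (-(3 * L)))) := by
          apply mul_le_mul h5 _ (by positivity) zero_le_one
          apply mul_le_mul_of_nonneg_left _ hC.le
          exact mul_le_mul h9 h6 h10 (by positivity)
      _ = _ := one_mul _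
  refine (Finset.sum_le_sum h1).trans ?_
  rw [Finset.sum_const, nsmul_eq_mul]
  apply mul_le_mul_of_nonneg_right _ (by positivity)
  have h7 : ((Ms j).card : ℝ) ≤ a := by rw [ha]; exact_mod_cast card_Ms hj
  linarith

theorem main_int0 : ∃ C : ℝ, 0 < C ∧ ∀ (n : ℕ) (x : ℝ), 1 ≤ n → 1 ≤ x → x ≤ n →
    ∑ j ∈ (range n).filter Odd, ∑ m ∈ Ms j,
      (j : ℝ) ^ (-(3 / 2) : ℝ) * ‖∫ u, ch x (n / (j : ℝ) ^ 2) ((c0 j m : ℝ) / j) u‖ ≤
    C * ((1 + Real.log n) ^ 2 * ((n : ℝ) ^ (1 / 4 : ℝ) * x ^ (-(3 / 4) : ℝ)) + mw n x) := by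
  obtain ⟨C₁, hC₁, hch0⟩ := chain
  obtain ⟨C₂, hC₂, ht⟩ := tail
  have hch : ∀ (x N ν₀ L : ℝ), 1 ≤ x → 0 < N → 0 < ν₀ →
    ν₀ ≤ 1 → 1 ≤ L → x ≤ L * N →
    ‖∫ u, ch x N ν₀ u‖ ≤ C₁ * ((mx N ν₀ L x + ν₀ ^ (-(1 / 2) : ℝ)) / √N +
      1 / N + L * N ^ (-(1 / 4) : ℝ) * x ^ (-(3 / 4) : ℝ) + rexp (-L)) := by
    intro x N ν₀ L g1 g2 g3 g4 g5 g6
    refine (hch0 x N ν₀ L g1 g2 g3 g4 g5 g6).trans (le_of_eq ?_)
    unfold mx
    congr
  refine ⟨4 * (5 * C₁ + 4 * C₂) + C₁, by positivity, ?_⟩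
  intro n x hn1 hx1 hxn
  have hmw : mw n x = ∑ j ∈ (range n).filter Odd, ∑ m ∈ Ms j,
      ((j : ℝ) ^ (-(1 / 2) : ℝ) * (n : ℝ) ^ (-(1 / 2) : ℝ)) *
        mx (n / (j : ℝ) ^ 2) ((c0 j m : ℝ) / j) (2 + 2 * Real.log n) x := rfl
  have hmw0 : 0 ≤ mw n x := by
    rw [hmw]
    refine Finset.sum_nonneg fun j _ => Finset.sum_nonneg fun m _ => ?_
    have := MB_mx (n / (j : ℝ) ^ 2) ((c0 j m : ℝ) / j) (2 + 2 * Real.log n) x
    positivity
  obtain ⟨y, hy⟩ : ∃ y : ℝ, y = n := ⟨_, rfl⟩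
  have hy1 : 1 ≤ y := by rw [hy]; exact_mod_cast hn1
  have hy0 : 0 < y := by linarith
  generalize mw n x = R at hmw hmw0 ⊢
  rw [← hy] at hxn hmw ⊢
  have hx0 : 0 < x := by linarith
  have hlog : 0 ≤ Real.log y := Real.log_nonneg hy1
  set L : ℝ := 2 + 2 * Real.log y with hL
  have hL1 : 1 ≤ L := by linarith
  have hL0 : 0 < L := by linarith
  set J : ℝ := (L * y / x) ^ (1 / 2 : ℝ) with hJ
  have hJ0 : 0 < J := by positivity
  have hJ2 : J ^ 2 * x = L * y := by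
    rw [hJ, ← Real.rpow_natCast, ← Real.rpow_mul (by positivity)]
    norm_num
    field_simp
  have hJs : ∀ s : ℝ, J ^ s = L ^ (s / 2) * y ^ (s / 2) * x ^ (-(s / 2)) := by
    intro s
    rw [hJ, ← Real.rpow_mul (by positivity), Real.div_rpow (by positivity) hx0.le,
      Real.mul_rpow hL0.le hy0.le, Real.rpow_neg hx0.le, div_eq_mul_inv]
    ring_nf
  set B : ℝ := y ^ (1 / 4 : ℝ) * x ^ (-(3 / 4) : ℝ) with hB
  set W : ℝ := 2 * (J ^ (1 / 2 : ℝ) * y ^ (-(1 / 2) : ℝ)) +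
        J ^ (3 / 2 : ℝ) * y ^ (-1 : ℝ) + L * y ^ (-(1 / 4) : ℝ) * x ^ (-(3 / 4) : ℝ) +
        rexp (-L) with hW
  have hW0 : 0 ≤ W := by positivity
  set E : ℝ := y * (C₂ * ((y + 1) ^ 2 * rexp (-(3 * L)))) with hE
  have hE0 : 0 ≤ E := by positivity
  -- one `j`
  have h1 : ∀ j ∈ (range n).filter Odd, ∑ m ∈ Ms j,
      (j : ℝ) ^ (-(3 / 2) : ℝ) * ‖∫ u, ch x (y / (j : ℝ) ^ 2) ((c0 j m : ℝ) / j) u‖ ≤
      (if (j : ℝ) ≤ J then C₁ * W else 0) + E +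
      C₁ * ∑ m ∈ Ms j, ((j : ℝ) ^ (-(1 / 2) : ℝ) * y ^ (-(1 / 2) : ℝ)) *
        mx (y / (j : ℝ) ^ 2) ((c0 j m : ℝ) / j) L x := by
    intro j hj
    rw [Finset.mem_filter, Finset.mem_range] at hj
    split_ifs with h
    · have := MB_A hC₁ hch hj.2 hy0 hx1 hL1 h hJ2.le
      linarith
    · rw [zero_add]
      have h2 := MB_B hC₂ ht hj.2 hy0 hx1 hL1 hJ0.le (not_le.1 h) hJ2.ge (by
        rw [hy]
        exact_mod_cast hj.1.le)
      have h3 : 0 ≤ ∑ m ∈ Ms j, ((j : ℝ) ^ (-(1 / 2) : ℝ) * y ^ (-(1 / 2) : ℝ)) *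
          mx (y / (j : ℝ) ^ 2) ((c0 j m : ℝ) / j) L x := by
        refine Finset.sum_nonneg fun m _ => ?_
        have := MB_mx (y / (j : ℝ) ^ 2) ((c0 j m : ℝ) / j) L x
        positivity
      have h4 := mul_nonneg hC₁.le h3
      linarith
  refine (Finset.sum_le_sum h1).trans ?_
  rw [Finset.sum_add_distrib, Finset.sum_add_distrib, ← Finset.sum_filter, Finset.sum_const,
    Finset.sum_const, nsmul_eq_mul, nsmul_eq_mul, ← Finset.mul_sum, ← hmw]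
  -- numbers of terms
  have h2 : ((((range n).filter Odd).filter fun j : ℕ => (j : ℝ) ≤ J).card : ℝ) ≤ J := by
    have h3 : (((range n).filter Odd).filter fun j : ℕ => (j : ℝ) ≤ J) ⊆ Finset.Icc 1 ⌊J⌋₊ := by
      intro j hj
      rw [Finset.mem_filter, Finset.mem_filter] at hj
      rw [Finset.mem_Icc]
      exact ⟨hj.1.2.pos, Nat.le_floor hj.2⟩
    have h4 := Finset.card_le_card h3
    rw [Nat.card_Icc, Nat.add_sub_cancel] at h4
    refine le_trans ?_ (Nat.floor_le hJ0.le)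
    exact_mod_cast h4
  have h3 : (((range n).filter Odd).card : ℝ) ≤ y := by
    have h4 := Finset.card_filter_le (range n) Odd
    rw [Finset.card_range] at h4
    rw [hy]
    exact_mod_cast h4
  have hexp : rexp (-(2 * Real.log y)) = y ^ (-2 : ℝ) := by
    rw [Real.rpow_def_of_pos hy0]
    congr 1
    ring
  have hyB : y ^ (-1 : ℝ) ≤ B := by
    have h5 : y ^ (-(3 / 4) : ℝ) ≤ x ^ (-(3 / 4) : ℝ) :=
      Real.rpow_le_rpow_of_nonpos hx0 hxn (by norm_num)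
    calc y ^ (-1 : ℝ) ≤ y ^ (1 / 4 + -(3 / 4) : ℝ) :=
          Real.rpow_le_rpow_of_exponent_le hy1 (by norm_num)
      _ = y ^ (1 / 4 : ℝ) * y ^ (-(3 / 4) : ℝ) := Real.rpow_add hy0 _ _
      _ ≤ B := mul_le_mul_of_nonneg_left h5 (by positivity)
  have hB0 : 0 < B := by positivity
  have hL2 : 1 ≤ L ^ 2 := one_le_pow₀ hL1
  have h4 : J * W ≤ 5 * (L ^ 2 * B) := by
    have t1 : J * (J ^ (1 / 2 : ℝ) * y ^ (-(1 / 2) : ℝ)) ≤ L ^ 2 * B := by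
      have e1 : J * (J ^ (1 / 2 : ℝ) * y ^ (-(1 / 2) : ℝ)) =
          L ^ (3 / 4 : ℝ) * (y ^ (1 / 4 : ℝ) * x ^ (-(3 / 4) : ℝ)) := by
        have e2 : J * J ^ (1 / 2 : ℝ) = J ^ (3 / 2 : ℝ) := by
          nth_rewrite 1 [← Real.rpow_one J]
          rw [← Real.rpow_add hJ0]
          norm_num
        have e3 : y ^ (3 / 4 : ℝ) * y ^ (-(1 / 2) : ℝ) = y ^ (1 / 4 : ℝ) := by
          rw [← Real.rpow_add hy0]
          norm_num
        rw [← mul_assoc, e2, hJs, ← e3]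
        norm_num
        ring
      rw [e1]
      exact MB_le hL1 hy0 hx1 (by norm_num) (by norm_num)
    have t3 : J * (J ^ (3 / 2 : ℝ) * y ^ (-1 : ℝ)) ≤ L ^ 2 * B := by
      have e1 : J * (J ^ (3 / 2 : ℝ) * y ^ (-1 : ℝ)) =
          L ^ (5 / 4 : ℝ) * (y ^ (1 / 4 : ℝ) * x ^ (-(5 / 4) : ℝ)) := by
        have e2 : J * J ^ (3 / 2 : ℝ) = J ^ (5 / 2 : ℝ) := by
          nth_rewrite 1 [← Real.rpow_one J]
          rw [← Real.rpow_add hJ0]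
          norm_num
        have e3 : y ^ (5 / 4 : ℝ) * y ^ (-1 : ℝ) = y ^ (1 / 4 : ℝ) := by
          rw [← Real.rpow_add hy0]
          norm_num
        rw [← mul_assoc, e2, hJs, ← e3]
        norm_num
        ring
      rw [e1]
      exact MB_le hL1 hy0 hx1 (by norm_num) (by norm_num)
    have t4 : J * (L * y ^ (-(1 / 4) : ℝ) * x ^ (-(3 / 4) : ℝ)) ≤ L ^ 2 * B := by
      have e1 : J * (L * y ^ (-(1 / 4) : ℝ) * x ^ (-(3 / 4) : ℝ)) =
          L ^ (3 / 2 : ℝ) * (y ^ (1 / 4 : ℝ) * x ^ (-(5 / 4) : ℝ)) := by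
        have e2 : J = L ^ (1 / 2 : ℝ) * y ^ (1 / 2 : ℝ) * x ^ (-(1 / 2) : ℝ) := by
          have := hJs 1
          rwa [Real.rpow_one] at this
        have e3 : y ^ (1 / 2 : ℝ) * y ^ (-(1 / 4) : ℝ) = y ^ (1 / 4 : ℝ) := by
          rw [← Real.rpow_add hy0]
          norm_num
        have e4 : x ^ (-(1 / 2) : ℝ) * x ^ (-(3 / 4) : ℝ) = x ^ (-(5 / 4) : ℝ) := by
          rw [← Real.rpow_add hx0]
          norm_num
        have e5 : L ^ (1 / 2 : ℝ) * L = L ^ (3 / 2 : ℝ) := by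
          nth_rewrite 2 [← Real.rpow_one L]
          rw [← Real.rpow_add hL0]
          norm_num
        rw [e2, ← e3, ← e4, ← e5]
        ring
      rw [e1]
      exact MB_le hL1 hy0 hx1 (by norm_num) (by norm_num)
    have t5 : J * rexp (-L) ≤ L ^ 2 * B := by
      have e1 : J ≤ L * y := by
        have e2 : J = (L * y / x) ^ (1 / 2 : ℝ) := hJ
        have e3 : L * y / x ≤ L * y := div_le_self (by positivity) hx1
        have e4 : 1 ≤ L * y := by nlinarith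
        calc J ≤ (L * y) ^ (1 / 2 : ℝ) := by
              rw [e2]
              exact Real.rpow_le_rpow (by positivity) e3 (by norm_num)
          _ ≤ (L * y) ^ (1 : ℝ) := Real.rpow_le_rpow_of_exponent_le e4 (by norm_num)
          _ = L * y := Real.rpow_one _
      have e2 : rexp (-L) ≤ y ^ (-2 : ℝ) := by
        rw [← hexp]
        exact Real.exp_le_exp.2 (by linarith)
      have e3 : y * y ^ (-2 : ℝ) = y ^ (-1 : ℝ) := by
        nth_rewrite 1 [← Real.rpow_one y]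
        rw [← Real.rpow_add hy0]
        norm_num
      calc J * rexp (-L) ≤ L * y * y ^ (-2 : ℝ) :=
            mul_le_mul e1 e2 (Real.exp_pos _).le (by positivity)
        _ = L * y ^ (-1 : ℝ) := by rw [mul_assoc, e3]
        _ ≤ L ^ 2 * B := by
            apply mul_le_mul _ hyB (by positivity) (by positivity)
            nlinarith
    have e0 : J * W = 2 * (J * (J ^ (1 / 2 : ℝ) * y ^ (-(1 / 2) : ℝ))) +
        J * (J ^ (3 / 2 : ℝ) * y ^ (-1 : ℝ)) +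
        J * (L * y ^ (-(1 / 4) : ℝ) * x ^ (-(3 / 4) : ℝ)) + J * rexp (-L) := by
      rw [hW]
      ring
    rw [e0]
    linarith
  have h5 : y * E ≤ 4 * C₂ * (L ^ 2 * B) := by
    have e1 : rexp (-(3 * L)) ≤ y ^ (-6 : ℝ) := by
      have e2 : y ^ (-6 : ℝ) = rexp (-(6 * Real.log y)) := by
        rw [Real.rpow_def_of_pos hy0]
        congr 1
        ring
      rw [e2]
      exact Real.exp_le_exp.2 (by linarith)
    have e3 : y ^ 4 * y ^ (-6 : ℝ) = y ^ (-2 : ℝ) := by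
      rw [← Real.rpow_natCast y 4, ← Real.rpow_add hy0]
      norm_num
    have e4 : y ^ (-2 : ℝ) ≤ y ^ (-1 : ℝ) :=
      Real.rpow_le_rpow_of_exponent_le hy1 (by norm_num)
    have e5 : (y + 1) ^ 2 ≤ 4 * y ^ 2 := by nlinarith
    have e6 : B ≤ L ^ 2 * B := by nlinarith
    calc y * E = C₂ * (y ^ 2 * ((y + 1) ^ 2 * rexp (-(3 * L)))) := by
          rw [hE]
          ring
      _ ≤ C₂ * (y ^ 2 * (4 * y ^ 2 * y ^ (-6 : ℝ))) := by
          apply mul_le_mul_of_nonneg_left _ hC₂.le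
          apply mul_le_mul_of_nonneg_left _ (by positivity)
          exact mul_le_mul e5 e1 (Real.exp_pos _).le (by positivity)
      _ = 4 * C₂ * (y ^ 4 * y ^ (-6 : ℝ)) := by ring
      _ ≤ 4 * C₂ * (L ^ 2 * B) := by
          apply mul_le_mul_of_nonneg_left _ (by positivity)
          rw [e3]
          linarith
  have h6 : L ^ 2 = 4 * (1 + Real.log y) ^ 2 := by
    rw [hL]
    ring
  have h7 : 0 ≤ (1 + Real.log y) ^ 2 * B := by positivity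
  calc ((((range n).filter Odd).filter fun j : ℕ => (j : ℝ) ≤ J).card : ℝ) * (C₁ * W) +
      (((range n).filter Odd).card : ℝ) * E + C₁ * R ≤ J * (C₁ * W) + y * E + C₁ * R := by
        apply add_le_add _ (le_refl _)
        apply add_le_add
        · exact mul_le_mul_of_nonneg_right h2 (by positivity)
        · exact mul_le_mul_of_nonneg_right h3 hE0
    _ = C₁ * (J * W) + y * E + C₁ * R := by ring
    _ ≤ C₁ * (5 * (L ^ 2 * B)) + 4 * C₂ * (L ^ 2 * B) + C₁ * R := by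
        apply add_le_add _ (le_refl _)
        apply add_le_add _ h5
        exact mul_le_mul_of_nonneg_left h4 hC₁.le
    _ = 4 * (5 * C₁ + 4 * C₂) * ((1 + Real.log y) ^ 2 * B) + C₁ * R := by
        rw [h6]
        ring
    _ ≤ (4 * (5 * C₁ + 4 * C₂) + C₁) * ((1 + Real.log y) ^ 2 * B + R) := by
        have h8 : 0 ≤ C₁ * ((1 + Real.log y) ^ 2 * B) := by positivity
        have h9 : 0 ≤ 4 * (5 * C₁ + 4 * C₂) * R := by positivity
        linarith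

end Pool.Agent.Helper31.FI
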