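import Pool.Agent.Helper31.FI.IntId

/-!
# FI-PE: exact formula for the integral of the path sum

Same as `IntId.lean`, keeping the constants.  `kap j m` is the constant of `chain_mult` for `c₀ = c0 j m`, `d₀ = d0 j m` (it does not depend
on `x`, `n`); the constant of `term_eq` is `kap j m exp (π i x) exp (π i n m/j)` (prove this refined form of `term_eq` first, same
computation).
`kap 1 1`: `c0 1 1 = 1`, `d0 1 1 = 0`, `gm 1 1 1 0 τ = -1/τ`, `θ (-1/τ) = (-I τ)^(1/2) θ τ`, `(-I τ)^(1/2) = exp (π i/4) (-τ)^(1/2)` (the argument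
of `-τ` is in `(-π, 0)`), so `kap 1 1 = - exp (-π i/4) = ze`.
-/

set_option autoImplicit false

namespace Pool.Agent.Helper31.FI

open Complex Real Finset MeasureTheory

/-- `κ` is the constant of a chain -/
private def PintEq_P (j m c₀ d₀ : ℤ) (κ : ℂ) : Prop :=
  ‖κ‖ = 1 ∧ ∀ (i : ℕ) (τ : ℂ), 0 < τ.im →
      (-1 : ℂ) ^ (c₀ + i * j) * (jacobiTheta τ / jacobiTheta (gm j m (c₀ + i * j) (d₀ + i * m) τ)) =
        κ * ze ^ i * (√(j : ℝ) : ℝ) *
          (1 - ((c₀ : ℂ) / j + i) * (j ^ 2 * τ + j * m)) ^ (-(1 / 2) : ℂ)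

private theorem PintEq_term (x : ℝ) {n : ℕ} (hn : 1 ≤ n) {j m c₀ d₀ : ℤ} (hj : 1 ≤ j)
    (hc : 1 ≤ c₀) (hdet : c₀ * m - j * d₀ = 1) {κ : ℂ} (hκ : PintEq_P j m c₀ d₀ κ) (i : ℕ) (u : ℝ) :
      jacobiTheta (u + I / n) * ((-1 : ℂ) ^ (c₀ + i * j) *
          ep x (gm j m (c₀ + i * j) (d₀ + i * m) (u + I / n))) * cexp (-(π * I * n * (u + I / n))) =
        (κ * cexp (π * I * x) * cexp (π * I * n * m / j)) * (√(j : ℝ) : ℝ) *
          (ze ^ i * gk x (n / (j : ℝ) ^ 2) ((c₀ : ℝ) / j + i)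
          (((j : ℝ) ^ 2 * u + j * m : ℝ) + I / ((n / (j : ℝ) ^ 2 : ℝ) : ℂ))) := by
  obtain ⟨-, H⟩ := hκ
  have hn0 : (n : ℂ) ≠ 0 := by
    have : n ≠ 0 := by omega
    exact_mod_cast this
  have hj0 : (j : ℂ) ≠ 0 := by
    have : j ≠ 0 := by omega
    exact_mod_cast this
  set τ : ℂ := u + I / n with hτdef
  have hτ : 0 < τ.im := by
    have h1 : τ.im = 1 / n := by
      rw [hτdef, add_im, ofReal_im, zero_add]
      have h2 : (I / (n : ℂ)) = ((1 / (n : ℝ) : ℝ) : ℂ) * I := by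
        push_cast
        field_simp
      rw [h2]
      simp
    rw [h1]
    have : (0 : ℝ) < n := by exact_mod_cast hn
    positivity
  set Y : ℂ := (j : ℂ) ^ 2 * τ + j * m with hYdef
  have hY : ((((j : ℝ) ^ 2 * u + j * m : ℝ)) : ℂ) + I / ((n / (j : ℝ) ^ 2 : ℝ) : ℂ) = Y := by
    rw [hYdef, hτdef]
    push_cast
    field_simp
    ring
  have hdetC : (c₀ : ℂ) * m - j * d₀ = 1 := by exact_mod_cast hdet
  have hW : 1 - ((c₀ : ℂ) / j + i) * Y = -(j * ((c₀ + i * j) * τ + (d₀ + i * m))) := by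
    rw [hYdef]
    field_simp
    linear_combination -hdetC
  have hcd : ((c₀ : ℂ) + i * j) * τ + (d₀ + i * m) ≠ 0 := by
    intro h0
    have h1 := congrArg Complex.im h0
    have h2 : (((c₀ : ℂ) + i * j) * τ + (d₀ + i * m)).im = ((c₀ : ℝ) + i * j) * τ.im := by
      simp
    rw [h2, zero_im] at h1
    have h3 : (0 : ℝ) < (c₀ : ℝ) + i * j := by
      have h4 : (1 : ℝ) ≤ c₀ := by exact_mod_cast hc
      have h5 : (1 : ℝ) ≤ j := by exact_mod_cast hj
      positivity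
    exact absurd h1 (mul_pos h3 hτ).ne'
  have hgm : gm j m (c₀ + i * j) (d₀ + i * m) τ = 1 + Y / (1 - ((c₀ : ℂ) / j + i) * Y) := by
    rw [hW]
    unfold gm
    push_cast
    rw [hYdef]
    field_simp
    ring
  have hNY : (n : ℂ) / j ^ 2 * Y = n * τ + n * m / j := by
    rw [hYdef]
    field_simp
  have hexp : cexp (π * I * x * gm j m (c₀ + i * j) (d₀ + i * m) τ) * cexp (-(π * I * n * τ)) =
      cexp (π * I * x) * cexp (π * I * n * m / j) *
        cexp (π * I * (x * Y / (1 - ((c₀ : ℂ) / j + i) * Y) - (n : ℂ) / j ^ 2 * Y)) := by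
    rw [← Complex.exp_add, ← Complex.exp_add, ← Complex.exp_add, hgm, hNY]
    congr 1
    ring
  have hH := H i τ hτ
  rw [hY]
  unfold ep gk ex
  calc jacobiTheta τ * ((-1 : ℂ) ^ (c₀ + i * j) *
        (cexp (π * I * x * gm j m (c₀ + i * j) (d₀ + i * m) τ) /
          jacobiTheta (gm j m (c₀ + i * j) (d₀ + i * m) τ))) * cexp (-(π * I * n * τ))
      = ((-1 : ℂ) ^ (c₀ + i * j) * (jacobiTheta τ /
          jacobiTheta (gm j m (c₀ + i * j) (d₀ + i * m) τ))) *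
        (cexp (π * I * x * gm j m (c₀ + i * j) (d₀ + i * m) τ) * cexp (-(π * I * n * τ))) := by
        ring
    _ = _ := by
        rw [hH, hexp]
        push_cast
        ring

/-- the constant of the chain `(j, m)` -/
private noncomputable def PintEq_kap (j : ℕ) (m : ℤ) : ℂ :=
  open Classical in
  if h : ∃ κ : ℂ, PintEq_P j m (c0 j m) (d0 j m) κ then h.choose else 1

private theorem PintEq_kap_spec {j : ℕ} (hj : Odd j) {m : ℤ} (hm : m ∈ Ms j) :
    PintEq_P j m (c0 j m) (d0 j m) (PintEq_kap j m) := by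
  have hj1 : 1 ≤ j := hj.pos
  unfold Ms at hm
  rw [mem_filter] at hm
  obtain ⟨hm1, hm2, hm3⟩ := hm
  obtain ⟨h1, h2, h3⟩ := c0_spec hj1 hm3
  have h : ∃ κ : ℂ, PintEq_P j m (c0 j m) (d0 j m) κ :=
    chain_mult (by exact_mod_cast hj1) (by exact_mod_cast hj) hm2 (by exact_mod_cast h1) h3
  unfold PintEq_kap
  rw [dif_pos h]
  exact h.choose_spec

private theorem PintEq_one_mem : (1 : ℤ) ∈ Ms 1 := by
  unfold Ms
  rw [mem_filter, Finset.mem_Ioc]
  refine ⟨⟨by norm_num, by norm_num⟩, odd_one, ?_⟩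
  exact isCoprime_one_right

private theorem PintEq_kap_one : PintEq_kap 1 1 = ze := by
  obtain ⟨-, h⟩ := PintEq_kap_spec odd_one PintEq_one_mem
  have h1 := h 0 I (by simp)
  have c1 : c0 1 1 = 1 := by
    unfold c0
    simp
  have d1 : d0 1 1 = 0 := by
    unfold d0
    rw [c1]
    simp
  rw [c1, d1] at h1
  have hg : gm ((1 : ℕ) : ℤ) 1 (((1 : ℕ) : ℤ) + ((0 : ℕ) : ℤ) * ((1 : ℕ) : ℤ)) (0 + ((0 : ℕ) : ℤ) * 1) I = I := by
    unfold gm
    push_cast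
    have := I_ne_zero
    field_simp
    ring_nf
    rw [I_sq]
  have ht : jacobiTheta I ≠ 0 := theta_ne (by simp)
  rw [hg, div_self ht] at h1
  have hp : (1 - ((((1 : ℕ) : ℤ) : ℂ) / (((1 : ℕ) : ℤ) : ℂ) + ((0 : ℕ) : ℂ)) *
      ((((1 : ℕ) : ℤ) : ℂ) ^ 2 * I + (((1 : ℕ) : ℤ) : ℂ) * ((1 : ℤ) : ℂ))) = -I := by
    push_cast
    ring
  rw [hp] at h1
  have hI : (-I : ℂ) ^ (-(1 / 2) : ℂ) = cexp (π * I / 4) := by
    rw [Complex.cpow_def_of_ne_zero (neg_ne_zero.2 I_ne_zero), Complex.log_neg_I]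
    congr 1
    ring
  rw [hI] at h1
  have hs : ((√(((1 : ℕ) : ℤ) : ℝ) : ℝ) : ℂ) = 1 := by simp
  rw [hs] at h1
  have e4 : ze * cexp (π * I / 4) = -1 := by
    rw [ze, ← Complex.exp_add, show 3 * (π : ℂ) * I / 4 + π * I / 4 = π * I by ring,
      Complex.exp_pi_mul_I]
  have hne : cexp (π * I / 4) ≠ 0 := Complex.exp_ne_zero _
  apply mul_right_cancel₀ hne
  rw [e4]
  have e5 : (-1 : ℂ) ^ ((((1 : ℕ) : ℤ)) + ((0 : ℕ) : ℤ) * ((1 : ℕ) : ℤ)) * 1 = -1 := by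
    simp
  rw [e5] at h1
  rw [h1]
  simp

/-- the integrand as a sum of chains -/
private theorem PintEq_pint (x : ℝ) {n : ℕ} (hn : 1 ≤ n) {u : ℝ} (hu : |u| ≤ 1) :
    pint x n u = ∑ j ∈ (range n).filter Odd, ∑ m ∈ Ms j,
      (PintEq_kap j m * cexp (π * I * x) * cexp (π * I * n * m / j)) * (√(j : ℝ) : ℝ) *
        ch x (n / (j : ℝ) ^ 2) ((c0 j m : ℝ) / j) ((j : ℝ) ^ 2 * u + j * m) := by
  unfold pint
  rw [decomp x hn hu, Finset.mul_sum, Finset.sum_mul]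
  refine Finset.sum_congr rfl fun j hj => ?_
  rw [mem_filter] at hj
  have hjo : Odd j := hj.2
  have hj1 : 1 ≤ j := hjo.pos
  rw [Finset.mul_sum, Finset.sum_mul]
  refine Finset.sum_congr rfl fun m hm => ?_
  unfold ch
  rw [Finset.mul_sum, Finset.sum_mul, Finset.mul_sum]
  refine Finset.sum_congr rfl fun i _ => ?_
  have hm' := hm
  unfold Ms at hm'
  rw [mem_filter] at hm'
  obtain ⟨hm1, hm2, hm3⟩ := hm'
  obtain ⟨h1, h2, h3⟩ := c0_spec hj1 hm3
  have h := PintEq_term x hn (j := j) (m := m) (c₀ := c0 j m) (d₀ := d0 j m) (by exact_mod_cast hj1)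
    (by exact_mod_cast h1) h3 (PintEq_kap_spec hjo hm) i u
  push_cast at h ⊢
  exact h

/-- one chain -/
private theorem PintEq_ch (x : ℝ) {n : ℕ} (hn : 1 ≤ n) {j : ℕ} (hj : Odd j) {m : ℤ} (hm : m ∈ Ms j) :
    IntervalIntegrable (fun u : ℝ => ch x (n / (j : ℝ) ^ 2) ((c0 j m : ℝ) / j) ((j : ℝ) ^ 2 * u + j * m))
      volume (-1) 1 ∧
    ∫ u in (-1 : ℝ)..1, ch x (n / (j : ℝ) ^ 2) ((c0 j m : ℝ) / j) ((j : ℝ) ^ 2 * u + j * m) =
      (((j : ℝ) ^ 2)⁻¹ : ℝ) * ∫ u, ch x (n / (j : ℝ) ^ 2) ((c0 j m : ℝ) / j) u := by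
  have hj1 : 1 ≤ j := hj.pos
  have hj0 : (0 : ℝ) < j := by exact_mod_cast hj1
  have hn0 : (0 : ℝ) < n := by exact_mod_cast hn
  have hc : 1 ≤ c0 j m := by
    have hm' := hm
    unfold Ms at hm'
    rw [mem_filter] at hm'
    exact (c0_spec hj1 hm'.2.2).1
  have hc0 : (0 : ℝ) < c0 j m := by exact_mod_cast hc
  have hint := integrable_ch (x := x) (N := n / (j : ℝ) ^ 2) (ν₀ := (c0 j m : ℝ) / j)
    (by positivity) (by positivity)
  set f := ch x (n / (j : ℝ) ^ 2) ((c0 j m : ℝ) / j) with hf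
  have h1 : Integrable (fun u : ℝ => f ((j : ℝ) ^ 2 * u + j * m)) :=
    (hint.comp_add_right ((j : ℝ) * m)).comp_mul_left' (by positivity)
  refine ⟨h1.intervalIntegrable, ?_⟩
  have h2 : ∀ u : ℝ, u ∉ Set.Icc (-1 : ℝ) 1 → f ((j : ℝ) ^ 2 * u + j * m) = 0 := by
    intro u hu
    have hu1 : 1 < |u| := by
      by_contra hlt
      push Not at hlt
      exact hu (abs_le.1 hlt)
    rw [hf]
    unfold ch
    rw [cnt_zero hn hu1 hj hm]
    simp
  rw [intervalIntegral.integral_of_le (by norm_num), ← integral_Icc_eq_integral_Ioc,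
    setIntegral_eq_integral_of_forall_compl_eq_zero h2]
  have h3 := Measure.integral_comp_mul_left (fun y : ℝ => f (y + j * m)) ((j : ℝ) ^ 2)
  rw [h3, integral_add_right_eq_self f, abs_of_pos (by positivity)]
  rw [Complex.real_smul]

theorem pint_eq : ∃ kap : ℕ → ℤ → ℂ, (∀ j : ℕ, Odd j → ∀ m ∈ Ms j, ‖kap j m‖ = 1) ∧ kap 1 1 = ze ∧
    ∀ (x : ℝ) (n : ℕ), 1 ≤ n →
      ∫ u in (-1 : ℝ)..1, pint x n u = ∑ j ∈ (range n).filter Odd, ∑ m ∈ Ms j,
        kap j m * cexp (π * I * x) * cexp (π * I * n * m / j) * ((j : ℝ) ^ (-(3 / 2) : ℝ) : ℝ) *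
          ∫ u, ch x (n / (j : ℝ) ^ 2) ((c0 j m : ℝ) / j) u := by
  refine ⟨PintEq_kap, fun j hj m hm => (PintEq_kap_spec hj hm).1, PintEq_kap_one, ?_⟩
  intro x n hn
  have h1 : ∫ u in (-1 : ℝ)..1, pint x n u = ∫ u in (-1 : ℝ)..1,
      ∑ j ∈ (range n).filter Odd, ∑ m ∈ Ms j,
      (PintEq_kap j m * cexp (π * I * x) * cexp (π * I * n * m / j)) * (√(j : ℝ) : ℝ) *
        ch x (n / (j : ℝ) ^ 2) ((c0 j m : ℝ) / j) ((j : ℝ) ^ 2 * u + j * m) := by
    apply intervalIntegral.integral_congr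
    intro u hu
    rw [Set.uIcc_of_le (by norm_num)] at hu
    exact PintEq_pint x hn (abs_le.2 hu)
  rw [h1, intervalIntegral.integral_finsetSum]
  · refine Finset.sum_congr rfl fun j hj => ?_
    rw [mem_filter] at hj
    have hjo : Odd j := hj.2
    have hj0 : (0 : ℝ) < j := by exact_mod_cast hjo.pos
    rw [intervalIntegral.integral_finsetSum]
    · refine Finset.sum_congr rfl fun m hm => ?_
      rw [intervalIntegral.integral_const_mul, (PintEq_ch x hn hjo hm).2]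
      have h2 : (√(j : ℝ) : ℝ) * ((j : ℝ) ^ 2)⁻¹ = (j : ℝ) ^ (-(3 / 2) : ℝ) := by
        rw [Real.sqrt_eq_rpow, ← Real.rpow_natCast, ← Real.rpow_neg hj0.le, ← Real.rpow_add hj0]
        norm_num
      rw [← h2]
      push_cast
      ring
    · intro m hm
      exact (PintEq_ch x hn hjo hm).1.const_mul _
  · intro j hj
    rw [mem_filter] at hj
    have hjo : Odd j := hj.2
    have h3 := IntervalIntegrable.sum (μ := volume) (a := (-1 : ℝ)) (b := 1) (Ms j)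
      (f := fun (m : ℤ) (u : ℝ) => (PintEq_kap j m * cexp (π * I * x) * cexp (π * I * n * m / j)) *
        (√(j : ℝ) : ℝ) * ch x (n / (j : ℝ) ^ 2) ((c0 j m : ℝ) / j) ((j : ℝ) ^ 2 * u + j * m))
      (fun m hm => (PintEq_ch x hn hjo hm).1.const_mul _)
    have h4 : (∑ m ∈ Ms j, fun (u : ℝ) => (PintEq_kap j m * cexp (π * I * x) *
        cexp (π * I * n * m / j)) * (√(j : ℝ) : ℝ) *
          ch x (n / (j : ℝ) ^ 2) ((c0 j m : ℝ) / j) ((j : ℝ) ^ 2 * u + j * m)) =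
        fun u : ℝ => ∑ m ∈ Ms j, (PintEq_kap j m * cexp (π * I * x) *
        cexp (π * I * n * m / j)) * (√(j : ℝ) : ℝ) *
          ch x (n / (j : ℝ) ^ 2) ((c0 j m : ℝ) / j) ((j : ℝ) ^ 2 * u + j * m) := by
      funext u
      rw [Finset.sum_apply]
    rw [h4] at h3
    exact h3

end Pool.Agent.Helper31.FI
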