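import Pool.Agent.Helper31.FI.ChainA
import Pool.Agent.Helper31.FI.PintEq
import Pool.Agent.Helper31.FI.CoefB2

/-!
# FI-AS: asymptotic formula for the coefficients

`cf F (1/n) n = (1/2) ∫ (ex + θ gg) ..`, `gg = rem - mu PP - conj mu conj (PP (sr ·))` (see `CoefBd.lean`); the two path integrals are complex
conjugates (with their factors), so `cf = - Re (mu ∫ pint) + O (n^(1/4) x^(-3/4))`.  `pint_eq`, `chain_asym` with `L = 2 + 2 log n` for
`j² ≤ L n/x`, `tail` for larger `j`: the errors sum to `O (L² n^(1/4) x^(-3/4))` as in `MainB.lean`; main terms: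
`j^(-3/2) N^(-1/2) = j^(-1/2) n^(-1/2)`.  `mu exp (π i x) = 2 i sin (π x)` and `- Re (2 i s Z) = 2 s Im Z`.
Replacing `cnt ν₀ (√(x N/L)/2)` by `⌈2√n⌉₊ + 1`: if `x ≥ 16 L` both are `≥ 2 √t`, difference `≤ 28` by `mains_cut` (see `MSx.lean`), in total
`O (n^(-1/2) ∑_{j ≤ √(n/x)} j^(1/2)) = O (n^(1/4) x^(-3/4))`.  If `x < 16 L`: both main expressions are
`≤ C n^(-1/2) ∑ j^(-1/2) (j + j (n/j²)^(3/26)) ≤ C n^(1/4) x^(-33/52)` by `mains_le`, and
`x^(-33/52) ≤ x^(-3/4) (16 L)^(3/26) ≤ C x^(-3/4) (1 + log n)`.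
-/

set_option autoImplicit false

namespace Pool.Agent.Helper31.FI

open Complex Real Finset MeasureTheory

private theorem Asym_three {x : ℝ} {n : ℕ} (hn : 1 ≤ n) (hx : 1 ≤ x) (h : x ≤ n - √n) :
    3 ≤ n := by
  by_contra hc
  have h2 : n = 1 ∨ n = 2 := by omega
  rcases h2 with rfl | rfl
  · norm_num at h
    linarith
  · have h3 : (1 : ℝ) < √2 := by
      rw [Real.lt_sqrt (by norm_num)]
      norm_num
    push_cast at h
    linarith

private theorem Asym_first {x : ℝ} {n : ℕ} (hn : 1 ≤ n) (hx : 1 ≤ x) (h : x ≤ n - √n) :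
    IntervalIntegrable (fun u : ℝ => ex x (u + I / n) * cexp (-(π * I * n * (u + I / n))))
      volume (-1) 1 ∧
    ‖∫ u in (-1 : ℝ)..1, ex x (u + I / n) * cexp (-(π * I * n * (u + I / n)))‖ ≤
      rexp π * ((n : ℝ) ^ (1 / 4 : ℝ) * x ^ (-(3 / 4) : ℝ)) := by
  have hn0 : (0 : ℝ) < n := by exact_mod_cast hn
  have hn1 : (1 : ℝ) ≤ n := by exact_mod_cast hn
  have hx0 : 0 < x := by linarith
  have hs1 : 1 ≤ √(n : ℝ) := Real.one_le_sqrt.2 hn1
  have hnx : √(n : ℝ) ≤ n - x := by linarith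
  have hnx0 : 0 < n - x := by linarith
  have hnC : (n : ℂ) ≠ 0 := by
    exact_mod_cast hn0.ne'
  have hfun : ∀ u : ℝ, ex x (u + I / n) * cexp (-(π * I * n * (u + I / n))) =
      ((rexp (π * (n - x) / n) : ℝ) : ℂ) * cexp ((π * I * (x - n)) * u) := by
    intro u
    unfold ex
    rw [← Complex.exp_add, Complex.ofReal_exp, ← Complex.exp_add]
    congr 1
    push_cast
    field_simp
    ring_nf
    rw [Complex.I_sq]
    ring
  refine ⟨?_, ?_⟩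
  · refine Continuous.intervalIntegrable ?_ _ _
    simp only [hfun]
    fun_prop
  · simp only [hfun]
    rw [intervalIntegral.integral_const_mul, norm_mul]
    have hc : (π * I * (x - n) : ℂ) ≠ 0 := by
      refine mul_ne_zero (mul_ne_zero (by exact_mod_cast Real.pi_ne_zero) Complex.I_ne_zero) ?_
      intro h0
      have h1 : ((x - n : ℝ) : ℂ) = 0 := by
        push_cast
        exact h0
      have h2 : x - n = 0 := by exact_mod_cast h1
      linarith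
    rw [integral_exp_mul_complex hc, norm_div]
    have hE : ∀ u : ℝ, ‖cexp ((π * I * (x - n)) * u)‖ = 1 := by
      intro u
      have e : (π * I * (x - n) : ℂ) * u = ((π * (x - n) * u : ℝ) : ℂ) * I := by
        push_cast
        ring
      rw [e, Complex.norm_exp_ofReal_mul_I]
    have hnum : ‖cexp ((π * I * (x - n)) * (1 : ℝ)) - cexp ((π * I * (x - n)) * ((-1 : ℝ)))‖ ≤ 2 := by
      refine (norm_sub_le _ _).trans ?_
      rw [hE, hE]
      norm_num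
    have hden : ‖(π * I * (x - n) : ℂ)‖ = π * (n - x) := by
      rw [norm_mul, norm_mul, Complex.norm_I, Complex.norm_real, mul_one,
        Real.norm_of_nonneg Real.pi_pos.le]
      congr 1
      have e : ((x : ℂ) - n) = ((x - n : ℝ) : ℂ) := by push_cast; ring
      rw [e, Complex.norm_real, Real.norm_eq_abs, abs_of_neg (by linarith)]
      ring
    rw [hden]
    have h1 : ‖((rexp (π * (n - x) / n) : ℝ) : ℂ)‖ ≤ rexp π := by
      rw [Complex.norm_real, Real.norm_of_nonneg (Real.exp_pos _).le]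
      refine Real.exp_le_exp.2 ?_
      rw [div_le_iff₀ hn0]
      nlinarith [Real.pi_pos]
    have h2 : ‖cexp ((π * I * (x - n)) * (1 : ℝ)) - cexp ((π * I * (x - n)) * ((-1 : ℝ)))‖ /
        (π * (n - x)) ≤ (√(n : ℝ))⁻¹ := by
      rw [div_le_iff₀ (by positivity)]
      refine hnum.trans ?_
      rw [inv_mul_eq_div, le_div_iff₀ (by linarith)]
      have := Real.pi_gt_three
      nlinarith
    have h3 : (√(n : ℝ))⁻¹ ≤ (n : ℝ) ^ (1 / 4 : ℝ) * x ^ (-(3 / 4) : ℝ) := by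
      have hxn : x ≤ n := by linarith
      have e1 : (n : ℝ) ^ (-(3 / 4) : ℝ) ≤ x ^ (-(3 / 4) : ℝ) :=
        Real.rpow_le_rpow_of_nonpos hx0 hxn (by norm_num)
      have e2 : (√(n : ℝ))⁻¹ = (n : ℝ) ^ (-(1 / 2) : ℝ) := by
        rw [Real.sqrt_eq_rpow, ← Real.rpow_neg hn0.le]
      have e3 : (n : ℝ) ^ (-(1 / 2) : ℝ) ≤ (n : ℝ) ^ (1 / 4 : ℝ) * (n : ℝ) ^ (-(3 / 4) : ℝ) := by
        rw [← Real.rpow_add hn0]
        exact Real.rpow_le_rpow_of_exponent_le hn1 (by norm_num)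
      rw [e2]
      exact e3.trans (mul_le_mul_of_nonneg_left e1 (by positivity))
    calc _ ≤ rexp π * (√(n : ℝ))⁻¹ :=
          mul_le_mul h1 h2 (div_nonneg (norm_nonneg _) (by positivity)) (Real.exp_pos π).le
      _ ≤ _ := mul_le_mul_of_nonneg_left h3 (Real.exp_pos π).le

private theorem Asym_mu (x : ℝ) : ‖mu x‖ ≤ 2 := by
  unfold mu
  refine (norm_sub_le _ _).trans ?_
  have e : (-(2 * π * I * x) : ℂ) = ((-(2 * π * x) : ℝ) : ℂ) * I := by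
    push_cast
    ring
  rw [e, Complex.norm_exp_ofReal_mul_I]
  norm_num

private theorem Asym_refl (x : ℝ) {n : ℕ} (hn : 1 ≤ n) (u : ℝ) :
    jacobiTheta (u + I / n) * (starRingEnd ℂ) (PP x (sr (u + I / n))) *
      cexp (-(π * I * n * (u + I / n))) = (starRingEnd ℂ) (pint x n (-u)) := by
  have hn0 : (0 : ℝ) < n := by exact_mod_cast hn
  have e1 : sr (u + I / n) = ((-u : ℝ) : ℂ) + I / n := by
    unfold sr
    rw [map_add, map_div₀, Complex.conj_ofReal, Complex.conj_I, Complex.conj_natCast]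
    push_cast
    ring
  have e2 : (((-u : ℝ) : ℂ) + I / n).im = 1 / n := by
    rw [Complex.add_im, Complex.ofReal_im, zero_add, ← Complex.ofReal_natCast,
      Complex.div_ofReal_im, Complex.I_im]
  have him : 0 < (((-u : ℝ) : ℂ) + I / n).im := by
    rw [e2]
    positivity
  have e3 : sr (((-u : ℝ) : ℂ) + I / n) = u + I / n := by
    unfold sr
    rw [map_add, map_div₀, Complex.conj_ofReal, Complex.conj_I, Complex.conj_natCast]
    push_cast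
    ring
  have e4 := theta_conj him
  rw [e3] at e4
  unfold pint
  rw [e1, e4, map_mul, map_mul, ← Complex.exp_conj]
  congr 2
  rw [map_neg, map_mul, map_mul, map_mul, map_add, map_div₀, Complex.conj_ofReal,
    Complex.conj_ofReal, Complex.conj_I, Complex.conj_natCast]
  push_cast
  ring

private theorem Asym_dec : ∃ C : ℝ, 0 < C ∧ ∀ (x : ℝ) (F : ℂ → ℂ) (n : ℕ), 1 ≤ n → 1 ≤ x →
    x ≤ n - √n → Gen x F →
    ‖cf F (1 / n) n + (((mu x * ∫ u in (-1 : ℝ)..1, pint x n u).re : ℝ) : ℂ)‖ ≤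
      C * ((n : ℝ) ^ (1 / 4 : ℝ) * x ^ (-(3 / 4) : ℝ)) := by
  obtain ⟨C1, hC1, h1⟩ := rpart
  refine ⟨rexp π + C1, by positivity, fun x F n hn hx hxn hF => ?_⟩
  have hn3 := Asym_three hn hx hxn
  have hn0 : (0 : ℝ) < n := by exact_mod_cast hn
  set Q : ℝ := (n : ℝ) ^ (1 / 4 : ℝ) * x ^ (-(3 / 4) : ℝ) with hQ
  have hQ0 : 0 ≤ Q := by positivity
  obtain ⟨i1, b1⟩ := Asym_first hn hx hxn
  obtain ⟨i2, b2⟩ := h1 x F n hx hF hn3
  have b2' : ‖∫ u in (-1 : ℝ)..1, jacobiTheta (u + I / n) * rem x F (u + I / n) *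
      cexp (-(π * I * n * (u + I / n)))‖ ≤ C1 * Q := by
    exact b2
  have i3 := pint_integrable x hn
  have i4 : IntervalIntegrable (fun u : ℝ => (starRingEnd ℂ) (pint x n (-u))) volume (-1) 1 := by
    have h3 : IntervalIntegrable (fun u : ℝ => pint x n (-u)) volume (-1) 1 := by
      have h4 := (IntervalIntegrable.iff_comp_neg (f := pint x n) (a := -1) (b := 1)).1 i3
      rw [neg_neg] at h4
      exact h4.symm
    rw [intervalIntegrable_iff] at h3 ⊢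
    exact (Complex.conjCLE.toContinuousLinearMap.integrable_comp h3)
  have b4 : ∫ u in (-1 : ℝ)..1, (starRingEnd ℂ) (pint x n (-u)) =
      (starRingEnd ℂ) (∫ u in (-1 : ℝ)..1, pint x n u) := by
    have h3 : ∫ u in (-1 : ℝ)..1, (starRingEnd ℂ) (pint x n (-u)) =
        ∫ u in (-1 : ℝ)..1, (starRingEnd ℂ) (pint x n u) := by
      have h4 := intervalIntegral.integral_comp_neg (a := -1) (b := 1)
        (fun u : ℝ => (starRingEnd ℂ) (pint x n u))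
      rw [neg_neg] at h4
      exact h4
    rw [h3]
    exact intervalIntegral.intervalIntegral_conj
  have hsplit : ∀ u : ℝ, F (u + I * ((1 / n : ℝ) : ℂ)) *
      cexp (-(π * I * ((n : ℤ) : ℂ) * (u + I * ((1 / n : ℝ) : ℂ)))) =
      ex x (u + I / n) * cexp (-(π * I * n * (u + I / n))) +
      jacobiTheta (u + I / n) * rem x F (u + I / n) * cexp (-(π * I * n * (u + I / n))) -
      mu x * pint x n u -
      (starRingEnd ℂ) (mu x) * (starRingEnd ℂ) (pint x n (-u)) := by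
    intro u
    have e0 : (u + I * ((1 / n : ℝ) : ℂ) : ℂ) = u + I / n := by
      push_cast
      ring
    have him : 0 < ((u : ℂ) + I / n).im := by
      have : ((u : ℂ) + I / n).im = 1 / n := by
        rw [Complex.add_im, Complex.ofReal_im, zero_add, ← Complex.ofReal_natCast,
          Complex.div_ofReal_im, Complex.I_im]
      rw [this]
      positivity
    rw [e0, ← Asym_refl x hn u, Int.cast_natCast]
    have hθ := theta_ne him
    have e1 : F (u + I / n) = ex x (u + I / n) + jacobiTheta (u + I / n) * gg x F (u + I / n) := by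
      unfold gg
      field_simp
      ring
    rw [e1]
    unfold pint rem
    ring
  unfold cf
  simp only [hsplit]
  rw [intervalIntegral.integral_sub ((i1.add i2).sub (i3.const_mul _)) (i4.const_mul _),
    intervalIntegral.integral_sub (i1.add i2) (i3.const_mul _), intervalIntegral.integral_add i1 i2,
    intervalIntegral.integral_const_mul, intervalIntegral.integral_const_mul, b4]
  set A1 := ∫ u in (-1 : ℝ)..1, ex x (u + I / n) * cexp (-(π * I * n * (u + I / n)))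
  set A2 := ∫ u in (-1 : ℝ)..1, jacobiTheta (u + I / n) * rem x F (u + I / n) *
      cexp (-(π * I * n * (u + I / n)))
  set A3 := ∫ u in (-1 : ℝ)..1, pint x n u
  have h6 : (starRingEnd ℂ) (mu x) * (starRingEnd ℂ) A3 = (starRingEnd ℂ) (mu x * A3) := by
    rw [map_mul]
  have h7 := Complex.add_conj (mu x * A3)
  have h8 : (1 / 2 : ℂ) * (A1 + A2 - mu x * A3 - (starRingEnd ℂ) (mu x) * (starRingEnd ℂ) A3) +
      (((mu x * A3).re : ℝ) : ℂ) = (1 / 2 : ℂ) * (A1 + A2) := by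
    rw [h6]
    have h9 : (((mu x * A3).re : ℝ) : ℂ) =
        (1 / 2 : ℂ) * (mu x * A3 + (starRingEnd ℂ) (mu x * A3)) := by
      rw [h7]
      push_cast
      ring
    rw [h9]
    ring
  rw [h8, norm_mul]
  have h5 : ‖(1 / 2 : ℂ)‖ = 1 / 2 := by norm_num
  rw [h5]
  have s3 := norm_add_le A1 A2
  have h10 : 0 ≤ (rexp π + C1) * Q := by positivity
  linarith

private theorem Asym_N {n a : ℝ} (hn : 0 < n) (ha : 0 < a) (s : ℝ) :
    (n / a ^ 2) ^ s = n ^ s * a ^ (-(2 * s)) := by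
  rw [Real.div_rpow hn.le (by positivity), ← Real.rpow_natCast a 2, ← Real.rpow_mul ha.le,
    Real.rpow_neg ha.le, div_eq_mul_inv]
  norm_num

private theorem Asym_le {L n x s t : ℝ} (hL : 1 ≤ L) (hn : 0 < n) (hx : 1 ≤ x) (hs : s ≤ 2)
    (ht : 3 / 4 ≤ t) :
    L ^ s * (n ^ (1 / 4 : ℝ) * x ^ (-t)) ≤ L ^ 2 * (n ^ (1 / 4 : ℝ) * x ^ (-(3 / 4) : ℝ)) := by
  have h1 : L ^ s ≤ L ^ 2 := by
    rw [← Real.rpow_natCast L 2]
    exact Real.rpow_le_rpow_of_exponent_le hL (by norm_num; exact hs)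
  have h2 : x ^ (-t) ≤ x ^ (-(3 / 4) : ℝ) :=
    Real.rpow_le_rpow_of_exponent_le hx (by linarith)
  have h3 : 0 < n ^ (1 / 4 : ℝ) := by positivity
  have h4 : 0 < x ^ (-t) := by positivity
  gcongr

private theorem Asym_cop {j : ℕ} : ∀ m ∈ Ms j, IsCoprime (j : ℤ) m := by
  classical
  intro m hm
  unfold Ms at hm
  rw [Finset.mem_filter] at hm
  exact hm.2.2

/-- main part of a chain integral -/
private noncomputable def AM (x N ν₀ L : ℝ) : ℂ :=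
  if x ≤ N then cexp (π * I / 4) * mains ((√N - √x) ^ 2) ν₀ (cnt ν₀ (√(x * N / L) / 2)) / √N else 0

/-- the terms for one `j` -/
private theorem Asym_A {C : ℝ} (hC : 0 < C) (hch : ∀ (x N ν₀ L : ℝ), 1 ≤ x → 0 < N → 0 < ν₀ →
    ν₀ ≤ 1 → 1 ≤ L → x ≤ L * N →
    ‖(∫ u, ch x N ν₀ u) - AM x N ν₀ L‖ ≤ C * (ν₀ ^ (-(1 / 2) : ℝ) / √N +
      1 / N + L * N ^ (-(1 / 4) : ℝ) * x ^ (-(3 / 4) : ℝ) + rexp (-L)))
    {n : ℝ} {j : ℕ} {x L J : ℝ} (hj : Odd j) (hn : 0 < n) (hx : 1 ≤ x) (hL : 1 ≤ L)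
    (hjJ : (j : ℝ) ≤ J) (hJ : J ^ 2 * x ≤ L * n) :
    ∑ m ∈ Ms j, (j : ℝ) ^ (-(3 / 2) : ℝ) *
      ‖(∫ u, ch x (n / (j : ℝ) ^ 2) ((c0 j m : ℝ) / j) u) -
        AM x (n / (j : ℝ) ^ 2) ((c0 j m : ℝ) / j) L‖ ≤
      C * (2 * (J ^ (1 / 2 : ℝ) * n ^ (-(1 / 2) : ℝ)) +
        J ^ (3 / 2 : ℝ) * n ^ (-1 : ℝ) + L * n ^ (-(1 / 4) : ℝ) * x ^ (-(3 / 4) : ℝ) +
        rexp (-L)) := by
  have hj1 : 1 ≤ j := hj.pos
  set a : ℝ := (j : ℝ) with ha
  have ha1 : 1 ≤ a := by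
    rw [ha]
    exact_mod_cast hj1
  have ha0 : 0 < a := by linarith
  have hJ0 : 0 < J := by linarith
  have hx0 : 0 < x := by linarith
  have hL0 : 0 < L := by linarith
  set N : ℝ := n / a ^ 2 with hN
  have hN0 : 0 < N := by positivity
  have hxN : x ≤ L * N := by
    have h1 : a ^ 2 ≤ J ^ 2 := pow_le_pow_left₀ ha0.le hjJ 2
    rw [hN, ← mul_div_assoc, le_div_iff₀ (by positivity)]
    nlinarith [mul_le_mul_of_nonneg_left h1 hx0.le]
  have hcop : ∀ m ∈ Ms j, IsCoprime (j : ℤ) m := Asym_cop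
  set K : ℝ := 1 / N + L * N ^ (-(1 / 4) : ℝ) * x ^ (-(3 / 4) : ℝ) + rexp (-L) with hK
  have hK0 : 0 ≤ K := by positivity
  have h1 : ∀ m ∈ Ms j, a ^ (-(3 / 2) : ℝ) * ‖(∫ u, ch x N ((c0 j m : ℝ) / a) u) -
      AM x N ((c0 j m : ℝ) / a) L‖ ≤
      a ^ (-(3 / 2) : ℝ) * (C * (((c0 j m : ℝ) / a) ^ (-(1 / 2) : ℝ) / √N + K)) := by
    intro m hm
    obtain ⟨h2, h3, -⟩ := c0_spec hj1 (hcop m hm)
    have h2' : (1 : ℝ) ≤ c0 j m := by exact_mod_cast h2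
    have h3' : (c0 j m : ℝ) ≤ a := by rw [ha]; exact_mod_cast h3
    have h4 := hch x N ((c0 j m : ℝ) / a) L hx hN0 (by positivity)
      ((div_le_one ha0).2 h3') hL hxN
    apply mul_le_mul_of_nonneg_left _ (by positivity)
    refine h4.trans (le_of_eq ?_)
    rw [hK]
    ring
  refine (Finset.sum_le_sum h1).trans ?_
  have h5 : ∑ m ∈ Ms j, a ^ (-(3 / 2) : ℝ) *
      (C * (((c0 j m : ℝ) / a) ^ (-(1 / 2) : ℝ) / √N + K)) =
      C * (a ^ (-(3 / 2) : ℝ) * ((∑ m ∈ Ms j, ((c0 j m : ℝ) / a) ^ (-(1 / 2) : ℝ)) / √N +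
        (Ms j).card * K)) := by
    rw [← Finset.mul_sum, ← Finset.mul_sum, Finset.sum_add_distrib, ← Finset.sum_div,
      Finset.sum_const, nsmul_eq_mul]
    ring
  rw [h5]
  apply mul_le_mul_of_nonneg_left _ hC.le
  have h6 : ∑ m ∈ Ms j, ((c0 j m : ℝ) / a) ^ (-(1 / 2) : ℝ) ≤ 2 * a := sum_c0 hj
  have h7 : ((Ms j).card : ℝ) ≤ a := by rw [ha]; exact_mod_cast card_Ms hj
  have hsN : 0 < √N := Real.sqrt_pos.2 hN0
  have h8 : a ^ (-(3 / 2) : ℝ) * ((∑ m ∈ Ms j, ((c0 j m : ℝ) / a) ^ (-(1 / 2) : ℝ)) / √N +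
        (Ms j).card * K) ≤ a ^ (-(3 / 2) : ℝ) * (2 * a / √N + a * K) := by
    apply mul_le_mul_of_nonneg_left _ (by positivity)
    exact add_le_add (div_le_div_of_nonneg_right h6 hsN.le) (mul_le_mul_of_nonneg_right h7 hK0)
  refine h8.trans ?_
  -- powers
  have p0 : a ^ (-(3 / 2) : ℝ) * a = a ^ (-(1 / 2) : ℝ) := by
    nth_rewrite 2 [← Real.rpow_one a]
    rw [← Real.rpow_add ha0]
    norm_num
  have p1 : 1 / √N = n ^ (-(1 / 2) : ℝ) * a := by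
    rw [Real.sqrt_eq_rpow, one_div, ← Real.rpow_neg hN0.le, hN, Asym_N hn ha0]
    norm_num
  have p3 : 1 / N = n ^ (-1 : ℝ) * a ^ (2 : ℝ) := by
    rw [one_div, ← Real.rpow_neg_one N, hN, Asym_N hn ha0]
    norm_num
  have p4 : N ^ (-(1 / 4) : ℝ) = n ^ (-(1 / 4) : ℝ) * a ^ (1 / 2 : ℝ) := by
    rw [hN, Asym_N hn ha0]
    norm_num
  have q1 : a ^ (-(1 / 2) : ℝ) * a = a ^ (1 / 2 : ℝ) := by
    nth_rewrite 2 [← Real.rpow_one a]
    rw [← Real.rpow_add ha0]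
    norm_num
  have q3 : a ^ (-(1 / 2) : ℝ) * a ^ (2 : ℝ) = a ^ (3 / 2 : ℝ) := by
    rw [← Real.rpow_add ha0]
    norm_num
  have q4 : a ^ (-(1 / 2) : ℝ) * a ^ (1 / 2 : ℝ) = 1 := by
    rw [← Real.rpow_add ha0]
    norm_num
  have e1 : a ^ (-(3 / 2) : ℝ) * (2 * a / √N + a * K) =
      2 * (a ^ (1 / 2 : ℝ) * n ^ (-(1 / 2) : ℝ)) +
        a ^ (3 / 2 : ℝ) * n ^ (-1 : ℝ) + L * n ^ (-(1 / 4) : ℝ) * x ^ (-(3 / 4) : ℝ) +
        a ^ (-(1 / 2) : ℝ) * rexp (-L) := by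
    have e2 : a ^ (-(3 / 2) : ℝ) * (2 * a / √N + a * K) =
        (a ^ (-(3 / 2) : ℝ) * a) * (2 * (1 / √N) + K) := by ring
    rw [e2, p0, hK, p3, p4, p1]
    linear_combination (2 * n ^ (-(1 / 2) : ℝ)) * q1 +
      n ^ (-1 : ℝ) * q3 + (L * n ^ (-(1 / 4) : ℝ) * x ^ (-(3 / 4) : ℝ)) * q4
  rw [e1]
  have r1 : a ^ (1 / 2 : ℝ) ≤ J ^ (1 / 2 : ℝ) := Real.rpow_le_rpow ha0.le hjJ (by norm_num)
  have r3 : a ^ (3 / 2 : ℝ) ≤ J ^ (3 / 2 : ℝ) := Real.rpow_le_rpow ha0.le hjJ (by norm_num)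
  have r4 : a ^ (-(1 / 2) : ℝ) ≤ 1 := Real.rpow_le_one_of_one_le_of_nonpos ha1 (by norm_num)
  have r5 : a ^ (-(1 / 2) : ℝ) * rexp (-L) ≤ 1 * rexp (-L) :=
    mul_le_mul_of_nonneg_right r4 (Real.exp_pos _).le
  rw [one_mul] at r5
  gcongr

/-- the terms for one `j` in the tail -/
private theorem Asym_B {C : ℝ} (hC : 0 < C) (ht : ∀ x N ν₀ : ℝ, 0 ≤ x → 0 < N → 0 < ν₀ →
    ‖∫ u, ch x N ν₀ u‖ ≤ C * ((N + 1) ^ 2 * ν₀ ^ (-(3 / 2) : ℝ) * rexp (-(π * x / N))))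
    {n : ℝ} {j : ℕ} {x L J : ℝ} (hj : Odd j) (hn : 0 < n) (hx : 1 ≤ x) (hL : 1 < L)
    (hJ0 : 0 ≤ J) (hjJ : J < (j : ℝ)) (hJ : L * n ≤ J ^ 2 * x) (hjn : (j : ℝ) ≤ n) :
    ∑ m ∈ Ms j, (j : ℝ) ^ (-(3 / 2) : ℝ) *
      ‖(∫ u, ch x (n / (j : ℝ) ^ 2) ((c0 j m : ℝ) / j) u) -
        AM x (n / (j : ℝ) ^ 2) ((c0 j m : ℝ) / j) L‖ ≤
      n * (C * ((n + 1) ^ 2 * rexp (-(3 * L)))) := by
  have hj1 : 1 ≤ j := hj.pos
  set a : ℝ := (j : ℝ) with ha
  have ha1 : 1 ≤ a := by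
    rw [ha]
    exact_mod_cast hj1
  have ha0 : 0 < a := by linarith
  have hx0 : 0 < x := by linarith
  have hL0 : 0 < L := by linarith
  set N : ℝ := n / a ^ 2 with hN
  have hN0 : 0 < N := by positivity
  have hNn : N ≤ n := by
    rw [hN]
    apply div_le_self hn.le
    nlinarith
  have hxN : L ≤ x / N := by
    rw [le_div_iff₀ hN0, hN, ← mul_div_assoc, div_le_iff₀ (by positivity)]
    have h1 : J ^ 2 ≤ a ^ 2 := pow_le_pow_left₀ hJ0 hjJ.le 2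
    nlinarith [mul_le_mul_of_nonneg_left h1 hx0.le]
  have hxN' : ¬ x ≤ N := by
    intro h
    have h1 : x / N ≤ 1 := (div_le_one hN0).2 h
    linarith
  have hcop : ∀ m ∈ Ms j, IsCoprime (j : ℤ) m := Asym_cop
  have h1 : ∀ m ∈ Ms j, a ^ (-(3 / 2) : ℝ) * ‖(∫ u, ch x N ((c0 j m : ℝ) / a) u) -
      AM x N ((c0 j m : ℝ) / a) L‖ ≤
      C * ((n + 1) ^ 2 * rexp (-(3 * L))) := by
    intro m hm
    obtain ⟨h2, h3, -⟩ := c0_spec hj1 (hcop m hm)
    have h2' : (1 : ℝ) ≤ c0 j m := by exact_mod_cast h2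
    have hAM : AM x N ((c0 j m : ℝ) / a) L = 0 := by
      unfold AM
      rw [if_neg hxN']
    rw [hAM, sub_zero]
    have h4 := ht x N ((c0 j m : ℝ) / a) hx0.le hN0 (by positivity)
    have h5 : a ^ (-(3 / 2) : ℝ) * ((c0 j m : ℝ) / a) ^ (-(3 / 2) : ℝ) ≤ 1 := by
      rw [← Real.mul_rpow ha0.le (by positivity), mul_div_cancel₀ _ ha0.ne']
      exact Real.rpow_le_one_of_one_le_of_nonpos h2' (by norm_num)
    have h6 : rexp (-(π * x / N)) ≤ rexp (-(3 * L)) := by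
      apply Real.exp_le_exp.2
      have h7 : π * x / N = π * (x / N) := by ring
      rw [h7]
      have h8 : 3 * L ≤ π * (x / N) := by
        have := Real.pi_gt_three
        nlinarith
      linarith
    have h9 : (N + 1) ^ 2 ≤ (n + 1) ^ 2 := pow_le_pow_left₀ (by positivity) (by linarith) 2
    have h10 : 0 ≤ rexp (-(π * x / N)) := (Real.exp_pos _).le
    calc a ^ (-(3 / 2) : ℝ) * ‖∫ u, ch x N ((c0 j m : ℝ) / a) u‖ ≤
        a ^ (-(3 / 2) : ℝ) * (C * ((N + 1) ^ 2 * ((c0 j m : ℝ) / a) ^ (-(3 / 2) : ℝ) *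
          rexp (-(π * x / N)))) := mul_le_mul_of_nonneg_left h4 (by positivity)
      _ = (a ^ (-(3 / 2) : ℝ) * ((c0 j m : ℝ) / a) ^ (-(3 / 2) : ℝ)) *
          (C * ((N + 1) ^ 2 * rexp (-(π * x / N)))) := by ring
      _ ≤ 1 * (C * ((n + 1) ^ 2 * rexp (-(3 * L)))) := by
          apply mul_le_mul h5 _ (by positivity) zero_le_one
          apply mul_le_mul_of_nonneg_left _ hC.le
          exact mul_le_mul h9 h6 h10 (by positivity)
      _ = _ := one_mul _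
  refine (Finset.sum_le_sum h1).trans ?_
  rw [Finset.sum_const, nsmul_eq_mul]
  apply mul_le_mul_of_nonneg_right _ (by positivity)
  have h7 : ((Ms j).card : ℝ) ≤ a := by rw [ha]; exact_mod_cast card_Ms hj
  linarith

private theorem Asym_E : ∃ C : ℝ, 0 < C ∧ ∀ (n : ℕ) (x : ℝ), 1 ≤ n → 1 ≤ x → x ≤ n →
    ∑ j ∈ (range n).filter Odd, ∑ m ∈ Ms j,
      (j : ℝ) ^ (-(3 / 2) : ℝ) * ‖(∫ u, ch x (n / (j : ℝ) ^ 2) ((c0 j m : ℝ) / j) u) -
        AM x (n / (j : ℝ) ^ 2) ((c0 j m : ℝ) / j) (2 + 2 * Real.log n)‖ ≤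
    C * ((1 + Real.log n) ^ 2 * ((n : ℝ) ^ (1 / 4 : ℝ) * x ^ (-(3 / 4) : ℝ))) := by
  obtain ⟨C₁, hC₁, hch⟩ := chain_asym
  obtain ⟨C₂, hC₂, ht⟩ := tail
  refine ⟨4 * (5 * C₁ + 4 * C₂), by positivity, ?_⟩
  intro n x hn1 hx1 hxn
  obtain ⟨y, hy⟩ : ∃ y : ℝ, y = n := ⟨_, rfl⟩
  have hy1 : 1 ≤ y := by rw [hy]; exact_mod_cast hn1
  have hy0 : 0 < y := by linarith
  rw [← hy] at hxn ⊢
  have hx0 : 0 < x := by linarith
  have hlog : 0 ≤ Real.log y := Real.log_nonneg hy1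
  set L : ℝ := 2 + 2 * Real.log y with hL
  have hL1' : 1 < L := by linarith
  have hL1 : 1 ≤ L := by linarith
  have hL0 : 0 < L := by linarith
  set J : ℝ := (L * y / x) ^ (1 / 2 : ℝ) with hJ
  have hJ0 : 0 < J := by positivity
  have hJ2 : J ^ 2 * x = L * y := by
    rw [hJ, ← Real.rpow_natCast, ← Real.rpow_mul (by positivity)]
    norm_num
    field_simp
  have hJs : ∀ s : ℝ, J ^ s = L ^ (s / 2) * y ^ (s / 2) * x ^ (-(s / 2)) := by
    intro s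
    rw [hJ, ← Real.rpow_mul (by positivity), Real.div_rpow (by positivity) hx0.le,
      Real.mul_rpow hL0.le hy0.le, Real.rpow_neg hx0.le, div_eq_mul_inv]
    ring_nf
  set B : ℝ := y ^ (1 / 4 : ℝ) * x ^ (-(3 / 4) : ℝ) with hB
  set W : ℝ := 2 * (J ^ (1 / 2 : ℝ) * y ^ (-(1 / 2) : ℝ)) +
        J ^ (3 / 2 : ℝ) * y ^ (-1 : ℝ) + L * y ^ (-(1 / 4) : ℝ) * x ^ (-(3 / 4) : ℝ) +
        rexp (-L) with hW
  have hW0 : 0 ≤ W := by positivity
  set E : ℝ := y * (C₂ * ((y + 1) ^ 2 * rexp (-(3 * L)))) with hE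
  have hE0 : 0 ≤ E := by positivity
  -- one `j`
  have h1 : ∀ j ∈ (range n).filter Odd, ∑ m ∈ Ms j,
      (j : ℝ) ^ (-(3 / 2) : ℝ) * ‖(∫ u, ch x (y / (j : ℝ) ^ 2) ((c0 j m : ℝ) / j) u) -
        AM x (y / (j : ℝ) ^ 2) ((c0 j m : ℝ) / j) L‖ ≤
      (if (j : ℝ) ≤ J then C₁ * W else 0) + E := by
    intro j hj
    rw [Finset.mem_filter, Finset.mem_range] at hj
    split_ifs with h
    · have := Asym_A hC₁ (fun x N ν₀ L h1 h2 h3 h4 h5 h6 => hch x N ν₀ L h1 h2 h3 h4 h5 h6)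
        hj.2 hy0 hx1 hL1 h hJ2.le
      linarith
    · rw [zero_add]
      refine Asym_B hC₂ ht hj.2 hy0 hx1 hL1' hJ0.le (not_le.1 h) hJ2.ge ?_
      rw [hy]
      exact_mod_cast hj.1.le
  refine (Finset.sum_le_sum h1).trans ?_
  rw [Finset.sum_add_distrib, ← Finset.sum_filter, Finset.sum_const, Finset.sum_const,
    nsmul_eq_mul, nsmul_eq_mul]
  -- numbers of terms
  have h2 : ((((range n).filter Odd).filter fun j : ℕ => (j : ℝ) ≤ J).card : ℝ) ≤ J := by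
    have h3 : (((range n).filter Odd).filter fun j : ℕ => (j : ℝ) ≤ J) ⊆ Finset.Icc 1 ⌊J⌋₊ := by
      intro j hj
      rw [Finset.mem_filter, Finset.mem_filter] at hj
      rw [Finset.mem_Icc]
      exact ⟨hj.1.2.pos, Nat.le_floor hj.2⟩
    have h4 := Finset.card_le_card h3
    rw [Nat.card_Icc, Nat.add_sub_cancel] at h4
    refine le_trans ?_ (Nat.floor_le hJ0.le)
    exact_mod_cast h4
  have h3 : (((range n).filter Odd).card : ℝ) ≤ y := by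
    have h4 := Finset.card_filter_le (range n) Odd
    rw [Finset.card_range] at h4
    rw [hy]
    exact_mod_cast h4
  have hexp : rexp (-(2 * Real.log y)) = y ^ (-2 : ℝ) := by
    rw [Real.rpow_def_of_pos hy0]
    congr 1
    ring
  have hyB : y ^ (-1 : ℝ) ≤ B := by
    have h5 : y ^ (-(3 / 4) : ℝ) ≤ x ^ (-(3 / 4) : ℝ) :=
      Real.rpow_le_rpow_of_nonpos hx0 hxn (by norm_num)
    calc y ^ (-1 : ℝ) ≤ y ^ (1 / 4 + -(3 / 4) : ℝ) :=
          Real.rpow_le_rpow_of_exponent_le hy1 (by norm_num)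
      _ = y ^ (1 / 4 : ℝ) * y ^ (-(3 / 4) : ℝ) := Real.rpow_add hy0 _ _
      _ ≤ B := mul_le_mul_of_nonneg_left h5 (by positivity)
  have hB0 : 0 < B := by positivity
  have hL2 : 1 ≤ L ^ 2 := one_le_pow₀ hL1
  have h4 : J * W ≤ 5 * (L ^ 2 * B) := by
    have t1 : J * (J ^ (1 / 2 : ℝ) * y ^ (-(1 / 2) : ℝ)) ≤ L ^ 2 * B := by
      have e1 : J * (J ^ (1 / 2 : ℝ) * y ^ (-(1 / 2) : ℝ)) =
          L ^ (3 / 4 : ℝ) * (y ^ (1 / 4 : ℝ) * x ^ (-(3 / 4) : ℝ)) := by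
        have e2 : J * J ^ (1 / 2 : ℝ) = J ^ (3 / 2 : ℝ) := by
          nth_rewrite 1 [← Real.rpow_one J]
          rw [← Real.rpow_add hJ0]
          norm_num
        have e3 : y ^ (3 / 4 : ℝ) * y ^ (-(1 / 2) : ℝ) = y ^ (1 / 4 : ℝ) := by
          rw [← Real.rpow_add hy0]
          norm_num
        rw [← mul_assoc, e2, hJs, ← e3]
        norm_num
        ring
      rw [e1]
      exact Asym_le hL1 hy0 hx1 (by norm_num) (by norm_num)
    have t3 : J * (J ^ (3 / 2 : ℝ) * y ^ (-1 : ℝ)) ≤ L ^ 2 * B := by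
      have e1 : J * (J ^ (3 / 2 : ℝ) * y ^ (-1 : ℝ)) =
          L ^ (5 / 4 : ℝ) * (y ^ (1 / 4 : ℝ) * x ^ (-(5 / 4) : ℝ)) := by
        have e2 : J * J ^ (3 / 2 : ℝ) = J ^ (5 / 2 : ℝ) := by
          nth_rewrite 1 [← Real.rpow_one J]
          rw [← Real.rpow_add hJ0]
          norm_num
        have e3 : y ^ (5 / 4 : ℝ) * y ^ (-1 : ℝ) = y ^ (1 / 4 : ℝ) := by
          rw [← Real.rpow_add hy0]
          norm_num
        rw [← mul_assoc, e2, hJs, ← e3]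
        norm_num
        ring
      rw [e1]
      exact Asym_le hL1 hy0 hx1 (by norm_num) (by norm_num)
    have t4 : J * (L * y ^ (-(1 / 4) : ℝ) * x ^ (-(3 / 4) : ℝ)) ≤ L ^ 2 * B := by
      have e1 : J * (L * y ^ (-(1 / 4) : ℝ) * x ^ (-(3 / 4) : ℝ)) =
          L ^ (3 / 2 : ℝ) * (y ^ (1 / 4 : ℝ) * x ^ (-(5 / 4) : ℝ)) := by
        have e2 : J = L ^ (1 / 2 : ℝ) * y ^ (1 / 2 : ℝ) * x ^ (-(1 / 2) : ℝ) := by
          have := hJs 1
          rwa [Real.rpow_one] at this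
        have e3 : y ^ (1 / 2 : ℝ) * y ^ (-(1 / 4) : ℝ) = y ^ (1 / 4 : ℝ) := by
          rw [← Real.rpow_add hy0]
          norm_num
        have e4 : x ^ (-(1 / 2) : ℝ) * x ^ (-(3 / 4) : ℝ) = x ^ (-(5 / 4) : ℝ) := by
          rw [← Real.rpow_add hx0]
          norm_num
        have e5 : L ^ (1 / 2 : ℝ) * L = L ^ (3 / 2 : ℝ) := by
          nth_rewrite 2 [← Real.rpow_one L]
          rw [← Real.rpow_add hL0]
          norm_num
        rw [e2, ← e3, ← e4, ← e5]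
        ring
      rw [e1]
      exact Asym_le hL1 hy0 hx1 (by norm_num) (by norm_num)
    have t5 : J * rexp (-L) ≤ L ^ 2 * B := by
      have e1 : J ≤ L * y := by
        have e2 : J = (L * y / x) ^ (1 / 2 : ℝ) := hJ
        have e3 : L * y / x ≤ L * y := div_le_self (by positivity) hx1
        have e4 : 1 ≤ L * y := by nlinarith
        calc J ≤ (L * y) ^ (1 / 2 : ℝ) := by
              rw [e2]
              exact Real.rpow_le_rpow (by positivity) e3 (by norm_num)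
          _ ≤ (L * y) ^ (1 : ℝ) := Real.rpow_le_rpow_of_exponent_le e4 (by norm_num)
          _ = L * y := Real.rpow_one _
      have e2 : rexp (-L) ≤ y ^ (-2 : ℝ) := by
        rw [← hexp]
        exact Real.exp_le_exp.2 (by linarith)
      have e3 : y * y ^ (-2 : ℝ) = y ^ (-1 : ℝ) := by
        nth_rewrite 1 [← Real.rpow_one y]
        rw [← Real.rpow_add hy0]
        norm_num
      calc J * rexp (-L) ≤ L * y * y ^ (-2 : ℝ) :=
            mul_le_mul e1 e2 (Real.exp_pos _).le (by positivity)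
        _ = L * y ^ (-1 : ℝ) := by rw [mul_assoc, e3]
        _ ≤ L ^ 2 * B := by
            apply mul_le_mul _ hyB (by positivity) (by positivity)
            nlinarith
    have e0 : J * W = 2 * (J * (J ^ (1 / 2 : ℝ) * y ^ (-(1 / 2) : ℝ))) +
        J * (J ^ (3 / 2 : ℝ) * y ^ (-1 : ℝ)) +
        J * (L * y ^ (-(1 / 4) : ℝ) * x ^ (-(3 / 4) : ℝ)) + J * rexp (-L) := by
      rw [hW]
      ring
    rw [e0]
    linarith
  have h5 : y * E ≤ 4 * C₂ * (L ^ 2 * B) := by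
    have e1 : rexp (-(3 * L)) ≤ y ^ (-6 : ℝ) := by
      have e2 : y ^ (-6 : ℝ) = rexp (-(6 * Real.log y)) := by
        rw [Real.rpow_def_of_pos hy0]
        congr 1
        ring
      rw [e2]
      exact Real.exp_le_exp.2 (by linarith)
    have e3 : y ^ 4 * y ^ (-6 : ℝ) = y ^ (-2 : ℝ) := by
      rw [← Real.rpow_natCast y 4, ← Real.rpow_add hy0]
      norm_num
    have e4 : y ^ (-2 : ℝ) ≤ y ^ (-1 : ℝ) :=
      Real.rpow_le_rpow_of_exponent_le hy1 (by norm_num)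
    have e5 : (y + 1) ^ 2 ≤ 4 * y ^ 2 := by nlinarith
    have e6 : B ≤ L ^ 2 * B := by nlinarith
    calc y * E = C₂ * (y ^ 2 * ((y + 1) ^ 2 * rexp (-(3 * L)))) := by
          rw [hE]
          ring
      _ ≤ C₂ * (y ^ 2 * (4 * y ^ 2 * y ^ (-6 : ℝ))) := by
          apply mul_le_mul_of_nonneg_left _ hC₂.le
          apply mul_le_mul_of_nonneg_left _ (by positivity)
          exact mul_le_mul e5 e1 (Real.exp_pos _).le (by positivity)
      _ = 4 * C₂ * (y ^ 4 * y ^ (-6 : ℝ)) := by ring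
      _ ≤ 4 * C₂ * (L ^ 2 * B) := by
          apply mul_le_mul_of_nonneg_left _ (by positivity)
          rw [e3]
          linarith
  have h6 : L ^ 2 = 4 * (1 + Real.log y) ^ 2 := by
    rw [hL]
    ring
  calc ((((range n).filter Odd).filter fun j : ℕ => (j : ℝ) ≤ J).card : ℝ) * (C₁ * W) +
      (((range n).filter Odd).card : ℝ) * E ≤ J * (C₁ * W) + y * E := by
        apply add_le_add
        · exact mul_le_mul_of_nonneg_right h2 (by positivity)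
        · exact mul_le_mul_of_nonneg_right h3 hE0
    _ = C₁ * (J * W) + y * E := by ring
    _ ≤ C₁ * (5 * (L ^ 2 * B)) + 4 * C₂ * (L ^ 2 * B) := by
        apply add_le_add _ h5
        exact mul_le_mul_of_nonneg_left h4 hC₁.le
    _ = 4 * (5 * C₁ + 4 * C₂) * ((1 + Real.log y) ^ 2 * B) := by
        rw [h6]
        ring

/-- the difference of the two truncations, large `x` -/
private theorem Asym_D1 {x N L n ν₀ : ℝ} (hL : 1 ≤ L) (hx : 16 * L ≤ x) (hxN : x ≤ N) (hNn : N ≤ n)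
    (hν : 0 < ν₀) (hν1 : ν₀ ≤ 1) :
    ‖mains ((√N - √x) ^ 2) ν₀ (cnt ν₀ (√(x * N / L) / 2)) -
      mains ((√N - √x) ^ 2) ν₀ (⌈2 * √n⌉₊ + 1)‖ ≤ 14 := by
  have hL0 : 0 < L := by linarith
  have hx0 : 0 < x := by linarith
  have hN0 : 0 < N := by linarith
  have hsx : 4 ≤ √x := by
    refine Real.le_sqrt_of_sq_le ?_
    linarith
  have hsN : √x ≤ √N := Real.sqrt_le_sqrt hxN
  have hsn : √N ≤ √n := Real.sqrt_le_sqrt hNn
  have hV : 2 * √N ≤ √(x * N / L) / 2 := by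
    have h1 : 4 * √N ≤ √(x * N / L) := by
      have h2 : 4 * √N = √(16 * N) := by
        rw [Real.sqrt_mul (by norm_num)]
        congr 1
        rw [show (16 : ℝ) = 4 ^ 2 by norm_num, Real.sqrt_sq (by norm_num)]
      rw [h2]
      refine Real.sqrt_le_sqrt ?_
      rw [le_div_iff₀ hL0]
      nlinarith
    linarith
  have hm : 2 * √N - 1 ≤ (cnt ν₀ (√(x * N / L) / 2) : ℝ) := by
    unfold cnt
    have := Nat.le_ceil (√(x * N / L) / 2 - ν₀)
    linarith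
  have hm1 : 1 ≤ cnt ν₀ (√(x * N / L) / 2) := by
    have h1 : (0 : ℝ) < (cnt ν₀ (√(x * N / L) / 2) : ℝ) := by linarith
    exact_mod_cast h1
  have hK : 2 * √n ≤ ((⌈2 * √n⌉₊ + 1 : ℕ) : ℝ) := by
    have := Nat.le_ceil (2 * √n)
    push_cast
    linarith
  have ht0 : 0 ≤ √N - √x := by linarith
  have h4m : 4 * (√N - √x) ^ 2 ≤ ((cnt ν₀ (√(x * N / L) / 2) : ℕ) : ℝ) ^ 2 := by
    have h1 : 2 * (√N - √x) ≤ (cnt ν₀ (√(x * N / L) / 2) : ℝ) := by linarith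
    nlinarith
  have h4K : 4 * (√N - √x) ^ 2 ≤ ((⌈2 * √n⌉₊ + 1 : ℕ) : ℝ) ^ 2 := by
    have h1 : 2 * (√N - √x) ≤ ((⌈2 * √n⌉₊ + 1 : ℕ) : ℝ) := by linarith
    nlinarith
  rcases le_total (cnt ν₀ (√(x * N / L) / 2)) (⌈2 * √n⌉₊ + 1) with h | h
  · rw [norm_sub_rev]
    exact mains_cut _ _ _ _ (sq_nonneg _) hν hν1 hm1 h h4m
  · exact mains_cut _ _ _ _ (sq_nonneg _) hν hν1 (by omega) h h4K

private theorem Asym_T {x N : ℝ} (hx : 0 ≤ x) (hxN : x ≤ N) : (√N - √x) ^ 2 ≤ N := by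
  have h1 : 0 ≤ √x := Real.sqrt_nonneg x
  have h2 : √x ≤ √N := Real.sqrt_le_sqrt hxN
  have h3 : √N ^ 2 = N := Real.sq_sqrt (hx.trans hxN)
  nlinarith

/-- all `x` -/
private theorem Asym_D : ∃ C : ℝ, 0 < C ∧ ∀ (n : ℕ) (x : ℝ), 1 ≤ n → 1 ≤ x → x ≤ n →
    ∑ j ∈ ((range n).filter Odd).filter (fun j : ℕ => (j : ℝ) ^ 2 * x ≤ n), ∑ m ∈ Ms j,
      ((j : ℝ) ^ (-(1 / 2) : ℝ) * (n : ℝ) ^ (-(1 / 2) : ℝ)) *
      ‖mains ((√(n / (j : ℝ) ^ 2) - √x) ^ 2) ((c0 j m : ℝ) / j)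
          (cnt ((c0 j m : ℝ) / j) (√(x * (n / (j : ℝ) ^ 2) / (2 + 2 * Real.log n)) / 2)) -
        mains ((√(n / (j : ℝ) ^ 2) - √x) ^ 2) ((c0 j m : ℝ) / j) (⌈2 * √(n : ℝ)⌉₊ + 1)‖ ≤
    C * ((1 + Real.log n) * ((n : ℝ) ^ (1 / 4 : ℝ) * x ^ (-(3 / 4) : ℝ))) := by
  obtain ⟨C, hC, hml⟩ := mains_le
  refine ⟨14 + 2 * C * (2 + 32), by positivity, ?_⟩
  intro n x hn1 hx1 hxn
  obtain ⟨y, hy⟩ : ∃ y : ℝ, y = n := ⟨_, rfl⟩
  have hy1 : 1 ≤ y := by rw [hy]; exact_mod_cast hn1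
  have hy0 : 0 < y := by linarith
  rw [← hy] at hxn ⊢
  have hx0 : 0 < x := by linarith
  have hlog : 0 ≤ Real.log y := Real.log_nonneg hy1
  set L : ℝ := 2 + 2 * Real.log y with hL
  have hL1 : 1 ≤ L := by linarith
  have hL0 : 0 < L := by linarith
  set J : ℝ := (y / x) ^ (1 / 2 : ℝ) with hJ
  have hJ0 : 0 < J := by positivity
  have hJ2 : J ^ 2 * x = y := by
    rw [hJ, ← Real.rpow_natCast, ← Real.rpow_mul (by positivity)]
    norm_num
    field_simp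
  have hJs : ∀ s : ℝ, J ^ s = y ^ (s / 2) * x ^ (-(s / 2)) := by
    intro s
    rw [hJ, ← Real.rpow_mul (by positivity), Real.div_rpow (by positivity) hx0.le,
      Real.rpow_neg hx0.le, div_eq_mul_inv]
    ring_nf
  set B : ℝ := y ^ (1 / 4 : ℝ) * x ^ (-(3 / 4) : ℝ) with hB
  have hB0 : 0 < B := by positivity
  -- facts about `j`
  have hjf : ∀ j ∈ ((range n).filter Odd).filter (fun j : ℕ => (j : ℝ) ^ 2 * x ≤ y),
      Odd j ∧ (1 : ℝ) ≤ j ∧ (j : ℝ) ≤ J ∧ x ≤ y / (j : ℝ) ^ 2 ∧ y / (j : ℝ) ^ 2 ≤ y := by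
    intro j hj
    rw [Finset.mem_filter, Finset.mem_filter] at hj
    have h1 : 1 ≤ j := hj.1.2.pos
    have h1' : (1 : ℝ) ≤ j := by exact_mod_cast h1
    refine ⟨hj.1.2, h1', ?_, ?_, ?_⟩
    · by_contra h
      rw [not_le] at h
      have h3 : J ^ 2 < (j : ℝ) ^ 2 := pow_lt_pow_left₀ h hJ0.le (by norm_num)
      nlinarith [hj.2]
    · rw [le_div_iff₀ (by positivity)]
      linarith [hj.2]
    · apply div_le_self hy0.le
      nlinarith
  have hcard : ((((range n).filter Odd).filter (fun j : ℕ => (j : ℝ) ^ 2 * x ≤ y)).card : ℝ) ≤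
      J := by
    have h3 : (((range n).filter Odd).filter (fun j : ℕ => (j : ℝ) ^ 2 * x ≤ y)) ⊆
        Finset.Icc 1 ⌊J⌋₊ := by
      intro j hj
      obtain ⟨a1, a2, a3, -, -⟩ := hjf j hj
      rw [Finset.mem_Icc]
      exact ⟨a1.pos, Nat.le_floor a3⟩
    have h4 := Finset.card_le_card h3
    rw [Nat.card_Icc, Nat.add_sub_cancel] at h4
    refine le_trans ?_ (Nat.floor_le hJ0.le)
    exact_mod_cast h4
  have e32 : J * (J ^ (1 / 2 : ℝ) * y ^ (-(1 / 2) : ℝ)) = B := by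
    have e2 : J * J ^ (1 / 2 : ℝ) = J ^ (3 / 2 : ℝ) := by
      nth_rewrite 1 [← Real.rpow_one J]
      rw [← Real.rpow_add hJ0]
      norm_num
    have e3 : y ^ (3 / 4 : ℝ) * y ^ (-(1 / 2) : ℝ) = y ^ (1 / 4 : ℝ) := by
      rw [← Real.rpow_add hy0]
      norm_num
    rw [← mul_assoc, e2, hJs, hB, ← e3]
    norm_num
    ring
  have hlog1 : 1 ≤ 1 + Real.log y := by linarith
  rcases le_or_gt (16 * L) x with hxL | hxL
  · -- large `x`
    have h1 : ∀ j ∈ ((range n).filter Odd).filter (fun j : ℕ => (j : ℝ) ^ 2 * x ≤ y),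
        ∑ m ∈ Ms j, ((j : ℝ) ^ (-(1 / 2) : ℝ) * y ^ (-(1 / 2) : ℝ)) *
          ‖mains ((√(y / (j : ℝ) ^ 2) - √x) ^ 2) ((c0 j m : ℝ) / j)
            (cnt ((c0 j m : ℝ) / j) (√(x * (y / (j : ℝ) ^ 2) / L) / 2)) -
          mains ((√(y / (j : ℝ) ^ 2) - √x) ^ 2) ((c0 j m : ℝ) / j) (⌈2 * √y⌉₊ + 1)‖ ≤
        14 * (J ^ (1 / 2 : ℝ) * y ^ (-(1 / 2) : ℝ)) := by
      intro j hj
      obtain ⟨a1, a2, a3, a4, a5⟩ := hjf j hj
      have hj0 : (0 : ℝ) < j := by linarith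
      have h2 : ∀ m ∈ Ms j, ((j : ℝ) ^ (-(1 / 2) : ℝ) * y ^ (-(1 / 2) : ℝ)) *
          ‖mains ((√(y / (j : ℝ) ^ 2) - √x) ^ 2) ((c0 j m : ℝ) / j)
            (cnt ((c0 j m : ℝ) / j) (√(x * (y / (j : ℝ) ^ 2) / L) / 2)) -
          mains ((√(y / (j : ℝ) ^ 2) - √x) ^ 2) ((c0 j m : ℝ) / j) (⌈2 * √y⌉₊ + 1)‖ ≤
          ((j : ℝ) ^ (-(1 / 2) : ℝ) * y ^ (-(1 / 2) : ℝ)) * 14 := by
        intro m hm
        obtain ⟨h2, h3, -⟩ := c0_spec a1.pos (Asym_cop m hm)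
        have h2' : (1 : ℝ) ≤ c0 j m := by exact_mod_cast h2
        have h3' : (c0 j m : ℝ) ≤ j := by exact_mod_cast h3
        refine mul_le_mul_of_nonneg_left ?_ (by positivity)
        exact Asym_D1 hL1 hxL a4 a5 (by positivity) ((div_le_one hj0).2 h3')
      refine (Finset.sum_le_sum h2).trans ?_
      rw [Finset.sum_const, nsmul_eq_mul]
      have h7 : ((Ms j).card : ℝ) ≤ j := by exact_mod_cast card_Ms a1
      have q1 : (j : ℝ) * (j : ℝ) ^ (-(1 / 2) : ℝ) = (j : ℝ) ^ (1 / 2 : ℝ) := by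
        nth_rewrite 1 [← Real.rpow_one (j : ℝ)]
        rw [← Real.rpow_add hj0]
        norm_num
      have r1 : (j : ℝ) ^ (1 / 2 : ℝ) ≤ J ^ (1 / 2 : ℝ) :=
        Real.rpow_le_rpow hj0.le a3 (by norm_num)
      calc ((Ms j).card : ℝ) * ((j : ℝ) ^ (-(1 / 2) : ℝ) * y ^ (-(1 / 2) : ℝ) * 14) ≤
          (j : ℝ) * ((j : ℝ) ^ (-(1 / 2) : ℝ) * y ^ (-(1 / 2) : ℝ) * 14) :=
            mul_le_mul_of_nonneg_right h7 (by positivity)
        _ = 14 * ((j : ℝ) ^ (1 / 2 : ℝ) * y ^ (-(1 / 2) : ℝ)) := by rw [← q1]; ring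
        _ ≤ _ := by gcongr
    refine (Finset.sum_le_sum h1).trans ?_
    rw [Finset.sum_const, nsmul_eq_mul]
    calc ((((range n).filter Odd).filter (fun j : ℕ => (j : ℝ) ^ 2 * x ≤ y)).card : ℝ) *
          (14 * (J ^ (1 / 2 : ℝ) * y ^ (-(1 / 2) : ℝ))) ≤
          J * (14 * (J ^ (1 / 2 : ℝ) * y ^ (-(1 / 2) : ℝ))) :=
          mul_le_mul_of_nonneg_right hcard (by positivity)
      _ = 14 * B := by rw [← e32]; ring
      _ ≤ (14 + 2 * C * (2 + 32)) * ((1 + Real.log y) * B) := by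
          have h2 : B ≤ (1 + Real.log y) * B := by nlinarith
          have h3 : 0 ≤ 2 * C * (2 + 32) * ((1 + Real.log y) * B) := by positivity
          linarith
  · -- small `x`
    have h1 : ∀ j ∈ ((range n).filter Odd).filter (fun j : ℕ => (j : ℝ) ^ 2 * x ≤ y),
        ∑ m ∈ Ms j, ((j : ℝ) ^ (-(1 / 2) : ℝ) * y ^ (-(1 / 2) : ℝ)) *
          ‖mains ((√(y / (j : ℝ) ^ 2) - √x) ^ 2) ((c0 j m : ℝ) / j)
            (cnt ((c0 j m : ℝ) / j) (√(x * (y / (j : ℝ) ^ 2) / L) / 2)) -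
          mains ((√(y / (j : ℝ) ^ 2) - √x) ^ 2) ((c0 j m : ℝ) / j) (⌈2 * √y⌉₊ + 1)‖ ≤
        2 * C * (2 * (J ^ (1 / 2 : ℝ) * y ^ (-(1 / 2) : ℝ)) +
          J ^ (7 / 26 : ℝ) * y ^ (-(5 / 13) : ℝ)) := by
      intro j hj
      obtain ⟨a1, a2, a3, a4, a5⟩ := hjf j hj
      have hj0 : (0 : ℝ) < j := by linarith
      set N : ℝ := y / (j : ℝ) ^ 2 with hN
      have hN0 : 0 < N := by positivity
      have h2 : ∀ m ∈ Ms j, ((j : ℝ) ^ (-(1 / 2) : ℝ) * y ^ (-(1 / 2) : ℝ)) *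
          ‖mains ((√N - √x) ^ 2) ((c0 j m : ℝ) / j)
            (cnt ((c0 j m : ℝ) / j) (√(x * N / L) / 2)) -
          mains ((√N - √x) ^ 2) ((c0 j m : ℝ) / j) (⌈2 * √y⌉₊ + 1)‖ ≤
          ((j : ℝ) ^ (-(1 / 2) : ℝ) * y ^ (-(1 / 2) : ℝ)) *
            (2 * C * (((c0 j m : ℝ) / j) ^ (-(1 / 2) : ℝ) + N ^ (3 / 26 : ℝ))) := by
        intro m hm
        obtain ⟨h2, h3, -⟩ := c0_spec a1.pos (Asym_cop m hm)
        have h2' : (1 : ℝ) ≤ c0 j m := by exact_mod_cast h2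
        have h3' : (c0 j m : ℝ) ≤ j := by exact_mod_cast h3
        refine mul_le_mul_of_nonneg_left ?_ (by positivity)
        have ht : ((√N - √x) ^ 2) ^ (3 / 26 : ℝ) ≤ N ^ (3 / 26 : ℝ) :=
          Real.rpow_le_rpow (sq_nonneg _) (Asym_T hx0.le a4) (by norm_num)
        have hν1 : (c0 j m : ℝ) / j ≤ 1 := (div_le_one hj0).2 h3'
        have b1 := hml ((√N - √x) ^ 2) ((c0 j m : ℝ) / j)
          (cnt ((c0 j m : ℝ) / j) (√(x * N / L) / 2)) (sq_nonneg _) (by positivity) hν1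
        have b2 := hml ((√N - √x) ^ 2) ((c0 j m : ℝ) / j) (⌈2 * √y⌉₊ + 1) (sq_nonneg _)
          (by positivity) hν1
        refine (norm_sub_le _ _).trans ?_
        have b3 : C * (((c0 j m : ℝ) / j) ^ (-(1 / 2) : ℝ) + ((√N - √x) ^ 2) ^ (3 / 26 : ℝ)) ≤
            C * (((c0 j m : ℝ) / j) ^ (-(1 / 2) : ℝ) + N ^ (3 / 26 : ℝ)) :=
          mul_le_mul_of_nonneg_left (by linarith) hC.le
        linarith
      refine (Finset.sum_le_sum h2).trans ?_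
      have h5 : ∑ m ∈ Ms j, ((j : ℝ) ^ (-(1 / 2) : ℝ) * y ^ (-(1 / 2) : ℝ)) *
            (2 * C * (((c0 j m : ℝ) / j) ^ (-(1 / 2) : ℝ) + N ^ (3 / 26 : ℝ))) =
          ((j : ℝ) ^ (-(1 / 2) : ℝ) * y ^ (-(1 / 2) : ℝ)) *
            (2 * C * ((∑ m ∈ Ms j, ((c0 j m : ℝ) / j) ^ (-(1 / 2) : ℝ)) +
              (Ms j).card * N ^ (3 / 26 : ℝ))) := by
        rw [← Finset.mul_sum, ← Finset.mul_sum, Finset.sum_add_distrib, Finset.sum_const,
          nsmul_eq_mul]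
      rw [h5]
      have h6 : ∑ m ∈ Ms j, ((c0 j m : ℝ) / j) ^ (-(1 / 2) : ℝ) ≤ 2 * j := sum_c0 a1
      have h7 : ((Ms j).card : ℝ) ≤ j := by exact_mod_cast card_Ms a1
      have h8 : (∑ m ∈ Ms j, ((c0 j m : ℝ) / j) ^ (-(1 / 2) : ℝ)) +
          (Ms j).card * N ^ (3 / 26 : ℝ) ≤ 2 * j + j * N ^ (3 / 26 : ℝ) :=
        add_le_add h6 (mul_le_mul_of_nonneg_right h7 (by positivity))
      have q1 : (j : ℝ) * (j : ℝ) ^ (-(1 / 2) : ℝ) = (j : ℝ) ^ (1 / 2 : ℝ) := by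
        nth_rewrite 1 [← Real.rpow_one (j : ℝ)]
        rw [← Real.rpow_add hj0]
        norm_num
      have q2 : (j : ℝ) ^ (1 / 2 : ℝ) * (y ^ (-(1 / 2) : ℝ) * N ^ (3 / 26 : ℝ)) =
          (j : ℝ) ^ (7 / 26 : ℝ) * y ^ (-(5 / 13) : ℝ) := by
        rw [hN, Asym_N hy0 hj0]
        have q3 : (j : ℝ) ^ (7 / 26 : ℝ) =
            (j : ℝ) ^ (1 / 2 : ℝ) * (j : ℝ) ^ (-(2 * (3 / 26)) : ℝ) := by
          rw [← Real.rpow_add hj0]
          norm_num
        have q4 : y ^ (-(5 / 13) : ℝ) = y ^ (-(1 / 2) : ℝ) * y ^ (3 / 26 : ℝ) := by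
          rw [← Real.rpow_add hy0]
          norm_num
        rw [q3, q4]
        ring
      have r1 : (j : ℝ) ^ (1 / 2 : ℝ) ≤ J ^ (1 / 2 : ℝ) :=
        Real.rpow_le_rpow hj0.le a3 (by norm_num)
      have r2 : (j : ℝ) ^ (7 / 26 : ℝ) ≤ J ^ (7 / 26 : ℝ) :=
        Real.rpow_le_rpow hj0.le a3 (by norm_num)
      calc ((j : ℝ) ^ (-(1 / 2) : ℝ) * y ^ (-(1 / 2) : ℝ)) *
            (2 * C * ((∑ m ∈ Ms j, ((c0 j m : ℝ) / j) ^ (-(1 / 2) : ℝ)) +
              (Ms j).card * N ^ (3 / 26 : ℝ))) ≤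
          ((j : ℝ) ^ (-(1 / 2) : ℝ) * y ^ (-(1 / 2) : ℝ)) *
            (2 * C * (2 * j + j * N ^ (3 / 26 : ℝ))) := by
            refine mul_le_mul_of_nonneg_left ?_ (by positivity)
            exact mul_le_mul_of_nonneg_left h8 (by positivity)
        _ = 2 * C * (2 * (((j : ℝ) * (j : ℝ) ^ (-(1 / 2) : ℝ)) * y ^ (-(1 / 2) : ℝ)) +
            ((j : ℝ) * (j : ℝ) ^ (-(1 / 2) : ℝ)) * (y ^ (-(1 / 2) : ℝ) * N ^ (3 / 26 : ℝ))) := by
            ring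
        _ = 2 * C * (2 * ((j : ℝ) ^ (1 / 2 : ℝ) * y ^ (-(1 / 2) : ℝ)) +
            (j : ℝ) ^ (7 / 26 : ℝ) * y ^ (-(5 / 13) : ℝ)) := by rw [q1, q2]
        _ ≤ _ := by gcongr
    refine (Finset.sum_le_sum h1).trans ?_
    rw [Finset.sum_const, nsmul_eq_mul]
    have e33 : J * (J ^ (7 / 26 : ℝ) * y ^ (-(5 / 13) : ℝ)) = B * x ^ (3 / 26 : ℝ) := by
      have e2 : J * J ^ (7 / 26 : ℝ) = J ^ (33 / 26 : ℝ) := by
        nth_rewrite 1 [← Real.rpow_one J]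
        rw [← Real.rpow_add hJ0]
        norm_num
      have e3 : y ^ (33 / 52 : ℝ) * y ^ (-(5 / 13) : ℝ) = y ^ (1 / 4 : ℝ) := by
        rw [← Real.rpow_add hy0]
        norm_num
      have e4 : x ^ (-(33 / 52) : ℝ) = x ^ (-(3 / 4) : ℝ) * x ^ (3 / 26 : ℝ) := by
        rw [← Real.rpow_add hx0]
        norm_num
      rw [← mul_assoc, e2, hJs, hB, ← e3, mul_assoc, mul_assoc, ← e4]
      norm_num
      ring
    have hx3 : x ^ (3 / 26 : ℝ) ≤ 16 * L := by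
      calc x ^ (3 / 26 : ℝ) ≤ x ^ (1 : ℝ) := Real.rpow_le_rpow_of_exponent_le hx1 (by norm_num)
        _ = x := Real.rpow_one x
        _ ≤ 16 * L := hxL.le
    calc ((((range n).filter Odd).filter (fun j : ℕ => (j : ℝ) ^ 2 * x ≤ y)).card : ℝ) *
          (2 * C * (2 * (J ^ (1 / 2 : ℝ) * y ^ (-(1 / 2) : ℝ)) +
            J ^ (7 / 26 : ℝ) * y ^ (-(5 / 13) : ℝ))) ≤
          J * (2 * C * (2 * (J ^ (1 / 2 : ℝ) * y ^ (-(1 / 2) : ℝ)) +
            J ^ (7 / 26 : ℝ) * y ^ (-(5 / 13) : ℝ))) :=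
          mul_le_mul_of_nonneg_right hcard (by positivity)
      _ = 2 * C * (2 * (J * (J ^ (1 / 2 : ℝ) * y ^ (-(1 / 2) : ℝ))) +
            J * (J ^ (7 / 26 : ℝ) * y ^ (-(5 / 13) : ℝ))) := by ring
      _ = 2 * C * (2 * B + B * x ^ (3 / 26 : ℝ)) := by rw [e32, e33]
      _ ≤ 2 * C * (2 * B + B * (16 * L)) := by gcongr
      _ ≤ (14 + 2 * C * (2 + 32)) * ((1 + Real.log y) * B) := by
          have h2 : B ≤ (1 + Real.log y) * B := by nlinarith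
          have h3 : 16 * L = 32 * (1 + Real.log y) := by rw [hL]; ring
          rw [h3]
          have h4 : 2 * B + B * (32 * (1 + Real.log y)) ≤
              (2 + 32) * ((1 + Real.log y) * B) := by nlinarith
          have h5 := mul_le_mul_of_nonneg_left h4 (by positivity : 0 ≤ 2 * C)
          have h6 : 0 ≤ 14 * ((1 + Real.log y) * B) := by positivity
          linarith

open Classical in
/-- the main term -/
noncomputable def mainC (kap : ℕ → ℤ → ℂ) (x : ℝ) (n : ℕ) : ℂ :=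
  ∑ j ∈ (range (n + 1)).filter (fun j : ℕ => Odd j ∧ (j : ℝ) ^ 2 * x ≤ n), ∑ m ∈ Ms j,
    kap j m * cexp (π * I * n * m / j) * ((j : ℝ) ^ (-(1 / 2) : ℝ) : ℝ) *
      mains ((√n / j - √x) ^ 2) ((c0 j m : ℝ) / j) (⌈2 * √n⌉₊ + 1)

private theorem Asym_re (x : ℝ) (Z : ℂ) :
    (mu x * (cexp (π * I * x) * Z)).re = -(2 * Real.sin (π * x) * Z.im) := by
  have h1 : mu x * cexp (π * I * x) = 2 * I * ((Real.sin (π * x) : ℝ) : ℂ) := by
    unfold mu
    rw [sub_mul, one_mul, ← Complex.exp_add, Complex.ofReal_sin, Complex.sin]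
    have e1 : (-(2 * π * I * x) + π * I * x : ℂ) = -((π * x : ℝ) : ℂ) * I := by
      push_cast
      ring
    have e2 : (π * I * x : ℂ) = ((π * x : ℝ) : ℂ) * I := by
      push_cast
      ring
    rw [e1, e2]
    have e3 : (I : ℂ) * I = -1 := Complex.I_mul_I
    linear_combination (cexp (((π * x : ℝ) : ℂ) * I) - cexp (-((π * x : ℝ) : ℂ) * I)) * e3
  rw [← mul_assoc, h1]
  have e4 : 2 * I * ((Real.sin (π * x) : ℝ) : ℂ) * Z =
      ((2 * Real.sin (π * x) : ℝ) : ℂ) * (I * Z) := by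
    push_cast
    ring
  rw [e4, Complex.re_ofReal_mul, Complex.mul_re, Complex.I_re, Complex.I_im]
  ring

theorem asym : ∃ kap : ℕ → ℤ → ℂ, (∀ j : ℕ, Odd j → ∀ m ∈ Ms j, ‖kap j m‖ = 1) ∧ kap 1 1 = ze ∧
    ∃ C : ℝ, 0 < C ∧ ∀ (x : ℝ) (F : ℂ → ℂ) (n : ℕ), 1 ≤ n → 1 ≤ x → x ≤ n - √n → Gen x F →
    ‖cf F (1 / n) n -
        ((2 * Real.sin (π * x) / √n * (cexp (π * I / 4) * mainC kap x n).im : ℝ) : ℂ)‖ ≤
      C * ((1 + Real.log n) ^ 3 * ((n : ℝ) ^ (1 / 4 : ℝ) * x ^ (-(3 / 4) : ℝ))) := by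
  obtain ⟨kap, hk1, hk2, hpint⟩ := pint_eq
  obtain ⟨C0, hC0, hdec⟩ := Asym_dec
  obtain ⟨C1, hC1, hE⟩ := Asym_E
  obtain ⟨C2, hC2, hD⟩ := Asym_D
  refine ⟨kap, hk1, hk2, C0 + 2 * (C1 + C2), by positivity, fun x F n hn hx hxn hF => ?_⟩
  have hn0 : (0 : ℝ) < n := by exact_mod_cast hn
  have hn1 : (1 : ℝ) ≤ n := by exact_mod_cast hn
  have hn3 := Asym_three hn hx hxn
  have hx0 : 0 < x := by linarith
  have hxn' : x ≤ n := by
    have := Real.sqrt_nonneg (n : ℝ)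
    linarith
  have hlog : 0 ≤ Real.log n := Real.log_nonneg hn1
  have hdec' := hdec x F n hn hx hxn hF
  have hE' := hE n x hn hx hxn'
  have hD' := hD n x hn hx hxn'
  set Q : ℝ := (n : ℝ) ^ (1 / 4 : ℝ) * x ^ (-(3 / 4) : ℝ) with hQ
  have hQ0 : 0 ≤ Q := by positivity
  set L : ℝ := 2 + 2 * Real.log n with hL
  -- the two sums
  set Z : ℂ := ∑ j ∈ (range n).filter Odd, ∑ m ∈ Ms j,
    kap j m * cexp (π * I * n * m / j) * ((j : ℝ) ^ (-(3 / 2) : ℝ) : ℝ) *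
      ∫ u, ch x (n / (j : ℝ) ^ 2) ((c0 j m : ℝ) / j) u with hZ
  set Z0 : ℂ := (((n : ℝ) ^ (-(1 / 2) : ℝ) : ℝ) : ℂ) * (cexp (π * I / 4) * mainC kap x n) with hZ0
  have hA3 : ∫ u in (-1 : ℝ)..1, pint x n u = cexp (π * I * x) * Z := by
    rw [hpint x n hn, hZ, Finset.mul_sum]
    refine Finset.sum_congr rfl fun j _ => ?_
    rw [Finset.mul_sum]
    refine Finset.sum_congr rfl fun m _ => ?_
    ring
  -- `Z0` as a sum over the same set
  have hset : (range (n + 1)).filter (fun j : ℕ => Odd j ∧ (j : ℝ) ^ 2 * x ≤ n) =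
      ((range n).filter Odd).filter (fun j : ℕ => (j : ℝ) ^ 2 * x ≤ n) := by
    ext j
    simp only [Finset.mem_filter, Finset.mem_range]
    constructor
    · rintro ⟨h1, h2, h3⟩
      refine ⟨⟨?_, h2⟩, h3⟩
      by_contra h4
      have h5 : j = n := by omega
      rw [h5] at h3
      have h6 : (n : ℝ) * x ≤ 1 := by
        have h7 : (n : ℝ) * (n * x) ≤ n * 1 := by nlinarith
        exact le_of_mul_le_mul_left h7 hn0
      have h7 : (3 : ℝ) ≤ n := by exact_mod_cast hn3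
      nlinarith
    · rintro ⟨⟨h1, h2⟩, h3⟩
      exact ⟨by omega, h2, h3⟩
  set T : ℕ → ℤ → ℂ := fun j m => mains ((√n / j - √x) ^ 2) ((c0 j m : ℝ) / j) (⌈2 * √n⌉₊ + 1)
    with hT
  have hmainC : mainC kap x n = ∑ j ∈ (range n).filter Odd, ∑ m ∈ Ms j,
      (if (j : ℝ) ^ 2 * x ≤ n then
        kap j m * cexp (π * I * n * m / j) * ((j : ℝ) ^ (-(1 / 2) : ℝ) : ℝ) * T j m else 0) := by
    unfold mainC
    have h1 : ∀ j : ℕ, ∑ m ∈ Ms j, (if (j : ℝ) ^ 2 * x ≤ n then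
        kap j m * cexp (π * I * n * m / j) * ((j : ℝ) ^ (-(1 / 2) : ℝ) : ℝ) * T j m else 0) =
        if (j : ℝ) ^ 2 * x ≤ n then ∑ m ∈ Ms j,
        kap j m * cexp (π * I * n * m / j) * ((j : ℝ) ^ (-(1 / 2) : ℝ) : ℝ) * T j m else 0 := by
      intro j
      split_ifs
      · rfl
      · exact Finset.sum_const_zero
    rw [Finset.sum_congr rfl fun j _ => h1 j, ← Finset.sum_filter, ← hset]
  -- comparison
  have hZZ : ‖Z - Z0‖ ≤ C1 * ((1 + Real.log n) ^ 2 * Q) + C2 * ((1 + Real.log n) * Q) := by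
    have e1 : Z - Z0 = ∑ j ∈ (range n).filter Odd, ∑ m ∈ Ms j,
        (kap j m * cexp (π * I * n * m / j)) *
        ((((j : ℝ) ^ (-(3 / 2) : ℝ) : ℝ) : ℂ) *
          ((∫ u, ch x (n / (j : ℝ) ^ 2) ((c0 j m : ℝ) / j) u) -
            AM x (n / (j : ℝ) ^ 2) ((c0 j m : ℝ) / j) L) +
          ((((j : ℝ) ^ (-(3 / 2) : ℝ) : ℝ) : ℂ) * AM x (n / (j : ℝ) ^ 2) ((c0 j m : ℝ) / j) L -
          (if (j : ℝ) ^ 2 * x ≤ n then (((n : ℝ) ^ (-(1 / 2) : ℝ) : ℝ) : ℂ) * (cexp (π * I / 4) *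
            ((((j : ℝ) ^ (-(1 / 2) : ℝ) : ℝ) : ℂ) * T j m)) else 0))) := by
      rw [hZ, hZ0, hmainC, Finset.mul_sum, Finset.mul_sum, ← Finset.sum_sub_distrib]
      refine Finset.sum_congr rfl fun j _ => ?_
      rw [Finset.mul_sum, Finset.mul_sum, ← Finset.sum_sub_distrib]
      refine Finset.sum_congr rfl fun m _ => ?_
      split_ifs
      · ring
      · ring
    rw [e1]
    have hterm : ∀ j ∈ (range n).filter Odd, ∀ m ∈ Ms j,
        ‖(kap j m * cexp (π * I * n * m / j)) *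
        ((((j : ℝ) ^ (-(3 / 2) : ℝ) : ℝ) : ℂ) *
          ((∫ u, ch x (n / (j : ℝ) ^ 2) ((c0 j m : ℝ) / j) u) -
            AM x (n / (j : ℝ) ^ 2) ((c0 j m : ℝ) / j) L) +
          ((((j : ℝ) ^ (-(3 / 2) : ℝ) : ℝ) : ℂ) * AM x (n / (j : ℝ) ^ 2) ((c0 j m : ℝ) / j) L -
          (if (j : ℝ) ^ 2 * x ≤ n then (((n : ℝ) ^ (-(1 / 2) : ℝ) : ℝ) : ℂ) * (cexp (π * I / 4) *
            ((((j : ℝ) ^ (-(1 / 2) : ℝ) : ℝ) : ℂ) * T j m)) else 0)))‖ ≤
        (j : ℝ) ^ (-(3 / 2) : ℝ) * ‖(∫ u, ch x (n / (j : ℝ) ^ 2) ((c0 j m : ℝ) / j) u) -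
            AM x (n / (j : ℝ) ^ 2) ((c0 j m : ℝ) / j) L‖ +
        (if (j : ℝ) ^ 2 * x ≤ n then ((j : ℝ) ^ (-(1 / 2) : ℝ) * (n : ℝ) ^ (-(1 / 2) : ℝ)) *
          ‖mains ((√(n / (j : ℝ) ^ 2) - √x) ^ 2) ((c0 j m : ℝ) / j)
          (cnt ((c0 j m : ℝ) / j) (√(x * (n / (j : ℝ) ^ 2) / L) / 2)) -
        mains ((√(n / (j : ℝ) ^ 2) - √x) ^ 2) ((c0 j m : ℝ) / j) (⌈2 * √(n : ℝ)⌉₊ + 1)‖
          else 0) := by
      intro j hj m hm
      rw [Finset.mem_filter, Finset.mem_range] at hj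
      have hj1 : 1 ≤ j := hj.2.pos
      have hj1' : (1 : ℝ) ≤ j := by exact_mod_cast hj1
      have hj0 : (0 : ℝ) < j := by linarith
      have hu : ‖kap j m * cexp (π * I * n * m / j)‖ = 1 := by
        rw [norm_mul, hk1 j hj.2 m hm, one_mul]
        have e : (π * I * n * m / j : ℂ) = ((π * n * m / j : ℝ) : ℂ) * I := by
          push_cast
          ring
        rw [e, Complex.norm_exp_ofReal_mul_I]
      rw [norm_mul, hu, one_mul]
      refine (norm_add_le _ _).trans (add_le_add ?_ ?_)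
      · rw [norm_mul, Complex.norm_real, Real.norm_of_nonneg (by positivity)]
      · by_cases hc : (j : ℝ) ^ 2 * x ≤ n
        · have hxN : x ≤ n / (j : ℝ) ^ 2 := by
            rw [le_div_iff₀ (by positivity)]
            linarith
          have hsN : √(n / (j : ℝ) ^ 2) = √n / j := by
            rw [Real.sqrt_div hn0.le, Real.sqrt_sq hj0.le]
          have hsn : 0 < √(n : ℝ) := Real.sqrt_pos.2 hn0
          rw [if_pos hc, if_pos hc]
          unfold AM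
          rw [if_pos hxN, hT, hsN]
          simp only
          have e2 : (((j : ℝ) ^ (-(3 / 2) : ℝ) : ℝ) : ℂ) / ((√n / j : ℝ) : ℂ) =
              (((j : ℝ) ^ (-(1 / 2) : ℝ) * (n : ℝ) ^ (-(1 / 2) : ℝ) : ℝ) : ℂ) := by
            rw [← Complex.ofReal_div]
            congr 1
            have e3 : (j : ℝ) ^ (-(1 / 2) : ℝ) = (j : ℝ) ^ (-(3 / 2) : ℝ) * j := by
              nth_rewrite 3 [← Real.rpow_one (j : ℝ)]
              rw [← Real.rpow_add hj0]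
              norm_num
            have e4 : (n : ℝ) ^ (-(1 / 2) : ℝ) = (√(n : ℝ))⁻¹ := by
              rw [Real.sqrt_eq_rpow, ← Real.rpow_neg hn0.le]
            rw [e3, e4]
            field_simp
          set M1 := mains ((√n / j - √x) ^ 2) ((c0 j m : ℝ) / j)
            (cnt ((c0 j m : ℝ) / j) (√(x * (n / (j : ℝ) ^ 2) / L) / 2))
          set M2 := mains ((√n / j - √x) ^ 2) ((c0 j m : ℝ) / j) (⌈2 * √(n : ℝ)⌉₊ + 1)
          have e5 : (((j : ℝ) ^ (-(3 / 2) : ℝ) : ℝ) : ℂ) *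
              (cexp (π * I / 4) * M1 / ((√n / j : ℝ) : ℂ)) -
              (((n : ℝ) ^ (-(1 / 2) : ℝ) : ℝ) : ℂ) * (cexp (π * I / 4) *
                ((((j : ℝ) ^ (-(1 / 2) : ℝ) : ℝ) : ℂ) * M2)) =
              (((j : ℝ) ^ (-(1 / 2) : ℝ) * (n : ℝ) ^ (-(1 / 2) : ℝ) : ℝ) : ℂ) *
                (cexp (π * I / 4) * (M1 - M2)) := by
            have e6 : (((j : ℝ) ^ (-(3 / 2) : ℝ) : ℝ) : ℂ) *
              (cexp (π * I / 4) * M1 / ((√n / j : ℝ) : ℂ)) =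
              ((((j : ℝ) ^ (-(3 / 2) : ℝ) : ℝ) : ℂ) / ((√n / j : ℝ) : ℂ)) *
              (cexp (π * I / 4) * M1) := by ring
            rw [e6, e2]
            push_cast
            ring
          rw [e5, norm_mul, norm_mul, Complex.norm_real, Real.norm_of_nonneg (by positivity)]
          have e7 : ‖cexp (π * I / 4)‖ = 1 := by
            have e : (π * I / 4 : ℂ) = ((π / 4 : ℝ) : ℂ) * I := by
              push_cast
              ring
            rw [e, Complex.norm_exp_ofReal_mul_I]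
          rw [e7, one_mul]
        · have hxN : ¬ x ≤ n / (j : ℝ) ^ 2 := by
            rw [le_div_iff₀ (by positivity)]
            intro h
            exact hc (by linarith)
          rw [if_neg hc, if_neg hc]
          unfold AM
          rw [if_neg hxN]
          simp
    refine (norm_sum_le _ _).trans ?_
    refine (Finset.sum_le_sum fun j hj => (norm_sum_le _ _).trans
      (Finset.sum_le_sum fun m hm => hterm j hj m hm)).trans ?_
    simp only [Finset.sum_add_distrib]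
    refine add_le_add hE' ?_
    have h1 : ∀ j : ℕ, ∑ m ∈ Ms j, (if (j : ℝ) ^ 2 * x ≤ n then
          ((j : ℝ) ^ (-(1 / 2) : ℝ) * (n : ℝ) ^ (-(1 / 2) : ℝ)) *
          ‖mains ((√(n / (j : ℝ) ^ 2) - √x) ^ 2) ((c0 j m : ℝ) / j)
          (cnt ((c0 j m : ℝ) / j) (√(x * (n / (j : ℝ) ^ 2) / L) / 2)) -
        mains ((√(n / (j : ℝ) ^ 2) - √x) ^ 2) ((c0 j m : ℝ) / j) (⌈2 * √(n : ℝ)⌉₊ + 1)‖
          else 0) =
        if (j : ℝ) ^ 2 * x ≤ n then ∑ m ∈ Ms j,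
          ((j : ℝ) ^ (-(1 / 2) : ℝ) * (n : ℝ) ^ (-(1 / 2) : ℝ)) *
          ‖mains ((√(n / (j : ℝ) ^ 2) - √x) ^ 2) ((c0 j m : ℝ) / j)
          (cnt ((c0 j m : ℝ) / j) (√(x * (n / (j : ℝ) ^ 2) / L) / 2)) -
        mains ((√(n / (j : ℝ) ^ 2) - √x) ^ 2) ((c0 j m : ℝ) / j) (⌈2 * √(n : ℝ)⌉₊ + 1)‖
          else 0 := by
      intro j
      split_ifs
      · rfl
      · exact Finset.sum_const_zero
    rw [Finset.sum_congr rfl fun j _ => h1 j, ← Finset.sum_filter]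
    exact hD'
  have hre : (mu x * ∫ u in (-1 : ℝ)..1, pint x n u).re = -(2 * Real.sin (π * x) * Z.im) := by
    rw [hA3, Asym_re]
  have hmain : 2 * Real.sin (π * x) / √n * (cexp (π * I / 4) * mainC kap x n).im =
      2 * Real.sin (π * x) * Z0.im := by
    rw [hZ0, Complex.im_ofReal_mul]
    have e4 : (n : ℝ) ^ (-(1 / 2) : ℝ) = (√(n : ℝ))⁻¹ := by
      rw [Real.sqrt_eq_rpow, ← Real.rpow_neg hn0.le]
    rw [e4]
    ring
  rw [hre] at hdec'
  rw [hmain]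
  have e8 : cf F (1 / n) n - ((2 * Real.sin (π * x) * Z0.im : ℝ) : ℂ) =
      (cf F (1 / n) n + ((-(2 * Real.sin (π * x) * Z.im) : ℝ) : ℂ)) +
        ((2 * Real.sin (π * x) * (Z - Z0).im : ℝ) : ℂ) := by
    rw [Complex.sub_im]
    push_cast
    ring
  rw [e8]
  refine (norm_add_le _ _).trans ?_
  have e9 : ‖((2 * Real.sin (π * x) * (Z - Z0).im : ℝ) : ℂ)‖ ≤ 2 * ‖Z - Z0‖ := by
    rw [Complex.norm_real, norm_mul, norm_mul]
    have h1 : ‖(2 : ℝ)‖ = 2 := by norm_num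
    have h2 : ‖Real.sin (π * x)‖ ≤ 1 := Real.abs_sin_le_one _
    have h3 : ‖(Z - Z0).im‖ ≤ ‖Z - Z0‖ := Complex.abs_im_le_norm _
    rw [h1]
    calc 2 * ‖Real.sin (π * x)‖ * ‖(Z - Z0).im‖ ≤ 2 * 1 * ‖Z - Z0‖ := by gcongr
      _ = 2 * ‖Z - Z0‖ := by ring
  have hl1 : 1 ≤ 1 + Real.log n := by linarith
  have g1 : Q ≤ (1 + Real.log n) ^ 3 * Q := by
    have : 1 ≤ (1 + Real.log n) ^ 3 := one_le_pow₀ hl1
    nlinarith
  have g2 : (1 + Real.log n) ^ 2 * Q ≤ (1 + Real.log n) ^ 3 * Q :=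
    mul_le_mul_of_nonneg_right (pow_le_pow_right₀ hl1 (by norm_num)) hQ0
  have g3 : (1 + Real.log n) * Q ≤ (1 + Real.log n) ^ 3 * Q := by
    have h1 : (1 + Real.log n) ^ 1 ≤ (1 + Real.log n) ^ 3 := pow_le_pow_right₀ hl1 (by norm_num)
    rw [pow_one] at h1
    exact mul_le_mul_of_nonneg_right h1 hQ0
  have k1 := mul_le_mul_of_nonneg_left g1 hC0.le
  have k2 := mul_le_mul_of_nonneg_left g2 hC1.le
  have k3 := mul_le_mul_of_nonneg_left g3 hC2.le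
  linarith

end Pool.Agent.Helper31.FI
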