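import Pool.Agent.Helper31.FI.Defs

/-!
# FI-FR: the Fresnel function

`Fr s = ∫_0^s exp (π i u²) du` (entire, odd); `hasDerivAt_Fr`: differentiate under the integral sign or note that
`Fr s = ∑ s^(2k+1) (π i)^k / (k! (2k+1))`, or: `d/dr (r * s-derivative)`: the `s`-derivative of the
integrand is `d/dr (r exp (π i s² r²))`.
`Wc` is entire; integrating `d/dr exp (-(π r²) + 2 π i w s r)`, `w = exp (π i/4)`, over `(0, ∞)`:
`∫ (2 π r - 2 π i w s) exp (..) dr = 1`; the derivative of `Wc` is `w * ∫ 2 π i w r exp (..) dr = - ∫ 2 π r exp(..) dr`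
(as `i w² = -1`) `= -1 - 2 π i s Wc s`.
`Fr_eq`: both sides have derivative `exp (π i s²)` and agree at `0` (`Wc 0 = w / 2`).
`norm_Wc_le`: `Re (2 π i w s r) = - √2 π (re s + im s) r ≤ 0`, `∫ exp (-π r²) = 1/2`.
`norm_mul_deriv_Wc`: `‖s * 2 π ∫ r exp (..)‖ ≤ 2 π s ∫ r exp (-√2 π s r) exp (-π r²) dr ≤ min (s, 1/(π s)) ≤ 1`.
-/

set_option autoImplicit false

namespace Pool.Agent.Helper31.FI

open Complex Real Finset MeasureTheory

/-- the Gaussian integral over the half line with a linear term -/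
private noncomputable def Fresnel_J (c : ℂ) : ℂ :=
  ∫ r in Set.Ioi (0 : ℝ), cexp (-(π * r ^ 2) + c * r)

/-- the first moment -/
private noncomputable def Fresnel_J1 (c : ℂ) : ℂ :=
  ∫ r in Set.Ioi (0 : ℝ), (r : ℂ) * cexp (-(π * r ^ 2) + c * r)

private theorem Fresnel_norm (c : ℂ) (r : ℝ) :
    ‖cexp (-(π * r ^ 2) + c * r)‖ = Real.exp (-(π * r ^ 2) + c.re * r) := by
  rw [Complex.norm_exp]
  congr 1
  have h1 : (-((π : ℂ) * (r : ℂ) ^ 2) + c * (r : ℂ)) =
      (((-(π * r ^ 2)) : ℝ) : ℂ) + c * (r : ℂ) := by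
    push_cast
    ring
  rw [h1, Complex.add_re, Complex.ofReal_re, Complex.re_mul_ofReal]

private theorem Fresnel_cont (c : ℂ) :
    Continuous fun r : ℝ => cexp (-(π * r ^ 2) + c * r) := by
  fun_prop

private theorem Fresnel_int (c : ℂ) :
    Integrable (fun r : ℝ => cexp (-(π * r ^ 2) + c * r)) := by
  have h := integrable_cexp_quadratic (b := (π : ℂ)) (by simpa using Real.pi_pos) c 0
  refine h.congr (Filter.Eventually.of_forall fun r => ?_)
  simp only
  congr 1
  ring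

private theorem Fresnel_intR (b : ℝ) :
    Integrable (fun r : ℝ => Real.exp (-(π * r ^ 2) + b * r)) := by
  have h := (Fresnel_int (b : ℂ)).norm
  refine h.congr (Filter.Eventually.of_forall fun r => ?_)
  simp only
  rw [Fresnel_norm, Complex.ofReal_re]

private theorem Fresnel_bound (c : ℂ) {B : ℝ} (hc : c.re ≤ B) {r : ℝ} (hr : 0 < r) :
    ‖(r : ℂ) * cexp (-(π * r ^ 2) + c * r)‖ ≤ Real.exp (-(π * r ^ 2) + (B + 1) * r) := by
  rw [norm_mul, Fresnel_norm, Complex.norm_real, Real.norm_eq_abs, abs_of_pos hr]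
  have h1 : r ≤ Real.exp r := by
    have := Real.add_one_le_exp r
    linarith
  have h2 : Real.exp (-(π * r ^ 2) + c.re * r) ≤ Real.exp (-(π * r ^ 2) + B * r) := by
    apply Real.exp_le_exp.2
    have := mul_le_mul_of_nonneg_right hc hr.le
    linarith
  calc r * Real.exp (-(π * r ^ 2) + c.re * r)
      ≤ Real.exp r * Real.exp (-(π * r ^ 2) + B * r) :=
        mul_le_mul h1 h2 (Real.exp_nonneg _) (Real.exp_nonneg _)
    _ = Real.exp (-(π * r ^ 2) + (B + 1) * r) := by
        rw [← Real.exp_add]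
        congr 1
        ring

private theorem Fresnel_int1 (c : ℂ) :
    IntegrableOn (fun r : ℝ => (r : ℂ) * cexp (-(π * r ^ 2) + c * r)) (Set.Ioi 0) := by
  refine Integrable.mono' (Fresnel_intR (c.re + 1)).integrableOn ?_ ?_
  · exact (Continuous.aestronglyMeasurable (by fun_prop)).restrict
  · refine (ae_restrict_mem measurableSet_Ioi).mono fun r hr => ?_
    exact Fresnel_bound c le_rfl hr

private theorem Fresnel_deriv (c : ℂ) : HasDerivAt Fresnel_J (Fresnel_J1 c) c := by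
  have h := hasDerivAt_integral_of_dominated_loc_of_deriv_le
    (μ := volume.restrict (Set.Ioi (0 : ℝ)))
    (F := fun (c : ℂ) (r : ℝ) => cexp (-(π * r ^ 2) + c * r))
    (F' := fun (c : ℂ) (r : ℝ) => (r : ℂ) * cexp (-(π * r ^ 2) + c * r))
    (x₀ := c) (s := Metric.ball c 1)
    (bound := fun r => Real.exp (-(π * r ^ 2) + (‖c‖ + 1 + 1) * r))
    (Metric.ball_mem_nhds c one_pos)
    (Filter.Eventually.of_forall fun x => (Fresnel_cont x).aestronglyMeasurable.restrict)
    (Fresnel_int c).integrableOn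
    (Continuous.aestronglyMeasurable (by fun_prop)).restrict
    ((ae_restrict_mem measurableSet_Ioi).mono fun r hr x hx => by
      refine Fresnel_bound x ?_ hr
      have h1 : ‖x - c‖ < 1 := by simpa [dist_eq_norm] using hx
      have h2 : ‖x‖ ≤ ‖x - c‖ + ‖c‖ := by
        have := norm_add_le (x - c) c
        rwa [sub_add_cancel] at this
      have h3 := Complex.re_le_norm x
      linarith)
    (Fresnel_intR (‖c‖ + 1 + 1)).integrableOn
    ((ae_restrict_mem measurableSet_Ioi).mono fun r hr x hx => by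
      have h1 : HasDerivAt (fun y : ℂ => -((π : ℂ) * (r : ℂ) ^ 2) + y * (r : ℂ)) (r : ℂ) x := by
        simpa using ((hasDerivAt_id x).mul_const (r : ℂ)).const_add (-((π : ℂ) * (r : ℂ) ^ 2))
      exact h1.cexp.congr_deriv (mul_comm _ _))
  exact h.2

private theorem Fresnel_id (c : ℂ) : 2 * π * Fresnel_J1 c - c * Fresnel_J c = 1 := by
  have hd : ∀ r : ℝ, HasDerivAt (fun r : ℝ => -cexp (-(π * r ^ 2) + c * r))
      (2 * π * ((r : ℂ) * cexp (-(π * r ^ 2) + c * r)) - c * cexp (-(π * r ^ 2) + c * r)) r := by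
    intro r
    have h1 : HasDerivAt (fun z : ℂ => -((π : ℂ) * z ^ 2) + c * z)
        (-((π : ℂ) * (2 * (r : ℂ))) + c) (r : ℂ) := by
      have h2 := (((hasDerivAt_id (r : ℂ)).pow 2).const_mul (π : ℂ)).neg.add
        ((hasDerivAt_id (r : ℂ)).const_mul c)
      refine (h2.congr_deriv ?_)
      simp
    have h3 := (h1.cexp.neg).comp_ofReal
    refine h3.congr_deriv ?_
    ring
  have hi1 : IntegrableOn (fun r : ℝ => 2 * π * ((r : ℂ) * cexp (-(π * r ^ 2) + c * r)))
      (Set.Ioi 0) := (Fresnel_int1 c).const_mul (2 * π)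
  have hi2 : IntegrableOn (fun r : ℝ => c * cexp (-(π * r ^ 2) + c * r)) (Set.Ioi 0) :=
    (Fresnel_int c).integrableOn.const_mul c
  have hi := hi1.sub hi2
  have hfi : IntegrableOn (fun r : ℝ => -cexp (-(π * r ^ 2) + c * r)) (Set.Ioi 0) :=
    (Fresnel_int c).neg.integrableOn
  have ht := tendsto_zero_of_hasDerivAt_of_integrableOn_Ioi (fun r _ => hd r) hi hfi
  have h := integral_Ioi_of_hasDerivAt_of_tendsto' (a := (0 : ℝ)) (fun r _ => hd r) hi ht
  rw [integral_sub hi1 hi2, integral_const_mul, integral_const_mul] at h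
  unfold Fresnel_J1 Fresnel_J
  rw [h]
  simp

private theorem Fresnel_w2 : cexp (π * I / 4) * cexp (π * I / 4) = I := by
  rw [← Complex.exp_add]
  have h : (π : ℂ) * I / 4 + π * I / 4 = π / 2 * I := by ring
  rw [h, Complex.exp_pi_div_two_mul_I]

private theorem Fresnel_Wc (s : ℂ) :
    Wc s = cexp (π * I / 4) * Fresnel_J (2 * π * I * cexp (π * I / 4) * s) := rfl

/-- the derivative in terms of the first moment -/
private theorem Fresnel_J1_eq (s : ℂ) :
    -1 - 2 * π * I * s * Wc s =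
      -(2 * π * Fresnel_J1 (2 * π * I * cexp (π * I / 4) * s)) := by
  have h := Fresnel_id (2 * π * I * cexp (π * I / 4) * s)
  rw [Fresnel_Wc]
  linear_combination h

private theorem Fresnel_Fr : ∃ F : ℂ → ℂ, (∀ z, HasDerivAt F (cexp (π * I * z ^ 2)) z) ∧
    ∀ s, Fr s = F s - F 0 := by
  have hdiff : Differentiable ℂ (fun z : ℂ => cexp (π * I * z ^ 2)) := by fun_prop
  obtain ⟨F, hF⟩ := hdiff.isExactOn_univ
  refine ⟨F, fun z => hF z (Set.mem_univ z), fun s => ?_⟩
  have hd : ∀ r : ℝ, HasDerivAt (fun r : ℝ => F (s * r)) (s * cexp (π * I * (s * r) ^ 2)) r := by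
    intro r
    have h1 : HasDerivAt (fun z : ℂ => s * z) s (r : ℂ) := by
      simpa using (hasDerivAt_id (r : ℂ)).const_mul s
    have h2 := ((hF (s * r) (Set.mem_univ _)).comp (r : ℂ) h1).comp_ofReal
    refine h2.congr_deriv ?_
    ring
  have h := intervalIntegral.integral_eq_sub_of_hasDerivAt (a := 0) (b := 1)
    (fun r _ => hd r) (Continuous.intervalIntegrable (by fun_prop) _ _)
  unfold Fr
  rw [h]
  simp

theorem Fr_neg (s : ℂ) : Fr (-s) = -Fr s := by
  unfold Fr
  rw [← intervalIntegral.integral_neg]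
  congr 1
  funext r
  have h : (-s * (r : ℂ)) ^ 2 = (s * r) ^ 2 := by ring
  rw [h]
  ring

theorem hasDerivAt_Fr (s : ℂ) : HasDerivAt Fr (cexp (π * I * s ^ 2)) s := by
  obtain ⟨F, hF, hFr⟩ := Fresnel_Fr
  have h : Fr = fun s => F s - F 0 := funext hFr
  rw [h]
  exact (hF s).sub_const _

theorem hasDerivAt_Wc (s : ℂ) : HasDerivAt Wc (-1 - 2 * π * I * s * Wc s) s := by
  have h1 : HasDerivAt (fun s : ℂ => 2 * π * I * cexp (π * I / 4) * s)
      (2 * π * I * cexp (π * I / 4)) s := by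
    simpa using (hasDerivAt_id s).const_mul (2 * π * I * cexp (π * I / 4))
  have h2 := ((Fresnel_deriv (2 * π * I * cexp (π * I / 4) * s)).comp s h1).const_mul
    (cexp (π * I / 4))
  have h3 : (fun s : ℂ => cexp (π * I / 4) * (Fresnel_J ∘ fun s : ℂ =>
      2 * π * I * cexp (π * I / 4) * s) s) = Wc := by
    funext s
    rfl
  rw [h3] at h2
  refine h2.congr_deriv ?_
  rw [Fresnel_J1_eq]
  have hw := Fresnel_w2
  have hI : (I : ℂ) * I = -1 := Complex.I_mul_I
  linear_combination (2 * π * I * Fresnel_J1 (2 * π * I * cexp (π * I / 4) * s)) * hw +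
    (2 * π * Fresnel_J1 (2 * π * I * cexp (π * I / 4) * s)) * hI

private theorem Fresnel_gauss : ∫ r in Set.Ioi (0 : ℝ), Real.exp (-(π * r ^ 2)) = 1 / 2 := by
  have h := integral_gaussian_Ioi π
  rw [div_self Real.pi_ne_zero, Real.sqrt_one] at h
  rw [← h]
  congr 1
  funext r
  congr 1
  ring

private theorem Fresnel_J_zero : Fresnel_J 0 = 1 / 2 := by
  have h : Fresnel_J 0 = ((∫ r in Set.Ioi (0 : ℝ), Real.exp (-(π * r ^ 2)) : ℝ) : ℂ) := by
    unfold Fresnel_J
    rw [← integral_complex_ofReal]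
    congr 1
    funext r
    push_cast
    congr 1
    ring
  rw [h, Fresnel_gauss]
  push_cast
  ring

theorem Fr_eq (s : ℂ) : Fr s = cexp (π * I / 4) / 2 - cexp (π * I * s ^ 2) * Wc s := by
  have hd : ∀ s : ℂ, HasDerivAt (fun s : ℂ => Fr s + cexp (π * I * s ^ 2) * Wc s) 0 s := by
    intro s
    have h1 : HasDerivAt (fun z : ℂ => π * I * z ^ 2) (π * I * (2 * s)) s := by
      simpa using ((hasDerivAt_id s).pow 2).const_mul (π * I)
    have h2 := (hasDerivAt_Fr s).add (h1.cexp.mul (hasDerivAt_Wc s))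
    refine h2.congr_deriv ?_
    ring
  have hc := is_const_of_deriv_eq_zero (fun s => (hd s).differentiableAt)
    (fun s => (hd s).deriv) s 0
  have h0 : Fr 0 + cexp (π * I * (0 : ℂ) ^ 2) * Wc 0 = cexp (π * I / 4) / 2 := by
    have h1 : Fr 0 = 0 := by
      unfold Fr
      simp
    rw [h1, Fresnel_Wc, mul_zero, Fresnel_J_zero]
    simp
    ring
  rw [h0] at hc
  rw [← hc]
  ring

private theorem Fresnel_normw : ‖cexp (π * I / 4)‖ = 1 := by
  have h : (π : ℂ) * I / 4 = ((π / 4 : ℝ) : ℂ) * I := by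
    push_cast
    ring
  rw [h, Complex.norm_exp_ofReal_mul_I]

private theorem Fresnel_re (s : ℂ) :
    (2 * π * I * cexp (π * I / 4) * s).re = -(√2 * π * (s.re + s.im)) := by
  have h : (π : ℂ) * I / 4 = ((π / 4 : ℝ) : ℂ) * I := by
    push_cast
    ring
  have hw : cexp (π * I / 4) = ((√2 / 2 : ℝ) : ℂ) + ((√2 / 2 : ℝ) : ℂ) * I := by
    rw [h, Complex.exp_mul_I, ← Complex.ofReal_cos, ← Complex.ofReal_sin, Real.cos_pi_div_four,
      Real.sin_pi_div_four]
  rw [hw]
  simp [Complex.mul_re, Complex.mul_im]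
  ring

private theorem Fresnel_normJ (c : ℂ) (hc : c.re ≤ 0) : ‖Fresnel_J c‖ ≤ 1 / 2 := by
  unfold Fresnel_J
  refine (norm_integral_le_integral_norm _).trans ?_
  rw [← Fresnel_gauss]
  refine setIntegral_mono_on (Fresnel_int c).norm.integrableOn ?_ measurableSet_Ioi ?_
  · have := (Fresnel_intR 0).integrableOn (s := Set.Ioi (0 : ℝ))
    simpa using this
  · intro r hr
    rw [Fresnel_norm]
    apply Real.exp_le_exp.2
    have : c.re * r ≤ 0 := mul_nonpos_of_nonpos_of_nonneg hc (le_of_lt hr)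
    linarith

theorem norm_Wc_le (s : ℂ) (h : 0 ≤ s.re + s.im) : ‖Wc s‖ ≤ 1 / 2 := by
  rw [Fresnel_Wc, norm_mul, Fresnel_normw, one_mul]
  apply Fresnel_normJ
  rw [Fresnel_re, neg_nonpos]
  positivity

/-- the real first moment -/
private noncomputable def Fresnel_R1 (b : ℝ) : ℝ :=
  ∫ r in Set.Ioi (0 : ℝ), r * Real.exp (-(π * r ^ 2) + b * r)

private theorem Fresnel_intR1 (b : ℝ) :
    IntegrableOn (fun r : ℝ => r * Real.exp (-(π * r ^ 2) + b * r)) (Set.Ioi 0) := by
  have h := (Fresnel_int1 (b : ℂ)).norm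
  refine IntegrableOn.congr_fun h (fun r hr => ?_) measurableSet_Ioi
  rw [norm_mul, Fresnel_norm, Complex.norm_real, Real.norm_eq_abs, abs_of_pos hr,
    Complex.ofReal_re]

private theorem Fresnel_R1_zero : 2 * π * Fresnel_R1 0 = 1 := by
  have h := Fresnel_id 0
  have h1 : Fresnel_J1 0 = ((Fresnel_R1 0 : ℝ) : ℂ) := by
    unfold Fresnel_J1 Fresnel_R1
    rw [← integral_complex_ofReal]
    congr 1
    funext r
    push_cast
    ring
  rw [h1, zero_mul, sub_zero] at h
  exact_mod_cast h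

private theorem Fresnel_R1_mono {b : ℝ} (hb : b ≤ 0) : Fresnel_R1 b ≤ Fresnel_R1 0 := by
  unfold Fresnel_R1
  refine setIntegral_mono_on (Fresnel_intR1 b) (Fresnel_intR1 0) measurableSet_Ioi ?_
  intro r hr
  have hr0 : (0 : ℝ) < r := hr
  apply mul_le_mul_of_nonneg_left _ hr0.le
  apply Real.exp_le_exp.2
  have : b * r ≤ 0 * r := mul_le_mul_of_nonneg_right hb hr0.le
  linarith

private theorem Fresnel_R1_le {b : ℝ} (hb : 0 < b) : Fresnel_R1 (-b) ≤ 1 / b ^ 2 := by
  have h := Real.integral_rpow_mul_exp_neg_mul_Ioi (a := 2) (r := b) two_pos hb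
  have h1 : (∫ t in Set.Ioi (0 : ℝ), t * Real.exp (-(b * t))) = 1 / b ^ 2 := by
    have h2 : ∀ t : ℝ, t ^ ((2 : ℝ) - 1) * Real.exp (-(b * t)) = t * Real.exp (-(b * t)) := by
      intro t
      rw [show (2 : ℝ) - 1 = 1 by norm_num, Real.rpow_one]
    simp only [h2] at h
    rw [h, Real.Gamma_two, mul_one, show (2 : ℝ) = ((2 : ℕ) : ℝ) by norm_num, Real.rpow_natCast]
    rw [div_pow, one_pow]
  have hi : IntegrableOn (fun t : ℝ => t * Real.exp (-(b * t))) (Set.Ioi 0) := by
    apply Integrable.of_integral_ne_zero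
    rw [h1]
    positivity
  rw [← h1]
  unfold Fresnel_R1
  refine setIntegral_mono_on (Fresnel_intR1 (-b)) hi measurableSet_Ioi ?_
  intro r hr
  have hr0 : (0 : ℝ) < r := hr
  apply mul_le_mul_of_nonneg_left _ hr0.le
  apply Real.exp_le_exp.2
  have : 0 ≤ π * r ^ 2 := by positivity
  linarith

private theorem Fresnel_normJ1 (c : ℂ) : ‖Fresnel_J1 c‖ ≤ Fresnel_R1 c.re := by
  unfold Fresnel_J1 Fresnel_R1
  refine (norm_integral_le_integral_norm _).trans (le_of_eq ?_)
  refine setIntegral_congr_fun measurableSet_Ioi fun r hr => ?_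
  rw [norm_mul, Fresnel_norm, Complex.norm_real, Real.norm_eq_abs, abs_of_pos hr]

theorem norm_mul_deriv_Wc (s : ℝ) (hs : 0 ≤ s) : ‖(s : ℂ) * (-1 - 2 * π * I * s * Wc s)‖ ≤ 1 := by
  rw [Fresnel_J1_eq, norm_mul, norm_neg, norm_mul, Complex.norm_real, Real.norm_eq_abs,
    abs_of_nonneg hs]
  have h1 := Fresnel_normJ1 (2 * π * I * cexp (π * I / 4) * (s : ℂ))
  rw [Fresnel_re, Complex.ofReal_re, Complex.ofReal_im, add_zero] at h1
  have h2 : ‖(2 * (π : ℂ))‖ = 2 * π := by
    rw [norm_mul, Complex.norm_real, Real.norm_eq_abs, abs_of_pos Real.pi_pos]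
    simp
  rw [h2]
  have hpi := Real.pi_pos
  rcases le_total s 1 with h3 | h3
  · have h4 : Fresnel_R1 (-(√2 * π * s)) ≤ Fresnel_R1 0 := Fresnel_R1_mono (by
      rw [neg_nonpos]
      positivity)
    have h5 : 2 * π * ‖Fresnel_J1 (2 * π * I * cexp (π * I / 4) * (s : ℂ))‖ ≤ 1 := by
      rw [← Fresnel_R1_zero]
      exact mul_le_mul_of_nonneg_left (h1.trans h4) (by positivity)
    have h6 : 0 ≤ 2 * π * ‖Fresnel_J1 (2 * π * I * cexp (π * I / 4) * (s : ℂ))‖ := by positivity
    nlinarith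
  · have hs0 : 0 < s := lt_of_lt_of_le one_pos h3
    have h4 : Fresnel_R1 (-(√2 * π * s)) ≤ 1 / (√2 * π * s) ^ 2 := Fresnel_R1_le (by positivity)
    have h5 := mul_le_mul_of_nonneg_left (h1.trans h4) (show 0 ≤ s * (2 * π) by positivity)
    rw [← mul_assoc]
    refine h5.trans ?_
    have h6 : (√2 * π * s) ^ 2 = 2 * (π * s) * (π * s) := by
      rw [mul_pow, mul_pow, Real.sq_sqrt (by norm_num : (0 : ℝ) ≤ 2)]
      ring
    rw [h6]
    have h7 : s * (2 * π) * (1 / (2 * (π * s) * (π * s))) = 1 / (π * s) := by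
      field_simp
    rw [h7, div_le_one (by positivity)]
    nlinarith [Real.pi_gt_three]

end Pool.Agent.Helper31.FI
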