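import Pool.Agent.Helper31.FI.Abel
import Pool.Agent.Helper31.FI.Fresnel

/-!
# FI-BD: boundary terms

`abel_cont` on `[ν₀, ν₀ + m]` for `G ν = ν^(-1/2) Wc (s ν^(-1/2))`: with `σ = s ν^(-1/2)`,
`G' = - (1/2) ν^(-3/2) (Wc σ + σ Wc' σ)`, `‖G'‖ ≤ ν^(-3/2)`, `∫_{ν₀}^∞ ν^(-3/2) = 2 ν₀^(-1/2)`, `‖G‖ ≤ ν₀^(-1/2) / 2`.
-/

set_option autoImplicit false

namespace Pool.Agent.Helper31.FI

open Complex Real Finset MeasureTheory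

private theorem Bdry_sqrt {ν : ℝ} (hν : 0 < ν) : (√ν)⁻¹ = ν ^ (-(1 / 2) : ℝ) := by
  rw [Real.sqrt_eq_rpow, ← Real.rpow_neg hν.le]

private noncomputable def Bdry_W (σ : ℂ) : ℂ := -1 - 2 * π * I * σ * Wc σ

private theorem Bdry_cont : Continuous Wc :=
  continuous_iff_continuousAt.2 fun s => (hasDerivAt_Wc s).continuousAt

private theorem Bdry_deriv (s : ℝ) {ν : ℝ} (hν : 0 < ν) :
    HasDerivAt (fun ν : ℝ => ((ν ^ (-(1 / 2) : ℝ) : ℝ) : ℂ) * Wc ((s / √ν : ℝ)))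
      (((-(1 / 2) * ν ^ (-(3 / 2) : ℝ) : ℝ) : ℂ) *
        (Wc ((s / √ν : ℝ)) + ((s / √ν : ℝ) : ℂ) * Bdry_W ((s / √ν : ℝ)))) ν := by
  have h1 : HasDerivAt (fun ν : ℝ => ν ^ (-(1 / 2) : ℝ)) (-(1 / 2) * ν ^ (-(3 / 2) : ℝ)) ν := by
    have h := Real.hasDerivAt_rpow_const (x := ν) (p := (-(1 / 2) : ℝ)) (Or.inl hν.ne')
    have e : (-(1 / 2) - 1 : ℝ) = -(3 / 2) := by norm_num
    rwa [e] at h
  have h2 : HasDerivAt (fun ν : ℝ => s / √ν) (s * (-(1 / 2) * ν ^ (-(3 / 2) : ℝ))) ν := by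
    refine (h1.const_mul s).congr_of_eventuallyEq ?_
    filter_upwards [lt_mem_nhds hν] with y hy
    rw [div_eq_mul_inv, Bdry_sqrt hy]
  have h3 : HasDerivAt (fun ν : ℝ => Wc ((s / √ν : ℝ)))
      (Bdry_W ((s / √ν : ℝ)) * ((s * (-(1 / 2) * ν ^ (-(3 / 2) : ℝ)) : ℝ) : ℂ)) ν := by
    have hW1 : HasDerivAt Wc (Bdry_W ((s / √ν : ℝ))) ((s / √ν : ℝ) : ℂ) := hasDerivAt_Wc _
    exact HasDerivAt.comp (h₂ := Wc) (h := fun y : ℝ => ((s / √y : ℝ) : ℂ)) ν hW1 h2.ofReal_comp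
  have h4 := h1.ofReal_comp.mul h3
  refine h4.congr_deriv ?_
  have h5 : ((s / √ν : ℝ) : ℂ) = (s : ℂ) * ((ν ^ (-(1 / 2) : ℝ) : ℝ) : ℂ) := by
    rw [div_eq_mul_inv, Bdry_sqrt hν, Complex.ofReal_mul]
  rw [h5]
  push_cast
  ring

theorem bdry (s ν₀ : ℝ) (hs : 0 ≤ s) (hν : 0 < ν₀) (m : ℕ) :
    ‖∑ i ∈ range m, ze ^ i * (((ν₀ + i : ℝ) ^ (-(1 / 2) : ℝ) : ℝ) * Wc ((s / √(ν₀ + i) : ℝ)))‖ ≤
      8 * ν₀ ^ (-(1 / 2) : ℝ) := by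
  have hpos : ∀ ν ∈ Set.Icc ν₀ (ν₀ + m), 0 < ν := fun ν h => hν.trans_le h.1
  have hA0 : 0 < ν₀ ^ (-(1 / 2) : ℝ) := Real.rpow_pos_of_pos hν _
  have hW : ∀ ν : ℝ, 0 < ν → ‖Wc ((s / √ν : ℝ))‖ ≤ 1 / 2 := by
    intro ν _
    refine norm_Wc_le _ ?_
    rw [Complex.ofReal_re, Complex.ofReal_im, add_zero]
    positivity
  have key := abel_cont ν₀ ν₀ (ν₀ + m) (1 / 2 * ν₀ ^ (-(1 / 2) : ℝ))
    (3 / 2 * ν₀ ^ (-(1 / 2) : ℝ))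
    (fun ν : ℝ => ((ν ^ (-(1 / 2) : ℝ) : ℝ) : ℂ) * Wc ((s / √ν : ℝ)))
    (fun ν : ℝ => ((-(1 / 2) * ν ^ (-(3 / 2) : ℝ) : ℝ) : ℂ) *
        (Wc ((s / √ν : ℝ)) + ((s / √ν : ℝ) : ℂ) * Bdry_W ((s / √ν : ℝ))))
    (fun ν : ℝ => 3 / 4 * ν ^ (-(3 / 2) : ℝ)) (by
      have : (0 : ℝ) ≤ m := Nat.cast_nonneg m
      linarith)
    (fun ν h => Bdry_deriv s (hpos ν h)) ?_ ?_ ?_ ?_ ?_ 0 m ?_
  · rw [← Finset.range_eq_Ico] at key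
    refine key.trans ?_
    linarith
  · have hσ : ContinuousOn (fun ν : ℝ => ((s / √ν : ℝ) : ℂ)) (Set.Icc ν₀ (ν₀ + m)) := by
      refine Complex.continuous_ofReal.comp_continuousOn ?_
      refine continuousOn_const.div Real.continuous_sqrt.continuousOn fun ν h => ?_
      exact (Real.sqrt_pos.2 (hpos ν h)).ne'
    have hWσ : ContinuousOn (fun ν : ℝ => Wc ((s / √ν : ℝ))) (Set.Icc ν₀ (ν₀ + m)) :=
      Bdry_cont.comp_continuousOn hσ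
    have hr : ContinuousOn (fun ν : ℝ => ((-(1 / 2) * ν ^ (-(3 / 2) : ℝ) : ℝ) : ℂ))
        (Set.Icc ν₀ (ν₀ + m)) := by
      refine Complex.continuous_ofReal.comp_continuousOn (continuousOn_const.mul ?_)
      exact continuousOn_id.rpow_const fun ν h => Or.inl (hpos ν h).ne'
    refine hr.mul (hWσ.add (hσ.mul ?_))
    unfold Bdry_W
    exact continuousOn_const.sub ((continuousOn_const.mul hσ).mul hWσ)
  · refine continuousOn_const.mul ?_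
    exact continuousOn_id.rpow_const fun ν h => Or.inl (hpos ν h).ne'
  · intro ν h
    have h0 := hpos ν h
    have h1 : 0 < ν ^ (-(3 / 2) : ℝ) := Real.rpow_pos_of_pos h0 _
    have h2 := norm_mul_deriv_Wc (s / √ν) (by positivity)
    have h3 : ‖Wc ((s / √ν : ℝ)) + ((s / √ν : ℝ) : ℂ) * Bdry_W ((s / √ν : ℝ))‖ ≤ 3 / 2 := by
      refine (norm_add_le _ _).trans ?_
      have h4 := hW ν h0
      have h5 : ‖((s / √ν : ℝ) : ℂ) * Bdry_W ((s / √ν : ℝ))‖ ≤ 1 := h2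
      linarith
    change ‖((-(1 / 2) * ν ^ (-(3 / 2) : ℝ) : ℝ) : ℂ) *
        (Wc ((s / √ν : ℝ)) + ((s / √ν : ℝ) : ℂ) * Bdry_W ((s / √ν : ℝ)))‖ ≤
      3 / 4 * ν ^ (-(3 / 2) : ℝ)
    rw [norm_mul, Complex.norm_real, Real.norm_eq_abs, abs_mul, abs_of_pos h1]
    have h6 : |(-(1 / 2) : ℝ)| = 1 / 2 := by norm_num
    rw [h6]
    have h7 := mul_le_mul_of_nonneg_left h3 (by positivity : 0 ≤ 1 / 2 * ν ^ (-(3 / 2) : ℝ))
    linarith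
  · intro ν h
    have h0 := hpos ν h
    have h1 : ν ^ (-(1 / 2) : ℝ) ≤ ν₀ ^ (-(1 / 2) : ℝ) :=
      Real.rpow_le_rpow_of_nonpos hν h.1 (by norm_num)
    have h2 : 0 < ν ^ (-(1 / 2) : ℝ) := Real.rpow_pos_of_pos h0 _
    change ‖((ν ^ (-(1 / 2) : ℝ) : ℝ) : ℂ) * Wc ((s / √ν : ℝ))‖ ≤ _
    rw [norm_mul, Complex.norm_real, Real.norm_eq_abs, abs_of_pos h2]
    have h3 := mul_le_mul_of_nonneg_left (hW ν h0) h2.le
    linarith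
  · have hm : (0 : ℝ) ≤ m := Nat.cast_nonneg m
    have hb : 0 < ν₀ + m := by linarith
    rw [intervalIntegral.integral_const_mul, integral_rpow (Or.inr ⟨by norm_num, ?_⟩)]
    · have e : (-(3 / 2) + 1 : ℝ) = -(1 / 2) := by norm_num
      rw [e]
      have h1 : 0 < (ν₀ + m) ^ (-(1 / 2) : ℝ) := Real.rpow_pos_of_pos hb _
      have h2 : ((ν₀ + m) ^ (-(1 / 2) : ℝ) - ν₀ ^ (-(1 / 2) : ℝ)) / (-(1 / 2)) =
          2 * ν₀ ^ (-(1 / 2) : ℝ) - 2 * (ν₀ + m) ^ (-(1 / 2) : ℝ) := by ring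
      rw [h2]
      linarith
    · rw [Set.uIcc_of_le (by linarith)]
      intro h
      exact absurd h.1 (not_le.2 hν)
  · intro i hi
    have h1 := (Finset.mem_Ico.1 hi).2
    have h2 : (i : ℝ) ≤ m := by exact_mod_cast h1.le
    have h3 : (0 : ℝ) ≤ i := Nat.cast_nonneg i
    exact ⟨by linarith, by linarith⟩

end Pool.Agent.Helper31.FI
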