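import Pool.Agent.Helper31.FI.Defs

/-!
# FI-DI: the phase and its differences

`ph t ν i = 3 i / 8 - t / (2 (ν + i))`.  With `X = ν + i`:
`dl = 3/8 + t / (2 X (X+1))`, `dl dl = - t / (X (X+1) (X+2))`, `dl dl dl = 3 t / (X .. (X+3))`,
`dl dl dl dl = - 12 t / (X .. (X+4))`.
`ze ^ i * cexp (-(π I t / (ν + i))) = ee (ph t ν i)`.
-/

set_option autoImplicit false

namespace Pool.Agent.Helper31.FI

open Complex Real Finset

/-- the phase -/
noncomputable def ph (t ν : ℝ) (i : ℕ) : ℝ := 3 * i / 8 - t / (2 * (ν + i))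

theorem dl_ph {t ν : ℝ} (hν : 0 < ν) (i : ℕ) :
    dl (ph t ν) i = 3 / 8 + t / (2 * (ν + i) * (ν + i + 1)) := by
  have h0 : (0 : ℝ) < ν + i := by positivity
  have h1 : (0 : ℝ) < ν + i + 1 := by positivity
  have e1 : ν + ((i + 1 : ℕ) : ℝ) = ν + i + 1 := by push_cast; ring
  unfold dl ph
  rw [e1]
  push_cast
  field_simp
  ring

theorem dl2_ph {t ν : ℝ} (hν : 0 < ν) (i : ℕ) :
    dl (dl (ph t ν)) i = -(t / ((ν + i) * (ν + i + 1) * (ν + i + 2))) := by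
  have h0 : (0 : ℝ) < ν + i := by positivity
  have h1 : (0 : ℝ) < ν + i + 1 := by positivity
  have h2 : (0 : ℝ) < ν + i + 2 := by positivity
  have e1 : ν + ((i + 1 : ℕ) : ℝ) = ν + i + 1 := by push_cast; ring
  have e2 : ν + (i : ℝ) + 1 + 1 = ν + i + 2 := by ring
  have h : dl (dl (ph t ν)) i = dl (ph t ν) (i + 1) - dl (ph t ν) i := rfl
  rw [h, dl_ph hν, dl_ph hν, e1, e2]
  field_simp
  ring

theorem dl3_ph {t ν : ℝ} (hν : 0 < ν) (i : ℕ) :
    dl (dl (dl (ph t ν))) i = 3 * t / ((ν + i) * (ν + i + 1) * (ν + i + 2) * (ν + i + 3)) := by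
  have h0 : (0 : ℝ) < ν + i := by positivity
  have h1 : (0 : ℝ) < ν + i + 1 := by positivity
  have h2 : (0 : ℝ) < ν + i + 2 := by positivity
  have h3 : (0 : ℝ) < ν + i + 3 := by positivity
  have e1 : ν + ((i + 1 : ℕ) : ℝ) = ν + i + 1 := by push_cast; ring
  have e2 : ν + (i : ℝ) + 1 + 1 = ν + i + 2 := by ring
  have e3 : ν + (i : ℝ) + 1 + 2 = ν + i + 3 := by ring
  have h : dl (dl (dl (ph t ν))) i = dl (dl (ph t ν)) (i + 1) - dl (dl (ph t ν)) i := rfl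
  rw [h, dl2_ph hν, dl2_ph hν, e1, e2, e3]
  field_simp
  ring

theorem dl4_ph {t ν : ℝ} (hν : 0 < ν) (i : ℕ) :
    dl (dl (dl (dl (ph t ν)))) i =
      -(12 * t / ((ν + i) * (ν + i + 1) * (ν + i + 2) * (ν + i + 3) * (ν + i + 4))) := by
  have h0 : (0 : ℝ) < ν + i := by positivity
  have h1 : (0 : ℝ) < ν + i + 1 := by positivity
  have h2 : (0 : ℝ) < ν + i + 2 := by positivity
  have h3 : (0 : ℝ) < ν + i + 3 := by positivity
  have h4 : (0 : ℝ) < ν + i + 4 := by positivity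
  have e1 : ν + ((i + 1 : ℕ) : ℝ) = ν + i + 1 := by push_cast; ring
  have e2 : ν + (i : ℝ) + 1 + 1 = ν + i + 2 := by ring
  have e3 : ν + (i : ℝ) + 1 + 2 = ν + i + 3 := by ring
  have e4 : ν + (i : ℝ) + 1 + 3 = ν + i + 4 := by ring
  have h : dl (dl (dl (dl (ph t ν)))) i =
    dl (dl (dl (ph t ν))) (i + 1) - dl (dl (dl (ph t ν))) i := rfl
  rw [h, dl3_ph hν, dl3_ph hν, e1, e2, e3, e4]
  field_simp
  ring

theorem ze_mul (t ν : ℝ) (i : ℕ) :
    ze ^ i * cexp (-(π * I * t / (ν + i))) = ee (ph t ν i) := by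
  unfold ze ee ph
  rw [← Complex.exp_nat_mul, ← Complex.exp_add]
  congr 1
  push_cast
  generalize (ν : ℂ) + (i : ℂ) = X
  ring

end Pool.Agent.Helper31.FI
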