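import Pool.Agent.Helper31.FI.VdC4
import Pool.Agent.Helper31.FI.Diffs

/-!
# FI-BL: blocks of the main sum

`blk t ν M m = ∑_{i < m} ee (ph t ν (M + i))`, `m ≤ M`, `M ≥ 1`, `0 < ν ≤ 1` (apply the tests to
`i ↦ ph t ν (M + i)`; note `X = ν + M + i ∈ [M, 2M+1]`, so `X, X+1, .., X+4` are in `[M, 7 M]`, all products of `k+1`
factors are in `[M^(k+1), (7M)^(k+1)]`).
* `block4`: `vdc4'` with `lam = 12 t / (7M)^5`, `h = 7^5`: `≤ C (M (t/M^5)^(1/14) + M^(3/4) (t/M^5)^(-1/14))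
  = C (M^(9/14) t^(1/14) + M^(31/28) t^(-1/14))`; the second term is at most the first as `M^13 ≤ t^4`.
* `block3`: `vdc3` with `lam = 3 t / (7M)^4`: `≤ C (M^(1/3) t^(1/6) + M^(7/6) t^(-1/6))`; second ≤ first as
  `M^5 ≤ t^2`.
* `block2`: `vdc2'` with `lam = t / (7M)^3`: `≤ C (t^(1/2) M^(-1/2) + M^(3/2) t^(-1/2))`.
* `block1`: `M² ≥ 4 t`: `dl = 3/8 + t/(2X(X+1)) ∈ [3/8, 1/2]`, decreasing: `kl'` with `k = 0`, `θ = 3/8`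
  (`1 - θ = 5/8`): `≤ 4`.
-/

set_option autoImplicit false

namespace Pool.Agent.Helper31.FI

open Complex Real Finset

/-- block of the main sum without weights -/
noncomputable def blk (t ν : ℝ) (M m : ℕ) : ℂ := ∑ i ∈ range m, ee (ph t ν (M + i))

private theorem Block_X {ν : ℝ} {M m i : ℕ} (hν : 0 < ν) (hν1 : ν ≤ 1) (hm : m ≤ M)
    (hi : i < m) : (M : ℝ) ≤ ν + ((M + i : ℕ) : ℝ) ∧ ν + ((M + i : ℕ) : ℝ) ≤ 2 * M := by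
  have h1 : (i : ℝ) + 1 ≤ M := by
    have : i + 1 ≤ M := by omega
    exact_mod_cast this
  have h2 : (0 : ℝ) ≤ i := Nat.cast_nonneg i
  push_cast
  constructor <;> linarith

private theorem Block_pow {c t M : ℝ} (hc : 0 < c) (ht : 0 < t) (hM : 0 < M) (k : ℕ) (s : ℝ) :
    (c * t / M ^ k) ^ s = c ^ s * t ^ s * M ^ (-(k * s)) := by
  rw [Real.div_rpow (by positivity) (by positivity), Real.mul_rpow hc.le ht.le,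
    ← Real.rpow_natCast M k, ← Real.rpow_mul hM.le, Real.rpow_neg hM.le, div_eq_mul_inv]

theorem block4 : ∃ C : ℝ, 0 < C ∧ ∀ (t ν : ℝ) (M m : ℕ), 1 ≤ t → 0 < ν → ν ≤ 1 → 1 ≤ M → m ≤ M →
    (M : ℝ) ^ 13 ≤ t ^ 4 → ‖blk t ν M m‖ ≤ C * ((M : ℝ) ^ (9 / 14 : ℝ) * t ^ (1 / 14 : ℝ)) := by
  obtain ⟨C, hC, hv⟩ := vdc4' (7 ^ 5) (by norm_num)
  have hc : (0 : ℝ) < 12 / 7 ^ 5 := by norm_num
  refine ⟨C * ((12 / 7 ^ 5 : ℝ) ^ (1 / 14 : ℝ) + (12 / 7 ^ 5 : ℝ) ^ (-(1 / 14) : ℝ)), by positivity,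
    ?_⟩
  intro t ν M m ht hν hν1 hM hm hMt
  have ht0 : 0 < t := by linarith
  have hM1 : (1 : ℝ) ≤ M := by exact_mod_cast hM
  have hM0 : (0 : ℝ) < M := by linarith
  have hmM : (m : ℝ) ≤ M := by exact_mod_cast hm
  have hlam : 0 < 12 / 7 ^ 5 * t / (M : ℝ) ^ 5 := by positivity
  have key := hv (fun i => ph t ν (M + i)) m (12 / 7 ^ 5 * t / (M : ℝ) ^ 5) hlam ?_ ?_
  · refine (show ‖blk t ν M m‖ ≤ _ from key).trans ?_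
    rw [mul_assoc]
    refine mul_le_mul_of_nonneg_left ?_ hC.le
    rw [Block_pow hc ht0 hM0, Block_pow hc ht0 hM0]
    have h1 : (m : ℝ) * ((12 / 7 ^ 5 : ℝ) ^ (1 / 14 : ℝ) * t ^ (1 / 14 : ℝ) *
        (M : ℝ) ^ (-((5 : ℕ) * (1 / 14 : ℝ)) : ℝ)) ≤
        (12 / 7 ^ 5 : ℝ) ^ (1 / 14 : ℝ) * ((M : ℝ) ^ (9 / 14 : ℝ) * t ^ (1 / 14 : ℝ)) := by
      have h2 : (M : ℝ) ^ (9 / 14 : ℝ) = M * (M : ℝ) ^ (-((5 : ℕ) * (1 / 14 : ℝ)) : ℝ) := by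
        nth_rewrite 2 [← Real.rpow_one (M : ℝ)]
        rw [← Real.rpow_add hM0]
        norm_num
      rw [h2]
      have h3 : 0 ≤ (12 / 7 ^ 5 : ℝ) ^ (1 / 14 : ℝ) * t ^ (1 / 14 : ℝ) *
        (M : ℝ) ^ (-((5 : ℕ) * (1 / 14 : ℝ)) : ℝ) := by positivity
      calc _ ≤ (M : ℝ) * ((12 / 7 ^ 5 : ℝ) ^ (1 / 14 : ℝ) * t ^ (1 / 14 : ℝ) *
            (M : ℝ) ^ (-((5 : ℕ) * (1 / 14 : ℝ)) : ℝ)) := mul_le_mul_of_nonneg_right hmM h3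
        _ = _ := by ring
    have h4 : (m : ℝ) ^ (3 / 4 : ℝ) * ((12 / 7 ^ 5 : ℝ) ^ (-(1 / 14) : ℝ) * t ^ (-(1 / 14) : ℝ) *
        (M : ℝ) ^ (-((5 : ℕ) * (-(1 / 14) : ℝ)) : ℝ)) ≤
        (12 / 7 ^ 5 : ℝ) ^ (-(1 / 14) : ℝ) * ((M : ℝ) ^ (9 / 14 : ℝ) * t ^ (1 / 14 : ℝ)) := by
      have h5 : (m : ℝ) ^ (3 / 4 : ℝ) ≤ (M : ℝ) ^ (3 / 4 : ℝ) :=
        Real.rpow_le_rpow (Nat.cast_nonneg m) hmM (by norm_num)
      have h6 : (M : ℝ) ^ (13 / 28 : ℝ) ≤ t ^ (1 / 7 : ℝ) := by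
        have h7 := Real.rpow_le_rpow (by positivity) hMt (show (0 : ℝ) ≤ 1 / 28 by norm_num)
        rw [← Real.rpow_natCast (M : ℝ) 13, ← Real.rpow_natCast t 4, ← Real.rpow_mul hM0.le,
          ← Real.rpow_mul ht0.le] at h7
        norm_num at h7 ⊢
        exact h7
      have h8 : (M : ℝ) ^ (3 / 4 : ℝ) * (M : ℝ) ^ (-((5 : ℕ) * (-(1 / 14) : ℝ)) : ℝ) =
          (M : ℝ) ^ (9 / 14 : ℝ) * (M : ℝ) ^ (13 / 28 : ℝ) := by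
        rw [← Real.rpow_add hM0, ← Real.rpow_add hM0]
        norm_num
      have h9 : t ^ (-(1 / 14) : ℝ) * t ^ (1 / 7 : ℝ) = t ^ (1 / 14 : ℝ) := by
        rw [← Real.rpow_add ht0]
        norm_num
      have h10 : 0 ≤ (12 / 7 ^ 5 : ℝ) ^ (-(1 / 14) : ℝ) * t ^ (-(1 / 14) : ℝ) *
        (M : ℝ) ^ (-((5 : ℕ) * (-(1 / 14) : ℝ)) : ℝ) := by positivity
      have h11 : 0 ≤ (12 / 7 ^ 5 : ℝ) ^ (-(1 / 14) : ℝ) * t ^ (-(1 / 14) : ℝ) *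
        (M : ℝ) ^ (9 / 14 : ℝ) := by positivity
      calc _ ≤ (M : ℝ) ^ (3 / 4 : ℝ) * ((12 / 7 ^ 5 : ℝ) ^ (-(1 / 14) : ℝ) *
            t ^ (-(1 / 14) : ℝ) * (M : ℝ) ^ (-((5 : ℕ) * (-(1 / 14) : ℝ)) : ℝ)) :=
            mul_le_mul_of_nonneg_right h5 h10
        _ = (12 / 7 ^ 5 : ℝ) ^ (-(1 / 14) : ℝ) * t ^ (-(1 / 14) : ℝ) *
            ((M : ℝ) ^ (3 / 4 : ℝ) * (M : ℝ) ^ (-((5 : ℕ) * (-(1 / 14) : ℝ)) : ℝ)) := by ring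
        _ = (12 / 7 ^ 5 : ℝ) ^ (-(1 / 14) : ℝ) * t ^ (-(1 / 14) : ℝ) *
            (M : ℝ) ^ (9 / 14 : ℝ) * (M : ℝ) ^ (13 / 28 : ℝ) := by rw [h8]; ring
        _ ≤ (12 / 7 ^ 5 : ℝ) ^ (-(1 / 14) : ℝ) * t ^ (-(1 / 14) : ℝ) *
            (M : ℝ) ^ (9 / 14 : ℝ) * t ^ (1 / 7 : ℝ) := mul_le_mul_of_nonneg_left h6 h11
        _ = (12 / 7 ^ 5 : ℝ) ^ (-(1 / 14) : ℝ) * ((M : ℝ) ^ (9 / 14 : ℝ) *
            (t ^ (-(1 / 14) : ℝ) * t ^ (1 / 7 : ℝ))) := by ring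
        _ = _ := by rw [h9]
    linarith
  all_goals
    intro i hi
    obtain ⟨hX1, hX2⟩ := Block_X hν hν1 hm hi
    show _ ≤ _
    have hd : dl (dl (dl (dl (fun i => ph t ν (M + i))))) i =
        dl (dl (dl (dl (ph t ν)))) (M + i) := rfl
    rw [hd, dl4_ph hν, neg_neg]
    set X := ν + ((M + i : ℕ) : ℝ) with hX
    have hX0 : 0 < X := by linarith
  · rw [div_mul_eq_mul_div, div_div]
    apply div_le_div_of_nonneg_left (by positivity) (by positivity)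
    calc X * (X + 1) * (X + 2) * (X + 3) * (X + 4)
        ≤ (7 * M) * (7 * M) * (7 * M) * (7 * M) * (7 * M) := by gcongr <;> linarith
      _ = 7 ^ 5 * (M : ℝ) ^ 5 := by ring
  · have h1 : (7 : ℝ) ^ 5 * (12 / 7 ^ 5 * t / (M : ℝ) ^ 5) = 12 * t / (M : ℝ) ^ 5 := by ring
    rw [h1]
    apply div_le_div_of_nonneg_left (by positivity) (by positivity)
    calc (M : ℝ) ^ 5 = M * M * M * M * M := by ring
      _ ≤ X * (X + 1) * (X + 2) * (X + 3) * (X + 4) := by gcongr <;> linarith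

theorem block3 : ∃ C : ℝ, 0 < C ∧ ∀ (t ν : ℝ) (M m : ℕ), 1 ≤ t → 0 < ν → ν ≤ 1 → 1 ≤ M → m ≤ M →
    (M : ℝ) ^ 5 ≤ t ^ 2 → ‖blk t ν M m‖ ≤ C * ((M : ℝ) ^ (1 / 3 : ℝ) * t ^ (1 / 6 : ℝ)) := by
  obtain ⟨C, hC, hv⟩ := vdc3 (7 ^ 4) (by norm_num)
  have hc : (0 : ℝ) < 3 / 7 ^ 4 := by norm_num
  refine ⟨C * ((3 / 7 ^ 4 : ℝ) ^ (1 / 6 : ℝ) + (3 / 7 ^ 4 : ℝ) ^ (-(1 / 6) : ℝ)), by positivity,
    ?_⟩
  intro t ν M m ht hν hν1 hM hm hMt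
  have ht0 : 0 < t := by linarith
  have hM1 : (1 : ℝ) ≤ M := by exact_mod_cast hM
  have hM0 : (0 : ℝ) < M := by linarith
  have hmM : (m : ℝ) ≤ M := by exact_mod_cast hm
  have hlam : 0 < 3 / 7 ^ 4 * t / (M : ℝ) ^ 4 := by positivity
  have key := hv (fun i => ph t ν (M + i)) m (3 / 7 ^ 4 * t / (M : ℝ) ^ 4) hlam ?_ ?_
  · refine (show ‖blk t ν M m‖ ≤ _ from key).trans ?_
    rw [mul_assoc]
    refine mul_le_mul_of_nonneg_left ?_ hC.le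
    rw [Block_pow hc ht0 hM0, Block_pow hc ht0 hM0]
    have h1 : (m : ℝ) * ((3 / 7 ^ 4 : ℝ) ^ (1 / 6 : ℝ) * t ^ (1 / 6 : ℝ) *
        (M : ℝ) ^ (-((4 : ℕ) * (1 / 6 : ℝ)) : ℝ)) ≤
        (3 / 7 ^ 4 : ℝ) ^ (1 / 6 : ℝ) * ((M : ℝ) ^ (1 / 3 : ℝ) * t ^ (1 / 6 : ℝ)) := by
      have h2 : (M : ℝ) ^ (1 / 3 : ℝ) = M * (M : ℝ) ^ (-((4 : ℕ) * (1 / 6 : ℝ)) : ℝ) := by
        nth_rewrite 2 [← Real.rpow_one (M : ℝ)]
        rw [← Real.rpow_add hM0]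
        norm_num
      rw [h2]
      have h3 : 0 ≤ (3 / 7 ^ 4 : ℝ) ^ (1 / 6 : ℝ) * t ^ (1 / 6 : ℝ) *
        (M : ℝ) ^ (-((4 : ℕ) * (1 / 6 : ℝ)) : ℝ) := by positivity
      calc _ ≤ (M : ℝ) * ((3 / 7 ^ 4 : ℝ) ^ (1 / 6 : ℝ) * t ^ (1 / 6 : ℝ) *
            (M : ℝ) ^ (-((4 : ℕ) * (1 / 6 : ℝ)) : ℝ)) := mul_le_mul_of_nonneg_right hmM h3
        _ = _ := by ring
    have h4 : (m : ℝ) ^ (1 / 2 : ℝ) * ((3 / 7 ^ 4 : ℝ) ^ (-(1 / 6) : ℝ) * t ^ (-(1 / 6) : ℝ) *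
        (M : ℝ) ^ (-((4 : ℕ) * (-(1 / 6) : ℝ)) : ℝ)) ≤
        (3 / 7 ^ 4 : ℝ) ^ (-(1 / 6) : ℝ) * ((M : ℝ) ^ (1 / 3 : ℝ) * t ^ (1 / 6 : ℝ)) := by
      have h5 : (m : ℝ) ^ (1 / 2 : ℝ) ≤ (M : ℝ) ^ (1 / 2 : ℝ) :=
        Real.rpow_le_rpow (Nat.cast_nonneg m) hmM (by norm_num)
      have h6 : (M : ℝ) ^ (5 / 6 : ℝ) ≤ t ^ (1 / 3 : ℝ) := by
        have h7 := Real.rpow_le_rpow (by positivity) hMt (show (0 : ℝ) ≤ 1 / 6 by norm_num)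
        rw [← Real.rpow_natCast (M : ℝ) 5, ← Real.rpow_natCast t 2, ← Real.rpow_mul hM0.le,
          ← Real.rpow_mul ht0.le] at h7
        norm_num at h7 ⊢
        exact h7
      have h8 : (M : ℝ) ^ (1 / 2 : ℝ) * (M : ℝ) ^ (-((4 : ℕ) * (-(1 / 6) : ℝ)) : ℝ) =
          (M : ℝ) ^ (1 / 3 : ℝ) * (M : ℝ) ^ (5 / 6 : ℝ) := by
        rw [← Real.rpow_add hM0, ← Real.rpow_add hM0]
        norm_num
      have h9 : t ^ (-(1 / 6) : ℝ) * t ^ (1 / 3 : ℝ) = t ^ (1 / 6 : ℝ) := by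
        rw [← Real.rpow_add ht0]
        norm_num
      have h10 : 0 ≤ (3 / 7 ^ 4 : ℝ) ^ (-(1 / 6) : ℝ) * t ^ (-(1 / 6) : ℝ) *
        (M : ℝ) ^ (-((4 : ℕ) * (-(1 / 6) : ℝ)) : ℝ) := by positivity
      have h11 : 0 ≤ (3 / 7 ^ 4 : ℝ) ^ (-(1 / 6) : ℝ) * t ^ (-(1 / 6) : ℝ) *
        (M : ℝ) ^ (1 / 3 : ℝ) := by positivity
      calc _ ≤ (M : ℝ) ^ (1 / 2 : ℝ) * ((3 / 7 ^ 4 : ℝ) ^ (-(1 / 6) : ℝ) *
            t ^ (-(1 / 6) : ℝ) * (M : ℝ) ^ (-((4 : ℕ) * (-(1 / 6) : ℝ)) : ℝ)) :=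
            mul_le_mul_of_nonneg_right h5 h10
        _ = (3 / 7 ^ 4 : ℝ) ^ (-(1 / 6) : ℝ) * t ^ (-(1 / 6) : ℝ) *
            ((M : ℝ) ^ (1 / 2 : ℝ) * (M : ℝ) ^ (-((4 : ℕ) * (-(1 / 6) : ℝ)) : ℝ)) := by ring
        _ = (3 / 7 ^ 4 : ℝ) ^ (-(1 / 6) : ℝ) * t ^ (-(1 / 6) : ℝ) *
            (M : ℝ) ^ (1 / 3 : ℝ) * (M : ℝ) ^ (5 / 6 : ℝ) := by rw [h8]; ring
        _ ≤ (3 / 7 ^ 4 : ℝ) ^ (-(1 / 6) : ℝ) * t ^ (-(1 / 6) : ℝ) *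
            (M : ℝ) ^ (1 / 3 : ℝ) * t ^ (1 / 3 : ℝ) := mul_le_mul_of_nonneg_left h6 h11
        _ = (3 / 7 ^ 4 : ℝ) ^ (-(1 / 6) : ℝ) * ((M : ℝ) ^ (1 / 3 : ℝ) *
            (t ^ (-(1 / 6) : ℝ) * t ^ (1 / 3 : ℝ))) := by ring
        _ = _ := by rw [h9]
    linarith
  all_goals
    intro i hi
    obtain ⟨hX1, hX2⟩ := Block_X hν hν1 hm hi
    show _ ≤ _
    have hd : dl (dl (dl (fun i => ph t ν (M + i)))) i =
        dl (dl (dl (ph t ν))) (M + i) := rfl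
    rw [hd, dl3_ph hν]
    set X := ν + ((M + i : ℕ) : ℝ) with hX
    have hX0 : 0 < X := by linarith
  · rw [div_mul_eq_mul_div, div_div]
    apply div_le_div_of_nonneg_left (by positivity) (by positivity)
    calc X * (X + 1) * (X + 2) * (X + 3)
        ≤ (7 * M) * (7 * M) * (7 * M) * (7 * M) := by gcongr <;> linarith
      _ = 7 ^ 4 * (M : ℝ) ^ 4 := by ring
  · have h1 : (7 : ℝ) ^ 4 * (3 / 7 ^ 4 * t / (M : ℝ) ^ 4) = 3 * t / (M : ℝ) ^ 4 := by ring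
    rw [h1]
    apply div_le_div_of_nonneg_left (by positivity) (by positivity)
    calc (M : ℝ) ^ 4 = M * M * M * M := by ring
      _ ≤ X * (X + 1) * (X + 2) * (X + 3) := by gcongr <;> linarith

theorem block2 : ∃ C : ℝ, 0 < C ∧ ∀ (t ν : ℝ) (M m : ℕ), 1 ≤ t → 0 < ν → ν ≤ 1 → 1 ≤ M → m ≤ M →
    ‖blk t ν M m‖ ≤ C * (t ^ (1 / 2 : ℝ) * (M : ℝ) ^ (-(1 / 2) : ℝ) +
      (M : ℝ) ^ (3 / 2 : ℝ) * t ^ (-(1 / 2) : ℝ)) := by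
  obtain ⟨C, hC, hv⟩ := vdc2'
  have hc : (0 : ℝ) < 1 / 7 ^ 3 := by norm_num
  refine ⟨C * (7 ^ 3 * (1 / 7 ^ 3 : ℝ) ^ (1 / 2 : ℝ) + (1 / 7 ^ 3 : ℝ) ^ (-(1 / 2) : ℝ)),
    by positivity, ?_⟩
  intro t ν M m ht hν hν1 hM hm
  have ht0 : 0 < t := by linarith
  have hM1 : (1 : ℝ) ≤ M := by exact_mod_cast hM
  have hM0 : (0 : ℝ) < M := by linarith
  have hmM : (m : ℝ) ≤ M := by exact_mod_cast hm
  have hlam : 0 < 1 / 7 ^ 3 * t / (M : ℝ) ^ 3 := by positivity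
  have key := hv (fun i => ph t ν (M + i)) m (1 / 7 ^ 3 * t / (M : ℝ) ^ 3) (7 ^ 3) hlam
    (by norm_num) ?_ ?_
  · refine (show ‖blk t ν M m‖ ≤ _ from key).trans ?_
    rw [mul_assoc C]
    refine mul_le_mul_of_nonneg_left ?_ hC.le
    have hs : √(1 / 7 ^ 3 * t / (M : ℝ) ^ 3) = (1 / 7 ^ 3 : ℝ) ^ (1 / 2 : ℝ) *
        t ^ (1 / 2 : ℝ) * (M : ℝ) ^ (-((3 : ℕ) * (1 / 2 : ℝ)) : ℝ) := by
      rw [Real.sqrt_eq_rpow, Block_pow hc ht0 hM0]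
    have hs' : 1 / √(1 / 7 ^ 3 * t / (M : ℝ) ^ 3) = (1 / 7 ^ 3 : ℝ) ^ (-(1 / 2) : ℝ) *
        t ^ (-(1 / 2) : ℝ) * (M : ℝ) ^ (-((3 : ℕ) * (-(1 / 2) : ℝ)) : ℝ) := by
      rw [Real.sqrt_eq_rpow, ← Block_pow hc ht0 hM0, Real.rpow_neg hlam.le, one_div]
    rw [hs', hs]
    have h2 : (M : ℝ) ^ (-(1 / 2) : ℝ) = M * (M : ℝ) ^ (-((3 : ℕ) * (1 / 2 : ℝ)) : ℝ) := by
      nth_rewrite 2 [← Real.rpow_one (M : ℝ)]
      rw [← Real.rpow_add hM0]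
      norm_num
    have h3 : (M : ℝ) ^ (3 / 2 : ℝ) = (M : ℝ) ^ (-((3 : ℕ) * (-(1 / 2) : ℝ)) : ℝ) := by
      norm_num
    rw [h2, h3]
    set A := (1 / 7 ^ 3 : ℝ) ^ (1 / 2 : ℝ)
    set A' := (1 / 7 ^ 3 : ℝ) ^ (-(1 / 2) : ℝ)
    set T := t ^ (1 / 2 : ℝ)
    set T' := t ^ (-(1 / 2) : ℝ)
    set B := (M : ℝ) ^ (-((3 : ℕ) * (1 / 2 : ℝ)) : ℝ)
    set B' := (M : ℝ) ^ (-((3 : ℕ) * (-(1 / 2) : ℝ)) : ℝ)
    have hA : 0 ≤ A := by positivity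
    have hA' : 0 ≤ A' := by positivity
    have hT : 0 ≤ T := by positivity
    have hT' : 0 ≤ T' := by positivity
    have hB : 0 ≤ B := by positivity
    have hB' : 0 ≤ B' := by positivity
    have e1 : 7 ^ 3 * (m : ℝ) * (A * T * B) ≤ 7 ^ 3 * A * (T * (M * B)) := by
      have : 0 ≤ 7 ^ 3 * (A * T * B) := by positivity
      calc 7 ^ 3 * (m : ℝ) * (A * T * B) = m * (7 ^ 3 * (A * T * B)) := by ring
        _ ≤ M * (7 ^ 3 * (A * T * B)) := mul_le_mul_of_nonneg_right hmM this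
        _ = _ := by ring
    have e2 : 0 ≤ 7 ^ 3 * A * (B' * T') := by positivity
    have e3 : 0 ≤ A' * (T * (M * B)) := by positivity
    calc 7 ^ 3 * (m : ℝ) * (A * T * B) + A' * T' * B'
        ≤ 7 ^ 3 * A * (T * (M * B)) + A' * (B' * T') := by linarith
      _ ≤ 7 ^ 3 * A * (T * (M * B)) + A' * (B' * T') + 7 ^ 3 * A * (B' * T') +
          A' * (T * (M * B)) := by linarith
      _ = _ := by ring
  all_goals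
    intro i hi
    obtain ⟨hX1, hX2⟩ := Block_X hν hν1 hm hi
    show _ ≤ _
    have hd : dl (dl (fun i => ph t ν (M + i))) i = dl (dl (ph t ν)) (M + i) := rfl
    rw [hd, dl2_ph hν, neg_neg]
    set X := ν + ((M + i : ℕ) : ℝ) with hX
    have hX0 : 0 < X := by linarith
  · rw [div_mul_eq_mul_div, div_div, one_mul]
    apply div_le_div_of_nonneg_left (by positivity) (by positivity)
    calc X * (X + 1) * (X + 2)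
        ≤ (7 * M) * (7 * M) * (7 * M) := by gcongr <;> linarith
      _ = 7 ^ 3 * (M : ℝ) ^ 3 := by ring
  · have h1 : (7 : ℝ) ^ 3 * (1 / 7 ^ 3 * t / (M : ℝ) ^ 3) = t / (M : ℝ) ^ 3 := by ring
    rw [h1]
    apply div_le_div_of_nonneg_left (by positivity) (by positivity)
    calc (M : ℝ) ^ 3 = M * M * M := by ring
      _ ≤ X * (X + 1) * (X + 2) := by gcongr <;> linarith

theorem block1 (t ν : ℝ) (M m : ℕ) (ht : 0 ≤ t) (hν : 0 < ν) (hν1 : ν ≤ 1) (hM : 1 ≤ M) (hm : m ≤ M)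
    (hMt : 4 * t ≤ (M : ℝ) ^ 2) : ‖blk t ν M m‖ ≤ 4 := by
  have hM1 : (1 : ℝ) ≤ M := by exact_mod_cast hM
  have hM0 : (0 : ℝ) < M := by linarith
  rcases m with _ | N
  · unfold blk
    rw [Finset.range_zero, Finset.sum_empty, norm_zero]
    norm_num
  have hd : ∀ i, dl (fun i => ph t ν (M + i)) i = 3 / 8 +
      t / (2 * (ν + ((M + i : ℕ) : ℝ)) * (ν + ((M + i : ℕ) : ℝ) + 1)) := fun i =>
    dl_ph hν (M + i)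
  have key := kl' (fun i => ph t ν (M + i)) N (3 / 8) 0 (by norm_num) (by norm_num) ?_ ?_ ?_
  · refine (show ‖blk t ν M (N + 1)‖ ≤ _ from key).trans ?_
    norm_num
  · intro i hi
    obtain ⟨hX1, hX2⟩ := Block_X (i := i) hν hν1 hm (by omega)
    rw [hd, hd]
    have h1 : ν + ((M + (i + 1) : ℕ) : ℝ) = ν + ((M + i : ℕ) : ℝ) + 1 := by push_cast; ring
    rw [h1]
    set X := ν + ((M + i : ℕ) : ℝ) with hX
    have hX0 : 0 < X := by linarith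
    have h2 : t / (2 * (X + 1) * (X + 1 + 1)) ≤ t / (2 * X * (X + 1)) := by
      apply div_le_div_of_nonneg_left ht (by positivity)
      gcongr <;> linarith
    linarith
  · intro i hi
    obtain ⟨hX1, hX2⟩ := Block_X (i := i) hν hν1 hm (by omega)
    rw [hd]
    set X := ν + ((M + i : ℕ) : ℝ) with hX
    have hX0 : 0 < X := by linarith
    have h2 : 0 ≤ t / (2 * X * (X + 1)) := by positivity
    push_cast
    linarith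
  · intro i hi
    obtain ⟨hX1, hX2⟩ := Block_X (i := i) hν hν1 hm (by omega)
    rw [hd]
    set X := ν + ((M + i : ℕ) : ℝ) with hX
    have hX0 : 0 < X := by linarith
    have h2 : t / (2 * X * (X + 1)) ≤ 1 / 8 := by
      rw [div_le_div_iff₀ (by positivity) (by norm_num)]
      have h3 : (M : ℝ) ^ 2 ≤ X * (X + 1) := by
        calc (M : ℝ) ^ 2 = M * M := by ring
          _ ≤ X * (X + 1) := by gcongr <;> linarith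
      nlinarith
    push_cast
    linarith

end Pool.Agent.Helper31.FI
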