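import Pool.Agent.Helper31.FI.Kern

/-!
# FI-WI: the kernel applied to the transformed Gaussian

For `im s > 0`, `y` real: `(-I s)^(-1/2) exp (-π i y²/s) = ∫ exp (π i s t²) exp (-2 π i t y) dt` (`fourierIntegral_gaussian` with
`b = -π i s`).  On the circle `‖exp (π i s t²)‖ ≤ exp (-π (im τ - r) t²)`, `Kz` is bounded there (`Kz_cont`): Fubini and `w_exp` give
`∫ exp (π i τ t²) cos (2 π z t) exp (-2 π i t y) dt`, and `fourierIntegral_gaussian` again with the complex frequencies `y ∓ z`: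
`(-I τ)^(-1/2) (exp (-π i (y-z)²/τ) + exp (-π i (y+z)²/τ))/2`.
-/

set_option autoImplicit false

namespace Pool.Agent.Helper31.FI

open Complex Real MeasureTheory

private theorem wi_gauss {s : ℂ} (hs : 0 < s.im) (w : ℂ) :
    ∫ t : ℝ, cexp (2 * π * I * w * t) * cexp (π * I * s * t ^ 2) =
      (-I * s) ^ (-(1 / 2) : ℂ) * cexp (-(π * I * w ^ 2 / s)) := by
  have hs0 : s ≠ 0 := by
    rintro rfl
    simp at hs
  have hpi : (π : ℂ) ≠ 0 := by exact_mod_cast Real.pi_ne_zero
  have hb : 0 < (-(π * I * s) : ℂ).re := by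
    have : (-(π * I * s) : ℂ).re = π * s.im := by simp
    rw [this]
    exact mul_pos Real.pi_pos hs
  have h1 := fourierIntegral_gaussian hb (2 * π * w)
  have e1 : ∀ t : ℝ, cexp (I * (2 * π * w) * t) * cexp (-(-(π * I * s)) * t ^ 2) =
      cexp (2 * π * I * w * t) * cexp (π * I * s * t ^ 2) := by
    intro t
    congr 2 <;> ring
  simp_rw [e1] at h1
  rw [h1]
  have e2 : (π : ℂ) / (-(π * I * s)) = (-I * s)⁻¹ := by
    rw [show -(π * I * s) = π * (-I * s) by ring, ← div_div, div_self hpi, one_div]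
  have harg : (-I * s).arg ≠ π := by
    rw [Ne, Complex.arg_eq_pi_iff, not_and_or, not_lt]
    left
    simp
    exact hs.le
  rw [e2, Complex.inv_cpow _ _ harg, Complex.cpow_neg]
  congr 2
  have : (-(I * I) : ℂ) = 1 := by rw [Complex.I_mul_I]; ring
  have hI : (I : ℂ) ≠ 0 := I_ne_zero
  field_simp
  rw [I_sq]
  ring

theorem w_inv (y : ℝ) (z τ : ℂ) (r : ℝ) (hr : 0 < r) (hτ : r < τ.im) :
    (2 * π * I)⁻¹ * ∮ s in C(τ, r), ((-I * s) ^ (-(1 / 2) : ℂ) * cexp (-(π * I * y ^ 2 / s))) * Kz z (s - τ) =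
      (-I * τ) ^ (-(1 / 2) : ℂ) * cexp (-(π * I * (z ^ 2 + y ^ 2) / τ)) *
        Complex.cos (2 * π * z * y / τ) := by
  have hτ0 : 0 < τ.im := hr.trans hτ
  have hpi2 : (2 * π * I : ℂ) ≠ 0 := by
    have hpi : (π : ℂ) ≠ 0 := by exact_mod_cast Real.pi_ne_zero
    exact mul_ne_zero (mul_ne_zero two_ne_zero hpi) I_ne_zero
  set S : ℝ → ℂ := circleMap τ r with hS
  have hSim : ∀ θ : ℝ, τ.im - r ≤ (S θ).im := by
    intro θ
    have h1 : (S θ).im = τ.im + r * Real.sin θ := by
      simp [hS, circleMap]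
    rw [h1]
    nlinarith [Real.neg_one_le_sin θ]
  have hSne : ∀ θ : ℝ, S θ - τ ≠ 0 := by
    intro θ
    rw [sub_ne_zero]
    exact circleMap_ne_center hr.ne'
  have hSc : Continuous S := continuous_circleMap τ r
  set K : ℝ → ℂ := fun θ => deriv (circleMap τ r) θ * Kz z (S θ - τ) with hK
  have hKc : Continuous K := by
    refine Continuous.mul ?_ ?_
    · rw [funext (deriv_circleMap τ r)]
      fun_prop
    · exact (Kz_cont z).comp_continuous (by fun_prop) hSne
  set f : ℝ → ℝ → ℂ := fun θ t => K θ * (cexp (2 * π * I * (-y) * t) * cexp (π * I * S θ * t ^ 2)) with hf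
  have hfc : Continuous (Function.uncurry f) := by
    have h1 : Continuous (fun p : ℝ × ℝ => K p.1) := hKc.comp continuous_fst
    have h2 : Continuous (fun p : ℝ × ℝ => S p.1) := hSc.comp continuous_fst
    simp only [hf, Function.uncurry_def]
    fun_prop
  -- left side
  have e1 : (∮ s in C(τ, r), ((-I * s) ^ (-(1 / 2) : ℂ) * cexp (-(π * I * y ^ 2 / s))) * Kz z (s - τ)) =
      ∫ θ in (0 : ℝ)..2 * π, ∫ t : ℝ, f θ t := by
    unfold circleIntegral
    apply intervalIntegral.integral_congr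
    intro θ _
    simp only [hf, smul_eq_mul]
    rw [integral_const_mul, wi_gauss (by linarith [hSim θ]) (-y)]
    simp only [hK, hS, neg_sq]
    ring
  have hint : Integrable (Function.uncurry f) ((volume.restrict (Set.Ioc (0 : ℝ) (2 * π))).prod volume) := by
    have hg : Integrable (fun t : ℝ => rexp (-(π * (τ.im - r)) * t ^ 2)) :=
      integrable_exp_neg_mul_sq (mul_pos Real.pi_pos (by linarith))
    have hk : Integrable (fun θ : ℝ => ‖K θ‖) (volume.restrict (Set.Ioc (0 : ℝ) (2 * π))) := by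
      have h1 : IntegrableOn (fun θ : ℝ => ‖K θ‖) (Set.Icc (0 : ℝ) (2 * π)) :=
        hKc.norm.continuousOn.integrableOn_Icc
      exact h1.mono_set Set.Ioc_subset_Icc_self
    refine (hk.mul_prod hg).mono' hfc.aestronglyMeasurable (Filter.Eventually.of_forall ?_)
    rintro ⟨θ, t⟩
    simp only [Function.uncurry, hf]
    rw [norm_mul, norm_mul (cexp _) (cexp _), Complex.norm_exp, Complex.norm_exp]
    have h1 : (2 * π * I * (-y) * t : ℂ).re = 0 := by simp
    have h2 : (π * I * S θ * t ^ 2 : ℂ).re = -(π * (S θ).im * t ^ 2) := by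
      have : (π * I * S θ * t ^ 2 : ℂ) = ((π * t ^ 2 : ℝ) : ℂ) * (I * S θ) := by push_cast; ring
      rw [this, Complex.re_ofReal_mul]
      simp
      ring
    rw [h1, h2, Real.exp_zero, one_mul]
    apply mul_le_mul_of_nonneg_left _ (norm_nonneg _)
    apply Real.exp_le_exp.2
    have h3 : π * t ^ 2 * (τ.im - r) ≤ π * t ^ 2 * (S θ).im :=
      mul_le_mul_of_nonneg_left (hSim θ) (by positivity)
    linarith
  have hpi0 : (0 : ℝ) ≤ 2 * π := by positivity
  have e2 : (∫ θ in (0 : ℝ)..2 * π, ∫ t : ℝ, f θ t) = ∫ t : ℝ, ∫ θ in (0 : ℝ)..2 * π, f θ t := by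
    rw [intervalIntegral.integral_of_le hpi0, integral_integral_swap hint]
    congr 1
    ext t
    rw [intervalIntegral.integral_of_le hpi0]
  have e3 : ∀ t : ℝ, (∫ θ in (0 : ℝ)..2 * π, f θ t) =
      (2 * π * I) * ((cexp (2 * π * I * (z - y) * t) * cexp (π * I * τ * t ^ 2) +
        cexp (2 * π * I * (-z - y) * t) * cexp (π * I * τ * t ^ 2)) / 2) := by
    intro t
    have h1 := w_exp t z τ r hr
    have h2 : (∮ s in C(τ, r), cexp (π * I * t ^ 2 * s) * Kz z (s - τ)) =
        (2 * π * I) * (cexp (π * I * t ^ 2 * τ) * Complex.cos (2 * π * z * t)) := by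
      rw [← h1, ← mul_assoc, mul_inv_cancel₀ hpi2, one_mul]
    have h3 : (∫ θ in (0 : ℝ)..2 * π, f θ t) = cexp (2 * π * I * (-y) * t) *
        ∮ s in C(τ, r), cexp (π * I * t ^ 2 * s) * Kz z (s - τ) := by
      unfold circleIntegral
      rw [← intervalIntegral.integral_const_mul]
      apply intervalIntegral.integral_congr
      intro θ _
      simp only [hf, hK, hS, smul_eq_mul]
      rw [show (π * I * circleMap τ r θ * (t : ℂ) ^ 2) = π * I * t ^ 2 * circleMap τ r θ by ring]
      ring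
    rw [h3, h2, Complex.cos]
    have h4 : cexp (2 * π * I * (z - y) * t) = cexp (2 * π * I * (-y) * t) * cexp (2 * π * z * t * I) := by
      rw [← Complex.exp_add]
      congr 1
      ring
    have h5 : cexp (2 * π * I * (-z - y) * t) = cexp (2 * π * I * (-y) * t) * cexp (-(2 * π * z * t) * I) := by
      rw [← Complex.exp_add]
      congr 1
      ring
    rw [h4, h5, show (π * I * (t : ℂ) ^ 2 * τ) = π * I * τ * t ^ 2 by ring]
    ring
  have hi : ∀ w : ℂ, Integrable (fun t : ℝ => cexp (2 * π * I * w * t) * cexp (π * I * τ * t ^ 2)) := by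
    intro w
    have hb : (π * I * τ : ℂ).re < 0 := by
      have : (π * I * τ : ℂ).re = -(π * τ.im) := by simp
      rw [this]
      have := mul_pos Real.pi_pos hτ0
      linarith
    have h1 := integrable_cexp_quadratic' hb (2 * π * I * w) 0
    refine h1.congr (Filter.Eventually.of_forall fun t => ?_)
    simp only
    rw [← Complex.exp_add]
    congr 1
    ring
  rw [e1, e2]
  simp_rw [e3]
  rw [integral_const_mul, integral_div, integral_add (hi _) (hi _), wi_gauss hτ0, wi_gauss hτ0, ← mul_assoc,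
    inv_mul_cancel₀ hpi2, one_mul, Complex.cos]
  have hτne : τ ≠ 0 := by
    rintro rfl
    simp at hτ0
  have h4 : cexp (-(π * I * (z - y) ^ 2 / τ)) = cexp (-(π * I * (z ^ 2 + y ^ 2) / τ)) * cexp (2 * π * z * y / τ * I) := by
    rw [← Complex.exp_add]
    congr 1
    ring
  have h5 : cexp (-(π * I * (-z - y) ^ 2 / τ)) = cexp (-(π * I * (z ^ 2 + y ^ 2) / τ)) * cexp (-(2 * π * z * y / τ) * I) := by
    rw [← Complex.exp_add]
    congr 1
    ring
  rw [h4, h5]
  ring

end Pool.Agent.Helper31.FI
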