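import Pool.Agent.Helper31.FI.Coef
import Pool.Agent.Helper31.FI.WInv

/-!
# FI-BU: the interpolation identity for products of Gaussians and cosines

`r = im τ/2`.  For `s` on the circle `C(τ, r)`, by `F_hasSum` at `s` and at `-1/s` and `Gen.inv`:
`∑ c_n (exp (π i n s) + (-I s)^(-1/2) exp (-π i n/s)) = ex x s + (-I s)^(-1/2) ex x (-1/s)`, uniformly on the circle
(`cf_bound`, `im s ≥ im τ/2`, `im (-1/s) ≥ η > 0`).  Multiply by `Kz z (s - τ)`, integrate termwise, `w_exp` (with `y² = n`, `y² = x`), `w_inv`.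
`rbump`: `τ = I t`, `z = I t a`, multiply by `√t exp (-π t a²)`.
-/

set_option autoImplicit false

namespace Pool.Agent.Helper31.FI

open Complex Real

/-- Gaussian times cosine -/
noncomputable def uu (τ z : ℂ) (y : ℝ) : ℂ := cexp (π * I * y ^ 2 * τ) * Complex.cos (2 * π * z * y)

/-- its Fourier transform -/
noncomputable def vv (τ z : ℂ) (y : ℝ) : ℂ :=
  (-I * τ) ^ (-(1 / 2) : ℂ) * cexp (-(π * I * (z ^ 2 + y ^ 2) / τ)) * Complex.cos (2 * π * z * y / τ)

/-- the integrand -/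
private noncomputable def hb (y : ℝ) (s : ℂ) : ℂ :=
  cexp (π * I * y ^ 2 * s) + (-I * s) ^ (-(1 / 2) : ℂ) * cexp (-(π * I * y ^ 2 / s))

private theorem Bump_im {τ : ℂ} {r : ℝ} {s : ℂ} (hs : s ∈ Metric.sphere τ r) :
    τ.im - r ≤ s.im := by
  have h1 : ‖s - τ‖ = r := by simpa [dist_eq_norm] using hs
  have h2 := abs_im_le_norm (s - τ)
  rw [h1, sub_im, abs_le] at h2
  linarith [h2.1]

private theorem Bump_norm {τ : ℂ} {r : ℝ} {s : ℂ} (hs : s ∈ Metric.sphere τ r) :
    ‖s‖ ≤ ‖τ‖ + r := by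
  have h1 : ‖s - τ‖ = r := by simpa [dist_eq_norm] using hs
  calc ‖s‖ = ‖τ + (s - τ)‖ := by ring_nf
    _ ≤ ‖τ‖ + ‖s - τ‖ := norm_add_le _ _
    _ = ‖τ‖ + r := by rw [h1]

private theorem Bump_W : ContinuousOn (fun s : ℂ => (-I * s) ^ (-(1 / 2) : ℂ)) {s : ℂ | 0 < s.im} := by
  intro s hs
  refine ContinuousAt.continuousWithinAt ?_
  refine ContinuousAt.cpow (by fun_prop) continuousAt_const ?_
  left
  have : (-I * s).re = s.im := by simp
  rw [this]
  exact hs

private theorem Bump_e1 (y : ℝ) : Continuous fun s : ℂ => cexp (π * I * y ^ 2 * s) := by fun_prop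

private theorem Bump_e2 (y : ℝ) :
    ContinuousOn (fun s : ℂ => cexp (-(π * I * y ^ 2 / s))) {s : ℂ | 0 < s.im} := by
  intro s hs
  refine ContinuousAt.continuousWithinAt ?_
  have hs0 : s ≠ 0 := by
    rintro rfl
    simp at hs
  exact (((continuousAt_const).div continuousAt_id hs0).neg).cexp

private theorem Bump_hb (y : ℝ) : ContinuousOn (hb y) {s : ℂ | 0 < s.im} :=
  (Bump_e1 y).continuousOn.add (Bump_W.mul (Bump_e2 y))

private theorem Bump_K (z τ : ℂ) {r : ℝ} (hr : 0 < r) :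
    ContinuousOn (fun s => Kz z (s - τ)) (Metric.sphere τ r) := by
  refine (Kz_cont z).comp (by fun_prop) fun s hs => ?_
  have h1 : ‖s - τ‖ = r := by simpa [dist_eq_norm] using hs
  show s - τ ≠ 0
  rw [← norm_pos_iff, h1]
  exact hr

private theorem Bump_circ (y : ℝ) (z τ : ℂ) {r : ℝ} (hr : 0 < r) (hτ : r < τ.im) :
    (2 * π * I)⁻¹ * ∮ s in C(τ, r), hb y s * Kz z (s - τ) = uu τ z y + vv τ z y := by
  have hsub : Metric.sphere τ r ⊆ {s : ℂ | 0 < s.im} := fun s hs => by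
    have := Bump_im hs
    show 0 < s.im
    linarith
  have c1 : CircleIntegrable (fun s => cexp (π * I * y ^ 2 * s) * Kz z (s - τ)) τ r :=
    ((Bump_e1 y).continuousOn.mul (Bump_K z τ hr)).circleIntegrable hr.le
  have c2 : CircleIntegrable (fun s => ((-I * s) ^ (-(1 / 2) : ℂ) *
      cexp (-(π * I * y ^ 2 / s))) * Kz z (s - τ)) τ r :=
    (((Bump_W.mono hsub).mul ((Bump_e2 y).mono hsub)).mul (Bump_K z τ hr)).circleIntegrable hr.le
  have h1 : (∮ s in C(τ, r), hb y s * Kz z (s - τ)) =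
      (∮ s in C(τ, r), cexp (π * I * y ^ 2 * s) * Kz z (s - τ)) +
      ∮ s in C(τ, r), ((-I * s) ^ (-(1 / 2) : ℂ) * cexp (-(π * I * y ^ 2 / s))) * Kz z (s - τ) := by
    rw [← circleIntegral.integral_add c1 c2]
    congr 1
    funext s
    simp only [hb]
    ring
  rw [h1, mul_add, w_exp (y : ℂ) z τ r hr, w_inv y z τ r hr hτ]
  rfl

private theorem Bump_sum (A ρ : ℝ) (hρ : 0 < ρ) :
    Summable fun n : ℕ => ((n : ℝ) + 1) ^ A * rexp (-(π * n * ρ)) := by
  have h1 := (summable_nat_add_iff 1).2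
    (Real.summable_pow_mul_exp_neg_nat_mul ⌈A⌉₊ (r := π * ρ) (by positivity))
  refine Summable.of_nonneg_of_le (fun n => by positivity) (fun n => ?_)
    (h1.mul_left (rexp (π * ρ)))
  have h2 : ((n : ℝ) + 1) ^ A ≤ ((n : ℝ) + 1) ^ ⌈A⌉₊ := by
    rw [← Real.rpow_natCast]
    exact Real.rpow_le_rpow_of_exponent_le (by linarith [Nat.cast_nonneg (α := ℝ) n]) (Nat.le_ceil A)
  have h3 : rexp (-(π * n * ρ)) = rexp (π * ρ) * rexp (-(π * ρ) * ((n + 1 : ℕ) : ℝ)) := by
    rw [← Real.exp_add]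
    congr 1
    push_cast
    ring
  rw [h3]
  calc ((n : ℝ) + 1) ^ A * (rexp (π * ρ) * rexp (-(π * ρ) * ((n + 1 : ℕ) : ℝ)))
      ≤ ((n : ℝ) + 1) ^ ⌈A⌉₊ * (rexp (π * ρ) * rexp (-(π * ρ) * ((n + 1 : ℕ) : ℝ))) :=
        mul_le_mul_of_nonneg_right h2 (by positivity)
    _ = rexp (π * ρ) * (((n + 1 : ℕ) : ℝ) ^ ⌈A⌉₊ * rexp (-(π * ρ) * ((n + 1 : ℕ) : ℝ))) := by
        push_cast
        ring

private theorem Bump_sq (x : ℝ) (hx : 0 ≤ x) : ((√x : ℝ) : ℂ) ^ 2 = x := by
  rw [← ofReal_pow, Real.sq_sqrt hx]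

theorem bump_id {x : ℝ} (hx : 0 ≤ x) {F : ℂ → ℂ} (hF : Gen x F) {τ : ℂ} (hτ : 0 < τ.im) (z : ℂ) :
    HasSum (fun n : ℕ => cf F 1 n * (uu τ z (√n) + vv τ z (√n))) (uu τ z (√x) + vv τ z (√x)) := by
  set r : ℝ := τ.im / 2 with hr
  have hr0 : 0 < r := by positivity
  have hrτ : r < τ.im := by linarith
  obtain ⟨C, A, hC, hA, hcf⟩ := cf_bound hF
  have hsub : Metric.sphere τ r ⊆ {s : ℂ | 0 < s.im} := fun s hs => by
    have := Bump_im hs
    show 0 < s.im
    linarith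
  obtain ⟨MW, hMW⟩ := (isCompact_sphere τ r).exists_bound_of_continuousOn (Bump_W.mono hsub)
  obtain ⟨MK, hMK⟩ := (isCompact_sphere τ r).exists_bound_of_continuousOn (Bump_K z τ hr0)
  set η : ℝ := r / (‖τ‖ + r) ^ 2 with hη
  have hη0 : 0 < η := by
    have := norm_nonneg τ
    positivity
  set ρ : ℝ := min r η with hρ
  have hρ0 : 0 < ρ := lt_min hr0 hη0
  have hne : (Metric.sphere τ r).Nonempty := NormedSpace.sphere_nonempty.2 hr0.le
  have hMW0 : 0 ≤ MW := by
    obtain ⟨s, hs⟩ := hne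
    exact (norm_nonneg _).trans (hMW s hs)
  have hMK0 : 0 ≤ MK := by
    obtain ⟨s, hs⟩ := hne
    exact (norm_nonneg _).trans (hMK s hs)
  -- pointwise sums
  have hpt : ∀ s ∈ Metric.sphere τ r, HasSum (fun n : ℕ => cf F 1 n * hb (√n) s) (hb (√x) s) := by
    intro s hs
    have hs0 : 0 < s.im := hsub hs
    have hsne : s ≠ 0 := by
      rintro rfl
      simp at hs0
    have him : 0 < (-1 / s).im := by
      have : (-1 / s).im = s.im / normSq s := by
        rw [neg_div, neg_im, one_div, inv_im]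
        ring
      rw [this]
      exact div_pos hs0 (normSq_pos.2 hsne)
    have h1 := F_hasSum hF hs0
    have h2 := (F_hasSum hF him).mul_left ((-I * s) ^ (-(1 / 2) : ℂ))
    have h3 := h1.add h2
    rw [hF.inv s hs0] at h3
    have e1 : ex x s + (-I * s) ^ (-(1 / 2) : ℂ) * ex x (-1 / s) = hb (√x) s := by
      simp only [ex, hb, Bump_sq x hx]
      congr 3
      ring
    rw [e1] at h3
    refine h3.congr_fun ?_
    intro n
    simp only [hb, Bump_sq (n : ℝ) (Nat.cast_nonneg n), ofReal_natCast]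
    have : -(π * I * (n : ℂ) / s) = π * I * n * (-1 / s) := by ring
    rw [this]
    ring
  -- bound
  have hbd : ∀ s ∈ Metric.sphere τ r, ∀ n : ℕ,
      ‖hb (√n) s‖ ≤ (1 + MW) * rexp (-(π * n * ρ)) := by
    intro s hs n
    have hs0 : r ≤ s.im := by
      have := Bump_im hs
      linarith
    have hs0' : 0 < s.im := by linarith
    have hsne : s ≠ 0 := by
      rintro rfl
      simp at hs0'
    have hn : (0 : ℝ) ≤ n := Nat.cast_nonneg n
    have e1 : ‖cexp (π * I * ((√n : ℝ) : ℂ) ^ 2 * s)‖ ≤ rexp (-(π * n * ρ)) := by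
      rw [Bump_sq _ hn, norm_exp]
      apply Real.exp_le_exp.2
      have : (π * I * ((n : ℝ) : ℂ) * s).re = -(π * n * s.im) := by
        simp [mul_re, mul_im]
      rw [this]
      have h1 : ρ ≤ s.im := (min_le_left _ _).trans hs0
      have h2 : π * n * ρ ≤ π * n * s.im := mul_le_mul_of_nonneg_left h1 (by positivity)
      linarith
    have e2 : ‖cexp (-(π * I * ((√n : ℝ) : ℂ) ^ 2 / s))‖ ≤ rexp (-(π * n * ρ)) := by
      rw [Bump_sq _ hn, norm_exp]
      apply Real.exp_le_exp.2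
      have : (-(π * I * ((n : ℝ) : ℂ) / s)).re = -(π * n * (s.im / normSq s)) := by
        rw [div_eq_mul_inv, neg_re, mul_re, inv_re, inv_im]
        simp [mul_re, mul_im]
        ring
      rw [this]
      have h1 : ρ ≤ s.im / normSq s := by
        refine (min_le_right _ _).trans ?_
        have h3 : normSq s ≤ (‖τ‖ + r) ^ 2 := by
          rw [normSq_eq_norm_sq]
          exact pow_le_pow_left₀ (norm_nonneg _) (Bump_norm hs) 2
        exact div_le_div₀ hs0'.le hs0 (normSq_pos.2 hsne) h3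
      have h2 : π * n * ρ ≤ π * n * (s.im / normSq s) := mul_le_mul_of_nonneg_left h1 (by positivity)
      linarith
    calc ‖hb (√n) s‖ ≤ ‖cexp (π * I * ((√n : ℝ) : ℂ) ^ 2 * s)‖ +
          ‖(-I * s) ^ (-(1 / 2) : ℂ) * cexp (-(π * I * ((√n : ℝ) : ℂ) ^ 2 / s))‖ := norm_add_le _ _
      _ ≤ rexp (-(π * n * ρ)) + MW * rexp (-(π * n * ρ)) := by
          rw [norm_mul]
          exact add_le_add e1 (mul_le_mul (hMW s hs) e2 (norm_nonneg _) hMW0)
      _ = (1 + MW) * rexp (-(π * n * ρ)) := by ring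
  -- termwise integration
  set bound : ℕ → ℝ := fun n => r * ((C * (((n : ℝ) + 1) ^ A)) * ((1 + MW) * rexp (-(π * n * ρ))) * MK)
    with hbound
  have hbs : Summable bound := by
    have h1 := (Bump_sum A ρ hρ0).mul_left (r * C * (1 + MW) * MK)
    refine h1.congr fun n => ?_
    simp only [hbound]
    ring
  have hmem : ∀ θ : ℝ, circleMap τ r θ ∈ Metric.sphere τ r := fun θ => circleMap_mem_sphere τ hr0.le θ
  have hci : ∀ y : ℝ, Continuous fun θ : ℝ => hb y (circleMap τ r θ) * Kz z (circleMap τ r θ - τ) := by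
    intro y
    have h1 : ContinuousOn (fun s => hb y s * Kz z (s - τ)) (Metric.sphere τ r) :=
      ((Bump_hb y).mono hsub).mul (Bump_K z τ hr0)
    exact h1.comp_continuous (continuous_circleMap τ r) hmem
  have hint : HasSum (fun n : ℕ => ∮ s in C(τ, r), cf F 1 n * (hb (√n) s * Kz z (s - τ)))
      (∮ s in C(τ, r), hb (√x) s * Kz z (s - τ)) := by
    unfold circleIntegral
    refine intervalIntegral.hasSum_integral_of_dominated_convergence (fun n _ => bound n) ?_ ?_ ?_ ?_ ?_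
    · intro n
      refine Continuous.aestronglyMeasurable ?_
      have h1 : Continuous fun θ : ℝ => deriv (circleMap τ r) θ := by
        simp only [deriv_circleMap]
        exact (continuous_circleMap 0 r).mul continuous_const
      exact h1.smul (continuous_const.mul (hci _))
    · intro n
      refine MeasureTheory.ae_of_all _ fun θ _ => ?_
      have h1 := hmem θ
      simp only [deriv_circleMap, norm_smul, norm_mul, norm_circleMap_zero, norm_I, mul_one,
        abs_of_pos hr0, hbound]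
      refine mul_le_mul_of_nonneg_left ?_ hr0.le
      rw [← mul_assoc]
      refine mul_le_mul (mul_le_mul (hcf n) (hbd _ h1 n) (norm_nonneg _) (by positivity))
        (hMK _ h1) (norm_nonneg _) (by positivity)
    · exact MeasureTheory.ae_of_all _ fun θ _ => hbs
    · exact intervalIntegrable_const
    · refine MeasureTheory.ae_of_all _ fun θ _ => ?_
      have h1 := (hpt _ (hmem θ)).mul_right (Kz z (circleMap τ r θ - τ))
      have h2 := h1.const_smul (deriv (circleMap τ r) θ)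
      refine h2.congr_fun fun n => ?_
      rw [mul_assoc]
  have h4 := hint.mul_left ((2 * π * I)⁻¹)
  rw [Bump_circ (√x) z τ hr0 hrτ] at h4
  refine h4.congr_fun fun n => ?_
  have h5 : (∮ s in C(τ, r), cf F 1 n * (hb (√n) s * Kz z (s - τ))) =
      cf F 1 n * ∮ s in C(τ, r), (hb (√n) s * Kz z (s - τ)) :=
    circleIntegral.integral_const_mul _ _ _ _
  rw [← Bump_circ (√n) z τ hr0 hrτ, h5]
  ring

/-- even Gaussian bump -/
noncomputable def gb (t a y : ℝ) : ℝ := √t / 2 * (rexp (-(π * t * (y - a) ^ 2)) + rexp (-(π * t * (y + a) ^ 2)))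

/-- its Fourier transform -/
noncomputable def gh (t a y : ℝ) : ℝ := rexp (-(π * y ^ 2 / t)) * Real.cos (2 * π * a * y)

private theorem Bump_uu {t : ℝ} (_ : 0 < t) (a y : ℝ) :
    ((√t * rexp (-(π * t * a ^ 2)) : ℝ) : ℂ) * uu (I * t) (I * t * a) y = ((gb t a y : ℝ) : ℂ) := by
  have h1 : Complex.cos (2 * π * (I * t * a) * y) = ((Real.cosh (2 * π * t * a * y) : ℝ) : ℂ) := by
    have : 2 * π * (I * t * a) * y = ((2 * π * t * a * y : ℝ) : ℂ) * I := by
      push_cast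
      ring
    rw [this, Complex.cos_mul_I, ofReal_cosh]
  have h2 : cexp (π * I * y ^ 2 * (I * t)) = ((rexp (-(π * t * y ^ 2)) : ℝ) : ℂ) := by
    rw [ofReal_exp]
    congr 1
    push_cast
    have : π * I * (y : ℂ) ^ 2 * (I * t) = π * y ^ 2 * t * (I * I) := by ring
    rw [this, I_mul_I]
    ring
  rw [uu, h1, h2, ← ofReal_mul, ← ofReal_mul]
  congr 1
  rw [gb, Real.cosh_eq]
  have e1 : rexp (-(π * t * (y - a) ^ 2)) =
      rexp (-(π * t * a ^ 2)) * rexp (-(π * t * y ^ 2)) * rexp (2 * π * t * a * y) := by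
    rw [← Real.exp_add, ← Real.exp_add]
    congr 1
    ring
  have e2 : rexp (-(π * t * (y + a) ^ 2)) =
      rexp (-(π * t * a ^ 2)) * rexp (-(π * t * y ^ 2)) * rexp (-(2 * π * t * a * y)) := by
    rw [← Real.exp_add, ← Real.exp_add]
    congr 1
    ring
  rw [e1, e2]
  ring

private theorem Bump_vv {t : ℝ} (ht : 0 < t) (a y : ℝ) :
    ((√t * rexp (-(π * t * a ^ 2)) : ℝ) : ℂ) * vv (I * t) (I * t * a) y = ((gh t a y : ℝ) : ℂ) := by
  have htne : (t : ℂ) ≠ 0 := ofReal_ne_zero.2 ht.ne'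
  have h1 : Complex.cos (2 * π * (I * t * a) * y / (I * t)) = ((Real.cos (2 * π * a * y) : ℝ) : ℂ) := by
    have : 2 * π * (I * t * a) * y / (I * t) = ((2 * π * a * y : ℝ) : ℂ) := by
      push_cast
      field_simp [I_ne_zero]
    rw [this, ofReal_cos]
  have h2 : cexp (-(π * I * ((I * t * a) ^ 2 + y ^ 2) / (I * t))) =
      ((rexp (π * t * a ^ 2 - π * y ^ 2 / t) : ℝ) : ℂ) := by
    rw [ofReal_exp]
    congr 1
    push_cast
    have h3 : π * I * ((I * t * a) ^ 2 + (y : ℂ) ^ 2) / (I * t) =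
        π * ((I * I) * t * a ^ 2 + y ^ 2 / t) := by
      field_simp [I_ne_zero]
    rw [h3, I_mul_I]
    ring
  have h3 : (-I * (I * (t : ℂ))) ^ (-(1 / 2) : ℂ) = (((√t)⁻¹ : ℝ) : ℂ) := by
    have h4 : -I * (I * (t : ℂ)) = (t : ℂ) := by
      have : -I * (I * (t : ℂ)) = -(I * I) * t := by ring
      rw [this, I_mul_I]
      ring
    rw [h4, Real.sqrt_eq_rpow, ← Real.rpow_neg ht.le, ofReal_cpow ht.le]
    push_cast
    rfl
  rw [vv, h1, h2, h3, ← ofReal_mul, ← ofReal_mul, ← ofReal_mul]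
  congr 1
  rw [gh]
  have hst : √t * (√t)⁻¹ = 1 := mul_inv_cancel₀ (Real.sqrt_pos.2 ht).ne'
  have he : rexp (-(π * y ^ 2 / t)) = rexp (-(π * t * a ^ 2)) * rexp (π * t * a ^ 2 - π * y ^ 2 / t) := by
    rw [← Real.exp_add]
    congr 1
    ring
  rw [he]
  calc √t * rexp (-(π * t * a ^ 2)) * ((√t)⁻¹ * rexp (π * t * a ^ 2 - π * y ^ 2 / t) *
        Real.cos (2 * π * a * y))
      = (√t * (√t)⁻¹) * (rexp (-(π * t * a ^ 2)) * rexp (π * t * a ^ 2 - π * y ^ 2 / t) *
        Real.cos (2 * π * a * y)) := by ring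
    _ = _ := by rw [hst, one_mul]

theorem rbump {x : ℝ} (hx : 0 ≤ x) {F : ℂ → ℂ} (hF : Gen x F) {t : ℝ} (ht : 0 < t) (a : ℝ) :
    HasSum (fun n : ℕ => cf F 1 n * ((gb t a (√n) + gh t a (√n) : ℝ) : ℂ))
      ((gb t a (√x) + gh t a (√x) : ℝ) : ℂ) := by
  have h1 := (bump_id hx hF (τ := I * t) (by simpa using ht) (I * t * a)).mul_left
    (((√t * rexp (-(π * t * a ^ 2)) : ℝ) : ℂ))
  have h2 : ∀ y : ℝ, ((√t * rexp (-(π * t * a ^ 2)) : ℝ) : ℂ) *
      (uu (I * t) (I * t * a) y + vv (I * t) (I * t * a) y) = ((gb t a y + gh t a y : ℝ) : ℂ) := by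
    intro y
    rw [mul_add, Bump_uu ht, Bump_vv ht, ofReal_add]
  rw [h2] at h1
  refine h1.congr_fun fun n => ?_
  rw [← h2]
  ring

end Pool.Agent.Helper31.FI
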