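import Pool.Agent.Helper31.FI.Mult

/-!
# FI-CM: the multiplier along a chain

See the header of `Mult` (second half).
-/

set_option autoImplicit false

namespace Pool.Agent.Helper31.FI

open Complex Real

private theorem cm_pow {A B : ℂ} (hA : A.im < 0) (hB : B.im < 0) (hq : (B / A).im < 0) :
    (I * (B / A)) ^ (1 / 2 : ℂ) * A ^ (1 / 2 : ℂ) = cexp (π * I / 4) * B ^ (1 / 2 : ℂ) := by
  have hA0 : A ≠ 0 := by
    rintro rfl
    simp at hA
  have hB0 : B ≠ 0 := by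
    rintro rfl
    simp at hB
  have hq0 : B / A ≠ 0 := div_ne_zero hB0 hA0
  have a1 : arg A < 0 := Complex.arg_neg_iff.2 hA
  have a2 := Complex.neg_pi_lt_arg A
  have b1 : arg B < 0 := Complex.arg_neg_iff.2 hB
  have b2 := Complex.neg_pi_lt_arg B
  have q1 : arg (B / A) < 0 := Complex.arg_neg_iff.2 hq
  have q2 := Complex.neg_pi_lt_arg (B / A)
  have hpi := Real.pi_pos
  have hAp : arg A ≠ π := by linarith
  have l1 : Complex.log (B / A) = Complex.log B - Complex.log A := by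
    rw [div_eq_mul_inv, (Complex.log_mul_eq_add_log_iff hB0 (inv_ne_zero hA0)).2 ?_,
      Complex.log_inv _ hAp]
    · ring
    · rw [Complex.arg_inv, if_neg hAp]
      constructor <;> linarith
  have l2 : Complex.log (I * (B / A)) = Complex.log I + Complex.log (B / A) := by
    refine (Complex.log_mul_eq_add_log_iff I_ne_zero hq0).2 ?_
    rw [Complex.arg_I]
    constructor <;> linarith
  rw [Complex.cpow_def_of_ne_zero (mul_ne_zero I_ne_zero hq0), Complex.cpow_def_of_ne_zero hA0,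
    Complex.cpow_def_of_ne_zero hB0, l2, l1, Complex.log_I, ← Complex.exp_add, ← Complex.exp_add]
  congr 1
  ring

private theorem cm_X {j m c d : ℤ} (hj : 1 ≤ j) (hdet : c * m - j * d = 1) (τ : ℂ) :
    1 - ((c : ℂ) / j) * (j ^ 2 * τ + j * m) = -(j * (c * τ + d)) := by
  have hj0 : (j : ℂ) ≠ 0 := by
    have : j ≠ 0 := by omega
    exact_mod_cast this
  have hdet' : (c : ℂ) * m - j * d = 1 := by exact_mod_cast hdet
  field_simp
  linear_combination -hdet'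

private theorem cm_Xim {j c d : ℤ} (hj : 1 ≤ j) (hc : 1 ≤ c) {τ : ℂ} (hτ : 0 < τ.im) :
    (-(j * (c * τ + d)) : ℂ).im < 0 := by
  have h1 : (-(j * (c * τ + d)) : ℂ).im = -(j * (c * τ.im)) := by simp
  rw [h1]
  have hj' : (1 : ℝ) ≤ j := by exact_mod_cast hj
  have hc' : (1 : ℝ) ≤ c := by exact_mod_cast hc
  have : 0 < (j : ℝ) * (c * τ.im) := by positivity
  linarith

theorem chain_step {τ : ℂ} (hτ : 0 < τ.im) {j m c d : ℤ} (hj : 1 ≤ j) (hc : 1 ≤ c)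
    (hdet : c * m - j * d = 1) :
    jacobiTheta (gm j m (c + j) (d + m) τ) * (1 - ((c : ℂ) / j) * (j ^ 2 * τ + j * m)) ^ (1 / 2 : ℂ) =
      cexp (π * I / 4) * (1 - (((c : ℂ) + j) / j) * (j ^ 2 * τ + j * m)) ^ (1 / 2 : ℂ) *
        jacobiTheta (gm j m c d τ) := by
  have hj0 : (j : ℂ) ≠ 0 := by
    have : j ≠ 0 := by omega
    exact_mod_cast this
  have e1 := cm_X hj hdet τ
  have hdet2 : (c + j) * m - j * (d + m) = 1 := by linear_combination hdet
  have e2 := cm_X hj hdet2 τ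
  have e2' : (1 - (((c : ℂ) + j) / j) * (j ^ 2 * τ + j * m)) =
      -(j * (((c + j : ℤ) : ℂ) * τ + ((d + m : ℤ) : ℂ))) := by
    rw [← e2]
    push_cast
    ring
  rw [e1, e2']
  have i1 := cm_Xim (d := d) hj hc hτ
  have i2 := cm_Xim (d := d + m) hj (show 1 ≤ c + j by omega) hτ
  obtain ⟨-, n1⟩ := mult_im (c - j) (d - m) c d (by linear_combination hdet) τ hτ
  obtain ⟨-, n2⟩ := mult_im c d (c + j) (d + m) (by linear_combination hdet) τ hτ
  obtain ⟨p1, -⟩ := mult_im (-j) (-m) c d (by linear_combination hdet) τ hτ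
  set z : ℂ := (j * τ + m) / (c * τ + d) with hz
  have hzim : z.im < 0 := by
    have : z = -((((-j : ℤ) : ℂ) * τ + ((-m : ℤ) : ℂ)) / (c * τ + d)) := by
      rw [hz, ← neg_div]
      congr 1
      push_cast
      ring
    rw [this, Complex.neg_im]
    linarith
  have hq : -(j * (((c + j : ℤ) : ℂ) * τ + ((d + m : ℤ) : ℂ))) / -(j * (c * τ + d)) = 1 + z := by
    rw [neg_div_neg_eq, mul_div_mul_left _ _ hj0, hz, div_eq_iff n1, add_mul, div_mul_cancel₀ _ n1]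
    push_cast
    ring
  have g1 : gm j m c d τ = 1 - z := rfl
  have hz1 : 1 + z ≠ 0 := by
    intro h
    have h2 := congrArg Complex.im h
    simp at h2
    linarith
  have g2 : gm j m (c + j) (d + m) τ = -1 / (1 - z - 2) := by
    have hA : (((c + j : ℤ) : ℂ) * τ + ((d + m : ℤ) : ℂ)) = (1 + z) * (c * τ + d) := by
      rw [hz, add_mul, div_mul_cancel₀ _ n1]
      push_cast
      ring
    have hB : (j * τ + m : ℂ) = z * (c * τ + d) := by
      rw [hz, div_mul_cancel₀ _ n1]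
    rw [gm, hA, hB, mul_div_mul_right _ _ n1, show (1 - z - 2 : ℂ) = -(1 + z) by ring, neg_div_neg_eq,
      eq_div_iff hz1, sub_mul, div_mul_cancel₀ _ hz1]
    ring
  have hw : 0 < (1 - z - 2 : ℂ).im := by
    simp
    linarith
  have hth := theta_inv hw
  have hsh : jacobiTheta (1 - z - 2) = jacobiTheta (1 - z) := by
    rw [← jacobiTheta_two_add]
    congr 1
    ring
  have hc2 := cm_pow i1 i2 (by rw [hq]; simp; linarith)
  rw [hq] at hc2
  rw [g2, g1, hth, hsh, show -I * (1 - z - 2) = I * (1 + z) by ring]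
  linear_combination jacobiTheta (1 - z) * hc2

private theorem cm_half {X : ℂ} (hX : X ≠ 0) : X ^ (1 / 2 : ℂ) ≠ 0 ∧ (X ^ (1 / 2 : ℂ)) ^ 2 = X ∧
    X ^ (-(1 / 2) : ℂ) = (X ^ (1 / 2 : ℂ))⁻¹ := by
  refine ⟨?_, ?_, Complex.cpow_neg _ _⟩
  · rw [Complex.cpow_def_of_ne_zero hX]
    exact Complex.exp_ne_zero _
  · rw [← Complex.cpow_nat_mul]
    norm_num

theorem chain_mult {j m c₀ d₀ : ℤ} (hj : 1 ≤ j) (hjo : Odd j) (hm : Odd m) (hc : 1 ≤ c₀)
    (hdet : c₀ * m - j * d₀ = 1) :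
    ∃ κ : ℂ, ‖κ‖ = 1 ∧ ∀ (i : ℕ) (τ : ℂ), 0 < τ.im →
      (-1 : ℂ) ^ (c₀ + i * j) * (jacobiTheta τ / jacobiTheta (gm j m (c₀ + i * j) (d₀ + i * m) τ)) =
        κ * ze ^ i * (√(j : ℝ) : ℝ) *
          (1 - ((c₀ : ℂ) / j + i) * (j ^ 2 * τ + j * m)) ^ (-(1 / 2) : ℂ) := by
  have hj0 : (j : ℂ) ≠ 0 := by
    have : j ≠ 0 := by omega
    exact_mod_cast this
  have hjR : (0 : ℝ) < j := by
    have : 0 < j := by omega
    exact_mod_cast this
  have hdet' : ∀ i : ℕ, (c₀ + i * j) * m - j * (d₀ + i * m) = 1 := by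
    intro i
    linear_combination hdet
  have hci : ∀ i : ℕ, 1 ≤ c₀ + i * j := by
    intro i
    have : 0 ≤ (i : ℤ) * j := by positivity
    omega
  -- the factor `X i`
  have hX : ∀ (i : ℕ) (τ : ℂ), (1 - ((c₀ : ℂ) / j + i) * (j ^ 2 * τ + j * m)) =
      1 - (((c₀ + i * j : ℤ) : ℂ) / j) * (j ^ 2 * τ + j * m) := by
    intro i τ
    push_cast
    field_simp
  have hXim : ∀ (i : ℕ) (τ : ℂ), 0 < τ.im →
      (1 - ((c₀ : ℂ) / j + i) * (j ^ 2 * τ + j * m)).im < 0 := by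
    intro i τ hτ
    rw [hX, cm_X hj (hdet' i)]
    exact cm_Xim hj (hci i) hτ
  have hX0 : ∀ (i : ℕ) (τ : ℂ), 0 < τ.im →
      (1 - ((c₀ : ℂ) / j + i) * (j ^ 2 * τ + j * m)) ≠ 0 := by
    intro i τ hτ h
    have := hXim i τ hτ
    rw [h] at this
    simp at this
  have hgim : ∀ (i : ℕ) (τ : ℂ), 0 < τ.im →
      0 < (gm j m (c₀ + i * j) (d₀ + i * m) τ).im ∧ gm j m (c₀ + i * j) (d₀ + i * m) τ =
        (((c₀ + i * j - j : ℤ) : ℂ) * τ + ((d₀ + i * m - m : ℤ) : ℂ)) /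
          (((c₀ + i * j : ℤ) : ℂ) * τ + ((d₀ + i * m : ℤ) : ℂ)) := by
    intro i τ hτ
    obtain ⟨h1, h2⟩ := mult_im (c₀ + i * j - j) (d₀ + i * m - m) (c₀ + i * j) (d₀ + i * m)
      (by linear_combination hdet) τ hτ
    have e : gm j m (c₀ + i * j) (d₀ + i * m) τ =
        (((c₀ + i * j - j : ℤ) : ℂ) * τ + ((d₀ + i * m - m : ℤ) : ℂ)) /
          (((c₀ + i * j : ℤ) : ℂ) * τ + ((d₀ + i * m : ℤ) : ℂ)) := by
      rw [gm, eq_div_iff h2, sub_mul, div_mul_cancel₀ _ h2]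
      push_cast
      ring
    rw [e]
    exact ⟨h1, rfl⟩
  -- the quantity `G i`
  set G : ℕ → ℂ → ℂ := fun i τ => (-1 : ℂ) ^ (c₀ + i * j) *
    (jacobiTheta τ / jacobiTheta (gm j m (c₀ + i * j) (d₀ + i * m) τ)) *
      (1 - ((c₀ : ℂ) / j + i) * (j ^ 2 * τ + j * m)) ^ (1 / 2 : ℂ) with hG
  have hstep : ∀ (i : ℕ) (τ : ℂ), 0 < τ.im → G (i + 1) τ = ze * G i τ := by
    intro i τ hτ
    have h1 := chain_step hτ hj (hci i) (hdet' i)
    have t0 := theta_ne (hgim i τ hτ).1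
    have t1 := theta_ne (hgim (i + 1) τ hτ).1
    have x0 := (cm_half (hX0 i τ hτ)).1
    have x1 := (cm_half (hX0 (i + 1) τ hτ)).1
    have e1 : gm j m (c₀ + i * j + j) (d₀ + i * m + m) τ =
        gm j m (c₀ + ((i + 1 : ℕ) : ℤ) * j) (d₀ + ((i + 1 : ℕ) : ℤ) * m) τ := by
      congr 1 <;> push_cast <;> ring
    have e2 : (1 - ((((c₀ + i * j : ℤ) : ℂ) + j) / j) * (j ^ 2 * τ + j * m)) =
        1 - ((c₀ : ℂ) / j + ((i + 1 : ℕ) : ℂ)) * (j ^ 2 * τ + j * m) := by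
      push_cast
      field_simp
      ring
    rw [e1, e2, ← hX i τ] at h1
    have e3 : (-1 : ℂ) ^ (c₀ + ((i + 1 : ℕ) : ℤ) * j) = -(-1 : ℂ) ^ (c₀ + (i : ℤ) * j) := by
      have : c₀ + ((i + 1 : ℕ) : ℤ) * j = (c₀ + (i : ℤ) * j) + j := by push_cast; ring
      rw [this, zpow_add₀ (by norm_num), hjo.neg_one_zpow]
      ring
    have e4 : ze * cexp (π * I / 4) = -1 := by
      rw [ze, ← Complex.exp_add, show 3 * (π : ℂ) * I / 4 + π * I / 4 = π * I by ring,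
        Complex.exp_pi_mul_I]
    simp only [hG]
    rw [e3]
    generalize (1 - ((c₀ : ℂ) / j + ((i + 1 : ℕ) : ℂ)) * (j ^ 2 * τ + j * m)) ^ (1 / 2 : ℂ) = Y1 at *
    generalize (1 - ((c₀ : ℂ) / j + i) * (j ^ 2 * τ + j * m)) ^ (1 / 2 : ℂ) = Y0 at *
    generalize jacobiTheta (gm j m (c₀ + ((i + 1 : ℕ) : ℤ) * j) (d₀ + ((i + 1 : ℕ) : ℤ) * m) τ) = T1 at *
    generalize jacobiTheta (gm j m (c₀ + (i : ℤ) * j) (d₀ + (i : ℤ) * m) τ) = T0 at *
    generalize (-1 : ℂ) ^ (c₀ + (i : ℤ) * j) = S at *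
    field_simp
    linear_combination -(S * ze * jacobiTheta τ) * h1 - S * jacobiTheta τ * Y1 * T0 * e4
  -- the base
  have hpar : Even ((c₀ - j) * (d₀ - m)) ∧ Even (c₀ * d₀) := by
    have h0 : ¬ Even (c₀ * m - j * d₀) := by rw [hdet]; decide
    rw [Int.even_sub, Int.even_mul, Int.even_mul] at h0
    have hj' : ¬ Even j := Int.not_even_iff_odd.2 hjo
    have hm' : ¬ Even m := Int.not_even_iff_odd.2 hm
    constructor
    · rw [Int.even_mul, Int.even_sub, Int.even_sub]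
      tauto
    · rw [Int.even_mul]
      tauto
  obtain ⟨κ₀, hκ₀, hκ⟩ := theta_mult (c₀ - j) (d₀ - m) c₀ d₀ (by linear_combination hdet) hpar.1 hpar.2
  have hκne : κ₀ ≠ 0 := by
    intro h
    rw [h] at hκ₀
    simp at hκ₀
  have hG0 : ∀ τ : ℂ, 0 < τ.im → G 0 τ ^ 2 = -j / κ₀ := by
    intro τ hτ
    have h1 := hκ τ hτ
    obtain ⟨g1, g2⟩ := hgim 0 τ hτ
    have t0 := theta_ne g1
    have t1 := theta_ne hτ
    have e0 : gm j m (c₀ + ((0 : ℕ) : ℤ) * j) (d₀ + ((0 : ℕ) : ℤ) * m) τ =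
        (((c₀ - j : ℤ) : ℂ) * τ + ((d₀ - m : ℤ) : ℂ)) / (c₀ * τ + d₀) := by
      rw [g2]
      congr 1 <;> push_cast <;> ring
    rw [← e0] at h1
    have h2 := (cm_half (hX0 0 τ hτ)).2.1
    have h3 : (1 - ((c₀ : ℂ) / j + ((0 : ℕ) : ℂ)) * (j ^ 2 * τ + j * m)) = -(j * (c₀ * τ + d₀)) := by
      rw [← cm_X hj hdet τ]
      simp
    have h4 : ((-1 : ℂ) ^ (c₀ + ((0 : ℕ) : ℤ) * j)) ^ 2 = 1 := by
      rw [← zpow_natCast, ← zpow_mul, mul_comm, zpow_mul]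
      simp
    have hn : (c₀ * τ + d₀ : ℂ) ≠ 0 := (mult_im (c₀ - j) (d₀ - m) c₀ d₀ (by linear_combination hdet) τ hτ).2
    simp only [hG]
    rw [mul_pow, mul_pow, h4, h2, h3, div_pow, h1]
    field_simp
  have hcont : ContinuousOn (G 0) {τ : ℂ | 0 < τ.im} := by
    intro τ hτ
    have hτ' : 0 < τ.im := hτ
    apply ContinuousAt.continuousWithinAt
    obtain ⟨g1, g2⟩ := hgim 0 τ hτ'
    obtain ⟨-, hn⟩ := mult_im (c₀ + ((0 : ℕ) : ℤ) * j - j) (d₀ + ((0 : ℕ) : ℤ) * m - m)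
      (c₀ + ((0 : ℕ) : ℤ) * j) (d₀ + ((0 : ℕ) : ℤ) * m) (by linear_combination hdet) τ hτ'
    have c1 : ContinuousAt jacobiTheta τ := (differentiableAt_jacobiTheta hτ').continuousAt
    have c2 : ContinuousAt (fun τ => gm j m (c₀ + ((0 : ℕ) : ℤ) * j) (d₀ + ((0 : ℕ) : ℤ) * m) τ) τ := by
      unfold gm
      refine ContinuousAt.sub continuousAt_const (ContinuousAt.div ?_ ?_ hn)
      · fun_prop
      · fun_prop
    have c3 : ContinuousAt (fun τ => jacobiTheta (gm j m (c₀ + ((0 : ℕ) : ℤ) * j)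
        (d₀ + ((0 : ℕ) : ℤ) * m) τ)) τ :=
      ContinuousAt.comp (f := fun τ => gm j m (c₀ + ((0 : ℕ) : ℤ) * j) (d₀ + ((0 : ℕ) : ℤ) * m) τ)
        (differentiableAt_jacobiTheta g1).continuousAt c2
    have c4 : ContinuousAt (fun τ : ℂ => (1 - ((c₀ : ℂ) / j + ((0 : ℕ) : ℂ)) *
        (j ^ 2 * τ + j * m)) ^ (1 / 2 : ℂ)) τ := by
      refine ContinuousAt.cpow (by fun_prop) continuousAt_const ?_
      right
      exact (hXim 0 τ hτ').ne
    exact (continuousAt_const.mul (c1.div c3 (theta_ne g1))).mul c4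
  have hGI := hG0 I (by simp)
  set K : ℂ := G 0 I with hK
  have hKne : K ≠ 0 := by
    intro h
    rw [h] at hGI
    exact (div_ne_zero (neg_ne_zero.2 hj0) hκne) (by rw [← hGI]; simp)
  have hbase : ∀ τ : ℂ, 0 < τ.im → G 0 τ = K := by
    have hpre : IsPreconnected {τ : ℂ | 0 < τ.im} :=
      (convex_halfSpace_im_gt 0).isPreconnected
    have h1 := hpre.eq_of_sq_eq (g := fun _ => K) hcont continuousOn_const ?_ ?_
      (y := I) (by simp) rfl
    · intro τ hτ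
      exact h1 hτ
    · intro τ hτ
      simp only [Pi.pow_apply]
      rw [hG0 τ hτ, hGI]
    · intro τ _
      exact hKne
  have hGi : ∀ (i : ℕ) (τ : ℂ), 0 < τ.im → G i τ = ze ^ i * K := by
    intro i τ hτ
    induction i with
    | zero => rw [hbase τ hτ]; simp
    | succ i ih =>
      rw [hstep i τ hτ, ih, pow_succ]
      ring
  have hs : ((√(j : ℝ) : ℝ) : ℂ) ≠ 0 := by
    have := Real.sqrt_pos.2 hjR
    exact_mod_cast this.ne'
  refine ⟨K / (√(j : ℝ) : ℝ), ?_, ?_⟩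
  · have h1 : ‖K‖ ^ 2 = j := by
      rw [← norm_pow, hGI, norm_div, norm_neg, hκ₀, div_one]
      have : ((j : ℤ) : ℂ) = ((j : ℝ) : ℂ) := by norm_cast
      rw [this, Complex.norm_real, Real.norm_eq_abs, abs_of_pos hjR]
    have h2 : ‖K‖ = √(j : ℝ) := by
      rw [← h1, Real.sqrt_sq (norm_nonneg _)]
    rw [norm_div, Complex.norm_real, Real.norm_eq_abs, abs_of_pos (Real.sqrt_pos.2 hjR), h2]
    exact div_self (Real.sqrt_pos.2 hjR).ne'
  · intro i τ hτ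
    have h1 := hGi i τ hτ
    obtain ⟨x0, -, x2⟩ := cm_half (hX0 i τ hτ)
    rw [x2]
    simp only [hG] at h1
    rw [eq_mul_inv_iff_mul_eq₀ x0, h1]
    field_simp

end Pool.Agent.Helper31.FI
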