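import Pool.Agent.Helper31.FI.GDefs

/-!
# FI-CR: the functional equation at the cusp `1`

`G = F - ex x`.  `ana`, `per`, `inv` as in `Gen`.  `G (-1/τ) = -(-I τ)^(1/2) G τ` (from `inv`), `G (τ + 2) = G τ + (1 - exp (2 π i x)) ex x τ`.
Take `τ = 1 - 1/(z+1) = z/(z+1)`: `-1/τ + 2 = 1 - 1/z`, so
`G (1 - 1/z) = G (-1/τ) + (1 - e^{2πix}) ex x (-1/τ) = -(-I τ)^(1/2) G τ - (1 - e^{-2πix}) ex x (1 - 1/z)`.
Multiply by `(-I z)^(-1/2)`: `(-I z)^(-1/2) (-I τ)^(1/2) (-I (z+1))^(1/2) = exp (-π i/4)`: its square is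
`(-I τ)(-I (z+1))/(-I z) = -I`, all three numbers `-I z`, `-I (z+1)`, `-I τ` have positive real part, the product is continuous in `z` on the
(connected) half plane, and for `z = i Y`, `Y → ∞`, it tends to `exp (-π i/4)` (or argue with arguments directly);
`- exp (-π i/4) = ze`;  `(1 - e^{-2πix}) ex x (1 - 1/z) = 2 i sin (π x) ex x (-1/z)`.
-/

set_option autoImplicit false

namespace Pool.Agent.Helper31.FI

open Complex Real

/-- transfer of a function to the cusp `1` -/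
noncomputable def hat (G : ℂ → ℂ) (z : ℂ) : ℂ := (-I * z) ^ (-(1 / 2) : ℂ) * G (1 - 1 / z)

/-- the inhomogeneous term -/
noncomputable def Ez (x : ℝ) (z : ℂ) : ℂ := (-I * z) ^ (-(1 / 2) : ℂ) * ex x (-1 / z)

private theorem CRel_ne {z : ℂ} (hz : 0 < z.im) : z ≠ 0 := by
  rintro rfl
  simp at hz

private theorem CRel_arg {z : ℂ} (hz : 0 < z.im) : 0 < arg z ∧ arg z < π := by
  constructor
  · rcases lt_or_eq_of_le (arg_nonneg_iff.2 hz.le) with h | h
    · exact h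
    · exfalso
      have h1 := (arg_eq_zero_iff.1 h.symm).2
      exact hz.ne' h1
  · rw [arg_lt_pi_iff]
    exact Or.inr hz.ne'

private theorem CRel_log {z : ℂ} (hz : 0 < z.im) : log (-I * z) = log z - π / 2 * I := by
  have h1 := CRel_arg hz
  have h2 : log (-I * z) = log (-I) + log z := by
    rw [log_mul_eq_add_log_iff (neg_ne_zero.2 I_ne_zero) (CRel_ne hz), arg_neg_I]
    constructor
    · linarith [Real.pi_pos]
    · linarith [Real.pi_pos]
  rw [h2, log_neg_I]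
  ring

private theorem CRel_tau {z : ℂ} (hz : 0 < z.im) : 0 < (z / (z + 1)).im := by
  have hz1 : 0 < (z + 1).im := by simpa using hz
  have hne := CRel_ne hz1
  have h1 : z / (z + 1) = 1 - 1 / (z + 1) := by
    field_simp
    ring
  rw [h1, sub_im, one_im, one_div, inv_im, zero_sub, neg_div, neg_neg]
  exact div_pos hz1 (normSq_pos.2 hne)

private theorem CRel_logdiv {z : ℂ} (hz : 0 < z.im) :
    log (z / (z + 1)) = log z - log (z + 1) := by
  have hz1 : 0 < (z + 1).im := by simpa using hz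
  have h1 := CRel_arg hz
  have h2 := CRel_arg hz1
  have h3 : z / (z + 1) = cexp (log z - log (z + 1)) := by
    rw [Complex.exp_sub, exp_log (CRel_ne hz), exp_log (CRel_ne hz1)]
  conv_lhs => rw [h3]
  rw [Complex.log_exp]
  · rw [sub_im, log_im, log_im]
    linarith
  · rw [sub_im, log_im, log_im]
    linarith

private theorem CRel_cpow {z : ℂ} (hz : 0 < z.im) (s : ℂ) :
    (-I * z) ^ s = cexp ((log z - π / 2 * I) * s) := by
  rw [cpow_def_of_ne_zero (mul_ne_zero (neg_ne_zero.2 I_ne_zero) (CRel_ne hz)), CRel_log hz]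

theorem sqrt_rel {z : ℂ} (hz : 0 < z.im) :
    (-I * z) ^ (-(1 / 2) : ℂ) * (-I * (z / (z + 1))) ^ (1 / 2 : ℂ) =
      cexp (-(π * I / 4)) * (-I * (z + 1)) ^ (-(1 / 2) : ℂ) := by
  have hz1 : 0 < (z + 1).im := by simpa using hz
  rw [CRel_cpow hz, CRel_cpow (CRel_tau hz), CRel_cpow hz1, CRel_logdiv hz, ← Complex.exp_add,
    ← Complex.exp_add]
  congr 1
  ring

theorem crel {x : ℝ} {F : ℂ → ℂ} (per : ∀ τ : ℂ, 0 < τ.im → F (τ + 2) = F τ)
    (inv : ∀ τ : ℂ, 0 < τ.im → F τ + (-I * τ) ^ (-(1 / 2) : ℂ) * F (-1 / τ) =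
      ex x τ + (-I * τ) ^ (-(1 / 2) : ℂ) * ex x (-1 / τ)) {z : ℂ} (hz : 0 < z.im) :
    hat (fun τ => F τ - ex x τ) z = ze * hat (fun τ => F τ - ex x τ) (z + 1)
      - 2 * I * Real.sin (π * x) * Ez x z := by
  have hz1 : 0 < (z + 1).im := by simpa using hz
  have hne := CRel_ne hz
  have hne1 := CRel_ne hz1
  obtain ⟨τ, hτ⟩ : ∃ τ, τ = z / (z + 1) := ⟨_, rfl⟩
  have hτim : 0 < τ.im := hτ ▸ CRel_tau hz
  have hτne := CRel_ne hτim
  have hτ1 : -1 / τ = -1 - 1 / z := by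
    rw [hτ]
    field_simp
    ring
  have hτ2 : 1 - 1 / (z + 1) = τ := by
    rw [hτ]
    field_simp
    ring
  have hτ3 : 0 < (-1 / τ).im := by
    rw [neg_div, neg_im, one_div, inv_im, neg_div, neg_neg]
    exact div_pos hτim (normSq_pos.2 hτne)
  have hper : F (1 - 1 / z) = F (-1 / τ) := by
    rw [← per _ hτ3, hτ1]
    congr 1
    ring
  have hinv := inv τ hτim
  -- the square roots of `-I τ`
  have hs : (-I * τ) ^ (1 / 2 : ℂ) * (-I * τ) ^ (-(1 / 2) : ℂ) = 1 := by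
    rw [← cpow_add _ _ (mul_ne_zero (neg_ne_zero.2 I_ne_zero) hτne), add_neg_cancel, cpow_zero]
  have hG : F (-1 / τ) - ex x (-1 / τ) = -((-I * τ) ^ (1 / 2 : ℂ) * (F τ - ex x τ)) := by
    linear_combination (-(F (-1 / τ) - ex x (-1 / τ))) * hs + (-I * τ) ^ (1 / 2 : ℂ) * hinv
  have hsq := sqrt_rel hz
  rw [← hτ] at hsq
  have hex : ex x (-1 / τ) - ex x (1 - 1 / z) = -(2 * I * Real.sin (π * x) * ex x (-1 / z)) := by
    have h1 : ex x (-1 / τ) = cexp (-(π * x * I)) * ex x (-1 / z) := by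
      unfold ex
      rw [← Complex.exp_add, hτ1]
      congr 1
      ring
    have h2 : ex x (1 - 1 / z) = cexp (π * x * I) * ex x (-1 / z) := by
      unfold ex
      rw [← Complex.exp_add]
      congr 1
      ring
    have h3 : 2 * I * (Real.sin (π * x) : ℂ) = cexp (π * x * I) - cexp (-(π * x * I)) := by
      rw [ofReal_sin, ofReal_mul, Complex.sin, neg_mul]
      linear_combination (cexp (-(π * x * I)) - cexp (π * x * I)) * I_mul_I
    rw [h1, h2, h3]
    ring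
  have hze : ze = -cexp (-(π * I / 4)) := by
    unfold ze
    have h1 : (3 * π * I / 4 : ℂ) = π * I + -(π * I / 4) := by ring
    rw [h1, Complex.exp_add, Complex.exp_pi_mul_I]
    ring
  unfold hat Ez
  rw [hτ2, hze]
  change (-I * z) ^ (-(1 / 2) : ℂ) * (F (1 - 1 / z) - ex x (1 - 1 / z)) =
    -cexp (-(π * I / 4)) * ((-I * (z + 1)) ^ (-(1 / 2) : ℂ) * (F τ - ex x τ)) -
      2 * I * Real.sin (π * x) * ((-I * z) ^ (-(1 / 2) : ℂ) * ex x (-1 / z))
  rw [hper]
  linear_combination (-I * z) ^ (-(1 / 2) : ℂ) * hG + (-I * z) ^ (-(1 / 2) : ℂ) * hex -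
    (F τ - ex x τ) * hsq

end Pool.Agent.Helper31.FI
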