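import Pool.Agent.Helper31.FI.Term

/-!
# FI-RT: the set `{u : rho N u > ν}`

`0 < ν ≤ N/2`: `rho N u > ν` iff `ν u² - u + ν/N² < 0` iff `al N ν < u < be N ν`.
`al ≤ 2 ν / N² ≤ 1/N ≤ be ≤ 1/ν`, `1/ν - be = al ≤ 2 ν / N²`, and for `u` in `(0, 1/N]`: `u < al N ν` implies `rho N u < ν`
and conversely (`rho` is increasing there).  `rho N u ≤ N/2` always; `rho N u ≤ 1/u` for `u > 0`.
`be_int`: on `[be, 1/ν]`, `y = u + i/N`, `r = ν/N ≤ 1/2`: `0 ≤ 1 - ν u ≤ 2 r² ≤ r`, so `r ≤ |X| ≤ √2 r`,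
`‖gk‖ ≤ r^(-1/2) exp (π - π x N / (2 ν²)) ≤ r^(-1/2) exp (π - 2 π L)`; length `≤ 2 ν/N²`:
`≤ 2 √ν N^(-3/2) exp (π - 2 π L) ≤ 50 √ν N^(-3/2) exp (-L)`.
-/

set_option autoImplicit false

namespace Pool.Agent.Helper31.FI

open Complex Real Finset MeasureTheory

/-- smaller root -/
noncomputable def al (N ν : ℝ) : ℝ := (1 - √(1 - 4 * ν ^ 2 / N ^ 2)) / (2 * ν)

/-- larger root -/
noncomputable def be (N ν : ℝ) : ℝ := (1 + √(1 - 4 * ν ^ 2 / N ^ 2)) / (2 * ν)

/-- the discriminant -/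
private lemma Roots_disc {N ν : ℝ} (hN : 0 < N) (hν : 0 < ν) (hνN : ν ≤ N / 2) :
    0 ≤ 1 - 4 * ν ^ 2 / N ^ 2 := by
  have h1 : 4 * ν ^ 2 ≤ N ^ 2 := by nlinarith
  have h2 : 4 * ν ^ 2 / N ^ 2 ≤ 1 := by
    rw [div_le_one (by positivity)]
    exact h1
  linarith

private lemma Roots_den {N : ℝ} (hN : 0 < N) (u : ℝ) : 0 < u ^ 2 + (1 / N) ^ 2 := by positivity

/-- the factorization -/
private lemma Roots_fac {N ν : ℝ} (hN : 0 < N) (hν : 0 < ν) (hνN : ν ≤ N / 2) (u : ℝ) :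
    ν * (u ^ 2 + (1 / N) ^ 2) - u = ν * ((u - al N ν) * (u - be N ν)) := by
  have h1 := Real.sq_sqrt (Roots_disc hN hν hνN)
  unfold al be
  set q := √(1 - 4 * ν ^ 2 / N ^ 2) with hq
  have hν0 : ν ≠ 0 := hν.ne'
  have hN0 : N ≠ 0 := hN.ne'
  have h2 : ν * ((u - (1 - q) / (2 * ν)) * (u - (1 + q) / (2 * ν))) =
      ν * u ^ 2 - u + (1 - q ^ 2) / (4 * ν) := by
    field_simp
    ring
  rw [h2, h1]
  field_simp
  ring

private lemma Roots_le {N ν : ℝ} (hν : 0 < ν) : al N ν ≤ be N ν := by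
  unfold al be
  have h0 := Real.sqrt_nonneg (1 - 4 * ν ^ 2 / N ^ 2)
  gcongr
  linarith

theorem rho_gt_iff {N ν u : ℝ} (hN : 0 < N) (hν : 0 < ν) (hνN : ν ≤ N / 2) :
    ν < rho N u ↔ al N ν < u ∧ u < be N ν := by
  have h1 := Roots_fac hN hν hνN u
  have h2 := Roots_le (N := N) hν
  unfold rho
  rw [lt_div_iff₀ (Roots_den hN u)]
  constructor
  · intro h
    have h3 : ν * ((u - al N ν) * (u - be N ν)) < 0 := by rw [← h1]; linarith
    have h4 : (u - al N ν) * (u - be N ν) < 0 := by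
      by_contra hc
      push Not at hc
      have := mul_nonneg hν.le hc
      linarith
    rcases mul_neg_iff.1 h4 with ⟨h5, h6⟩ | ⟨h5, h6⟩
    · exact ⟨by linarith, by linarith⟩
    · exfalso; linarith
  · rintro ⟨h3, h4⟩
    have h5 : (u - al N ν) * (u - be N ν) < 0 :=
      mul_neg_of_pos_of_neg (by linarith) (by linarith)
    have h6 : ν * ((u - al N ν) * (u - be N ν)) < 0 := mul_neg_of_pos_of_neg hν h5
    rw [← h1] at h6
    linarith

theorem al_be {N ν : ℝ} (hN : 0 < N) (hν : 0 < ν) (hνN : ν ≤ N / 2) :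
    0 ≤ al N ν ∧ al N ν ≤ 2 * ν / N ^ 2 ∧ al N ν ≤ 1 / N ∧ 1 / N ≤ be N ν ∧ be N ν = 1 / ν - al N ν := by
  have hd := Roots_disc hN hν hνN
  have hs := Real.sq_sqrt hd
  have hq0 := Real.sqrt_nonneg (1 - 4 * ν ^ 2 / N ^ 2)
  have hle := Roots_le (N := N) hν
  have hq1 : √(1 - 4 * ν ^ 2 / N ^ 2) ≤ 1 := by
    rw [Real.sqrt_le_one]
    have : 0 ≤ 4 * ν ^ 2 / N ^ 2 := by positivity
    linarith
  have hfac := Roots_fac hN hν hνN (1 / N)
  have h0 : 0 ≤ al N ν := by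
    unfold al
    apply div_nonneg (by linarith) (by linarith)
  have hsum : be N ν = 1 / ν - al N ν := by
    unfold al be
    field_simp
    ring
  have h3 : al N ν ≤ 2 * ν / N ^ 2 := by
    unfold al
    rw [div_le_iff₀ (by linarith)]
    have e : 2 * ν / N ^ 2 * (2 * ν) = 4 * ν ^ 2 / N ^ 2 := by ring
    rw [e]
    nlinarith
  have h4 : ν * (((1 : ℝ) / N - al N ν) * (1 / N - be N ν)) ≤ 0 := by
    rw [← hfac]
    have e : ν * ((1 / N) ^ 2 + (1 / N) ^ 2) - 1 / N = (2 * ν - N) / N ^ 2 := by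
      field_simp
      ring
    rw [e]
    apply div_nonpos_of_nonpos_of_nonneg (by linarith) (by positivity)
  have h5 : ((1 : ℝ) / N - al N ν) * (1 / N - be N ν) ≤ 0 := by
    by_contra hc
    push Not at hc
    have := mul_pos hν hc
    linarith
  have h6 : al N ν ≤ 1 / N ∧ 1 / N ≤ be N ν := by
    rcases mul_nonpos_iff.1 h5 with ⟨h7, h8⟩ | ⟨h7, h8⟩
    · exact ⟨by linarith, by linarith⟩
    · exact ⟨by linarith, by linarith⟩
  exact ⟨h0, h3, h6.1, h6.2, hsum⟩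

theorem rho_le {N u : ℝ} (hN : 0 < N) : rho N u ≤ N / 2 := by
  unfold rho
  rw [div_le_iff₀ (Roots_den hN u)]
  have h : 0 ≤ (N * u - 1) ^ 2 / (2 * N) := by positivity
  have e : (N * u - 1) ^ 2 / (2 * N) = N / 2 * (u ^ 2 + (1 / N) ^ 2) - u := by
    field_simp
    ring
  linarith

theorem rho_lt {N u : ℝ} (hN : 0 < N) (hu : 0 < u) : rho N u < 1 / u := by
  unfold rho
  rw [div_lt_div_iff₀ (Roots_den hN u) hu]
  have : 0 < (1 / N) ^ 2 := by positivity
  nlinarith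

theorem lt_al_iff {N ν u : ℝ} (hN : 0 < N) (hν : 0 < ν) (hνN : ν ≤ N / 2) (hu : 0 < u)
    (hu' : u ≤ 1 / N) : u < al N ν ↔ rho N u < ν := by
  have h1 := Roots_fac hN hν hνN u
  have h2 := Roots_le (N := N) hν
  obtain ⟨_, _, _, hbe, _⟩ := al_be hN hν hνN
  unfold rho
  rw [div_lt_iff₀ (Roots_den hN u)]
  constructor
  · intro h
    have h3 : 0 < (u - al N ν) * (u - be N ν) :=
      mul_pos_of_neg_of_neg (by linarith) (by linarith)
    have h4 := mul_pos hν h3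
    rw [← h1] at h4
    linarith
  · intro h
    by_contra hc
    push Not at hc
    have h3 : (u - al N ν) * (u - be N ν) ≤ 0 :=
      mul_nonpos_of_nonneg_of_nonpos (by linarith) (by linarith)
    have h4 := mul_nonpos_of_nonneg_of_nonpos hν.le h3
    rw [← h1] at h4
    linarith

theorem be_int {x N ν L : ℝ} (hx : 0 < x) (hN : 0 < N) (hν : 0 < ν) (hνN : ν ≤ N / 2) (hL : 1 ≤ L)
    (hV : ν ≤ √(x * N / L) / 2) :
    ‖∫ u in (be N ν)..(1 / ν), gk x N ν (u + I / N)‖ ≤ 50 * (√ν / (N * √N)) * rexp (-L) := by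
  obtain ⟨hal0, hal1, _, _, hbe⟩ := al_be hN hν hνN
  have hlen : |1 / ν - be N ν| ≤ 2 * ν / N ^ 2 := by
    rw [hbe]
    have e : 1 / ν - (1 / ν - al N ν) = al N ν := by ring
    rw [e, abs_of_nonneg hal0]
    exact hal1
  have hble : be N ν ≤ 1 / ν := by linarith
  -- `ν² ≤ x N / (4 L)`
  have hV2 : 4 * L * ν ^ 2 ≤ x * N := by
    have h1 : (2 * ν) ^ 2 ≤ (√(x * N / L)) ^ 2 := by
      apply pow_le_pow_left₀ (by positivity)
      linarith
    rw [Real.sq_sqrt (by positivity)] at h1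
    rw [le_div_iff₀ (by linarith)] at h1
    linarith
  have hr0 : 0 < ν / N := by positivity
  have hr1 : ν / N ≤ 1 / 2 := by
    rw [div_le_iff₀ hN]
    linarith
  have hbound : ∀ u ∈ Set.uIoc (be N ν) (1 / ν),
      ‖gk x N ν (u + I / N)‖ ≤ (ν / N) ^ (-(1 / 2) : ℝ) * rexp (-L) := by
    intro u hu
    rw [Set.uIoc_of_le hble] at hu
    obtain ⟨hu1, hu2⟩ := hu
    have him : ((u : ℂ) + I / N).im = 1 / N := by
      have e : (I : ℂ) / N = ((1 / N : ℝ) : ℂ) * I := by push_cast; ring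
      rw [e, Complex.add_im, Complex.ofReal_im, Complex.im_ofReal_mul, Complex.I_im]
      ring
    have hy : 0 < ((u : ℂ) + I / N).im := by rw [him]; positivity
    rw [norm_gk hy hν.le, him]
    -- the norm of `X`
    have hX : (1 : ℂ) - ν * ((u : ℂ) + I / N) = ((1 - ν * u : ℝ) : ℂ) + ((-(ν / N) : ℝ) : ℂ) * I := by
      push_cast
      ring
    have hXn : ‖(1 : ℂ) - ν * ((u : ℂ) + I / N)‖ ^ 2 = (1 - ν * u) ^ 2 + (ν / N) ^ 2 := by
      rw [hX, ← Complex.normSq_eq_norm_sq, Complex.normSq_add_mul_I]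
      ring
    set X := ‖(1 : ℂ) - ν * ((u : ℂ) + I / N)‖ with hXdef
    have hX0 : 0 ≤ X := norm_nonneg _
    have hw0 : 0 ≤ 1 - ν * u := by
      have : ν * u ≤ ν * (1 / ν) := mul_le_mul_of_nonneg_left hu2 hν.le
      rw [mul_one_div_cancel hν.ne'] at this
      linarith
    have hw1 : 1 - ν * u ≤ ν / N := by
      have h1 : ν * be N ν ≤ ν * u := mul_le_mul_of_nonneg_left hu1.le hν.le
      have h2 : ν * be N ν = 1 - ν * al N ν := by
        rw [hbe, mul_sub, mul_one_div_cancel hν.ne']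
      have h3 : ν * al N ν ≤ ν * (2 * ν / N ^ 2) := mul_le_mul_of_nonneg_left hal1 hν.le
      have h4 : ν * (2 * ν / N ^ 2) = 2 * (ν / N) * (ν / N) := by
        field_simp
      have h5 : 2 * (ν / N) * (ν / N) ≤ 1 * (ν / N) := by
        apply mul_le_mul_of_nonneg_right _ hr0.le
        linarith
      linarith
    have hXge : ν / N ≤ X := by
      apply le_of_sq_le_sq _ hX0
      rw [hXn]
      nlinarith [sq_nonneg (1 - ν * u)]
    have hXle : X ^ 2 ≤ 2 * (ν / N) ^ 2 := by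
      rw [hXn]
      nlinarith
    have hXpos : 0 < X := lt_of_lt_of_le hr0 hXge
    apply mul_le_mul
    · apply Real.rpow_le_rpow_of_nonpos hr0 hXge (by norm_num)
    · apply Real.exp_le_exp.2
      have e1 : π * N * (1 / N) = π := by field_simp
      rw [e1]
      have h1 : 2 * π * L ≤ π * x * (1 / N) / X ^ 2 := by
        rw [le_div_iff₀ (by positivity)]
        have h2 : 2 * π * L * X ^ 2 ≤ 2 * π * L * (2 * (ν / N) ^ 2) := by
          apply mul_le_mul_of_nonneg_left hXle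
          have := Real.pi_pos
          positivity
        have h3 : 2 * π * L * (2 * (ν / N) ^ 2) = π * (4 * L * ν ^ 2) / N ^ 2 := by
          field_simp
          ring
        have h4 : π * (4 * L * ν ^ 2) / N ^ 2 ≤ π * (x * N) / N ^ 2 := by
          apply div_le_div_of_nonneg_right _ (by positivity)
          exact mul_le_mul_of_nonneg_left hV2 Real.pi_pos.le
        have h5 : π * (x * N) / N ^ 2 = π * x * (1 / N) := by
          field_simp
        linarith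
      have h6 := Real.pi_gt_three
      nlinarith
    · exact (Real.exp_pos _).le
    · positivity
  refine (intervalIntegral.norm_integral_le_of_norm_le_const hbound).trans ?_
  have hrp : (ν / N) ^ (-(1 / 2) : ℝ) = √N / √ν := by
    rw [Real.rpow_neg hr0.le, ← Real.sqrt_eq_rpow, Real.sqrt_div hν.le, inv_div]
  rw [hrp]
  have h1 : √N / √ν * rexp (-L) * |1 / ν - be N ν| ≤ √N / √ν * rexp (-L) * (2 * ν / N ^ 2) := by
    apply mul_le_mul_of_nonneg_left hlen
    positivity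
  refine h1.trans ?_
  have e : √N / √ν * rexp (-L) * (2 * ν / N ^ 2) = 2 * (√ν / (N * √N)) * rexp (-L) := by
    have hsν : √ν * √ν = ν := Real.mul_self_sqrt hν.le
    have hsN : √N * √N = N := Real.mul_self_sqrt hN.le
    have hν' : √ν ≠ 0 := (Real.sqrt_pos.2 hν).ne'
    have hN' : √N ≠ 0 := (Real.sqrt_pos.2 hN).ne'
    have hN0 : N ≠ 0 := hN.ne'
    rw [div_mul_eq_mul_div, div_mul_div_comm, mul_assoc 2, div_mul_eq_mul_div, mul_div_assoc',
      div_eq_div_iff (by positivity) (by positivity)]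
    have e2 : √N * rexp (-L) * (2 * ν) * (N * √N) = 2 * rexp (-L) * ν * N * (√N * √N) := by ring
    have e3 : 2 * (√ν * rexp (-L)) * (√ν * N ^ 2) = 2 * rexp (-L) * (√ν * √ν) * N ^ 2 := by ring
    rw [e2, e3, hsN, hsν]
    ring
  rw [e]
  apply mul_le_mul_of_nonneg_right _ (Real.exp_pos _).le
  apply mul_le_mul_of_nonneg_right (by norm_num)
  positivity

end Pool.Agent.Helper31.FI
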