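import Pool.Agent.Helper31.FI.Abel
import Pool.Agent.Helper31.FI.Roots

/-!
# FI-LE: the pieces `[0, al]`

`∑_i ze^i ∫_0^{al} gk = ∫_{0}^{1/N} ∑_{i < m, u < al N (ν₀+i)} ze^i gk du`.  For `0 < u < 1/N` the index set is
`{i < m : rho N u < ν₀ + i}` = an interval `Ico p m`.  For `ν ≤ N/2`, `y = u + i/N`, `|y| ≤ √2/N`, `Re X = 1 - ν u ≥ 1/2`,
`|X|² ≤ 5/4`; with `a = x/N`: `‖gk‖ ≤ 2 e^π`, derivative in `ν` `≤ C (1 + a) exp (-(4/5) π a) / N ≤ C/N`; `abel_cont` on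
`[0, N/2]` gives `≤ C`; integrate over `u`.
-/

set_option autoImplicit false

namespace Pool.Agent.Helper31.FI

open Complex Real Finset MeasureTheory

private lemma Left_im (N u : ℝ) : ((u : ℂ) + I / N).im = 1 / N := by simp

private lemma Left_re (N u : ℝ) : ((u : ℂ) + I / N).re = u := by simp

private lemma Left_X {N u s : ℝ} (hN : 0 < N) (hu : 0 < u) (hu' : u ≤ 1 / N) (hs : 0 ≤ s)
    (hs' : s ≤ N / 2) : 1 / 2 ≤ ‖1 - (s : ℂ) * (u + I / N)‖ ∧
      ‖1 - (s : ℂ) * (u + I / N)‖ ^ 2 ≤ 5 / 4 := by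
  have hre : (1 - (s : ℂ) * (u + I / N)).re = 1 - s * u := by simp
  have him : (1 - (s : ℂ) * (u + I / N)).im = -(s / N) := by
    simp
    ring
  have h1 : s * u ≤ 1 / 2 := by
    calc s * u ≤ (N / 2) * (1 / N) := mul_le_mul hs' hu' hu.le (by positivity)
      _ = 1 / 2 := by field_simp
  have h2 : 0 ≤ s * u := by positivity
  have h3 : s / N ≤ 1 / 2 := by
    rw [div_le_iff₀ hN]
    linarith
  have h4 : 0 ≤ s / N := by positivity
  constructor
  · have := Complex.re_le_norm (1 - (s : ℂ) * (u + I / N))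
    rw [hre] at this
    linarith
  · rw [Complex.sq_norm, Complex.normSq_apply, hre, him]
    nlinarith

private lemma Left_y {N u : ℝ} (hN : 0 < N) (hu : 0 < u) (hu' : u ≤ 1 / N) :
    ‖(u : ℂ) + I / N‖ ^ 2 ≤ 2 / N ^ 2 := by
  rw [Complex.sq_norm, Complex.normSq_apply, Left_re, Left_im]
  have h1 : u * u ≤ 1 / N * (1 / N) := mul_le_mul hu' hu' hu.le (by positivity)
  have h2 : 2 / N ^ 2 = 1 / N * (1 / N) + 1 / N * (1 / N) := by
    field_simp
    norm_num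
  rw [h2]
  linarith

private lemma Left_ne {N u s : ℝ} (hN : 0 < N) (hu : 0 < u) (hu' : u ≤ 1 / N) (hs : 0 ≤ s)
    (hs' : s ≤ N / 2) : 1 - (s : ℂ) * (u + I / N) ≠ 0 := by
  intro h
  have := (Left_X hN hu hu' hs hs').1
  rw [h, norm_zero] at this
  norm_num at this

private lemma Left_pow {r k : ℝ} {c : ℝ} (hr : 1 / 2 ≤ r) (hk : 0 ≤ k) (hc : (2 : ℝ) ^ k ≤ c) :
    r ^ (-k) ≤ c := by
  have h1 : r ^ (-k) ≤ (1 / 2 : ℝ) ^ (-k) :=
    Real.rpow_le_rpow_of_nonpos (by norm_num) hr (by linarith)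
  refine h1.trans (le_trans (le_of_eq ?_) hc)
  rw [one_div, Real.inv_rpow (by norm_num), Real.rpow_neg (by norm_num), inv_inv]

private lemma Left_gk {x N u s : ℝ} (hx : 0 ≤ x) (hN : 0 < N) (hu : 0 < u) (hu' : u ≤ 1 / N)
    (hs : 0 ≤ s) (hs' : s ≤ N / 2) : ‖gk x N s (u + I / N)‖ ≤ 2 * rexp π := by
  have hX := Left_X hN hu hu' hs hs'
  rw [norm_gk (by rw [Left_im]; positivity) hs, Left_im]
  have h1 : π * N * (1 / N) = π := by field_simp
  have h2 : 0 ≤ π * x * (1 / N) / ‖1 - (s : ℂ) * (u + I / N)‖ ^ 2 := by positivity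
  refine mul_le_mul (Left_pow hX.1 (by norm_num) ?_) (Real.exp_le_exp.2 ?_) (Real.exp_pos _).le
    (by norm_num)
  · calc (2 : ℝ) ^ (1 / 2 : ℝ) ≤ 2 ^ (1 : ℝ) :=
          Real.rpow_le_rpow_of_exponent_le (by norm_num) (by norm_num)
      _ = 2 := Real.rpow_one 2
  · rw [h1]
    linarith

private lemma Left_texp {t q : ℝ} (hq : 0 < q) (hq' : q ≤ 5 / 4) :
    t * rexp (-(t / q)) ≤ 5 / 4 := by
  have h1 : t / q ≤ rexp (t / q) := by
    have := Real.add_one_le_exp (t / q)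
    linarith
  have h2 : t ≤ q * rexp (t / q) := by
    rw [div_le_iff₀ hq] at h1
    linarith
  calc t * rexp (-(t / q)) ≤ (q * rexp (t / q)) * rexp (-(t / q)) :=
        mul_le_mul_of_nonneg_right h2 (Real.exp_pos _).le
    _ = q := by rw [mul_assoc, ← Real.exp_add, add_neg_cancel, Real.exp_zero, mul_one]
    _ ≤ 5 / 4 := hq'

private lemma Left_deriv {x N u s : ℝ} (hx : 0 ≤ x) (hN : 0 < N) (hu : 0 < u) (hu' : u ≤ 1 / N)
    (hs : 0 ≤ s) (hs' : s ≤ N / 2) :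
    ‖gk x N s (u + I / N) * ((u + I / N) / (2 * (1 - s * (u + I / N))) +
      π * I * x * (u + I / N) ^ 2 / (1 - s * (u + I / N)) ^ 2)‖ ≤ 28 * rexp π / N := by
  have hX := Left_X hN hu hu' hs hs'
  refine (norm_deriv_gk_le (N := N) hx (by rw [Left_im]; positivity) hs).trans ?_
  rw [Left_im]
  have h1 : π * N * (1 / N) = π := by field_simp
  rw [h1]
  set R : ℝ := ‖1 - (s : ℂ) * (u + I / N)‖ with hR
  have hy2 := Left_y hN hu hu'
  set Y : ℝ := ‖(u : ℂ) + I / N‖ with hY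
  have hY0 : 0 ≤ Y := norm_nonneg _
  have hY1 : Y ≤ 2 / N := by
    have h3 : Y ^ 2 ≤ (2 / N) ^ 2 := by
      refine hy2.trans ?_
      rw [div_pow]
      gcongr
      norm_num
    exact le_of_sq_le_sq h3 (by positivity)
  have hR2 : 0 < R ^ 2 := by
    have := hX.1
    positivity
  have p1 : R ^ (-(3 / 2) : ℝ) ≤ 4 := by
    refine Left_pow hX.1 (by norm_num) ?_
    calc (2 : ℝ) ^ (3 / 2 : ℝ) ≤ 2 ^ (2 : ℝ) :=
          Real.rpow_le_rpow_of_exponent_le (by norm_num) (by norm_num)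
      _ = 4 := by norm_num
  have p2 : R ^ (-(5 / 2) : ℝ) ≤ 8 := by
    refine Left_pow hX.1 (by norm_num) ?_
    calc (2 : ℝ) ^ (5 / 2 : ℝ) ≤ 2 ^ (3 : ℝ) :=
          Real.rpow_le_rpow_of_exponent_le (by norm_num) (by norm_num)
      _ = 8 := by norm_num
  have hRn : 0 ≤ R := norm_nonneg _
  have hE1 : rexp (-(π * x * (1 / N) / R ^ 2)) ≤ 1 := by
    rw [Real.exp_le_one_iff]
    have : 0 ≤ π * x * (1 / N) / R ^ 2 := by positivity
    linarith
  have hE2 : π * x * (1 / N) * rexp (-(π * x * (1 / N) / R ^ 2)) ≤ 5 / 4 := Left_texp hR2 hX.2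
  have q1 : rexp (-(π * x * (1 / N) / R ^ 2)) * (Y * R ^ (-(3 / 2) : ℝ)) ≤ 8 / N := by
    calc rexp (-(π * x * (1 / N) / R ^ 2)) * (Y * R ^ (-(3 / 2) : ℝ)) ≤ 1 * ((2 / N) * 4) := by
          refine mul_le_mul hE1 (mul_le_mul hY1 p1 (by positivity) (by positivity)) (by positivity)
            zero_le_one
      _ = 8 / N := by ring
  have q2 : rexp (-(π * x * (1 / N) / R ^ 2)) * (π * x * Y ^ 2 * R ^ (-(5 / 2) : ℝ)) ≤
      20 / N := by
    calc rexp (-(π * x * (1 / N) / R ^ 2)) * (π * x * Y ^ 2 * R ^ (-(5 / 2) : ℝ))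
        ≤ rexp (-(π * x * (1 / N) / R ^ 2)) * (π * x * (2 / N ^ 2) * 8) := by
          gcongr
      _ = (π * x * (1 / N) * rexp (-(π * x * (1 / N) / R ^ 2))) * (16 / N) := by
          field_simp
          ring
      _ ≤ 5 / 4 * (16 / N) := mul_le_mul_of_nonneg_right hE2 (by positivity)
      _ = 20 / N := by ring
  calc rexp π * rexp (-(π * x * (1 / N) / R ^ 2)) *
        (Y * R ^ (-(3 / 2) : ℝ) + π * x * Y ^ 2 * R ^ (-(5 / 2) : ℝ)) =
      rexp π * (rexp (-(π * x * (1 / N) / R ^ 2)) * (Y * R ^ (-(3 / 2) : ℝ)) +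
        rexp (-(π * x * (1 / N) / R ^ 2)) * (π * x * Y ^ 2 * R ^ (-(5 / 2) : ℝ))) := by ring
    _ ≤ rexp π * (8 / N + 20 / N) :=
        mul_le_mul_of_nonneg_left (add_le_add q1 q2) (Real.exp_pos _).le
    _ = 28 * rexp π / N := by ring

private lemma Left_sum {x N ν₀ u : ℝ} (hx : 0 ≤ x) (hN : 0 < N) (hu : 0 < u) (hu' : u ≤ 1 / N)
    (hν : 0 < ν₀) (p m : ℕ) (hm : ∀ i < m, ν₀ + i ≤ N / 2) :
    ‖∑ i ∈ Ico p m, ze ^ i * gk x N (ν₀ + i) (u + I / N)‖ ≤ 48 * rexp π := by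
  have him : 0 < ((u : ℂ) + I / N).im := by
    rw [Left_im]
    positivity
  have h := abel_cont ν₀ 0 (N / 2) (2 * rexp π) (14 * rexp π)
    (fun s => gk x N s (u + I / N))
    (fun s => gk x N s (u + I / N) * ((u + I / N) / (2 * (1 - s * (u + I / N))) +
      π * I * x * (u + I / N) ^ 2 / (1 - s * (u + I / N)) ^ 2))
    (fun _ => 28 * rexp π / N) (by positivity)
    (fun s hs => hasDerivAt_gk him hs.1) ?_ continuousOn_const
    (fun s hs => Left_deriv hx hN hu hu' hs.1 hs.2) (fun s hs => Left_gk hx hN hu hu' hs.1 hs.2)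
    ?_ p m ?_
  · refine h.trans (le_of_eq ?_)
    ring
  · refine ContinuousOn.mul (fun s hs => (hasDerivAt_gk him hs.1).continuousAt.continuousWithinAt)
      (ContinuousOn.add (ContinuousOn.div (by fun_prop) (by fun_prop) ?_)
        (ContinuousOn.div (by fun_prop) (by fun_prop) ?_))
    · intro s hs
      exact mul_ne_zero two_ne_zero (Left_ne hN hu hu' hs.1 hs.2)
    · intro s hs
      exact pow_ne_zero 2 (Left_ne hN hu hu' hs.1 hs.2)
  · rw [intervalIntegral.integral_const, smul_eq_mul]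
    refine le_of_eq ?_
    field_simp
    ring
  · intro i hi
    have := hm i (Finset.mem_Ico.1 hi).2
    exact ⟨by positivity, this⟩

private lemma Left_filter (ν₀ r : ℝ) (m : ℕ) :
    ∃ p, (range m).filter (fun i : ℕ => r < ν₀ + i) = Ico p m := by
  rcases lt_or_ge r ν₀ with h | h
  · refine ⟨0, ?_⟩
    ext i
    simp only [Finset.mem_filter, Finset.mem_range, Finset.mem_Ico]
    constructor
    · rintro ⟨h1, -⟩
      exact ⟨Nat.zero_le _, h1⟩
    · rintro ⟨-, h1⟩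
      refine ⟨h1, ?_⟩
      have : (0 : ℝ) ≤ i := Nat.cast_nonneg i
      linarith
  · refine ⟨⌊r - ν₀⌋₊ + 1, ?_⟩
    ext i
    simp only [Finset.mem_filter, Finset.mem_range, Finset.mem_Ico, Nat.add_one_le_iff]
    rw [Nat.floor_lt (by linarith), sub_lt_iff_lt_add']
    tauto

theorem left : ∃ C : ℝ, 0 < C ∧ ∀ (x N ν₀ : ℝ) (m : ℕ), 0 ≤ x → 0 < N → 0 < ν₀ →
    (∀ i < m, ν₀ + i ≤ N / 2) →
    ‖∑ i ∈ range m, ze ^ i * ∫ u in (0 : ℝ)..(al N (ν₀ + i)), gk x N (ν₀ + i) (u + I / N)‖ ≤ C / N := by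
  refine ⟨48 * rexp π, by positivity, ?_⟩
  intro x N ν₀ m hx hN hν hm
  have hcont : ∀ i : ℕ, Continuous fun u : ℝ => gk x N (ν₀ + i) (u + I / N) := by
    intro i
    have h1 := continuous_gk (x := x) (N := N) (ν := ν₀ + i) (v := 1 / N) (by positivity)
      (by positivity)
    refine h1.congr fun u => ?_
    congr 2
    push_cast
    ring
  have hint : ∀ i ∈ range m, IntegrableOn
      (fun u : ℝ => ze ^ i * (Set.Iio (al N (ν₀ + i))).indicator
        (fun u : ℝ => gk x N (ν₀ + i) (u + I / N)) u) (Set.Ioo 0 (1 / N)) := by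
    intro i _
    refine Integrable.const_mul ?_ _
    refine Integrable.indicator ?_ measurableSet_Iio
    exact ((hcont i).integrableOn_Icc).mono_set Set.Ioo_subset_Icc_self
  have h1 : ∑ i ∈ range m, ze ^ i * ∫ u in (0 : ℝ)..(al N (ν₀ + i)), gk x N (ν₀ + i) (u + I / N) =
      ∫ u in Set.Ioo 0 (1 / N), ∑ i ∈ range m, ze ^ i * (Set.Iio (al N (ν₀ + i))).indicator
        (fun u : ℝ => gk x N (ν₀ + i) (u + I / N)) u := by
    rw [integral_finsetSum _ hint]
    refine Finset.sum_congr rfl fun i hi => ?_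
    have hi' := Finset.mem_range.1 hi
    have hab := al_be hN (by positivity : 0 < ν₀ + i) (hm i hi')
    rw [integral_const_mul, setIntegral_indicator measurableSet_Iio,
      intervalIntegral.integral_of_le hab.1, integral_Ioc_eq_integral_Ioo]
    congr 2
    congr 1
    ext u
    simp only [Set.mem_Ioo, Set.mem_inter_iff, Set.mem_Iio]
    constructor
    · rintro ⟨h2, h3⟩
      exact ⟨⟨h2, h3.trans_le hab.2.2.1⟩, h3⟩
    · rintro ⟨⟨h2, -⟩, h3⟩
      exact ⟨h2, h3⟩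
  rw [h1]
  have h2 : ∀ u ∈ Set.Ioo 0 (1 / N), ‖∑ i ∈ range m, ze ^ i *
      (Set.Iio (al N (ν₀ + i))).indicator (fun u : ℝ => gk x N (ν₀ + i) (u + I / N)) u‖ ≤
      48 * rexp π := by
    intro u hu
    obtain ⟨p, hp⟩ := Left_filter ν₀ (rho N u) m
    have h3 : ∑ i ∈ range m, ze ^ i *
        (Set.Iio (al N (ν₀ + i))).indicator (fun u : ℝ => gk x N (ν₀ + i) (u + I / N)) u =
        ∑ i ∈ Ico p m, ze ^ i * gk x N (ν₀ + i) (u + I / N) := by
      rw [← hp, Finset.sum_filter]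
      refine Finset.sum_congr rfl fun i hi => ?_
      have hi' := Finset.mem_range.1 hi
      have h4 := lt_al_iff hN (by positivity : 0 < ν₀ + i) (hm i hi') hu.1 hu.2.le
      by_cases h5 : rho N u < ν₀ + i
      · rw [if_pos h5, Set.indicator_of_mem (Set.mem_Iio.2 (h4.2 h5))]
      · rw [if_neg h5, Set.indicator_of_notMem (fun h6 => h5 (h4.1 (Set.mem_Iio.1 h6))), mul_zero]
    rw [h3]
    exact Left_sum hx hN hu.1 hu.2.le hν p m hm
  refine (norm_setIntegral_le_of_norm_le_const (by simp) h2).trans (le_of_eq ?_)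
  rw [Measure.real, Real.volume_Ioo, ENNReal.toReal_ofReal (by rw [sub_zero]; positivity)]
  ring

end Pool.Agent.Helper31.FI
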