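import Pool.Agent.Helper31.FI.Block

/-!
# FI-MS: the main sum is `O(ν₀^(-1/2) + t^(3/26))`

* `wblock`: summation by parts with the decreasing weight `(ν + M + i)^(-1/2) ≤ M^(-1/2)`:
  `‖∑_{i<m} ee (ph t ν (M+i)) (ν + M + i)^(-1/2)‖ ≤ M^(-1/2) max_{m' ≤ m} ‖blk t ν M m'‖`.
* `mains_le`: split `range m` into `{0}` and the blocks `[2^k, min (2^(k+1), m))`.  For `t ≥ 1` and `M = 2^k` the
  weighted block is at most `C` times
  `M^(1/7) t^(1/14)` if `M^13 ≤ t^4`; `t^(1/6) M^(-1/6)` if `t^4 < M^13`, `M^5 ≤ t^2`;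
  `t^(1/2) / M + M t^(-1/2)` if `t^2 < M^5`, `M^2 ≤ 4 t`; `4 M^(-1/2)` if `M^2 > 4 t`.
  Geometric sums in `k`: `C t^(4/91 + 1/14) = C t^(3/26)`; `C t^(1/6 - 2/39) = C t^(3/26)`;
  `C (t^(1/10) + 1)`; `C`.  For `0 ≤ t < 1` : all blocks with `M ≥ 2` by `block1`, the rest is trivial.
-/

set_option autoImplicit false

namespace Pool.Agent.Helper31.FI

open Complex Real Finset

private theorem MainSum_blk_succ (t ν : ℝ) (M m : ℕ) :
    blk t ν M (m + 1) = blk t ν M m + ee (ph t ν (M + m)) := by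
  unfold blk
  rw [Finset.sum_range_succ]

private theorem MainSum_parts (t ν : ℝ) (M m : ℕ) (w : ℕ → ℝ) :
    ∑ i ∈ range m, ee (ph t ν (M + i)) * (w i : ℂ) =
      blk t ν M m * (w m : ℂ) +
        ∑ i ∈ range m, blk t ν M (i + 1) * ((w i - w (i + 1) : ℝ) : ℂ) := by
  induction m with
  | zero =>
    unfold blk
    simp
  | succ m ih =>
    rw [Finset.sum_range_succ, ih, Finset.sum_range_succ, MainSum_blk_succ]
    push_cast
    ring

theorem wblock (t ν : ℝ) (M m : ℕ) (B : ℝ) (hν : 0 < ν) (hM : 1 ≤ M)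
    (hB : ∀ m' ≤ m, ‖blk t ν M m'‖ ≤ B) :
    ‖∑ i ∈ range m, ee (ph t ν (M + i)) * ((ν + (M + i : ℕ) : ℝ) ^ (-(1 / 2) : ℝ) : ℝ)‖ ≤
      B * (M : ℝ) ^ (-(1 / 2) : ℝ) := by
  obtain ⟨w, hw⟩ : ∃ w : ℕ → ℝ, w = fun i => (ν + (M + i : ℕ) : ℝ) ^ (-(1 / 2) : ℝ) := ⟨_, rfl⟩
  have hw' : ∀ i, (ν + (M + i : ℕ) : ℝ) ^ (-(1 / 2) : ℝ) = w i := fun i => by rw [hw]
  have hM0 : (0 : ℝ) < M := by exact_mod_cast hM
  have hX : ∀ i : ℕ, (0 : ℝ) < ν + (M + i : ℕ) := by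
    intro i
    positivity
  have hw0 : ∀ i, 0 ≤ w i := fun i => by
    rw [← hw']
    exact (Real.rpow_pos_of_pos (hX i) _).le
  have hwd : ∀ i, w (i + 1) ≤ w i := by
    intro i
    rw [← hw', ← hw']
    apply Real.rpow_le_rpow_of_nonpos (hX i) _ (by norm_num)
    push_cast
    linarith
  have hB0 : 0 ≤ B := (norm_nonneg _).trans (hB 0 (Nat.zero_le m))
  simp_rw [hw']
  rw [MainSum_parts]
  have h1 : ‖blk t ν M m * (w m : ℂ)‖ ≤ B * w m := by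
    rw [norm_mul, Complex.norm_real, Real.norm_of_nonneg (hw0 m)]
    exact mul_le_mul_of_nonneg_right (hB m le_rfl) (hw0 m)
  have h2 : ‖∑ i ∈ range m, blk t ν M (i + 1) * ((w i - w (i + 1) : ℝ) : ℂ)‖ ≤
      B * (w 0 - w m) := by
    refine (norm_sum_le _ _).trans ?_
    have h3 : ∀ i ∈ range m, ‖blk t ν M (i + 1) * ((w i - w (i + 1) : ℝ) : ℂ)‖ ≤
        B * (w i - w (i + 1)) := by
      intro i hi
      rw [Finset.mem_range] at hi
      have h4 : 0 ≤ w i - w (i + 1) := sub_nonneg.2 (hwd i)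
      rw [norm_mul, Complex.norm_real, Real.norm_of_nonneg h4]
      exact mul_le_mul_of_nonneg_right (hB _ hi) h4
    refine (Finset.sum_le_sum h3).trans (le_of_eq ?_)
    rw [← Finset.mul_sum, Finset.sum_range_sub']
  have h5 : w 0 ≤ (M : ℝ) ^ (-(1 / 2) : ℝ) := by
    rw [← hw']
    apply Real.rpow_le_rpow_of_nonpos hM0 _ (by norm_num)
    push_cast
    linarith
  calc _ ≤ B * w m + B * (w 0 - w m) := (norm_add_le _ _).trans (add_le_add h1 h2)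
    _ = B * w 0 := by ring
    _ ≤ _ := mul_le_mul_of_nonneg_left h5 hB0

/-- increasing geometric sum up to `T` -/
private theorem MainSum_up (a T : ℝ) (ha : 0 < a) (hT : 0 < T) (K : ℕ) :
    ∑ j ∈ range K, (if (2 : ℝ) ^ j ≤ T then ((2 : ℝ) ^ j / T) ^ a else 0) ≤
      (2 : ℝ) ^ a / ((2 : ℝ) ^ a - 1) := by
  have h2a : 1 < (2 : ℝ) ^ a := Real.one_lt_rpow (by norm_num) ha
  have hstep : ∀ j : ℕ, ((2 : ℝ) ^ (j + 1) / T) ^ a = (2 : ℝ) ^ a * ((2 : ℝ) ^ j / T) ^ a := by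
    intro j
    rw [← Real.mul_rpow (by norm_num) (by positivity)]
    congr 1
    rw [pow_succ]
    ring
  have key : ∀ K : ℕ, ∑ j ∈ range K, (if (2 : ℝ) ^ j ≤ T then ((2 : ℝ) ^ j / T) ^ a else 0) ≤
      ((2 : ℝ) ^ K / T) ^ a / ((2 : ℝ) ^ a - 1) ∧
      ∑ j ∈ range K, (if (2 : ℝ) ^ j ≤ T then ((2 : ℝ) ^ j / T) ^ a else 0) ≤
      (2 : ℝ) ^ a / ((2 : ℝ) ^ a - 1) := by
    intro K
    have h0 : (0 : ℝ) < (2 : ℝ) ^ a - 1 := by linarith
    induction K with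
    | zero =>
      constructor
      · simp only [Finset.range_zero, Finset.sum_empty]
        positivity
      · simp only [Finset.range_zero, Finset.sum_empty]
        positivity
    | succ K ih =>
      rw [Finset.sum_range_succ, hstep]
      obtain ⟨ih1, ih2⟩ := ih
      have hA : 0 ≤ ((2 : ℝ) ^ K / T) ^ a := by positivity
      by_cases hK : (2 : ℝ) ^ K ≤ T
      · rw [if_pos hK]
        have hA1 : ((2 : ℝ) ^ K / T) ^ a ≤ 1 := by
          apply Real.rpow_le_one (by positivity) _ ha.le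
          rw [div_le_one hT]
          exact hK
        have h1 : ((2 : ℝ) ^ K / T) ^ a / ((2 : ℝ) ^ a - 1) + ((2 : ℝ) ^ K / T) ^ a =
            (2 : ℝ) ^ a * ((2 : ℝ) ^ K / T) ^ a / ((2 : ℝ) ^ a - 1) := by
          field_simp
          ring
        have h2 : (2 : ℝ) ^ a * ((2 : ℝ) ^ K / T) ^ a / ((2 : ℝ) ^ a - 1) ≤
            (2 : ℝ) ^ a / ((2 : ℝ) ^ a - 1) := by
          apply div_le_div_of_nonneg_right _ h0.le
          have h3 : (0 : ℝ) ≤ (2 : ℝ) ^ a := by positivity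
          nlinarith
        constructor
        · linarith
        · linarith
      · rw [if_neg hK, add_zero]
        refine ⟨ih1.trans ?_, ih2⟩
        apply div_le_div_of_nonneg_right _ h0.le
        nlinarith
  exact (key K).2

/-- decreasing geometric sum from `T` on -/
private theorem MainSum_down (a T : ℝ) (ha : 0 < a) (hT : 0 < T) (K : ℕ) :
    ∑ j ∈ range K, (if T ≤ (2 : ℝ) ^ j then ((2 : ℝ) ^ j / T) ^ (-a) else 0) ≤
      1 / (1 - (2 : ℝ) ^ (-a)) := by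
  have h2a : (2 : ℝ) ^ (-a) < 1 := Real.rpow_lt_one_of_one_lt_of_neg (by norm_num) (by linarith)
  have hstep : ∀ j : ℕ, ((2 : ℝ) ^ (j + 1) / T) ^ (-a) =
      (2 : ℝ) ^ (-a) * ((2 : ℝ) ^ j / T) ^ (-a) := by
    intro j
    rw [← Real.mul_rpow (by norm_num) (by positivity)]
    congr 1
    rw [pow_succ]
    ring
  have h0 : (0 : ℝ) < 1 - (2 : ℝ) ^ (-a) := by linarith
  have key : ∀ K : ℕ, ∑ j ∈ range K, (if T ≤ (2 : ℝ) ^ j then ((2 : ℝ) ^ j / T) ^ (-a) else 0) ≤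
      (1 - min 1 (((2 : ℝ) ^ K / T) ^ (-a))) / (1 - (2 : ℝ) ^ (-a)) := by
    intro K
    induction K with
    | zero =>
      simp only [Finset.range_zero, Finset.sum_empty]
      apply div_nonneg _ h0.le
      have := min_le_left (1 : ℝ) (((2 : ℝ) ^ 0 / T) ^ (-a))
      linarith
    | succ K ih =>
      rw [Finset.sum_range_succ, hstep]
      have hA : 0 ≤ ((2 : ℝ) ^ K / T) ^ (-a) := by positivity
      have h2p : (0 : ℝ) < (2 : ℝ) ^ (-a) := by positivity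
      by_cases hK : T ≤ (2 : ℝ) ^ K
      · rw [if_pos hK]
        have hA1 : ((2 : ℝ) ^ K / T) ^ (-a) ≤ 1 := by
          apply Real.rpow_le_one_of_one_le_of_nonpos _ (by linarith)
          rw [one_le_div hT]
          exact hK
        rw [min_eq_right hA1] at ih
        have h1 : (2 : ℝ) ^ (-a) * ((2 : ℝ) ^ K / T) ^ (-a) ≤ 1 := by nlinarith
        rw [min_eq_right h1]
        have h2 : (1 - ((2 : ℝ) ^ K / T) ^ (-a)) / (1 - (2 : ℝ) ^ (-a)) +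
            ((2 : ℝ) ^ K / T) ^ (-a) =
            (1 - (2 : ℝ) ^ (-a) * ((2 : ℝ) ^ K / T) ^ (-a)) / (1 - (2 : ℝ) ^ (-a)) := by
          field_simp
          ring
        linarith
      · rw [if_neg hK, add_zero]
        have hK' : (2 : ℝ) ^ K / T ≤ 1 := by
          rw [div_le_one hT]
          exact (not_le.1 hK).le
        have hA1 : 1 ≤ ((2 : ℝ) ^ K / T) ^ (-a) :=
          Real.one_le_rpow_of_pos_of_le_one_of_nonpos (by positivity) hK' (by linarith)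
        rw [min_eq_left hA1, sub_self, zero_div] at ih
        refine ih.trans (div_nonneg ?_ h0.le)
        have := min_le_left (1 : ℝ) ((2 : ℝ) ^ (-a) * ((2 : ℝ) ^ K / T) ^ (-a))
        linarith
  refine (key K).trans ?_
  apply div_le_div_of_nonneg_right _ h0.le
  have : 0 ≤ min 1 (((2 : ℝ) ^ K / T) ^ (-a)) := le_min (by norm_num) (by positivity)
  linarith

/-- the bound for the weighted block -/
private noncomputable def MainSum_bd (t : ℝ) (j : ℕ) : ℝ :=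
  t ^ (3 / 26 : ℝ) * (if (2 : ℝ) ^ j ≤ t ^ (4 / 13 : ℝ) then
    ((2 : ℝ) ^ j / t ^ (4 / 13 : ℝ)) ^ (1 / 7 : ℝ) else 0) +
  t ^ (3 / 26 : ℝ) * (if t ^ (4 / 13 : ℝ) ≤ (2 : ℝ) ^ j then
    ((2 : ℝ) ^ j / t ^ (4 / 13 : ℝ)) ^ (-(1 / 6) : ℝ) else 0) +
  t ^ (3 / 26 : ℝ) * (if t ^ (2 / 5 : ℝ) ≤ (2 : ℝ) ^ j then
    ((2 : ℝ) ^ j / t ^ (2 / 5 : ℝ)) ^ (-1 : ℝ) else 0) +
  (if (2 : ℝ) ^ j ≤ 2 * t ^ (1 / 2 : ℝ) then ((2 : ℝ) ^ j / (2 * t ^ (1 / 2 : ℝ))) ^ (1 : ℝ) else 0)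

private theorem MainSum_blocks : ∃ C : ℝ, 0 < C ∧ ∀ (t ν : ℝ) (j m : ℕ), 1 ≤ t → 0 < ν → ν ≤ 1 →
    m ≤ 2 ^ j → ‖blk t ν (2 ^ j) m‖ * ((2 : ℝ) ^ j) ^ (-(1 / 2) : ℝ) ≤
      C * (MainSum_bd t j + ((2 : ℝ) ^ j / 1) ^ (-(1 / 2) : ℝ)) := by
  obtain ⟨C4, hC4, h4⟩ := block4
  obtain ⟨C3, hC3, h3⟩ := block3
  obtain ⟨C2, hC2, h2⟩ := block2
  refine ⟨C4 + C3 + 2 * C2 + 4, by positivity, ?_⟩
  intro t ν j m ht hν hν1 hm
  have ht0 : 0 < t := by linarith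
  have hM1 : 1 ≤ 2 ^ j := Nat.one_le_two_pow
  have hcast : (((2 ^ j : ℕ)) : ℝ) = (2 : ℝ) ^ j := by push_cast; rfl
  obtain ⟨M, hM⟩ : ∃ M : ℝ, M = (2 : ℝ) ^ j := ⟨_, rfl⟩
  have hM0 : 0 < M := by rw [hM]; positivity
  have hT1 : 0 < t ^ (4 / 13 : ℝ) := by positivity
  have hT2 : 0 < t ^ (2 / 5 : ℝ) := by positivity
  have hT3 : 0 < 2 * t ^ (1 / 2 : ℝ) := by positivity
  have hMh : 0 ≤ M ^ (-(1 / 2) : ℝ) := by positivity
  -- the parts of the bound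
  obtain ⟨a1, ha1⟩ : ∃ a1 : ℝ, a1 = t ^ (3 / 26 : ℝ) * (if M ≤ t ^ (4 / 13 : ℝ) then
    (M / t ^ (4 / 13 : ℝ)) ^ (1 / 7 : ℝ) else 0) := ⟨_, rfl⟩
  obtain ⟨a2, ha2⟩ : ∃ a2 : ℝ, a2 = t ^ (3 / 26 : ℝ) * (if t ^ (4 / 13 : ℝ) ≤ M then
    (M / t ^ (4 / 13 : ℝ)) ^ (-(1 / 6) : ℝ) else 0) := ⟨_, rfl⟩
  obtain ⟨a3, ha3⟩ : ∃ a3 : ℝ, a3 = t ^ (3 / 26 : ℝ) * (if t ^ (2 / 5 : ℝ) ≤ M then
    (M / t ^ (2 / 5 : ℝ)) ^ (-1 : ℝ) else 0) := ⟨_, rfl⟩
  obtain ⟨a4, ha4⟩ : ∃ a4 : ℝ, a4 = (if M ≤ 2 * t ^ (1 / 2 : ℝ) then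
    (M / (2 * t ^ (1 / 2 : ℝ))) ^ (1 : ℝ) else 0) := ⟨_, rfl⟩
  obtain ⟨a5, ha5⟩ : ∃ a5 : ℝ, a5 = (M / 1) ^ (-(1 / 2) : ℝ) := ⟨_, rfl⟩
  have hn1 : 0 ≤ a1 := by rw [ha1]; positivity
  have hn2 : 0 ≤ a2 := by rw [ha2]; positivity
  have hn3 : 0 ≤ a3 := by rw [ha3]; positivity
  have hn4 : 0 ≤ a4 := by rw [ha4]; positivity
  have hn5 : 0 ≤ a5 := by rw [ha5]; positivity
  have hbd : MainSum_bd t j = a1 + a2 + a3 + a4 := by
    rw [ha1, ha2, ha3, ha4, hM]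
    rfl
  rw [hbd, ← hM, ← ha5]
  have hfin : ∀ x : ℝ, x ≤ C4 * a1 ∨ x ≤ C3 * a2 ∨ x ≤ 2 * C2 * (a3 + a4) ∨ x ≤ 4 * a5 →
      x ≤ (C4 + C3 + 2 * C2 + 4) * (a1 + a2 + a3 + a4 + a5) := by
    intro x hx
    have e1 : 0 ≤ C4 * (a2 + a3 + a4 + a5) := by positivity
    have e2 : 0 ≤ C3 * (a1 + a3 + a4 + a5) := by positivity
    have e3 : 0 ≤ 2 * C2 * (a1 + a2 + a5) := by positivity
    have e4 : 0 ≤ 4 * (a1 + a2 + a3 + a4) := by positivity
    have f1 : 0 ≤ C4 * a1 := by positivity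
    have f2 : 0 ≤ C3 * a2 := by positivity
    have f3 : 0 ≤ 2 * C2 * (a3 + a4) := by positivity
    have f4 : 0 ≤ 4 * a5 := by positivity
    have g : (C4 + C3 + 2 * C2 + 4) * (a1 + a2 + a3 + a4 + a5) =
      C4 * a1 + C3 * a2 + 2 * C2 * (a3 + a4) + 4 * a5 + (C4 * (a2 + a3 + a4 + a5) +
        C3 * (a1 + a3 + a4 + a5) + 2 * C2 * (a1 + a2 + a5) + 4 * (a1 + a2 + a3 + a4)) := by ring
    rw [g]
    rcases hx with hx | hx | hx | hx <;> linarith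
  apply hfin
  by_cases c1 : M ≤ t ^ (4 / 13 : ℝ)
  · left
    have hc : (((2 ^ j : ℕ)) : ℝ) ^ 13 ≤ t ^ 4 := by
      rw [hcast, ← hM]
      calc M ^ 13 ≤ (t ^ (4 / 13 : ℝ)) ^ 13 := by gcongr
        _ = t ^ 4 := by
          rw [← Real.rpow_natCast, ← Real.rpow_mul ht0.le, ← Real.rpow_natCast]
          norm_num
    have h5 := h4 t ν (2 ^ j) m ht hν hν1 hM1 hm hc
    rw [hcast, ← hM] at h5
    refine (mul_le_mul_of_nonneg_right h5 hMh).trans (le_of_eq ?_)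
    rw [ha1, if_pos c1, Real.div_rpow hM0.le hT1.le, ← Real.rpow_mul ht0.le]
    have e1 : M ^ (1 / 7 : ℝ) = M ^ (9 / 14 : ℝ) * M ^ (-(1 / 2) : ℝ) := by
      rw [← Real.rpow_add hM0]; norm_num
    have e2 : t ^ (3 / 26 : ℝ) = t ^ (1 / 14 : ℝ) * t ^ (4 / 13 * (1 / 7) : ℝ) := by
      rw [← Real.rpow_add ht0]; norm_num
    have e3 : 0 < t ^ (4 / 13 * (1 / 7) : ℝ) := by positivity
    rw [e1, e2]
    field_simp
  · have c1' : t ^ (4 / 13 : ℝ) ≤ M := (not_le.1 c1).le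
    by_cases c2 : M ≤ t ^ (2 / 5 : ℝ)
    · right; left
      have hc : (((2 ^ j : ℕ)) : ℝ) ^ 5 ≤ t ^ 2 := by
        rw [hcast, ← hM]
        calc M ^ 5 ≤ (t ^ (2 / 5 : ℝ)) ^ 5 := by gcongr
          _ = t ^ 2 := by
            rw [← Real.rpow_natCast, ← Real.rpow_mul ht0.le, ← Real.rpow_natCast]
            norm_num
      have h5 := h3 t ν (2 ^ j) m ht hν hν1 hM1 hm hc
      rw [hcast, ← hM] at h5
      refine (mul_le_mul_of_nonneg_right h5 hMh).trans (le_of_eq ?_)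
      rw [ha2, if_pos c1', Real.div_rpow hM0.le hT1.le, ← Real.rpow_mul ht0.le]
      have e1 : M ^ (-(1 / 6) : ℝ) = M ^ (1 / 3 : ℝ) * M ^ (-(1 / 2) : ℝ) := by
        rw [← Real.rpow_add hM0]; norm_num
      have e2 : t ^ (3 / 26 : ℝ) = t ^ (1 / 6 : ℝ) * t ^ (4 / 13 * (-(1 / 6)) : ℝ) := by
        rw [← Real.rpow_add ht0]; norm_num
      have e3 : 0 < t ^ (4 / 13 * (-(1 / 6)) : ℝ) := by positivity
      rw [e1, e2]
      field_simp
    · have c2' : t ^ (2 / 5 : ℝ) ≤ M := (not_le.1 c2).le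
      by_cases c3 : M ≤ 2 * t ^ (1 / 2 : ℝ)
      · right; right; left
        have h5 := h2 t ν (2 ^ j) m ht hν hν1 hM1 hm
        rw [hcast, ← hM] at h5
        refine (mul_le_mul_of_nonneg_right h5 hMh).trans ?_
        have e1 : M ^ (-(1 / 2) : ℝ) * M ^ (-(1 / 2) : ℝ) = M ^ (-1 : ℝ) := by
          rw [← Real.rpow_add hM0]; norm_num
        have e2 : M ^ (3 / 2 : ℝ) * M ^ (-(1 / 2) : ℝ) = M := by
          rw [← Real.rpow_add hM0]; norm_num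
        have e3 : t ^ (1 / 2 : ℝ) = t ^ (1 / 10 : ℝ) * t ^ (2 / 5 : ℝ) := by
          rw [← Real.rpow_add ht0]; norm_num
        have e4 : t ^ (1 / 10 : ℝ) ≤ t ^ (3 / 26 : ℝ) :=
          Real.rpow_le_rpow_of_exponent_le ht (by norm_num)
        have e5 : t ^ (1 / 2 : ℝ) * M ^ (-1 : ℝ) ≤ a3 := by
          rw [ha3, if_pos c2', Real.div_rpow hM0.le hT2.le, ← Real.rpow_mul ht0.le]
          have e6 : t ^ (2 / 5 * (-1) : ℝ) = (t ^ (2 / 5 : ℝ))⁻¹ := by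
            rw [← Real.rpow_neg ht0.le]; norm_num
          rw [e6, div_inv_eq_mul, e3]
          calc t ^ (1 / 10 : ℝ) * t ^ (2 / 5 : ℝ) * M ^ (-1 : ℝ)
              = t ^ (1 / 10 : ℝ) * (M ^ (-1 : ℝ) * t ^ (2 / 5 : ℝ)) := by ring
            _ ≤ t ^ (3 / 26 : ℝ) * (M ^ (-1 : ℝ) * t ^ (2 / 5 : ℝ)) :=
              mul_le_mul_of_nonneg_right e4 (by positivity)
        have e7 : M * t ^ (-(1 / 2) : ℝ) = 2 * a4 := by
          rw [ha4, if_pos c3, Real.rpow_one, Real.rpow_neg ht0.le]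
          have : 0 < t ^ (1 / 2 : ℝ) := by positivity
          field_simp
        calc C2 * (t ^ (1 / 2 : ℝ) * M ^ (-(1 / 2) : ℝ) + M ^ (3 / 2 : ℝ) * t ^ (-(1 / 2) : ℝ)) *
              M ^ (-(1 / 2) : ℝ)
            = C2 * (t ^ (1 / 2 : ℝ) * (M ^ (-(1 / 2) : ℝ) * M ^ (-(1 / 2) : ℝ)) +
              (M ^ (3 / 2 : ℝ) * M ^ (-(1 / 2) : ℝ)) * t ^ (-(1 / 2) : ℝ)) := by ring
          _ = C2 * (t ^ (1 / 2 : ℝ) * M ^ (-1 : ℝ) + 2 * a4) := by rw [e1, e2, e7]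
          _ ≤ C2 * (a3 + 2 * a4) := by
            apply mul_le_mul_of_nonneg_left _ hC2.le
            linarith
          _ ≤ 2 * C2 * (a3 + a4) := by nlinarith
      · right; right; right
        have c3' : 2 * t ^ (1 / 2 : ℝ) ≤ M := (not_le.1 c3).le
        have hc : 4 * t ≤ (((2 ^ j : ℕ)) : ℝ) ^ 2 := by
          rw [hcast, ← hM]
          calc 4 * t = (2 * t ^ (1 / 2 : ℝ)) ^ 2 := by
                rw [mul_pow, ← Real.rpow_natCast (t ^ (1 / 2 : ℝ)), ← Real.rpow_mul ht0.le]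
                norm_num
            _ ≤ M ^ 2 := by gcongr
        have h5 := block1 t ν (2 ^ j) m ht0.le hν hν1 hM1 hm hc
        rw [ha5, div_one]
        exact mul_le_mul_of_nonneg_right h5 hMh

private theorem MainSum_norm_ee (x : ℝ) : ‖ee x‖ = 1 := by
  unfold ee
  have h : (2 * π * I * (x : ℂ)) = ((2 * π * x : ℝ) : ℂ) * I := by
    push_cast
    ring
  rw [h]
  exact Complex.norm_exp_ofReal_mul_I _

/-- blocks for small `t` -/
private theorem MainSum_small (t ν : ℝ) (j m : ℕ) (ht : 0 ≤ t) (ht1 : t ≤ 1) (hν : 0 < ν)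
    (hν1 : ν ≤ 1) (hm : m ≤ 2 ^ j) : ‖blk t ν (2 ^ j) m‖ ≤ 4 := by
  rcases Nat.eq_zero_or_pos j with hj | hj
  · subst hj
    unfold blk
    refine (norm_sum_le _ _).trans ?_
    have h1 : ∀ i ∈ range m, ‖ee (ph t ν (2 ^ 0 + i))‖ ≤ 1 := fun i _ => (MainSum_norm_ee _).le
    refine (Finset.sum_le_sum h1).trans ?_
    rw [Finset.sum_const, Finset.card_range, nsmul_eq_mul, mul_one]
    have h2 : (m : ℝ) ≤ 1 := by exact_mod_cast hm
    linarith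
  · apply block1 t ν (2 ^ j) m ht hν hν1 Nat.one_le_two_pow hm
    have h1 : (2 : ℝ) ≤ ((2 ^ j : ℕ) : ℝ) := by
      have h2 : 2 ^ 1 ≤ 2 ^ j := Nat.pow_le_pow_right (by norm_num) hj
      exact_mod_cast h2
    nlinarith

/-- dyadic summation -/
private theorem MainSum_dyadic (t ν : ℝ) (hν : 0 < ν) (b : ℕ → ℝ)
    (hb : ∀ j m, m ≤ 2 ^ j → ‖blk t ν (2 ^ j) m‖ * ((2 : ℝ) ^ j) ^ (-(1 / 2) : ℝ) ≤ b j) (K : ℕ) :
    ∀ n ≤ 2 ^ K, ‖∑ i ∈ range n, ee (ph t ν i) * (((ν + (i : ℕ) : ℝ) ^ (-(1 / 2) : ℝ) : ℝ) : ℂ)‖ ≤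
      ν ^ (-(1 / 2) : ℝ) + ∑ j ∈ range K, b j := by
  have hb0 : ∀ j, 0 ≤ b j := fun j =>
    le_trans (by positivity) (hb j 0 (Nat.zero_le _))
  have hν0 : 0 ≤ ν ^ (-(1 / 2) : ℝ) := by positivity
  induction K with
  | zero =>
    intro n hn
    rw [Finset.range_zero, Finset.sum_empty, add_zero]
    rcases Nat.eq_zero_or_pos n with h | h
    · subst h
      simpa using hν0
    · have h1 : n = 1 := by
        rw [pow_zero] at hn
        omega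
      subst h1
      rw [Finset.sum_range_one, norm_mul, MainSum_norm_ee, one_mul, Complex.norm_real,
        Nat.cast_zero, add_zero, Real.norm_of_nonneg hν0]
  | succ K ih =>
    intro n hn
    rcases Nat.le_total n (2 ^ K) with h | h
    · refine (ih n h).trans ?_
      rw [Finset.sum_range_succ]
      have := hb0 K
      linarith
    · obtain ⟨m, rfl⟩ := Nat.exists_eq_add_of_le h
      have hm : m ≤ 2 ^ K := by
        rw [pow_succ] at hn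
        omega
      rw [Finset.sum_range_add, Finset.sum_range_succ (fun j => b j)]
      refine (norm_add_le _ _).trans ?_
      have h1 := ih (2 ^ K) le_rfl
      have h2 : ‖∑ i ∈ range m, ee (ph t ν (2 ^ K + i)) *
          (((ν + ((2 ^ K + i : ℕ) : ℝ)) ^ (-(1 / 2) : ℝ) : ℝ) : ℂ)‖ ≤ b K := by
        obtain ⟨m', hm', hmax⟩ := Finset.exists_max_image (range (m + 1))
          (fun m' => ‖blk t ν (2 ^ K) m'‖) ⟨0, by simp⟩
        rw [Finset.mem_range] at hm'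
        have h3 := wblock t ν (2 ^ K) m (‖blk t ν (2 ^ K) m'‖) hν Nat.one_le_two_pow
          (fun m'' hm'' => hmax m'' (Finset.mem_range.2 (by omega)))
        have h4 := hb K m' (by omega)
        refine h3.trans ?_
        push_cast
        exact h4
      linarith

theorem mains_le : ∃ C : ℝ, 0 < C ∧ ∀ (t ν₀ : ℝ) (m : ℕ), 0 ≤ t → 0 < ν₀ → ν₀ ≤ 1 →
    ‖mains t ν₀ m‖ ≤ C * (ν₀ ^ (-(1 / 2) : ℝ) + t ^ (3 / 26 : ℝ)) := by
  obtain ⟨C, hC, hblk⟩ := MainSum_blocks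
  obtain ⟨G1, hG1⟩ : ∃ G : ℝ, G = (2 : ℝ) ^ (1 / 7 : ℝ) / ((2 : ℝ) ^ (1 / 7 : ℝ) - 1) := ⟨_, rfl⟩
  obtain ⟨G2, hG2⟩ : ∃ G : ℝ, G = 1 / (1 - (2 : ℝ) ^ (-(1 / 6) : ℝ)) := ⟨_, rfl⟩
  obtain ⟨G3, hG3⟩ : ∃ G : ℝ, G = 1 / (1 - (2 : ℝ) ^ (-1 : ℝ)) := ⟨_, rfl⟩
  obtain ⟨G4, hG4⟩ : ∃ G : ℝ, G = (2 : ℝ) ^ (1 : ℝ) / ((2 : ℝ) ^ (1 : ℝ) - 1) := ⟨_, rfl⟩
  obtain ⟨G5, hG5⟩ : ∃ G : ℝ, G = 1 / (1 - (2 : ℝ) ^ (-(1 / 2) : ℝ)) := ⟨_, rfl⟩
  have p1 : 0 ≤ G1 := by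
    have := MainSum_up (1 / 7) 1 (by norm_num) (by norm_num) 0
    rw [Finset.range_zero, Finset.sum_empty, ← hG1] at this
    exact this
  have p2 : 0 ≤ G2 := by
    have := MainSum_down (1 / 6) 1 (by norm_num) (by norm_num) 0
    rw [Finset.range_zero, Finset.sum_empty, ← hG2] at this
    exact this
  have p3 : 0 ≤ G3 := by
    have := MainSum_down 1 1 (by norm_num) (by norm_num) 0
    rw [Finset.range_zero, Finset.sum_empty, ← hG3] at this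
    exact this
  have p4 : 0 ≤ G4 := by
    have := MainSum_up 1 1 (by norm_num) (by norm_num) 0
    rw [Finset.range_zero, Finset.sum_empty, ← hG4] at this
    exact this
  have p5 : 0 ≤ G5 := by
    have := MainSum_down (1 / 2) 1 (by norm_num) (by norm_num) 0
    rw [Finset.range_zero, Finset.sum_empty, ← hG5] at this
    exact this
  refine ⟨1 + C * (G1 + G2 + G3 + G4 + G5) + 4 * G5, by positivity, ?_⟩
  intro t ν m ht hν hν1
  have hmain : mains t ν m =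
      ∑ i ∈ range m, ee (ph t ν i) * (((ν + (i : ℕ) : ℝ) ^ (-(1 / 2) : ℝ) : ℝ) : ℂ) := by
    unfold mains
    refine Finset.sum_congr rfl fun i _ => ?_
    rw [← ze_mul]
    ring
  rw [hmain]
  have hν2 : 1 ≤ ν ^ (-(1 / 2) : ℝ) :=
    Real.one_le_rpow_of_pos_of_le_one_of_nonpos hν hν1 (by norm_num)
  have htp : 0 ≤ t ^ (3 / 26 : ℝ) := by positivity
  have hmK : m ≤ 2 ^ m := Nat.lt_two_pow_self.le
  have hd5 : ∑ j ∈ range m, ((2 : ℝ) ^ j / 1) ^ (-(1 / 2) : ℝ) ≤ G5 := by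
    have h1 := MainSum_down (1 / 2) 1 (by norm_num) (by norm_num) m
    rw [← hG5] at h1
    refine le_trans (le_of_eq ?_) h1
    refine Finset.sum_congr rfl fun j _ => ?_
    rw [if_pos (one_le_pow₀ (by norm_num))]
  rcases le_total t 1 with h1 | h1
  · have h2 := MainSum_dyadic t ν hν (fun j => 4 * ((2 : ℝ) ^ j / 1) ^ (-(1 / 2) : ℝ)) (by
      intro j m' hm'
      rw [div_one]
      exact mul_le_mul_of_nonneg_right (MainSum_small t ν j m' ht h1 hν hν1 hm') (by positivity))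
      m m hmK
    refine h2.trans ?_
    rw [← Finset.mul_sum]
    have e1 : 0 ≤ C * (G1 + G2 + G3 + G4 + G5) := by positivity
    have e2 : 4 * ∑ j ∈ range m, ((2 : ℝ) ^ j / 1) ^ (-(1 / 2) : ℝ) ≤ 4 * G5 := by linarith
    have e3 : 0 ≤ 4 * G5 := by linarith
    nlinarith
  · have ht0 : 0 < t := by linarith
    have h2 := MainSum_dyadic t ν hν
      (fun j => C * (MainSum_bd t j + ((2 : ℝ) ^ j / 1) ^ (-(1 / 2) : ℝ))) (by
      intro j m' hm'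
      exact hblk t ν j m' h1 hν hν1 hm') m m hmK
    refine h2.trans ?_
    rw [← Finset.mul_sum, Finset.sum_add_distrib]
    have hbd : ∑ j ∈ range m, MainSum_bd t j ≤ t ^ (3 / 26 : ℝ) * (G1 + G2 + G3) + G4 := by
      unfold MainSum_bd
      rw [Finset.sum_add_distrib, Finset.sum_add_distrib, Finset.sum_add_distrib,
        ← Finset.mul_sum, ← Finset.mul_sum, ← Finset.mul_sum]
      have s1 := MainSum_up (1 / 7) (t ^ (4 / 13 : ℝ)) (by norm_num) (by positivity) m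
      have s2 := MainSum_down (1 / 6) (t ^ (4 / 13 : ℝ)) (by norm_num) (by positivity) m
      have s3 := MainSum_down 1 (t ^ (2 / 5 : ℝ)) (by norm_num) (by positivity) m
      have s4 := MainSum_up 1 (2 * t ^ (1 / 2 : ℝ)) (by norm_num) (by positivity) m
      rw [← hG1] at s1
      rw [← hG2] at s2
      rw [← hG3] at s3
      rw [← hG4] at s4
      have r1 := mul_le_mul_of_nonneg_left s1 htp
      have r2 := mul_le_mul_of_nonneg_left s2 htp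
      have r3 := mul_le_mul_of_nonneg_left s3 htp
      linarith
    have e0 : C * (∑ j ∈ range m, MainSum_bd t j +
        ∑ j ∈ range m, ((2 : ℝ) ^ j / 1) ^ (-(1 / 2) : ℝ)) ≤
        C * (t ^ (3 / 26 : ℝ) * (G1 + G2 + G3) + G4 + G5) := by
      apply mul_le_mul_of_nonneg_left _ hC.le
      linarith
    have e1 : C * (t ^ (3 / 26 : ℝ) * (G1 + G2 + G3) + G4 + G5) ≤
        C * (G1 + G2 + G3 + G4 + G5) * (ν ^ (-(1 / 2) : ℝ) + t ^ (3 / 26 : ℝ)) := by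
      have e2 : t ^ (3 / 26 : ℝ) * (G1 + G2 + G3) + G4 + G5 ≤
          (G1 + G2 + G3 + G4 + G5) * (ν ^ (-(1 / 2) : ℝ) + t ^ (3 / 26 : ℝ)) := by
        have e3 : G4 + G5 ≤ (G4 + G5) * ν ^ (-(1 / 2) : ℝ) := by nlinarith
        have e4 : 0 ≤ (G1 + G2 + G3) * ν ^ (-(1 / 2) : ℝ) := by positivity
        have e5 : 0 ≤ (G4 + G5) * t ^ (3 / 26 : ℝ) := by positivity
        nlinarith
      calc _ ≤ C * ((G1 + G2 + G3 + G4 + G5) * (ν ^ (-(1 / 2) : ℝ) + t ^ (3 / 26 : ℝ))) :=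
            mul_le_mul_of_nonneg_left e2 hC.le
        _ = _ := by ring
    have e6 : 0 ≤ 4 * G5 * (ν ^ (-(1 / 2) : ℝ) + t ^ (3 / 26 : ℝ)) := by positivity
    nlinarith

end Pool.Agent.Helper31.FI
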