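import Pool.Agent.Helper31.FI.Abel
import Pool.Agent.Helper31.FI.Roots

/-!
# FI-NE: pointwise bound for `0 < u ≤ 2 √(L/(x N))`

`a = x/N ≤ L`, `y = u + i/N`, `X = 1 - ν y`, `0 ≤ ν ≤ rho N u`; `Re X = 1 - ν u ≥ 0`, `ν/N ≤ |X|`.
`‖gk‖ ≤ e^π |X|^(-1/2) exp (-π a/|X|²) ≤ C a^(-1/4)`.
Case `u ≥ 1/N`: `|y| ≤ √2 u`.  Put `ξ = 1 - ν u ∈ [0,1]`, `|X| ≥ ξ`, `dν = dξ / u`.  For `k = 3/2, 5/2`:
`|X|^(-k) exp (-π a/|X|²) ≤ C min (a^(-k/2), ξ^(-k))`, so `∫_0^1 .. dξ ≤ C a^((1-k)/2)`.  By `norm_deriv_gk_le` the variation is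
`≤ C (a^(-1/4) + x u a^(-3/4)) ≤ C √L a^(-1/4)` since `x u ≤ 2 √L √a`.
Case `u < 1/N`: `|X| ≥ (1/N)/|y| ≥ 1/√2`, `|X|² ≤ 2`, `|y| rho N u ≤ 1`, `|y| ≤ √2/N`: variation
`≤ C (1 + a exp (-π a/2)) ≤ C ≤ C √L a^(-1/4)`.
(For `abel_cont` take as `φ` the bound of `norm_deriv_gk_le`, continuous in `ν`.)
-/

set_option autoImplicit false

namespace Pool.Agent.Helper31.FI

open Complex Real Finset MeasureTheory

private theorem Near_ker {m σ ξ k : ℝ} (hm : 0 < m) (hσ : 0 < σ) (hξ : 0 ≤ ξ) (hξm : ξ ≤ m)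
    (hk : 0 ≤ k) (hk3 : k ≤ 3) :
    m ^ (-k) * rexp (-(π * σ ^ 2 / m ^ 2)) ≤ (3 / 2 : ℝ) ^ k * (ξ + σ) ^ (-k) := by
  have hs : 0 < ξ + σ := by linarith
  set t : ℝ := σ / m with ht
  have ht0 : 0 < t := div_pos hσ hm
  have e1 : π * σ ^ 2 / m ^ 2 = π * t ^ 2 := by
    rw [ht, div_pow]
    ring
  have e2 : (ξ + σ) / m ≤ 3 / 2 * rexp (t ^ 2) := by
    have h1 : (ξ + σ) / m ≤ 1 + t := by
      rw [add_div]
      have : ξ / m ≤ 1 := (div_le_one hm).2 hξm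
      linarith
    have h2 : t ^ 2 + 1 ≤ rexp (t ^ 2) := Real.add_one_le_exp _
    nlinarith [sq_nonneg (t - 1), sq_nonneg t]
  have e3 : ((ξ + σ) / m) ^ k ≤ (3 / 2 : ℝ) ^ k * rexp (π * t ^ 2) := by
    calc ((ξ + σ) / m) ^ k ≤ (3 / 2 * rexp (t ^ 2)) ^ k :=
          Real.rpow_le_rpow (by positivity) e2 hk
      _ = (3 / 2 : ℝ) ^ k * rexp (t ^ 2 * k) := by
          rw [Real.mul_rpow (by norm_num) (Real.exp_pos _).le, ← Real.exp_mul]
      _ ≤ (3 / 2 : ℝ) ^ k * rexp (π * t ^ 2) := by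
          refine mul_le_mul_of_nonneg_left (Real.exp_le_exp.2 ?_) (by positivity)
          have := Real.pi_gt_three
          nlinarith [sq_nonneg t]
  have hsk : 0 < (ξ + σ) ^ k := Real.rpow_pos_of_pos hs k
  have hmk : 0 < m ^ k := Real.rpow_pos_of_pos hm k
  rw [Real.div_rpow hs.le hm.le, div_le_iff₀ hmk] at e3
  rw [e1, Real.rpow_neg hm.le, Real.rpow_neg hs.le, Real.exp_neg, ← div_eq_mul_inv,
    ← div_eq_mul_inv, le_div_iff₀ hsk, inv_eq_one_div, div_div, div_mul_eq_mul_div, one_mul,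
    div_le_iff₀ (mul_pos hmk (Real.exp_pos _))]
  calc (ξ + σ) ^ k ≤ (3 / 2 : ℝ) ^ k * rexp (π * t ^ 2) * m ^ k := e3
    _ = (3 / 2 : ℝ) ^ k * (m ^ k * rexp (π * t ^ 2)) := by ring

private theorem Near_anti {u σ c : ℝ} (hu : u ≠ 0) {s : ℝ} (hs : 0 < 1 - s * u + σ) (hc : c ≠ 0) :
    HasDerivAt (fun s : ℝ => 1 / (c * u) * (1 - s * u + σ) ^ (-c)) ((1 - s * u + σ) ^ (-c - 1)) s := by
  have h1 : HasDerivAt (fun s : ℝ => 1 - s * u + σ) (-u) s := by
    have := (((hasDerivAt_id s).mul_const u).const_sub 1).add_const σ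
    simpa using this
  have h2 := (h1.rpow_const (p := -c) (Or.inl hs.ne')).const_mul (1 / (c * u))
  refine h2.congr_deriv ?_
  field_simp

private theorem Near_int {u σ c r : ℝ} (hu : 0 < u) (hσ : 0 < σ) (hr : 0 ≤ r) (hru : r * u ≤ 1)
    (hc : 0 < c) :
    ContinuousOn (fun s : ℝ => (1 - s * u + σ) ^ (-c - 1)) (Set.Icc 0 r) ∧
      ∫ s in (0 : ℝ)..r, (1 - s * u + σ) ^ (-c - 1) ≤ 1 / (c * u) * σ ^ (-c) := by
  have hpos : ∀ s ∈ Set.Icc 0 r, 0 < 1 - s * u + σ := by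
    intro s hs
    have : s * u ≤ r * u := mul_le_mul_of_nonneg_right hs.2 hu.le
    linarith
  have hcont : ContinuousOn (fun s : ℝ => (1 - s * u + σ) ^ (-c - 1)) (Set.Icc 0 r) := by
    refine ContinuousOn.rpow_const (by fun_prop) fun s hs => Or.inl (hpos s hs).ne'
  refine ⟨hcont, ?_⟩
  rw [intervalIntegral.integral_eq_sub_of_hasDerivAt
    (f := fun s : ℝ => 1 / (c * u) * (1 - s * u + σ) ^ (-c))]
  · have h1 : 0 ≤ 1 / (c * u) * (1 - 0 * u + σ) ^ (-c) := by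
      have := hpos 0 ⟨le_refl 0, hr⟩
      positivity
    have h2 : (1 - r * u + σ) ^ (-c) ≤ σ ^ (-c) :=
      Real.rpow_le_rpow_of_nonpos hσ (by linarith) (by linarith)
    have h3 : 0 < 1 / (c * u) := by positivity
    have h4 := mul_le_mul_of_nonneg_left h2 h3.le
    linarith
  · intro s hs
    rw [Set.uIcc_of_le hr] at hs
    exact Near_anti hu.ne' (hpos s hs) hc.ne'
  · refine ContinuousOn.intervalIntegrable ?_
    rw [Set.uIcc_of_le hr]
    exact hcont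

private theorem Near_lowpow {m : ℝ} (hm : 0 < m) (h : 1 / 2 ≤ m ^ 2) :
    m ^ (-(3 / 2) : ℝ) ≤ 2 ∧ m ^ (-(5 / 2) : ℝ) ≤ 4 := by
  have h1 : ∀ k : ℝ, 0 ≤ k → m ^ (-(2 * k) : ℝ) ≤ 2 ^ k := by
    intro k hk
    have e1 : m ^ (-(2 * k) : ℝ) = (m ^ 2) ^ (-k) := by
      rw [← Real.rpow_natCast m 2, ← Real.rpow_mul hm.le]
      congr 1
      push_cast
      ring
    have e2 : (2 : ℝ) ^ k = (1 / 2 : ℝ) ^ (-k) := by
      rw [one_div, Real.inv_rpow (by norm_num), Real.rpow_neg (by norm_num), inv_inv]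
    rw [e1, e2]
    exact Real.rpow_le_rpow_of_nonpos (by norm_num) h (by linarith)
  constructor
  · have h2 := h1 (3 / 4) (by norm_num)
    have h3 : (2 : ℝ) ^ (3 / 4 : ℝ) ≤ 2 ^ (1 : ℝ) :=
      Real.rpow_le_rpow_of_exponent_le (by norm_num) (by norm_num)
    rw [Real.rpow_one] at h3
    have e : (-(2 * (3 / 4)) : ℝ) = -(3 / 2) := by norm_num
    rw [e] at h2
    linarith
  · have h2 := h1 (5 / 4) (by norm_num)
    have h3 : (2 : ℝ) ^ (5 / 4 : ℝ) ≤ 2 ^ (2 : ℝ) :=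
      Real.rpow_le_rpow_of_exponent_le (by norm_num) (by norm_num)
    have h4 : (2 : ℝ) ^ (2 : ℝ) = 4 := by norm_num
    have e : (-(2 * (5 / 4)) : ℝ) = -(5 / 2) := by norm_num
    rw [e] at h2
    linarith

theorem near : ∃ C : ℝ, 0 < C ∧ ∀ (x N ν₀ L u : ℝ) (p q : ℕ), 1 ≤ x → 0 < N → 0 < ν₀ → 1 ≤ L →
    x ≤ L * N → 0 < u → u ≤ 2 * √(L / (x * N)) → (∀ i ∈ Ico p q, ν₀ + i < rho N u) →
    ‖∑ i ∈ Ico p q, ze ^ i * gk x N (ν₀ + i) (u + I / N)‖ ≤ C * (√L * (N / x) ^ (1 / 4 : ℝ)) := by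
  refine ⟨120 * rexp π, by positivity, ?_⟩
  intro x N ν₀ L u p q hx hN hν₀ hL hxL hu hu2 hi
  have hx0 : 0 < x := by linarith
  have hπ3 := Real.pi_gt_three
  have hπ4 := Real.pi_lt_d2
  set y : ℂ := u + I / N with hy
  have hyre : y.re = u := by simp [hy, Complex.div_re]
  have hyim : y.im = 1 / N := by
    have : (I / (N : ℂ)).im = 1 / N := by
      rw [Complex.div_ofReal_im, Complex.I_im]
    rw [hy, Complex.add_im, Complex.ofReal_im, this, zero_add]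
  have hy0 : 0 < y.im := by rw [hyim]; positivity
  have hyn : ‖y‖ ^ 2 = u ^ 2 + (1 / N) ^ 2 := by
    rw [← Complex.normSq_eq_norm_sq, Complex.normSq_apply, hyre, hyim]
    ring
  have hynn : 0 ≤ ‖y‖ := norm_nonneg y
  set a : ℝ := x / N with ha
  have ha0 : 0 < a := div_pos hx0 hN
  set σ : ℝ := √a with hσd
  have hσ : 0 < σ := Real.sqrt_pos.2 ha0
  have hσ2 : σ ^ 2 = a := Real.sq_sqrt ha0.le
  have hb : (N / x) ^ (1 / 4 : ℝ) = σ ^ (-(1 / 2) : ℝ) := by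
    rw [hσd, Real.sqrt_eq_rpow, ← Real.rpow_mul ha0.le, ha, ← inv_div x N, Real.inv_rpow ha0.le,
      ← Real.rpow_neg ha0.le]
    norm_num
    rw [ha]
  rw [hb]
  set b : ℝ := σ ^ (-(1 / 2) : ℝ) with hbd
  have hb0 : 0 < b := Real.rpow_pos_of_pos hσ _
  have hL0 : 0 < L := by linarith
  have hsL : 1 ≤ √L := Real.one_le_sqrt.2 hL
  -- `1 ≤ √L b`
  have hone : 1 ≤ √L * b := by
    have haL : a ≤ L := by
      rw [ha, div_le_iff₀ hN]
      exact hxL
    have h1 : σ ≤ √L := Real.sqrt_le_sqrt haL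
    have h2 : (√L) ^ (-(1 / 2) : ℝ) ≤ b := Real.rpow_le_rpow_of_nonpos hσ h1 (by norm_num)
    have h3 : √L * (√L) ^ (-(1 / 2) : ℝ) = (√L) ^ (1 / 2 : ℝ) := by
      have hp : 0 < √L := by linarith
      nth_rewrite 1 [← Real.rpow_one (√L)]
      rw [← Real.rpow_add hp]
      norm_num
    have h4 : 1 ≤ (√L) ^ (1 / 2 : ℝ) := Real.one_le_rpow hsL (by norm_num)
    have h5 := mul_le_mul_of_nonneg_left h2 (by linarith : 0 ≤ √L)
    linarith
  -- the range
  have hu' : 0 < u ^ 2 + (1 / N) ^ 2 := by positivity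
  have hr0 : 0 ≤ rho N u := by
    unfold rho
    positivity
  have hru : rho N u * u ≤ 1 := by
    unfold rho
    rw [div_mul_eq_mul_div, div_le_one hu']
    nlinarith [sq_nonneg (1 / N)]
  have hp : ∀ i ∈ Ico p q, ν₀ + i ∈ Set.Icc 0 (rho N u) := by
    intro i hi'
    exact ⟨by positivity, (hi i hi').le⟩
  have hXre : ∀ s : ℝ, (1 - (s : ℂ) * y).re = 1 - s * u := by
    intro s
    simp [hyre]
  have hXim : ∀ s : ℝ, (1 - (s : ℂ) * y).im = -(s * (1 / N)) := by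
    intro s
    simp [hyim]
  have hXn : ∀ s : ℝ, ‖1 - (s : ℂ) * y‖ ^ 2 = (1 - s * u) ^ 2 + (s * (1 / N)) ^ 2 := by
    intro s
    rw [← Complex.normSq_eq_norm_sq, Complex.normSq_apply, hXre, hXim]
    ring
  have hX0 : ∀ s : ℝ, 0 ≤ s → 0 < ‖1 - (s : ℂ) * y‖ := by
    intro s hs
    rw [norm_pos_iff]
    intro h
    have h1 := hXre s
    have h2 := hXim s
    rw [h] at h1 h2
    simp only [Complex.zero_re, Complex.zero_im] at h1 h2
    have h3 : s * (1 / N) = 0 := by linarith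
    rcases mul_eq_zero.1 h3 with h4 | h4
    · rw [h4] at h1
      linarith
    · have : 0 < 1 / N := by positivity
      linarith
  have hexp1 : ∀ s : ℝ, π * x * y.im / ‖1 - (s : ℂ) * y‖ ^ 2 =
      π * σ ^ 2 / ‖1 - (s : ℂ) * y‖ ^ 2 := by
    intro s
    rw [hyim, hσ2, ha]
    ring
  have hexp2 : π * N * y.im = π := by
    rw [hyim]
    field_simp
  have hA : ∀ s ∈ Set.Icc 0 (rho N u), ‖gk x N s y‖ ≤ 3 / 2 * rexp π * b := by
    intro s hs
    rw [norm_gk hy0 hs.1, hexp1, hexp2, Real.exp_add, ← mul_assoc]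
    have h1 := Near_ker (hX0 s hs.1) hσ (le_refl 0) (norm_nonneg _) (k := 1 / 2) (by norm_num)
      (by norm_num)
    rw [zero_add] at h1
    have h2 : (3 / 2 : ℝ) ^ (1 / 2 : ℝ) ≤ 3 / 2 := by
      have := Real.rpow_le_rpow_of_exponent_le (x := (3 / 2 : ℝ)) (y := 1 / 2) (z := 1)
        (by norm_num) (by norm_num)
      rwa [Real.rpow_one] at this
    have h3 : (3 / 2 : ℝ) ^ (1 / 2 : ℝ) * σ ^ (-(1 / 2) : ℝ) ≤ 3 / 2 * b :=
      mul_le_mul_of_nonneg_right h2 hb0.le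
    have h4 := mul_le_mul_of_nonneg_right (h1.trans h3) (Real.exp_pos π).le
    linarith
  have hGd : ∀ s ∈ Set.Icc 0 (rho N u), HasDerivAt (fun s : ℝ => gk x N s y)
      (gk x N s y * (y / (2 * (1 - s * y)) + π * I * x * y ^ 2 / (1 - s * y) ^ 2)) s :=
    fun s hs => hasDerivAt_gk hy0 hs.1
  have hcont : ContinuousOn (fun s : ℝ => gk x N s y *
      (y / (2 * (1 - s * y)) + π * I * x * y ^ 2 / (1 - s * y) ^ 2)) (Set.Icc 0 (rho N u)) := by
    have hc1 : ContinuousOn (fun s : ℝ => gk x N s y) (Set.Icc 0 (rho N u)) :=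
      fun s hs => (hGd s hs).continuousAt.continuousWithinAt
    have hne : ∀ s ∈ Set.Icc 0 (rho N u), (1 - (s : ℂ) * y) ≠ 0 :=
      fun s hs => norm_pos_iff.1 (hX0 s hs.1)
    have hc2 : ContinuousOn (fun s : ℝ => (1 - (s : ℂ) * y)) (Set.Icc 0 (rho N u)) := by
      fun_prop
    refine hc1.mul (ContinuousOn.add ?_ ?_)
    · exact continuousOn_const.div (continuousOn_const.mul hc2)
        fun s hs => mul_ne_zero two_ne_zero (hne s hs)
    · exact continuousOn_const.div (hc2.pow 2) fun s hs => pow_ne_zero 2 (hne s hs)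
  rcases le_or_gt (1 / N) u with hcase | hcase
  · -- case `u ≥ 1/N`
    have hyu : ‖y‖ ≤ 3 / 2 * u := by
      have h1 : ‖y‖ ^ 2 ≤ (3 / 2 * u) ^ 2 := by
        rw [hyn]
        have : (1 / N) ^ 2 ≤ u ^ 2 := pow_le_pow_left₀ (by positivity) hcase 2
        nlinarith
      exact le_of_sq_le_sq h1 (by positivity)
    have hyu2 : ‖y‖ ^ 2 ≤ 2 * u ^ 2 := by
      rw [hyn]
      have : (1 / N) ^ 2 ≤ u ^ 2 := pow_le_pow_left₀ (by positivity) hcase 2
      linarith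
    obtain ⟨c1, i1⟩ := Near_int hu hσ hr0 hru (c := 1 / 2) (by norm_num)
    obtain ⟨c2, i2⟩ := Near_int hu hσ hr0 hru (c := 3 / 2) (by norm_num)
    have ee1 : (-(1 / 2) - 1 : ℝ) = -(3 / 2) := by norm_num
    have ee2 : (-(3 / 2) - 1 : ℝ) = -(5 / 2) := by norm_num
    rw [ee1] at c1 i1
    rw [ee2] at c2 i2
    set φ : ℝ → ℝ := fun s => rexp π * (‖y‖ * (9 / 4)) * (1 - s * u + σ) ^ (-(3 / 2) : ℝ) +
      rexp π * (π * x * ‖y‖ ^ 2 * (27 / 8)) * (1 - s * u + σ) ^ (-(5 / 2) : ℝ) with hφd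
    have hφc : ContinuousOn φ (Set.Icc 0 (rho N u)) :=
      (continuousOn_const.mul c1).add (continuousOn_const.mul c2)
    have hbound : ∀ s ∈ Set.Icc 0 (rho N u), ‖gk x N s y *
        (y / (2 * (1 - s * y)) + π * I * x * y ^ 2 / (1 - s * y) ^ 2)‖ ≤ φ s := by
      intro s hs
      refine (norm_deriv_gk_le hx0.le hy0 hs.1).trans ?_
      rw [hexp1, hexp2]
      have hξ : 0 ≤ 1 - s * u := by
        have : s * u ≤ rho N u * u := mul_le_mul_of_nonneg_right hs.2 hu.le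
        linarith
      have hξm : 1 - s * u ≤ ‖1 - (s : ℂ) * y‖ := by
        rw [← hXre]
        exact Complex.re_le_norm _
      have k1 := Near_ker (hX0 s hs.1) hσ hξ hξm (k := 3 / 2) (by norm_num) (by norm_num)
      have k2 := Near_ker (hX0 s hs.1) hσ hξ hξm (k := 5 / 2) (by norm_num) (by norm_num)
      have h1 : (3 / 2 : ℝ) ^ (3 / 2 : ℝ) ≤ 9 / 4 := by
        have := Real.rpow_le_rpow_of_exponent_le (x := (3 / 2 : ℝ)) (y := 3 / 2) (z := 2)
          (by norm_num) (by norm_num)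
        have h2 : (3 / 2 : ℝ) ^ (2 : ℝ) = 9 / 4 := by
          rw [show (2 : ℝ) = ((2 : ℕ) : ℝ) by norm_num, Real.rpow_natCast]
          norm_num
        linarith
      have h2 : (3 / 2 : ℝ) ^ (5 / 2 : ℝ) ≤ 27 / 8 := by
        have := Real.rpow_le_rpow_of_exponent_le (x := (3 / 2 : ℝ)) (y := 5 / 2) (z := 3)
          (by norm_num) (by norm_num)
        have h2 : (3 / 2 : ℝ) ^ (3 : ℝ) = 27 / 8 := by
          rw [show (3 : ℝ) = ((3 : ℕ) : ℝ) by norm_num, Real.rpow_natCast]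
          norm_num
        linarith
      have hsp : 0 < 1 - s * u + σ := by linarith
      have q1 : 0 ≤ (1 - s * u + σ) ^ (-(3 / 2) : ℝ) := (Real.rpow_pos_of_pos hsp _).le
      have q2 : 0 ≤ (1 - s * u + σ) ^ (-(5 / 2) : ℝ) := (Real.rpow_pos_of_pos hsp _).le
      have k1' := k1.trans (mul_le_mul_of_nonneg_right h1 q1)
      have k2' := k2.trans (mul_le_mul_of_nonneg_right h2 q2)
      have hE := Real.exp_pos π
      have w1 := mul_le_mul_of_nonneg_left k1' (mul_nonneg hE.le hynn)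
      have w2 := mul_le_mul_of_nonneg_left k2' (show 0 ≤ rexp π * (π * x * ‖y‖ ^ 2) by positivity)
      simp only [hφd]
      calc rexp π * rexp (-(π * σ ^ 2 / ‖1 - (s : ℂ) * y‖ ^ 2)) *
            (‖y‖ * ‖1 - (s : ℂ) * y‖ ^ (-(3 / 2) : ℝ) +
              π * x * ‖y‖ ^ 2 * ‖1 - (s : ℂ) * y‖ ^ (-(5 / 2) : ℝ))
          = rexp π * ‖y‖ * (‖1 - (s : ℂ) * y‖ ^ (-(3 / 2) : ℝ) *
              rexp (-(π * σ ^ 2 / ‖1 - (s : ℂ) * y‖ ^ 2))) +
            rexp π * (π * x * ‖y‖ ^ 2) * (‖1 - (s : ℂ) * y‖ ^ (-(5 / 2) : ℝ) *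
              rexp (-(π * σ ^ 2 / ‖1 - (s : ℂ) * y‖ ^ 2))) := by ring
        _ ≤ rexp π * ‖y‖ * (9 / 4 * (1 - s * u + σ) ^ (-(3 / 2) : ℝ)) +
            rexp π * (π * x * ‖y‖ ^ 2) * (27 / 8 * (1 - s * u + σ) ^ (-(5 / 2) : ℝ)) :=
              add_le_add w1 w2
        _ = _ := by ring
    have hT : ∫ s in (0 : ℝ)..(rho N u), φ s ≤ 36 * rexp π * (√L * b) := by
      have hI1 : IntervalIntegrable (fun s : ℝ => rexp π * (‖y‖ * (9 / 4)) *
          (1 - s * u + σ) ^ (-(3 / 2) : ℝ)) volume 0 (rho N u) := by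
        refine ContinuousOn.intervalIntegrable ?_
        rw [Set.uIcc_of_le hr0]
        exact continuousOn_const.mul c1
      have hI2 : IntervalIntegrable (fun s : ℝ => rexp π * (π * x * ‖y‖ ^ 2 * (27 / 8)) *
          (1 - s * u + σ) ^ (-(5 / 2) : ℝ)) volume 0 (rho N u) := by
        refine ContinuousOn.intervalIntegrable ?_
        rw [Set.uIcc_of_le hr0]
        exact continuousOn_const.mul c2
      simp only [hφd]
      rw [intervalIntegral.integral_add hI1 hI2, intervalIntegral.integral_const_mul,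
        intervalIntegral.integral_const_mul]
      have hE := Real.exp_pos π
      have j1 := mul_le_mul_of_nonneg_left i1 (show 0 ≤ rexp π * (‖y‖ * (9 / 4)) by positivity)
      have j2 := mul_le_mul_of_nonneg_left i2
        (show 0 ≤ rexp π * (π * x * ‖y‖ ^ 2 * (27 / 8)) by positivity)
      -- bound of `x u σ^(-3/2)`
      have hxu : x * u ≤ 2 * √L * σ := by
        have h1 : x * u ≤ x * (2 * √(L / (x * N))) := mul_le_mul_of_nonneg_left hu2 hx0.le
        have h2 : x * √(L / (x * N)) = √L * σ := by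
          rw [hσd, ← Real.sqrt_mul hL0.le]
          nth_rewrite 1 [← Real.sqrt_sq hx0.le]
          rw [← Real.sqrt_mul (sq_nonneg x)]
          congr 1
          rw [ha]
          field_simp
        linarith
      have hσb : σ * σ ^ (-(3 / 2) : ℝ) = b := by
        nth_rewrite 1 [← Real.rpow_one σ]
        rw [← Real.rpow_add hσ, hbd]
        norm_num
      have hσ3 : 0 < σ ^ (-(3 / 2) : ℝ) := Real.rpow_pos_of_pos hσ _
      have hxus : x * u * σ ^ (-(3 / 2) : ℝ) ≤ 2 * (√L * b) := by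
        calc x * u * σ ^ (-(3 / 2) : ℝ) ≤ 2 * √L * σ * σ ^ (-(3 / 2) : ℝ) :=
              mul_le_mul_of_nonneg_right hxu hσ3.le
          _ = 2 * (√L * (σ * σ ^ (-(3 / 2) : ℝ))) := by ring
          _ = 2 * (√L * b) := by rw [hσb]
      have z1 : rexp π * (‖y‖ * (9 / 4)) * (1 / (1 / 2 * u) * σ ^ (-(1 / 2) : ℝ)) ≤
          7 * rexp π * (√L * b) := by
        have h1 : ‖y‖ / u ≤ 3 / 2 := by
          rw [div_le_iff₀ hu]
          exact hyu
        have h2 : b ≤ √L * b := le_mul_of_one_le_left hb0.le hsL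
        calc rexp π * (‖y‖ * (9 / 4)) * (1 / (1 / 2 * u) * b)
            = rexp π * (9 / 2) * (‖y‖ / u) * b := by
              field_simp
              ring
          _ ≤ rexp π * (9 / 2) * (3 / 2) * (√L * b) := by gcongr
          _ ≤ 7 * rexp π * (√L * b) := by nlinarith [mul_pos hE (lt_of_lt_of_le one_pos hone)]
      have z2 : rexp π * (π * x * ‖y‖ ^ 2 * (27 / 8)) * (1 / (3 / 2 * u) * σ ^ (-(3 / 2) : ℝ)) ≤
          29 * rexp π * (√L * b) := by
        have h1 : ‖y‖ ^ 2 / u ≤ 2 * u := by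
          rw [div_le_iff₀ hu]
          linarith
        calc rexp π * (π * x * ‖y‖ ^ 2 * (27 / 8)) * (1 / (3 / 2 * u) * σ ^ (-(3 / 2) : ℝ))
            = rexp π * (π * (9 / 4)) * (x * (‖y‖ ^ 2 / u) * σ ^ (-(3 / 2) : ℝ)) := by
              field_simp
              ring
          _ ≤ rexp π * (π * (9 / 4)) * (x * (2 * u) * σ ^ (-(3 / 2) : ℝ)) := by gcongr
          _ = rexp π * (π * (9 / 2)) * (x * u * σ ^ (-(3 / 2) : ℝ)) := by ring
          _ ≤ rexp π * (π * (9 / 2)) * (2 * (√L * b)) := by gcongr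
          _ = (9 * π) * (rexp π * (√L * b)) := by ring
          _ ≤ 29 * (rexp π * (√L * b)) := by
              refine mul_le_mul_of_nonneg_right (by linarith) (by positivity)
          _ = 29 * rexp π * (√L * b) := by ring
      linarith
    have h := abel_cont ν₀ 0 (rho N u) _ _ (fun s : ℝ => gk x N s y) _ φ hr0 hGd hcont hφc
      hbound hA hT p q hp
    have h2 : b ≤ √L * b := le_mul_of_one_le_left hb0.le hsL
    have hE := Real.exp_pos π
    push_cast at h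
    refine h.trans ?_
    nlinarith [mul_le_mul_of_nonneg_left h2 hE.le, mul_pos hE (lt_of_lt_of_le one_pos hone)]
  · -- case `u < 1/N`
    have hy2 : ‖y‖ ^ 2 ≤ 2 * (1 / N) ^ 2 := by
      rw [hyn]
      have : u ^ 2 ≤ (1 / N) ^ 2 := pow_le_pow_left₀ hu.le hcase.le 2
      linarith
    have hN1 : 0 < 1 / N := by positivity
    have hy1 : ‖y‖ ≤ 3 / 2 * (1 / N) := by
      have h1 : ‖y‖ ^ 2 ≤ (3 / 2 * (1 / N)) ^ 2 := by nlinarith [sq_nonneg (1 / N)]
      exact le_of_sq_le_sq h1 (by positivity)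
    have hrN : rho N u ≤ N := by
      unfold rho
      rw [div_le_iff₀ hu']
      have h1 : N * (1 / N) ^ 2 = 1 / N := by field_simp
      nlinarith [mul_nonneg hN.le (sq_nonneg u)]
    have hrN2 : rho N u * (1 / N) ≤ 1 := by
      rw [mul_one_div, div_le_one hN]
      exact hrN
    have hbound : ∀ s ∈ Set.Icc 0 (rho N u), ‖gk x N s y *
        (y / (2 * (1 - s * y)) + π * I * x * y ^ 2 / (1 - s * y) ^ 2)‖ ≤
          (fun _ : ℝ => 30 * rexp π * (1 / N)) s := by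
      intro s hs
      refine (norm_deriv_gk_le hx0.le hy0 hs.1).trans ?_
      rw [hexp1, hexp2]
      have hm := hX0 s hs.1
      have hξ : 0 ≤ 1 - s * u := by
        have : s * u ≤ rho N u * u := mul_le_mul_of_nonneg_right hs.2 hu.le
        linarith
      have hξ1 : 1 - s * u ≤ 1 := by
        have := mul_nonneg hs.1 hu.le
        linarith
      have hs1 : s * (1 / N) ≤ 1 := (mul_le_mul_of_nonneg_right hs.2 hN1.le).trans hrN2
      have hs0 : 0 ≤ s * (1 / N) := mul_nonneg hs.1 hN1.le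
      have hup : ‖1 - (s : ℂ) * y‖ ^ 2 ≤ 2 := by
        rw [hXn]
        nlinarith
      have hlow : 1 / 2 ≤ ‖1 - (s : ℂ) * y‖ ^ 2 := by
        rw [hXn]
        have hsu : s * u ≤ s * (1 / N) := mul_le_mul_of_nonneg_left hcase.le hs.1
        nlinarith [sq_nonneg (1 - s * u - s * (1 / N)), sq_nonneg (1 - 2 * (s * u))]
      obtain ⟨m1, m2⟩ := Near_lowpow hm hlow
      have he : rexp (-(π * σ ^ 2 / ‖1 - (s : ℂ) * y‖ ^ 2)) ≤ 1 := by
        rw [Real.exp_le_one_iff]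
        have : 0 ≤ π * σ ^ 2 / ‖1 - (s : ℂ) * y‖ ^ 2 := by positivity
        linarith
      have hae : a * rexp (-(π * σ ^ 2 / ‖1 - (s : ℂ) * y‖ ^ 2)) ≤ 1 := by
        have h1 : a ≤ π * σ ^ 2 / ‖1 - (s : ℂ) * y‖ ^ 2 := by
          rw [hσ2, le_div_iff₀ (by positivity)]
          nlinarith
        have h2 := Real.add_one_le_exp (π * σ ^ 2 / ‖1 - (s : ℂ) * y‖ ^ 2)
        rw [Real.exp_neg, ← div_eq_mul_inv, div_le_one (Real.exp_pos _)]
        linarith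
      have he0 := Real.exp_pos (-(π * σ ^ 2 / ‖1 - (s : ℂ) * y‖ ^ 2))
      set E : ℝ := rexp (-(π * σ ^ 2 / ‖1 - (s : ℂ) * y‖ ^ 2)) with hEd
      have hE := Real.exp_pos π
      have w1 : ‖y‖ * ‖1 - (s : ℂ) * y‖ ^ (-(3 / 2) : ℝ) * E ≤ 3 * (1 / N) := by
        have h0 : 0 ≤ ‖1 - (s : ℂ) * y‖ ^ (-(3 / 2) : ℝ) := by positivity
        calc ‖y‖ * ‖1 - (s : ℂ) * y‖ ^ (-(3 / 2) : ℝ) * E
            ≤ (3 / 2 * (1 / N)) * 2 * 1 := by gcongr
          _ = 3 * (1 / N) := by ring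
      have w2 : π * x * ‖y‖ ^ 2 * ‖1 - (s : ℂ) * y‖ ^ (-(5 / 2) : ℝ) * E ≤ 26 * (1 / N) := by
        have h0 : 0 ≤ ‖1 - (s : ℂ) * y‖ ^ (-(5 / 2) : ℝ) := by positivity
        calc π * x * ‖y‖ ^ 2 * ‖1 - (s : ℂ) * y‖ ^ (-(5 / 2) : ℝ) * E
            ≤ π * x * (2 * (1 / N) ^ 2) * 4 * E := by gcongr
          _ = (8 * π) * (a * E) * (1 / N) := by
              rw [ha]
              ring
          _ ≤ (8 * π) * 1 * (1 / N) := by gcongr
          _ ≤ 26 * (1 / N) := by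
              refine mul_le_mul_of_nonneg_right (by linarith) hN1.le
      have h3 : rexp π * E * (‖y‖ * ‖1 - (s : ℂ) * y‖ ^ (-(3 / 2) : ℝ) +
          π * x * ‖y‖ ^ 2 * ‖1 - (s : ℂ) * y‖ ^ (-(5 / 2) : ℝ)) =
          rexp π * (‖y‖ * ‖1 - (s : ℂ) * y‖ ^ (-(3 / 2) : ℝ) * E +
            π * x * ‖y‖ ^ 2 * ‖1 - (s : ℂ) * y‖ ^ (-(5 / 2) : ℝ) * E) := by ring
      rw [h3]
      have h4 := mul_le_mul_of_nonneg_left (add_le_add w1 w2) hE.le
      refine h4.trans ?_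
      nlinarith [mul_pos hE hN1]
    have hT : ∫ s in (0 : ℝ)..(rho N u), (fun _ : ℝ => 30 * rexp π * (1 / N)) s ≤
        30 * rexp π := by
      rw [intervalIntegral.integral_const, smul_eq_mul, sub_zero]
      have hE := Real.exp_pos π
      calc rho N u * (30 * rexp π * (1 / N)) = 30 * rexp π * (rho N u * (1 / N)) := by ring
        _ ≤ 30 * rexp π * 1 := by gcongr
        _ = 30 * rexp π := by ring
    have h := abel_cont ν₀ 0 (rho N u) _ _ (fun s : ℝ => gk x N s y) _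
      (fun _ : ℝ => 30 * rexp π * (1 / N)) hr0 hGd hcont continuousOn_const
      hbound hA hT p q hp
    have h2 : b ≤ √L * b := le_mul_of_one_le_left hb0.le hsL
    have hE := Real.exp_pos π
    push_cast at h
    refine h.trans ?_
    nlinarith [mul_le_mul_of_nonneg_left h2 hE.le, mul_le_mul_of_nonneg_left hone hE.le]

end Pool.Agent.Helper31.FI
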