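import Pool.Agent.Helper31.FI.Roots

/-!
# FI-SP: splitting the chain integral

`m = cnt ν₀ V`, `0 < V ≤ N/2`.  `ch` is a finite sum (`cnt ν₀ (rho N u) ≤ cnt ν₀ (N/2)`) of
`indicator {u | ν₀ + i < rho N u} * ze^i gk`, each indicator is that of an open interval `(al, be)` (`rho_gt_iff`), bounded and
continuous there, so everything is integrable.  For `i < m` (i.e. `ν₀ + i < V`) the interval is `(al, be)`.  The rest
`∑_{m ≤ i < cnt ν₀ (rho N u)}` vanishes unless `V ≤ ν₀ + m < rho N u < 1/u`, i.e. `0 < u < 1/V`.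
-/

set_option autoImplicit false

namespace Pool.Agent.Helper31.FI

open Complex Real Finset MeasureTheory

private lemma Split_lt_cnt (ν r : ℝ) (i : ℕ) : i < cnt ν r ↔ ν + i < r := by
  rw [cnt, Nat.lt_ceil, lt_sub_iff_add_lt, add_comm]

private lemma Split_cnt_mono (ν : ℝ) {r r' : ℝ} (h : r ≤ r') : cnt ν r ≤ cnt ν r' :=
  Nat.ceil_mono (sub_le_sub_right h ν)

/-- the `i`-th term -/
private noncomputable def Split_g (x N ν₀ : ℝ) (i : ℕ) (u : ℝ) : ℂ :=
  ze ^ i * gk x N (ν₀ + i) (u + I / N)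

private lemma Split_g_cont {x N ν₀ : ℝ} (hN : 0 < N) (hν : 0 < ν₀) (i : ℕ) :
    Continuous (Split_g x N ν₀ i) := by
  have hi : 0 < ν₀ + i := by positivity
  have h := continuous_gk (x := x) (N := N) (ν := ν₀ + i) (v := 1 / N) (by positivity) hi
  have h2 : Split_g x N ν₀ i =
      fun u : ℝ => ze ^ i * gk x N (ν₀ + i) (u + I * ((1 / N : ℝ) : ℂ)) := by
    funext u
    have h3 : I / (N : ℂ) = I * ((1 / N : ℝ) : ℂ) := by
      push_cast
      ring
    rw [Split_g, h3]
  rw [h2]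
  exact continuous_const.mul h

/-- the `i`-th term restricted to the interval where it occurs -/
private noncomputable def Split_h (x N ν₀ : ℝ) (i : ℕ) : ℝ → ℂ :=
  Set.indicator (Set.Ioo (al N (ν₀ + i)) (be N (ν₀ + i))) (Split_g x N ν₀ i)

private lemma Split_h_int {x N ν₀ : ℝ} (hN : 0 < N) (hν : 0 < ν₀) (i : ℕ) :
    Integrable (Split_h x N ν₀ i) := by
  rw [Split_h, integrable_indicator_iff measurableSet_Ioo]
  exact ((Split_g_cont hN hν i).integrableOn_Icc).mono_set Set.Ioo_subset_Icc_self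

private lemma Split_h_eq {x N ν₀ u : ℝ} (hN : 0 < N) (hν : 0 < ν₀) {i : ℕ}
    (hi : i < cnt ν₀ (N / 2)) :
    Split_h x N ν₀ i u = if i < cnt ν₀ (rho N u) then Split_g x N ν₀ i u else 0 := by
  classical
  rw [Split_lt_cnt] at hi
  have hi' : 0 < ν₀ + i := by positivity
  have h := rho_gt_iff (u := u) hN hi' hi.le
  rw [Split_h, Set.indicator_apply]
  have h2 : u ∈ Set.Ioo (al N (ν₀ + i)) (be N (ν₀ + i)) ↔ i < cnt ν₀ (rho N u) := by
    rw [Split_lt_cnt, h]
    exact Iff.rfl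
  simp only [h2]

/-- the sums from `m` on -/
private lemma Split_sum {x N ν₀ u : ℝ} (hN : 0 < N) (hν : 0 < ν₀) (m : ℕ) :
    ∑ i ∈ Ico m (cnt ν₀ (rho N u)), Split_g x N ν₀ i u =
      ∑ i ∈ Ico m (cnt ν₀ (N / 2)), Split_h x N ν₀ i u := by
  have hle : cnt ν₀ (rho N u) ≤ cnt ν₀ (N / 2) := Split_cnt_mono ν₀ (rho_le hN)
  have h1 : ∑ i ∈ Ico m (cnt ν₀ (N / 2)), Split_h x N ν₀ i u =
      ∑ i ∈ Ico m (cnt ν₀ (N / 2)),
        if i < cnt ν₀ (rho N u) then Split_g x N ν₀ i u else 0 := by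
    refine Finset.sum_congr rfl fun i hi => ?_
    exact Split_h_eq hN hν (Finset.mem_Ico.1 hi).2
  rw [h1, ← Finset.sum_filter]
  refine Finset.sum_congr ?_ fun _ _ => rfl
  ext i
  simp only [Finset.mem_Ico, Finset.mem_filter]
  constructor
  · rintro ⟨h2, h3⟩
    exact ⟨⟨h2, h3.trans_le hle⟩, h3⟩
  · rintro ⟨⟨h2, _⟩, h3⟩
    exact ⟨h2, h3⟩

private lemma Split_ch {x N ν₀ : ℝ} (hN : 0 < N) (hν : 0 < ν₀) :
    ch x N ν₀ = fun u => ∑ i ∈ Ico 0 (cnt ν₀ (N / 2)), Split_h x N ν₀ i u := by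
  funext u
  rw [← Split_sum hN hν 0, ch, Finset.range_eq_Ico]
  rfl

theorem integrable_ch {x N ν₀ : ℝ} (hN : 0 < N) (hν : 0 < ν₀) : Integrable (ch x N ν₀) := by
  rw [Split_ch hN hν]
  exact integrable_finsetSum _ fun i _ => Split_h_int hN hν i

theorem split {x N ν₀ V : ℝ} (hN : 0 < N) (hν : 0 < ν₀) (hV : 0 < V) (hVN : V ≤ N / 2) :
    ∫ u, ch x N ν₀ u =
      (∑ i ∈ range (cnt ν₀ V), ze ^ i *
        ∫ u in (al N (ν₀ + i))..(be N (ν₀ + i)), gk x N (ν₀ + i) (u + I / N)) +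
      ∫ u in (0 : ℝ)..(1 / V), ∑ i ∈ Ico (cnt ν₀ V) (cnt ν₀ (rho N u)),
        ze ^ i * gk x N (ν₀ + i) (u + I / N) := by
  have hm : cnt ν₀ V ≤ cnt ν₀ (N / 2) := Split_cnt_mono ν₀ hVN
  have h1 : ∫ u, ch x N ν₀ u = ∑ i ∈ Ico 0 (cnt ν₀ (N / 2)), ∫ u, Split_h x N ν₀ i u := by
    rw [Split_ch hN hν]
    exact integral_finsetSum _ fun i _ => Split_h_int hN hν i
  rw [h1, ← Finset.sum_Ico_consecutive _ (Nat.zero_le _) hm]
  congr 1
  · rw [Finset.range_eq_Ico]
    refine Finset.sum_congr rfl fun i hi => ?_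
    have hiV : ν₀ + i < V := (Split_lt_cnt ν₀ V i).1 (Finset.mem_Ico.1 hi).2
    have hi' : 0 < ν₀ + i := by positivity
    obtain ⟨_, _, h3, h4, _⟩ := al_be hN hi' (hiV.le.trans hVN)
    rw [intervalIntegral.integral_of_le (h3.trans h4), integral_Ioc_eq_integral_Ioo,
      ← integral_const_mul, Split_h, integral_indicator measurableSet_Ioo]
    rfl
  · rw [← integral_finsetSum _ fun i _ => Split_h_int hN hν i,
      intervalIntegral.integral_of_le (by positivity),
      setIntegral_eq_integral_of_forall_compl_eq_zero]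
    · refine integral_congr_ae (Filter.Eventually.of_forall fun u => ?_)
      exact (Split_sum hN hν (cnt ν₀ V)).symm
    · intro u hu
      refine Finset.sum_eq_zero fun i hi => ?_
      exfalso
      rw [Finset.mem_Ico] at hi
      obtain ⟨hi1, hi2⟩ := hi
      rw [Split_lt_cnt] at hi2
      have hi3 : V ≤ ν₀ + i := by
        by_contra hlt
        push Not at hlt
        have := (Split_lt_cnt ν₀ V i).2 hlt
        omega
      have hVr : V < rho N u := hi3.trans_lt hi2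
      apply hu
      have hu0 : 0 < u := by
        by_contra hneg
        push Not at hneg
        have : rho N u ≤ 0 := by
          rw [rho]
          exact div_nonpos_of_nonpos_of_nonneg hneg (by positivity)
        linarith
      refine ⟨hu0, ?_⟩
      have h5 := rho_lt hN hu0
      have h6 : V < 1 / u := hVr.trans h5
      rw [lt_div_iff₀ hu0] at h6
      rw [le_div_iff₀ hV]
      linarith

end Pool.Agent.Helper31.FI
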