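import Pool.Agent.Helper31.FI.Defs

/-!
# FI-TM: size and derivative of one term in the variable `ν`

`y = u + i v`, `v > 0`, `X = 1 - ν y`.  `Im (y / X) = v / |X|²`, so
`‖gk x N ν y‖ = |X|^(-1/2) exp (-π x v / |X|² + π N v)`.
Derivative in `ν`: `gk * (y / (2 X) + π i x y² / X²)`.
`X` is in the slit plane as `Im X = -ν v`; for `ν = 0` it is `1`.
-/

set_option autoImplicit false

namespace Pool.Agent.Helper31.FI

open Complex Real Finset MeasureTheory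

private theorem Term_re (ν : ℝ) (y : ℂ) : (1 - ν * y).re = 1 - ν * y.re := by
  simp

private theorem Term_im (ν : ℝ) (y : ℂ) : (1 - ν * y).im = -(ν * y.im) := by
  simp

private theorem Term_slit {ν : ℝ} {y : ℂ} (hy : 0 < y.im) (hν : 0 ≤ ν) :
    (1 - ν * y) ∈ slitPlane := by
  rcases hν.eq_or_lt with h | h
  · rw [← h]
    simp
  · refine mem_slitPlane_iff.2 (Or.inr ?_)
    rw [Term_im]
    exact neg_ne_zero.2 (mul_pos h hy).ne'

private theorem Term_div_im {ν : ℝ} {y : ℂ} :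
    (y / (1 - ν * y)).im = y.im / ‖1 - ν * y‖ ^ 2 := by
  rw [div_im, Term_re, Term_im, ← normSq_eq_norm_sq]
  ring

theorem norm_gk {x N ν : ℝ} {y : ℂ} (hy : 0 < y.im) (hν : 0 ≤ ν) :
    ‖gk x N ν y‖ = ‖1 - ν * y‖ ^ (-(1 / 2) : ℝ) *
      rexp (-(π * x * y.im / ‖1 - ν * y‖ ^ 2) + π * N * y.im) := by
  unfold gk
  rw [norm_mul, norm_exp]
  have h1 : (-(1 / 2) : ℂ) = ((-(1 / 2) : ℝ) : ℂ) := by push_cast; ring
  rw [h1, norm_cpow_real]
  congr 2
  have h2 : (π * I * (x * y / (1 - ν * y) - N * y) : ℂ)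
      = ((π : ℝ) : ℂ) * ((((x : ℝ) : ℂ) * (y / (1 - ν * y)) - ((N : ℝ) : ℂ) * y) * I) := by
    ring
  rw [h2, re_ofReal_mul, mul_I_re, sub_im, im_ofReal_mul, im_ofReal_mul, Term_div_im]
  ring

theorem hasDerivAt_gk {x N ν : ℝ} {y : ℂ} (hy : 0 < y.im) (hν : 0 ≤ ν) :
    HasDerivAt (fun s : ℝ => gk x N s y)
      (gk x N ν y * (y / (2 * (1 - ν * y)) + π * I * x * y ^ 2 / (1 - ν * y) ^ 2)) ν := by
  have hs := Term_slit hy hν
  have h0 : (1 - ν * y : ℂ) ≠ 0 := slitPlane_ne_zero hs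
  have hX : HasDerivAt (fun s : ℂ => 1 - s * y) (-y) (ν : ℂ) := by
    have h1 := ((hasDerivAt_id (ν : ℂ)).mul_const y).const_sub 1
    simpa using h1
  have hp : HasDerivAt (fun s : ℂ => (1 - s * y) ^ (-(1 / 2) : ℂ))
      ((-(1 / 2) : ℂ) * (1 - ν * y) ^ ((-(1 / 2) : ℂ) - 1) * (-y)) (ν : ℂ) :=
    hX.cpow_const hs
  have hd : HasDerivAt (fun s : ℂ => (x * y / (1 - s * y) : ℂ))
      (x * y * y / (1 - ν * y) ^ 2) (ν : ℂ) := by
    have h1 := (hasDerivAt_const (ν : ℂ) ((x : ℂ) * y)).div hX h0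
    refine h1.congr_deriv ?_
    ring
  have he : HasDerivAt (fun s : ℂ => cexp (π * I * (x * y / (1 - s * y) - N * y)))
      (cexp (π * I * (x * y / (1 - ν * y) - N * y)) *
        (π * I * (x * y * y / (1 - ν * y) ^ 2))) (ν : ℂ) :=
    ((hd.sub_const (N * y : ℂ)).const_mul (π * I : ℂ)).cexp
  have hm := (hp.mul he).comp_ofReal
  refine hm.congr_deriv ?_
  rw [cpow_sub _ _ h0, cpow_one]
  unfold gk
  generalize (1 - ν * y : ℂ) ^ (-(1 / 2) : ℂ) = A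
  generalize cexp (π * I * (x * y / (1 - ν * y) - N * y)) = B
  generalize (1 - ν * y : ℂ) = X at h0 ⊢
  field_simp

theorem norm_deriv_gk_le {x N ν : ℝ} {y : ℂ} (hx : 0 ≤ x) (hy : 0 < y.im) (hν : 0 ≤ ν) :
    ‖gk x N ν y * (y / (2 * (1 - ν * y)) + π * I * x * y ^ 2 / (1 - ν * y) ^ 2)‖ ≤
      rexp (π * N * y.im) * rexp (-(π * x * y.im / ‖1 - ν * y‖ ^ 2)) *
        (‖y‖ * ‖1 - ν * y‖ ^ (-(3 / 2) : ℝ) + π * x * ‖y‖ ^ 2 * ‖1 - ν * y‖ ^ (-(5 / 2) : ℝ)) := by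
  have hs := Term_slit hy hν
  have h0 : (1 - ν * y : ℂ) ≠ 0 := slitPlane_ne_zero hs
  have hpos : 0 < ‖(1 - ν * y : ℂ)‖ := norm_pos_iff.2 h0
  rw [norm_mul, norm_gk hy hν]
  set r : ℝ := ‖(1 - ν * y : ℂ)‖ with hr
  have hb : ‖y / (2 * (1 - ν * y)) + π * I * x * y ^ 2 / (1 - ν * y) ^ 2‖ ≤
      ‖y‖ / r + π * x * ‖y‖ ^ 2 / r ^ 2 := by
    refine (norm_add_le _ _).trans (add_le_add ?_ ?_)
    · rw [norm_div, norm_mul, ← hr]
      have h2 : ‖(2 : ℂ)‖ = 2 := by simp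
      rw [h2]
      refine div_le_div_of_nonneg_left (norm_nonneg _) hpos ?_
      linarith
    · rw [norm_div, norm_mul, norm_mul, norm_mul, norm_pow, norm_pow, ← hr, norm_I, mul_one,
        norm_real, norm_real, Real.norm_of_nonneg pi_pos.le, Real.norm_of_nonneg hx]
  have e1 : r ^ (-(3 / 2) : ℝ) = r ^ (-(1 / 2) : ℝ) / r := by
    rw [← Real.rpow_sub_one hpos.ne']
    norm_num
  have e2 : r ^ (-(5 / 2) : ℝ) = r ^ (-(1 / 2) : ℝ) / r ^ 2 := by
    rw [← Real.rpow_natCast r 2, ← Real.rpow_sub hpos]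
    norm_num
  rw [e1, e2, Real.exp_add]
  have hnn : 0 ≤ r ^ (-(1 / 2) : ℝ) *
      (rexp (-(π * x * y.im / r ^ 2)) * rexp (π * N * y.im)) := by positivity
  refine (mul_le_mul_of_nonneg_left hb hnn).trans (le_of_eq ?_)
  ring

/-- continuity in the real part of `y` -/
theorem continuous_gk {x N ν v : ℝ} (hv : 0 < v) (hν : 0 < ν) :
    Continuous (fun u : ℝ => gk x N ν (u + I * v)) := by
  have hs : ∀ u : ℝ, (1 - ν * (u + I * v) : ℂ) ∈ slitPlane := by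
    intro u
    refine Term_slit ?_ hν.le
    simp [hv]
  have hc : Continuous fun u : ℝ => (u + I * v : ℂ) := by fun_prop
  have hX : Continuous fun u : ℝ => (1 - ν * (u + I * v) : ℂ) := by fun_prop
  unfold gk
  refine Continuous.mul (hX.cpow continuous_const hs) ?_
  refine Complex.continuous_exp.comp (continuous_const.mul ?_)
  exact ((continuous_const.mul hc).div hX fun u => slitPlane_ne_zero (hs u)).sub
    (continuous_const.mul hc)

end Pool.Agent.Helper31.FI
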