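import Pool.Agent.Helper31.FI.Abel
import Pool.Agent.Helper31.FI.Term

/-!
# FI-VE: the vertical segment

`N > 0`, all `ν₀ + i ≤ N/2` for `i < m`.  For `0 < s ≤ 1/N` and `0 ≤ ν ≤ N/2`, `y = i s`, `X = 1 - i ν s`:
`1 ≤ |X|² ≤ 5/4`, `‖gk‖ ≤ e^π`, and by `norm_deriv_gk_le` the derivative in `ν` is
`≤ e^π exp (-(4/5) π x s) (s + π x s²) ≤ 2 e^π s`.  `abel_cont` on `[0, N/2]`: `≤ 3 (e^π + e^π)`.  Integrate over `s` (the sum
is inside the integral).
-/

set_option autoImplicit false

namespace Pool.Agent.Helper31.FI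

open Complex Real Finset MeasureTheory

private lemma Vert_re (ν s : ℝ) : (1 - (ν : ℂ) * (I * s)).re = 1 := by
  simp [Complex.sub_re, Complex.mul_re]

private lemma Vert_slit (ν s : ℝ) : (1 - (ν : ℂ) * (I * s)) ∈ slitPlane :=
  Or.inl (by rw [Vert_re]; exact one_pos)

private lemma Vert_ne (ν s : ℝ) : (1 - (ν : ℂ) * (I * s)) ≠ 0 :=
  slitPlane_ne_zero (Vert_slit ν s)

private lemma Vert_normSq (ν s : ℝ) : ‖1 - (ν : ℂ) * (I * s)‖ ^ 2 = 1 + (ν * s) ^ 2 := by
  rw [← Complex.normSq_eq_norm_sq, Complex.normSq_apply, Vert_re]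
  have : (1 - (ν : ℂ) * (I * s)).im = -(ν * s) := by
    simp [Complex.sub_im, Complex.mul_im]
  rw [this]
  ring

private lemma Vert_one_le (ν s : ℝ) : 1 ≤ ‖1 - (ν : ℂ) * (I * s)‖ := by
  have h := Vert_normSq ν s
  nlinarith [norm_nonneg (1 - (ν : ℂ) * (I * s)), sq_nonneg (ν * s)]

private lemma Vert_cont (x N ν : ℝ) : Continuous fun s : ℝ => gk x N ν (I * s) := by
  unfold gk
  refine Continuous.mul ?_ ?_
  · refine continuous_iff_continuousAt.2 fun s => ?_
    refine ContinuousAt.cpow ?_ continuousAt_const (Vert_slit ν s)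
    fun_prop
  · refine Complex.continuous_exp.comp ?_
    refine Continuous.mul continuous_const (Continuous.sub ?_ (by fun_prop))
    refine Continuous.div (by fun_prop) (by fun_prop) fun s => Vert_ne ν s

private lemma Vert_exp {w : ℝ} (hw : 0 ≤ w) : w * rexp (-(4 / 5 * w)) ≤ 1 := by
  have h1 := Real.quadratic_le_exp_of_nonneg (x := 4 / 5 * w) (by positivity)
  have h2 : w ≤ rexp (4 / 5 * w) := by nlinarith [sq_nonneg (w - 1)]
  rw [Real.exp_neg]
  have h3 := Real.exp_pos (4 / 5 * w)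
  rw [← div_eq_mul_inv, div_le_one h3]
  exact h2

theorem vert : ∃ C : ℝ, 0 < C ∧ ∀ (x N ν₀ : ℝ) (m : ℕ), 0 ≤ x → 0 < N → 0 < ν₀ →
    (∀ i < m, ν₀ + i ≤ N / 2) →
    ‖∑ i ∈ range m, ze ^ i * ∫ s in (0 : ℝ)..(1 / N), gk x N (ν₀ + i) (I * s) * I‖ ≤ C / N := by
  refine ⟨3 * (rexp π + rexp π), by positivity, fun x N ν₀ m hx hN hν₀ hm => ?_⟩
  have hNi : 0 < 1 / N := by positivity
  have e1 : ∑ i ∈ range m, ze ^ i * ∫ s in (0 : ℝ)..(1 / N), gk x N (ν₀ + i) (I * s) * I =
      ∫ s in (0 : ℝ)..(1 / N), ∑ i ∈ range m, ze ^ i * (gk x N (ν₀ + i) (I * s) * I) := by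
    rw [intervalIntegral.integral_finsetSum]
    · exact Finset.sum_congr rfl fun i _ => by rw [intervalIntegral.integral_const_mul]
    · intro i _
      exact (Continuous.mul continuous_const
        ((Vert_cont x N (ν₀ + i)).mul continuous_const)).intervalIntegrable _ _
  rw [e1]
  have key : ∀ s ∈ Set.uIoc (0 : ℝ) (1 / N),
      ‖∑ i ∈ range m, ze ^ i * (gk x N (ν₀ + i) (I * s) * I)‖ ≤ 3 * (rexp π + rexp π) := by
    intro s hs
    rw [Set.uIoc_of_le hNi.le] at hs
    obtain ⟨hs0, hs1⟩ := hs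
    have hNs : N * s ≤ 1 := by
      have := mul_le_mul_of_nonneg_left hs1 hN.le
      rwa [mul_one_div_cancel hN.ne'] at this
    have him : (I * (s : ℂ)).im = s := by simp
    have him' : 0 < (I * (s : ℂ)).im := by rw [him]; exact hs0
    have hny : ‖I * (s : ℂ)‖ = s := by
      rw [norm_mul, Complex.norm_I, one_mul, Complex.norm_real, Real.norm_of_nonneg hs0.le]
    have e2 : ∑ i ∈ range m, ze ^ i * (gk x N (ν₀ + i) (I * s) * I) =
        (∑ i ∈ Ico 0 m, ze ^ i * gk x N (ν₀ + i) (I * s)) * I := by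
      rw [Finset.sum_mul, Finset.range_eq_Ico]
      exact Finset.sum_congr rfl fun i _ => by ring
    rw [e2, norm_mul, Complex.norm_I, mul_one]
    have hexpN : rexp (π * N * s) ≤ rexp π := by
      apply Real.exp_le_exp.2
      have := mul_le_mul_of_nonneg_left hNs Real.pi_pos.le
      linarith
    refine abel_cont ν₀ 0 (N / 2) (rexp π) (rexp π) (fun ν => gk x N ν (I * s))
      (fun ν => gk x N ν (I * s) * ((I * s) / (2 * (1 - ν * (I * s))) +
        π * I * x * (I * s) ^ 2 / (1 - ν * (I * s)) ^ 2))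
      (fun _ => 2 * rexp π * s) (by positivity) ?_ ?_ continuousOn_const ?_ ?_ ?_ 0 m ?_
    · intro ν hν
      exact hasDerivAt_gk him' hν.1
    · refine ContinuousOn.mul ?_ ?_
      · intro ν hν
        exact (hasDerivAt_gk (x := x) (N := N) him' hν.1).continuousAt.continuousWithinAt
      · refine Continuous.continuousOn ?_
        refine Continuous.add ?_ ?_
        · refine Continuous.div (by fun_prop) (by fun_prop) fun ν => ?_
          exact mul_ne_zero two_ne_zero (Vert_ne ν s)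
        · refine Continuous.div (by fun_prop) (by fun_prop) fun ν => ?_
          exact pow_ne_zero 2 (Vert_ne ν s)
    · intro ν hν
      refine (norm_deriv_gk_le hx him' hν.1).trans ?_
      rw [him, hny]
      have hX1 := Vert_one_le ν s
      have hX2 := Vert_normSq ν s
      have hνs : (ν * s) ^ 2 ≤ 1 / 4 := by
        have h0 : 0 ≤ ν * s := mul_nonneg hν.1 hs0.le
        have h1 : ν * s ≤ 1 / 2 := by
          have := mul_le_mul_of_nonneg_right hν.2 hs0.le
          linarith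
        nlinarith
      have hX3 : ‖1 - (ν : ℂ) * (I * s)‖ ^ 2 ≤ 5 / 4 := by rw [hX2]; linarith
      have hX4 : 0 < ‖1 - (ν : ℂ) * (I * s)‖ ^ 2 := by positivity
      have hp1 : ‖1 - (ν : ℂ) * (I * s)‖ ^ (-(3 / 2) : ℝ) ≤ 1 :=
        Real.rpow_le_one_of_one_le_of_nonpos hX1 (by norm_num)
      have hp2 : ‖1 - (ν : ℂ) * (I * s)‖ ^ (-(5 / 2) : ℝ) ≤ 1 :=
        Real.rpow_le_one_of_one_le_of_nonpos hX1 (by norm_num)
      set w : ℝ := π * x * s with hw
      have hw0 : 0 ≤ w := by positivity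
      have hE : rexp (-(π * x * s / ‖1 - (ν : ℂ) * (I * s)‖ ^ 2)) ≤ rexp (-(4 / 5 * w)) := by
        apply Real.exp_le_exp.2
        apply neg_le_neg
        rw [← hw, le_div_iff₀ hX4]
        nlinarith
      have hE1 : rexp (-(4 / 5 * w)) ≤ 1 := Real.exp_le_one_iff.2 (by linarith)
      have hE2 := Vert_exp hw0
      have hE0 := Real.exp_pos (-(4 / 5 * w))
      have hb : s * ‖1 - (ν : ℂ) * (I * s)‖ ^ (-(3 / 2) : ℝ) +
          π * x * s ^ 2 * ‖1 - (ν : ℂ) * (I * s)‖ ^ (-(5 / 2) : ℝ) ≤ s + w * s := by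
        have h1 := mul_le_mul_of_nonneg_left hp1 hs0.le
        have h2 := mul_le_mul_of_nonneg_left hp2 (show 0 ≤ π * x * s ^ 2 by positivity)
        have h3 : π * x * s ^ 2 = w * s := by rw [hw]; ring
        rw [h3] at h2 ⊢
        linarith
      calc rexp (π * N * s) * rexp (-(π * x * s / ‖1 - (ν : ℂ) * (I * s)‖ ^ 2)) *
            (s * ‖1 - (ν : ℂ) * (I * s)‖ ^ (-(3 / 2) : ℝ) +
              π * x * s ^ 2 * ‖1 - (ν : ℂ) * (I * s)‖ ^ (-(5 / 2) : ℝ))
          ≤ rexp π * rexp (-(4 / 5 * w)) * (s + w * s) := by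
            refine mul_le_mul (mul_le_mul hexpN hE (Real.exp_pos _).le (Real.exp_pos _).le) hb
              (by positivity) (by positivity)
        _ = rexp π * (s * rexp (-(4 / 5 * w)) + s * (w * rexp (-(4 / 5 * w)))) := by ring
        _ ≤ rexp π * (s * 1 + s * 1) := by
            refine mul_le_mul_of_nonneg_left (add_le_add ?_ ?_) (Real.exp_pos _).le
            · exact mul_le_mul_of_nonneg_left hE1 hs0.le
            · exact mul_le_mul_of_nonneg_left hE2 hs0.le
        _ = 2 * rexp π * s := by ring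
    · intro ν hν
      rw [norm_gk him' hν.1, him]
      have h1 : ‖1 - (ν : ℂ) * (I * s)‖ ^ (-(1 / 2) : ℝ) ≤ 1 :=
        Real.rpow_le_one_of_one_le_of_nonpos (Vert_one_le ν s) (by norm_num)
      have h2 : rexp (-(π * x * s / ‖1 - (ν : ℂ) * (I * s)‖ ^ 2) + π * N * s) ≤ rexp π := by
        refine le_trans (Real.exp_le_exp.2 ?_) hexpN
        have : 0 ≤ π * x * s / ‖1 - (ν : ℂ) * (I * s)‖ ^ 2 := by positivity
        linarith
      calc _ ≤ 1 * rexp π := mul_le_mul h1 h2 (Real.exp_pos _).le zero_le_one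
        _ = rexp π := one_mul _
    · rw [intervalIntegral.integral_const, smul_eq_mul]
      have h1 : (N / 2 - 0) * (2 * rexp π * s) = (N * s) * rexp π := by ring
      rw [h1]
      calc N * s * rexp π ≤ 1 * rexp π :=
            mul_le_mul_of_nonneg_right hNs (Real.exp_pos _).le
        _ = rexp π := one_mul _
    · intro i hi
      rw [Finset.mem_Ico] at hi
      exact ⟨by positivity, hm i hi.2⟩
  refine (intervalIntegral.norm_integral_le_of_norm_le_const key).trans (le_of_eq ?_)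
  rw [sub_zero, abs_of_pos hNi]
  ring

end Pool.Agent.Helper31.FI
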