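import Pool.Agent.Helper31.FI.TEval
import Pool.Agent.Helper31.FI.Bdry
import Pool.Agent.Helper31.FI.Vert
import Pool.Agent.Helper31.FI.Left
import Pool.Agent.Helper31.FI.Near
import Pool.Agent.Helper31.FI.Split
import Pool.Agent.Helper31.FI.MainSum

/-!
# FI-CH: the chain bound

`V = √(x N/L)/2 ≤ N/2` (as `x ≤ L N`), `m = cnt ν₀ V`.  `split`; in the first sum `∫_al^be = ∫_0^{1/ν} - ∫_0^al - ∫_be^{1/ν}` and
`∫_0^{1/ν} = Tn - (vertical)`.  `vert`, `left`: `≤ C/N`.  `be_int`: `∑ √ν ≤ √V (V + 1)` over `ν = ν₀ + i < V ≤ N/2`, total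
`≤ C (1 + 1/N) exp (-L)`.  `teval`: errors `∑ 24 exp(-L)/√(ν N) ≤ 24 exp (-L) (ν₀^(-1/2) + 2 √V)/√N`; main terms give
`exp (π i/4) mains t ν₀ m / √N` (if `x ≤ N`), the `Wc` terms are `≤ 8 ν₀^(-1/2)/√N` each by `bdry`
(`s = |√N - √x|`, `s = √N + √x`).  Second integral: `near` with `u ≤ 1/V = 2 √(L/(x N))`: `≤ (1/V) C √L (N/x)^(1/4)
= 2 C L N^(-1/4) x^(-3/4)`.
`chain'` inserts `mains_le` with `t = (√N - √x)² ≤ N`.
-/

set_option autoImplicit false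

namespace Pool.Agent.Helper31.FI

open Complex Real Finset MeasureTheory

private theorem Chain_V {x N L : ℝ} (hx : 1 ≤ x) (hN : 0 < N) (hL : 1 ≤ L) (hxL : x ≤ L * N) :
    0 < √(x * N / L) / 2 ∧ √(x * N / L) / 2 ≤ N / 2 ∧
      1 / (√(x * N / L) / 2) = 2 * √(L / (x * N)) := by
  have hL0 : 0 < L := by linarith
  have hx0 : 0 < x := by linarith
  have h1 : 0 < x * N / L := by positivity
  refine ⟨by positivity, ?_, ?_⟩
  · have h2 : x * N / L ≤ N ^ 2 := by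
      rw [div_le_iff₀ hL0]
      nlinarith [mul_le_mul_of_nonneg_right hxL hN.le]
    have h3 := Real.sqrt_le_sqrt h2
    rw [Real.sqrt_sq hN.le] at h3
    linarith
  · have h2 : L / (x * N) = (x * N / L)⁻¹ := by
      rw [inv_div]
    rw [h2, Real.sqrt_inv]
    have h3 : √(x * N / L) ≠ 0 := (Real.sqrt_pos.2 h1).ne'
    field_simp

private theorem Chain_lt {ν₀ V : ℝ} {i : ℕ} (hi : i < cnt ν₀ V) : ν₀ + i < V := by
  have := Nat.lt_ceil.1 hi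
  linarith

private theorem Chain_card {ν₀ V : ℝ} (h0 : 0 < ν₀) (hV : 0 < V) : (cnt ν₀ V : ℝ) ≤ V + 1 := by
  unfold cnt
  rcases le_or_gt (V - ν₀) 0 with h | h
  · rw [Nat.ceil_eq_zero.2 h]
    push_cast
    linarith
  · have := Nat.ceil_lt_add_one h.le
    linarith

private theorem Chain_inv {ν₀ : ℝ} (h0 : 0 < ν₀) (n : ℕ) :
    ∑ i ∈ range (n + 1), 1 / √(ν₀ + i) ≤ 1 / √ν₀ + 2 * √n := by
  induction n with
  | zero => simp
  | succ n ih =>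
    rw [Finset.sum_range_succ]
    have ha : 0 < √((n : ℝ) + 1) := Real.sqrt_pos.2 (by positivity)
    have ha2 : √((n : ℝ) + 1) ^ 2 = n + 1 := Real.sq_sqrt (by positivity)
    have hb2 : √(n : ℝ) ^ 2 = n := Real.sq_sqrt (Nat.cast_nonneg n)
    have h1 : 1 / √(ν₀ + ((n + 1 : ℕ) : ℝ)) ≤ 1 / √((n : ℝ) + 1) := by
      apply one_div_le_one_div_of_le ha
      apply Real.sqrt_le_sqrt
      push_cast
      linarith
    have h2 : 1 / √((n : ℝ) + 1) ≤ 2 * (√((n : ℝ) + 1) - √(n : ℝ)) := by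
      rw [div_le_iff₀ ha]
      nlinarith [sq_nonneg (√((n : ℝ) + 1) - √(n : ℝ))]
    have h3 : √(((n + 1 : ℕ) : ℝ)) = √((n : ℝ) + 1) := by push_cast; rfl
    rw [h3]
    linarith

private theorem Chain_inv' {ν₀ V : ℝ} (h0 : 0 < ν₀) (hV : 0 < V) :
    ∑ i ∈ range (cnt ν₀ V), 1 / √(ν₀ + i) ≤ 1 / √ν₀ + 2 * √V := by
  rcases Nat.eq_zero_or_pos (cnt ν₀ V) with h | h
  · rw [h, Finset.sum_range_zero]
    positivity
  · obtain ⟨n, hn⟩ : ∃ n, cnt ν₀ V = n + 1 := ⟨cnt ν₀ V - 1, by omega⟩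
    rw [hn]
    refine (Chain_inv h0 n).trans ?_
    have h1 : ν₀ + (n : ℝ) < V := Chain_lt (by omega)
    have h2 : √(n : ℝ) ≤ √V := Real.sqrt_le_sqrt (by linarith)
    linarith

private theorem Chain_ze : ‖ze‖ = 1 := by
  unfold ze
  have h : (3 * π * I / 4 : ℂ) = ((3 * π / 4 : ℝ) : ℂ) * I := by
    push_cast
    ring
  rw [h, Complex.norm_exp_ofReal_mul_I]

private theorem Chain_zes (m : ℕ) (f : ℕ → ℂ) :
    ‖∑ i ∈ range m, ze ^ i * f i‖ ≤ ∑ i ∈ range m, ‖f i‖ := by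
  refine (norm_sum_le _ _).trans (Finset.sum_le_sum fun i _ => ?_)
  rw [norm_mul, norm_pow, Chain_ze, one_pow, one_mul]

private theorem Chain_cont {x N ν : ℝ} (hN : 0 < N) (hν : 0 < ν) :
    Continuous (fun u : ℝ => gk x N ν (u + I / N)) := by
  have h := continuous_gk (x := x) (N := N) (v := 1 / N) (by positivity) hν
  have e : (fun u : ℝ => gk x N ν (u + I / N)) =
      fun u : ℝ => gk x N ν (u + I * ((1 / N : ℝ) : ℂ)) := by
    funext u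
    congr 2
    push_cast
    rw [mul_one_div]
  rw [e]
  exact h

/-- the decomposition of one term -/
private theorem Chain_one {x N ν : ℝ} (hN : 0 < N) (hν : 0 < ν) :
    ∫ u in (al N ν)..(be N ν), gk x N ν (u + I / N) =
      Tn x N ν - (∫ s in (0 : ℝ)..(1 / N), gk x N ν (I * s) * I) -
        (∫ u in (0 : ℝ)..(al N ν), gk x N ν (u + I / N)) -
        ∫ u in (be N ν)..(1 / ν), gk x N ν (u + I / N) := by
  have hc := Chain_cont (x := x) hN hν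
  have h1 := intervalIntegral.integral_add_adjacent_intervals (μ := volume)
    (hc.intervalIntegrable 0 (al N ν)) (hc.intervalIntegrable (al N ν) (be N ν))
  have h2 := intervalIntegral.integral_add_adjacent_intervals (μ := volume)
    (hc.intervalIntegrable 0 (be N ν)) (hc.intervalIntegrable (be N ν) (1 / ν))
  unfold Tn
  rw [← h2, ← h1]
  ring

/-- the error terms at the right end -/
private theorem Chain_be {x N ν₀ L : ℝ} (hx : 1 ≤ x) (hN : 0 < N) (hν : 0 < ν₀) (hL : 1 ≤ L)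
    (hxL : x ≤ L * N) :
    ‖∑ i ∈ range (cnt ν₀ (√(x * N / L) / 2)),
      ze ^ i * ∫ u in (be N (ν₀ + i))..(1 / (ν₀ + i)), gk x N (ν₀ + i) (u + I / N)‖ ≤
      50 * (rexp (-L) + 1 / N) := by
  obtain ⟨hV0, hVN, -⟩ := Chain_V hx hN hL hxL
  set V := √(x * N / L) / 2 with hV
  have hx0 : 0 < x := by linarith
  have hsN : 0 < √N := Real.sqrt_pos.2 hN
  have h1 : ∀ i ∈ range (cnt ν₀ V),
      ‖∫ u in (be N (ν₀ + i))..(1 / (ν₀ + i)), gk x N (ν₀ + i) (u + I / N)‖ ≤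
        50 * (1 / N) * rexp (-L) := by
    intro i hi
    have h2 : ν₀ + (i : ℝ) < V := Chain_lt (Finset.mem_range.1 hi)
    have hi0 : (0 : ℝ) ≤ i := Nat.cast_nonneg i
    have h3 := be_int hx0 hN (by linarith : 0 < ν₀ + (i : ℝ)) (by linarith) hL h2.le
    have h3' : ‖∫ u in (be N (ν₀ + i))..(1 / (ν₀ + i)), gk x N (ν₀ + i) (u + I / N)‖ ≤
        50 * (√(ν₀ + i) / (N * √N)) * rexp (-L) := by
      simpa only [Complex.ofReal_add, Complex.ofReal_natCast] using h3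
    refine h3'.trans ?_
    have h4 : √(ν₀ + i) ≤ √N := Real.sqrt_le_sqrt (by linarith)
    have h5 : √(ν₀ + i) / (N * √N) ≤ 1 / N := by
      rw [div_le_div_iff₀ (by positivity) hN]
      nlinarith
    have h6 : 0 ≤ rexp (-L) := (Real.exp_pos _).le
    nlinarith [mul_le_mul_of_nonneg_right h5 h6]
  refine (Chain_zes _ _).trans ((Finset.sum_le_sum h1).trans ?_)
  rw [Finset.sum_const, Finset.card_range, nsmul_eq_mul]
  have h7 := Chain_card hν hV0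
  have h8 : (cnt ν₀ V : ℝ) ≤ N + 1 := by linarith
  have h9 : rexp (-L) ≤ 1 := by
    rw [Real.exp_le_one_iff]
    linarith
  have h10 : 0 ≤ rexp (-L) := (Real.exp_pos _).le
  have h11 : 0 ≤ 1 / N := by positivity
  calc (cnt ν₀ V : ℝ) * (50 * (1 / N) * rexp (-L)) ≤ (N + 1) * (50 * (1 / N) * rexp (-L)) := by
        apply mul_le_mul_of_nonneg_right h8
        positivity
    _ = 50 * (rexp (-L) + 1 / N * rexp (-L)) := by
        have : N * (1 / N) = 1 := mul_one_div_cancel hN.ne'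
        linear_combination (50 * rexp (-L)) * this
    _ ≤ 50 * (rexp (-L) + 1 / N) := by
        nlinarith [mul_le_mul_of_nonneg_left h9 h11]

private theorem Chain_pow {ν N : ℝ} (hν : 0 < ν) :
    1 / √(ν * N) = 1 / √N * ν ^ (-(1 / 2) : ℝ) := by
  rw [Real.sqrt_mul hν.le, Real.rpow_neg hν.le, ← Real.sqrt_eq_rpow, one_div, one_div, mul_inv,
    mul_comm]

/-- the main terms -/
private theorem Chain_T {x N ν₀ L : ℝ} (hx : 1 ≤ x) (hN : 0 < N) (hν : 0 < ν₀) (hL : 1 ≤ L)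
    (hxL : x ≤ L * N) :
    ‖∑ i ∈ range (cnt ν₀ (√(x * N / L) / 2)), ze ^ i * Tn x N (ν₀ + i)‖ ≤
      ((if x ≤ N then ‖mains ((√N - √x) ^ 2) ν₀ (cnt ν₀ (√(x * N / L) / 2))‖ else 0) +
        16 * ν₀ ^ (-(1 / 2) : ℝ)) / √N + 24 * rexp (-L) * (1 / √ν₀ + 2 * √N) / √N := by
  obtain ⟨hV0, hVN, -⟩ := Chain_V hx hN hL hxL
  set V := √(x * N / L) / 2 with hV
  set m := cnt ν₀ V with hm
  have hx0 : 0 < x := by linarith
  have hsN : 0 < √N := Real.sqrt_pos.2 hN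
  set c : ℂ := if x ≤ N then 1 else -1 with hc
  set E : ℕ → ℂ := fun i => Tn x N (ν₀ + i) - (1 / √((ν₀ + i) * N) : ℝ) *
      ((if x ≤ N then cexp (π * I / 4) * cexp (-(π * I * ((√N - √x) ^ 2 / (ν₀ + i) : ℝ))) else 0)
        - c * Wc ((|√N - √x| / √(ν₀ + i) : ℝ)) - Wc (((√N + √x) / √(ν₀ + i) : ℝ))) with hE
  have hEb : ∀ i ∈ range m, ‖E i‖ ≤ 24 * rexp (-L) / √N * (1 / √(ν₀ + i)) := by
    intro i hi
    have h2 : ν₀ + (i : ℝ) < V := Chain_lt (Finset.mem_range.1 hi)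
    have hi0 : (0 : ℝ) ≤ i := Nat.cast_nonneg i
    have h3 := teval hx0 hN (by linarith : 0 < ν₀ + (i : ℝ)) hL h2.le
    have h4 : ‖E i‖ ≤ 1 / √((ν₀ + i) * N) * (24 * rexp (-L)) := h3
    refine h4.trans (le_of_eq ?_)
    rw [Real.sqrt_mul (by linarith)]
    have h5 : √(ν₀ + (i : ℝ)) ≠ 0 := (Real.sqrt_pos.2 (by linarith)).ne'
    field_simp
  have hterm : ∀ i ∈ range m, ze ^ i * Tn x N (ν₀ + i) = ze ^ i * E i +
      ((1 / √N : ℝ) : ℂ) * ((if x ≤ N then cexp (π * I / 4) else 0) *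
        (ze ^ i * ((ν₀ + i : ℝ) ^ (-(1 / 2) : ℝ) : ℝ) *
          cexp (-(π * I * (((√N - √x) ^ 2 : ℝ) : ℂ) / (ν₀ + i)))) -
        c * (ze ^ i * (((ν₀ + i : ℝ) ^ (-(1 / 2) : ℝ) : ℝ) *
          Wc ((|√N - √x| / √(ν₀ + i) : ℝ)))) -
        ze ^ i * (((ν₀ + i : ℝ) ^ (-(1 / 2) : ℝ) : ℝ) *
          Wc (((√N + √x) / √(ν₀ + i) : ℝ)))) := by
    intro i _
    have hi0 : (0 : ℝ) ≤ i := Nat.cast_nonneg i
    have h1 := Chain_pow (N := N) (by linarith : 0 < ν₀ + (i : ℝ))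
    simp only [hE]
    rw [h1]
    have h2 : (-(π * I * (((√N - √x) ^ 2 / (ν₀ + i) : ℝ) : ℂ)) : ℂ) =
        -(π * I * (((√N - √x) ^ 2 : ℝ) : ℂ) / (ν₀ + i)) := by
      push_cast
      ring
    rw [h2]
    push_cast
    split_ifs <;> ring
  rw [Finset.sum_congr rfl hterm, Finset.sum_add_distrib, ← Finset.mul_sum, Finset.sum_sub_distrib,
    Finset.sum_sub_distrib, ← Finset.mul_sum, ← Finset.mul_sum]
  have hb1 := bdry |√N - √x| ν₀ (abs_nonneg _) hν m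
  have hb2 := bdry (√N + √x) ν₀ (by positivity) hν m
  have hc1 : ‖c‖ = 1 := by
    rw [hc]
    split_ifs <;> simp
  have hw : ‖cexp (π * I / 4)‖ = 1 := by
    have h : (π * I / 4 : ℂ) = ((π / 4 : ℝ) : ℂ) * I := by
      push_cast
      ring
    rw [h, Complex.norm_exp_ofReal_mul_I]
  have hmain : ‖(if x ≤ N then cexp (π * I / 4) else 0) *
      ∑ i ∈ range m, (ze ^ i * ((ν₀ + i : ℝ) ^ (-(1 / 2) : ℝ) : ℝ) *
          cexp (-(π * I * (((√N - √x) ^ 2 : ℝ) : ℂ) / (ν₀ + i))))‖ =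
      if x ≤ N then ‖mains ((√N - √x) ^ 2) ν₀ m‖ else 0 := by
    split_ifs
    · rw [norm_mul, hw, one_mul]
      rfl
    · rw [zero_mul, norm_zero]
  have herr : ‖∑ i ∈ range m, ze ^ i * E i‖ ≤ 24 * rexp (-L) * (1 / √ν₀ + 2 * √N) / √N := by
    refine (Chain_zes _ _).trans ((Finset.sum_le_sum hEb).trans ?_)
    rw [← Finset.mul_sum]
    have h3 := Chain_inv' hν hV0
    have h4 : √V ≤ √N := Real.sqrt_le_sqrt (by linarith)
    have h5 : 0 ≤ 24 * rexp (-L) / √N := by positivity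
    calc 24 * rexp (-L) / √N * ∑ i ∈ range m, 1 / √(ν₀ + i) ≤
        24 * rexp (-L) / √N * (1 / √ν₀ + 2 * √N) := by
          apply mul_le_mul_of_nonneg_left _ h5
          linarith
      _ = _ := by ring
  refine (norm_add_le _ _).trans ?_
  rw [add_comm]
  refine add_le_add ?_ herr
  have hdiv : ((if x ≤ N then ‖mains ((√N - √x) ^ 2) ν₀ m‖ else 0) +
      16 * ν₀ ^ (-(1 / 2) : ℝ)) / √N = 1 / √N * ((if x ≤ N then
        ‖mains ((√N - √x) ^ 2) ν₀ m‖ else 0) + 16 * ν₀ ^ (-(1 / 2) : ℝ)) := by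
    ring
  rw [hdiv, norm_mul, Complex.norm_real, Real.norm_eq_abs,
    abs_of_pos (by positivity : (0 : ℝ) < 1 / √N)]
  apply mul_le_mul_of_nonneg_left _ (by positivity)
  refine (norm_sub_le _ _).trans ?_
  refine (add_le_add (norm_sub_le _ _) hb2).trans ?_
  rw [hmain, norm_mul, hc1, one_mul]
  linarith

/-- the second integral -/
private theorem Chain_two : ∃ C : ℝ, 0 < C ∧ ∀ (x N ν₀ L : ℝ), 1 ≤ x → 0 < N → 0 < ν₀ → 1 ≤ L →
    x ≤ L * N →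
    ‖∫ u in (0 : ℝ)..(1 / (√(x * N / L) / 2)),
      ∑ i ∈ Ico (cnt ν₀ (√(x * N / L) / 2)) (cnt ν₀ (rho N u)),
        ze ^ i * gk x N (ν₀ + i) (u + I / N)‖ ≤
      C * (L * N ^ (-(1 / 4) : ℝ) * x ^ (-(3 / 4) : ℝ)) := by
  obtain ⟨C, hC, hn⟩ := near
  refine ⟨2 * C, by positivity, ?_⟩
  intro x N ν₀ L hx hN hν hL hxL
  obtain ⟨hV0, hVN, hVi⟩ := Chain_V hx hN hL hxL
  set V := √(x * N / L) / 2 with hV
  have hx0 : 0 < x := by linarith
  have hL0 : 0 < L := by linarith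
  have h1 : ‖∫ u in (0 : ℝ)..(1 / V), ∑ i ∈ Ico (cnt ν₀ V) (cnt ν₀ (rho N u)),
      ze ^ i * gk x N (ν₀ + i) (u + I / N)‖ ≤ C * (√L * (N / x) ^ (1 / 4 : ℝ)) * |1 / V - 0| := by
    apply intervalIntegral.norm_integral_le_of_norm_le_const
    intro u hu
    rw [Set.uIoc_of_le (by positivity)] at hu
    have h2 := hn x N ν₀ L u (cnt ν₀ V) (cnt ν₀ (rho N u)) hx hN hν hL hxL hu.1
      (hu.2.trans_eq hVi) (fun i hi => Chain_lt (Finset.mem_Ico.1 hi).2)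
    simpa only [Complex.ofReal_add, Complex.ofReal_natCast] using h2
  refine h1.trans (le_of_eq ?_)
  rw [sub_zero, abs_of_pos (by positivity), hVi]
  have e1 : √L = L ^ (1 / 2 : ℝ) := Real.sqrt_eq_rpow L
  have e2 : √(L / (x * N)) = L ^ (1 / 2 : ℝ) * (x ^ (-(1 / 2) : ℝ) * N ^ (-(1 / 2) : ℝ)) := by
    rw [Real.sqrt_eq_rpow, Real.div_rpow hL0.le (by positivity), Real.mul_rpow hx0.le hN.le,
      Real.rpow_neg hx0.le, Real.rpow_neg hN.le]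
    field_simp
  have e3 : (N / x) ^ (1 / 4 : ℝ) = N ^ (1 / 4 : ℝ) * x ^ (-(1 / 4) : ℝ) := by
    rw [Real.div_rpow hN.le hx0.le, Real.rpow_neg hx0.le, div_eq_mul_inv]
  have e4 : N ^ (-(1 / 4) : ℝ) = N ^ (1 / 4 : ℝ) * N ^ (-(1 / 2) : ℝ) := by
    rw [← Real.rpow_add hN]
    norm_num
  have e5 : x ^ (-(3 / 4) : ℝ) = x ^ (-(1 / 4) : ℝ) * x ^ (-(1 / 2) : ℝ) := by
    rw [← Real.rpow_add hx0]
    norm_num
  have e6 : L = L ^ (1 / 2 : ℝ) * L ^ (1 / 2 : ℝ) := by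
    rw [← Real.rpow_add hL0]
    norm_num
  rw [e2, e3, e1, e4, e5]
  linear_combination (-(2 * C * (N ^ (1 / 4 : ℝ) * N ^ (-(1 / 2) : ℝ)) *
    (x ^ (-(1 / 4) : ℝ) * x ^ (-(1 / 2) : ℝ)))) * e6

theorem chain : ∃ C : ℝ, 0 < C ∧ ∀ (x N ν₀ L : ℝ), 1 ≤ x → 0 < N → 0 < ν₀ → ν₀ ≤ 1 → 1 ≤ L →
    x ≤ L * N →
    ‖∫ u, ch x N ν₀ u‖ ≤ C * (((if x ≤ N then
        ‖mains ((√N - √x) ^ 2) ν₀ (cnt ν₀ (√(x * N / L) / 2))‖ else 0) + ν₀ ^ (-(1 / 2) : ℝ)) / √N +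
      1 / N + L * N ^ (-(1 / 4) : ℝ) * x ^ (-(3 / 4) : ℝ) + rexp (-L)) := by
  obtain ⟨Cv, hCv, hv⟩ := vert
  obtain ⟨Cl, hCl, hl⟩ := left
  obtain ⟨C2, hC2, h2⟩ := Chain_two
  refine ⟨98 + Cv + Cl + C2, by positivity, ?_⟩
  intro x N ν₀ L hx hN hν hν1 hL hxL
  obtain ⟨hV0, hVN, hVi⟩ := Chain_V hx hN hL hxL
  have hx0 : 0 < x := by linarith
  have hL0 : 0 < L := by linarith
  have hsN : 0 < √N := Real.sqrt_pos.2 hN
  have hT := Chain_T hx hN hν hL hxL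
  have hB := Chain_be hx hN hν hL hxL
  have hS := h2 x N ν₀ L hx hN hν hL hxL
  rw [split hN hν hV0 hVN]
  set V := √(x * N / L) / 2 with hV
  set m := cnt ν₀ V with hm
  have hiN : ∀ i < m, ν₀ + (i : ℝ) ≤ N / 2 := fun i hi => (Chain_lt hi).le.trans hVN
  have hv' := hv x N ν₀ m hx0.le hN hν hiN
  have hl' := hl x N ν₀ m hx0.le hN hν hiN
  have hsum : ∑ i ∈ range m, ze ^ i *
      ∫ u in (al N (ν₀ + i))..(be N (ν₀ + i)), gk x N (ν₀ + i) (u + I / N) =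
      (∑ i ∈ range m, ze ^ i * Tn x N (ν₀ + i)) -
      (∑ i ∈ range m, ze ^ i * ∫ s in (0 : ℝ)..(1 / N), gk x N (ν₀ + i) (I * s) * I) -
      (∑ i ∈ range m, ze ^ i * ∫ u in (0 : ℝ)..(al N (ν₀ + i)), gk x N (ν₀ + i) (u + I / N)) -
      ∑ i ∈ range m, ze ^ i *
        ∫ u in (be N (ν₀ + i))..(1 / (ν₀ + i)), gk x N (ν₀ + i) (u + I / N) := by
    rw [← Finset.sum_sub_distrib, ← Finset.sum_sub_distrib, ← Finset.sum_sub_distrib]
    refine Finset.sum_congr rfl fun i _ => ?_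
    have hi0 : (0 : ℝ) ≤ i := Nat.cast_nonneg i
    have h3 := Chain_one (x := x) hN (by linarith : 0 < ν₀ + (i : ℝ))
    rw [h3]
    ring
  rw [hsum]
  set M : ℝ := (if x ≤ N then ‖mains ((√N - √x) ^ 2) ν₀ m‖ else 0) with hM
  have hM0 : 0 ≤ M := by
    rw [hM]
    split_ifs
    · exact norm_nonneg _
    · exact le_rfl
  have hp : 1 / √ν₀ = ν₀ ^ (-(1 / 2) : ℝ) := by
    rw [Real.rpow_neg hν.le, ← Real.sqrt_eq_rpow, one_div]
  have hp0 : 0 < ν₀ ^ (-(1 / 2) : ℝ) := Real.rpow_pos_of_pos hν _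
  have he1 : rexp (-L) ≤ 1 := by
    rw [Real.exp_le_one_iff]
    linarith
  have he0 : 0 < rexp (-L) := Real.exp_pos _
  set P : ℝ := ν₀ ^ (-(1 / 2) : ℝ) with hP
  set Z : ℝ := L * N ^ (-(1 / 4) : ℝ) * x ^ (-(3 / 4) : ℝ) with hZ
  have hZ0 : 0 < Z := by positivity
  have hN0 : 0 < 1 / N := by positivity
  have hQ : 0 ≤ (M + P) / √N := by positivity
  have hT' : ((M + 16 * P) / √N + 24 * rexp (-L) * (1 / √ν₀ + 2 * √N) / √N) ≤
      40 * ((M + P) / √N) + 48 * rexp (-L) := by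
    rw [hp]
    have e1 : 24 * rexp (-L) * (P + 2 * √N) / √N = 24 * rexp (-L) * (P / √N) + 48 * rexp (-L) := by
      field_simp
      ring
    rw [e1]
    have e2 : 0 ≤ P / √N := by positivity
    have e3 : 0 ≤ M / √N := by positivity
    have e4 : 24 * rexp (-L) * (P / √N) ≤ 24 * (P / √N) := by
      nlinarith [mul_le_mul_of_nonneg_right he1 e2]
    have e5 : (M + 16 * P) / √N = M / √N + 16 * (P / √N) := by ring
    have e6 : (M + P) / √N = M / √N + P / √N := by ring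
    rw [e5, e6]
    linarith
  have hv2 : Cv / N = Cv * (1 / N) := by ring
  have hl2 : Cl / N = Cl * (1 / N) := by ring
  rw [hv2] at hv'
  rw [hl2] at hl'
  refine (norm_add_le _ _).trans ?_
  have k1 := norm_sub_le ((∑ i ∈ range m, ze ^ i * Tn x N (ν₀ + i)) -
      (∑ i ∈ range m, ze ^ i * ∫ s in (0 : ℝ)..(1 / N), gk x N (ν₀ + i) (I * s) * I) -
      (∑ i ∈ range m, ze ^ i * ∫ u in (0 : ℝ)..(al N (ν₀ + i)), gk x N (ν₀ + i) (u + I / N)))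
      (∑ i ∈ range m, ze ^ i *
        ∫ u in (be N (ν₀ + i))..(1 / (ν₀ + i)), gk x N (ν₀ + i) (u + I / N))
  have k2 := norm_sub_le ((∑ i ∈ range m, ze ^ i * Tn x N (ν₀ + i)) -
      (∑ i ∈ range m, ze ^ i * ∫ s in (0 : ℝ)..(1 / N), gk x N (ν₀ + i) (I * s) * I))
      (∑ i ∈ range m, ze ^ i * ∫ u in (0 : ℝ)..(al N (ν₀ + i)), gk x N (ν₀ + i) (u + I / N))
  have k3 := norm_sub_le (∑ i ∈ range m, ze ^ i * Tn x N (ν₀ + i))
      (∑ i ∈ range m, ze ^ i * ∫ s in (0 : ℝ)..(1 / N), gk x N (ν₀ + i) (I * s) * I)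
  have f1 := mul_nonneg hCv.le hQ
  have f2 := mul_nonneg hCl.le hQ
  have f3 := mul_nonneg hC2.le hQ
  have g1 := mul_pos hCv hZ0
  have g2 := mul_pos hCl hZ0
  have g3 := mul_pos hCv he0
  have g4 := mul_pos hCl he0
  have g5 := mul_pos hC2 he0
  have g6 := mul_pos hC2 hN0
  nlinarith [hT, hB, hS, hT', hv', hl', k1, k2, k3, f1, f2, f3, g1, g2, g3, g4, g5, g6, hZ0, hN0,
    he0, hQ]

theorem chain' : ∃ C : ℝ, 0 < C ∧ ∀ (x N ν₀ L : ℝ), 1 ≤ x → 0 < N → 0 < ν₀ → ν₀ ≤ 1 → 1 ≤ L →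
    x ≤ L * N →
    ‖∫ u, ch x N ν₀ u‖ ≤ C * ((ν₀ ^ (-(1 / 2) : ℝ) + N ^ (3 / 26 : ℝ)) / √N +
      1 / N + L * N ^ (-(1 / 4) : ℝ) * x ^ (-(3 / 4) : ℝ) + rexp (-L)) := by
  obtain ⟨C, hC, h⟩ := chain
  obtain ⟨C', hC', h'⟩ := mains_le
  refine ⟨C * (1 + C'), by positivity, ?_⟩
  intro x N ν₀ L hx hN hν hν1 hL hxL
  refine (h x N ν₀ L hx hN hν hν1 hL hxL).trans ?_
  rw [mul_assoc C (1 + C')]
  apply mul_le_mul_of_nonneg_left _ hC.le
  have hx0 : 0 < x := by linarith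
  have hL0 : 0 < L := by linarith
  have hsN : 0 < √N := Real.sqrt_pos.2 hN
  set m := cnt ν₀ (√(x * N / L) / 2) with hm
  set P : ℝ := ν₀ ^ (-(1 / 2) : ℝ) with hP
  have hP0 : 0 < P := Real.rpow_pos_of_pos hν _
  have hR0 : 0 < N ^ (3 / 26 : ℝ) := Real.rpow_pos_of_pos hN _
  have hM : (if x ≤ N then ‖mains ((√N - √x) ^ 2) ν₀ m‖ else 0) ≤ C' * (P + N ^ (3 / 26 : ℝ)) := by
    split_ifs with hxN
    · refine (h' ((√N - √x) ^ 2) ν₀ m (sq_nonneg _) hν hν1).trans ?_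
      apply mul_le_mul_of_nonneg_left _ hC'.le
      have h1 : (√N - √x) ^ 2 ≤ N := by
        have h2 : √x ≤ √N := Real.sqrt_le_sqrt hxN
        have h3 : 0 ≤ √x := Real.sqrt_nonneg x
        have h4 : √N ^ 2 = N := Real.sq_sqrt hN.le
        nlinarith
      have h5 := Real.rpow_le_rpow (sq_nonneg (√N - √x)) h1 (by norm_num : (0 : ℝ) ≤ 3 / 26)
      linarith
    · positivity
  set Z : ℝ := L * N ^ (-(1 / 4) : ℝ) * x ^ (-(3 / 4) : ℝ) with hZ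
  have hZ0 : 0 < Z := by positivity
  have hN0 : 0 < 1 / N := by positivity
  have he0 : 0 < rexp (-L) := Real.exp_pos _
  have h6 : ((if x ≤ N then ‖mains ((√N - √x) ^ 2) ν₀ m‖ else 0) + P) / √N ≤
      (1 + C') * ((P + N ^ (3 / 26 : ℝ)) / √N) := by
    rw [← mul_div_assoc]
    apply div_le_div_of_nonneg_right _ hsN.le
    nlinarith
  have g1 := mul_pos hC' hZ0
  have g2 := mul_pos hC' hN0
  have g3 := mul_pos hC' he0
  nlinarith

end Pool.Agent.Helper31.FI
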