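import Pool.Agent.Helper31.FI.GDefs

/-!
# FI-CO: Fourier coefficients of the generating function

* `cf_indep`: Cauchy's theorem for the rectangle with corners `-1 + i v`, `1 + i v'` (the integrand has period `2`).
* `cf_neg`: `n < 0`: by `cf_indep` let `v → ∞`: `F` is bounded for `im τ ≥ 1` (`Gen.gr`), `‖exp (-π i n τ)‖ = exp (π n v) → 0`.
* `cf_bound`: `v = 1/(n+1)`: `‖cf‖ ≤ sup ‖F‖ exp (π n v) ≤ C (n+2)^A exp π`.
* `F_hasSum`: `u ↦ F (u + i v)` is smooth of period `2`; its Fourier coefficients are `cf F v n exp (-π n v)`, absolutely summable by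
  `cf_bound` (taken at all heights) and `cf_neg`; use `hasSum_fourier_series_of_summable` (period `T = 2`), or the
  power series in `q = exp (π i τ)` (`Function.Periodic.cuspFunction`).
-/

set_option autoImplicit false

namespace Pool.Agent.Helper31.FI

open Complex Real

private theorem co_im (u v : ℝ) : ((u : ℂ) + I * v).im = v := by simp

private theorem co_norm (n : ℤ) (u v : ℝ) : ‖cexp (-(π * I * n * (u + I * v)))‖ = rexp (π * n * v) := by
  rw [Complex.norm_exp]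
  congr 1
  simp [Complex.mul_re, Complex.mul_im]

private theorem co_exp_per (n : ℤ) (τ : ℂ) :
    cexp (-(π * I * n * (τ + 2))) = cexp (-(π * I * n * τ)) := by
  have h1 : cexp (((-n : ℤ) : ℂ) * (2 * π * I)) = 1 := Complex.exp_int_mul_two_pi_mul_I (-n)
  rw [show -(π * I * n * (τ + 2)) = -(π * I * n * τ) + ((-n : ℤ) : ℂ) * (2 * π * I) by push_cast; ring,
    Complex.exp_add, h1, mul_one]

theorem cf_indep {x : ℝ} {F : ℂ → ℂ} (hF : Gen x F) {v v' : ℝ} (hv : 0 < v) (hv' : 0 < v') (n : ℤ) :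
    cf F v n = cf F v' n := by
  set G : ℂ → ℂ := fun τ => F τ * cexp (-(π * I * n * τ)) with hG
  have hd : DifferentiableOn ℂ G {τ : ℂ | 0 < τ.im} := by
    refine hF.ana.mul ?_
    exact Differentiable.differentiableOn (by fun_prop)
  have hper : ∀ τ : ℂ, 0 < τ.im → G (τ + 2) = G τ := by
    intro τ hτ
    simp only [hG]
    rw [hF.per τ hτ, co_exp_per]
  have hsub : (Set.uIcc (-1 + I * v : ℂ).re (1 + I * v' : ℂ).re ×ℂ Set.uIcc (-1 + I * v : ℂ).im (1 + I * v' : ℂ).im) ⊆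
      {τ : ℂ | 0 < τ.im} := by
    intro τ hτ
    have h2 := hτ.2
    have e1 : (-1 + I * v : ℂ).im = v := by simp
    have e2 : (1 + I * v' : ℂ).im = v' := by simp
    rw [Set.mem_preimage, e1, e2, Set.mem_uIcc] at h2
    show 0 < τ.im
    rcases h2 with h | h <;> linarith [h.1]
  have key := Complex.integral_boundary_rect_eq_zero_of_differentiableOn G (-1 + I * v) (1 + I * v')
    (hd.mono hsub)
  have e1 : (-1 + I * v : ℂ).im = v := by simp
  have e2 : (1 + I * v' : ℂ).im = v' := by simp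
  have e3 : (-1 + I * v : ℂ).re = -1 := by simp
  have e4 : (1 + I * v' : ℂ).re = 1 := by simp
  rw [e1, e2, e3, e4] at key
  have hvert : (∫ y : ℝ in v..v', G (((1 : ℝ) : ℂ) + y * I)) = ∫ y : ℝ in v..v', G (((-1 : ℝ) : ℂ) + y * I) := by
    apply intervalIntegral.integral_congr
    intro y hy
    have hy' : 0 < y := by
      rw [Set.mem_uIcc] at hy
      rcases hy with h | h <;> linarith [h.1]
    have h1 := hper (((-1 : ℝ) : ℂ) + y * I) (by simpa using hy')
    simp only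
    rw [← h1]
    congr 1
    push_cast
    ring
  rw [hvert] at key
  have key2 : (∫ u : ℝ in (-1 : ℝ)..1, G (u + v * I)) = ∫ u : ℝ in (-1 : ℝ)..1, G (u + v' * I) := by
    linear_combination key
  unfold cf
  simp only [hG] at key2
  have f1 : ∀ w : ℝ, (∫ u : ℝ in (-1 : ℝ)..1, F (u + I * w) * cexp (-(π * I * n * (u + I * w)))) =
      ∫ u : ℝ in (-1 : ℝ)..1, F (u + w * I) * cexp (-(π * I * n * (u + w * I))) := by
    intro w
    congr 1
    ext u
    rw [mul_comm I (w : ℂ)]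
  rw [f1, f1, key2]

private theorem co_gr {x : ℝ} {F : ℂ → ℂ} (hF : Gen x F) : ∃ C : ℝ, ∃ k : ℕ, 0 < C ∧ ∀ τ : ℂ, 0 < τ.im →
    ‖F τ‖ ≤ C * (1 + 1 / τ.im) ^ k := by
  obtain ⟨C, A, h⟩ := hF.gr
  refine ⟨|C| + 1, ⌈A⌉₊, by positivity, fun τ hτ => (h τ hτ).trans ?_⟩
  have h1 : 1 ≤ 1 + 1 / τ.im := by
    have : 0 < 1 / τ.im := by positivity
    linarith
  have h2 : (1 + 1 / τ.im) ^ A ≤ (1 + 1 / τ.im) ^ ⌈A⌉₊ := by
    rw [← Real.rpow_natCast]
    exact Real.rpow_le_rpow_of_exponent_le h1 (Nat.le_ceil A)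
  have h3 : 0 ≤ (1 + 1 / τ.im) ^ A := by positivity
  have h4 : 0 ≤ (1 + 1 / τ.im) ^ ⌈A⌉₊ := by positivity
  calc C * (1 + 1 / τ.im) ^ A ≤ |C| * (1 + 1 / τ.im) ^ A := by
        exact mul_le_mul_of_nonneg_right (le_abs_self C) h3
    _ ≤ |C| * (1 + 1 / τ.im) ^ ⌈A⌉₊ := mul_le_mul_of_nonneg_left h2 (abs_nonneg C)
    _ ≤ (|C| + 1) * (1 + 1 / τ.im) ^ ⌈A⌉₊ := by nlinarith

private theorem co_norm_cf {F : ℂ → ℂ} {v B : ℝ} (n : ℤ) (hB : ∀ u : ℝ, ‖F (u + I * v)‖ ≤ B) :
    ‖cf F v n‖ ≤ B * rexp (π * n * v) := by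
  unfold cf
  rw [norm_mul]
  have h1 : ‖∫ u : ℝ in (-1 : ℝ)..1, F (u + I * v) * cexp (-(π * I * n * (u + I * v)))‖ ≤
      B * rexp (π * n * v) * |(1 : ℝ) - (-1)| := by
    apply intervalIntegral.norm_integral_le_of_norm_le_const
    intro u _
    rw [norm_mul, co_norm]
    exact mul_le_mul_of_nonneg_right (hB u) (Real.exp_pos _).le
  have h2 : ‖(1 / 2 : ℂ)‖ = 1 / 2 := by norm_num
  rw [h2]
  norm_num at h1
  linarith

theorem cf_neg {x : ℝ} {F : ℂ → ℂ} (hF : Gen x F) {v : ℝ} (hv : 0 < v) {n : ℤ} (hn : n < 0) :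
    cf F v n = 0 := by
  obtain ⟨C, k, hC, h⟩ := co_gr hF
  have hb : ∀ w : ℝ, 1 ≤ w → ‖cf F v n‖ ≤ (C * 2 ^ k) * rexp (π * n * w) := by
    intro w hw
    have hw0 : 0 < w := by linarith
    rw [cf_indep hF hv hw0]
    apply co_norm_cf
    intro u
    refine (h _ (by rw [co_im]; exact hw0)).trans ?_
    rw [co_im]
    have h1 : 1 / w ≤ 1 := by rw [div_le_one hw0]; exact hw
    have h2 : 0 < 1 / w := by positivity
    gcongr
    linarith
  have hlim : Filter.Tendsto (fun w : ℝ => (C * 2 ^ k) * rexp (π * n * w)) Filter.atTop (nhds 0) := by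
    have h1 : Filter.Tendsto (fun w : ℝ => π * n * w) Filter.atTop Filter.atBot := by
      have hneg : π * n < 0 := by
        have : (n : ℝ) < 0 := by exact_mod_cast hn
        exact mul_neg_of_pos_of_neg Real.pi_pos this
      exact Filter.Tendsto.const_mul_atTop_of_neg hneg Filter.tendsto_id
    have h2 := (Real.tendsto_exp_atBot.comp h1).const_mul (C * 2 ^ k)
    simpa using h2
  have h0 : ‖cf F v n‖ ≤ 0 := by
    refine ge_of_tendsto hlim ?_
    filter_upwards [Filter.eventually_ge_atTop 1] with w hw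
    exact hb w hw
  exact norm_le_zero_iff.1 h0

theorem cf_bound {x : ℝ} {F : ℂ → ℂ} (hF : Gen x F) : ∃ C A : ℝ, 0 < C ∧ 0 < A ∧
    ∀ n : ℕ, ‖cf F 1 n‖ ≤ C * ((n : ℝ) + 1) ^ A := by
  obtain ⟨C, k, hC, h⟩ := co_gr hF
  refine ⟨C * 2 ^ k * rexp π, k + 1, by positivity, by positivity, fun n => ?_⟩
  have hn : (0 : ℝ) < (n : ℝ) + 1 := by positivity
  have hv : (0 : ℝ) < 1 / ((n : ℝ) + 1) := by positivity
  have h1 : ‖cf F 1 n‖ ≤ (C * (1 + ((n : ℝ) + 1)) ^ k) * rexp (π * (n : ℤ) * (1 / ((n : ℝ) + 1))) := by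
    rw [cf_indep hF one_pos hv]
    apply co_norm_cf
    intro u
    refine (h _ (by rw [co_im]; exact hv)).trans ?_
    rw [co_im, one_div_one_div]
  have h2 : rexp (π * (n : ℤ) * (1 / ((n : ℝ) + 1))) ≤ rexp π := by
    apply Real.exp_le_exp.2
    push_cast
    rw [mul_one_div, div_le_iff₀ hn]
    nlinarith [Real.pi_pos]
  have h3 : (1 + ((n : ℝ) + 1)) ^ k ≤ 2 ^ k * ((n : ℝ) + 1) ^ k := by
    rw [← mul_pow]
    gcongr
    linarith [(Nat.cast_nonneg n : (0 : ℝ) ≤ n)]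
  have h4 : ((n : ℝ) + 1) ^ k ≤ ((n : ℝ) + 1) ^ ((k : ℝ) + 1) := by
    rw [← Real.rpow_natCast]
    apply Real.rpow_le_rpow_of_exponent_le
    · linarith [(Nat.cast_nonneg n : (0 : ℝ) ≤ n)]
    · linarith
  calc ‖cf F 1 n‖ ≤ (C * (1 + ((n : ℝ) + 1)) ^ k) * rexp (π * (n : ℤ) * (1 / ((n : ℝ) + 1))) := h1
    _ ≤ (C * (2 ^ k * ((n : ℝ) + 1) ^ ((k : ℝ) + 1))) * rexp π := by
        have h5 : (1 + ((n : ℝ) + 1)) ^ k ≤ 2 ^ k * ((n : ℝ) + 1) ^ ((k : ℝ) + 1) :=
          h3.trans (mul_le_mul_of_nonneg_left h4 (by positivity))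
        gcongr
    _ = C * 2 ^ k * rexp π * ((n : ℝ) + 1) ^ ((k : ℝ) + 1) := by ring

private theorem co_summable {x : ℝ} {F : ℂ → ℂ} (hF : Gen x F) {v : ℝ} (hv : 0 < v) :
    Summable (fun n : ℕ => ‖cf F 1 n‖ * rexp (-(π * n * v))) := by
  obtain ⟨C, A, hC, hA, hb⟩ := cf_bound hF
  set k : ℕ := ⌈A⌉₊
  have hr : 0 < π * v := mul_pos Real.pi_pos hv
  have h1 := Real.summable_pow_mul_exp_neg_nat_mul k hr
  have h2 := (summable_nat_add_iff 1).2 h1
  have h3 := h2.mul_left (C * rexp (π * v))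
  refine Summable.of_nonneg_of_le (fun n => by positivity) (fun n => ?_) h3
  have h4 : ((n : ℝ) + 1) ^ A ≤ ((n : ℝ) + 1) ^ k := by
    rw [← Real.rpow_natCast]
    apply Real.rpow_le_rpow_of_exponent_le
    · linarith [(Nat.cast_nonneg n : (0 : ℝ) ≤ n)]
    · exact Nat.le_ceil A
  have h5 : rexp (-(π * n * v)) = rexp (π * v) * rexp (-(π * v) * ((n + 1 : ℕ) : ℝ)) := by
    rw [← Real.exp_add]
    congr 1
    push_cast
    ring
  rw [h5]
  have h6 := (hb n).trans (mul_le_mul_of_nonneg_left h4 hC.le)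
  calc ‖cf F 1 n‖ * (rexp (π * v) * rexp (-(π * v) * ((n + 1 : ℕ) : ℝ)))
      ≤ (C * ((n : ℝ) + 1) ^ k) * (rexp (π * v) * rexp (-(π * v) * ((n + 1 : ℕ) : ℝ))) := by
        gcongr
    _ = C * rexp (π * v) * (((n + 1 : ℕ) : ℝ) ^ k * rexp (-(π * v) * ((n + 1 : ℕ) : ℝ))) := by
        push_cast
        ring

theorem F_hasSum {x : ℝ} {F : ℂ → ℂ} (hF : Gen x F) {τ : ℂ} (hτ : 0 < τ.im) :
    HasSum (fun n : ℕ => cf F 1 n * cexp (π * I * n * τ)) (F τ) := by
  set v := τ.im with hv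
  have : Fact ((0 : ℝ) < 2) := ⟨two_pos⟩
  set f : ℝ → ℂ := fun u => F (u + I * v) with hf
  have hper : Function.Periodic f 2 := by
    intro u
    have h1 := hF.per (u + I * v) (by rw [co_im]; exact hτ)
    simp only [hf]
    rw [← h1]
    congr 1
    push_cast
    ring
  have hcont : Continuous f := by
    rw [continuous_iff_continuousAt]
    intro u
    have h1 : ContinuousAt F (u + I * v) := by
      refine (hF.ana.differentiableAt ?_).continuousAt
      apply (isOpen_lt continuous_const Complex.continuous_im).mem_nhds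
      show 0 < ((u : ℂ) + I * v).im
      rw [co_im]
      exact hτ
    exact ContinuousAt.comp (f := fun u : ℝ => (u : ℂ) + I * v) h1 (by fun_prop)
  set g : C(AddCircle (2 : ℝ), ℂ) := ⟨hper.lift, continuous_coinduced_dom.mpr hcont⟩ with hg
  have hgc : ∀ u : ℝ, g (u : AddCircle (2 : ℝ)) = f u := fun u => rfl
  have hco : ∀ n : ℤ, fourierCoeff g n = cf F v n * cexp (-(π * n * v)) := by
    intro n
    rw [fourierCoeff_eq_intervalIntegral g n (-1)]
    unfold cf
    have e1 : (-1 : ℝ) + 2 = 1 := by norm_num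
    rw [e1, mul_assoc, ← intervalIntegral.integral_mul_const]
    have e2 : ((1 / 2 : ℝ) • ∫ u : ℝ in (-1 : ℝ)..1, fourier (-n) (u : AddCircle (2 : ℝ)) • g (u : AddCircle (2 : ℝ))) =
        (1 / 2 : ℂ) * ∫ u : ℝ in (-1 : ℝ)..1, fourier (-n) (u : AddCircle (2 : ℝ)) • g (u : AddCircle (2 : ℝ)) := by
      rw [Complex.real_smul]
      push_cast
      ring
    rw [e2]
    congr 1
    apply intervalIntegral.integral_congr
    intro u _
    simp only
    have e3 : cexp (2 * π * I * ((-n : ℤ) : ℂ) * u / ((2 : ℝ) : ℂ)) =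
        cexp (-(π * I * n * (u + I * v))) * cexp (-(π * n * v)) := by
      rw [← Complex.exp_add]
      congr 1
      push_cast
      field_simp
      linear_combination (n : ℂ) * v * I_sq
    rw [fourier_coe_apply, hgc, smul_eq_mul, e3]
    simp only [hf]
    ring
  have hco0 : ∀ n : ℤ, n < 0 → fourierCoeff g n = 0 := by
    intro n hn
    rw [hco, cf_neg hF hτ hn, zero_mul]
  have hinj : Function.Injective (fun n : ℕ => (n : ℤ)) := Nat.cast_injective
  have hout : ∀ n : ℤ, n ∉ Set.range (fun n : ℕ => (n : ℤ)) → n < 0 := by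
    intro n hn
    by_contra h
    exact hn ⟨n.toNat, by simp; omega⟩
  have hsum : Summable (fourierCoeff g) := by
    rw [← hinj.summable_iff (fun n hn => hco0 n (hout n hn))]
    refine Summable.of_norm ?_
    refine (co_summable hF hτ).congr ?_
    intro n
    simp only [Function.comp]
    rw [hco, norm_mul, cf_indep hF hτ one_pos, Complex.norm_exp]
    congr 2
    simp
  have hmain := has_pointwise_sum_fourier_series_of_summable hsum ((τ.re : ℝ) : AddCircle (2 : ℝ))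
  rw [← hinj.hasSum_iff ?_] at hmain
  · have hval : g ((τ.re : ℝ) : AddCircle (2 : ℝ)) = F τ := by
      rw [hgc]
      simp only [hf]
      rw [hv, mul_comm, Complex.re_add_im]
    rw [hval] at hmain
    convert hmain using 1
    ext n
    simp only [Function.comp]
    have e3 : cexp (π * I * n * τ) =
        cexp (-(π * ((n : ℤ) : ℂ) * v)) * cexp (2 * π * I * ((n : ℤ) : ℂ) * (τ.re : ℝ) / ((2 : ℝ) : ℂ)) := by
      rw [← Complex.exp_add]
      congr 1
      have : (τ : ℂ) = τ.re + v * I := by rw [hv, Complex.re_add_im]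
      conv_lhs => rw [this]
      push_cast
      field_simp
      linear_combination (n : ℂ) * v * I_sq
    rw [hco, fourier_coe_apply, smul_eq_mul, cf_indep hF hτ one_pos, e3]
    ring
  · intro n hn
    rw [hco0 n (hout n hn), zero_smul]

end Pool.Agent.Helper31.FI
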