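import Pool.Agent.Helper31.FI.RPart
import Pool.Agent.Helper31.FI.MainInt

/-!
# FI-CB: the bound for the coefficients

`F = ex x + θ gg`, `gg = rem - mu PP - conj mu conj (PP (sr ·))`.  `cf F (1/n) n` is half of the sum of four integrals over `[-1, 1]`:
* `∫ ex x τ exp (-π i n τ) = ∫ exp (π i (x - n) τ)`, norm `≤ exp π · 2/(π (n - x))` (explicit antiderivative, `im τ = 1/n`,
  `‖exp (π i (x-n) τ)‖ = exp (π (n - x)/n) ≤ exp π`), and `1/(n - x) ≤ n^(-1/2) ≤ n^(1/4) x^(-33/52)`;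
* `rpart`;
* `- mu ∫ pint`, `|mu| ≤ 2`, `pint_le`, `main_int`;
* the reflected one: substitute `u ↦ -u`, it is the complex conjugate of `∫ pint`.
`1 ≤ x ≤ n - √n` forces `n ≥ 3`.
-/

set_option autoImplicit false

namespace Pool.Agent.Helper31.FI

open Complex Real Finset MeasureTheory

private theorem CoefBd_three {x : ℝ} {n : ℕ} (hn : 1 ≤ n) (hx : 1 ≤ x) (h : x ≤ n - √n) :
    3 ≤ n := by
  by_contra hc
  have h2 : n = 1 ∨ n = 2 := by omega
  rcases h2 with rfl | rfl
  · norm_num at h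
    linarith
  · have h3 : (1 : ℝ) < √2 := by
      rw [Real.lt_sqrt (by norm_num)]
      norm_num
    push_cast at h
    linarith

private theorem CoefBd_first {x : ℝ} {n : ℕ} (hn : 1 ≤ n) (hx : 1 ≤ x) (h : x ≤ n - √n) :
    IntervalIntegrable (fun u : ℝ => ex x (u + I / n) * cexp (-(π * I * n * (u + I / n))))
      volume (-1) 1 ∧
    ‖∫ u in (-1 : ℝ)..1, ex x (u + I / n) * cexp (-(π * I * n * (u + I / n)))‖ ≤
      rexp π * ((n : ℝ) ^ (1 / 4 : ℝ) * x ^ (-(33 / 52) : ℝ)) := by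
  have hn0 : (0 : ℝ) < n := by exact_mod_cast hn
  have hn1 : (1 : ℝ) ≤ n := by exact_mod_cast hn
  have hx0 : 0 < x := by linarith
  have hs1 : 1 ≤ √(n : ℝ) := Real.one_le_sqrt.2 hn1
  have hnx : √(n : ℝ) ≤ n - x := by linarith
  have hnx0 : 0 < n - x := by linarith
  have hnC : (n : ℂ) ≠ 0 := by
    exact_mod_cast hn0.ne'
  have hfun : ∀ u : ℝ, ex x (u + I / n) * cexp (-(π * I * n * (u + I / n))) =
      ((rexp (π * (n - x) / n) : ℝ) : ℂ) * cexp ((π * I * (x - n)) * u) := by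
    intro u
    unfold ex
    rw [← Complex.exp_add, Complex.ofReal_exp, ← Complex.exp_add]
    congr 1
    push_cast
    field_simp
    ring_nf
    rw [Complex.I_sq]
    ring
  refine ⟨?_, ?_⟩
  · refine Continuous.intervalIntegrable ?_ _ _
    simp only [hfun]
    fun_prop
  · simp only [hfun]
    rw [intervalIntegral.integral_const_mul, norm_mul]
    have hc : (π * I * (x - n) : ℂ) ≠ 0 := by
      refine mul_ne_zero (mul_ne_zero (by exact_mod_cast Real.pi_ne_zero) Complex.I_ne_zero) ?_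
      intro h0
      have h1 : ((x - n : ℝ) : ℂ) = 0 := by
        push_cast
        exact h0
      have h2 : x - n = 0 := by exact_mod_cast h1
      linarith
    rw [integral_exp_mul_complex hc, norm_div]
    have hE : ∀ u : ℝ, ‖cexp ((π * I * (x - n)) * u)‖ = 1 := by
      intro u
      have e : (π * I * (x - n) : ℂ) * u = ((π * (x - n) * u : ℝ) : ℂ) * I := by
        push_cast
        ring
      rw [e, Complex.norm_exp_ofReal_mul_I]
    have hnum : ‖cexp ((π * I * (x - n)) * (1 : ℝ)) - cexp ((π * I * (x - n)) * ((-1 : ℝ)))‖ ≤ 2 := by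
      refine (norm_sub_le _ _).trans ?_
      rw [hE, hE]
      norm_num
    have hden : ‖(π * I * (x - n) : ℂ)‖ = π * (n - x) := by
      rw [norm_mul, norm_mul, Complex.norm_I, Complex.norm_real, mul_one,
        Real.norm_of_nonneg Real.pi_pos.le]
      congr 1
      have e : ((x : ℂ) - n) = ((x - n : ℝ) : ℂ) := by push_cast; ring
      rw [e, Complex.norm_real, Real.norm_eq_abs, abs_of_neg (by linarith)]
      ring
    rw [hden]
    have h1 : ‖((rexp (π * (n - x) / n) : ℝ) : ℂ)‖ ≤ rexp π := by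
      rw [Complex.norm_real, Real.norm_of_nonneg (Real.exp_pos _).le]
      refine Real.exp_le_exp.2 ?_
      rw [div_le_iff₀ hn0]
      nlinarith [Real.pi_pos]
    have h2 : ‖cexp ((π * I * (x - n)) * (1 : ℝ)) - cexp ((π * I * (x - n)) * ((-1 : ℝ)))‖ /
        (π * (n - x)) ≤ (√(n : ℝ))⁻¹ := by
      rw [div_le_iff₀ (by positivity)]
      refine hnum.trans ?_
      rw [inv_mul_eq_div, le_div_iff₀ (by linarith)]
      have := Real.pi_gt_three
      nlinarith
    have h3 : (√(n : ℝ))⁻¹ ≤ (n : ℝ) ^ (1 / 4 : ℝ) * x ^ (-(33 / 52) : ℝ) := by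
      have hxn : x ≤ n := by linarith
      have e1 : (n : ℝ) ^ (-(33 / 52) : ℝ) ≤ x ^ (-(33 / 52) : ℝ) :=
        Real.rpow_le_rpow_of_nonpos hx0 hxn (by norm_num)
      have e2 : (√(n : ℝ))⁻¹ = (n : ℝ) ^ (-(1 / 2) : ℝ) := by
        rw [Real.sqrt_eq_rpow, ← Real.rpow_neg hn0.le]
      have e3 : (n : ℝ) ^ (-(1 / 2) : ℝ) ≤ (n : ℝ) ^ (1 / 4 : ℝ) * (n : ℝ) ^ (-(33 / 52) : ℝ) := by
        rw [← Real.rpow_add hn0]
        exact Real.rpow_le_rpow_of_exponent_le hn1 (by norm_num)
      rw [e2]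
      exact e3.trans (mul_le_mul_of_nonneg_left e1 (by positivity))
    calc _ ≤ rexp π * (√(n : ℝ))⁻¹ :=
          mul_le_mul h1 h2 (div_nonneg (norm_nonneg _) (by positivity)) (Real.exp_pos π).le
      _ ≤ _ := mul_le_mul_of_nonneg_left h3 (Real.exp_pos π).le

private theorem CoefBd_mu (x : ℝ) : ‖mu x‖ ≤ 2 := by
  unfold mu
  refine (norm_sub_le _ _).trans ?_
  have e : (-(2 * π * I * x) : ℂ) = ((-(2 * π * x) : ℝ) : ℂ) * I := by
    push_cast
    ring
  rw [e, Complex.norm_exp_ofReal_mul_I]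
  norm_num

private theorem CoefBd_refl (x : ℝ) {n : ℕ} (hn : 1 ≤ n) (u : ℝ) :
    jacobiTheta (u + I / n) * (starRingEnd ℂ) (PP x (sr (u + I / n))) *
      cexp (-(π * I * n * (u + I / n))) = (starRingEnd ℂ) (pint x n (-u)) := by
  have hn0 : (0 : ℝ) < n := by exact_mod_cast hn
  have e1 : sr (u + I / n) = ((-u : ℝ) : ℂ) + I / n := by
    unfold sr
    rw [map_add, map_div₀, Complex.conj_ofReal, Complex.conj_I, Complex.conj_natCast]
    push_cast
    ring
  have e2 : (((-u : ℝ) : ℂ) + I / n).im = 1 / n := by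
    rw [Complex.add_im, Complex.ofReal_im, zero_add, ← Complex.ofReal_natCast,
      Complex.div_ofReal_im, Complex.I_im]
  have him : 0 < (((-u : ℝ) : ℂ) + I / n).im := by
    rw [e2]
    positivity
  have e3 : sr (((-u : ℝ) : ℂ) + I / n) = u + I / n := by
    unfold sr
    rw [map_add, map_div₀, Complex.conj_ofReal, Complex.conj_I, Complex.conj_natCast]
    push_cast
    ring
  have e4 := theta_conj him
  rw [e3] at e4
  unfold pint
  rw [e1, e4, map_mul, map_mul, ← Complex.exp_conj]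
  congr 2
  rw [map_neg, map_mul, map_mul, map_mul, map_add, map_div₀, Complex.conj_ofReal,
    Complex.conj_ofReal, Complex.conj_I, Complex.conj_natCast]
  push_cast
  ring

theorem coef_bd : ∃ C : ℝ, 0 < C ∧ ∀ (x : ℝ) (F : ℂ → ℂ) (n : ℕ), 1 ≤ n → 1 ≤ x → x ≤ n - √n → Gen x F →
    ‖cf F (1 / n) n‖ ≤
      C * ((1 + Real.log n) ^ 2 * ((n : ℝ) ^ (1 / 4 : ℝ) * x ^ (-(33 / 52) : ℝ))) := by
  obtain ⟨C1, hC1, h1⟩ := rpart
  obtain ⟨C2, hC2, h2⟩ := main_int
  refine ⟨rexp π + C1 + 4 * C2, by positivity, fun x F n hn hx hxn hF => ?_⟩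
  have hn3 := CoefBd_three hn hx hxn
  have hn0 : (0 : ℝ) < n := by exact_mod_cast hn
  have hn1 : (1 : ℝ) ≤ n := by exact_mod_cast hn
  have hx0 : 0 < x := by linarith
  have hxn' : x ≤ n := by
    have := Real.sqrt_nonneg (n : ℝ)
    linarith
  set Q : ℝ := (n : ℝ) ^ (1 / 4 : ℝ) * x ^ (-(33 / 52) : ℝ) with hQ
  have hQ0 : 0 ≤ Q := by positivity
  obtain ⟨i1, b1⟩ := CoefBd_first hn hx hxn
  obtain ⟨i2, b2⟩ := h1 x F n hx hF hn3
  have b2' : ‖∫ u in (-1 : ℝ)..1, jacobiTheta (u + I / n) * rem x F (u + I / n) *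
      cexp (-(π * I * n * (u + I / n)))‖ ≤ C1 * Q := by
    refine b2.trans (mul_le_mul_of_nonneg_left ?_ hC1.le)
    refine mul_le_mul_of_nonneg_left ?_ (by positivity)
    exact Real.rpow_le_rpow_of_exponent_le hx (by norm_num)
  have i3 := pint_integrable x hn
  have b3 := (pint_le x hn).trans (h2 n x hn hx hxn')
  have i4 : IntervalIntegrable (fun u : ℝ => (starRingEnd ℂ) (pint x n (-u))) volume (-1) 1 := by
    have h3 : IntervalIntegrable (fun u : ℝ => pint x n (-u)) volume (-1) 1 := by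
      have h4 := (IntervalIntegrable.iff_comp_neg (f := pint x n) (a := -1) (b := 1)).1 i3
      rw [neg_neg] at h4
      exact h4.symm
    rw [intervalIntegrable_iff] at h3 ⊢
    exact (Complex.conjCLE.toContinuousLinearMap.integrable_comp h3)
  have b4 : ∫ u in (-1 : ℝ)..1, (starRingEnd ℂ) (pint x n (-u)) =
      (starRingEnd ℂ) (∫ u in (-1 : ℝ)..1, pint x n u) := by
    have h3 : ∫ u in (-1 : ℝ)..1, (starRingEnd ℂ) (pint x n (-u)) =
        ∫ u in (-1 : ℝ)..1, (starRingEnd ℂ) (pint x n u) := by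
      have h4 := intervalIntegral.integral_comp_neg (a := -1) (b := 1)
        (fun u : ℝ => (starRingEnd ℂ) (pint x n u))
      rw [neg_neg] at h4
      exact h4
    rw [h3]
    exact intervalIntegral.intervalIntegral_conj
  have hsplit : ∀ u : ℝ, F (u + I * ((1 / n : ℝ) : ℂ)) *
      cexp (-(π * I * ((n : ℤ) : ℂ) * (u + I * ((1 / n : ℝ) : ℂ)))) =
      ex x (u + I / n) * cexp (-(π * I * n * (u + I / n))) +
      jacobiTheta (u + I / n) * rem x F (u + I / n) * cexp (-(π * I * n * (u + I / n))) -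
      mu x * pint x n u -
      (starRingEnd ℂ) (mu x) * (starRingEnd ℂ) (pint x n (-u)) := by
    intro u
    have e0 : (u + I * ((1 / n : ℝ) : ℂ) : ℂ) = u + I / n := by
      push_cast
      ring
    have him : 0 < ((u : ℂ) + I / n).im := by
      have : ((u : ℂ) + I / n).im = 1 / n := by
        rw [Complex.add_im, Complex.ofReal_im, zero_add, ← Complex.ofReal_natCast,
          Complex.div_ofReal_im, Complex.I_im]
      rw [this]
      positivity
    rw [e0, ← CoefBd_refl x hn u, Int.cast_natCast]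
    have hθ := theta_ne him
    have e1 : F (u + I / n) = ex x (u + I / n) + jacobiTheta (u + I / n) * gg x F (u + I / n) := by
      unfold gg
      field_simp
      ring
    rw [e1]
    unfold pint rem
    ring
  unfold cf
  simp only [hsplit]
  rw [intervalIntegral.integral_sub ((i1.add i2).sub (i3.const_mul _)) (i4.const_mul _),
    intervalIntegral.integral_sub (i1.add i2) (i3.const_mul _), intervalIntegral.integral_add i1 i2,
    intervalIntegral.integral_const_mul, intervalIntegral.integral_const_mul, b4, norm_mul]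
  have hmu := CoefBd_mu x
  have hcm : ‖(starRingEnd ℂ) (mu x)‖ ≤ 2 := by
    rw [Complex.norm_conj]
    exact hmu
  set R : ℝ := (1 + Real.log n) ^ 2 * Q with hR
  have hlog : 0 ≤ Real.log n := Real.log_nonneg hn1
  have hQR : Q ≤ R := by
    rw [hR]
    have : 1 ≤ (1 + Real.log n) ^ 2 := by nlinarith
    nlinarith
  have hR0 : 0 ≤ R := hQ0.trans hQR
  set A1 := ∫ u in (-1 : ℝ)..1, ex x (u + I / n) * cexp (-(π * I * n * (u + I / n)))
  set A2 := ∫ u in (-1 : ℝ)..1, jacobiTheta (u + I / n) * rem x F (u + I / n) *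
      cexp (-(π * I * n * (u + I / n)))
  set A3 := ∫ u in (-1 : ℝ)..1, pint x n u
  have hn2 : ‖A1 + A2 - mu x * A3 - (starRingEnd ℂ) (mu x) * (starRingEnd ℂ) A3‖ ≤
      (rexp π + C1 + 4 * C2) * R := by
    have s1 := norm_sub_le (A1 + A2 - mu x * A3) ((starRingEnd ℂ) (mu x) * (starRingEnd ℂ) A3)
    have s2 := norm_sub_le (A1 + A2) (mu x * A3)
    have s3 := norm_add_le A1 A2
    have s4 : ‖mu x * A3‖ ≤ 2 * (C2 * R) := by
      rw [norm_mul]
      exact mul_le_mul hmu b3 (norm_nonneg _) (by norm_num)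
    have s5 : ‖(starRingEnd ℂ) (mu x) * (starRingEnd ℂ) A3‖ ≤ 2 * (C2 * R) := by
      rw [norm_mul, Complex.norm_conj A3]
      exact mul_le_mul hcm b3 (norm_nonneg _) (by norm_num)
    have s6 : rexp π * Q ≤ rexp π * R := mul_le_mul_of_nonneg_left hQR (Real.exp_pos π).le
    have s7 : C1 * Q ≤ C1 * R := mul_le_mul_of_nonneg_left hQR hC1.le
    linarith
  have h5 : ‖(1 / 2 : ℂ)‖ = 1 / 2 := by norm_num
  rw [h5]
  have h6 : 0 ≤ (rexp π + C1 + 4 * C2) * R := by positivity
  linarith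

end Pool.Agent.Helper31.FI
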