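import Pool.Agent.Helper31.FI.Red

/-!
# FI-CI: invariant functions vanishing at both cusps are zero

If `T τ₀ ≠ 0` for some `τ₀`, by `red` (property: `‖T τ‖ ≤ δ`) some `τ₁ ∈ FD` has `T τ₁ ≠ 0`; outside of a compact subset
`{w ∈ FD, v ≤ im w ≤ Y}` of `FD` one has `‖T‖ ≤ ‖T τ₁‖/2`, so `‖T‖` restricted to `FD` has a maximum at some `a ∈ FD`, which by `red` is a
maximum on the whole half plane; by the maximum modulus principle `‖T‖` is constant there; but it tends to `0` as `im τ → ∞`.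
-/

set_option autoImplicit false

namespace Pool.Agent.Helper31.FI

open Complex Real

theorem const_inv (T : ℂ → ℂ) (hd : DifferentiableOn ℂ T {τ : ℂ | 0 < τ.im})
    (h2 : ∀ τ : ℂ, 0 < τ.im → T (τ + 2) = T τ) (hS : ∀ τ : ℂ, 0 < τ.im → T (-1 / τ) = T τ)
    (hi : ∀ δ : ℝ, 0 < δ → ∃ Y : ℝ, ∀ τ : ℂ, Y < τ.im → ‖T τ‖ ≤ δ)
    (hc : ∀ δ : ℝ, 0 < δ → ∃ v : ℝ, 0 < v ∧ ∀ τ ∈ FD, τ.im < v → ‖T τ‖ ≤ δ) :
    ∀ τ : ℂ, 0 < τ.im → T τ = 0 := by
  have h2' : ∀ τ : ℂ, 0 < τ.im → T (τ - 2) = T τ := by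
    intro τ hτ
    have h3 := h2 (τ - 2) (by simpa using hτ)
    rw [sub_add_cancel] at h3
    exact h3.symm
  -- reduction for properties of the values
  have hred : ∀ P : ℂ → Prop, (∀ τ ∈ FD, P (T τ)) → ∀ τ : ℂ, 0 < τ.im → P (T τ) := by
    intro P hP
    refine red (fun τ => P (T τ)) ?_ ?_ ?_ hP
    · intro τ hτ h
      change P (T (τ + 2))
      rwa [h2 τ hτ]
    · intro τ hτ h
      change P (T (τ - 2))
      rwa [h2' τ hτ]
    · intro τ hτ h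
      change P (T (-1 / τ))
      rwa [hS τ hτ]
  refine hred (fun z => z = 0) ?_
  by_contra hcon
  push Not at hcon
  obtain ⟨τ₁, h1, hne⟩ := hcon
  have hδ : 0 < ‖T τ₁‖ / 2 := by
    have := norm_pos_iff.2 hne
    positivity
  obtain ⟨Y, hY⟩ := hi _ hδ
  obtain ⟨v, hv0, hv⟩ := hc _ hδ
  let K : Set ℂ := (Set.Icc (-1 : ℝ) 1 ×ℂ Set.Icc v Y) ∩ {w | 1 ≤ ‖w‖}
  have hK : IsCompact K := by
    refine IsCompact.inter_right (isCompact_Icc.reProdIm isCompact_Icc) ?_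
    exact isClosed_le continuous_const continuous_norm
  have hmemK : ∀ w ∈ FD, ‖T τ₁‖ / 2 < ‖T w‖ → w ∈ K := by
    intro w hw hlt
    refine ⟨?_, hw.2.2⟩
    rw [Complex.mem_reProdIm]
    refine ⟨abs_le.1 hw.2.1, ?_, ?_⟩
    · by_contra h
      push Not at h
      exact absurd (hv w hw h) (not_le.2 hlt)
    · by_contra h
      push Not at h
      exact absurd (hY w h) (not_le.2 hlt)
  have hKim : ∀ w ∈ K, 0 < w.im := by
    rintro w ⟨hw, -⟩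
    rw [Complex.mem_reProdIm] at hw
    exact hv0.trans_le hw.2.1
  have hlt1 : ‖T τ₁‖ / 2 < ‖T τ₁‖ := by linarith
  obtain ⟨a, haK, hmax⟩ := hK.exists_isMaxOn ⟨τ₁, hmemK τ₁ h1 hlt1⟩
    ((hd.continuousOn.mono hKim).norm)
  have ha0 : ‖T τ₁‖ ≤ ‖T a‖ := hmax (hmemK τ₁ h1 hlt1)
  have hall : ∀ τ : ℂ, 0 < τ.im → ‖T τ‖ ≤ ‖T a‖ := by
    refine hred (fun z => ‖z‖ ≤ ‖T a‖) fun w hw => ?_
    rcases le_or_gt ‖T w‖ (‖T τ₁‖ / 2) with h | h
    · exact h.trans (hlt1.le.trans ha0)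
    · exact hmax (hmemK w hw h)
  have hopen : IsOpen {τ : ℂ | 0 < τ.im} := isOpen_lt continuous_const Complex.continuous_im
  have hconn : IsPreconnected {τ : ℂ | 0 < τ.im} := (convex_halfSpace_im_gt 0).isPreconnected
  have heq := Complex.norm_eqOn_of_isPreconnected_of_isMaxOn hconn hopen hd (hKim a haK)
    (fun τ hτ => hall τ hτ)
  have hτ : 0 < ((max Y 0 + 1 : ℝ) * I : ℂ).im := by
    have := le_max_right Y 0
    simp
    linarith
  have h3 := heq (show ((max Y 0 + 1 : ℝ) * I : ℂ) ∈ {τ : ℂ | 0 < τ.im} from hτ)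
  have h4 : ‖T ((max Y 0 + 1 : ℝ) * I : ℂ)‖ ≤ ‖T τ₁‖ / 2 := by
    apply hY
    have := le_max_left Y 0
    simp
    linarith
  have h5 : ‖T ((max Y 0 + 1 : ℝ) * I : ℂ)‖ = ‖T a‖ := h3
  linarith

end Pool.Agent.Helper31.FI
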