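import Pool.Agent.Helper31.FI.GDefs
import Pool.Agent.Helper31.FI.Bump

/-!
# FI-CL: convolution with narrow Gaussians

`gb t a y` is the symmetrization in `a` of `N (y - a)`, `N s = √t exp (-π t s²)`, `∫ N = 1`.
`cv_decay`: `(1 + |y|)^K ≤ (1 + |a|)^K (1 + |y - a|)^K` (and `|y + a|` for the other half), `‖f a‖ ≤ C_K (1 + |a|)^(-K)`,
`∫ N s (1 + |s|)^K ds ≤ C` for `t ≥ 1` (scaling).
`cv_tendsto`: for even `f`, `cv f t y = ∫ f a N (y - a) da = ∫ f (y - s/√t) exp (-π s²) ds → f y` (dominated convergence, `f` bounded).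
`cv_int`: continuity and domination.
-/

set_option autoImplicit false

namespace Pool.Agent.Helper31.FI

open Complex Real MeasureTheory Filter Topology

/-- convolution with the even bump -/
noncomputable def cv (f : ℝ → ℂ) (t y : ℝ) : ℂ := ∫ a : ℝ, f a * (gb t a y : ℂ)

/-- Gaussian weight times a power -/
private noncomputable def CvLim_g (K : ℕ) (u : ℝ) : ℝ := rexp (-(π * u ^ 2)) * (1 + |u|) ^ K

private theorem CvLim_g_nonneg (K : ℕ) (u : ℝ) : 0 ≤ CvLim_g K u := by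
  unfold CvLim_g
  positivity

private theorem CvLim_g_cont (K : ℕ) : Continuous (CvLim_g K) := by
  unfold CvLim_g
  fun_prop

private theorem CvLim_g_int (K : ℕ) : Integrable (CvLim_g K) := by
  have h1 : Integrable fun x : ℝ => x ^ K * rexp (-π * x ^ 2) := by
    have h2 := integrable_rpow_mul_exp_neg_mul_sq Real.pi_pos (s := (K : ℝ))
      (by have := Nat.cast_nonneg (α := ℝ) K; linarith)
    simpa only [Real.rpow_natCast] using h2
  have h0 : Integrable fun x : ℝ => rexp (-π * x ^ 2) := integrable_exp_neg_mul_sq Real.pi_pos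
  refine ((h0.add h1.norm).const_mul ((2 : ℝ) ^ K)).mono' (CvLim_g_cont K).aestronglyMeasurable
    (Eventually.of_forall fun u => ?_)
  rw [Real.norm_of_nonneg (CvLim_g_nonneg K u)]
  have h3 : (1 + |u|) ^ K ≤ 2 ^ K * (1 + |u| ^ K) := by
    rcases le_total |u| 1 with h | h
    · calc (1 + |u|) ^ K ≤ 2 ^ K := pow_le_pow_left₀ (by positivity) (by linarith) K
        _ ≤ 2 ^ K * (1 + |u| ^ K) := by
            have := pow_nonneg (abs_nonneg u) K
            nlinarith [pow_pos (two_pos : (0 : ℝ) < 2) K]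
    · calc (1 + |u|) ^ K ≤ (2 * |u|) ^ K := pow_le_pow_left₀ (by positivity) (by linarith) K
        _ = 2 ^ K * |u| ^ K := mul_pow _ _ _
        _ ≤ 2 ^ K * (1 + |u| ^ K) := by
            have := pow_pos (two_pos : (0 : ℝ) < 2) K
            nlinarith
  have h4 : ‖u ^ K * rexp (-π * u ^ 2)‖ = |u| ^ K * rexp (-(π * u ^ 2)) := by
    rw [norm_mul, Real.norm_of_nonneg (Real.exp_pos _).le, norm_pow, Real.norm_eq_abs, neg_mul]
  change CvLim_g K u ≤ 2 ^ K * (rexp (-π * u ^ 2) + ‖u ^ K * rexp (-π * u ^ 2)‖)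
  rw [h4, neg_mul]
  unfold CvLim_g
  calc rexp (-(π * u ^ 2)) * (1 + |u|) ^ K ≤ rexp (-(π * u ^ 2)) * (2 ^ K * (1 + |u| ^ K)) :=
        mul_le_mul_of_nonneg_left h3 (Real.exp_pos _).le
    _ = 2 ^ K * (rexp (-(π * u ^ 2)) + |u| ^ K * rexp (-(π * u ^ 2))) := by ring

private theorem CvLim_h_int (K : ℕ) {t : ℝ} (ht : 0 < t) :
    Integrable (fun s : ℝ => √t * CvLim_g K (√t * s)) ∧
      ∫ s : ℝ, √t * CvLim_g K (√t * s) = ∫ u : ℝ, CvLim_g K u := by
  have h0 : 0 < √t := Real.sqrt_pos.2 ht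
  constructor
  · exact ((CvLim_g_int K).comp_mul_left' h0.ne').const_mul _
  · rw [integral_const_mul, Measure.integral_comp_mul_left, abs_of_pos (inv_pos.2 h0), smul_eq_mul,
      ← mul_assoc, mul_inv_cancel₀ h0.ne', one_mul]

private theorem CvLim_ineq (K : ℕ) {t : ℝ} (ht : 1 ≤ t) {a y s : ℝ} (h : |y| ≤ |a| + |s|) :
    ((1 + |a|) ^ K)⁻¹ * (√t * rexp (-(π * t * s ^ 2))) ≤
      ((1 + |y|) ^ K)⁻¹ * (√t * CvLim_g K (√t * s)) := by
  have ht0 : 0 < t := by linarith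
  have h1 : (1 : ℝ) ≤ √t := Real.one_le_sqrt.2 ht
  have h2 : CvLim_g K (√t * s) = rexp (-(π * t * s ^ 2)) * (1 + |√t * s|) ^ K := by
    unfold CvLim_g
    rw [mul_pow, Real.sq_sqrt ht0.le]
    congr 3
    ring
  have h3 : |s| ≤ |√t * s| := by
    rw [abs_mul, abs_of_pos (by linarith : 0 < √t)]
    exact le_mul_of_one_le_left (abs_nonneg s) h1
  have h4 : (1 + |y|) ^ K ≤ (1 + |a|) ^ K * (1 + |√t * s|) ^ K := by
    rw [← mul_pow]
    refine pow_le_pow_left₀ (by positivity) ?_ K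
    nlinarith [abs_nonneg a, abs_nonneg s, abs_nonneg (√t * s),
      mul_nonneg (abs_nonneg a) (abs_nonneg (√t * s))]
  rw [h2]
  have hA : 0 < (1 + |a|) ^ K := by positivity
  have hY : 0 < (1 + |y|) ^ K := by positivity
  have hE : 0 ≤ √t * rexp (-(π * t * s ^ 2)) := by positivity
  rw [inv_mul_le_iff₀ hA]
  calc √t * rexp (-(π * t * s ^ 2))
      = ((1 + |y|) ^ K)⁻¹ * (√t * rexp (-(π * t * s ^ 2))) * (1 + |y|) ^ K := by
        field_simp
    _ ≤ ((1 + |y|) ^ K)⁻¹ * (√t * rexp (-(π * t * s ^ 2))) *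
        ((1 + |a|) ^ K * (1 + |√t * s|) ^ K) :=
        mul_le_mul_of_nonneg_left h4 (by positivity)
    _ = (1 + |a|) ^ K * (((1 + |y|) ^ K)⁻¹ *
        (√t * (rexp (-(π * t * s ^ 2)) * (1 + |√t * s|) ^ K))) := by ring

private theorem CvLim_f (f : SchwartzMap ℝ ℂ) (K : ℕ) :
    ∃ C : ℝ, 0 ≤ C ∧ ∀ a, ‖f a‖ ≤ C * ((1 + |a|) ^ K)⁻¹ := by
  refine ⟨2 ^ K * ((Finset.Iic ((K, 0) : ℕ × ℕ)).sup
    (fun m => SchwartzMap.seminorm ℝ m.1 m.2)) f, by positivity, fun a => ?_⟩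
  have h1 := SchwartzMap.one_add_le_sup_seminorm_apply (𝕜 := ℝ) (m := (K, 0)) (k := K) (n := 0)
    le_rfl le_rfl f a
  rw [norm_iteratedFDeriv_zero, Real.norm_eq_abs] at h1
  rw [← div_eq_mul_inv, le_div_iff₀ (by positivity), mul_comm]
  exact h1

private theorem CvLim_gb_cont (t y : ℝ) : Continuous fun a : ℝ => (gb t a y : ℂ) := by
  unfold gb
  fun_prop

private theorem CvLim_gh_cont (t y : ℝ) : Continuous fun a : ℝ => (gh t a y : ℂ) := by
  unfold gh
  fun_prop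

theorem cv_decay (f : SchwartzMap ℝ ℂ) (K : ℕ) : ∃ C : ℝ, 0 < C ∧ ∀ t y : ℝ, 1 ≤ t →
    ∫ a : ℝ, ‖f a * (gb t a y : ℂ)‖ ≤ C * (1 + |y|) ^ (-(K : ℝ)) := by
  obtain ⟨C, hC0, hC⟩ := CvLim_f f K
  set M : ℝ := ∫ u : ℝ, CvLim_g K u with hM
  have hM0 : 0 ≤ M := integral_nonneg fun u => CvLim_g_nonneg K u
  refine ⟨C * M + 1, by positivity, fun t y ht => ?_⟩
  have ht0 : 0 < t := by linarith
  obtain ⟨hi, hi'⟩ := CvLim_h_int K ht0
  set h : ℝ → ℝ := fun s => √t * CvLim_g K (√t * s) with hh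
  have hi1 : Integrable fun a : ℝ => h (y - a) := hi.comp_sub_left y
  have hi2 : Integrable fun a : ℝ => h (y + a) := hi.comp_add_left y
  have hb : ∀ a : ℝ, ‖f a * (gb t a y : ℂ)‖ ≤
      C * ((1 + |y|) ^ K)⁻¹ / 2 * (h (y - a) + h (y + a)) := by
    intro a
    have hgb : 0 ≤ gb t a y := by unfold gb; positivity
    rw [norm_mul, norm_real, Real.norm_of_nonneg hgb]
    have e1 : |y| ≤ |a| + |y - a| := by
      have := abs_add_le a (y - a)
      simpa using this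
    have e2 : |y| ≤ |a| + |y + a| := by
      have := abs_add_le (-a) (y + a)
      rw [abs_neg] at this
      simpa using this
    have i1 := CvLim_ineq K ht e1
    have i2 := CvLim_ineq K ht e2
    calc ‖f a‖ * gb t a y ≤ (C * ((1 + |a|) ^ K)⁻¹) * gb t a y :=
          mul_le_mul_of_nonneg_right (hC a) hgb
      _ = C / 2 * (((1 + |a|) ^ K)⁻¹ * (√t * rexp (-(π * t * (y - a) ^ 2))) +
          ((1 + |a|) ^ K)⁻¹ * (√t * rexp (-(π * t * (y + a) ^ 2)))) := by
          unfold gb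
          ring
      _ ≤ C / 2 * (((1 + |y|) ^ K)⁻¹ * h (y - a) + ((1 + |y|) ^ K)⁻¹ * h (y + a)) :=
          mul_le_mul_of_nonneg_left (add_le_add i1 i2) (by positivity)
      _ = C * ((1 + |y|) ^ K)⁻¹ / 2 * (h (y - a) + h (y + a)) := by ring
  have h1 : ∫ a : ℝ, h (y - a) = M := by
    rw [integral_sub_left_eq_self h volume y]
    exact hi'
  have h2 : ∫ a : ℝ, h (y + a) = M := by
    rw [integral_add_left_eq_self h y]
    exact hi'
  calc ∫ a : ℝ, ‖f a * (gb t a y : ℂ)‖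
      ≤ ∫ a : ℝ, C * ((1 + |y|) ^ K)⁻¹ / 2 * (h (y - a) + h (y + a)) :=
        integral_mono_of_nonneg (Eventually.of_forall fun a => norm_nonneg _)
          ((hi1.add hi2).const_mul _) (Eventually.of_forall hb)
    _ = C * ((1 + |y|) ^ K)⁻¹ / 2 * (M + M) := by
        rw [integral_const_mul, integral_add hi1 hi2, h1, h2]
    _ = C * M * ((1 + |y|) ^ K)⁻¹ := by ring
    _ ≤ (C * M + 1) * ((1 + |y|) ^ K)⁻¹ :=
        mul_le_mul_of_nonneg_right (by linarith) (by positivity)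
    _ = (C * M + 1) * (1 + |y|) ^ (-(K : ℝ)) := by
        rw [Real.rpow_neg (by positivity), Real.rpow_natCast]

private theorem CvLim_int (f : SchwartzMap ℝ ℂ) {g : ℝ → ℂ} (hg : Continuous g) {C : ℝ}
    (hC : ∀ a, ‖g a‖ ≤ C) : Integrable fun a : ℝ => f a * g a := by
  refine (f.integrable.norm.const_mul C).mono' (f.continuous.mul hg).aestronglyMeasurable
    (Eventually.of_forall fun a => ?_)
  rw [norm_mul, mul_comm]
  exact mul_le_mul_of_nonneg_right (hC a) (norm_nonneg _)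

theorem cv_int (f : SchwartzMap ℝ ℂ) {t : ℝ} (ht : 0 < t) (y : ℝ) :
    Integrable (fun a : ℝ => f a * (gb t a y : ℂ)) ∧ Integrable (fun a : ℝ => f a * (gh t a y : ℂ)) := by
  have hexp : ∀ z : ℝ, rexp (-(π * t * z ^ 2)) ≤ 1 := fun z => by
    rw [Real.exp_le_one_iff]
    have := Real.pi_pos
    have : 0 ≤ π * t * z ^ 2 := by positivity
    linarith
  constructor
  · refine CvLim_int f (CvLim_gb_cont t y) (C := √t) fun a => ?_
    have hgb : 0 ≤ gb t a y := by unfold gb; positivity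
    rw [norm_real, Real.norm_of_nonneg hgb]
    unfold gb
    nlinarith [hexp (y - a), hexp (y + a), Real.sqrt_nonneg t]
  · refine CvLim_int f (CvLim_gh_cont t y) (C := 1) fun a => ?_
    rw [norm_real]
    unfold gh
    rw [norm_mul, Real.norm_of_nonneg (Real.exp_pos _).le, Real.norm_eq_abs]
    refine mul_le_one₀ ?_ (abs_nonneg _) (Real.abs_cos_le_one _)
    rw [Real.exp_le_one_iff]
    have := Real.pi_pos
    have : 0 ≤ π * y ^ 2 / t := by positivity
    linarith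

theorem cv_tendsto (f : SchwartzMap ℝ ℂ) (hf : ∀ s : ℝ, f (-s) = f s) (y : ℝ) :
    Tendsto (fun t : ℝ => cv f t y) atTop (𝓝 (f y)) := by
  have h1 := Real.tendsto_integral_gaussian_smul' (f := fun a : ℝ => f a) f.integrable
    (v := y) f.continuous.continuousAt
  have h2 : Tendsto (fun t : ℝ => t / π) atTop atTop :=
    tendsto_id.atTop_div_const Real.pi_pos
  have h3 := h1.comp h2
  refine h3.congr' ?_
  filter_upwards [eventually_gt_atTop 0] with t ht
  have hπ : (π : ℂ) ≠ 0 := by exact_mod_cast Real.pi_ne_zero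
  -- the Gaussian
  have hk : ∀ w : ℝ, ((π * ((t / π : ℝ) : ℂ) : ℂ) ^ (Module.finrank ℝ ℝ / 2 : ℂ) *
      cexp (-π ^ 2 * ((t / π : ℝ) : ℂ) * ‖y - w‖ ^ 2)) • f w =
      f w * ((√t * rexp (-(π * t * (y - w) ^ 2)) : ℝ) : ℂ) := by
    intro w
    have e1 : (π * ((t / π : ℝ) : ℂ) : ℂ) = (t : ℝ) := by
      rw [ofReal_div]
      field_simp
    have e2 : ((t : ℝ) : ℂ) ^ (Module.finrank ℝ ℝ / 2 : ℂ) = (√t : ℝ) := by
      rw [Module.finrank_self, Real.sqrt_eq_rpow, ofReal_cpow ht.le]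
      norm_num
    have e3 : cexp (-π ^ 2 * ((t / π : ℝ) : ℂ) * ‖y - w‖ ^ 2) =
        ((rexp (-(π * t * (y - w) ^ 2)) : ℝ) : ℂ) := by
      rw [ofReal_exp]
      congr 1
      have e4 : ((‖y - w‖ : ℝ) : ℂ) ^ 2 = ((y : ℂ) - w) ^ 2 := by
        rw [← ofReal_pow, Real.norm_eq_abs, sq_abs]
        push_cast
        ring
      rw [e4]
      push_cast
      field_simp
    rw [e1, e2, e3, smul_eq_mul, ofReal_mul]
    ring
  have hG : ∀ z : ℝ → ℝ, Continuous z → Integrable fun a : ℝ =>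
      f a * ((√t * rexp (-(π * t * (z a) ^ 2)) : ℝ) : ℂ) := by
    intro z hz
    refine CvLim_int f (C := √t) (by fun_prop) fun a => ?_
    rw [norm_real, Real.norm_of_nonneg (by positivity)]
    have : rexp (-(π * t * (z a) ^ 2)) ≤ 1 := by
      rw [Real.exp_le_one_iff]
      have := Real.pi_pos
      have : 0 ≤ π * t * (z a) ^ 2 := by positivity
      linarith
    nlinarith [Real.sqrt_nonneg t]
  have hp := hG (fun a => y + a) (by fun_prop)
  have hm := hG (fun a => y - a) (by fun_prop)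
  have hsym : ∫ a : ℝ, f a * ((√t * rexp (-(π * t * (y + a) ^ 2)) : ℝ) : ℂ) =
      ∫ a : ℝ, f a * ((√t * rexp (-(π * t * (y - a) ^ 2)) : ℝ) : ℂ) := by
    rw [← integral_neg_eq_self (fun a : ℝ => f a * ((√t * rexp (-(π * t * (y - a) ^ 2)) : ℝ) : ℂ))]
    refine integral_congr_ae (Eventually.of_forall fun a => ?_)
    change f a * ((√t * rexp (-(π * t * (y + a) ^ 2)) : ℝ) : ℂ) =
      f (-a) * ((√t * rexp (-(π * t * (y - -a) ^ 2)) : ℝ) : ℂ)
    rw [hf, sub_neg_eq_add]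
  change ∫ w : ℝ, ((π * ((t / π : ℝ) : ℂ) : ℂ) ^ (Module.finrank ℝ ℝ / 2 : ℂ) *
      cexp (-π ^ 2 * ((t / π : ℝ) : ℂ) * ‖y - w‖ ^ 2)) • f w = cv f t y
  rw [integral_congr_ae (Eventually.of_forall hk)]
  unfold cv
  have h4 : ∀ a : ℝ, f a * (gb t a y : ℂ) =
      (1 / 2 : ℂ) * (f a * ((√t * rexp (-(π * t * (y - a) ^ 2)) : ℝ) : ℂ)) +
      (1 / 2 : ℂ) * (f a * ((√t * rexp (-(π * t * (y + a) ^ 2)) : ℝ) : ℂ)) := by
    intro a
    unfold gb
    push_cast
    ring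
  rw [integral_congr_ae (Eventually.of_forall h4), integral_add (hm.const_mul _) (hp.const_mul _),
    integral_const_mul, integral_const_mul, hsym]
  ring

theorem gh_int (f : SchwartzMap ℝ ℂ) (hf : ∀ s : ℝ, f (-s) = f s)
    (hF : ∀ ξ : ℝ, ∫ s : ℝ, cexp (-(2 * π * I * ξ * s)) * f s = f ξ) (t y : ℝ) :
    ∫ a : ℝ, f a * (gh t a y : ℂ) = rexp (-(π * y ^ 2 / t)) * f y := by
  have hi : ∀ ξ : ℝ, Integrable fun s : ℝ => cexp (-(2 * π * I * ξ * s)) * f s := by
    intro ξ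
    have h1 := CvLim_int f (g := fun s : ℝ => cexp (-(2 * π * I * ξ * s))) (C := 1)
      (by fun_prop) (fun a => by
        rw [Complex.norm_exp]
        simp)
    refine h1.congr (Eventually.of_forall fun s => ?_)
    exact mul_comm _ _
  have h1 : ∀ a : ℝ, f a * (gh t a y : ℂ) = (rexp (-(π * y ^ 2 / t)) / 2 : ℂ) *
      (cexp (-(2 * π * I * y * a)) * f a + cexp (-(2 * π * I * ((-y : ℝ) : ℂ) * a)) * f a) := by
    intro a
    unfold gh
    rw [ofReal_mul, ofReal_cos, Complex.cos]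
    have e1 : cexp (((2 * π * a * y : ℝ) : ℂ) * I) = cexp (-(2 * π * I * ((-y : ℝ) : ℂ) * a)) := by
      congr 1
      push_cast
      ring
    have e2 : cexp (-((2 * π * a * y : ℝ) : ℂ) * I) = cexp (-(2 * π * I * y * a)) := by
      congr 1
      push_cast
      ring
    rw [e1, e2]
    ring
  rw [integral_congr_ae (Eventually.of_forall h1), integral_const_mul,
    integral_add (hi y) (hi (-y)), hF, hF, hf]
  ring

end Pool.Agent.Helper31.FI
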