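import Pool.Agent.Helper31.FI.VBas
import Pool.Agent.Helper31.FI.Cidx

/-!
# FI-DC: the path sum as a sum of chains

`τ = u + I/n`.  `inV_iff`: with `y = j² τ + j m`, `ν = c/j`: `c re τ + d = (ν re y - 1)/j`, `j re τ + m = re y/j`, `im τ = im y/j²`; the
last condition of `InV` says `ν |y|² < re y`, i.e. `ν < rho N (re y)`, `N = n/j²` (`im y = 1/N`).
`decomp`: `|u| ≤ 1`.  `VS τ` is in bijection with the triples `(j, m, i)`: `j` odd, `j < n` (as `j c/n < 1/2`), `m ∈ Ms j`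
(`inV_bd`; coprime by the determinant), `c = c0 + i j`, `d = d0 + i m` (`c0_unique`), `i < cnt (c0/j) (rho ..)` (`Nat.lt_ceil`).
`cnt_zero`: if the count were positive then `InV τ j m c0 d0`, `-m/j < re τ < -d0/c0` with `-1 ≤ -m/j` and, as no integer is
strictly between (`inV_no_int`), `-d0/c0 ≤ 1` (`-m/j < 1`).
-/

set_option autoImplicit false

namespace Pool.Agent.Helper31.FI

open Complex Real Finset

private theorem Decomp_re (u : ℝ) (n : ℕ) : ((u : ℂ) + I / n).re = u := by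
  simp

private theorem Decomp_im (u : ℝ) (n : ℕ) : ((u : ℂ) + I / n).im = 1 / n := by
  simp

theorem inV_iff {n : ℕ} (hn : 1 ≤ n) {u : ℝ} {j m c d : ℤ} (hj : 1 ≤ j) (hjo : Odd j) (hm : Odd m)
    (hc : 1 ≤ c) (hdet : c * m - j * d = 1) :
    InV (u + I / n) j m c d ↔
      (c : ℝ) / j < rho (n / (j : ℝ) ^ 2) ((j : ℝ) ^ 2 * u + j * m) := by
  have hn' : (0 : ℝ) < n := by exact_mod_cast hn
  have hj' : (0 : ℝ) < j := by exact_mod_cast (show (0 : ℤ) < j by omega)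
  have hdet' : (c : ℝ) * m - j * d = 1 := by exact_mod_cast hdet
  have h1 : InV (u + I / n) j m c d ↔
      ((j : ℝ) * u + m) * ((c : ℝ) * u + d) + (j : ℝ) * c * (1 / n) ^ 2 < 0 := by
    unfold InV
    rw [Decomp_re, Decomp_im]
    exact ⟨fun h => h.2.2.2.2.2, fun h => ⟨hj, hjo, hm, hc, hdet, h⟩⟩
  rw [h1]
  obtain ⟨A, hA⟩ : ∃ A, A = (j : ℝ) * u + m := ⟨_, rfl⟩
  have hB : (j : ℝ) * ((c : ℝ) * u + d) = c * A - 1 := by
    rw [hA]
    linear_combination (-1 : ℝ) * hdet'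
  have hy : (j : ℝ) ^ 2 * u + j * m = j * A := by rw [hA]; ring
  rw [← hA, hy]
  have hE : 0 < A ^ 2 + ((j : ℝ) / n) ^ 2 := by positivity
  have hrho : rho (n / (j : ℝ) ^ 2) (j * A) = (A / (A ^ 2 + ((j : ℝ) / n) ^ 2)) / j := by
    unfold rho
    have h2 : (1 / ((n : ℝ) / (j : ℝ) ^ 2)) = (j : ℝ) * (j / n) := by
      field_simp
    have h3 : (j * A) ^ 2 + ((j : ℝ) * (j / n)) ^ 2 = (j : ℝ) ^ 2 * (A ^ 2 + ((j : ℝ) / n) ^ 2) := by
      ring
    rw [h2, h3]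
    field_simp
  rw [hrho, div_lt_div_iff_of_pos_right hj', lt_div_iff₀ hE]
  have h4 : (j : ℝ) * (A * ((c : ℝ) * u + d) + (j : ℝ) * c * (1 / n) ^ 2) =
      c * (A ^ 2 + ((j : ℝ) / n) ^ 2) - A := by
    have : (j : ℝ) * (A * ((c : ℝ) * u + d) + (j : ℝ) * c * (1 / n) ^ 2) =
      A * (j * ((c : ℝ) * u + d)) + c * ((j : ℝ) / n) ^ 2 := by ring
    rw [this, hB]
    ring
  constructor
  · intro h
    have h5 : (j : ℝ) * (A * ((c : ℝ) * u + d) + (j : ℝ) * c * (1 / n) ^ 2) < 0 :=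
      mul_neg_of_pos_of_neg hj' h
    rw [h4] at h5
    linarith
  · intro h
    by_contra h5
    push Not at h5
    have h6 := mul_nonneg hj'.le h5
    rw [h4] at h6
    linarith

private theorem Decomp_iff {n : ℕ} (hn : 1 ≤ n) {u : ℝ} {j : ℕ} (hj : Odd j) {m : ℤ}
    (hm : m ∈ Ms j) (i : ℕ) :
    InV (u + I / n) j m ((c0 j m : ℤ) + i * j) (d0 j m + i * m) ↔
      i < cnt ((c0 j m : ℝ) / j) (rho (n / (j : ℝ) ^ 2) ((j : ℝ) ^ 2 * u + j * m)) := by
  have hj1 : 1 ≤ j := hj.pos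
  have hj' : (0 : ℝ) < j := by exact_mod_cast hj1
  unfold Ms at hm
  rw [mem_filter] at hm
  obtain ⟨hm1, hm2, hm3⟩ := hm
  obtain ⟨h1, h2, h3⟩ := c0_spec hj1 hm3
  have hdet : ((c0 j m : ℤ) + i * j) * m - j * (d0 j m + i * m) = 1 := by
    linear_combination h3
  have hc : (1 : ℤ) ≤ (c0 j m : ℤ) + i * j := by
    have h4 : (1 : ℤ) ≤ (c0 j m : ℤ) := by exact_mod_cast h1
    have h5 : (0 : ℤ) ≤ (i : ℤ) * j := by positivity
    linarith
  rw [inV_iff hn (by exact_mod_cast hj1) (by exact_mod_cast hj) hm2 hc hdet]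
  unfold cnt
  rw [Nat.lt_ceil]
  push_cast
  have h5 : (((c0 j m : ℕ) : ℝ) + i * j) / j = (c0 j m : ℝ) / j + i := by
    field_simp
  rw [h5]
  constructor <;> intro h <;> linarith

theorem decomp (x : ℝ) {n : ℕ} (hn : 1 ≤ n) {u : ℝ} (hu : |u| ≤ 1) :
    PP x (u + I / n) = ∑ j ∈ (range n).filter Odd, ∑ m ∈ Ms j,
      ∑ i ∈ range (cnt ((c0 j m : ℝ) / j) (rho (n / (j : ℝ) ^ 2) ((j : ℝ) ^ 2 * u + j * m))),
        (-1 : ℂ) ^ ((c0 j m : ℤ) + i * j) *
          ep x (gm j m ((c0 j m : ℤ) + i * j) (d0 j m + i * m) (u + I / n)) := by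
  classical
  have hn' : (0 : ℝ) < n := by exact_mod_cast hn
  have him : 0 < ((u : ℂ) + I / n).im := by
    rw [Decomp_im]
    positivity
  have hre : |((u : ℂ) + I / n).re| ≤ 1 := by rw [Decomp_re]; exact hu
  let S : Finset (ℕ × ℤ × ℕ) := ((range n).filter Odd).biUnion fun j =>
    (Ms j).biUnion fun m =>
      (range (cnt ((c0 j m : ℝ) / j)
        (rho (n / (j : ℝ) ^ 2) ((j : ℝ) ^ 2 * u + j * m)))).image fun i => (j, m, i)
  have hS : ∀ j m i, (j, m, i) ∈ S ↔ j < n ∧ Odd j ∧ m ∈ Ms j ∧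
      i < cnt ((c0 j m : ℝ) / j) (rho (n / (j : ℝ) ^ 2) ((j : ℝ) ^ 2 * u + j * m)) := by
    intro j m i
    simp only [S, mem_biUnion, mem_filter, mem_range, mem_image, Prod.mk.injEq]
    constructor
    · rintro ⟨j', ⟨h1, h2⟩, m', h3, i', h4, rfl, rfl, rfl⟩
      exact ⟨h1, h2, h3, h4⟩
    · rintro ⟨h1, h2, h3, h4⟩
      exact ⟨j, ⟨h1, h2⟩, m, h3, i, h4, rfl, rfl, rfl⟩
  let e : ℕ × ℤ × ℕ → ℤ × ℤ × ℤ × ℤ := fun p =>
    ((p.1 : ℤ), p.2.1, (c0 p.1 p.2.1 : ℤ) + p.2.2 * p.1, d0 p.1 p.2.1 + p.2.2 * p.2.1)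
  have hbij : Set.BijOn e (S : Set (ℕ × ℤ × ℕ)) (VS (u + I / n)) := by
    refine ⟨?_, ?_, ?_⟩
    · rintro ⟨j, m, i⟩ h
      obtain ⟨h1, h2, h3, h4⟩ := (hS j m i).1 h
      exact (Decomp_iff hn h2 h3 i).2 h4
    · rintro ⟨j, m, i⟩ h ⟨j', m', i'⟩ h' he
      obtain ⟨h1, h2, h3, h4⟩ := (hS j m i).1 h
      simp only [e, Prod.mk.injEq] at he
      obtain ⟨e1, e2, e3, e4⟩ := he
      have e1' : j = j' := by exact_mod_cast e1
      subst e1'
      subst e2
      have h5 : (i : ℤ) * j = i' * j := by linarith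
      have h6 : (j : ℤ) ≠ 0 := by
        have := h2.pos
        positivity
      have h7 : (i : ℤ) = i' := mul_right_cancel₀ h6 h5
      have h8 : i = i' := by exact_mod_cast h7
      rw [h8]
    · rintro ⟨j, m, c, d⟩ h
      have h : InV (u + I / n) j m c d := h
      obtain ⟨p1, p2, p3⟩ := inV_pos him h
      obtain ⟨b1, b2, b3, b4⟩ := inV_bd him hre h
      obtain ⟨h1, h2, h3, h4, h5, h6⟩ := id h
      lift j to ℕ using by omega
      have hj1 : 1 ≤ j := by exact_mod_cast h1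
      have hjo : Odd j := by exact_mod_cast h2
      obtain ⟨i, hi1, hi2⟩ := c0_unique hj1 h4 h5
      have hmM : m ∈ Ms j := by
        unfold Ms
        rw [mem_filter, mem_Ioc]
        refine ⟨⟨b1, b2⟩, h3, ?_⟩
        exact ⟨-d, c, by linear_combination h5⟩
      refine ⟨(j, m, i), ?_, ?_⟩
      · rw [mem_coe, hS]
        refine ⟨?_, hjo, hmM, ?_⟩
        · rw [Decomp_im] at p3
          have hc' : (1 : ℝ) ≤ c := by exact_mod_cast h4
          have hj' : (0 : ℝ) < j := by exact_mod_cast hj1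
          have q1 : (j : ℝ) * c / n < 1 / 2 := by
            have : (j : ℝ) * c / n = ((j : ℤ) : ℝ) * c * (1 / n) := by
              push_cast
              ring
            rw [this]
            exact p3
          rw [div_lt_iff₀ hn'] at q1
          have q2 : (j : ℝ) < n := by nlinarith
          exact_mod_cast q2
        · rw [← Decomp_iff hn hjo hmM i, ← hi1, ← hi2]
          exact h
      · simp only [e]
        rw [← hi1, ← hi2]
  unfold PP
  rw [← finsum_mem_eq_of_bijOn (f := fun p : ℕ × ℤ × ℕ =>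
    (-1 : ℂ) ^ ((c0 p.1 p.2.1 : ℤ) + p.2.2 * p.1) *
      ep x (gm p.1 p.2.1 ((c0 p.1 p.2.1 : ℤ) + p.2.2 * p.1) (d0 p.1 p.2.1 + p.2.2 * p.2.1)
        (u + I / n))) e hbij (fun p _ => rfl), finsum_mem_coe_finset]
  simp only [S]
  rw [sum_biUnion]
  · refine sum_congr rfl fun j hj => ?_
    rw [sum_biUnion]
    · refine sum_congr rfl fun m hm => ?_
      rw [sum_image]
      intro i _ i' _ h
      simp only [Prod.mk.injEq] at h
      exact h.2.2
    · intro m _ m' _ hmm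
      simp only [Function.onFun]
      rw [disjoint_left]
      intro p hp hp'
      obtain ⟨i, _, rfl⟩ := mem_image.1 hp
      obtain ⟨i', _, h⟩ := mem_image.1 hp'
      simp only [Prod.mk.injEq] at h
      exact hmm h.2.1.symm
  · intro j _ j' _ hjj
    simp only [Function.onFun]
    rw [disjoint_left]
    intro p hp hp'
    simp only [mem_biUnion, mem_image] at hp hp'
    obtain ⟨m, _, i, _, rfl⟩ := hp
    obtain ⟨m', _, i', _, h⟩ := hp'
    simp only [Prod.mk.injEq] at h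
    exact hjj h.1.symm

theorem cnt_zero {n : ℕ} (hn : 1 ≤ n) {u : ℝ} (hu : 1 < |u|) {j : ℕ} (hj : Odd j) {m : ℤ} (hm : m ∈ Ms j) :
    cnt ((c0 j m : ℝ) / j) (rho (n / (j : ℝ) ^ 2) ((j : ℝ) ^ 2 * u + j * m)) = 0 := by
  by_contra hne
  have h0 : 0 < cnt ((c0 j m : ℝ) / j) (rho (n / (j : ℝ) ^ 2) ((j : ℝ) ^ 2 * u + j * m)) :=
    Nat.pos_of_ne_zero hne
  have h := (Decomp_iff hn hj hm 0).2 h0
  have hn' : (0 : ℝ) < n := by exact_mod_cast hn
  have him : 0 < ((u : ℂ) + I / n).im := by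
    rw [Decomp_im]
    positivity
  have hj1 : 1 ≤ j := hj.pos
  have hj' : (0 : ℝ) < j := by exact_mod_cast hj1
  obtain ⟨p1, p2, p3⟩ := inV_pos him h
  rw [Decomp_re] at p1 p2
  have hm' := hm
  unfold Ms at hm'
  rw [mem_filter, mem_Ioc] at hm'
  obtain ⟨⟨b1, b2⟩, _, hm3⟩ := hm'
  have b1' : -(j : ℝ) < m := by exact_mod_cast b1
  have b2' : (m : ℝ) ≤ j := by exact_mod_cast b2
  push_cast at p1 p2
  have hu1 : -1 < u := by
    by_contra h9
    push Not at h9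
    nlinarith
  have hu2 : 1 < u := by
    rcases lt_abs.1 hu with h9 | h9
    · exact h9
    · linarith
  have h10 := inV_no_int him h 1 (by linarith)
  have h11 : (0 : ℝ) ≤ (((c0 j m : ℤ) + (0 : ℕ) * j) * 1 + (d0 j m + (0 : ℕ) * m) : ℤ) := by
    exact_mod_cast h10
  push_cast at h11
  have hc : (1 : ℝ) ≤ (c0 j m : ℝ) := by
    exact_mod_cast (c0_spec hj1 hm3).1
  nlinarith

end Pool.Agent.Helper31.FI
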