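import Mathlib

/-!
# Project FI: decay of the Fourier interpolation basis in the middle range

Definitions used by the exponential sum part and by the chain part.
-/

set_option autoImplicit false

namespace Pool.Agent.Helper31.FI

open Complex Real Finset

/-- `e(t) = exp (2 π i t)` -/
noncomputable def ee (t : ℝ) : ℂ := cexp (2 * π * I * t)

/-- `ζ = exp (3 π i / 4)` -/
noncomputable def ze : ℂ := cexp (3 * π * I / 4)

/-- difference -/
def dl (f : ℕ → ℝ) (i : ℕ) : ℝ := f (i + 1) - f i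

/-- the number of `i ≥ 0` with `ν + i < r` -/
noncomputable def cnt (ν r : ℝ) : ℕ := ⌈r - ν⌉₊

/-- real part of `1/y` for `y = u + i/N` -/
noncomputable def rho (N u : ℝ) : ℝ := u / (u ^ 2 + (1 / N) ^ 2)

/-- one term of a chain -/
noncomputable def gk (x N ν : ℝ) (y : ℂ) : ℂ :=
  (1 - ν * y) ^ (-(1 / 2) : ℂ) * cexp (π * I * (x * y / (1 - ν * y) - N * y))

/-- the chain function on the line `Im y = 1/N` -/
noncomputable def ch (x N ν₀ u : ℝ) : ℂ :=
  ∑ i ∈ range (cnt ν₀ (rho N u)), ze ^ i * gk x N (ν₀ + i) (u + I / N)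

/-- the main sum -/
noncomputable def mains (t ν₀ : ℝ) (m : ℕ) : ℂ :=
  ∑ i ∈ range m, ze ^ i * ((ν₀ + i : ℝ) ^ (-(1 / 2) : ℝ) : ℝ) * cexp (-(π * I * t / (ν₀ + i)))

/-- Fresnel integral from `0` to `s` -/
noncomputable def Fr (s : ℂ) : ℂ := ∫ r in (0 : ℝ)..1, s * cexp (π * I * (s * r) ^ 2)

/-- the complementary function -/
noncomputable def Wc (s : ℂ) : ℂ :=
  cexp (π * I / 4) * ∫ r in Set.Ioi (0 : ℝ), cexp (-(π * r ^ 2) + 2 * π * I * cexp (π * I / 4) * s * r)

end Pool.Agent.Helper31.FI
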