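import Pool.Agent.Helper31.FI.GDefs

/-!
# FI-DO: geometry of `D0`

* open: `D0` is the intersection of the open set `0 < im` with the complement of the union of the closed discs of radius `1`
  around the even integers (a locally finite union; near a point `τ` only `|2k - re τ| ≤ 3` matters).
* preconnected: for `τ ∈ D0` and `t ≥ 0`, `τ + i t ∈ D0`, so every point is joined inside `D0` with the convex set
  `{im > 1} ⊆ D0` (a union of preconnected sets, each meeting `{im > 1}`).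
* `FD_sub`: `|w - 2k|² = |w|² - 4 k re w + 4 k² ≥ 1 + 4 |k| (|k| - 1) ≥ 1`.
* `cusp_mem`: with `ζ = ξ + i η`, `τ = 1 - 1/ζ`, `n = 1 - 2k` odd: `‖τ - 2k‖ ≥ 1` iff `|n ζ - 1| ≥ |ζ|` iff
  `(n² - 1)(ξ² + η²) - 2 n ξ + 1 ≥ 0`.  `n = ± 1`: `∓ 2ξ + 1 ≥ 0`; `|n| ≥ 3`: the minimum over `ξ` is
  `(n² - 1) η² - 1/(n² - 1) ≥ 0` as `η ≥ 1/8`.
* `im_small`: for `τ ∈ D0c`, `|re τ| ≤ 1`: `‖τ‖ ≥ 1`, so `τ ∈ FD`.
-/

set_option autoImplicit false

namespace Pool.Agent.Helper31.FI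

open Complex Real

private theorem Dom_sq (τ : ℂ) (k : ℤ) : ‖τ - 2 * k‖ ^ 2 = (τ.re - 2 * k) ^ 2 + τ.im ^ 2 := by
  rw [← Complex.normSq_eq_norm_sq, Complex.normSq_apply]
  have h1 : (τ - 2 * (k : ℂ)).re = τ.re - 2 * k := by simp
  have h2 : (τ - 2 * (k : ℂ)).im = τ.im := by simp
  rw [h1, h2]
  ring

private theorem Dom_far {τ : ℂ} {k : ℤ} (h : 1 < |τ.re - 2 * k|) : 1 < ‖τ - 2 * k‖ := by
  have h1 := Dom_sq τ k
  have h2 : |τ.re - 2 * k| ^ 2 = (τ.re - 2 * k) ^ 2 := sq_abs _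
  have h3 : (1 : ℝ) < |τ.re - 2 * k| ^ 2 := by nlinarith
  nlinarith [norm_nonneg (τ - 2 * k), sq_nonneg τ.im]

theorem D0_open : IsOpen D0 := by
  rw [isOpen_iff_mem_nhds]
  intro τ hτ
  have h1 : ∀ᶠ w in nhds τ, 0 < w.im := (Complex.continuous_im.tendsto τ).eventually
    (lt_mem_nhds hτ.1)
  have h2 : ∀ᶠ w in nhds τ, ∀ k ∈ Finset.Icc ⌊(τ.re - 4) / 2⌋ ⌈(τ.re + 4) / 2⌉,
      1 < ‖w - 2 * (k : ℂ)‖ := by
    rw [Filter.eventually_all_finset]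
    intro k _
    have h3 : Continuous fun w : ℂ => ‖w - 2 * (k : ℂ)‖ := by fun_prop
    exact (h3.tendsto τ).eventually (lt_mem_nhds (hτ.2 k))
  have h3 : ∀ᶠ w in nhds τ, |w.re - τ.re| < 1 := by
    have h4 : Continuous fun w : ℂ => |w.re - τ.re| := by fun_prop
    refine (h4.tendsto τ).eventually (gt_mem_nhds ?_)
    simp
  filter_upwards [h1, h2, h3] with w hw1 hw2 hw3
  refine ⟨hw1, fun k => ?_⟩
  by_cases hk : k ∈ Finset.Icc ⌊(τ.re - 4) / 2⌋ ⌈(τ.re + 4) / 2⌉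
  · exact hw2 k hk
  · rw [Finset.mem_Icc, not_and_or, not_le, not_le] at hk
    apply Dom_far
    rw [abs_lt] at hw3
    rcases hk with hk | hk
    · have h4 : (k : ℝ) < (τ.re - 4) / 2 := by
        have h5 : (k : ℝ) + 1 ≤ ⌊(τ.re - 4) / 2⌋ := by exact_mod_cast hk
        have h6 := Int.floor_le ((τ.re - 4) / 2)
        linarith
      rw [lt_abs]
      left
      linarith
    · have h4 : (τ.re + 4) / 2 < (k : ℝ) := by
        have h5 : ((⌈(τ.re + 4) / 2⌉ : ℤ) : ℝ) + 1 ≤ k := by exact_mod_cast hk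
        have h6 := Int.le_ceil ((τ.re + 4) / 2)
        linarith
      rw [lt_abs]
      right
      linarith

theorem D0_sub : D0 ⊆ D0c := fun _ h => ⟨h.1, fun k => (h.2 k).le⟩

theorem D0_up {τ : ℂ} (h : 1 < τ.im) : τ ∈ D0 := by
  refine ⟨by linarith, fun k => ?_⟩
  have h1 := Dom_sq τ k
  nlinarith [norm_nonneg (τ - 2 * k), sq_nonneg (τ.re - 2 * k)]

private theorem Dom_lift {τ : ℂ} (h : τ ∈ D0) {t : ℝ} (ht : 0 ≤ t) : τ + t * I ∈ D0 := by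
  have h1 : (τ + t * I).im = τ.im + t := by simp
  have h2 : (τ + t * I).re = τ.re := by simp
  refine ⟨by rw [h1]; linarith [h.1], fun k => ?_⟩
  have h3 := Dom_sq (τ + t * I) k
  have h4 := Dom_sq τ k
  rw [h1, h2] at h3
  have h5 := h.2 k
  have h6 := h.1
  nlinarith [norm_nonneg (τ - 2 * k), norm_nonneg (τ + t * I - 2 * k)]

theorem D0_preconnected : IsPreconnected D0 := by
  have hV : {τ : ℂ | 1 < τ.im} ⊆ D0 := fun τ h => D0_up h
  have hVc : IsPreconnected {τ : ℂ | 1 < τ.im} := (convex_halfSpace_im_gt 1).isPreconnected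
  refine isPreconnected_of_forall (2 * I) fun y hy => ?_
  refine ⟨{τ : ℂ | 1 < τ.im} ∪ (fun t : ℝ => y + t * I) '' Set.Ici 0, ?_, ?_, ?_, ?_⟩
  · refine Set.union_subset hV ?_
    rintro _ ⟨t, ht, rfl⟩
    exact Dom_lift hy ht
  · left
    simp
  · right
    exact ⟨0, Set.self_mem_Ici, by simp⟩
  · refine IsPreconnected.union (y + (1 : ℝ) * I) ?_ ⟨1, Set.mem_Ici.2 zero_le_one, rfl⟩ hVc ?_
    · have h1 : (y + (1 : ℝ) * I).im = y.im + 1 := by simp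
      rw [Set.mem_ofPred_eq, h1]
      linarith [hy.1]
    · exact isPreconnected_Ici.image _ (by fun_prop)

private theorem Dom_shift (τ : ℂ) (k j : ℤ) : τ + 2 * k - 2 * j = τ - 2 * ((j - k : ℤ) : ℂ) := by
  push_cast
  ring

theorem D0_shift {τ : ℂ} (h : τ ∈ D0) (k : ℤ) : τ + 2 * k ∈ D0 := by
  refine ⟨?_, fun j => ?_⟩
  · have h1 : (τ + 2 * (k : ℂ)).im = τ.im := by simp
    rw [h1]
    exact h.1
  · rw [Dom_shift]
    exact h.2 _

theorem D0c_shift {τ : ℂ} (h : τ ∈ D0c) (k : ℤ) : τ + 2 * k ∈ D0c := by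
  refine ⟨?_, fun j => ?_⟩
  · have h1 : (τ + 2 * (k : ℂ)).im = τ.im := by simp
    rw [h1]
    exact h.1
  · rw [Dom_shift]
    exact h.2 _

theorem D0c_bdry {τ : ℂ} (h : τ ∈ D0c) (h' : τ ∉ D0) : ∃ k : ℤ, ‖τ - 2 * k‖ = 1 := by
  by_contra hcon
  push Not at hcon
  exact h' ⟨h.1, fun k => lt_of_le_of_ne (h.2 k) (hcon k).symm⟩

theorem D0c_closed (v : ℝ) (hv : 0 < v) : IsClosed {τ : ℂ | τ ∈ D0c ∧ v ≤ τ.im} := by
  have h1 : {τ : ℂ | τ ∈ D0c ∧ v ≤ τ.im} =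
      {τ : ℂ | v ≤ τ.im} ∩ ⋂ k : ℤ, {τ : ℂ | 1 ≤ ‖τ - 2 * (k : ℂ)‖} := by
    ext τ
    simp only [Set.mem_inter_iff, Set.mem_iInter, D0c, Set.mem_ofPred_eq]
    constructor
    · rintro ⟨⟨_, h2⟩, h3⟩
      exact ⟨h3, h2⟩
    · rintro ⟨h3, h2⟩
      exact ⟨⟨lt_of_lt_of_le hv h3, h2⟩, h3⟩
  rw [h1]
  refine (isClosed_le continuous_const Complex.continuous_im).inter (isClosed_iInter fun k => ?_)
  exact isClosed_le continuous_const (by fun_prop)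

private theorem Dom_int (k : ℤ) {a : ℝ} (ha : |a| ≤ 1) : 0 ≤ 4 * (k : ℝ) ^ 2 - 4 * k * a := by
  rw [abs_le] at ha
  rcases lt_trichotomy k 0 with hk | hk | hk
  · have h1 : (k : ℝ) ≤ -1 := by exact_mod_cast (show k ≤ -1 by omega)
    nlinarith
  · simp [hk]
  · have h1 : (1 : ℝ) ≤ k := by exact_mod_cast (show 1 ≤ k by omega)
    nlinarith

theorem FD_sub : FD ⊆ D0c := by
  intro w hw
  refine ⟨hw.1, fun k => ?_⟩
  have h1 := Dom_sq w k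
  have h2 := Dom_sq w 0
  have h3 := Dom_int k hw.2.1
  have h4 : 1 ≤ ‖w‖ := hw.2.2
  have h5 : w - 2 * ((0 : ℤ) : ℂ) = w := by simp
  rw [h5] at h2
  push_cast at h2
  nlinarith [norm_nonneg (w - 2 * k)]

theorem im_small {τ : ℂ} (h : τ ∈ D0c) (h' : |τ.re| ≤ 1) : τ ∈ FD := by
  have h1 := h.2 0
  have h5 : τ - 2 * ((0 : ℤ) : ℂ) = τ := by simp
  rw [h5] at h1
  exact ⟨h.1, h', h1⟩

private theorem Dom_alg (k : ℤ) {a b : ℝ} (hb : 17 / 100 ≤ b) (ha : |a| ≤ 1 / 2) :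
    a ^ 2 + b ^ 2 ≤ ((1 - 2 * k) * a - 1) ^ 2 + ((1 - 2 * k) * b) ^ 2 := by
  rw [abs_le] at ha
  rcases lt_trichotomy k 0 with hk | hk | hk
  · have h1 : (k : ℝ) ≤ -1 := by exact_mod_cast (show k ≤ -1 by omega)
    obtain ⟨n, hn⟩ : ∃ n : ℝ, n = 1 - 2 * k := ⟨_, rfl⟩
    rw [← hn]
    have hn3 : 3 ≤ n := by linarith
    have h8 : 8 ≤ n ^ 2 - 1 := by nlinarith
    have h2 : 1 ≤ (n ^ 2 - 1) * b := by nlinarith
    have h3 : 1 ≤ ((n ^ 2 - 1) * b) ^ 2 := by nlinarith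
    have h4 : 0 ≤ (n ^ 2 - 1) * (((n * a - 1) ^ 2 + (n * b) ^ 2) - (a ^ 2 + b ^ 2)) := by
      nlinarith [sq_nonneg ((n ^ 2 - 1) * a - n)]
    have h5 := nonneg_of_mul_nonneg_right h4 (by linarith)
    linarith
  · subst hk
    push_cast
    nlinarith
  · rcases eq_or_lt_of_le (show 1 ≤ k by omega) with hk1 | hk1
    · rw [← hk1]
      push_cast
      nlinarith
    · have h1 : (2 : ℝ) ≤ k := by exact_mod_cast (show 2 ≤ k by omega)
      obtain ⟨n, hn⟩ : ∃ n : ℝ, n = 1 - 2 * k := ⟨_, rfl⟩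
      rw [← hn]
      have hn3 : n ≤ -3 := by linarith
      have h8 : 8 ≤ n ^ 2 - 1 := by nlinarith
      have h2 : 1 ≤ (n ^ 2 - 1) * b := by nlinarith
      have h3 : 1 ≤ ((n ^ 2 - 1) * b) ^ 2 := by nlinarith
      have h4 : 0 ≤ (n ^ 2 - 1) * (((n * a - 1) ^ 2 + (n * b) ^ 2) - (a ^ 2 + b ^ 2)) := by
        nlinarith [sq_nonneg ((n ^ 2 - 1) * a - n)]
      have h5 := nonneg_of_mul_nonneg_right h4 (by linarith)
      linarith

theorem cusp_mem {ζ : ℂ} (h : 17 / 100 ≤ ζ.im) (h' : |ζ.re| ≤ 1 / 2) : 1 - 1 / ζ ∈ D0c := by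
  have hi : 0 < ζ.im := by linarith
  have h0 : ζ ≠ 0 := by
    intro h1
    rw [h1] at hi
    simp at hi
  have hn : 0 < Complex.normSq ζ := Complex.normSq_pos.2 h0
  refine ⟨?_, fun k => ?_⟩
  · have h1 : (1 - 1 / ζ).im = ζ.im / Complex.normSq ζ := by
      rw [one_div, Complex.sub_im, Complex.inv_im, Complex.one_im]
      ring
    rw [h1]
    positivity
  · have h1 : 1 - 1 / ζ - 2 * (k : ℂ) = ((1 - 2 * k) * ζ - 1) / ζ := by
      field_simp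
      ring
    have hz : 0 < ‖ζ‖ := norm_pos_iff.2 h0
    rw [h1, norm_div, le_div_iff₀ hz, one_mul]
    have h2 : ‖ζ‖ ^ 2 ≤ ‖(1 - 2 * (k : ℂ)) * ζ - 1‖ ^ 2 := by
      rw [← Complex.normSq_eq_norm_sq, ← Complex.normSq_eq_norm_sq, Complex.normSq_apply,
        Complex.normSq_apply]
      have h3 : ((1 - 2 * (k : ℂ)) * ζ - 1).re = (1 - 2 * k) * ζ.re - 1 := by simp
      have h4 : ((1 - 2 * (k : ℂ)) * ζ - 1).im = (1 - 2 * k) * ζ.im := by simp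
      rw [h3, h4]
      have h5 := Dom_alg k h h'
      nlinarith
    exact le_of_sq_le_sq h2 (norm_nonneg _)

end Pool.Agent.Helper31.FI
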