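import Pool.Agent.Helper31.FI.GDefs

/-!
# FI-PL: periodic functions of moderate growth have a limit at `i ∞`

Put `k' z = k z` for `im z > Y₀` and `0` otherwise (periodic on `ℂ`).  `k' z exp (2 π i z)` is periodic, analytic for
`im z > Y₀`, and tends to `0` at `i ∞` as `s < 2 π`; so it is `O (exp (-2 π im z))`
(`Function.Periodic.exp_decay_of_zero_at_inf`), i.e. `k'` is bounded at `i ∞`, and then
`Function.Periodic.exp_decay_sub_of_bounded_at_inf` gives the claim for `im z ≥ Y₁`, some `Y₁`.  For `Y₀ + 1 ≤ im z ≤ Y₁` the function is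
bounded by compactness and periodicity.  (Or do it directly with the removable singularity theorem in `q = exp (2 π i z)`.)
-/

set_option autoImplicit false

namespace Pool.Agent.Helper31.FI

open Complex Real

theorem perlim (k : ℂ → ℂ) (Y₀ B s : ℝ) (hs : s < 2 * π)
    (hd : DifferentiableOn ℂ k {z : ℂ | Y₀ < z.im}) (hp : ∀ z : ℂ, Y₀ < z.im → k (z + 1) = k z)
    (hb : ∀ z : ℂ, Y₀ < z.im → ‖k z‖ ≤ B * rexp (s * z.im)) :
    ∃ (k₀ : ℂ) (C : ℝ), ∀ z : ℂ, Y₀ + 1 ≤ z.im → ‖k z - k₀‖ ≤ C * rexp (-(2 * π * z.im)) := by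
  classical
  set k' : ℂ → ℂ := fun z => if Y₀ < z.im then k z else 0 with hk'
  have hk1 : ∀ z : ℂ, Y₀ < z.im → k' z = k z := fun z hz => if_pos hz
  have hper : Function.Periodic k' ((1 : ℝ) : ℂ) := by
    intro z
    have him : (z + ((1 : ℝ) : ℂ)).im = z.im := by simp
    by_cases hz : Y₀ < z.im
    · rw [hk1 z hz, hk1 _ (by rw [him]; exact hz)]
      push_cast
      exact hp z hz
    · simp only [hk']
      rw [if_neg hz, if_neg (by rw [him]; exact hz)]
  have hopen : IsOpen {z : ℂ | Y₀ < z.im} := isOpen_lt continuous_const Complex.continuous_im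
  have hev : ∀ᶠ z in Filter.comap Complex.im Filter.atTop, Y₀ < z.im :=
    Filter.tendsto_comap.eventually (Filter.eventually_gt_atTop Y₀)
  have hdiff : ∀ z : ℂ, Y₀ < z.im → DifferentiableAt ℂ k' z := by
    intro z hz
    have h1 : DifferentiableAt ℂ k z := (hd z hz).differentiableAt (hopen.mem_nhds hz)
    refine h1.congr_of_eventuallyEq ?_
    filter_upwards [hopen.mem_nhds hz] with w hw
    exact hk1 w hw
  have hhol : ∀ᶠ z in Filter.comap Complex.im Filter.atTop, DifferentiableAt ℂ k' z :=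
    hev.mono hdiff
  -- the function multiplied by the exponential
  set g : ℂ → ℂ := fun z => k' z * cexp (2 * π * I * z) with hg
  have hgper : Function.Periodic g ((1 : ℝ) : ℂ) := by
    intro z
    simp only [hg]
    rw [hper z]
    congr 1
    have : 2 * π * I * (z + ((1 : ℝ) : ℂ)) = 2 * π * I * z + 2 * π * I := by
      push_cast
      ring
    rw [this, Complex.exp_periodic]
  have hghol : ∀ᶠ z in Filter.comap Complex.im Filter.atTop, DifferentiableAt ℂ g z := by
    filter_upwards [hhol] with z hz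
    exact hz.mul (by fun_prop)
  have hexp : ∀ z : ℂ, ‖cexp (2 * π * I * z)‖ = rexp (-(2 * π * z.im)) := by
    intro z
    rw [Complex.norm_exp]
    congr 1
    simp
  have hB : ∀ z : ℂ, Y₀ < z.im → ‖k' z‖ ≤ |B| * rexp (s * z.im) := by
    intro z hz
    rw [hk1 z hz]
    exact (hb z hz).trans (mul_le_mul_of_nonneg_right (le_abs_self B) (Real.exp_pos _).le)
  have him : Filter.Tendsto Complex.im (Filter.comap Complex.im Filter.atTop) Filter.atTop :=
    Filter.tendsto_comap
  have hgzero : Filter.ZeroAtFilter (Filter.comap Complex.im Filter.atTop) g := by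
    have h1 : Filter.Tendsto (fun z : ℂ => |B| * rexp (-((2 * π - s) * z.im)))
        (Filter.comap Complex.im Filter.atTop) (nhds 0) := by
      rw [← mul_zero |B|]
      refine Filter.Tendsto.const_mul _ ?_
      refine Real.tendsto_exp_neg_atTop_nhds_zero.comp ?_
      exact him.const_mul_atTop (by linarith)
    refine squeeze_zero_norm' ?_ h1
    filter_upwards [hev] with z hz
    simp only [hg]
    rw [norm_mul, hexp]
    refine (mul_le_mul_of_nonneg_right (hB z hz) (Real.exp_pos _).le).trans (le_of_eq ?_)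
    rw [mul_assoc, ← Real.exp_add]
    congr 2
    ring
  have hgO := Function.Periodic.exp_decay_of_zero_at_inf one_pos hgper hghol hgzero
  have hbd : Filter.BoundedAtFilter (Filter.comap Complex.im Filter.atTop) k' := by
    have h1 : (fun z => g z * cexp (-(2 * π * I * z))) =O[Filter.comap Complex.im Filter.atTop]
        (fun z : ℂ => rexp (-2 * π * z.im / 1) * rexp (2 * π * z.im)) := by
      refine hgO.mul (Asymptotics.IsBigO.of_bound 1 (Filter.Eventually.of_forall fun z => ?_))
      rw [Complex.norm_exp, Real.norm_of_nonneg (Real.exp_pos _).le, one_mul]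
      refine le_of_eq ?_
      congr 1
      simp
    have h2 : (fun z => g z * cexp (-(2 * π * I * z))) = k' := by
      funext z
      simp only [hg]
      rw [mul_assoc, ← Complex.exp_add, add_neg_cancel, Complex.exp_zero, mul_one]
    have h3 : (fun z : ℂ => rexp (-2 * π * z.im / 1) * rexp (2 * π * z.im)) = 1 := by
      funext z
      rw [← Real.exp_add]
      have : -2 * π * z.im / 1 + 2 * π * z.im = 0 := by ring
      rw [this, Real.exp_zero]
      rfl
    rw [h2, h3] at h1
    exact h1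
  have hO := Function.Periodic.exp_decay_sub_of_bounded_at_inf one_pos hper hhol hbd
  obtain ⟨C₁, hC₁⟩ := hO.bound
  set k₀ : ℂ := Function.Periodic.cuspFunction 1 k' 0 with hk₀
  obtain ⟨Y₁, hY₁⟩ : ∃ Y₁ : ℝ, ∀ z : ℂ, Y₁ ≤ z.im →
      ‖k' z - k₀‖ ≤ C₁ * ‖rexp (-2 * π * z.im / 1)‖ := by
    obtain ⟨t, ht, ht'⟩ := Filter.mem_comap.1 hC₁
    obtain ⟨Y₁, hY₁⟩ := Filter.mem_atTop_sets.1 ht
    exact ⟨Y₁, fun z hz => ht' (hY₁ z.im hz)⟩
  set R : ℝ := |Y₀ + 1| + |Y₁| with hR
  refine ⟨k₀, |C₁| + (|B| * rexp (|s| * R) + ‖k₀‖) * rexp (2 * π * R), fun z hz => ?_⟩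
  have hz0 : Y₀ < z.im := by linarith
  rcases le_or_gt Y₁ z.im with h | h
  · have h1 := hY₁ z h
    rw [hk1 z hz0, Real.norm_of_nonneg (Real.exp_pos _).le] at h1
    have h2 : -2 * π * z.im / 1 = -(2 * π * z.im) := by ring
    rw [h2] at h1
    refine h1.trans (mul_le_mul_of_nonneg_right ?_ (Real.exp_pos _).le)
    have h3 : 0 ≤ (|B| * rexp (|s| * R) + ‖k₀‖) * rexp (2 * π * R) := by positivity
    linarith [le_abs_self C₁]
  · have hRz : |z.im| ≤ R := by
      rw [abs_le]
      constructor
      · have := neg_abs_le (Y₀ + 1)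
        have := abs_nonneg Y₁
        linarith
      · have := le_abs_self Y₁
        have := abs_nonneg (Y₀ + 1)
        linarith
    have h1 : ‖k z - k₀‖ ≤ |B| * rexp (|s| * R) + ‖k₀‖ := by
      refine (norm_sub_le _ _).trans (add_le_add_left ?_ _)
      have h2 := hB z hz0
      rw [hk1 z hz0] at h2
      refine h2.trans (mul_le_mul_of_nonneg_left (Real.exp_le_exp.2 ?_) (abs_nonneg B))
      calc s * z.im ≤ |s * z.im| := le_abs_self _
        _ = |s| * |z.im| := abs_mul _ _
        _ ≤ |s| * R := mul_le_mul_of_nonneg_left hRz (abs_nonneg s)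
    have h2 : 1 ≤ rexp (2 * π * R) * rexp (-(2 * π * z.im)) := by
      rw [← Real.exp_add, Real.one_le_exp_iff]
      have h3 : z.im ≤ R := (le_abs_self _).trans hRz
      nlinarith [Real.pi_pos]
    have h4 : 0 ≤ |B| * rexp (|s| * R) + ‖k₀‖ := by positivity
    calc ‖k z - k₀‖ ≤ (|B| * rexp (|s| * R) + ‖k₀‖) * 1 := by rw [mul_one]; exact h1
      _ ≤ (|B| * rexp (|s| * R) + ‖k₀‖) * (rexp (2 * π * R) * rexp (-(2 * π * z.im))) :=
          mul_le_mul_of_nonneg_left h2 h4
      _ ≤ (|C₁| + (|B| * rexp (|s| * R) + ‖k₀‖) * rexp (2 * π * R)) *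
          rexp (-(2 * π * z.im)) := by
          rw [add_mul, ← mul_assoc]
          have : 0 ≤ |C₁| * rexp (-(2 * π * z.im)) := by positivity
          linarith

end Pool.Agent.Helper31.FI
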