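import Pool.Agent.Helper31.FI.Rows
import Pool.Agent.Helper31.FI.Perlim

/-!
# FI-EI: the Eisenstein series of weight four for the theta group

`E4 τ = ∑ (c τ + d)^(-4)` over all rows.  `|cτ+d|^(-4) ≤ C |cτ+d|^(-3)` as `|cτ+d| ≥ min (im τ) 1`; differentiable by a locally
uniform bound (`low_lin`, `summable_max`, `differentiableOn_tsum_of_summable_norm`).
`E4_T`, `E4_S`: reindex by `row_T`, `row_S`.
`E4_inf`: rows with `c = 0` give `2`; the rest is `≤ (1/im τ) G3 τ ≤ C/im τ` (`G3_le` after an even shift).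
`E4c z = z^(-4) E4 (1 - 1/z) = ∑ ((c+d) z - c)^(-4)`: sum over all coprime `(m, n)` with `m` odd of `(m z + n)^(-4)`: it has period `1`
(`n ↦ n + m`), is bounded by `(1/im z) G3 z ≤ C/im z`, so by `perlim` (`k₀ = 0`) it is `O (exp (-2 π im z))`.
-/

set_option autoImplicit false

namespace Pool.Agent.Helper31.FI

open Complex Real

open Classical in
/-- Eisenstein series -/
noncomputable def E4 (τ : ℂ) : ℂ :=
  ∑' v : ℤ × ℤ, if Row v.1 v.2 then ((v.1 : ℂ) * τ + v.2) ^ (-4 : ℤ) else 0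

private theorem Eis_one_le {v : ℤ × ℤ} (hv : v ≠ 0) : (1 : ℝ) ≤ max |(v.1 : ℝ)| |(v.2 : ℝ)| := by
  by_cases h1 : v.1 = 0
  · have h2 : v.2 ≠ 0 := fun h2 => hv (Prod.ext h1 h2)
    refine le_max_of_le_right ?_
    exact_mod_cast Int.one_le_abs h2
  · refine le_max_of_le_left ?_
    exact_mod_cast Int.one_le_abs h1

private theorem Eis_row_ne {v : ℤ × ℤ} (h : Row v.1 v.2) : v ≠ 0 := by
  rintro rfl
  have h2 := h.2
  simp at h2

private theorem Eis_pos {τ : ℂ} (hτ : 0 < τ.im) {v : ℤ × ℤ} (hv : v ≠ 0) :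
    0 < ‖(v.1 : ℂ) * τ + v.2‖ := by
  have h1 := low_lin hτ (le_refl |τ.re|) v.1 v.2
  have h2 := Eis_one_le hv
  have hK : 0 < 1 + (1 + |τ.re|) / τ.im := by positivity
  by_contra h
  have h0 : ‖(v.1 : ℂ) * τ + v.2‖ = 0 := le_antisymm (not_lt.mp h) (norm_nonneg _)
  rw [h0, mul_zero] at h1
  linarith

private theorem Eis_rpow {M : ℝ} (hM : 0 < M) : M ^ (-3 : ℝ) = (M⁻¹) ^ 3 := by
  rw [Real.rpow_neg hM.le, inv_pow]
  congr 1
  exact_mod_cast Real.rpow_natCast M 3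

private theorem Eis_norm_zpow (w : ℂ) : ‖w ^ (-4 : ℤ)‖ = (‖w‖⁻¹) ^ 4 := by
  rw [norm_zpow, zpow_neg, inv_pow]
  norm_cast

private theorem Eis_term {τ : ℂ} (hτ : 0 < τ.im) {R : ℝ} (hR : |τ.re| ≤ R) {v : ℤ × ℤ}
    (hv : v ≠ 0) :
    ‖((v.1 : ℂ) * τ + v.2) ^ (-4 : ℤ)‖ ≤
      (1 + (1 + R) / τ.im) ^ 4 * (max |(v.1 : ℝ)| |(v.2 : ℝ)|) ^ (-3 : ℝ) := by
  have h1 := low_lin hτ hR v.1 v.2
  have h2 := Eis_one_le hv
  have h3 := Eis_pos hτ hv
  have hR0 : 0 ≤ R := (abs_nonneg _).trans hR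
  set M := max |(v.1 : ℝ)| |(v.2 : ℝ)| with hM
  set N := ‖(v.1 : ℂ) * τ + v.2‖ with hN
  set K := 1 + (1 + R) / τ.im with hK
  have hK0 : 0 < K := by positivity
  have hM0 : 0 < M := by linarith
  rw [Eis_norm_zpow, Eis_rpow hM0, ← hN]
  have h4 : N⁻¹ ≤ K * M⁻¹ := by
    rw [inv_le_comm₀ h3 (by positivity), mul_inv, inv_inv, inv_mul_le_iff₀ hK0]
    exact h1
  calc (N⁻¹) ^ 4 ≤ (K * M⁻¹) ^ 4 := by gcongr
    _ = K ^ 4 * ((M⁻¹) ^ 3 * M⁻¹) := by ring
    _ ≤ K ^ 4 * ((M⁻¹) ^ 3 * 1) := by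
        gcongr
        exact inv_le_one_of_one_le₀ h2
    _ = K ^ 4 * (M⁻¹) ^ 3 := by ring

open Classical in
private theorem Eis_summable (P : ℤ × ℤ → Prop) (hP : ∀ v, P v → v ≠ 0) {τ : ℂ}
    (hτ : 0 < τ.im) :
    Summable fun v : ℤ × ℤ => if P v then ((v.1 : ℂ) * τ + v.2) ^ (-4 : ℤ) else 0 := by
  refine Summable.of_norm_bounded
    (g := fun v : ℤ × ℤ => (1 + (1 + |τ.re|) / τ.im) ^ 4 *
      (max |(v.1 : ℝ)| |(v.2 : ℝ)|) ^ (-3 : ℝ)) (summable_max.mul_left _) ?_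
  intro v
  split_ifs with h
  · exact Eis_term hτ le_rfl (hP v h)
  · rw [norm_zero]; positivity

theorem E4_diff : DifferentiableOn ℂ E4 {τ : ℂ | 0 < τ.im} := by
  classical
  intro τ₀ hτ₀
  have hτ₀' : 0 < τ₀.im := hτ₀
  apply DifferentiableAt.differentiableWithinAt
  set U : Set ℂ := {τ | τ₀.im / 2 < τ.im ∧ |τ.re| < |τ₀.re| + 1} with hU
  have hUo : IsOpen U := by
    apply IsOpen.inter
    · exact isOpen_lt continuous_const Complex.continuous_im
    · exact isOpen_lt (Complex.continuous_re.abs) continuous_const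
  have hmem : τ₀ ∈ U := ⟨by linarith, by linarith⟩
  have hUim : ∀ τ ∈ U, 0 < τ.im := fun τ h => by
    have := h.1
    linarith
  have key : DifferentiableOn ℂ (fun τ => ∑' v : ℤ × ℤ,
      if Row v.1 v.2 then ((v.1 : ℂ) * τ + v.2) ^ (-4 : ℤ) else 0) U := by
    refine differentiableOn_tsum_of_summable_norm
      (u := fun v : ℤ × ℤ => (1 + (1 + (|τ₀.re| + 1)) / (τ₀.im / 2)) ^ 4 *
        (max |(v.1 : ℝ)| |(v.2 : ℝ)|) ^ (-3 : ℝ)) (summable_max.mul_left _) ?_ hUo ?_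
    · intro v
      by_cases h : Row v.1 v.2
      · simp only [if_pos h]
        intro τ hτ
        apply DifferentiableAt.differentiableWithinAt
        apply DifferentiableAt.zpow
        · fun_prop
        · left
          exact norm_pos_iff.mp (Eis_pos (hUim τ hτ) (Eis_row_ne h))
      · simp only [if_neg h]
        exact differentiableOn_const _
    · intro v τ hτ
      split_ifs with h
      · refine (Eis_term (hUim τ hτ) hτ.2.le (Eis_row_ne h)).trans ?_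
        have h1 := hτ.1
        have h2 := hUim τ hτ
        gcongr
      · rw [norm_zero]; positivity
  exact key.differentiableAt (hUo.mem_nhds hmem)

private def Eis_eT : ℤ × ℤ ≃ ℤ × ℤ where
  toFun v := (v.1, v.2 + 2 * v.1)
  invFun v := (v.1, v.2 - 2 * v.1)
  left_inv v := by ext <;> simp
  right_inv v := by ext <;> simp

private def Eis_eS : ℤ × ℤ ≃ ℤ × ℤ where
  toFun v := (v.2, -v.1)
  invFun v := (-v.2, v.1)
  left_inv v := by ext <;> simp
  right_inv v := by ext <;> simp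

private def Eis_eC : ℤ × ℤ ≃ ℤ × ℤ where
  toFun v := (v.1 + v.2, -v.1)
  invFun v := (-v.2, v.1 + v.2)
  left_inv v := by ext <;> simp
  right_inv v := by ext <;> simp

private def Eis_eP : ℤ × ℤ ≃ ℤ × ℤ where
  toFun v := (v.1, v.2 + v.1)
  invFun v := (v.1, v.2 - v.1)
  left_inv v := by ext <;> simp
  right_inv v := by ext <;> simp

theorem E4_T {τ : ℂ} (hτ : 0 < τ.im) : E4 (τ + 2) = E4 τ := by
  classical
  have _ := hτ
  unfold E4
  rw [← Equiv.tsum_eq Eis_eT (fun v : ℤ × ℤ =>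
    if Row v.1 v.2 then ((v.1 : ℂ) * τ + v.2) ^ (-4 : ℤ) else 0)]
  apply tsum_congr
  rintro ⟨c, d⟩
  simp only [Eis_eT, Equiv.coe_fn_mk]
  by_cases h : Row c d
  · rw [if_pos h, if_pos (row_T.mpr h)]
    congr 1
    push_cast
    ring
  · rw [if_neg h, if_neg (fun h' => h (row_T.mp h'))]

theorem E4_S {τ : ℂ} (hτ : 0 < τ.im) : E4 (-1 / τ) = τ ^ 4 * E4 τ := by
  classical
  have h0 : τ ≠ 0 := by
    rintro rfl
    simp at hτ
  unfold E4
  rw [← Equiv.tsum_eq Eis_eS (fun v : ℤ × ℤ =>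
    if Row v.1 v.2 then ((v.1 : ℂ) * τ + v.2) ^ (-4 : ℤ) else 0), ← tsum_mul_left]
  apply tsum_congr
  rintro ⟨c, d⟩
  simp only [Eis_eS, Equiv.coe_fn_mk]
  by_cases h : Row c d
  · rw [if_pos h, if_pos (row_S.mpr h)]
    have h1 : (c : ℂ) * (-1 / τ) + d = ((d : ℂ) * τ + ((-c : ℤ) : ℂ)) / τ := by
      field_simp
      push_cast
      ring
    rw [h1, div_zpow, zpow_neg τ, div_inv_eq_mul, mul_comm]
    norm_cast
  · rw [if_neg h, if_neg (fun h' => h (row_S.mp h')), mul_zero]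

private theorem Eis_T_int {τ : ℂ} (hτ : 0 < τ.im) (k : ℤ) : E4 (τ + 2 * k) = E4 τ := by
  have him : ∀ K : ℤ, (τ + 2 * (K : ℂ)).im = τ.im := by
    intro K
    simp
  induction k using Int.induction_on with
  | zero => simp
  | succ i ih =>
    have := E4_T (τ := τ + 2 * ((i : ℤ) : ℂ)) (by rw [him]; exact hτ)
    have he : τ + 2 * (((i : ℤ) + 1 : ℤ) : ℂ) = τ + 2 * ((i : ℤ) : ℂ) + 2 := by push_cast; ring
    rw [he, this]
    exact ih
  | pred i ih =>
    have := E4_T (τ := τ + 2 * ((-(i : ℤ) - 1 : ℤ) : ℂ)) (by rw [him]; exact hτ)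
    have he : τ + 2 * ((-(i : ℤ) - 1 : ℤ) : ℂ) + 2 = τ + 2 * ((-(i : ℤ) : ℤ) : ℂ) := by
      push_cast; ring
    rw [← this, he]
    exact ih

open Classical in
private theorem Eis_bound (P : ℤ × ℤ → Prop) (hP : ∀ v, P v → v.1 ≠ 0) {z : ℂ}
    (hz : 0 < z.im) :
    ‖∑' v : ℤ × ℤ, if P v then ((v.1 : ℂ) * z + v.2) ^ (-4 : ℤ) else 0‖ ≤ (1 / z.im) * G3 z := by
  refine tsum_of_norm_bounded (g := fun v : ℤ × ℤ => (1 / z.im) *
    ‖(v.1 : ℂ) * z + v.2‖ ^ (-3 : ℝ)) ((summable_G3 hz).hasSum.mul_left _) ?_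
  intro v
  split_ifs with h
  · have hv := hP v h
    have h1 : z.im ≤ ‖(v.1 : ℂ) * z + v.2‖ := by
      have h2 := Complex.abs_im_le_norm ((v.1 : ℂ) * z + v.2)
      have h3 : ((v.1 : ℂ) * z + v.2).im = (v.1 : ℝ) * z.im := by simp
      rw [h3, abs_mul, abs_of_pos hz] at h2
      have h4 : (1 : ℝ) ≤ |(v.1 : ℝ)| := by exact_mod_cast Int.one_le_abs hv
      nlinarith
    have h5 : 0 < ‖(v.1 : ℂ) * z + v.2‖ := hz.trans_le h1
    rw [Eis_norm_zpow, Eis_rpow h5]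
    set N := ‖(v.1 : ℂ) * z + v.2‖
    calc (N⁻¹) ^ 4 = N⁻¹ * (N⁻¹) ^ 3 := by ring
      _ ≤ 1 / z.im * (N⁻¹) ^ 3 := by
        gcongr
        rw [one_div]
        exact inv_anti₀ hz h1
  · rw [norm_zero]; positivity

private theorem Eis_reduce (z : ℂ) : |(z - 2 * (round (z.re / 2) : ℤ)).re| ≤ 1 := by
  have h := abs_sub_round (z.re / 2)
  have he : (z - 2 * ((round (z.re / 2) : ℤ) : ℂ)).re = 2 * (z.re / 2 - round (z.re / 2)) := by
    simp
    ring
  rw [he, abs_mul, abs_of_pos (by norm_num : (0 : ℝ) < 2)]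
  linarith

private def Eis_Q (v : ℤ × ℤ) : Prop := Row v.1 v.2 ∧ v.1 ≠ 0

private def Eis_Z (v : ℤ × ℤ) : Prop := Row v.1 v.2 ∧ v.1 = 0

private theorem Eis_row_zero_iff (v : ℤ × ℤ) :
    Eis_Z v ↔ (v = (0, 1) ∨ v = (0, -1)) := by
  constructor
  · rintro ⟨h1, h2⟩
    rw [h2] at h1
    rcases row_zero h1 with h | h
    · left; exact Prod.ext h2 h
    · right; exact Prod.ext h2 h
  · rintro (rfl | rfl)
    · exact ⟨⟨isCoprime_zero_left.mpr isUnit_one, by decide⟩, rfl⟩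
    · exact ⟨⟨isCoprime_zero_left.mpr isUnit_one.neg, by decide⟩, rfl⟩

open Classical in
private theorem Eis_split {τ : ℂ} (hτ : 0 < τ.im) : E4 τ - 2 =
    ∑' v : ℤ × ℤ, if Eis_Q v then ((v.1 : ℂ) * τ + v.2) ^ (-4 : ℤ) else 0 := by
  have h1 := Eis_summable Eis_Q (fun v h => Eis_row_ne h.1) hτ
  have h2 := Eis_summable Eis_Z (fun v h => Eis_row_ne h.1) hτ
  have h3 : ∑' v : ℤ × ℤ, (if Eis_Z v then
      ((v.1 : ℂ) * τ + v.2) ^ (-4 : ℤ) else 0) = 2 := by
    rw [tsum_eq_sum (s := {((0 : ℤ), (1 : ℤ)), ((0 : ℤ), (-1 : ℤ))})]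
    · rw [Finset.sum_insert (by simp), Finset.sum_singleton,
        if_pos ((Eis_row_zero_iff _).mpr (Or.inl rfl)),
        if_pos ((Eis_row_zero_iff _).mpr (Or.inr rfl))]
      norm_num
    · intro v hv
      rw [if_neg]
      rw [Eis_row_zero_iff]
      simpa using hv
  have h4 : E4 τ = ∑' v : ℤ × ℤ, ((if Eis_Q v then
      ((v.1 : ℂ) * τ + v.2) ^ (-4 : ℤ) else 0) + (if Eis_Z v then
      ((v.1 : ℂ) * τ + v.2) ^ (-4 : ℤ) else 0)) := by
    unfold E4
    apply tsum_congr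
    intro v
    by_cases hr : Row v.1 v.2
    · by_cases hz : v.1 = 0
      · have hQ : ¬ Eis_Q v := fun h => h.2 hz
        have hZ : Eis_Z v := ⟨hr, hz⟩
        rw [if_pos hr, if_neg hQ, if_pos hZ, zero_add]
      · have hQ : Eis_Q v := ⟨hr, hz⟩
        have hZ : ¬ Eis_Z v := fun h => hz h.2
        rw [if_pos hr, if_pos hQ, if_neg hZ, add_zero]
    · have hQ : ¬ Eis_Q v := fun h => hr h.1
      have hZ : ¬ Eis_Z v := fun h => hr h.1
      rw [if_neg hr, if_neg hQ, if_neg hZ, add_zero]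
  rw [h4, Summable.tsum_add h1 h2, h3]
  ring

theorem E4_inf : ∃ C : ℝ, 0 < C ∧ ∀ τ : ℂ, 1 ≤ τ.im → ‖E4 τ - 2‖ ≤ C / τ.im := by
  classical
  obtain ⟨C, hC, hG⟩ := G3_le
  refine ⟨8 * C, by positivity, ?_⟩
  have main : ∀ τ : ℂ, 1 ≤ τ.im → |τ.re| ≤ 1 → ‖E4 τ - 2‖ ≤ 8 * C / τ.im := by
    intro τ hτ hr
    have h0 : 0 < τ.im := by linarith
    rw [Eis_split h0]
    refine (Eis_bound Eis_Q (fun v h => h.2) h0).trans ?_
    have h1 := hG τ h0 (by linarith)
    have h2 : 1 / τ.im ≤ 1 := by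
      rw [div_le_one h0]; exact hτ
    have h3 : (1 + 1 / τ.im) ^ 3 ≤ 8 := by
      have : (1 + 1 / τ.im) ^ 3 ≤ (1 + 1) ^ 3 := by gcongr
      linarith
    have h4 : G3 τ ≤ 8 * C := by nlinarith
    rw [one_div_mul_eq_div]
    gcongr
  intro τ hτ
  have h0 : 0 < τ.im := by linarith
  have h1 := Eis_T_int (τ := τ - 2 * (round (τ.re / 2) : ℤ)) (by simpa using h0)
    (round (τ.re / 2))
  rw [sub_add_cancel] at h1
  rw [h1]
  have h2 := main (τ - 2 * (round (τ.re / 2) : ℤ)) (by simpa using hτ) (Eis_reduce τ)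
  have h3 : (τ - 2 * ((round (τ.re / 2) : ℤ) : ℂ)).im = τ.im := by simp
  rwa [h3] at h2

/-- odd first coordinate, coprime -/
private def Eis_P (v : ℤ × ℤ) : Prop := IsCoprime v.1 v.2 ∧ Odd v.1

open Classical in
private noncomputable def Eis_H (z : ℂ) : ℂ :=
  ∑' v : ℤ × ℤ, if Eis_P v then ((v.1 : ℂ) * z + v.2) ^ (-4 : ℤ) else 0

private theorem Eis_row_C (c d : ℤ) : Eis_P (c + d, -c) ↔ Row c d := by
  unfold Eis_P Row
  simp only
  rw [IsCoprime.neg_right_iff, isCoprime_comm]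
  have : IsCoprime c (c + d) ↔ IsCoprime c d := by
    have := IsCoprime.add_mul_left_right_iff (x := c) (y := d) (z := 1)
    rw [mul_one, add_comm d c] at this
    exact this
  rw [this]

private theorem Eis_H_eq {z : ℂ} (hz : 0 < z.im) :
    z ^ (-4 : ℤ) * E4 (1 - 1 / z) = Eis_H z := by
  classical
  have h0 : z ≠ 0 := by
    rintro rfl
    simp at hz
  unfold E4 Eis_H
  rw [← Equiv.tsum_eq Eis_eC (fun v : ℤ × ℤ =>
    if Eis_P v then ((v.1 : ℂ) * z + v.2) ^ (-4 : ℤ) else 0), ← tsum_mul_left]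
  apply tsum_congr
  rintro ⟨c, d⟩
  simp only [Eis_eC, Equiv.coe_fn_mk]
  by_cases h : Row c d
  · rw [if_pos h, if_pos ((Eis_row_C c d).mpr h), ← mul_zpow]
    congr 1
    field_simp
    push_cast
    ring
  · rw [if_neg h, if_neg (fun h' => h ((Eis_row_C c d).mp h')), mul_zero]

private theorem Eis_P_add (m n : ℤ) : Eis_P (m, n + m) ↔ Eis_P (m, n) := by
  unfold Eis_P
  simp only
  have : IsCoprime m (n + m) ↔ IsCoprime m n := by
    have := IsCoprime.add_mul_left_right_iff (x := m) (y := n) (z := 1)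
    rwa [mul_one] at this
  rw [this]

private theorem Eis_H_per (z : ℂ) : Eis_H (z + 1) = Eis_H z := by
  classical
  unfold Eis_H
  rw [← Equiv.tsum_eq Eis_eP (fun v : ℤ × ℤ =>
    if Eis_P v then ((v.1 : ℂ) * z + v.2) ^ (-4 : ℤ) else 0)]
  apply tsum_congr
  rintro ⟨c, d⟩
  simp only [Eis_eP, Equiv.coe_fn_mk]
  by_cases h : Eis_P (c, d)
  · rw [if_pos h, if_pos ((Eis_P_add c d).mpr h)]
    congr 1
    push_cast
    ring
  · rw [if_neg h, if_neg (fun h' => h ((Eis_P_add c d).mp h'))]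

theorem E4_cusp_per {z : ℂ} (hz : 0 < z.im) :
    (z + 1) ^ (-4 : ℤ) * E4 (1 - 1 / (z + 1)) = z ^ (-4 : ℤ) * E4 (1 - 1 / z) := by
  rw [Eis_H_eq hz, Eis_H_eq (by simpa using hz), Eis_H_per]

private theorem Eis_H_int (z : ℂ) (k : ℤ) : Eis_H (z + k) = Eis_H z := by
  induction k using Int.induction_on with
  | zero => simp
  | succ i ih =>
    have he : z + (((i : ℤ) + 1 : ℤ) : ℂ) = z + ((i : ℤ) : ℂ) + 1 := by push_cast; ring
    rw [he, Eis_H_per]
    exact ih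
  | pred i ih =>
    have he : z + ((-(i : ℤ) - 1 : ℤ) : ℂ) + 1 = z + ((-(i : ℤ) : ℤ) : ℂ) := by
      push_cast; ring
    rw [← Eis_H_per, he]
    exact ih

private theorem Eis_H_le : ∃ C : ℝ, 0 < C ∧ ∀ z : ℂ, 1 ≤ z.im → ‖Eis_H z‖ ≤ C / z.im := by
  classical
  obtain ⟨C, hC, hG⟩ := G3_le
  refine ⟨8 * C, by positivity, ?_⟩
  have main : ∀ τ : ℂ, 1 ≤ τ.im → |τ.re| ≤ 1 → ‖Eis_H τ‖ ≤ 8 * C / τ.im := by
    intro τ hτ hr
    have h0 : 0 < τ.im := by linarith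
    refine (Eis_bound Eis_P (fun v h h' => ?_) h0).trans ?_
    · have h2 := h.2
      rw [h'] at h2
      exact absurd h2 (by decide)
    have h1 := hG τ h0 (by linarith)
    have h2 : 1 / τ.im ≤ 1 := by
      rw [div_le_one h0]; exact hτ
    have h3 : (1 + 1 / τ.im) ^ 3 ≤ 8 := by
      have : (1 + 1 / τ.im) ^ 3 ≤ (1 + 1) ^ 3 := by gcongr
      linarith
    have h4 : G3 τ ≤ 8 * C := by nlinarith
    rw [one_div_mul_eq_div]
    gcongr
  intro z hz
  have h1 := Eis_H_int (z - 2 * (round (z.re / 2) : ℤ)) (2 * round (z.re / 2))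
  have h2 : z - 2 * ((round (z.re / 2) : ℤ) : ℂ) + ((2 * round (z.re / 2) : ℤ) : ℂ) = z := by
    push_cast; ring
  rw [h2] at h1
  rw [h1]
  have h3 := main (z - 2 * (round (z.re / 2) : ℤ)) (by simpa using hz) (Eis_reduce z)
  have h4 : (z - 2 * ((round (z.re / 2) : ℤ) : ℂ)).im = z.im := by simp
  rwa [h4] at h3

private theorem Eis_H_diff : DifferentiableOn ℂ Eis_H {z : ℂ | (1 : ℝ) < z.im} := by
  have h1 : DifferentiableOn ℂ (fun z : ℂ => z ^ (-4 : ℤ) * E4 (1 - 1 / z))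
      {z : ℂ | (1 : ℝ) < z.im} := by
    intro z hz
    have hz' : (1 : ℝ) < z.im := hz
    have hz0 : 0 < z.im := by linarith
    have hne : z ≠ 0 := by
      rintro rfl
      simp at hz0
    have him : 0 < (1 - 1 / z).im := by
      rw [Complex.sub_im, Complex.one_im, one_div, Complex.inv_im, zero_sub, neg_div, neg_neg]
      exact div_pos hz0 (Complex.normSq_pos.mpr hne)
    apply DifferentiableAt.differentiableWithinAt
    apply DifferentiableAt.mul
    · exact differentiableAt_zpow.mpr (Or.inl hne)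
    · have hE : DifferentiableAt ℂ E4 (1 - 1 / z) :=
        E4_diff.differentiableAt
          ((isOpen_lt continuous_const Complex.continuous_im).mem_nhds him)
      have hi : DifferentiableAt ℂ (fun z : ℂ => 1 - 1 / z) z := by
        fun_prop (disch := assumption)
      exact DifferentiableAt.comp z hE hi
  refine h1.congr ?_
  intro z hz
  have hz' : (1 : ℝ) < z.im := hz
  exact (Eis_H_eq (by linarith)).symm

theorem E4_cusp : ∃ C : ℝ, 0 < C ∧ ∀ z : ℂ, 2 ≤ z.im →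
    ‖z ^ (-4 : ℤ) * E4 (1 - 1 / z)‖ ≤ C * rexp (-(2 * π * z.im)) := by
  obtain ⟨C₁, hC₁, hH⟩ := Eis_H_le
  obtain ⟨k₀, C, hk⟩ := perlim Eis_H 1 C₁ 0 (by positivity) Eis_H_diff
    (fun z _ => Eis_H_per z) (fun z hz => by
      rw [zero_mul, Real.exp_zero, mul_one]
      refine (hH z hz.le).trans ?_
      exact div_le_self hC₁.le hz.le)
  have hk0 : k₀ = 0 := by
    by_contra hne
    have hpos : 0 < ‖k₀‖ := norm_pos_iff.mpr hne
    have hlim : Filter.Tendsto (fun y : ℝ => C * rexp (-(2 * π * y)) + C₁ / y) Filter.atTop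
        (nhds (C * 0 + 0)) := by
      apply Filter.Tendsto.add
      · apply Filter.Tendsto.const_mul
        apply Real.tendsto_exp_neg_atTop_nhds_zero.comp
        exact Filter.tendsto_id.const_mul_atTop (by positivity)
      · exact Filter.Tendsto.div_atTop tendsto_const_nhds Filter.tendsto_id
    rw [mul_zero, zero_add] at hlim
    have hev := (hlim.eventually (gt_mem_nhds hpos)).and (Filter.eventually_ge_atTop (2 : ℝ))
    obtain ⟨y, hy1, hy2⟩ := hev.exists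
    have h1 := hk (y * I) (by simp; linarith)
    have h2 := hH (y * I) (by simp; linarith)
    have h3 : ((y : ℂ) * I).im = y := by simp
    rw [h3] at h1 h2
    have h4 : ‖k₀‖ ≤ ‖Eis_H (y * I) - k₀‖ + ‖Eis_H (y * I)‖ := by
      have h5 : k₀ = Eis_H (y * I) - (Eis_H (y * I) - k₀) := by ring
      calc ‖k₀‖ = ‖Eis_H (y * I) - (Eis_H (y * I) - k₀)‖ := by rw [← h5]
        _ ≤ ‖Eis_H (y * I)‖ + ‖Eis_H (y * I) - k₀‖ := norm_sub_le _ _
        _ = _ := by ring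
    linarith
  refine ⟨|C| + 1, by positivity, ?_⟩
  intro z hz
  rw [Eis_H_eq (by linarith)]
  have h1 := hk z (by linarith)
  rw [hk0, sub_zero] at h1
  refine h1.trans ?_
  gcongr
  exact (le_abs_self C).trans (by linarith)

end Pool.Agent.Helper31.FI
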