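import Pool.Agent.Helper31.FI.GDefs

/-!
# FI-RD: reduction to the fundamental domain, with a count

`cn τ` = number of integer pairs `(p, q)` with `|p τ + q| < 1` (it contains `(0,0)`).  Finite: `|p| < 1 / Im τ`, and for each `p` at
most `3` values of `q` (real part in an interval of length `2`).
`cn_step`: for `‖τ‖ < 1`, `τ₁ = -1/τ - 2 K`: `‖p τ₁ + q‖ < 1` iff `‖(q - 2 K p) τ - p‖ < ‖τ‖`; the map
`(p, q) ↦ (q - 2 K p, -p)` is injective, has image in the pairs counted for `τ`, and `(1, 0)` is counted for `τ` but not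
in the image (`‖τ‖ < ‖τ‖` is false).
`red_ind`: strong induction on `cn τ`.  `red`: shift first by `2 k` to reach `|re| ≤ 1` (induction on integers), then `red_ind`
(from `p (-1/τ)` obtain `p (-1/(-1/τ)) = p τ`).
`orb`: the family of numbers `Im τ / |p τ + q|²` is preserved.
-/

set_option autoImplicit false

namespace Pool.Agent.Helper31.FI

open Complex Real

/-- number of integer pairs with `|p τ + q| < 1` -/
noncomputable def cn (τ : ℂ) : ℕ := {v : ℤ × ℤ | ‖(v.1 : ℂ) * τ + v.2‖ < 1}.ncard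

private noncomputable def Red_box (τ : ℂ) : Finset (ℤ × ℤ) :=
  (Finset.Icc (-⌊1 / τ.im⌋) ⌊1 / τ.im⌋ ×ˢ Finset.Icc (0 : ℤ) 2).image
    (fun v => (v.1, ⌊-((v.1 : ℝ) * τ.re)⌋ + v.2))

private theorem Red_sub {τ : ℂ} (hτ : 0 < τ.im) :
    {v : ℤ × ℤ | ‖(v.1 : ℂ) * τ + v.2‖ < 1} ⊆ (Red_box τ : Set (ℤ × ℤ)) := by
  rintro ⟨a, b⟩ hv
  simp only [Set.mem_ofPred_eq] at hv
  have him : |(a : ℝ) * τ.im| < 1 := by
    refine lt_of_le_of_lt ?_ hv
    have := Complex.abs_im_le_norm ((a : ℂ) * τ + b)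
    simpa using this
  have hre : |(a : ℝ) * τ.re + b| < 1 := by
    refine lt_of_le_of_lt ?_ hv
    have := Complex.abs_re_le_norm ((a : ℂ) * τ + b)
    simpa using this
  rw [abs_lt] at hre
  have ha : |(a : ℝ)| < 1 / τ.im := by
    rw [abs_mul, abs_of_pos hτ] at him
    rwa [lt_div_iff₀ hτ]
  rw [abs_lt] at ha
  have ha1 : a ≤ ⌊1 / τ.im⌋ := Int.le_floor.mpr ha.2.le
  have ha2 : -⌊1 / τ.im⌋ ≤ a := by
    have : -a ≤ ⌊1 / τ.im⌋ := Int.le_floor.mpr (by push_cast; linarith [ha.1])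
    linarith
  have hf1 := Int.floor_le (-((a : ℝ) * τ.re))
  have hf2 := Int.lt_floor_add_one (-((a : ℝ) * τ.re))
  have hb1 : ⌊-((a : ℝ) * τ.re)⌋ ≤ b := by
    have : ((⌊-((a : ℝ) * τ.re)⌋ : ℤ) : ℝ) < (b : ℝ) + 1 := by linarith [hre.1]
    have h' : ⌊-((a : ℝ) * τ.re)⌋ < b + 1 := by exact_mod_cast this
    linarith
  have hb2 : b ≤ ⌊-((a : ℝ) * τ.re)⌋ + 2 := by
    have : (b : ℝ) < (⌊-((a : ℝ) * τ.re)⌋ : ℝ) + 2 := by linarith [hre.2]
    have h' : b < ⌊-((a : ℝ) * τ.re)⌋ + 2 := by exact_mod_cast this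
    linarith
  unfold Red_box
  rw [Finset.mem_coe, Finset.mem_image]
  refine ⟨(a, b - ⌊-((a : ℝ) * τ.re)⌋), ?_, ?_⟩
  · rw [Finset.mem_product, Finset.mem_Icc, Finset.mem_Icc]
    exact ⟨⟨ha2, ha1⟩, by simpa using hb1, by simp only; linarith⟩
  · simp

theorem cn_finite {τ : ℂ} (hτ : 0 < τ.im) : {v : ℤ × ℤ | ‖(v.1 : ℂ) * τ + v.2‖ < 1}.Finite :=
  (Red_box τ).finite_toSet.subset (Red_sub hτ)

theorem cn_le {τ : ℂ} (hτ : 0 < τ.im) : (cn τ : ℝ) ≤ 3 * (2 / τ.im + 1) := by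
  have h1 : cn τ ≤ (Red_box τ).card := by
    unfold cn
    rw [← Set.ncard_coe_finset]
    exact Set.ncard_le_ncard (Red_sub hτ) (Red_box τ).finite_toSet
  have hfl : 0 ≤ ⌊1 / τ.im⌋ := Int.floor_nonneg.mpr (by positivity)
  have h2 : (Red_box τ).card ≤ (2 * ⌊1 / τ.im⌋ + 1).toNat * 3 := by
    unfold Red_box
    refine Finset.card_image_le.trans ?_
    rw [Finset.card_product, Int.card_Icc, Int.card_Icc]
    apply le_of_eq
    congr 1
    congr 1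
    ring
  have h3 : (cn τ : ℝ) ≤ ((2 * ⌊1 / τ.im⌋ + 1).toNat : ℝ) * 3 := by
    exact_mod_cast h1.trans h2
  have h4 : (((2 * ⌊1 / τ.im⌋ + 1).toNat : ℤ) : ℝ) = 2 * (⌊1 / τ.im⌋ : ℝ) + 1 := by
    rw [Int.toNat_of_nonneg (by linarith)]
    push_cast
    ring
  have h5 := Int.floor_le (1 / τ.im)
  have h6 : 2 / τ.im = 2 * (1 / τ.im) := by ring
  rw [h6]
  have h7 : ((2 * ⌊1 / τ.im⌋ + 1).toNat : ℝ) = 2 * (⌊1 / τ.im⌋ : ℝ) + 1 := by
    rw [← h4, Int.cast_natCast]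
  rw [h7] at h3
  linarith

private theorem Red_ne {τ : ℂ} (hτ : 0 < τ.im) : τ ≠ 0 := by
  rintro rfl
  simp at hτ

private theorem Red_map {τ : ℂ} (hτ : 0 < τ.im) (K a b : ℤ) :
    (a : ℂ) * (-1 / τ - 2 * K) + b = (((b - 2 * K * a : ℤ) : ℂ) * τ + ((-a : ℤ) : ℂ)) / τ := by
  have h0 := Red_ne hτ
  field_simp
  push_cast
  ring

private theorem Red_im {τ : ℂ} (K : ℤ) :
    (-1 / τ - 2 * K).im = τ.im / ‖τ‖ ^ 2 := by
  have h1 : (2 * (K : ℂ)).im = 0 := by simp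
  have h2 : (-1 / τ).im = τ.im / ‖τ‖ ^ 2 := by
    rw [neg_div, Complex.neg_im, one_div, Complex.inv_im, Complex.normSq_eq_norm_sq]
    ring
  rw [Complex.sub_im, h1, h2, sub_zero]

private theorem Red_im_pos {τ : ℂ} (hτ : 0 < τ.im) (K : ℤ) : 0 < (-1 / τ - 2 * K).im := by
  rw [Red_im]
  have := norm_pos_iff.mpr (Red_ne hτ)
  positivity

theorem cn_step {τ : ℂ} (hτ : 0 < τ.im) (h1 : ‖τ‖ < 1) (K : ℤ) : cn (-1 / τ - 2 * K) < cn τ := by
  have hn : 0 < ‖τ‖ := norm_pos_iff.mpr (Red_ne hτ)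
  have hinj : Function.Injective (fun v : ℤ × ℤ => (v.2 - 2 * K * v.1, -v.1)) := by
    rintro ⟨a, b⟩ ⟨c, d⟩ h
    simp only [Prod.mk.injEq, neg_inj] at h
    obtain ⟨h, rfl⟩ := h
    simp only [Prod.mk.injEq, true_and]
    linarith
  unfold cn
  rw [← Set.ncard_image_of_injective _ hinj]
  apply Set.ncard_lt_ncard _ (cn_finite hτ)
  rw [Set.ssubset_iff_of_subset]
  · refine ⟨(1, 0), by simpa using h1, ?_⟩
    rintro ⟨⟨a, b⟩, hv, he⟩
    simp only [Prod.mk.injEq] at he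
    simp only [Set.mem_ofPred_eq] at hv
    rw [Red_map hτ, he.1, he.2, norm_div] at hv
    simp only [Int.cast_one, one_mul, Int.cast_zero, add_zero] at hv
    rw [div_self hn.ne'] at hv
    exact lt_irrefl _ hv
  · rintro _ ⟨⟨a, b⟩, hv, rfl⟩
    simp only [Set.mem_ofPred_eq] at hv ⊢
    rw [Red_map hτ, norm_div, div_lt_one hn] at hv
    exact hv.trans h1

theorem red_ind (p : ℂ → Prop) (hD : ∀ τ ∈ FD, p τ)
    (hS : ∀ τ : ℂ, 0 < τ.im → |τ.re| ≤ 1 → ‖τ‖ < 1 →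
      (∀ K : ℤ, |(-1 / τ - 2 * K).re| ≤ 1 → p (-1 / τ - 2 * K)) → p τ) :
    ∀ τ : ℂ, 0 < τ.im → |τ.re| ≤ 1 → p τ := by
  have key : ∀ n : ℕ, ∀ τ : ℂ, cn τ = n → 0 < τ.im → |τ.re| ≤ 1 → p τ := by
    intro n
    induction n using Nat.strong_induction_on with
    | _ n ih =>
      intro τ hn hτ hr
      rcases lt_or_ge ‖τ‖ 1 with h1 | h1
      · refine hS τ hτ hr h1 fun K hK => ?_
        exact ih _ (hn ▸ cn_step hτ h1 K) _ rfl (Red_im_pos hτ K) hK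
      · exact hD τ ⟨hτ, hr, h1⟩
  intro τ hτ hr
  exact key _ τ rfl hτ hr

private theorem Red_shift (p : ℂ → Prop) (h2 : ∀ τ : ℂ, 0 < τ.im → p τ → p (τ + 2))
    (h2' : ∀ τ : ℂ, 0 < τ.im → p τ → p (τ - 2)) (τ : ℂ) (hτ : 0 < τ.im) (hp : p τ) (K : ℤ) :
    p (τ + 2 * K) := by
  have him : ∀ K : ℤ, (τ + 2 * (K : ℂ)).im = τ.im := by
    intro K
    simp
  induction K using Int.induction_on with
  | zero => simpa using hp
  | succ i ih =>
    have := h2 _ (by rw [him]; exact hτ) ih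
    have he : τ + 2 * (((i : ℤ) + 1 : ℤ) : ℂ) = τ + 2 * ((i : ℤ) : ℂ) + 2 := by push_cast; ring
    rw [he]
    exact this
  | pred i ih =>
    have := h2' _ (by rw [him]; exact hτ) ih
    have he : τ + 2 * ((-(i : ℤ) - 1 : ℤ) : ℂ) = τ + 2 * ((-(i : ℤ) : ℤ) : ℂ) - 2 := by
      push_cast; ring
    rw [he]
    exact this

theorem red (p : ℂ → Prop) (h2 : ∀ τ : ℂ, 0 < τ.im → p τ → p (τ + 2))
    (h2' : ∀ τ : ℂ, 0 < τ.im → p τ → p (τ - 2)) (hS : ∀ τ : ℂ, 0 < τ.im → p τ → p (-1 / τ))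
    (hD : ∀ τ ∈ FD, p τ) : ∀ τ : ℂ, 0 < τ.im → p τ := by
  have hred : ∀ τ : ℂ, |(τ - 2 * (round (τ.re / 2) : ℤ)).re| ≤ 1 := by
    intro τ
    have h := abs_sub_round (τ.re / 2)
    have he : (τ - 2 * ((round (τ.re / 2) : ℤ) : ℂ)).re = 2 * (τ.re / 2 - round (τ.re / 2)) := by
      simp
      ring
    rw [he, abs_mul, abs_of_pos (by norm_num : (0 : ℝ) < 2)]
    linarith
  have hfun : ∀ τ : ℂ, 0 < τ.im → |τ.re| ≤ 1 → p τ := by
    refine red_ind p hD ?_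
    intro τ hτ _ _ hK
    have hne := Red_ne hτ
    have h3 := hK (round ((-1 / τ).re / 2)) (hred (-1 / τ))
    have h4 := Red_shift p h2 h2' _ (Red_im_pos hτ _) h3 (round ((-1 / τ).re / 2))
    rw [sub_add_cancel] at h4
    have h5 : 0 < (-1 / τ).im := by
      have := Red_im_pos hτ 0
      simpa using this
    have h6 := hS _ h5 h4
    have h7 : -1 / (-1 / τ) = τ := by field_simp
    rwa [h7] at h6
  intro τ hτ
  have h3 := hfun (τ - 2 * (round (τ.re / 2) : ℤ)) (by simpa using hτ) (hred τ)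
  have h4 := Red_shift p h2 h2' _ (by simpa using hτ) h3 (round (τ.re / 2))
  rwa [sub_add_cancel] at h4

theorem orb {τ : ℂ} (hτ : 0 < τ.im) (K p q : ℤ) (h : (p, q) ≠ (0, 0)) :
    ∃ p' q' : ℤ, (p', q') ≠ (0, 0) ∧ (-1 / τ - 2 * K).im / ‖(p : ℂ) * (-1 / τ - 2 * K) + q‖ ^ 2 =
      τ.im / ‖(p' : ℂ) * τ + q'‖ ^ 2 := by
  have hn : 0 < ‖τ‖ := norm_pos_iff.mpr (Red_ne hτ)
  refine ⟨q - 2 * K * p, -p, ?_, ?_⟩
  · intro he
    apply h
    simp only [Prod.mk.injEq, neg_eq_zero] at he ⊢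
    obtain ⟨h1, h2⟩ := he
    subst h2
    exact ⟨rfl, by linarith⟩
  · rw [Red_map hτ, Red_im, norm_div, div_pow, div_div_div_cancel_right₀]
    positivity

end Pool.Agent.Helper31.FI
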