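import Pool.Agent.Helper31.FI.ThEst
import Pool.Agent.Helper31.FI.Red

/-!
# FI-TN: `jacobiTheta` has no zero in the upper half plane

`red` with `p τ = (jacobiTheta τ ≠ 0)` (`jacobiTheta_two_add`, `theta_inv`; `(-I τ)^(1/2) ≠ 0`).  On `FD`: if `Im w ≥ 1/2` use
`theta_sub_one`.  If `Im w < 1/2` then `w` is near `± 1`: say `0 ≤ Re w ≤ 1`; put `z = 1 / (1 - w)`, so `w = 1 - 1/z`,
`Im z = Im w / |1 - w|²`; `‖w‖ ≥ 1` gives `1 - Re w ≤ (Im w)²`, so
`Im z ≥ 1 / (v (1 + v²)) ≥ 1` (`v = Im w < 1/2`); `theta_cusp` and `th2_low`.  For `-1 ≤ Re w < 0` use `theta_conj`.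
`cusp_im`: the same computation, used later.
`differentiableAt_Lam`, `differentiableAt_ep`: quotient rules.
-/

set_option autoImplicit false

namespace Pool.Agent.Helper31.FI

open Complex Real

theorem cusp_im {w : ℂ} (hw : w ∈ FD) (h0 : 0 ≤ w.re) (h1 : w.im ≤ 2) :
    24 / 100 ≤ (1 / (1 - w)).im ∧ 0 ≤ (1 / (1 - w)).re ∧ (1 / (1 - w)).re ≤ 1 / 2 := by
  obtain ⟨hv, ha, hn⟩ := hw
  have ha' := (abs_le.1 ha).2
  set a := w.re with hadef
  set v := w.im with hvdef
  have hns : 1 ≤ a ^ 2 + v ^ 2 := by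
    have h2 : (1 : ℝ) ≤ ‖w‖ ^ 2 := by nlinarith
    rw [← Complex.normSq_eq_norm_sq, Complex.normSq_apply] at h2
    nlinarith
  have hre : (1 - w).re = 1 - a := by simp [hadef]
  have him : (1 - w).im = -v := by simp [hvdef]
  have hN : Complex.normSq (1 - w) = (1 - a) ^ 2 + v ^ 2 := by
    rw [Complex.normSq_apply, hre, him]
    ring
  have hpos : 0 < (1 - a) ^ 2 + v ^ 2 := by positivity
  have e1 : (1 / (1 - w)).im = v / ((1 - a) ^ 2 + v ^ 2) := by
    rw [one_div, Complex.inv_im, him, hN, neg_neg]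
  have e2 : (1 / (1 - w)).re = (1 - a) / ((1 - a) ^ 2 + v ^ 2) := by
    rw [one_div, Complex.inv_re, hre, hN]
  have hb0 : 0 ≤ 1 - a := by linarith
  have hb1 : 1 - a ≤ 1 := by linarith
  have hbv : 1 - a ≤ v ^ 2 := by nlinarith
  rw [e1, e2]
  refine ⟨?_, by positivity, ?_⟩
  · rw [le_div_iff₀ hpos]
    rcases le_total v 1 with hv1 | hv1
    · have h3 : (1 - a) ^ 2 ≤ v := by
        have h4 : (1 - a) ^ 2 ≤ 1 - a := by nlinarith
        nlinarith
      nlinarith
    · nlinarith
  · rw [div_le_iff₀ hpos]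
    nlinarith

theorem theta_ne {τ : ℂ} (hτ : 0 < τ.im) : jacobiTheta τ ≠ 0 := by
  have pos : ∀ w ∈ FD, 0 ≤ w.re → jacobiTheta w ≠ 0 := by
    intro w hw h0
    rcases le_or_gt (1 / 2) w.im with h1 | h1
    · have h2 := theta_sub_one h1
      intro h3
      rw [h3, zero_sub, norm_neg, norm_one] at h2
      norm_num at h2
    · obtain ⟨h2, -, -⟩ := cusp_im hw h0 (by linarith)
      have hz : 17 / 100 ≤ (1 / (1 - w)).im := le_trans (by norm_num) h2
      have hz0 : 0 < (1 / (1 - w)).im := lt_of_lt_of_le (by norm_num) hz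
      have h3 := theta_cusp hz0
      have h4 : 1 - 1 / (1 / (1 - w)) = w := by
        rw [one_div_one_div]
        ring
      rw [h4] at h3
      rw [h3]
      refine mul_ne_zero ?_ ?_
      · have hne : -I * (1 / (1 - w)) ≠ 0 := by
          refine mul_ne_zero (neg_ne_zero.2 I_ne_zero) ?_
          intro h5
          rw [h5, zero_im] at hz0
          exact lt_irrefl _ hz0
        rw [Complex.cpow_def_of_ne_zero hne]
        exact Complex.exp_ne_zero _
      · intro h5
        have h6 := th2_low hz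
        rw [h5, norm_zero] at h6
        exact absurd h6 (not_le.2 (Real.exp_pos _))
  refine red (fun τ => jacobiTheta τ ≠ 0) ?_ ?_ ?_ ?_ τ hτ
  · intro τ _ h
    show jacobiTheta (τ + 2) ≠ 0
    rwa [add_comm, jacobiTheta_two_add]
  · intro τ _ h
    show jacobiTheta (τ - 2) ≠ 0
    rwa [← jacobiTheta_two_add (τ - 2), add_sub_cancel]
  · intro τ hτ h
    show jacobiTheta (-1 / τ) ≠ 0
    rw [theta_inv hτ]
    refine mul_ne_zero ?_ h
    have hne : -I * τ ≠ 0 := by
      refine mul_ne_zero (neg_ne_zero.2 I_ne_zero) ?_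
      intro h5
      rw [h5, zero_im] at hτ
      exact lt_irrefl _ hτ
    rw [Complex.cpow_def_of_ne_zero hne]
    exact Complex.exp_ne_zero _
  · intro τ hτ
    show jacobiTheta τ ≠ 0
    rcases le_total 0 τ.re with h0 | h0
    · exact pos τ hτ h0
    · obtain ⟨h1, h2, h3⟩ := hτ
      have hre : (sr τ).re = -τ.re := by simp [sr]
      have him : (sr τ).im = τ.im := by simp [sr]
      have hno : ‖sr τ‖ = ‖τ‖ := by simp [sr]
      have h4 := pos (sr τ) ⟨by rw [him]; exact h1, by rw [hre, abs_neg]; exact h2,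
        by rw [hno]; exact h3⟩ (by rw [hre]; linarith)
      rw [theta_conj h1] at h4
      intro h5
      exact h4 (by rw [h5, map_zero])

theorem differentiableAt_Lam {τ : ℂ} (hτ : 0 < τ.im) : DifferentiableAt ℂ Lam τ := by
  have h1 : DifferentiableAt ℂ (fun τ : ℂ => jacobiTheta (τ + 1)) τ := by
    have h2 : DifferentiableAt ℂ jacobiTheta (τ + 1) :=
      differentiableAt_jacobiTheta (by simpa using hτ)
    exact h2.comp τ ((differentiableAt_id).add (differentiableAt_const _))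
  have h3 := differentiableAt_th2 hτ
  have h4 : DifferentiableAt ℂ jacobiTheta τ := differentiableAt_jacobiTheta hτ
  exact ((h1.pow 4).sub (h3.pow 4)).div (h4.pow 4) (pow_ne_zero _ (theta_ne hτ))

theorem differentiableAt_ep (x : ℝ) {τ : ℂ} (hτ : 0 < τ.im) : DifferentiableAt ℂ (ep x) τ := by
  have h1 : DifferentiableAt ℂ (ex x) τ := by
    unfold ex
    fun_prop
  have h4 : DifferentiableAt ℂ jacobiTheta τ := differentiableAt_jacobiTheta hτ
  exact h1.div h4 (theta_ne hτ)

end Pool.Agent.Helper31.FI
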