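import Pool.Agent.Helper31.FI.Eis
import Pool.Agent.Helper31.FI.ConstInv
import Pool.Agent.Helper31.FI.ThNe

/-!
# FI-EID: `E4 = 2 θ⁸`

`S = E4/θ⁸ - 2` is analytic and invariant (`theta_inv`: `θ(-1/τ)⁸ = τ⁴ θ⁸`), tends to `0` at `i ∞` (`E4_inf`,
`isBigO`-estimates of `θ - 1`), and `S (1 - 1/z) = (z^(-4) E4 (1-1/z))/th2 z ^ 8 - 2` is `1`-periodic (`E4_cusp_per`, `th2_add_one`) and
bounded for `im z ≥ 2` (`E4_cusp`, `th2_low`), so by `perlim` it tends to some `s₁` as `im z → ∞`.  `T = S (S - s₁)` satisfies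
the hypotheses of `const_inv` (for `τ ∈ FD` with small `im`: `z = 1/(1-τ)` if `re τ ≥ 0`; if `re τ < 0` use `τ + 2`,
`z = 1/(1 - (τ + 2)) = -1/(τ+1)`, also `im z` large), so `S (S - s₁) = 0` on the half plane; if `S` is not identically zero then
`S = s₁` on an open set, hence everywhere, and `S → 0` gives `s₁ = 0`; so `S = 0`.
-/

set_option autoImplicit false

namespace Pool.Agent.Helper31.FI

open Complex Real

/-- the quotient -/
private noncomputable def EisId_S (τ : ℂ) : ℂ := E4 τ / jacobiTheta τ ^ 8 - 2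

private theorem EisId_diffOn : DifferentiableOn ℂ EisId_S {τ : ℂ | 0 < τ.im} := by
  intro τ hτ
  have h1 : DifferentiableAt ℂ E4 τ :=
    E4_diff.differentiableAt ((isOpen_lt continuous_const Complex.continuous_im).mem_nhds hτ)
  have h2 : DifferentiableAt ℂ jacobiTheta τ := differentiableAt_jacobiTheta hτ
  exact ((h1.div (h2.pow 8) (pow_ne_zero _ (theta_ne hτ))).sub_const 2).differentiableWithinAt

private theorem EisId_T {τ : ℂ} (hτ : 0 < τ.im) : EisId_S (τ + 2) = EisId_S τ := by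
  unfold EisId_S
  rw [E4_T hτ, add_comm τ 2, jacobiTheta_two_add]

private theorem EisId_pow (τ : ℂ) : ((-I * τ) ^ (1 / 2 : ℂ)) ^ 8 = τ ^ 4 := by
  have h1 : ((-I * τ) ^ (1 / 2 : ℂ)) ^ 2 = -I * τ := by
    rw [one_div]
    exact Complex.cpow_ofNat_inv_pow _ _
  calc ((-I * τ) ^ (1 / 2 : ℂ)) ^ 8 = (((-I * τ) ^ (1 / 2 : ℂ)) ^ 2) ^ 4 := by ring
    _ = (-I * τ) ^ 4 := by rw [h1]
    _ = τ ^ 4 := by
      rw [mul_pow, neg_pow, Complex.I_pow_four]
      norm_num

private theorem EisId_ne {τ : ℂ} (hτ : 0 < τ.im) : τ ≠ 0 := by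
  rintro rfl
  rw [zero_im] at hτ
  exact lt_irrefl _ hτ

private theorem EisId_inv {τ : ℂ} (hτ : 0 < τ.im) : EisId_S (-1 / τ) = EisId_S τ := by
  unfold EisId_S
  rw [E4_S hτ, theta_inv hτ, mul_pow, EisId_pow,
    mul_div_mul_left _ _ (pow_ne_zero 4 (EisId_ne hτ))]

private theorem EisId_cusp {z : ℂ} (hz : 0 < z.im) :
    EisId_S (1 - 1 / z) = z ^ (-4 : ℤ) * E4 (1 - 1 / z) / th2 z ^ 8 - 2 := by
  unfold EisId_S
  rw [theta_cusp hz, mul_pow, EisId_pow]
  have h0 := EisId_ne hz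
  congr 1
  rw [show (-4 : ℤ) = -((4 : ℕ) : ℤ) from rfl, zpow_neg, zpow_natCast]
  field_simp

private theorem EisId_th2 {z : ℂ} (hz : 0 < z.im) : th2 (z + 1) ^ 8 = th2 z ^ 8 := by
  rw [th2_add_one hz, mul_pow, ← Complex.exp_nat_mul]
  have h1 : ((8 : ℕ) : ℂ) * (π * I / 4) = 2 * π * I := by
    push_cast
    ring
  rw [h1, Complex.exp_two_pi_mul_I, one_mul]

private theorem EisId_im1 {z : ℂ} (hz : 0 < z.im) : 0 < (1 - 1 / z).im := by
  rw [sub_im, one_im, one_div, Complex.inv_im]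
  have h1 : 0 < Complex.normSq z := Complex.normSq_pos.2 (EisId_ne hz)
  have h2 : 0 < z.im / Complex.normSq z := div_pos hz h1
  rw [neg_div]
  linarith

private theorem EisId_im {w : ℂ} (hw : w ∈ FD) (h0 : 0 ≤ w.re) (h1 : w.im ≤ 1) :
    1 / (2 * w.im) ≤ (1 / (1 - w)).im := by
  obtain ⟨hv, hu, hn⟩ := hw
  have hu1 : w.re ≤ 1 := (abs_le.1 hu).2
  have hn2 : 1 ≤ w.re ^ 2 + w.im ^ 2 := by
    have h2 : 1 ≤ ‖w‖ ^ 2 := by nlinarith [norm_nonneg w]
    rw [← Complex.normSq_eq_norm_sq, Complex.normSq_apply] at h2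
    nlinarith
  have hns : Complex.normSq (1 - w) = (1 - w.re) ^ 2 + w.im ^ 2 := by
    rw [Complex.normSq_apply]
    simp only [sub_re, one_re, sub_im, one_im]
    ring
  have him : (1 / (1 - w)).im = w.im / ((1 - w.re) ^ 2 + w.im ^ 2) := by
    rw [one_div, Complex.inv_im, hns]
    simp only [sub_im, one_im]
    ring
  have h3 : 1 - w.re ≤ w.im ^ 2 := by nlinarith
  have h4 : (1 - w.re) ^ 2 ≤ w.im ^ 2 := by
    have h5 : 0 ≤ 1 - w.re := by linarith
    have h6 : w.im ^ 2 ≤ w.im := by nlinarith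
    nlinarith
  rw [him, div_le_div_iff₀ (by positivity) (by positivity)]
  nlinarith

/-- every point of the fundamental domain near the cusp -/
private theorem EisId_red {τ : ℂ} (hτ : τ ∈ FD) (h1 : τ.im ≤ 1) :
    ∃ z : ℂ, 1 / (2 * τ.im) ≤ z.im ∧ EisId_S τ = EisId_S (1 - 1 / z) := by
  rcases le_total 0 τ.re with h0 | h0
  · refine ⟨1 / (1 - τ), EisId_im hτ h0 h1, ?_⟩
    rw [one_div_one_div, sub_sub_cancel]
  · have h2 : (sr τ).im = τ.im := by
      unfold sr
      rw [neg_im, conj_im, neg_neg]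
    have h3 : (sr τ).re = -τ.re := by
      unfold sr
      rw [neg_re, conj_re]
    have h4 : sr τ ∈ FD := by
      refine ⟨by rw [h2]; exact hτ.1, by rw [h3, abs_neg]; exact hτ.2.1, ?_⟩
      unfold sr
      rw [norm_neg, Complex.norm_conj]
      exact hτ.2.2
    have h5 := EisId_im h4 (by rw [h3]; linarith) (by rw [h2]; exact h1)
    rw [h2] at h5
    refine ⟨1 / (1 - (τ + 2)), ?_, ?_⟩
    · have h6 : 1 - (τ + 2) = -(1 + τ) := by ring
      have h7 : 1 - sr τ = (starRingEnd ℂ) (1 + τ) := by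
        unfold sr
        rw [map_add, map_one]
        ring
      rw [h7] at h5
      rw [h6, one_div (-(1 + τ)), Complex.inv_im, Complex.normSq_neg, neg_im, neg_neg]
      rw [one_div ((starRingEnd ℂ) (1 + τ)), Complex.inv_im, Complex.normSq_conj, conj_im,
        neg_neg] at h5
      exact h5
    · rw [one_div_one_div, sub_sub_cancel, EisId_T hτ.1]

private theorem EisId_tendsto :
    Filter.Tendsto EisId_S (Filter.comap Complex.im Filter.atTop) (nhds 0) := by
  have h1 : Filter.Tendsto (fun τ : ℂ => rexp (-π * τ.im)) (Filter.comap Complex.im Filter.atTop)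
      (nhds 0) := by
    have h2 : Filter.Tendsto (fun y : ℝ => rexp (-π * y)) Filter.atTop (nhds 0) := by
      refine Real.tendsto_exp_atBot.comp ?_
      exact Filter.tendsto_id.const_mul_atTop_of_neg (by linarith [Real.pi_pos])
    exact h2.comp Filter.tendsto_comap
  have h2 : Filter.Tendsto (fun τ : ℂ => jacobiTheta τ - 1) (Filter.comap Complex.im Filter.atTop)
      (nhds 0) := isBigO_at_im_infty_jacobiTheta_sub_one.trans_tendsto h1
  have h3 : Filter.Tendsto (fun τ : ℂ => jacobiTheta τ) (Filter.comap Complex.im Filter.atTop)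
      (nhds 1) := by
    have h4 := h2.add_const 1
    simpa using h4
  have h4 : Filter.Tendsto (fun τ : ℂ => E4 τ - 2) (Filter.comap Complex.im Filter.atTop)
      (nhds 0) := by
    obtain ⟨C, hC, hE⟩ := E4_inf
    have h5 : Filter.Tendsto (fun τ : ℂ => C / τ.im) (Filter.comap Complex.im Filter.atTop)
        (nhds 0) := by
      have h6 : Filter.Tendsto (fun y : ℝ => C / y) Filter.atTop (nhds 0) :=
        Filter.tendsto_id.const_div_atTop C
      exact h6.comp Filter.tendsto_comap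
    refine squeeze_zero_norm' ?_ h5
    have h6 : {y : ℝ | 1 ≤ y} ∈ Filter.atTop := Filter.mem_atTop 1
    exact Filter.mem_of_superset (Filter.preimage_mem_comap h6) fun τ hτ => hE τ hτ
  have h5 : Filter.Tendsto (fun τ : ℂ => E4 τ) (Filter.comap Complex.im Filter.atTop)
      (nhds 2) := by
    have h6 := h4.add_const 2
    simpa using h6
  have h6 := (h5.div (h3.pow 8) (by norm_num)).sub_const 2
  have h7 : (2 : ℂ) / 1 ^ 8 - 2 = 0 := by norm_num
  rw [h7] at h6
  exact h6

private theorem EisId_ev {T : ℂ → ℂ}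
    (h : Filter.Tendsto T (Filter.comap Complex.im Filter.atTop) (nhds 0)) {δ : ℝ} (hδ : 0 < δ) :
    ∃ Y : ℝ, ∀ τ : ℂ, Y < τ.im → ‖T τ‖ ≤ δ := by
  have h1 : {w : ℂ | ‖w‖ ≤ δ} ∈ nhds (0 : ℂ) := by
    have h2 := Metric.closedBall_mem_nhds (0 : ℂ) hδ
    refine Filter.mem_of_superset h2 fun w hw => ?_
    simpa using hw
  obtain ⟨t, ht, hsub⟩ := Filter.mem_comap.1 (h h1)
  obtain ⟨Y, hY⟩ := Filter.mem_atTop_sets.1 ht
  exact ⟨Y, fun τ hτ => hsub (hY τ.im hτ.le)⟩

private theorem EisId_zero {τ : ℂ} (hτ : 0 < τ.im) : EisId_S τ = 0 := by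
  obtain ⟨C, hC, hE⟩ := E4_cusp
  have hbd : ∀ z : ℂ, 2 ≤ z.im → ‖EisId_S (1 - 1 / z)‖ ≤ C + 2 := by
    intro z hz
    rw [EisId_cusp (by linarith)]
    have h1 : rexp (-(2 * π * z.im)) ≤ ‖th2 z ^ 8‖ := by
      rw [norm_pow]
      have h2 : rexp (-(2 * π * z.im)) = rexp (-(π * z.im / 4)) ^ 8 := by
        rw [← Real.exp_nat_mul]
        congr 1
        push_cast
        ring
      rw [h2]
      exact pow_le_pow_left₀ (Real.exp_pos _).le (th2_low (by linarith)) 8
    have hpos : 0 < ‖th2 z ^ 8‖ := lt_of_lt_of_le (Real.exp_pos _) h1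
    have h3 : ‖z ^ (-4 : ℤ) * E4 (1 - 1 / z) / th2 z ^ 8‖ ≤ C := by
      rw [norm_div, div_le_iff₀ hpos]
      exact (hE z hz).trans (mul_le_mul_of_nonneg_left h1 hC.le)
    calc ‖z ^ (-4 : ℤ) * E4 (1 - 1 / z) / th2 z ^ 8 - 2‖
        ≤ ‖z ^ (-4 : ℤ) * E4 (1 - 1 / z) / th2 z ^ 8‖ + ‖(2 : ℂ)‖ := norm_sub_le _ _
      _ ≤ C + 2 := by
        have : ‖(2 : ℂ)‖ = 2 := by simp
        linarith
  obtain ⟨k₀, C', hk⟩ := perlim (fun z => EisId_S (1 - 1 / z)) 2 (C + 2) 0
    (by have := Real.pi_pos; linarith)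
    (by
      intro z hz
      have hz' : (2 : ℝ) < z.im := hz
      have hz0 : 0 < z.im := by linarith
      have h1 : DifferentiableAt ℂ EisId_S (1 - 1 / z) :=
        EisId_diffOn.differentiableAt
          ((isOpen_lt continuous_const Complex.continuous_im).mem_nhds (EisId_im1 hz0))
      have h2 : DifferentiableAt ℂ (fun z : ℂ => 1 - 1 / z) z :=
        (differentiableAt_const _).sub
          ((differentiableAt_const _).div differentiableAt_id (EisId_ne hz0))
      exact (h1.comp z h2).differentiableWithinAt)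
    (by
      intro z hz
      have hz0 : 0 < z.im := by linarith
      have hz1 : 0 < (z + 1).im := by
        rw [add_im, one_im, add_zero]
        exact hz0
      change EisId_S (1 - 1 / (z + 1)) = EisId_S (1 - 1 / z)
      rw [EisId_cusp hz1, EisId_cusp hz0, E4_cusp_per hz0, EisId_th2 hz0])
    (by
      intro z hz
      rw [zero_mul, Real.exp_zero, mul_one]
      exact hbd z hz.le)
  have hC' : 0 ≤ C' := by
    have h1 := (norm_nonneg _).trans (hk (3 * I) (by simp; norm_num))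
    by_contra hneg
    have h2 : C' * rexp (-(2 * π * (3 * I : ℂ).im)) < 0 :=
      mul_neg_of_neg_of_pos (not_le.1 hneg) (Real.exp_pos _)
    linarith
  have hT : ∀ τ : ℂ, 0 < τ.im → EisId_S τ * (EisId_S τ - k₀) = 0 := by
    refine const_inv (fun τ => EisId_S τ * (EisId_S τ - k₀)) ?_ ?_ ?_ ?_ ?_
    · exact EisId_diffOn.mul (EisId_diffOn.sub_const k₀)
    · intro τ hτ
      rw [EisId_T hτ]
    · intro τ hτ
      rw [EisId_inv hτ]
    · intro δ hδ
      have h1 : Filter.Tendsto (fun τ => EisId_S τ * (EisId_S τ - k₀))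
          (Filter.comap Complex.im Filter.atTop) (nhds 0) := by
        have h2 := EisId_tendsto.mul (EisId_tendsto.sub_const k₀)
        rw [zero_mul] at h2
        exact h2
      exact EisId_ev h1 hδ
    · intro δ hδ
      refine ⟨min (1 / 6) (δ / ((C + 2) * (C' + 1))), by positivity, fun τ hτ h1 => ?_⟩
      have h2 : τ.im < 1 / 6 := lt_of_lt_of_le h1 (min_le_left _ _)
      have h3 : τ.im < δ / ((C + 2) * (C' + 1)) := lt_of_lt_of_le h1 (min_le_right _ _)
      have hv : 0 < τ.im := hτ.1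
      obtain ⟨z, hz, hS⟩ := EisId_red hτ (by linarith)
      have h4 : 3 ≤ 1 / (2 * τ.im) := by
        rw [le_div_iff₀ (by linarith)]
        linarith
      have h5 : 3 ≤ z.im := h4.trans hz
      have h6 := hk z (by linarith)
      have h7 := hbd z (by linarith)
      have h8 : rexp (-(2 * π * z.im)) ≤ τ.im := by
        have hpi := Real.pi_gt_three
        have h9 := Real.add_one_le_exp (2 * π * z.im)
        have h10 : 2 * z.im ≤ rexp (2 * π * z.im) := by nlinarith
        have h11 : 1 / τ.im ≤ rexp (2 * π * z.im) := by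
          refine le_trans ?_ h10
          have h12 : 1 / τ.im = 2 * (1 / (2 * τ.im)) := by
            field_simp
          rw [h12]
          linarith
        rw [Real.exp_neg]
        calc (rexp (2 * π * z.im))⁻¹ ≤ (1 / τ.im)⁻¹ := inv_anti₀ (by positivity) h11
          _ = τ.im := by rw [one_div, inv_inv]
      change ‖EisId_S τ * (EisId_S τ - k₀)‖ ≤ δ
      rw [hS, norm_mul]
      have h9 : ‖EisId_S (1 - 1 / z) - k₀‖ ≤ (C' + 1) * τ.im := by
        refine h6.trans ?_
        have h10 : C' * rexp (-(2 * π * z.im)) ≤ C' * τ.im := mul_le_mul_of_nonneg_left h8 hC'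
        nlinarith
      calc ‖EisId_S (1 - 1 / z)‖ * ‖EisId_S (1 - 1 / z) - k₀‖
          ≤ (C + 2) * ((C' + 1) * τ.im) := mul_le_mul h7 h9 (norm_nonneg _) (by linarith)
        _ = (C + 2) * (C' + 1) * τ.im := by ring
        _ ≤ δ := by
          rw [lt_div_iff₀ (by positivity)] at h3
          linarith
  by_cases hk0 : k₀ = 0
  · have h1 := hT τ hτ
    rw [hk0, sub_zero] at h1
    exact mul_self_eq_zero.1 h1
  · obtain ⟨Y, hY⟩ := EisId_ev EisId_tendsto (half_pos (norm_pos_iff.2 hk0))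
    have hzero : ∀ w : ℂ, 0 < w.im → Y < w.im → EisId_S w = 0 := by
      intro w hw hwY
      rcases mul_eq_zero.1 (hT w hw) with h1 | h1
      · exact h1
      · exfalso
        have h2 := hY w hwY
        rw [sub_eq_zero.1 h1] at h2
        have h3 := norm_pos_iff.2 hk0
        linarith
    have hopen : IsOpen {τ : ℂ | 0 < τ.im} := isOpen_lt continuous_const Complex.continuous_im
    have hconn : IsPreconnected {τ : ℂ | 0 < τ.im} := (convex_halfSpace_im_gt 0).isPreconnected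
    have han : AnalyticOnNhd ℂ EisId_S {τ : ℂ | 0 < τ.im} := EisId_diffOn.analyticOnNhd hopen
    have hw0 : ((|Y| + 1 : ℝ) * I : ℂ).im = |Y| + 1 := by simp
    have hmem : ((|Y| + 1 : ℝ) * I : ℂ) ∈ {τ : ℂ | 0 < τ.im} := by
      rw [Set.mem_ofPred_eq, hw0]
      positivity
    have hev : ∀ᶠ w in nhds ((|Y| + 1 : ℝ) * I : ℂ), EisId_S w = 0 := by
      have h1 : {w : ℂ | max 0 Y < w.im} ∈ nhds ((|Y| + 1 : ℝ) * I : ℂ) := by
        refine (isOpen_lt continuous_const Complex.continuous_im).mem_nhds ?_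
        rw [Set.mem_ofPred_eq, hw0]
        refine max_lt (by positivity) ?_
        linarith [le_abs_self Y]
      exact Filter.mem_of_superset h1 fun w hw =>
        hzero w (lt_of_le_of_lt (le_max_left _ _) hw) (lt_of_le_of_lt (le_max_right _ _) hw)
    exact han.eqOn_zero_of_preconnected_of_eventuallyEq_zero hconn hmem hev hτ

theorem E4_eq {τ : ℂ} (hτ : 0 < τ.im) : E4 τ = 2 * jacobiTheta τ ^ 8 := by
  have h1 := EisId_zero hτ
  unfold EisId_S at h1
  have h2 : jacobiTheta τ ^ 8 ≠ 0 := pow_ne_zero _ (theta_ne hτ)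
  rw [sub_eq_zero, div_eq_iff h2] at h1
  exact h1

end Pool.Agent.Helper31.FI
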