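import Pool.Agent.Helper31.FI.ThNe

/-!
# FI-EE: estimate of `ep` near the cusp `1`

`‖ex x (1 - 1/z)‖ = exp (-π x im z / |z|²)`, `‖jacobiTheta (1 - 1/z)‖ = |z|^(1/2) ‖th2 z‖ ≥ (17/100)^(1/2) exp (-π im z/4)`.
`π x y/|z|² + π δ y ≥ 2 π √(x δ) y/|z|` and `y/|z| ≥ (17/100) / √((9/16)² + (17/100)²) > 1/(2π)` (`y/|z|` is increasing in `y`).
`ep_arg` : `-1/(1 - 1/ζ) = (1 - 1/(ζ - 1)) - 2`.
-/

set_option autoImplicit false

namespace Pool.Agent.Helper31.FI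

open Complex Real

private theorem EpEst_norm_ex (x : ℝ) (τ : ℂ) : ‖ex x τ‖ = rexp (-(π * x * τ.im)) := by
  unfold ex
  rw [Complex.norm_exp]
  congr 1
  simp

private theorem EpEst_im {z : ℂ} : (1 - 1 / z).im = z.im / ‖z‖ ^ 2 := by
  rw [one_div, Complex.sub_im, Complex.one_im, Complex.inv_im, Complex.normSq_eq_norm_sq]
  ring

private theorem EpEst_am {a b m y : ℝ} (ha : 0 ≤ a) (hb : 0 ≤ b) (hm : 0 < m) (hy : m ≤ 6 * y) :
    a * b ≤ π * a ^ 2 * (y / m ^ 2) + π * b ^ 2 * y := by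
  have hy0 : 0 < y := by linarith
  have hπ := Real.pi_gt_three
  have h1 : 0 ≤ (a / m - b) ^ 2 := sq_nonneg _
  have h2 : 2 * (a * b) / m ≤ a ^ 2 / m ^ 2 + b ^ 2 := by
    have e : (a / m - b) ^ 2 = a ^ 2 / m ^ 2 + b ^ 2 - 2 * (a * b) / m := by
      field_simp
      ring
    linarith
  have h3 : a * b ≤ π * y * (2 * (a * b) / m) := by
    have e : π * y * (2 * (a * b) / m) = (π * (2 * y) / m) * (a * b) := by
      field_simp
    rw [e]
    have h4 : 1 ≤ π * (2 * y) / m := by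
      rw [le_div_iff₀ hm]
      nlinarith
    exact le_mul_of_one_le_left (mul_nonneg ha hb) h4
  have h5 : π * y * (2 * (a * b) / m) ≤ π * y * (a ^ 2 / m ^ 2 + b ^ 2) :=
    mul_le_mul_of_nonneg_left h2 (by positivity)
  have e : π * y * (a ^ 2 / m ^ 2 + b ^ 2) = π * a ^ 2 * (y / m ^ 2) + π * b ^ 2 * y := by
    ring
  linarith

theorem ep_cusp : ∃ C : ℝ, 0 < C ∧ ∀ (x δ : ℝ) (z : ℂ), 0 ≤ x → 0 < δ → 17 / 100 ≤ z.im → |z.re| ≤ 9 / 16 →
    ‖ep x (1 - 1 / z)‖ ≤ C * rexp (-√(x * δ)) * rexp (π * (δ + 1 / 4) * z.im) := by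
  refine ⟨((17 / 100 : ℝ) ^ (1 / 2 : ℝ))⁻¹, by positivity, ?_⟩
  intro x δ z hx hδ hz hre
  have hy : 0 < z.im := by linarith
  have hyz : z.im ≤ ‖z‖ := (le_abs_self _).trans (Complex.abs_im_le_norm z)
  have hm : 0 < ‖z‖ := by linarith
  have hm6 : ‖z‖ ≤ 6 * z.im := by
    have h1 : ‖z‖ ^ 2 ≤ (6 * z.im) ^ 2 := by
      rw [← Complex.normSq_eq_norm_sq, Complex.normSq_apply]
      have h2 : z.re * z.re ≤ 81 / 256 := by
        rw [← abs_mul_abs_self]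
        nlinarith [abs_nonneg z.re]
      nlinarith
    exact le_of_sq_le_sq h1 (by positivity)
  have hth : (17 / 100 : ℝ) ^ (1 / 2 : ℝ) * rexp (-(π * z.im / 4)) ≤ ‖jacobiTheta (1 - 1 / z)‖ := by
    rw [theta_cusp hy, norm_mul]
    have h1 : ‖(-I * z) ^ (1 / 2 : ℂ)‖ = ‖z‖ ^ (1 / 2 : ℝ) := by
      have h2 : (1 / 2 : ℂ) = ((1 / 2 : ℝ) : ℂ) := by push_cast; rfl
      rw [h2, Complex.norm_cpow_real]
      congr 1
      rw [norm_mul, norm_neg, Complex.norm_I, one_mul]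
    rw [h1]
    refine mul_le_mul (Real.rpow_le_rpow (by norm_num) (hz.trans hyz) (by norm_num)) (th2_low hz)
      (Real.exp_pos _).le (by positivity)
  have hex : ‖ex x (1 - 1 / z)‖ ≤ rexp (-√(x * δ)) * rexp (π * δ * z.im) := by
    rw [EpEst_norm_ex, EpEst_im, ← Real.exp_add]
    apply Real.exp_le_exp.mpr
    rw [Real.sqrt_mul hx]
    have h1 := EpEst_am (Real.sqrt_nonneg x) (Real.sqrt_nonneg δ) hm hm6
    rw [Real.sq_sqrt hx, Real.sq_sqrt hδ.le] at h1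
    linarith
  unfold ep
  rw [norm_div]
  have hpos : 0 < (17 / 100 : ℝ) ^ (1 / 2 : ℝ) * rexp (-(π * z.im / 4)) := by positivity
  calc ‖ex x (1 - 1 / z)‖ / ‖jacobiTheta (1 - 1 / z)‖
      ≤ (rexp (-√(x * δ)) * rexp (π * δ * z.im)) /
        ((17 / 100 : ℝ) ^ (1 / 2 : ℝ) * rexp (-(π * z.im / 4))) :=
        div_le_div₀ (by positivity) hex hpos hth
    _ = ((17 / 100 : ℝ) ^ (1 / 2 : ℝ))⁻¹ * rexp (-√(x * δ)) *
        rexp (π * (δ + 1 / 4) * z.im) := by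
        have e : π * (δ + 1 / 4) * z.im = π * δ * z.im + π * z.im / 4 := by ring
        rw [e, Real.exp_add, Real.exp_neg (π * z.im / 4)]
        have h1 : rexp (π * z.im / 4) ≠ 0 := (Real.exp_pos _).ne'
        field_simp

theorem arg_id {z : ℂ} (hz : 0 < z.im) : -1 / (1 - 1 / z) = (1 - 1 / (z - 1)) - 2 := by
  have h0 : z ≠ 0 := by
    rintro rfl
    simp at hz
  have h1 : z - 1 ≠ 0 := by
    intro h
    have h2 : z = 1 := sub_eq_zero.mp h
    rw [h2] at hz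
    simp at hz
  have h3 : (1 - 1 / z) = (z - 1) / z := by
    field_simp
  rw [h3]
  field_simp
  ring

theorem norm_ep_sub_two (x : ℝ) {τ : ℂ} (hτ : 0 < τ.im) : ‖ep x (τ - 2)‖ = ‖ep x τ‖ := by
  unfold ep
  rw [norm_div, norm_div, EpEst_norm_ex, EpEst_norm_ex]
  have h1 : jacobiTheta τ = jacobiTheta (τ - 2) := by
    have h2 := jacobiTheta_two_add (τ - 2)
    have h3 : (2 : ℂ) + (τ - 2) = τ := by ring
    rwa [h3] at h2
  rw [← h1]
  congr 3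
  simp

theorem ep_conj (x : ℝ) {τ : ℂ} (hτ : 0 < τ.im) : ep x (sr τ) = (starRingEnd ℂ) (ep x τ) := by
  unfold ep
  rw [map_div₀, theta_conj hτ]
  congr 1
  unfold ex sr
  rw [← Complex.exp_conj]
  congr 1
  rw [map_mul, map_mul, map_mul, Complex.conj_ofReal, Complex.conj_I, Complex.conj_ofReal]
  ring

end Pool.Agent.Helper31.FI
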