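import Pool.Agent.Helper31.FI.Psi
import Pool.Agent.Helper31.FI.CRel

/-!
# FI-GW: growth on the whole half plane

On `FD`, for `m` with `Hm m w`: `(im w)^(1/4) ‖F w‖ ≤ C m^(1/4)`.  If `im w ≥ 1/10`: second bound and `im w ≤ m` (pair `(0,1)`).  If
`im w < 1/10` and `re w ≥ 0`: `z = 1/(1-w)`, `im z = im w/|1-w|² ≤ m` (pair `(1,-1)`), `im z ≥ 1/(v (1+v²)) ≥ 2`, `0 ≤ re z ≤ 1/2`,
`(im w)^(1/4) ‖F w‖ = (im z)^(1/4) ‖hat F z‖`.  If `re w < 0` the same with `w + 2`, `z = -1/(w+1)`, `-1/2 ≤ re z ≤ 0`.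
Then `red_ind` for the property: for all `m` with `Hm m τ`, `(im τ)^(1/4) ‖F τ‖ ≤ (C + 2 cn τ) m^(1/4)`.  Step: `τ₁ = -1/τ - 2K`,
`F (-1/τ) = F τ₁`, `|(-I τ)^(-1/2)| = |τ|^(-1/2)`, `inv`, `cn_step`, `Hm_S`, `Hm_T`.
Finally `m = max (im τ) (1/im τ)` (`Hm_max`), `cn_le`, and an even shift for general `re τ`; for `im τ ≥ 1` use the second bound.
-/

set_option autoImplicit false

namespace Pool.Agent.Helper31.FI

open Complex Real

private theorem Growth_ne {τ : ℂ} (hτ : 0 < τ.im) : τ ≠ 0 := by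
  rintro rfl
  simp at hτ

private theorem Growth_cpow {z : ℂ} (hz : 0 < z.im) :
    ‖(-I * z) ^ (-(1 / 2) : ℂ)‖ = ‖z‖ ^ (-(1 / 2) : ℝ) := by
  have hne : -I * z ≠ 0 := mul_ne_zero (neg_ne_zero.2 I_ne_zero) (Growth_ne hz)
  rw [Complex.norm_cpow_of_ne_zero hne]
  simp

private theorem Growth_ex {x : ℝ} (hx : 0 ≤ x) {τ : ℂ} (hτ : 0 < τ.im) : ‖ex x τ‖ ≤ 1 := by
  unfold ex
  rw [Complex.norm_exp, Real.exp_le_one_iff]
  have : (π * I * x * τ).re = -(π * x * τ.im) := by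
    simp
  rw [this]
  have := Real.pi_pos
  have h2 : 0 ≤ π * x * τ.im := by positivity
  linarith

private theorem Growth_im {τ : ℂ} (K : ℤ) : (-1 / τ + 2 * K).im = τ.im / ‖τ‖ ^ 2 := by
  have h1 : (2 * (K : ℂ)).im = 0 := by simp
  have h2 : (-1 / τ).im = τ.im / ‖τ‖ ^ 2 := by
    rw [neg_div, Complex.neg_im, one_div, Complex.inv_im, Complex.normSq_eq_norm_sq]
    ring
  rw [Complex.add_im, h1, h2, add_zero]

private theorem Growth_per {F : ℂ → ℂ} (per : ∀ τ : ℂ, 0 < τ.im → F (τ + 2) = F τ) {τ : ℂ}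
    (hτ : 0 < τ.im) (K : ℤ) : F (τ + 2 * K) = F τ := by
  have him : ∀ K : ℤ, (τ + 2 * (K : ℂ)).im = τ.im := by
    intro K
    simp
  induction K using Int.induction_on with
  | zero => simp
  | succ i ih =>
    have := per (τ + 2 * ((i : ℤ) : ℂ)) (by rw [him]; exact hτ)
    have he : τ + 2 * (((i : ℤ) + 1 : ℤ) : ℂ) = τ + 2 * ((i : ℤ) : ℂ) + 2 := by push_cast; ring
    rw [he, this, ih]
  | pred i ih =>
    have := per (τ + 2 * ((-(i : ℤ) - 1 : ℤ) : ℂ)) (by rw [him]; exact hτ)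
    have he : τ + 2 * ((-(i : ℤ) - 1 : ℤ) : ℂ) + 2 = τ + 2 * ((-(i : ℤ) : ℤ) : ℂ) := by
      push_cast; ring
    rw [← this, he, ih]

/-- `(im τ)^(1/4) ‖τ‖^(-1/2) = (im τ / ‖τ‖²)^(1/4)` -/
private theorem Growth_pow {y n : ℝ} (hy : 0 ≤ y) (hn : 0 < n) :
    y ^ (1 / 4 : ℝ) * n ^ (-(1 / 2) : ℝ) = (y / n ^ 2) ^ (1 / 4 : ℝ) := by
  have h : (n ^ 2) ^ (1 / 4 : ℝ) = n ^ (1 / 2 : ℝ) := by
    rw [← Real.rpow_natCast n 2, ← Real.rpow_mul hn.le]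
    norm_num
  rw [Real.div_rpow hy (by positivity), h, Real.rpow_neg hn.le]
  exact (div_eq_mul_inv _ _).symm

private theorem Growth_hm_im {m : ℝ} {τ : ℂ} (h : Hm m τ) : τ.im ≤ m := by
  have := h.2 0 1 (by simp)
  simpa using this

private theorem Growth_FD {F : ℂ → ℂ} (per : ∀ τ : ℂ, 0 < τ.im → F (τ + 2) = F τ) {C1 C2 : ℝ}
    (h1 : ∀ z : ℂ, 2 ≤ z.im → |z.re| ≤ 1 / 2 → ‖hat F z‖ ≤ C1)
    (h2 : ∀ τ : ℂ, 1 / 10 ≤ τ.im → |τ.re| ≤ 1 → ‖F τ‖ ≤ C2) {w : ℂ} (hw : w ∈ FD) {m : ℝ}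
    (hm : Hm m w) : w.im ^ (1 / 4 : ℝ) * ‖F w‖ ≤ (|C1| + |C2|) * m ^ (1 / 4 : ℝ) := by
  obtain ⟨hv, ha, hn⟩ := hw
  have hmi := Growth_hm_im hm
  have hm0 : 0 ≤ m := hv.le.trans hmi
  have hmp : 0 ≤ m ^ (1 / 4 : ℝ) := Real.rpow_nonneg hm0 _
  have a1 := abs_nonneg C1
  have a2 := abs_nonneg C2
  rcases le_or_gt (1 / 10) w.im with h | h
  · have e1 := (h2 w h ha).trans (le_abs_self C2)
    have e2 : w.im ^ (1 / 4 : ℝ) ≤ m ^ (1 / 4 : ℝ) := Real.rpow_le_rpow hv.le hmi (by norm_num)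
    calc w.im ^ (1 / 4 : ℝ) * ‖F w‖ ≤ m ^ (1 / 4 : ℝ) * |C2| :=
          mul_le_mul e2 e1 (norm_nonneg _) hmp
      _ ≤ (|C1| + |C2|) * m ^ (1 / 4 : ℝ) := by nlinarith
  · -- the cusps
    obtain ⟨s, hs1, hs2, k, hk⟩ : ∃ s : ℤ, (s : ℝ) ^ 2 = 1 ∧ 0 ≤ s * w.re ∧
        ∃ k : ℤ, (1 : ℂ) - s = 2 * k := by
      rcases le_total 0 w.re with h0 | h0
      · exact ⟨1, by norm_num, by simpa using h0, 0, by norm_num⟩
      · exact ⟨-1, by norm_num, by simpa using h0, 1, by norm_num⟩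
    set a := w.re with hadef
    set v := w.im with hvdef
    have hns : 1 ≤ a ^ 2 + v ^ 2 := by
      have h2 : (1 : ℝ) ≤ ‖w‖ ^ 2 := by nlinarith
      rw [← Complex.normSq_eq_norm_sq, Complex.normSq_apply] at h2
      nlinarith
    have ha2 : a ^ 2 ≤ 1 := by
      have := sq_le_sq' (abs_le.1 ha).1 (abs_le.1 ha).2
      linarith
    set t : ℝ := s * a with ht
    have ht2 : t ^ 2 = a ^ 2 := by rw [ht, mul_pow, hs1, one_mul]
    have ht1 : t ≤ 1 := by nlinarith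
    have htv : 1 - t ≤ v ^ 2 := by nlinarith
    have hre : ((s : ℂ) - w).re = s - a := by simp [hadef]
    have him : ((s : ℂ) - w).im = -v := by simp [hvdef]
    have hsa : ((s : ℝ) - a) ^ 2 = (1 - t) ^ 2 := by
      have : (s : ℝ) * (1 - t) = s - a := by
        rw [ht]
        have : (s : ℝ) * (1 - s * a) = s - (s : ℝ) ^ 2 * a := by ring
        rw [this, hs1, one_mul]
      rw [← this, mul_pow, hs1, one_mul]
    have hN : Complex.normSq ((s : ℂ) - w) = (1 - t) ^ 2 + v ^ 2 := by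
      rw [Complex.normSq_apply, hre, him, ← hsa]
      ring
    have hN0 : 0 < (1 - t) ^ 2 + v ^ 2 := by positivity
    set z : ℂ := 1 / ((s : ℂ) - w) with hz
    have e1 : z.im = v / ((1 - t) ^ 2 + v ^ 2) := by
      rw [hz, one_div, Complex.inv_im, him, hN, neg_neg]
    have e2 : z.re = (s - a) / ((1 - t) ^ 2 + v ^ 2) := by
      rw [hz, one_div, Complex.inv_re, hre, hN]
    have hz2 : 2 ≤ z.im := by
      rw [e1, le_div_iff₀ hN0]
      have hv2 : v ^ 2 ≤ v / 10 := by nlinarith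
      have h3 : (1 - t) ^ 2 ≤ v ^ 2 * 1 := by
        have : (1 - t) ^ 2 ≤ (v ^ 2) ^ 2 := pow_le_pow_left₀ (by linarith) htv 2
        nlinarith
      nlinarith
    have hzr : |z.re| ≤ 1 / 2 := by
      rw [e2, abs_div, abs_of_pos hN0, div_le_iff₀ hN0]
      have h3 : |(s : ℝ) - a| = 1 - t := by
        rw [← Real.sqrt_sq_eq_abs, hsa, Real.sqrt_sq (by linarith)]
      rw [h3]
      nlinarith
    have hz0 : 0 < z.im := by linarith
    have hzn : 0 < ‖z‖ := norm_pos_iff.2 (Growth_ne hz0)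
    have hzz : z ≠ 0 := Growth_ne hz0
    have hFw : F (1 - 1 / z) = F w := by
      have : 1 - 1 / z = w + 2 * k := by
        rw [hz, one_div_one_div, ← hk]
        ring
      rw [this]
      exact Growth_per per hv k
    have hhat : ‖hat F z‖ = ‖z‖ ^ (-(1 / 2) : ℝ) * ‖F w‖ := by
      unfold hat
      rw [norm_mul, Growth_cpow hz0, hFw]
    have hzv : z.im / ‖z‖ ^ 2 = v := by
      rw [e1, ← Complex.normSq_eq_norm_sq, hz, one_div, Complex.normSq_inv, hN]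
      field_simp
    have hFn : v ^ (1 / 4 : ℝ) * ‖F w‖ = z.im ^ (1 / 4 : ℝ) * ‖hat F z‖ := by
      rw [hhat, ← mul_assoc, Growth_pow hz0.le hzn, hzv]
    have hzm : z.im ≤ m := by
      have := hm.2 1 (-s) (by simp)
      have e3 : ((1 : ℤ) : ℂ) * w + ((-s : ℤ) : ℂ) = -((s : ℂ) - w) := by push_cast; ring
      rw [e3, norm_neg, ← Complex.normSq_eq_norm_sq, hN] at this
      rw [e1]
      exact this
    rw [hFn]
    have e3 := (h1 z hz2 hzr).trans (le_abs_self C1)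
    have e4 : z.im ^ (1 / 4 : ℝ) ≤ m ^ (1 / 4 : ℝ) := Real.rpow_le_rpow hz0.le hzm (by norm_num)
    calc z.im ^ (1 / 4 : ℝ) * ‖hat F z‖ ≤ m ^ (1 / 4 : ℝ) * |C1| :=
          mul_le_mul e4 e3 (norm_nonneg _) hmp
      _ ≤ (|C1| + |C2|) * m ^ (1 / 4 : ℝ) := by nlinarith

theorem growth {x : ℝ} (hx : 0 ≤ x) (F : ℂ → ℂ) (per : ∀ τ : ℂ, 0 < τ.im → F (τ + 2) = F τ)
    (inv : ∀ τ : ℂ, 0 < τ.im → F τ + (-I * τ) ^ (-(1 / 2) : ℂ) * F (-1 / τ) =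
      ex x τ + (-I * τ) ^ (-(1 / 2) : ℂ) * ex x (-1 / τ))
    (h1 : ∃ C : ℝ, ∀ z : ℂ, 2 ≤ z.im → |z.re| ≤ 1 / 2 → ‖hat F z‖ ≤ C)
    (h2 : ∃ C : ℝ, ∀ τ : ℂ, 1 / 10 ≤ τ.im → |τ.re| ≤ 1 → ‖F τ‖ ≤ C) :
    ∃ C A : ℝ, ∀ τ : ℂ, 0 < τ.im → ‖F τ‖ ≤ C * (1 + 1 / τ.im) ^ A := by
  obtain ⟨C1, h1⟩ := h1
  obtain ⟨C2, h2⟩ := h2
  set C : ℝ := |C1| + |C2| with hC
  have hC0 : 0 ≤ C := by positivity
  have hC2 : C2 ≤ C := (le_abs_self C2).trans (by have := abs_nonneg C1; linarith)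
  -- rounding
  have hred : ∀ τ : ℂ, |(τ - 2 * (round (τ.re / 2) : ℤ)).re| ≤ 1 := by
    intro τ
    have h := abs_sub_round (τ.re / 2)
    have he : (τ - 2 * ((round (τ.re / 2) : ℤ) : ℂ)).re = 2 * (τ.re / 2 - round (τ.re / 2)) := by
      simp
      ring
    rw [he, abs_mul, abs_of_pos (by norm_num : (0 : ℝ) < 2)]
    linarith
  have key : ∀ τ : ℂ, 0 < τ.im → |τ.re| ≤ 1 → ∀ m, Hm m τ →
      τ.im ^ (1 / 4 : ℝ) * ‖F τ‖ ≤ (C + 2 * cn τ) * m ^ (1 / 4 : ℝ) := by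
    refine red_ind _ ?_ ?_
    · intro τ hτ m hm
      refine (Growth_FD per h1 h2 hτ hm).trans ?_
      have hmp : 0 ≤ m ^ (1 / 4 : ℝ) := Real.rpow_nonneg (hτ.1.le.trans (Growth_hm_im hm)) _
      refine mul_le_mul_of_nonneg_right ?_ hmp
      have : (0 : ℝ) ≤ cn τ := Nat.cast_nonneg _
      linarith
    · intro τ hτ hr hn hK m hm
      set K : ℤ := round ((-1 / τ).re / 2) with hKdef
      have hτ0 : 0 < ‖τ‖ := norm_pos_iff.2 (Growth_ne hτ)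
      have hs : -1 / τ - 2 * (K : ℂ) = -1 / τ + 2 * ((-K : ℤ) : ℂ) := by push_cast; ring
      have h3 := hK K (hred _)
      have hmS := Hm_S hm
      have hmT : Hm m (-1 / τ - 2 * K) := by
        rw [hs]
        exact Hm_T hmS (-K)
      have h4 := h3 m hmT
      have him : (-1 / τ - 2 * (K : ℂ)).im = τ.im / ‖τ‖ ^ 2 := by
        rw [hs]
        exact Growth_im _
      have him0 : (-1 / τ).im = τ.im / ‖τ‖ ^ 2 := by
        have := Growth_im (τ := τ) 0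
        simpa using this
      have himp : 0 < (-1 / τ).im := by
        rw [him0]
        positivity
      have hF : F (-1 / τ - 2 * K) = F (-1 / τ) := by
        rw [hs]
        exact Growth_per per himp _
      rw [hF, him] at h4
      have hcn : (cn (-1 / τ - 2 * K) : ℝ) + 1 ≤ cn τ := by
        exact_mod_cast cn_step hτ hn K
      have hm0 : 0 ≤ m := hτ.le.trans (Growth_hm_im hm)
      have hmp : 0 ≤ m ^ (1 / 4 : ℝ) := Real.rpow_nonneg hm0 _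
      have e1 : τ.im ^ (1 / 4 : ℝ) ≤ m ^ (1 / 4 : ℝ) :=
        Real.rpow_le_rpow hτ.le (Growth_hm_im hm) (by norm_num)
      have e2 : (τ.im / ‖τ‖ ^ 2) ^ (1 / 4 : ℝ) ≤ m ^ (1 / 4 : ℝ) := by
        refine Real.rpow_le_rpow (by positivity) ?_ (by norm_num)
        rw [← him0]
        exact Growth_hm_im hmS
      have e3 : F τ = ex x τ + (-I * τ) ^ (-(1 / 2) : ℂ) * ex x (-1 / τ) -
          (-I * τ) ^ (-(1 / 2) : ℂ) * F (-1 / τ) := by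
        rw [← inv τ hτ]
        ring
      have e4 : ‖F τ‖ ≤ 1 + ‖τ‖ ^ (-(1 / 2) : ℝ) + ‖τ‖ ^ (-(1 / 2) : ℝ) * ‖F (-1 / τ)‖ := by
        rw [e3]
        refine (norm_sub_le _ _).trans ?_
        rw [norm_mul, Growth_cpow hτ]
        refine add_le_add ?_ le_rfl
        refine (norm_add_le _ _).trans ?_
        rw [norm_mul, Growth_cpow hτ]
        refine add_le_add (Growth_ex hx hτ) ?_
        have := Growth_ex hx himp
        have h5 : 0 ≤ ‖τ‖ ^ (-(1 / 2) : ℝ) := Real.rpow_nonneg (norm_nonneg _) _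
        nlinarith
      have hy : 0 ≤ τ.im ^ (1 / 4 : ℝ) := Real.rpow_nonneg hτ.le _
      have e5 := Growth_pow hτ.le hτ0
      calc τ.im ^ (1 / 4 : ℝ) * ‖F τ‖
          ≤ τ.im ^ (1 / 4 : ℝ) * (1 + ‖τ‖ ^ (-(1 / 2) : ℝ) +
              ‖τ‖ ^ (-(1 / 2) : ℝ) * ‖F (-1 / τ)‖) := mul_le_mul_of_nonneg_left e4 hy
        _ = τ.im ^ (1 / 4 : ℝ) + τ.im ^ (1 / 4 : ℝ) * ‖τ‖ ^ (-(1 / 2) : ℝ) +
              (τ.im ^ (1 / 4 : ℝ) * ‖τ‖ ^ (-(1 / 2) : ℝ)) * ‖F (-1 / τ)‖ := by ring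
        _ = τ.im ^ (1 / 4 : ℝ) + (τ.im / ‖τ‖ ^ 2) ^ (1 / 4 : ℝ) +
              (τ.im / ‖τ‖ ^ 2) ^ (1 / 4 : ℝ) * ‖F (-1 / τ)‖ := by rw [e5]
        _ ≤ m ^ (1 / 4 : ℝ) + m ^ (1 / 4 : ℝ) +
              (C + 2 * cn (-1 / τ - 2 * K)) * m ^ (1 / 4 : ℝ) := add_le_add (add_le_add e1 e2) h4
        _ = (C + 2 * (cn (-1 / τ - 2 * K) + 1)) * m ^ (1 / 4 : ℝ) := by ring
        _ ≤ (C + 2 * cn τ) * m ^ (1 / 4 : ℝ) := by
            refine mul_le_mul_of_nonneg_right ?_ hmp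
            linarith
  refine ⟨C + 12, 2, fun τ hτ => ?_⟩
  set k : ℤ := round (τ.re / 2) with hk
  have hs : τ - 2 * (k : ℂ) = τ + 2 * ((-k : ℤ) : ℂ) := by push_cast; ring
  have him : (τ - 2 * (k : ℂ)).im = τ.im := by simp
  have hF : F (τ - 2 * k) = F τ := by
    rw [hs]
    exact Growth_per per hτ _
  have hr := hred τ
  rw [← hk] at hr
  set y : ℝ := 1 / τ.im with hy
  have hy0 : 0 < y := by positivity
  have hbase : 1 ≤ (1 + y) ^ (2 : ℝ) := by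
    refine Real.one_le_rpow (by linarith) (by norm_num)
  rcases le_or_gt 1 τ.im with h | h
  · have h3 := h2 (τ - 2 * k) (by rw [him]; linarith) hr
    rw [hF] at h3
    calc ‖F τ‖ ≤ C2 := h3
      _ ≤ (C + 12) * 1 := by linarith
      _ ≤ (C + 12) * (1 + y) ^ (2 : ℝ) := mul_le_mul_of_nonneg_left hbase (by linarith)
  · have h3 := key (τ - 2 * k) (by rw [him]; exact hτ) hr _ (Hm_max (by rw [him]; exact hτ))
    rw [hF, him] at h3
    have hmax : max τ.im (1 / τ.im) = y := by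
      rw [max_eq_right]
      rw [le_div_iff₀ hτ]
      nlinarith
    rw [hmax] at h3
    have hcn := cn_le (τ := τ - 2 * k) (by rw [him]; exact hτ)
    rw [him] at hcn
    have hcn' : (cn (τ - 2 * k) : ℝ) ≤ 6 * y + 3 := by
      refine hcn.trans (le_of_eq ?_)
      rw [hy]
      ring
    have e1 : τ.im ^ (1 / 4 : ℝ) * y ^ (1 / 4 : ℝ) = 1 := by
      rw [← Real.mul_rpow hτ.le hy0.le, hy, mul_one_div_cancel hτ.ne', Real.one_rpow]
    have e2 : ‖F τ‖ = y ^ (1 / 4 : ℝ) * (τ.im ^ (1 / 4 : ℝ) * ‖F τ‖) := by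
      rw [← mul_assoc, mul_comm (y ^ (1 / 4 : ℝ)), e1, one_mul]
    have hyp : 0 ≤ y ^ (1 / 4 : ℝ) := Real.rpow_nonneg hy0.le _
    have e3 : y ^ (1 / 4 : ℝ) * y ^ (1 / 4 : ℝ) ≤ 1 + y := by
      rw [← Real.rpow_add hy0]
      have h5 : y ^ (1 / 4 + 1 / 4 : ℝ) ≤ (1 + y) ^ (1 / 4 + 1 / 4 : ℝ) :=
        Real.rpow_le_rpow hy0.le (by linarith) (by norm_num)
      refine h5.trans ?_
      calc (1 + y) ^ (1 / 4 + 1 / 4 : ℝ) ≤ (1 + y) ^ (1 : ℝ) :=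
            Real.rpow_le_rpow_of_exponent_le (by linarith) (by norm_num)
        _ = 1 + y := Real.rpow_one _
    have hcn0 : (0 : ℝ) ≤ cn (τ - 2 * k) := Nat.cast_nonneg _
    have e6 : C + 2 * (cn (τ - 2 * k) : ℝ) ≤ (C + 12) * (1 + y) := by nlinarith
    calc ‖F τ‖ = y ^ (1 / 4 : ℝ) * (τ.im ^ (1 / 4 : ℝ) * ‖F τ‖) := e2
      _ ≤ y ^ (1 / 4 : ℝ) * ((C + 2 * cn (τ - 2 * k)) * y ^ (1 / 4 : ℝ)) :=
          mul_le_mul_of_nonneg_left h3 hyp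
      _ = (C + 2 * cn (τ - 2 * k)) * (y ^ (1 / 4 : ℝ) * y ^ (1 / 4 : ℝ)) := by ring
      _ ≤ (C + 2 * cn (τ - 2 * k)) * (1 + y) := mul_le_mul_of_nonneg_left e3 (by linarith)
      _ ≤ ((C + 12) * (1 + y)) * (1 + y) := mul_le_mul_of_nonneg_right e6 (by linarith)
      _ = (C + 12) * (1 + y) ^ (2 : ℝ) := by
          rw [Real.rpow_two]
          ring

end Pool.Agent.Helper31.FI
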