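import Pool.Agent.Helper31.FI.FOne
import Pool.Agent.Helper31.FI.Growth

/-!
# FI-EX: existence of the generating function

`F` from `f_one`, `growth`; symmetrize: `(F τ + conj (F (sr τ)))/2`.  `sr (τ + 2) = sr τ - 2`, `-1/sr τ = sr (-1/τ)`,
`-I * sr τ = conj (-I * τ)` has positive real part (so `conj` commutes with the power), `ex x (sr τ) = conj (ex x τ)`.
-/

set_option autoImplicit false

namespace Pool.Agent.Helper31.FI

open Complex Real

theorem ExGen_sr_im (τ : ℂ) : (sr τ).im = τ.im := by simp [sr]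

theorem ExGen_sr_sr (τ : ℂ) : sr (sr τ) = τ := by simp [sr]

theorem ExGen_ex (x : ℝ) (τ : ℂ) : ex x (sr τ) = (starRingEnd ℂ) (ex x τ) := by
  unfold ex sr
  rw [← Complex.exp_conj]
  congr 1
  simp only [map_mul, Complex.conj_ofReal, Complex.conj_I]
  ring

theorem ExGen_neg_one_div (τ : ℂ) : -1 / sr τ = sr (-1 / τ) := by
  unfold sr
  rw [map_div₀, map_neg, map_one, div_neg]

theorem ExGen_pow {τ : ℂ} (h : 0 < τ.im) :
    (-I * sr τ) ^ (-(1 / 2) : ℂ) = (starRingEnd ℂ) ((-I * τ) ^ (-(1 / 2) : ℂ)) := by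
  have h1 : -I * sr τ = (starRingEnd ℂ) (-I * τ) := by
    unfold sr
    rw [map_mul, map_neg, Complex.conj_I]
    ring
  have h2 : (-I * τ).arg ≠ π := by
    intro h3
    rw [Complex.arg_eq_pi_iff] at h3
    have : (-I * τ).re = τ.im := by simp
    rw [this] at h3
    linarith [h3.1]
  rw [h1, Complex.conj_cpow _ _ h2]
  congr 2
  rw [map_neg, map_div₀, map_one, map_ofNat]

theorem ExGen_ana {F : ℂ → ℂ} (ana : DifferentiableOn ℂ F {τ : ℂ | 0 < τ.im}) :
    DifferentiableOn ℂ (fun τ => (starRingEnd ℂ) (F (sr τ))) {τ : ℂ | 0 < τ.im} := by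
  intro τ hτ
  have hopen : IsOpen {τ : ℂ | 0 < τ.im} := isOpen_lt continuous_const Complex.continuous_im
  have h1 : DifferentiableAt ℂ F (sr τ) := by
    refine (ana (sr τ) ?_).differentiableAt (hopen.mem_nhds ?_)
    · show 0 < (sr τ).im
      rw [ExGen_sr_im]; exact hτ
    · show 0 < (sr τ).im
      rw [ExGen_sr_im]; exact hτ
  have h2 : DifferentiableAt ℂ (fun w => F (-w)) ((starRingEnd ℂ) τ) := by
    have h3 : DifferentiableAt ℂ (fun w : ℂ => -w) ((starRingEnd ℂ) τ) := differentiableAt_id.neg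
    have h4 : DifferentiableAt ℂ F ((fun w : ℂ => -w) ((starRingEnd ℂ) τ)) := h1
    exact h4.comp _ h3
  have h5 := h2.conj_conj
  rw [Complex.conj_conj] at h5
  exact h5.differentiableWithinAt

theorem exists_gen {x : ℝ} (hx : 0 ≤ x) : ∃ F : ℂ → ℂ, Gen x F := by
  obtain ⟨F, ana, per, inv, h1, h2⟩ := f_one hx
  obtain ⟨C, A, hg⟩ := growth hx F per inv h1 h2
  refine ⟨fun τ => (F τ + (starRingEnd ℂ) (F (sr τ))) / 2, ?_, ?_, ?_, ?_, C, A, ?_⟩
  · exact (ana.add (ExGen_ana ana)).div_const 2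
  · intro τ hτ
    have h3 : sr τ = sr (τ + 2) + 2 := by
      unfold sr
      rw [map_add, map_ofNat]
      ring
    have h4 : F (sr τ) = F (sr (τ + 2)) := by
      rw [h3]
      refine per _ ?_
      rw [ExGen_sr_im]
      simpa using hτ
    show (F (τ + 2) + (starRingEnd ℂ) (F (sr (τ + 2)))) / 2 = (F τ + (starRingEnd ℂ) (F (sr τ))) / 2
    rw [per τ hτ, h4]
  · intro τ hτ
    have h3 := inv τ hτ
    have h4 := inv (sr τ) (by rw [ExGen_sr_im]; exact hτ)
    rw [ExGen_neg_one_div, ExGen_ex, ExGen_ex, ExGen_pow hτ] at h4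
    have h5 := congrArg (starRingEnd ℂ) h4
    simp only [map_add, map_mul, Complex.conj_conj] at h5
    show (F τ + (starRingEnd ℂ) (F (sr τ))) / 2 + (-I * τ) ^ (-(1 / 2) : ℂ) *
      ((F (-1 / τ) + (starRingEnd ℂ) (F (sr (-1 / τ)))) / 2) = _
    linear_combination (1 / 2 : ℂ) * h3 + (1 / 2 : ℂ) * h5
  · intro τ hτ
    show (F (sr τ) + (starRingEnd ℂ) (F (sr (sr τ)))) / 2 =
      (starRingEnd ℂ) ((F τ + (starRingEnd ℂ) (F (sr τ))) / 2)
    rw [ExGen_sr_sr, map_div₀, map_add, Complex.conj_conj, map_ofNat, add_comm]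
  · intro τ hτ
    have h3 := hg τ hτ
    have h4 := hg (sr τ) (by rw [ExGen_sr_im]; exact hτ)
    rw [ExGen_sr_im] at h4
    show ‖(F τ + (starRingEnd ℂ) (F (sr τ))) / 2‖ ≤ _
    rw [norm_div, Complex.norm_ofNat]
    have h5 : ‖F τ + (starRingEnd ℂ) (F (sr τ))‖ ≤ ‖F τ‖ + ‖F (sr τ)‖ := by
      refine (norm_add_le _ _).trans ?_
      rw [RCLike.norm_conj]
    rw [div_le_iff₀ (by norm_num)]
    linarith

end Pool.Agent.Helper31.FI
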