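import Pool.Agent.Helper31.FI.GDefs

/-!
# FI-GR: derivative bound by the real part

For `0 < s < r`: with `R θ = Re h (a + s e^{iθ})` one has `h'(a) = (1/(π s)) ∫_0^{2π} R θ e^{-iθ} dθ` (expand `h` in a power
series, or: `∮ h (z)/(z-a)² = 2 π i h'(a)` and `∮ conj (h z) ...= 0`), so `‖h'(a)‖ ≤ 2 M/s`; let `s → r`.
Alternatively Borel-Caratheodory: `(h - h a)` has real part `≤ 2 M`, ..., any constant `≤ 4` is fine.
-/

set_option autoImplicit false

namespace Pool.Agent.Helper31.FI

open Complex Real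

theorem grad (h : ℂ → ℂ) (a : ℂ) (r M : ℝ) (hr : 0 < r) (hd : DifferentiableOn ℂ h (Metric.ball a r))
    (hM : ∀ z ∈ Metric.ball a r, |(h z).re| ≤ M) : ‖deriv h a‖ ≤ 4 * M / r := by
  have ha : a ∈ Metric.ball a r := Metric.mem_ball_self hr
  have hM0 : 0 ≤ M := (abs_nonneg _).trans (hM a ha)
  have key : ∀ M' : ℝ, M < M' → ‖deriv h a‖ ≤ 4 * M' / r := by
    intro M' hM'
    have hM'0 : 0 < M' := hM0.trans_lt hM'
    have hre : ∀ z ∈ Metric.ball a r, (h z - h a).re ≤ 2 * M := by
      intro z hz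
      have h1 := (abs_le.1 (hM z hz)).2
      have h2 := (abs_le.1 (hM a ha)).1
      rw [Complex.sub_re]
      linarith
    have hlt : ∀ z ∈ Metric.ball a r, ‖h z - h a‖ < ‖(4 * M' : ℂ) - (h z - h a)‖ := by
      intro z hz
      have h1 := hre z hz
      set u := h z - h a with hu
      have h2 : ‖u‖ ^ 2 < ‖(4 * M' : ℂ) - u‖ ^ 2 := by
        rw [← Complex.normSq_eq_norm_sq, ← Complex.normSq_eq_norm_sq, Complex.normSq_apply,
          Complex.normSq_apply]
        have e1 : ((4 * M' : ℂ) - u).re = 4 * M' - u.re := by simp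
        have e2 : ((4 * M' : ℂ) - u).im = - u.im := by simp
        rw [e1, e2]
        nlinarith
      exact lt_of_pow_lt_pow_left₀ 2 (norm_nonneg _) h2
    have hne : ∀ z ∈ Metric.ball a r, (4 * M' : ℂ) - (h z - h a) ≠ 0 := by
      intro z hz h0
      have h1 := hlt z hz
      rw [h0, norm_zero] at h1
      exact absurd h1 (not_lt.2 (norm_nonneg _))
    have hdu : DifferentiableOn ℂ (fun z => h z - h a) (Metric.ball a r) := hd.sub_const _
    have hdφ : DifferentiableOn ℂ (fun z => (h z - h a) / ((4 * M' : ℂ) - (h z - h a)))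
        (Metric.ball a r) := hdu.div (hdu.const_sub _) hne
    have hmaps : Set.MapsTo (fun z => (h z - h a) / ((4 * M' : ℂ) - (h z - h a)))
        (Metric.ball a r)
        (Metric.ball ((fun z => (h z - h a) / ((4 * M' : ℂ) - (h z - h a))) a) 1) := by
      intro z hz
      have h1 := hlt z hz
      have h2 : 0 < ‖(4 * M' : ℂ) - (h z - h a)‖ := (norm_nonneg _).trans_lt h1
      simp only [sub_self, zero_div, Metric.mem_ball, dist_zero_right, norm_div]
      rw [div_lt_one h2]
      exact h1
    have h3 := Complex.norm_deriv_le_div_of_mapsTo_ball hdφ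
      (hmaps.mono_right Metric.ball_subset_closedBall) hr
    have hha : DifferentiableAt ℂ h a := hd.differentiableAt (Metric.isOpen_ball.mem_nhds ha)
    have h4 : HasDerivAt (fun z => (h z - h a) / ((4 * M' : ℂ) - (h z - h a)))
        ((deriv h a * ((4 * M' : ℂ) - (h a - h a)) - (h a - h a) * (-deriv h a)) /
          ((4 * M' : ℂ) - (h a - h a)) ^ 2) a := by
      have h5 : HasDerivAt (fun z => h z - h a) (deriv h a) a := hha.hasDerivAt.sub_const _
      exact h5.fun_div (h5.const_sub (4 * M' : ℂ)) (hne a ha)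
    rw [h4.deriv] at h3
    have hM'c : (4 * M' : ℂ) ≠ 0 := by
      have : (M' : ℂ) ≠ 0 := Complex.ofReal_ne_zero.2 hM'0.ne'
      exact mul_ne_zero (by norm_num) this
    have h6 : (deriv h a * ((4 * M' : ℂ) - (h a - h a)) - (h a - h a) * (-deriv h a)) /
          ((4 * M' : ℂ) - (h a - h a)) ^ 2 = deriv h a / (4 * M' : ℂ) := by
      rw [sub_self, sub_zero, zero_mul, sub_zero]
      field_simp
    rw [h6, norm_div] at h3
    have h7 : ‖(4 * M' : ℂ)‖ = 4 * M' := by
      rw [norm_mul, Complex.norm_real, Real.norm_eq_abs, abs_of_pos hM'0]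
      norm_num
    rw [h7, div_le_div_iff₀ (by positivity) hr] at h3
    rw [le_div_iff₀ hr]
    linarith
  refine le_of_forall_pos_le_add fun ε hε => ?_
  have h1 := key (M + ε * r / 4) (by
    have : 0 < ε * r / 4 := by positivity
    linarith)
  have h2 : 4 * (M + ε * r / 4) / r = 4 * M / r + ε := by
    field_simp
  rw [h2] at h1
  exact h1

end Pool.Agent.Helper31.FI
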