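import Pool.Agent.Helper31.FI.ReF
import Pool.Agent.Helper31.FI.Grad

/-!
# FI-FC: `F / θ` near the cusp `1` and high up

`fcusp`: `f̂ ζ = f (1 - 1/ζ)`, `f = F/θ`, `Y = im z`.  For every `a` on the segment from `i Y` to `z` and every `ζ` in
`ball a (1/16)`: `-1/16 < re ζ < 9/16`, `im ζ > 17/100`.  If `re ζ ≤ 1/2`: `1 - 1/ζ ∈ D0c` (`cusp_mem`), `ref`,
`Re Qb ≤ ‖1 + Lam‖^β ≤ C exp (π β im ζ)` (`Lam_cusp_up`).  If `re ζ > 1/2`: `f_inv` at `1 - 1/ζ` and `arg_id`: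
`f̂ ζ = ep (1 - 1/ζ) + ep (-1/(1 - 1/ζ)) - f̂ (ζ - 1)` (`F`, `θ` have period `2`), `norm_ep_sub_two`, `ep_cusp` (for `ζ` and `ζ - 1`),
`ref` at `1 - 1/(ζ-1) ∈ D0c`.  So `|Re f̂| ≤ C e exp (π β Y)` on the ball, `grad` bounds `f̂'` at `a`; `f̂ (i Y)` is real, because
`1 - 1/(iY) = 1 + i/Y` and `sr (1 + i y) = (1 + i y) - 2`.  Mean value inequality on the segment (length `≤ 1/2`).
`fup`: the same in the variable `τ`: segment from `i v` to `w`, balls of radius `1/2` are in `{im > 1} ⊆ D0`, `Qb` is bounded by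
`Lam_inf`; `F (i v)/θ (i v)` is real.
-/

set_option autoImplicit false

namespace Pool.Agent.Helper31.FI

open Complex Real

private lemma FCusp_fdiff {x : ℝ} {F : ℂ → ℂ} (hF : Gen x F) {τ : ℂ} (hτ : 0 < τ.im) :
    DifferentiableAt ℂ (fun τ => F τ / jacobiTheta τ) τ := by
  have hopen : IsOpen {τ : ℂ | 0 < τ.im} := isOpen_lt continuous_const Complex.continuous_im
  have h1 : DifferentiableAt ℂ F τ := hF.ana.differentiableAt (hopen.mem_nhds hτ)
  exact h1.div (differentiableAt_jacobiTheta hτ) (theta_ne hτ)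

private lemma FCusp_im {ζ : ℂ} (h : 0 < ζ.im) : 0 < (1 - 1 / ζ).im := by
  have hne : ζ ≠ 0 := fun h0 => by rw [h0] at h; simp at h
  have h1 : (1 - 1 / ζ).im = ζ.im / Complex.normSq ζ := by
    rw [one_div, Complex.sub_im, Complex.one_im, Complex.inv_im]
    ring
  rw [h1]
  exact div_pos h (Complex.normSq_pos.2 hne)

private lemma FCusp_per {x : ℝ} {F : ℂ → ℂ} (hF : Gen x F) {τ : ℂ} (hτ : 0 < τ.im) :
    F (τ - 2) = F τ ∧ jacobiTheta (τ - 2) = jacobiTheta τ := by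
  constructor
  · have h1 := hF.per (τ - 2) (by simpa using hτ)
    rw [sub_add_cancel] at h1
    exact h1.symm
  · have h1 := jacobiTheta_two_add (τ - 2)
    rw [add_sub_cancel] at h1
    exact h1.symm

private lemma FCusp_one : ∃ C : ℝ, 0 < C ∧ ∀ (x δ : ℝ) (F : ℂ → ℂ) (ζ : ℂ), 0 ≤ x → 0 < δ →
    δ ≤ 1 / 2 → Gen x F → 17 / 100 ≤ ζ.im → |ζ.re| ≤ 1 / 2 →
    |(F (1 - 1 / ζ) / jacobiTheta (1 - 1 / ζ)).re| ≤
      C * rexp (-√(x * δ)) * rexp (π * (δ + 1 / 4) * ζ.im) := by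
  obtain ⟨C1, hC1, H1⟩ := ref
  obtain ⟨C2, hC2, H2⟩ := Lam_cusp_up
  refine ⟨C1 * (1 + C2), by positivity, fun x δ F ζ hx hδ hδ' hF h h' => ?_⟩
  have hD := cusp_mem h h'
  have h1 := H1 x δ F hx hδ hδ' hF _ hD
  set τ : ℂ := 1 - 1 / ζ with hτ
  have hβ0 : 0 ≤ 1 / 4 + δ := by linarith
  have hβ1 : 1 / 4 + δ ≤ 1 := by linarith
  have h2 : (Qb (1 / 4 + δ) τ).re ≤ ‖1 + Lam τ‖ ^ (1 / 4 + δ) :=
    (Complex.re_le_norm _).trans (norm_Qb _ hD).le
  have hexp1 : 1 ≤ rexp (π * ζ.im) := Real.one_le_exp (by have := Real.pi_pos; positivity)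
  have h3 : ‖1 + Lam τ‖ ≤ (1 + C2) * rexp (π * ζ.im) := by
    have h4 := H2 ζ h
    have h5 : ‖1 + Lam τ‖ ≤ 1 + ‖Lam τ‖ := by
      refine (norm_add_le _ _).trans ?_
      rw [norm_one]
    rw [← hτ] at h4
    nlinarith
  have h4 : ‖1 + Lam τ‖ ^ (1 / 4 + δ) ≤ (1 + C2) * rexp (π * (δ + 1 / 4) * ζ.im) := by
    calc ‖1 + Lam τ‖ ^ (1 / 4 + δ) ≤ ((1 + C2) * rexp (π * ζ.im)) ^ (1 / 4 + δ) :=
          Real.rpow_le_rpow (norm_nonneg _) h3 hβ0
      _ = (1 + C2) ^ (1 / 4 + δ) * rexp (π * (δ + 1 / 4) * ζ.im) := by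
          rw [Real.mul_rpow (by linarith) (Real.exp_pos _).le, ← Real.exp_mul]
          congr 2
          ring
      _ ≤ (1 + C2) * rexp (π * (δ + 1 / 4) * ζ.im) := by
          apply mul_le_mul_of_nonneg_right _ (Real.exp_pos _).le
          calc (1 + C2) ^ (1 / 4 + δ) ≤ (1 + C2) ^ (1 : ℝ) :=
                Real.rpow_le_rpow_of_exponent_le (by linarith) hβ1
            _ = 1 + C2 := Real.rpow_one _
  refine h1.trans ?_
  have h5 : 0 ≤ C1 * rexp (-√(x * δ)) := by positivity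
  calc C1 * rexp (-√(x * δ)) * (Qb (1 / 4 + δ) τ).re
      ≤ C1 * rexp (-√(x * δ)) * ((1 + C2) * rexp (π * (δ + 1 / 4) * ζ.im)) :=
        mul_le_mul_of_nonneg_left (h2.trans h4) h5
    _ = _ := by ring

private lemma FCusp_re : ∃ C : ℝ, 0 < C ∧ ∀ (x δ : ℝ) (F : ℂ → ℂ) (ζ : ℂ), 0 ≤ x → 0 < δ →
    δ ≤ 1 / 2 → Gen x F → 17 / 100 ≤ ζ.im → -(1 / 2) ≤ ζ.re → ζ.re ≤ 9 / 16 →
    |(F (1 - 1 / ζ) / jacobiTheta (1 - 1 / ζ)).re| ≤
      C * rexp (-√(x * δ)) * rexp (π * (δ + 1 / 4) * ζ.im) := by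
  obtain ⟨C1, hC1, H1⟩ := FCusp_one
  obtain ⟨C2, hC2, H2⟩ := ep_cusp
  refine ⟨C1 + 2 * C2, by positivity, fun x δ F ζ hx hδ hδ' hF h h0 h' => ?_⟩
  set E : ℝ := rexp (-√(x * δ)) * rexp (π * (δ + 1 / 4) * ζ.im) with hE
  have hE0 : 0 < E := by positivity
  rcases le_or_gt ζ.re (1 / 2) with h1 | h1
  · have h2 := H1 x δ F ζ hx hδ hδ' hF h (abs_le.2 ⟨h0, h1⟩)
    rw [mul_assoc, ← hE] at h2 ⊢
    nlinarith
  · have him : 0 < ζ.im := by linarith
    have hτ := FCusp_im him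
    have e1 := f_inv hF hτ
    rw [arg_id him] at e1
    have him1 : 0 < (ζ - 1).im := by simpa using him
    have hτ1 := FCusp_im him1
    obtain ⟨e2, e3⟩ := FCusp_per hF hτ1
    rw [e2, e3] at e1
    have h2 := H1 x δ F (ζ - 1) hx hδ hδ' hF (by simpa using h) (by
      rw [abs_le]
      simp only [Complex.sub_re, Complex.one_re]
      constructor <;> linarith)
    have h3 := H2 x δ ζ hx hδ h (abs_le.2 ⟨by linarith, h'⟩)
    have h4 := H2 x δ (ζ - 1) hx hδ (by simpa using h) (by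
      rw [abs_le]
      simp only [Complex.sub_re, Complex.one_re]
      constructor <;> linarith)
    have h5 := norm_ep_sub_two x hτ1
    have e4 : (ζ - 1).im = ζ.im := by simp
    rw [e4] at h2 h4
    rw [mul_assoc, ← hE] at h2 h3 h4 ⊢
    have e5 : F (1 - 1 / ζ) / jacobiTheta (1 - 1 / ζ) =
        ep x (1 - 1 / ζ) + ep x (1 - 1 / (ζ - 1) - 2) -
          F (1 - 1 / (ζ - 1)) / jacobiTheta (1 - 1 / (ζ - 1)) := by
      rw [← e1]
      ring
    rw [e5, Complex.sub_re, Complex.add_re]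
    have h6 := Complex.abs_re_le_norm (ep x (1 - 1 / ζ))
    have h7 := Complex.abs_re_le_norm (ep x (1 - 1 / (ζ - 1) - 2))
    rw [h5] at h7
    have h8 : ∀ a b c : ℝ, |a + b - c| ≤ |a| + |b| + |c| := fun a b c => by
      calc |a + b - c| ≤ |a + b| + |c| := abs_sub _ _
        _ ≤ _ := by linarith [abs_add_le a b]
    refine (h8 _ _ _).trans ?_
    linarith

/-- real values on the two lines -/
private lemma FCusp_real {x : ℝ} {F : ℂ → ℂ} (hF : Gen x F) {τ : ℂ} (hτ : 0 < τ.im)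
    (h : sr τ = τ ∨ sr τ = τ - 2) : ‖F τ / jacobiTheta τ‖ = |(F τ / jacobiTheta τ).re| := by
  have h1 := hF.sym τ hτ
  have h2 := theta_conj hτ
  have h3 : (starRingEnd ℂ) (F τ / jacobiTheta τ) = F τ / jacobiTheta τ := by
    rw [map_div₀, ← h1, ← h2]
    rcases h with h | h
    · rw [h]
    · rw [h, (FCusp_per hF hτ).1, (FCusp_per hF hτ).2]
  obtain ⟨r, hr⟩ := Complex.conj_eq_iff_real.1 h3
  rw [hr, Complex.norm_real, Complex.ofReal_re, Real.norm_eq_abs]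

theorem fcusp : ∃ C : ℝ, 0 < C ∧ ∀ (x δ : ℝ) (F : ℂ → ℂ) (z : ℂ), 0 ≤ x → 0 < δ → δ ≤ 1 / 2 → Gen x F →
    24 / 100 ≤ z.im → 0 ≤ z.re → z.re ≤ 1 / 2 →
    ‖F (1 - 1 / z) / jacobiTheta (1 - 1 / z)‖ ≤ C * rexp (-√(x * δ)) * rexp (π * (δ + 1 / 4) * z.im) := by
  obtain ⟨C1, hC1, H1⟩ := FCusp_re
  refine ⟨66 * C1, by positivity, fun x δ F z hx hδ hδ' hF h h0 h' => ?_⟩
  set Y : ℝ := z.im with hY
  have hY0 : 0 < Y := by linarith
  set M : ℝ := 2 * C1 * rexp (-√(x * δ)) * rexp (π * (δ + 1 / 4) * Y) with hM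
  have hM0 : 0 < M := by positivity
  set g : ℂ → ℂ := fun ζ => F (1 - 1 / ζ) / jacobiTheta (1 - 1 / ζ) with hg
  have hgd : ∀ ζ : ℂ, 0 < ζ.im → DifferentiableAt ℂ g ζ := by
    intro ζ hζ
    have hne : ζ ≠ 0 := fun h0 => by rw [h0] at hζ; simp at hζ
    have h1 := FCusp_fdiff hF (FCusp_im hζ)
    have h2 : DifferentiableAt ℂ (fun ζ : ℂ => 1 - 1 / ζ) ζ := by
      have : DifferentiableAt ℂ (fun ζ : ℂ => 1 / ζ) ζ :=
        (differentiableAt_const _).div differentiableAt_id hne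
      exact this.const_sub 1
    exact DifferentiableAt.comp ζ h1 h2
  -- the bound of the real part near the segment
  have hre : ∀ a : ℂ, a.im = Y → 0 ≤ a.re → a.re ≤ 1 / 2 → ∀ ζ ∈ Metric.ball a (1 / 16),
      0 < ζ.im ∧ |(g ζ).re| ≤ M := by
    intro a ha ha0 ha1 ζ hζ
    rw [Metric.mem_ball, dist_eq_norm] at hζ
    have h1 := (abs_le.1 ((Complex.abs_re_le_norm (ζ - a)).trans hζ.le))
    have h2 := (abs_le.1 ((Complex.abs_im_le_norm (ζ - a)).trans hζ.le))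
    rw [Complex.sub_re] at h1
    rw [Complex.sub_im, ha] at h2
    have h3 := H1 x δ F ζ hx hδ hδ' hF (by linarith) (by linarith) (by linarith)
    refine ⟨by linarith, h3.trans ?_⟩
    have h4 : rexp (π * (δ + 1 / 4) * ζ.im) ≤ 2 * rexp (π * (δ + 1 / 4) * Y) := by
      have h5 : rexp (1 / 5) ≤ 2 := by
        have h6 := Real.exp_one_lt_d9
        have h7 : rexp (1 / 5) ^ 5 = rexp 1 := by
          rw [← Real.exp_nat_mul]
          norm_num
        by_contra h8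
        push Not at h8
        have h9 : (2 : ℝ) ^ 5 ≤ rexp (1 / 5) ^ 5 := pow_le_pow_left₀ (by norm_num) h8.le 5
        rw [h7] at h9
        norm_num at h9
        linarith
      have h6 : π * (δ + 1 / 4) * ζ.im ≤ 1 / 5 + π * (δ + 1 / 4) * Y := by
        have h7 : π * (δ + 1 / 4) * (ζ.im - Y) ≤ π * (δ + 1 / 4) * (1 / 16) :=
          mul_le_mul_of_nonneg_left (by linarith) (by positivity)
        have h8 : π * (δ + 1 / 4) ≤ 3.15 * (3 / 4) :=
          mul_le_mul Real.pi_lt_d2.le (by linarith) (by linarith) (by norm_num)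
        nlinarith
      calc rexp (π * (δ + 1 / 4) * ζ.im) ≤ rexp (1 / 5 + π * (δ + 1 / 4) * Y) :=
            Real.exp_le_exp.2 h6
        _ = rexp (1 / 5) * rexp (π * (δ + 1 / 4) * Y) := Real.exp_add _ _
        _ ≤ _ := mul_le_mul_of_nonneg_right h5 (Real.exp_pos _).le
    calc C1 * rexp (-√(x * δ)) * rexp (π * (δ + 1 / 4) * ζ.im)
        ≤ C1 * rexp (-√(x * δ)) * (2 * rexp (π * (δ + 1 / 4) * Y)) :=
          mul_le_mul_of_nonneg_left h4 (by positivity)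
      _ = M := by rw [hM]; ring
  have hder : ∀ a ∈ {a : ℂ | a.im = Y ∧ 0 ≤ a.re ∧ a.re ≤ 1 / 2}, ‖deriv g a‖ ≤ 64 * M := by
    rintro a ⟨ha, ha0, ha1⟩
    have h1 := grad g a (1 / 16) M (by norm_num)
      (fun ζ hζ => (hgd ζ (hre a ha ha0 ha1 ζ hζ).1).differentiableWithinAt)
      (fun ζ hζ => (hre a ha ha0 ha1 ζ hζ).2)
    linarith
  have hconv : Convex ℝ {a : ℂ | a.im = Y ∧ 0 ≤ a.re ∧ a.re ≤ 1 / 2} := by
    intro a ha b hb s t hs ht hst
    obtain ⟨ha1, ha2, ha3⟩ := ha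
    obtain ⟨hb1, hb2, hb3⟩ := hb
    have e1 : (s • a + t • b).im = Y := by
      simp only [Complex.add_im, Complex.smul_im, smul_eq_mul, ha1, hb1]
      rw [← add_mul, hst, one_mul]
    have e2 : (s • a + t • b).re = s * a.re + t * b.re := by
      simp only [Complex.add_re, Complex.smul_re, smul_eq_mul]
    refine ⟨e1, ?_, ?_⟩
    · rw [e2]
      positivity
    · rw [e2]
      nlinarith
  have hmv := hconv.norm_image_sub_le_of_norm_deriv_le (𝕜 := ℂ) (f := g) (x := I * Y) (y := z)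
    (fun a ha => hgd a (by rw [ha.1]; exact hY0)) hder (by simp) ⟨rfl, h0, h'⟩
  have hlen : ‖z - I * Y‖ ≤ 1 / 2 := by
    have e1 : z - I * Y = (z.re : ℂ) := by
      apply Complex.ext <;> simp [hY]
    rw [e1, Complex.norm_real, Real.norm_eq_abs, abs_of_nonneg h0]
    exact h'
  have hreal : ‖g (I * Y)‖ ≤ M := by
    have him : 0 < (I * (Y : ℂ)).im := by simpa using hY0
    have e0 : 1 - 1 / (I * (Y : ℂ)) = 1 + ((1 / Y : ℝ) : ℂ) * I := by
      have hYc : (Y : ℂ) ≠ 0 := Complex.ofReal_ne_zero.2 hY0.ne'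
      rw [one_div, mul_inv, Complex.inv_I]
      push_cast
      ring
    have e1 : sr (1 - 1 / (I * (Y : ℂ))) = 1 - 1 / (I * (Y : ℂ)) - 2 := by
      rw [e0]
      unfold sr
      simp only [map_add, map_one, map_mul, Complex.conj_ofReal, Complex.conj_I]
      ring
    have h1 : ‖g (I * Y)‖ = |(g (I * Y)).re| := FCusp_real hF (FCusp_im him) (Or.inr e1)
    rw [h1]
    exact (hre (I * Y) (by simp) (by simp) (by simp) _ (Metric.mem_ball_self (by norm_num))).2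
  have h1 : ‖g z‖ ≤ ‖g z - g (I * Y)‖ + ‖g (I * Y)‖ := by
    calc ‖g z‖ = ‖(g z - g (I * Y)) + g (I * Y)‖ := by rw [sub_add_cancel]
      _ ≤ _ := norm_add_le _ _
  have h2 : 64 * M * ‖z - I * Y‖ ≤ 64 * M * (1 / 2) :=
    mul_le_mul_of_nonneg_left hlen (by positivity)
  have h3 : ‖g z‖ ≤ 33 * M := by linarith
  refine h3.trans (le_of_eq ?_)
  rw [hM]
  ring

theorem fup : ∃ C : ℝ, 0 < C ∧ ∀ (x δ : ℝ) (F : ℂ → ℂ) (w : ℂ), 0 ≤ x → 0 < δ → δ ≤ 1 / 2 → Gen x F →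
    2 ≤ w.im → |w.re| ≤ 1 → ‖F w / jacobiTheta w‖ ≤ C * rexp (-√(x * δ)) := by
  obtain ⟨C1, hC1, H1⟩ := ref
  obtain ⟨C2, hC2, H2⟩ := Lam_inf
  refine ⟨9 * (C1 * (2 + C2)), by positivity, fun x δ F w hx hδ hδ' hF h h' => ?_⟩
  set v : ℝ := w.im with hv
  have hv0 : 0 < v := by linarith
  set M : ℝ := C1 * (2 + C2) * rexp (-√(x * δ)) with hM
  have hM0 : 0 < M := by positivity
  set g : ℂ → ℂ := fun τ => F τ / jacobiTheta τ with hg
  have hgd : ∀ ζ : ℂ, 0 < ζ.im → DifferentiableAt ℂ g ζ := fun ζ hζ => FCusp_fdiff hF hζ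
  have hβ0 : 0 ≤ 1 / 4 + δ := by linarith
  have hβ1 : 1 / 4 + δ ≤ 1 := by linarith
  have hre : ∀ a : ℂ, a.im = v → ∀ ζ ∈ Metric.ball a (1 / 2), 0 < ζ.im ∧ |(g ζ).re| ≤ M := by
    intro a ha ζ hζ
    rw [Metric.mem_ball, dist_eq_norm] at hζ
    have h2 := (abs_le.1 ((Complex.abs_im_le_norm (ζ - a)).trans hζ.le))
    rw [Complex.sub_im, ha] at h2
    have him : 1 < ζ.im := by linarith
    have hD : ζ ∈ D0c := D0_sub (D0_up him)
    refine ⟨by linarith, ?_⟩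
    have h3 := H1 x δ F hx hδ hδ' hF ζ hD
    have h4 : (Qb (1 / 4 + δ) ζ).re ≤ ‖1 + Lam ζ‖ ^ (1 / 4 + δ) :=
      (Complex.re_le_norm _).trans (norm_Qb _ hD).le
    have h5 : ‖1 + Lam ζ‖ ≤ 2 + C2 := by
      have h6 := H2 ζ (by linarith)
      have h7 : rexp (-(π * ζ.im)) ≤ 1 := by
        apply Real.exp_le_one_iff.2
        have := Real.pi_pos
        have h8 : 0 ≤ π * ζ.im := by positivity
        linarith
      have h8 : ‖1 + Lam ζ‖ ≤ 2 + ‖Lam ζ - 1‖ := by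
        have e : 1 + Lam ζ = 2 + (Lam ζ - 1) := by ring
        rw [e]
        refine (norm_add_le _ _).trans ?_
        have : ‖(2 : ℂ)‖ = 2 := by norm_num
        rw [this]
      have h9 : C2 * rexp (-(π * ζ.im)) ≤ C2 * 1 := mul_le_mul_of_nonneg_left h7 hC2.le
      linarith
    have h6 : ‖1 + Lam ζ‖ ^ (1 / 4 + δ) ≤ 2 + C2 := by
      calc ‖1 + Lam ζ‖ ^ (1 / 4 + δ) ≤ (2 + C2) ^ (1 / 4 + δ) :=
            Real.rpow_le_rpow (norm_nonneg _) h5 hβ0
        _ ≤ (2 + C2) ^ (1 : ℝ) := Real.rpow_le_rpow_of_exponent_le (by linarith) hβ1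
        _ = 2 + C2 := Real.rpow_one _
    refine h3.trans ?_
    calc C1 * rexp (-√(x * δ)) * (Qb (1 / 4 + δ) ζ).re
        ≤ C1 * rexp (-√(x * δ)) * (2 + C2) :=
          mul_le_mul_of_nonneg_left (h4.trans h6) (by positivity)
      _ = M := by rw [hM]; ring
  have hder : ∀ a ∈ {a : ℂ | a.im = v ∧ -1 ≤ a.re ∧ a.re ≤ 1}, ‖deriv g a‖ ≤ 8 * M := by
    rintro a ⟨ha, -, -⟩
    have h1 := grad g a (1 / 2) M (by norm_num)
      (fun ζ hζ => (hgd ζ (hre a ha ζ hζ).1).differentiableWithinAt)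
      (fun ζ hζ => (hre a ha ζ hζ).2)
    linarith
  have hconv : Convex ℝ {a : ℂ | a.im = v ∧ -1 ≤ a.re ∧ a.re ≤ 1} := by
    intro a ha b hb s t hs ht hst
    obtain ⟨ha1, ha2, ha3⟩ := ha
    obtain ⟨hb1, hb2, hb3⟩ := hb
    have e1 : (s • a + t • b).im = v := by
      simp only [Complex.add_im, Complex.smul_im, smul_eq_mul, ha1, hb1]
      rw [← add_mul, hst, one_mul]
    have e2 : (s • a + t • b).re = s * a.re + t * b.re := by
      simp only [Complex.add_re, Complex.smul_re, smul_eq_mul]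
    refine ⟨e1, ?_, ?_⟩
    · rw [e2]
      nlinarith
    · rw [e2]
      nlinarith
  have hmv := hconv.norm_image_sub_le_of_norm_deriv_le (𝕜 := ℂ) (f := g) (x := I * v) (y := w)
    (fun a ha => hgd a (by rw [ha.1]; exact hv0)) hder (by simp) ⟨rfl, (abs_le.1 h').1, (abs_le.1 h').2⟩
  have hlen : ‖w - I * v‖ ≤ 1 := by
    have e1 : w - I * v = (w.re : ℂ) := by
      apply Complex.ext <;> simp [hv]
    rw [e1, Complex.norm_real, Real.norm_eq_abs]
    exact h'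
  have hreal : ‖g (I * v)‖ ≤ M := by
    have him : 0 < (I * (v : ℂ)).im := by simpa using hv0
    have e1 : sr (I * (v : ℂ)) = I * (v : ℂ) := by
      unfold sr
      simp only [map_mul, Complex.conj_ofReal, Complex.conj_I]
      ring
    have h1 : ‖g (I * v)‖ = |(g (I * v)).re| := FCusp_real hF him (Or.inl e1)
    rw [h1]
    exact (hre (I * v) (by simp) _ (Metric.mem_ball_self (by norm_num))).2
  have h1 : ‖g w‖ ≤ ‖g w - g (I * v)‖ + ‖g (I * v)‖ := by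
    calc ‖g w‖ = ‖(g w - g (I * v)) + g (I * v)‖ := by rw [sub_add_cancel]
      _ ≤ _ := norm_add_le _ _
  have h2 : 8 * M * ‖w - I * v‖ ≤ 8 * M * 1 :=
    mul_le_mul_of_nonneg_left hlen (by positivity)
  have h3 : ‖g w‖ ≤ 9 * M := by linarith
  refine h3.trans (le_of_eq ?_)
  rw [hM]
  ring

end Pool.Agent.Helper31.FI
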