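import Pool.Agent.Helper31.FI.CRel

/-!
# FI-PO: a particular solution at the cusp `1`

`PS z = -2 i sin (π x) ∑_{j ≥ 0} ∑_{k < 8} ze^k Ez x (z + 8 j + k)`.  As `∑_{k<8} ze^k = 0` the inner sum is
`∑ ze^k (Ez (z+8j+k) - Ez (z+8j))`, norm `≤ 64 sup ‖Ez'‖` over the segment; `Ez' s = Ez s (-1/(2s) - ...)`, `‖Ez s‖ ≤ |s|^(-1/2)`,
`‖Ez' s‖ ≤ |s|^(-3/2)/2 + π x |s|^(-5/2) ≤ C (1 + x) (1 + j)^(-3/2)` for `|re z| ≤ 1`, `im z ≥ 1/4`.  So the sum converges
locally uniformly (analytic) and is bounded.  Functional equation: `ze^8 = 1`; the finite sums over `k < 8 J` satisfy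
`P_J z = ze P_J (z+1) + Ez z - Ez (z + 8 J)` and `Ez (z + 8J) → 0`.
-/

set_option autoImplicit false

namespace Pool.Agent.Helper31.FI

open Complex Real

private lemma PSol_ze4 : ze ^ 4 = -1 := by
  unfold ze
  rw [← Complex.exp_nat_mul]
  have h : ((4 : ℕ) : ℂ) * (3 * π * I / 4) = π * I + 2 * π * I := by
    push_cast
    ring
  rw [h, Complex.exp_add, Complex.exp_two_pi_mul_I, Complex.exp_pi_mul_I, mul_one]

private lemma PSol_norm_ze : ‖ze‖ = 1 := by
  unfold ze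
  have h : (3 * π * I / 4 : ℂ) = ((3 * π / 4 : ℝ) : ℂ) * I := by
    push_cast
    ring
  rw [h, Complex.norm_exp_ofReal_mul_I]

private lemma PSol_sum_ze : ∑ k ∈ Finset.range 8, ze ^ k = 0 := by
  have h : ∑ k ∈ Finset.range 8, ze ^ k = (1 + ze ^ 4) * (1 + ze + ze ^ 2 + ze ^ 3) := by
    simp only [Finset.sum_range_succ, Finset.sum_range_zero]
    ring
  rw [h, PSol_ze4]
  ring

private lemma PSol_ne {z : ℂ} (hz : 0 < z.im) : z ≠ 0 := by
  intro h
  rw [h] at hz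
  simp at hz

private lemma PSol_hasDeriv (x : ℝ) {z : ℂ} (hz : 0 < z.im) :
    HasDerivAt (Ez x) (Ez x z * (-(1 / (2 * z)) + π * I * x / z ^ 2)) z := by
  have hne := PSol_ne hz
  have hne' : -I * z ≠ 0 := mul_ne_zero (neg_ne_zero.2 Complex.I_ne_zero) hne
  have hs : -I * z ∈ slitPlane := by
    left
    simpa using hz
  have h1 : HasDerivAt (fun z : ℂ => -I * z) (-I) z := by
    simpa using (hasDerivAt_id z).const_mul (-I)
  have h2 : HasDerivAt (fun z : ℂ => (-I * z) ^ (-(1 / 2) : ℂ))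
      (-(1 / 2) * (-I * z) ^ (-(1 / 2) - 1 : ℂ) * (-I)) z := h1.cpow_const hs
  have h3 : HasDerivAt (fun z : ℂ => ex x (-1 / z)) (ex x (-1 / z) * (π * I * x / z ^ 2)) z := by
    unfold ex
    have h4 : HasDerivAt (fun z : ℂ => π * I * x * (-1 / z)) (π * I * x / z ^ 2) z := by
      have h5 := (hasDerivAt_inv hne).const_mul (-(π * I * x : ℂ))
      have e1 : (fun z : ℂ => π * I * x * (-1 / z)) = fun z : ℂ => -(π * I * x : ℂ) * z⁻¹ := by
        funext w
        rw [div_eq_mul_inv]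
        ring
      have e2 : (π * I * x / z ^ 2 : ℂ) = -(π * I * x : ℂ) * -(z ^ 2)⁻¹ := by
        rw [div_eq_mul_inv]
        ring
      rw [e1, e2]
      exact h5
    exact h4.cexp
  have h4 := h2.mul h3
  have e3 : -(1 / 2) * (-I * z) ^ (-(1 / 2) - 1 : ℂ) * (-I) * ex x (-1 / z) +
      (-I * z) ^ (-(1 / 2) : ℂ) * (ex x (-1 / z) * (π * I * x / z ^ 2)) =
      Ez x z * (-(1 / (2 * z)) + π * I * x / z ^ 2) := by
    unfold Ez
    rw [Complex.cpow_sub _ _ hne', Complex.cpow_one]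
    have hI : I ≠ 0 := Complex.I_ne_zero
    field_simp
  rw [e3] at h4
  exact h4

private lemma PSol_norm {x : ℝ} (hx : 0 ≤ x) {z : ℂ} (hz : 0 < z.im) :
    ‖Ez x z‖ ≤ ‖z‖ ^ (-(1 / 2) : ℝ) := by
  unfold Ez
  have h1 : ‖(-I * z) ^ (-(1 / 2) : ℂ)‖ = ‖z‖ ^ (-(1 / 2) : ℝ) := by
    have e : (-(1 / 2) : ℂ) = ((-(1 / 2) : ℝ) : ℂ) := by
      push_cast
      ring
    rw [e, Complex.norm_cpow_real, norm_mul, norm_neg, Complex.norm_I, one_mul]
  have h2 : ‖ex x (-1 / z)‖ ≤ 1 := by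
    unfold ex
    rw [Complex.norm_exp]
    apply Real.exp_le_one_iff.2
    have e : (π * I * x * (-1 / z) : ℂ) = ((-(π * x) : ℝ) : ℂ) * (I * z⁻¹) := by
      rw [div_eq_mul_inv]
      push_cast
      ring
    rw [e, Complex.re_ofReal_mul]
    have e2 : (I * z⁻¹).re = z.im / Complex.normSq z := by
      rw [Complex.mul_re, Complex.I_re, Complex.I_im, Complex.inv_im]
      ring
    rw [e2]
    have h3 : 0 ≤ z.im / Complex.normSq z := div_nonneg hz.le (Complex.normSq_nonneg z)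
    have h4 : 0 ≤ π * x * (z.im / Complex.normSq z) := by
      have := Real.pi_pos
      positivity
    linarith
  rw [norm_mul, h1]
  exact mul_le_of_le_one_right (by positivity) h2

private lemma PSol_low {R v : ℝ} (hR : 0 ≤ R) (hv : 0 < v) : ∃ c : ℝ, 0 < c ∧
    ∀ (j : ℕ) (w : ℂ), v ≤ w.im → 8 * j - R ≤ w.re → c * (1 + j) ≤ ‖w‖ := by
  refine ⟨min 2 (v / (1 + R)), lt_min (by norm_num) (by positivity), fun j w h1 h2 => ?_⟩
  have hj : (0 : ℝ) ≤ j := Nat.cast_nonneg j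
  have him : w.im ≤ ‖w‖ := Complex.im_le_norm w
  have hre : w.re ≤ ‖w‖ := Complex.re_le_norm w
  by_cases h : R ≤ 4 * j ∧ 1 ≤ j
  · have h3 : (1 : ℝ) ≤ j := by exact_mod_cast h.2
    have h4 : min 2 (v / (1 + R)) * (1 + j) ≤ 2 * (1 + j) :=
      mul_le_mul_of_nonneg_right (min_le_left _ _) (by positivity)
    linarith [h.1]
  · have h3 : (1 : ℝ) + j ≤ 1 + R := by
      by_cases h4 : R ≤ 4 * j
      · have h5 : j = 0 := by
          by_contra h6
          exact h ⟨h4, Nat.one_le_iff_ne_zero.2 h6⟩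
        rw [h5, Nat.cast_zero]
        linarith
      · linarith
    have h4 : min 2 (v / (1 + R)) * (1 + j) ≤ v / (1 + R) * (1 + R) :=
      mul_le_mul (min_le_right _ _) h3 (by positivity) (by positivity)
    rw [div_mul_cancel₀ _ (by positivity)] at h4
    linarith

private lemma PSol_der {x : ℝ} (hx : 0 ≤ x) {R v : ℝ} (hR : 0 ≤ R) (hv : 0 < v) :
    ∃ D : ℝ, 0 < D ∧ ∀ (j : ℕ) (w : ℂ), v ≤ w.im → 8 * j - R ≤ w.re →
      ‖Ez x w * (-(1 / (2 * w)) + π * I * x / w ^ 2)‖ ≤ D * (1 + (j : ℝ)) ^ (-(3 / 2) : ℝ) := by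
  obtain ⟨c, hc, H⟩ := PSol_low hR hv
  have hπ := Real.pi_pos
  refine ⟨c ^ (-(3 / 2) : ℝ) * (1 / 2 + π * x / c), by positivity, fun j w h1 h2 => ?_⟩
  have hw : 0 < w.im := by linarith
  have hm := H j w h1 h2
  have hj : (0 : ℝ) ≤ j := Nat.cast_nonneg j
  set m : ℝ := c * (1 + j) with hmdef
  have hm0 : 0 < m := by positivity
  have hmc : c ≤ m := by
    rw [hmdef]
    nlinarith
  set y : ℝ := ‖w‖ with hy
  have hy0 : 0 < y := lt_of_lt_of_le hm0 hm
  have h3 : ‖Ez x w‖ ≤ m ^ (-(1 / 2) : ℝ) :=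
    (PSol_norm hx hw).trans (Real.rpow_le_rpow_of_nonpos hm0 hm (by norm_num))
  have h4 : ‖-(1 / (2 * w)) + π * I * x / w ^ 2‖ ≤ m⁻¹ * (1 / 2 + π * x / c) := by
    have e1 : ‖-(1 / (2 * w))‖ = 1 / (2 * y) := by
      rw [norm_neg, norm_div, norm_mul, norm_one, ← hy]
      norm_num
    have e2 : ‖(π * I * x / w ^ 2 : ℂ)‖ = π * x / y ^ 2 := by
      rw [norm_div, norm_mul, norm_mul, Complex.norm_I, Complex.norm_real, Complex.norm_real,
        Real.norm_of_nonneg hπ.le, Real.norm_of_nonneg hx, norm_pow, mul_one]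
    refine (norm_add_le _ _).trans ?_
    rw [e1, e2]
    have h5 : 1 / (2 * y) ≤ m⁻¹ * (1 / 2) := by
      rw [inv_mul_eq_div, div_div, div_le_div_iff₀ (by positivity) (by positivity)]
      nlinarith
    have h6 : π * x / y ^ 2 ≤ m⁻¹ * (π * x / c) := by
      have h7 : m * c ≤ y ^ 2 := by nlinarith
      calc π * x / y ^ 2 ≤ π * x / (m * c) :=
            div_le_div_of_nonneg_left (by positivity) (by positivity) h7
        _ = m⁻¹ * (π * x / c) := by
            field_simp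
    calc _ ≤ m⁻¹ * (1 / 2) + m⁻¹ * (π * x / c) := add_le_add h5 h6
      _ = _ := by ring
  rw [norm_mul]
  refine (mul_le_mul h3 h4 (norm_nonneg _) (by positivity)).trans (le_of_eq ?_)
  have e3 : m ^ (-(1 / 2) : ℝ) * m⁻¹ = c ^ (-(3 / 2) : ℝ) * (1 + (j : ℝ)) ^ (-(3 / 2) : ℝ) := by
    rw [← Real.mul_rpow hc.le (by positivity), ← hmdef, ← Real.rpow_neg_one m,
      ← Real.rpow_add hm0]
    norm_num
  rw [← mul_assoc, e3]
  ring

/-- one group of eight terms -/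
private noncomputable def PSolU (x : ℝ) (j : ℕ) (z : ℂ) : ℂ :=
  ∑ k ∈ Finset.range 8, ze ^ k * Ez x (z + 8 * j + k)

private lemma PSol_U {x : ℝ} (hx : 0 ≤ x) {R v : ℝ} (hR : 0 ≤ R) (hv : 0 < v) :
    ∃ D : ℝ, 0 < D ∧ ∀ (j : ℕ) (z : ℂ), v ≤ z.im → |z.re| ≤ R →
      ‖PSolU x j z‖ ≤ D * (1 + (j : ℝ)) ^ (-(3 / 2) : ℝ) := by
  obtain ⟨D, hD, H⟩ := PSol_der hx hR hv
  refine ⟨64 * D, by positivity, fun j z h1 h2 => ?_⟩
  have hz : 0 < z.im := by linarith
  have hre := (abs_le.1 h2).1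
  have hconv : Convex ℝ {w : ℂ | w.im = z.im ∧ z.re + 8 * j ≤ w.re} := by
    intro a ha b hb s t hs ht hst
    obtain ⟨ha1, ha2⟩ := ha
    obtain ⟨hb1, hb2⟩ := hb
    refine ⟨?_, ?_⟩
    · simp only [Complex.add_im, Complex.smul_im, smul_eq_mul, ha1, hb1]
      rw [← add_mul, hst, one_mul]
    · simp only [Complex.add_re, Complex.smul_re, smul_eq_mul]
      have h3 := mul_le_mul_of_nonneg_left ha2 hs
      have h4 := mul_le_mul_of_nonneg_left hb2 ht
      have h5 : s * (z.re + 8 * j) + t * (z.re + 8 * j) = z.re + 8 * j := by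
        rw [← add_mul, hst, one_mul]
      linarith
  have hE0 : 0 < D * (1 + (j : ℝ)) ^ (-(3 / 2) : ℝ) := by positivity
  have hdiff : ∀ k ∈ Finset.range 8, ‖Ez x (z + 8 * j + k) - Ez x (z + 8 * j)‖ ≤
      8 * (D * (1 + (j : ℝ)) ^ (-(3 / 2) : ℝ)) := by
    intro k hk
    have hk8 : (k : ℝ) ≤ 8 := by
      exact_mod_cast (Finset.mem_range.1 hk).le
    have hk0 : (0 : ℝ) ≤ k := Nat.cast_nonneg k
    have h3 := hconv.norm_image_sub_le_of_norm_hasDerivWithin_le (𝕜 := ℂ) (f := Ez x)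
      (f' := fun w => Ez x w * (-(1 / (2 * w)) + π * I * x / w ^ 2))
      (C := D * (1 + (j : ℝ)) ^ (-(3 / 2) : ℝ)) (x := z + 8 * j) (y := z + 8 * j + k)
      (fun w hw => (PSol_hasDeriv x (by rw [hw.1]; exact hz)).hasDerivWithinAt)
      (fun w hw => H j w (by rw [hw.1]; exact h1) (by linarith [hw.2]))
      ⟨by simp, by simp⟩ ⟨by simp, by simp⟩
    have e : ‖z + 8 * j + k - (z + 8 * j)‖ = (k : ℝ) := by
      rw [add_sub_cancel_left, Complex.norm_natCast]
    rw [e] at h3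
    refine h3.trans ?_
    rw [mul_comm]
    exact mul_le_mul_of_nonneg_right hk8 hE0.le
  have e1 : PSolU x j z = ∑ k ∈ Finset.range 8, ze ^ k * (Ez x (z + 8 * j + k) - Ez x (z + 8 * j)) := by
    unfold PSolU
    simp only [mul_sub]
    rw [Finset.sum_sub_distrib, ← Finset.sum_mul, PSol_sum_ze, zero_mul, sub_zero]
  rw [e1]
  refine (norm_sum_le _ _).trans ?_
  have h4 : ∀ k ∈ Finset.range 8, ‖ze ^ k * (Ez x (z + 8 * j + k) - Ez x (z + 8 * j))‖ ≤
      8 * (D * (1 + (j : ℝ)) ^ (-(3 / 2) : ℝ)) := by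
    intro k hk
    rw [norm_mul, norm_pow, PSol_norm_ze, one_pow, one_mul]
    exact hdiff k hk
  refine (Finset.sum_le_sum h4).trans (le_of_eq ?_)
  rw [Finset.sum_const, Finset.card_range, nsmul_eq_mul]
  push_cast
  ring

private lemma PSol_summ : Summable fun j : ℕ => (1 + (j : ℝ)) ^ (-(3 / 2) : ℝ) := by
  have h1 : Summable fun j : ℕ => (j : ℝ) ^ (-(3 / 2) : ℝ) :=
    Real.summable_nat_rpow.2 (by norm_num)
  have h2 := (summable_nat_add_iff 1).2 h1
  refine h2.congr fun j => ?_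
  push_cast
  rw [add_comm]

private lemma PSol_Udiff (x : ℝ) (j : ℕ) : DifferentiableOn ℂ (PSolU x j) {z : ℂ | 0 < z.im} := by
  intro z hz
  apply DifferentiableAt.differentiableWithinAt
  unfold PSolU
  refine DifferentiableAt.fun_sum fun k _ => ?_
  refine DifferentiableAt.const_mul ?_ _
  have him : 0 < (z + 8 * (j : ℂ) + (k : ℂ)).im := by
    have h : 0 < z.im := hz
    simpa using h
  have h1 : DifferentiableAt ℂ (Ez x) (z + 8 * (j : ℂ) + (k : ℂ)) :=
    (PSol_hasDeriv x him).differentiableAt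
  have h2 : DifferentiableAt ℂ (fun w : ℂ => w + 8 * (j : ℂ) + (k : ℂ)) z :=
    (differentiableAt_id.add_const _).add_const _
  exact DifferentiableAt.comp z h1 h2

private lemma PSol_Usummable {x : ℝ} (hx : 0 ≤ x) {z : ℂ} (hz : 0 < z.im) :
    Summable fun j : ℕ => PSolU x j z := by
  obtain ⟨D, hD, H⟩ := PSol_U hx (abs_nonneg z.re) hz
  refine Summable.of_norm_bounded (PSol_summ.mul_left D) fun j => H j z le_rfl le_rfl

private lemma PSol_step {x : ℝ} (z : ℂ) (j : ℕ) :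
    PSolU x j z - ze * PSolU x j (z + 1) = Ez x (z + 8 * j) - Ez x (z + 8 * (j + 1 : ℕ)) := by
  unfold PSolU
  have e1 : ze * ∑ k ∈ Finset.range 8, ze ^ k * Ez x (z + 1 + 8 * j + k) =
      ∑ k ∈ Finset.range 8, ze ^ (k + 1) * Ez x (z + 8 * j + (k + 1 : ℕ)) := by
    rw [Finset.mul_sum]
    refine Finset.sum_congr rfl fun k _ => ?_
    have e2 : z + 1 + 8 * (j : ℂ) + k = z + 8 * j + (k + 1 : ℕ) := by
      push_cast
      ring
    rw [e2]
    ring
  rw [e1]
  have e3 := Finset.sum_range_succ' (fun k : ℕ => ze ^ k * Ez x (z + 8 * j + (k : ℂ))) 8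
  have e4 := Finset.sum_range_succ (fun k : ℕ => ze ^ k * Ez x (z + 8 * j + (k : ℂ))) 8
  rw [e4] at e3
  have e5 : ze ^ 8 = 1 := by
    have : ze ^ 8 = (ze ^ 4) ^ 2 := by ring
    rw [this, PSol_ze4]
    ring
  have e6 : z + 8 * ((j + 1 : ℕ) : ℂ) = z + 8 * j + ((8 : ℕ) : ℂ) := by
    push_cast
    ring
  rw [e6]
  rw [e5, one_mul] at e3
  simp only [pow_zero, one_mul, Nat.cast_zero, add_zero] at e3
  linear_combination e3

private lemma PSol_zero {x : ℝ} (hx : 0 ≤ x) {z : ℂ} (hz : 0 < z.im) :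
    Filter.Tendsto (fun J : ℕ => Ez x (z + 8 * J)) Filter.atTop (nhds 0) := by
  obtain ⟨c, hc, H⟩ := PSol_low (abs_nonneg z.re) hz
  have h1 : ∀ J : ℕ, ‖Ez x (z + 8 * J)‖ ≤ c ^ (-(1 / 2) : ℝ) * (1 + (J : ℝ)) ^ (-(1 / 2) : ℝ) := by
    intro J
    have him : (z + 8 * (J : ℂ)).im = z.im := by simp
    have hre : (z + 8 * (J : ℂ)).re = z.re + 8 * J := by simp
    have h2 := H J (z + 8 * J) (by rw [him]) (by rw [hre]; linarith [neg_abs_le z.re])
    have hJ : (0 : ℝ) ≤ J := Nat.cast_nonneg J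
    rw [← Real.mul_rpow hc.le (by positivity)]
    exact (PSol_norm hx (by rw [him]; exact hz)).trans
      (Real.rpow_le_rpow_of_nonpos (by positivity) h2 (by norm_num))
  have h2 : Filter.Tendsto (fun J : ℕ => c ^ (-(1 / 2) : ℝ) * (1 + (J : ℝ)) ^ (-(1 / 2) : ℝ))
      Filter.atTop (nhds 0) := by
    have h3 : Filter.Tendsto (fun J : ℕ => (1 + (J : ℝ)) ^ (-(1 / 2) : ℝ)) Filter.atTop (nhds 0) :=
      (tendsto_rpow_neg_atTop (by norm_num)).comp
        (Filter.tendsto_atTop_add_const_left _ 1 tendsto_natCast_atTop_atTop)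
    have h4 := h3.const_mul (c ^ (-(1 / 2) : ℝ))
    rwa [mul_zero] at h4
  exact squeeze_zero_norm h1 h2

private lemma PSol_rel {x : ℝ} (hx : 0 ≤ x) {z : ℂ} (hz : 0 < z.im) :
    ∑' j : ℕ, PSolU x j z = ze * ∑' j : ℕ, PSolU x j (z + 1) + Ez x z := by
  have hz1 : 0 < (z + 1).im := by simpa using hz
  have h1 := PSol_Usummable hx hz
  have h2 := PSol_Usummable hx hz1
  have h3 : HasSum (fun j : ℕ => PSolU x j z - ze * PSolU x j (z + 1))
      (∑' j : ℕ, PSolU x j z - ze * ∑' j : ℕ, PSolU x j (z + 1)) :=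
    h1.hasSum.sub (h2.hasSum.mul_left ze)
  have h4 := h3.tendsto_sum_nat
  have h5 : ∀ J : ℕ, ∑ j ∈ Finset.range J, (PSolU x j z - ze * PSolU x j (z + 1)) =
      Ez x z - Ez x (z + 8 * J) := by
    intro J
    induction J with
    | zero => simp
    | succ J ih =>
      rw [Finset.sum_range_succ, ih, PSol_step]
      ring
  simp only [h5] at h4
  have h6 : Filter.Tendsto (fun J : ℕ => Ez x z - Ez x (z + 8 * J)) Filter.atTop
      (nhds (Ez x z - 0)) := (PSol_zero hx hz).const_sub _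
  have h7 := tendsto_nhds_unique h4 h6
  rw [sub_zero] at h7
  linear_combination h7

theorem psol (x : ℝ) (hx : 0 ≤ x) : ∃ P : ℂ → ℂ,
    DifferentiableOn ℂ P {z : ℂ | 0 < z.im} ∧
    (∀ z : ℂ, 0 < z.im → P z = ze * P (z + 1) - 2 * I * Real.sin (π * x) * Ez x z) ∧
    ∃ C : ℝ, ∀ z : ℂ, 1 / 4 ≤ z.im → |z.re| ≤ 1 → ‖P z‖ ≤ C := by
  refine ⟨fun z => -(2 * I * Real.sin (π * x)) * ∑' j : ℕ, PSolU x j z, ?_, ?_, ?_⟩
  · intro z hz
    have hz0 : 0 < z.im := hz
    apply DifferentiableAt.differentiableWithinAt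
    refine DifferentiableAt.const_mul ?_ _
    set U : Set ℂ := {w : ℂ | z.im / 2 < w.im} ∩ {w : ℂ | |w.re| < |z.re| + 1} with hU
    have hUo : IsOpen U :=
      (isOpen_lt continuous_const Complex.continuous_im).inter
        (isOpen_lt (Complex.continuous_re.abs) continuous_const)
    have hzU : z ∈ U := ⟨by
      show z.im / 2 < z.im
      linarith, by
      show |z.re| < |z.re| + 1
      linarith⟩
    obtain ⟨D, hD, H⟩ := PSol_U (R := |z.re| + 1) (v := z.im / 2) hx (by positivity) (by positivity)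
    have h1 : DifferentiableOn ℂ (fun w => ∑' j : ℕ, PSolU x j w) U := by
      refine differentiableOn_tsum_of_summable_norm (PSol_summ.mul_left D) (fun j => ?_) hUo
        (fun j w hw => H j w (le_of_lt hw.1) (le_of_lt hw.2))
      refine (PSol_Udiff x j).mono fun w hw => ?_
      have h2 : z.im / 2 < w.im := hw.1
      show 0 < w.im
      linarith
    exact h1.differentiableAt (hUo.mem_nhds hzU)
  · intro z hz
    simp only
    rw [PSol_rel hx hz]
    ring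
  · obtain ⟨D, hD, H⟩ := PSol_U (R := 1) (v := 1 / 4) hx zero_le_one (by norm_num)
    refine ⟨‖-(2 * I * Real.sin (π * x) : ℂ)‖ * ∑' j : ℕ, D * (1 + (j : ℝ)) ^ (-(3 / 2) : ℝ),
      fun z h1 h2 => ?_⟩
    rw [norm_mul]
    refine mul_le_mul_of_nonneg_left ?_ (norm_nonneg _)
    exact tsum_of_norm_bounded (PSol_summ.mul_left D).hasSum fun j => H j z h1 h2

end Pool.Agent.Helper31.FI
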