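import Pool.Agent.Helper31.FI.FZero
import Pool.Agent.Helper31.FI.PSol

/-!
# FI-F1: correction at the cusp `1`

`F₀ = θ f`, `f` from `f_zero`; it satisfies `per`, `inv` (multiply by `θ`, `theta_inv`).  `P` from `psol`,
`h = hat (F₀ - ex x) - P`: `h z = ze h (z+1)`, so `k z = h z exp (3 π i z/4)` has period `1`.  For `|re z| ≤ 1/2`, `im z ≥ 1`, `τ = 1 - 1/z`:
`|re τ| ≤ 2`, `1/im τ = |z|²/im z ≤ im z + 1`, `‖θ τ‖⁸ = |z|⁴ ‖th2 z‖⁸ ≥ exp (-2 π im z)`, so
`‖k z‖ ≤ C (3 + im z)^5 exp (2 π im z - 3 π im z/4) ≤ C' exp (3 π im z/2)`; by periodicity for all `re z`.  `perlim` (`Y₀ = 1`) gives `k₀`.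
The function `M z = th2 z Lam (1 - 1/z) = hat (θ Lam) z` satisfies `‖M z exp (3 π i z/4) - 1/4‖ ≤ C exp (-2 π im z)` (`Lam_cusp_est` and
`th2 z = 2 exp (π i z/4) (1 + O (exp (-2 π im z)))`; or: it is `1`-periodic by `th2_add_one`, `Lam_cusp`, so `perlim` applies and the limit is `1/4`).
`F = F₀ - 4 k₀ θ Lam` satisfies `per`, `inv` (`Lam_add_two`, `Lam_inv`) and
`hat F z = P z + hat (ex x) z + exp (-3 π i z/4) O (exp (-2 π im z))` is bounded for `im z ≥ 2`, `|re z| ≤ 1/2`.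
On `{|re τ| ≤ 1, im τ ≥ 1/10}`: `θ` is bounded below (compactness and `theta_sub_one`), `Lam` is bounded, so `F` is bounded.
-/

set_option autoImplicit false

namespace Pool.Agent.Helper31.FI

open Complex Real

private lemma fOne_ne {z : ℂ} (hz : 0 < z.im) : z ≠ 0 := by
  rintro rfl
  simp at hz

private lemma fOne_im (z : ℂ) : (1 - 1 / z).im = z.im / ‖z‖ ^ 2 := by
  rw [Complex.sub_im, Complex.one_im, one_div, Complex.inv_im, Complex.normSq_eq_norm_sq]
  ring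

private lemma fOne_im_pos {z : ℂ} (hz : 0 < z.im) : 0 < (1 - 1 / z).im := by
  rw [fOne_im]
  have := norm_pos_iff.2 (fOne_ne hz)
  positivity

private lemma fOne_im_le (z : ℂ) : z.im ≤ ‖z‖ := (le_abs_self _).trans (Complex.abs_im_le_norm z)

private lemma fOne_re {z : ℂ} (hz : 1 ≤ z.im) (hr : |z.re| ≤ 1 / 2) : |(1 - 1 / z).re| ≤ 2 := by
  have h1 : (1 - 1 / z).re = 1 - z.re / ‖z‖ ^ 2 := by
    rw [Complex.sub_re, Complex.one_re, one_div, Complex.inv_re, Complex.normSq_eq_norm_sq]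
  have h2 : 1 ≤ ‖z‖ := hz.trans (fOne_im_le z)
  have h3 : |z.re / ‖z‖ ^ 2| ≤ 1 := by
    rw [abs_div, abs_of_pos (by positivity : 0 < ‖z‖ ^ 2), div_le_one (by positivity)]
    nlinarith
  rw [h1]
  have := abs_le.1 h3
  rw [abs_le]
  constructor <;> linarith

private lemma fOne_slit {z : ℂ} (hz : 0 < z.im) : -I * z ∈ Complex.slitPlane := by
  left
  simpa using hz

private lemma fOne_w_ne {z : ℂ} (hz : 0 < z.im) : (-I * z) ^ (1 / 2 : ℂ) ≠ 0 := by
  intro h
  rw [Complex.cpow_eq_zero_iff] at h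
  exact (fOne_ne hz) (by simpa using h.1)

private lemma fOne_w_sq (z : ℂ) : ((-I * z) ^ (1 / 2 : ℂ)) ^ 2 = -I * z := by
  rw [← Complex.cpow_nat_mul]
  norm_num

private lemma fOne_w_norm (z : ℂ) : ‖(-I * z) ^ (1 / 2 : ℂ)‖ ^ 2 = ‖z‖ := by
  rw [← norm_pow, fOne_w_sq]
  simp

private lemma fOne_w_ge {z : ℂ} (hz : 1 ≤ z.im) : 1 ≤ ‖(-I * z) ^ (1 / 2 : ℂ)‖ := by
  have h1 := fOne_w_norm z
  have h2 : 1 ≤ ‖z‖ := hz.trans (fOne_im_le z)
  by_contra h
  push Not at h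
  have := norm_nonneg ((-I * z) ^ (1 / 2 : ℂ))
  nlinarith

private lemma fOne_hat (G : ℂ → ℂ) (z : ℂ) :
    hat G z = ((-I * z) ^ (1 / 2 : ℂ))⁻¹ * G (1 - 1 / z) := by
  rw [hat, Complex.cpow_neg]

private lemma fOne_hat_theta {z : ℂ} (hz : 0 < z.im) (g : ℂ → ℂ) :
    hat (fun τ => jacobiTheta τ * g τ) z = th2 z * g (1 - 1 / z) := by
  rw [fOne_hat, theta_cusp hz]
  have := fOne_w_ne hz
  rw [mul_assoc ((-I * z) ^ (1 / 2 : ℂ)), inv_mul_cancel_left₀ this]

private lemma fOne_theta_inv {τ : ℂ} (hτ : 0 < τ.im) (g : ℂ) :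
    (-I * τ) ^ (-(1 / 2) : ℂ) * (jacobiTheta (-1 / τ) * g) = jacobiTheta τ * g := by
  rw [theta_inv hτ, Complex.cpow_neg]
  have := fOne_w_ne hτ
  rw [mul_assoc ((-I * τ) ^ (1 / 2 : ℂ)), inv_mul_cancel_left₀ this]

private lemma fOne_open : IsOpen {τ : ℂ | 0 < τ.im} :=
  isOpen_lt continuous_const Complex.continuous_im

private lemma fOne_cusp_diff {z : ℂ} (hz : 0 < z.im) :
    DifferentiableAt ℂ (fun z : ℂ => 1 - 1 / z) z :=
  (differentiableAt_const _).sub ((differentiableAt_const _).div differentiableAt_id (fOne_ne hz))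

private lemma fOne_hat_diff {G : ℂ → ℂ} (hG : DifferentiableOn ℂ G {τ : ℂ | 0 < τ.im}) {z : ℂ}
    (hz : 0 < z.im) : DifferentiableAt ℂ (hat G) z := by
  have h1 : DifferentiableAt ℂ G (1 - 1 / z) :=
    hG.differentiableAt (fOne_open.mem_nhds (fOne_im_pos hz))
  have h3 : DifferentiableAt ℂ (fun z : ℂ => -I * z) z := differentiableAt_id.const_mul _
  have h4 : DifferentiableAt ℂ (fun z : ℂ => G (1 - 1 / z)) z := h1.comp z (fOne_cusp_diff hz)
  exact (h3.cpow (differentiableAt_const _) (fOne_slit hz)).mul h4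

private lemma fOne_exp_norm (z : ℂ) :
    ‖cexp (3 * π * I * z / 4)‖ = rexp (-(3 * π * z.im / 4)) := by
  rw [Complex.norm_exp]
  congr 1
  have : 3 * (π : ℂ) * I * z / 4 = ((3 * π / 4 : ℝ) : ℂ) * (I * z) := by
    push_cast
    ring
  rw [this, Complex.re_ofReal_mul]
  simp
  ring

private lemma fOne_ex_norm {x : ℝ} (hx : 0 ≤ x) {τ : ℂ} (hτ : 0 ≤ τ.im) : ‖ex x τ‖ ≤ 1 := by
  rw [ex, Complex.norm_exp]
  have : (π : ℂ) * I * x * τ = ((π * x : ℝ) : ℂ) * (I * τ) := by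
    push_cast
    ring
  rw [this, Complex.re_ofReal_mul]
  apply Real.exp_le_one_iff.2
  have h1 : (I * τ).re = -τ.im := by simp
  rw [h1]
  have h2 : 0 ≤ π * x := mul_nonneg Real.pi_pos.le hx
  nlinarith

private lemma fOne_ex_diff (x : ℝ) : Differentiable ℂ (ex x) := by
  unfold ex
  fun_prop

private lemma fOne_pow (y : ℝ) (hy : 0 ≤ y) :
    (3 + y) ^ 5 ≤ 120 / (π / 4) ^ 5 * rexp (3 * π / 4) * rexp (π / 4 * y) := by
  have hp : 0 < π / 4 := by positivity
  have h1 := Real.pow_div_factorial_le_exp (π / 4 * (3 + y)) (by positivity) 5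
  have h2 : rexp (π / 4 * (3 + y)) = rexp (3 * π / 4) * rexp (π / 4 * y) := by
    rw [← Real.exp_add]
    congr 1
    ring
  rw [h2, mul_pow] at h1
  have h3 : ((Nat.factorial 5 : ℕ) : ℝ) = 120 := by norm_num [Nat.factorial]
  rw [h3, div_le_iff₀ (by norm_num)] at h1
  have h4 : 0 < (π / 4) ^ 5 := by positivity
  have h5 : 120 / (π / 4) ^ 5 * rexp (3 * π / 4) * rexp (π / 4 * y) =
      (rexp (3 * π / 4) * rexp (π / 4 * y) * 120) / (π / 4) ^ 5 := by ring
  rw [h5, le_div_iff₀ h4]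
  linarith

private lemma fOne_per {k : ℂ → ℂ} {Y : ℝ} (hp : ∀ z : ℂ, Y < z.im → k (z + 1) = k z) (n : ℤ) :
    ∀ z : ℂ, Y < z.im → k (z + n) = k z := by
  induction n using Int.induction_on with
  | zero => intro z _; simp
  | succ i ih =>
    intro z hz
    have h1 : z + ((i + 1 : ℤ) : ℂ) = (z + (i : ℤ)) + 1 := by push_cast; ring
    have h2 : Y < (z + ((i : ℤ) : ℂ)).im := by simpa using hz
    rw [h1, hp _ h2, ih z hz]
  | pred i ih =>
    intro z hz
    have h1 : z + ((-i : ℤ) : ℂ) = (z + ((-i - 1 : ℤ) : ℂ)) + 1 := by push_cast; ring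
    have h2 : Y < (z + ((-i - 1 : ℤ) : ℂ)).im := by simpa using hz
    rw [← hp _ h2, ← h1, ih z hz]

/-- the function `M` -/
private lemma fOne_M : ∃ (m₀ : ℂ) (C : ℝ), m₀ ≠ 0 ∧ ∀ z : ℂ, 2 ≤ z.im →
    ‖th2 z * Lam (1 - 1 / z) * cexp (3 * π * I * z / 4) - m₀‖ ≤ C * rexp (-(2 * π * z.im)) := by
  obtain ⟨C1, hC1, h1⟩ := Lam_cusp_up
  obtain ⟨C2, hC2, h2⟩ := Lam_cusp_est
  have hd : DifferentiableOn ℂ (fun z => th2 z * Lam (1 - 1 / z) * cexp (3 * π * I * z / 4))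
      {z : ℂ | 1 < z.im} := by
    intro z hz
    have hz0 : 0 < z.im := lt_trans one_pos hz
    have h2 : DifferentiableAt ℂ Lam (1 - 1 / z) := differentiableAt_Lam (fOne_im_pos hz0)
    have h3 : DifferentiableAt ℂ (fun z : ℂ => Lam (1 - 1 / z)) z :=
      DifferentiableAt.comp (g := Lam) (f := fun z : ℂ => 1 - 1 / z) z h2 (fOne_cusp_diff hz0)
    have h4 : DifferentiableAt ℂ (fun z : ℂ => cexp (3 * π * I * z / 4)) z := by fun_prop
    exact (((differentiableAt_th2 hz0).mul h3).mul h4).differentiableWithinAt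
  have hp : ∀ z : ℂ, 1 < z.im → (fun z => th2 z * Lam (1 - 1 / z) * cexp (3 * π * I * z / 4))
      (z + 1) = (fun z => th2 z * Lam (1 - 1 / z) * cexp (3 * π * I * z / 4)) z := by
    intro z hz
    have hz0 : 0 < z.im := lt_trans one_pos hz
    have hz1 : 0 < (z + 1).im := by simpa using hz0
    have hL : Lam (1 - 1 / (z + 1)) = -Lam (1 - 1 / z) := by
      rw [Lam_cusp hz0, Lam_cusp hz1, th2_add_one hz0, mul_pow]
      have e4 : cexp (π * I / 4) ^ 4 = -1 := by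
        rw [← Complex.exp_nat_mul]
        have : ((4 : ℕ) : ℂ) * (π * I / 4) = π * I := by push_cast; ring
        rw [this, Complex.exp_pi_mul_I]
      have e5 : z + 1 + 1 = 2 + z := by ring
      rw [e4, e5, jacobiTheta_two_add]
      ring
    have e1 : cexp (3 * π * I * (z + 1) / 4) = ze * cexp (3 * π * I * z / 4) := by
      rw [ze, ← Complex.exp_add]
      congr 1
      ring
    have e2 : cexp (π * I / 4) * ze = -1 := by
      rw [ze, ← Complex.exp_add]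
      have : (π : ℂ) * I / 4 + 3 * π * I / 4 = π * I := by ring
      rw [this, Complex.exp_pi_mul_I]
    simp only []
    rw [hL, th2_add_one hz0, e1]
    linear_combination (-(th2 z * Lam (1 - 1 / z) * cexp (3 * π * I * z / 4))) * e2
  have hb : ∀ z : ℂ, 1 < z.im → ‖(fun z => th2 z * Lam (1 - 1 / z) *
      cexp (3 * π * I * z / 4)) z‖ ≤ (3 * C1) * rexp (0 * z.im) := by
    intro z hz
    simp only []
    have hz0 : 0 < z.im := lt_trans one_pos hz
    have h3 := th2_up (τ := z) (by linarith)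
    have h4 := h1 z (by linarith)
    rw [norm_mul, norm_mul, fOne_exp_norm, zero_mul, Real.exp_zero, mul_one]
    have e1 : rexp (-(π * z.im / 4)) * rexp (π * z.im) * rexp (-(3 * π * z.im / 4)) = 1 := by
      rw [← Real.exp_add, ← Real.exp_add]
      rw [show -(π * z.im / 4) + π * z.im + -(3 * π * z.im / 4) = 0 by ring, Real.exp_zero]
    calc ‖th2 z‖ * ‖Lam (1 - 1 / z)‖ * rexp (-(3 * π * z.im / 4))
        ≤ (3 * rexp (-(π * z.im / 4))) * (C1 * rexp (π * z.im)) * rexp (-(3 * π * z.im / 4)) := by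
          apply mul_le_mul_of_nonneg_right _ (Real.exp_pos _).le
          exact mul_le_mul h3 h4 (norm_nonneg _) (by positivity)
      _ = 3 * C1 * (rexp (-(π * z.im / 4)) * rexp (π * z.im) * rexp (-(3 * π * z.im / 4))) := by
          ring
      _ = 3 * C1 := by rw [e1, mul_one]
  obtain ⟨m₀, C, hm⟩ := perlim _ 1 (3 * C1) 0 (by positivity) hd hp hb
  refine ⟨m₀, C, ?_, fun z hz => hm z (by linarith)⟩
  rintro rfl
  have hlow : ∀ y : ℝ, 2 ≤ y → 1 / 8 ≤ (C + C2) * rexp (-(2 * π * y)) := by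
    intro y hy
    have h3 := hm (I * y) (by simpa using (by linarith : (1 : ℝ) + 1 ≤ y))
    have him : (I * (y : ℂ)).im = y := by simp
    rw [sub_zero, norm_mul, norm_mul, fOne_exp_norm, him] at h3
    have h4 := th2_low (τ := I * y) (by rw [him]; linarith)
    rw [him] at h4
    have h5 := h2 (I * y) (by rw [him]; linarith)
    rw [him] at h5
    have h6 : ‖cexp (-(π * I * (I * y))) / 8‖ = rexp (π * y) / 8 := by
      rw [norm_div, Complex.norm_exp]
      congr 1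
      · congr 1
        have : -((π : ℂ) * I * (I * y)) = ((π * y : ℝ) : ℂ) * (-(I * I)) := by push_cast; ring
        rw [this, Complex.I_mul_I, neg_neg, mul_one, Complex.ofReal_re]
      · norm_num
    have h7 : rexp (π * y) / 8 - C2 * rexp (-(π * y)) ≤ ‖Lam (1 - 1 / (I * y))‖ := by
      have := norm_sub_norm_le (cexp (-(π * I * (I * y))) / 8) (Lam (1 - 1 / (I * y)))
      rw [norm_sub_rev, h6] at this
      linarith
    have e1 : rexp (-(π * y / 4)) * rexp (π * y) * rexp (-(3 * π * y / 4)) = 1 := by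
      rw [← Real.exp_add, ← Real.exp_add]
      rw [show -(π * y / 4) + π * y + -(3 * π * y / 4) = 0 by ring, Real.exp_zero]
    have e2 : rexp (-(π * y / 4)) * rexp (-(π * y)) * rexp (-(3 * π * y / 4)) =
        rexp (-(2 * π * y)) := by
      rw [← Real.exp_add, ← Real.exp_add]
      congr 1
      ring
    have h8 : rexp (-(π * y / 4)) * (rexp (π * y) / 8 - C2 * rexp (-(π * y))) *
        rexp (-(3 * π * y / 4)) ≤ ‖th2 (I * y)‖ * ‖Lam (1 - 1 / (I * y))‖ *
        rexp (-(3 * π * y / 4)) := by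
      apply mul_le_mul_of_nonneg_right _ (Real.exp_pos _).le
      calc rexp (-(π * y / 4)) * (rexp (π * y) / 8 - C2 * rexp (-(π * y)))
          ≤ rexp (-(π * y / 4)) * ‖Lam (1 - 1 / (I * y))‖ :=
            mul_le_mul_of_nonneg_left h7 (Real.exp_pos _).le
        _ ≤ ‖th2 (I * y)‖ * ‖Lam (1 - 1 / (I * y))‖ :=
            mul_le_mul_of_nonneg_right h4 (norm_nonneg _)
    have h9 : rexp (-(π * y / 4)) * (rexp (π * y) / 8 - C2 * rexp (-(π * y))) *
        rexp (-(3 * π * y / 4)) = 1 / 8 - C2 * rexp (-(2 * π * y)) := by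
      rw [← e2]
      linear_combination (1 / 8 : ℝ) * e1
    rw [h9] at h8
    have h10 := h8.trans h3
    linarith
  set y : ℝ := max 2 (8 * |C + C2|) with hy
  have h3 := hlow y (le_max_left _ _)
  have h4 : 8 * |C + C2| ≤ y := le_max_right _ _
  have h5 : 2 ≤ y := le_max_left _ _
  have h6 : y < rexp (2 * π * y) := by
    have h7 := Real.add_one_le_exp (2 * π * y)
    have h8 : (3 : ℝ) < π := Real.pi_gt_three
    nlinarith
  have h7 : (C + C2) * rexp (-(2 * π * y)) ≤ |C + C2| * rexp (-(2 * π * y)) :=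
    mul_le_mul_of_nonneg_right (le_abs_self _) (Real.exp_pos _).le
  rw [Real.exp_neg] at h3 h7
  have h8 : 0 < rexp (2 * π * y) := Real.exp_pos _
  have h9 : |C + C2| * (rexp (2 * π * y))⁻¹ < 1 / 8 := by
    rw [← div_eq_mul_inv, div_lt_iff₀ h8]
    linarith
  linarith

theorem f_one {x : ℝ} (hx : 0 ≤ x) : ∃ F : ℂ → ℂ,
    DifferentiableOn ℂ F {τ : ℂ | 0 < τ.im} ∧
    (∀ τ : ℂ, 0 < τ.im → F (τ + 2) = F τ) ∧
    (∀ τ : ℂ, 0 < τ.im → F τ + (-I * τ) ^ (-(1 / 2) : ℂ) * F (-1 / τ) =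
      ex x τ + (-I * τ) ^ (-(1 / 2) : ℂ) * ex x (-1 / τ)) ∧
    (∃ C : ℝ, ∀ z : ℂ, 2 ≤ z.im → |z.re| ≤ 1 / 2 → ‖hat F z‖ ≤ C) ∧
    ∃ C : ℝ, ∀ τ : ℂ, 1 / 10 ≤ τ.im → |τ.re| ≤ 1 → ‖F τ‖ ≤ C := by
  obtain ⟨f, hfd, hf2, hfS, Cf, hfb⟩ := f_zero hx
  obtain ⟨P, hPd, hPr, CP, hPb⟩ := psol x hx
  obtain ⟨m₀, CM, hm0, hM⟩ := fOne_M
  obtain ⟨F₀, hF₀⟩ : ∃ F₀ : ℂ → ℂ, F₀ = fun τ => jacobiTheta τ * f τ := ⟨_, rfl⟩
  have F0d : DifferentiableOn ℂ F₀ {τ : ℂ | 0 < τ.im} := by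
    intro τ hτ
    rw [hF₀]
    exact ((differentiableAt_jacobiTheta hτ).mul
      (hfd.differentiableAt (fOne_open.mem_nhds hτ))).differentiableWithinAt
  have F0p : ∀ τ : ℂ, 0 < τ.im → F₀ (τ + 2) = F₀ τ := by
    intro τ hτ
    simp only [hF₀]
    rw [hf2 τ hτ, add_comm τ 2, jacobiTheta_two_add]
  have F0i : ∀ τ : ℂ, 0 < τ.im → F₀ τ + (-I * τ) ^ (-(1 / 2) : ℂ) * F₀ (-1 / τ) =
      ex x τ + (-I * τ) ^ (-(1 / 2) : ℂ) * ex x (-1 / τ) := by
    intro τ hτ
    simp only [hF₀]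
    rw [fOne_theta_inv hτ, ← mul_add, hfS τ hτ, rh, ep, ep, theta_inv hτ, Complex.cpow_neg]
    have h1 := theta_ne hτ
    have h2 := fOne_w_ne hτ
    field_simp
  have hatsub : ∀ z, hat (fun τ => F₀ τ - ex x τ) z = hat F₀ z - hat (ex x) z := by
    intro z
    simp only [hat]
    ring
  obtain ⟨k, hk⟩ : ∃ k : ℂ → ℂ, k = fun z =>
    (hat (fun τ => F₀ τ - ex x τ) z - P z) * cexp (3 * π * I * z / 4) := ⟨_, rfl⟩
  have kp : ∀ z : ℂ, 1 < z.im → k (z + 1) = k z := by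
    intro z hz
    have hz0 : 0 < z.im := lt_trans one_pos hz
    have h1 := crel F0p F0i hz0
    have h2 := hPr z hz0
    have h3 : cexp (3 * π * I * (z + 1) / 4) = ze * cexp (3 * π * I * z / 4) := by
      rw [ze, ← Complex.exp_add]
      congr 1
      ring
    simp only [hk]
    rw [h1, h2, h3]
    ring
  have kd : DifferentiableOn ℂ k {z : ℂ | 1 < z.im} := by
    intro z hz
    have hz0 : 0 < z.im := lt_trans one_pos hz
    have h1 : DifferentiableAt ℂ (hat (fun τ => F₀ τ - ex x τ)) z :=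
      fOne_hat_diff (F0d.sub (fOne_ex_diff x).differentiableOn) hz0
    have h2 : DifferentiableAt ℂ P z := hPd.differentiableAt (fOne_open.mem_nhds hz0)
    have h3 : DifferentiableAt ℂ (fun z : ℂ => cexp (3 * π * I * z / 4)) z := by fun_prop
    rw [hk]
    exact ((h1.sub h2).mul h3).differentiableWithinAt
  have hexb : ∀ z : ℂ, 1 ≤ z.im → ‖hat (ex x) z‖ ≤ 1 := by
    intro z hz
    have hz0 : 0 < z.im := lt_of_lt_of_le one_pos hz
    rw [fOne_hat, norm_mul, norm_inv]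
    have h1 := fOne_w_ge hz
    have h2 := fOne_ex_norm hx (fOne_im_pos hz0).le
    have h3 : ‖(-I * z) ^ (1 / 2 : ℂ)‖⁻¹ ≤ 1 := inv_le_one_of_one_le₀ h1
    exact mul_le_one₀ h3 (norm_nonneg _) h2
  obtain ⟨K, hK⟩ : ∃ K : ℝ, K = 120 / (π / 4) ^ 5 * rexp (3 * π / 4) := ⟨_, rfl⟩
  have hK0 : 0 ≤ K := by rw [hK]; positivity
  obtain ⟨B, hB⟩ : ∃ B : ℝ, B = |Cf| * K + (1 + |CP|) := ⟨_, rfl⟩
  have kb0 : ∀ z : ℂ, 1 < z.im → |z.re| ≤ 1 / 2 → ‖k z‖ ≤ B * rexp (3 * π / 2 * z.im) := by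
    intro z hz hr
    have hz0 : 0 < z.im := lt_trans one_pos hz
    have hz1 : 1 ≤ z.im := hz.le
    have h1 : ‖hat F₀ z‖ ≤ |Cf| * (3 + z.im) ^ 5 * rexp (2 * π * z.im) := by
      rw [hF₀, fOne_hat_theta hz0, norm_mul]
      have h2 := hfb (1 - 1 / z) (fOne_im_pos hz0) (fOne_re hz1 hr)
      rw [theta_cusp hz0, norm_mul, mul_pow] at h2
      have h3 : 1 / (1 - 1 / z).im ≤ z.im + 1 := by
        rw [fOne_im, one_div_div, div_le_iff₀ hz0]
        have h4 : ‖z‖ ^ 2 = z.re ^ 2 + z.im ^ 2 := by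
          rw [← Complex.normSq_eq_norm_sq, Complex.normSq_apply]
          ring
        have h5 : z.re ^ 2 ≤ 1 / 4 := by
          have := abs_le.1 hr
          nlinarith
        rw [h4]
        nlinarith
      have h4 : Cf * (1 + 1 / (1 - 1 / z).im) ^ 5 ≤ |Cf| * (3 + z.im) ^ 5 := by
        have h5 : 0 ≤ 1 / (1 - 1 / z).im := by
          have := fOne_im_pos hz0
          positivity
        have h6 : (1 + 1 / (1 - 1 / z).im) ^ 5 ≤ (3 + z.im) ^ 5 :=
          pow_le_pow_left₀ (by linarith) (by linarith) 5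
        calc Cf * (1 + 1 / (1 - 1 / z).im) ^ 5 ≤ |Cf| * (1 + 1 / (1 - 1 / z).im) ^ 5 :=
              mul_le_mul_of_nonneg_right (le_abs_self _) (by positivity)
          _ ≤ |Cf| * (3 + z.im) ^ 5 := mul_le_mul_of_nonneg_left h6 (abs_nonneg _)
      have h5 : rexp (-(2 * π * z.im)) ≤ ‖th2 z‖ ^ 8 := by
        have h6 := pow_le_pow_left₀ (Real.exp_pos _).le (th2_low (τ := z) (by linarith)) 8
        rw [← Real.exp_nat_mul] at h6
        refine le_of_eq_of_le ?_ h6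
        congr 1
        push_cast
        ring
      have h6 : 1 ≤ ‖(-I * z) ^ (1 / 2 : ℂ)‖ ^ 9 := one_le_pow₀ (fOne_w_ge hz1)
      have h7 : ‖th2 z‖ * ‖f (1 - 1 / z)‖ * rexp (-(2 * π * z.im)) ≤ |Cf| * (3 + z.im) ^ 5 := by
        calc ‖th2 z‖ * ‖f (1 - 1 / z)‖ * rexp (-(2 * π * z.im))
            ≤ ‖th2 z‖ * ‖f (1 - 1 / z)‖ * ‖th2 z‖ ^ 8 :=
              mul_le_mul_of_nonneg_left h5 (by positivity)
          _ = (‖f (1 - 1 / z)‖ * ‖th2 z‖ ^ 9) * 1 := by ring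
          _ ≤ (‖f (1 - 1 / z)‖ * ‖th2 z‖ ^ 9) * ‖(-I * z) ^ (1 / 2 : ℂ)‖ ^ 9 :=
              mul_le_mul_of_nonneg_left h6 (by positivity)
          _ = ‖f (1 - 1 / z)‖ * (‖(-I * z) ^ (1 / 2 : ℂ)‖ ^ 9 * ‖th2 z‖ ^ 9) := by ring
          _ ≤ _ := h2.trans h4
      rw [Real.exp_neg, ← div_eq_mul_inv, div_le_iff₀ (Real.exp_pos _)] at h7
      exact h7
    have h2 := hexb z hz1
    have h3 : ‖P z‖ ≤ |CP| := (hPb z (by linarith) (by linarith)).trans (le_abs_self _)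
    have h4 := fOne_pow z.im hz0.le
    rw [← hK] at h4
    have h5 : ‖hat F₀ z‖ ≤ |Cf| * K * rexp (9 * π / 4 * z.im) := by
      refine h1.trans ?_
      have e1 : rexp (9 * π / 4 * z.im) = rexp (π / 4 * z.im) * rexp (2 * π * z.im) := by
        rw [← Real.exp_add]
        congr 1
        ring
      rw [e1]
      calc |Cf| * (3 + z.im) ^ 5 * rexp (2 * π * z.im)
          ≤ |Cf| * (K * rexp (π / 4 * z.im)) * rexp (2 * π * z.im) := by
            apply mul_le_mul_of_nonneg_right _ (Real.exp_pos _).le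
            exact mul_le_mul_of_nonneg_left h4 (abs_nonneg _)
        _ = _ := by ring
    simp only [hk]
    rw [norm_mul, fOne_exp_norm, hatsub]
    have h6 : ‖hat F₀ z - hat (ex x) z - P z‖ ≤ B * rexp (9 * π / 4 * z.im) := by
      have h7 : 1 ≤ rexp (9 * π / 4 * z.im) := Real.one_le_exp (by positivity)
      have h8 : 1 + |CP| ≤ (1 + |CP|) * rexp (9 * π / 4 * z.im) :=
        le_mul_of_one_le_right (by positivity) h7
      calc ‖hat F₀ z - hat (ex x) z - P z‖ ≤ ‖hat F₀ z‖ + ‖hat (ex x) z‖ + ‖P z‖ :=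
            (norm_sub_le _ _).trans (add_le_add (norm_sub_le _ _) le_rfl)
        _ ≤ |Cf| * K * rexp (9 * π / 4 * z.im) + (1 + |CP|) * rexp (9 * π / 4 * z.im) := by
            linarith
        _ = _ := by rw [hB]; ring
    calc ‖hat F₀ z - hat (ex x) z - P z‖ * rexp (-(3 * π * z.im / 4))
        ≤ (B * rexp (9 * π / 4 * z.im)) * rexp (-(3 * π * z.im / 4)) :=
          mul_le_mul_of_nonneg_right h6 (Real.exp_pos _).le
      _ = B * rexp (3 * π / 2 * z.im) := by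
          rw [mul_assoc, ← Real.exp_add]
          congr 2
          ring
  have kb : ∀ z : ℂ, 1 < z.im → ‖k z‖ ≤ B * rexp (3 * π / 2 * z.im) := by
    intro z hz
    have h1 : 1 < (z + ((-round z.re : ℤ) : ℂ)).im := by simpa using hz
    have h2 : |(z + ((-round z.re : ℤ) : ℂ)).re| ≤ 1 / 2 := by
      have h3 := abs_sub_round z.re
      have h4 : (z + ((-round z.re : ℤ) : ℂ)).re = z.re - round z.re := by
        simp
        ring
      rw [h4]
      exact h3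
    have h3 := kb0 _ h1 h2
    rw [fOne_per kp (-round z.re) z hz] at h3
    have h4 : (z + ((-round z.re : ℤ) : ℂ)).im = z.im := by simp
    rw [h4] at h3
    exact h3
  obtain ⟨k₀, C1, hk1⟩ := perlim k 1 B (3 * π / 2) (by linarith [Real.pi_pos]) kd kp kb
  obtain ⟨F, hF⟩ : ∃ F : ℂ → ℂ, F = fun τ => F₀ τ - k₀ / m₀ * (jacobiTheta τ * Lam τ) :=
    ⟨_, rfl⟩
  have Fd : DifferentiableOn ℂ F {τ : ℂ | 0 < τ.im} := by
    intro τ hτ
    rw [hF]
    exact ((F0d.differentiableAt (fOne_open.mem_nhds hτ)).sub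
      (((differentiableAt_jacobiTheta hτ).mul
        (differentiableAt_Lam hτ)).const_mul _)).differentiableWithinAt
  refine ⟨F, Fd, ?_, ?_, ?_, ?_⟩
  · intro τ hτ
    simp only [hF]
    rw [F0p τ hτ, Lam_add_two hτ, add_comm τ 2, jacobiTheta_two_add]
  · intro τ hτ
    simp only [hF]
    rw [mul_sub, Lam_inv hτ]
    have h1 := F0i τ hτ
    have h2 := fOne_theta_inv hτ (-Lam τ)
    linear_combination h1 - k₀ / m₀ * h2
  · refine ⟨|CP| + 1 + (|C1| + ‖k₀ / m₀‖ * |CM|), fun z hz hr => ?_⟩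
    have hz0 : 0 < z.im := by linarith
    have h1 := hk1 z (by linarith)
    have h2 := hM z hz
    have h3 := hexb z (by linarith)
    have h4 : ‖P z‖ ≤ |CP| := (hPb z (by linarith) (by linarith)).trans (le_abs_self _)
    have h5 : hat F z = hat F₀ z - k₀ / m₀ * (th2 z * Lam (1 - 1 / z)) := by
      have h6 := fOne_hat_theta hz0 Lam
      rw [← h6, hF]
      simp only [hat]
      ring
    have hE : cexp (-(3 * π * I * z / 4)) * cexp (3 * π * I * z / 4) = 1 := by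
      rw [← Complex.exp_add, neg_add_cancel, Complex.exp_zero]
    have h6 : hat F z = P z + hat (ex x) z + cexp (-(3 * π * I * z / 4)) * ((k z - k₀) -
        k₀ / m₀ * (th2 z * Lam (1 - 1 / z) * cexp (3 * π * I * z / 4) - m₀)) := by
      have h7 : k₀ / m₀ * m₀ = k₀ := div_mul_cancel₀ _ hm0
      rw [h5]
      simp only [hk]
      rw [hatsub]
      linear_combination (-(hat F₀ z - hat (ex x) z - P z) +
        k₀ / m₀ * (th2 z * Lam (1 - 1 / z))) * hE - cexp (-(3 * π * I * z / 4)) * h7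
    have h7 : ‖cexp (-(3 * π * I * z / 4))‖ = rexp (3 * π * z.im / 4) := by
      rw [Complex.exp_neg, norm_inv, fOne_exp_norm, ← Real.exp_neg, neg_neg]
    have h8 : ‖(k z - k₀) - k₀ / m₀ * (th2 z * Lam (1 - 1 / z) *
        cexp (3 * π * I * z / 4) - m₀)‖ ≤ (|C1| + ‖k₀ / m₀‖ * |CM|) *
        rexp (-(2 * π * z.im)) := by
      have h9 : C1 * rexp (-(2 * π * z.im)) ≤ |C1| * rexp (-(2 * π * z.im)) :=
        mul_le_mul_of_nonneg_right (le_abs_self _) (Real.exp_pos _).le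
      have h10 : CM * rexp (-(2 * π * z.im)) ≤ |CM| * rexp (-(2 * π * z.im)) :=
        mul_le_mul_of_nonneg_right (le_abs_self _) (Real.exp_pos _).le
      have h11 : ‖k₀ / m₀ * (th2 z * Lam (1 - 1 / z) * cexp (3 * π * I * z / 4) - m₀)‖ ≤
          ‖k₀ / m₀‖ * (|CM| * rexp (-(2 * π * z.im))) := by
        rw [norm_mul]
        exact mul_le_mul_of_nonneg_left (h2.trans h10) (norm_nonneg _)
      calc _ ≤ ‖k z - k₀‖ + ‖k₀ / m₀ * (th2 z * Lam (1 - 1 / z) *
            cexp (3 * π * I * z / 4) - m₀)‖ := norm_sub_le _ _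
        _ ≤ |C1| * rexp (-(2 * π * z.im)) + ‖k₀ / m₀‖ * (|CM| * rexp (-(2 * π * z.im))) :=
            add_le_add (h1.trans h9) h11
        _ = _ := by ring
    have h9 : rexp (3 * π * z.im / 4) * rexp (-(2 * π * z.im)) ≤ 1 := by
      rw [← Real.exp_add]
      apply Real.exp_le_one_iff.2
      have := Real.pi_pos
      nlinarith [mul_pos this hz0]
    rw [h6]
    calc _ ≤ ‖P z‖ + ‖hat (ex x) z‖ + ‖cexp (-(3 * π * I * z / 4)) * ((k z - k₀) -
        k₀ / m₀ * (th2 z * Lam (1 - 1 / z) * cexp (3 * π * I * z / 4) - m₀))‖ :=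
          (norm_add_le _ _).trans (add_le_add (norm_add_le _ _) le_rfl)
      _ ≤ |CP| + 1 + rexp (3 * π * z.im / 4) * ((|C1| + ‖k₀ / m₀‖ * |CM|) *
          rexp (-(2 * π * z.im))) := by
          rw [norm_mul, h7]
          exact add_le_add (add_le_add h4 h3) (mul_le_mul_of_nonneg_left h8 (Real.exp_pos _).le)
      _ = |CP| + 1 + (|C1| + ‖k₀ / m₀‖ * |CM|) * (rexp (3 * π * z.im / 4) *
          rexp (-(2 * π * z.im))) := by ring
      _ ≤ |CP| + 1 + (|C1| + ‖k₀ / m₀‖ * |CM|) * 1 := by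
          have : 0 ≤ |C1| + ‖k₀ / m₀‖ * |CM| := by positivity
          exact add_le_add le_rfl (mul_le_mul_of_nonneg_left h9 this)
      _ = _ := by ring
  · obtain ⟨CL, hCL, hL⟩ := Lam_inf
    have hcomp : IsCompact {τ : ℂ | |τ.re| ≤ 1 ∧ 1 / 10 ≤ τ.im ∧ τ.im ≤ 1 / 2} := by
      refine Metric.isCompact_of_isClosed_isBounded ?_ ?_
      · refine IsClosed.inter ?_ (IsClosed.inter ?_ ?_)
        · exact isClosed_le (continuous_abs.comp Complex.continuous_re) continuous_const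
        · exact isClosed_le continuous_const Complex.continuous_im
        · exact isClosed_le Complex.continuous_im continuous_const
      · refine (Metric.isBounded_closedBall (x := (0 : ℂ)) (r := 2)).subset ?_
        rintro τ ⟨h1, h2, h3⟩
        rw [mem_closedBall_zero_iff]
        have h4 := Complex.norm_le_abs_re_add_abs_im τ
        have h5 : |τ.im| ≤ 1 / 2 := abs_le.2 ⟨by linarith, h3⟩
        linarith
    have hcont : ContinuousOn F {τ : ℂ | |τ.re| ≤ 1 ∧ 1 / 10 ≤ τ.im ∧ τ.im ≤ 1 / 2} := by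
      refine Fd.continuousOn.mono ?_
      rintro τ ⟨-, h2, -⟩
      exact lt_of_lt_of_le (by norm_num) h2
    obtain ⟨C2, hC2⟩ := hcomp.exists_bound_of_continuousOn hcont
    refine ⟨max C2 (|Cf| * 3 ^ 5 * 2 ^ 8 + ‖k₀ / m₀‖ * (3 / 2 * (1 + CL))), fun τ hτ hr => ?_⟩
    rcases le_or_gt τ.im (1 / 2) with h | h
    · exact (hC2 τ ⟨hr, hτ, h⟩).trans (le_max_left _ _)
    · refine le_trans ?_ (le_max_right _ _)
      have hτ0 : 0 < τ.im := by linarith
      have h1 := theta_sub_one h.le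
      have h2 : 1 / 2 ≤ ‖jacobiTheta τ‖ := by
        have := norm_sub_norm_le (1 : ℂ) (jacobiTheta τ)
        rw [norm_sub_rev, norm_one] at this
        linarith
      have h3 : ‖jacobiTheta τ‖ ≤ 3 / 2 := by
        have := norm_sub_norm_le (jacobiTheta τ) (1 : ℂ)
        rw [norm_one] at this
        linarith
      have h4 : ‖Lam τ‖ ≤ 1 + CL := by
        have h5 := hL τ h.le
        have h6 : CL * rexp (-(π * τ.im)) ≤ CL :=
          mul_le_of_le_one_right hCL.le (Real.exp_le_one_iff.2 (by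
            have := mul_pos Real.pi_pos hτ0
            linarith))
        have := norm_sub_norm_le (Lam τ) (1 : ℂ)
        rw [norm_one] at this
        linarith
      have h5 := hfb τ hτ0 (by linarith)
      have h6 : Cf * (1 + 1 / τ.im) ^ 5 ≤ |Cf| * 3 ^ 5 := by
        have h7 : 1 / τ.im ≤ 2 := by
          rw [div_le_iff₀ hτ0]
          linarith
        have h8 : (1 + 1 / τ.im) ^ 5 ≤ 3 ^ 5 := pow_le_pow_left₀ (by positivity) (by linarith) 5
        calc Cf * (1 + 1 / τ.im) ^ 5 ≤ |Cf| * (1 + 1 / τ.im) ^ 5 :=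
              mul_le_mul_of_nonneg_right (le_abs_self _) (by positivity)
          _ ≤ |Cf| * 3 ^ 5 := mul_le_mul_of_nonneg_left h8 (abs_nonneg _)
      have h7 : ‖F₀ τ‖ ≤ |Cf| * 3 ^ 5 * 2 ^ 8 := by
        rw [hF₀]
        simp only []
        rw [norm_mul]
        have h8 : (1 / 2 : ℝ) ^ 8 ≤ ‖jacobiTheta τ‖ ^ 8 := pow_le_pow_left₀ (by norm_num) h2 8
        have h9 : ‖jacobiTheta τ‖ * ‖f τ‖ * (1 / 2 : ℝ) ^ 8 ≤ |Cf| * 3 ^ 5 := by
          calc ‖jacobiTheta τ‖ * ‖f τ‖ * (1 / 2 : ℝ) ^ 8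
              ≤ ‖jacobiTheta τ‖ * ‖f τ‖ * ‖jacobiTheta τ‖ ^ 8 :=
                mul_le_mul_of_nonneg_left h8 (by positivity)
            _ = ‖f τ‖ * ‖jacobiTheta τ‖ ^ 9 := by ring
            _ ≤ _ := h5.trans h6
        norm_num at h9 ⊢
        linarith
      simp only [hF]
      calc _ ≤ ‖F₀ τ‖ + ‖k₀ / m₀ * (jacobiTheta τ * Lam τ)‖ := norm_sub_le _ _
        _ ≤ _ := by
          rw [norm_mul (k₀ / m₀), norm_mul (jacobiTheta τ)]
          refine add_le_add h7 (mul_le_mul_of_nonneg_left ?_ (norm_nonneg _))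
          exact mul_le_mul h3 h4 (norm_nonneg _) (by norm_num)

end Pool.Agent.Helper31.FI
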