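import Pool.Agent.Helper31.FI.Psi
import Pool.Agent.Helper31.FI.EisId

/-!
# FI-F0: a first solution

`Ψ` from `psi_exists`; `S τ = ∑ over rows of Ψ c d τ (c τ + d)^(-4)` (all rows), `f = - S / E4 = - S/(2 θ⁸)`.
Bound: `‖θ Ψ‖ ≤ 2 |c| (im τ)^(-1/4) m^(1/4)`, `m = max (im τ) (1/im τ)` (`Hm_max`), `|c| ≤ |cτ+d|/im τ`, so
`‖θ S‖ ≤ 2 (im τ)^(-1/4) m^(1/4) (1/im τ) G3 τ ≤ C (1 + 1/im τ)^5` for `|re τ| ≤ 2` (`G3_le`); the same bounds with `low_lin`
give locally uniform convergence, hence differentiability.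
`S (τ + 2) = S τ` and `S (-1/τ) = - τ⁴ (rh x τ E4 τ + S τ)` by reindexing with `row_T`, `row_S`:
`Ψ c d (-1/τ) = - rh x τ - Ψ d (-c) τ`, `(-c/τ + d)^(-4) = τ⁴ (d τ - c)^(-4)`.
So `f (-1/τ) = rh x τ - f τ` with `E4_S`.
-/

set_option autoImplicit false

namespace Pool.Agent.Helper31.FI

open Complex Real

open Classical in
/-- the terms of the series -/
private noncomputable def FZero_term (Ψ : ℤ → ℤ → ℂ → ℂ) (v : ℤ × ℤ) (τ : ℂ) : ℂ :=
  if Row v.1 v.2 then Ψ v.1 v.2 τ * ((v.1 : ℂ) * τ + v.2) ^ (-4 : ℤ) else 0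

open Classical in
/-- the terms of the Eisenstein series -/
private noncomputable def FZero_e (v : ℤ × ℤ) (τ : ℂ) : ℂ :=
  if Row v.1 v.2 then ((v.1 : ℂ) * τ + v.2) ^ (-4 : ℤ) else 0

private theorem FZero_max {c d : ℤ} (h : Row c d) : 1 ≤ max |(c : ℝ)| |(d : ℝ)| := by
  by_contra hcon
  rw [not_le, max_lt_iff, ← Int.cast_abs, ← Int.cast_abs] at hcon
  obtain ⟨h1, h2⟩ := hcon
  have h3 : |c| < 1 := by exact_mod_cast h1
  have h4 : |d| < 1 := by exact_mod_cast h2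
  rw [Int.abs_lt_one_iff] at h3 h4
  have h5 := h.2
  rw [h3, h4] at h5
  exact absurd h5 (by decide)

private theorem FZero_pos {τ : ℂ} (hτ : 0 < τ.im) {c d : ℤ} (h : Row c d) :
    0 < ‖(c : ℂ) * τ + d‖ := by
  have h1 := low_lin hτ le_rfl c d
  have h2 := (FZero_max h).trans h1
  by_contra hcon
  have h3 : ‖(c : ℂ) * τ + d‖ = 0 := le_antisymm (not_lt.1 hcon) (norm_nonneg _)
  rw [h3, mul_zero] at h2
  linarith

private theorem FZero_c {τ : ℂ} (hτ : 0 < τ.im) (c d : ℤ) :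
    |(c : ℝ)| ≤ ‖(c : ℂ) * τ + d‖ / τ.im := by
  rw [le_div_iff₀ hτ]
  have h1 := Complex.abs_im_le_norm ((c : ℂ) * τ + d)
  have h2 : ((c : ℂ) * τ + d).im = c * τ.im := by simp
  rw [h2, abs_mul, abs_of_pos hτ] at h1
  exact h1

private theorem FZero_rpow {N : ℝ} (hN : 0 < N) : N ^ (-3 : ℝ) = (N ^ 3)⁻¹ := by
  rw [Real.rpow_neg hN.le]
  norm_cast

private theorem FZero_zpow (z : ℂ) : ‖z ^ (-4 : ℤ)‖ = (‖z‖ ^ 4)⁻¹ := by
  rw [norm_zpow, zpow_neg]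
  norm_cast

section

variable {Ψ : ℤ → ℤ → ℂ → ℂ}

/-- the bound of a term -/
private theorem FZero_bound
    (hB : ∀ c d : ℤ, Row c d → ∀ (m : ℝ) (τ : ℂ), Hm m τ →
      τ.im ^ (1 / 4 : ℝ) * ‖jacobiTheta τ * Ψ c d τ‖ ≤ 2 * |(c : ℝ)| * m ^ (1 / 4 : ℝ))
    {m : ℝ} {τ : ℂ} (hm : Hm m τ) (v : ℤ × ℤ) :
    ‖jacobiTheta τ * FZero_term Ψ v τ‖ ≤
      2 * m ^ (1 / 4 : ℝ) / τ.im ^ (1 / 4 : ℝ) * (1 / τ.im) *
        ‖(v.1 : ℂ) * τ + v.2‖ ^ (-3 : ℝ) := by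
  have hτ := hm.1
  have hm0 : 0 ≤ m := by
    have h1 := hm.2 0 1 (by simp)
    refine le_trans ?_ h1
    positivity
  have hi : 0 < τ.im ^ (1 / 4 : ℝ) := Real.rpow_pos_of_pos hτ _
  unfold FZero_term
  split_ifs with hr
  · have hN := FZero_pos hτ hr
    have h1 := hB v.1 v.2 hr m τ hm
    have h2 := FZero_c hτ v.1 v.2
    set N := ‖(v.1 : ℂ) * τ + v.2‖ with hNdef
    have h3 : ‖jacobiTheta τ * Ψ v.1 v.2 τ‖ ≤ 2 * |(v.1 : ℝ)| * m ^ (1 / 4 : ℝ) /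
        τ.im ^ (1 / 4 : ℝ) := by
      rw [le_div_iff₀ hi, mul_comm]
      exact h1
    rw [← mul_assoc, norm_mul, FZero_zpow, FZero_rpow hN]
    have h4 : |(v.1 : ℝ)| * (N ^ 4)⁻¹ ≤ 1 / τ.im * (N ^ 3)⁻¹ := by
      calc |(v.1 : ℝ)| * (N ^ 4)⁻¹ ≤ N / τ.im * (N ^ 4)⁻¹ :=
            mul_le_mul_of_nonneg_right h2 (by positivity)
        _ = 1 / τ.im * (N ^ 3)⁻¹ := by
            field_simp
    calc ‖jacobiTheta τ * Ψ v.1 v.2 τ‖ * (N ^ 4)⁻¹
        ≤ 2 * |(v.1 : ℝ)| * m ^ (1 / 4 : ℝ) / τ.im ^ (1 / 4 : ℝ) * (N ^ 4)⁻¹ :=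
          mul_le_mul_of_nonneg_right h3 (by positivity)
      _ = 2 * m ^ (1 / 4 : ℝ) / τ.im ^ (1 / 4 : ℝ) * (|(v.1 : ℝ)| * (N ^ 4)⁻¹) := by ring
      _ ≤ 2 * m ^ (1 / 4 : ℝ) / τ.im ^ (1 / 4 : ℝ) * (1 / τ.im * (N ^ 3)⁻¹) :=
          mul_le_mul_of_nonneg_left h4 (by positivity)
      _ = _ := by ring
  · rw [mul_zero, norm_zero]
    have := Real.rpow_nonneg (norm_nonneg ((v.1 : ℂ) * τ + v.2)) (-3 : ℝ)
    positivity

private theorem FZero_summable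
    (hB : ∀ c d : ℤ, Row c d → ∀ (m : ℝ) (τ : ℂ), Hm m τ →
      τ.im ^ (1 / 4 : ℝ) * ‖jacobiTheta τ * Ψ c d τ‖ ≤ 2 * |(c : ℝ)| * m ^ (1 / 4 : ℝ))
    {τ : ℂ} (hτ : 0 < τ.im) : Summable fun v => FZero_term Ψ v τ := by
  have h1 : Summable fun v => jacobiTheta τ * FZero_term Ψ v τ :=
    Summable.of_norm_bounded ((summable_G3 hτ).mul_left _) (FZero_bound hB (Hm_max hτ))
  have h2 := h1.mul_left (jacobiTheta τ)⁻¹
  refine h2.congr fun v => ?_
  rw [inv_mul_cancel_left₀ (theta_ne hτ)]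

private theorem FZero_e_summable {τ : ℂ} (hτ : 0 < τ.im) : Summable fun v => FZero_e v τ := by
  refine Summable.of_norm_bounded
    ((summable_G3 hτ).mul_left (1 + (1 + |τ.re|) / τ.im)) fun v => ?_
  unfold FZero_e
  split_ifs with hr
  · have hN := FZero_pos hτ hr
    have h1 := (FZero_max hr).trans (low_lin hτ le_rfl v.1 v.2)
    rw [FZero_zpow, FZero_rpow hN]
    set N := ‖(v.1 : ℂ) * τ + v.2‖ with hNdef
    calc (N ^ 4)⁻¹ = 1 * (N ^ 4)⁻¹ := (one_mul _).symm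
      _ ≤ ((1 + (1 + |τ.re|) / τ.im) * N) * (N ^ 4)⁻¹ :=
          mul_le_mul_of_nonneg_right h1 (by positivity)
      _ = (1 + (1 + |τ.re|) / τ.im) * (N ^ 3)⁻¹ := by
          field_simp
  · rw [norm_zero]
    have := Real.rpow_nonneg (norm_nonneg ((v.1 : ℂ) * τ + v.2)) (-3 : ℝ)
    positivity

/-- the sum is holomorphic -/
private theorem FZero_diff
    (hB : ∀ c d : ℤ, Row c d → ∀ (m : ℝ) (τ : ℂ), Hm m τ →
      τ.im ^ (1 / 4 : ℝ) * ‖jacobiTheta τ * Ψ c d τ‖ ≤ 2 * |(c : ℝ)| * m ^ (1 / 4 : ℝ))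
    (hD : ∀ c d : ℤ, Row c d → DifferentiableOn ℂ (Ψ c d) {τ : ℂ | 0 < τ.im}) :
    DifferentiableOn ℂ (fun τ => ∑' v, FZero_term Ψ v τ) {τ : ℂ | 0 < τ.im} := by
  intro τ₀ hτ₀
  have hτ₀' : 0 < τ₀.im := hτ₀
  set y0 := τ₀.im / 2 with hy0
  set y1 := 2 * τ₀.im with hy1
  set R := |τ₀.re| + 1 with hR
  set t := ‖jacobiTheta τ₀‖ / 2 with ht
  have ht0 : 0 < t := by
    have := norm_pos_iff.2 (theta_ne hτ₀')
    positivity
  have hy00 : 0 < y0 := by positivity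
  set M := max y1 (1 / y0) with hM
  have hM0 : 0 < M := lt_of_lt_of_le (by positivity) (le_max_right _ _)
  set A := 1 + (1 + R) / y0 with hA
  have hA0 : 0 < A := by positivity
  set H : Set ℂ := {τ : ℂ | 0 < τ.im} with hH
  have hHo : IsOpen H := isOpen_lt continuous_const Complex.continuous_im
  have hθc : ContinuousOn (fun τ => ‖jacobiTheta τ‖) H := fun τ hτ =>
    ((differentiableAt_jacobiTheta hτ).continuousAt.norm).continuousWithinAt
  set U : Set ℂ := (H ∩ (fun τ => ‖jacobiTheta τ‖) ⁻¹' Set.Ioi t) ∩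
    ({τ : ℂ | y0 < τ.im} ∩ ({τ : ℂ | τ.im < y1} ∩ {τ : ℂ | |τ.re| < R})) with hU
  have hUo : IsOpen U := by
    refine (hθc.isOpen_inter_preimage hHo isOpen_Ioi).inter ?_
    refine (isOpen_lt continuous_const Complex.continuous_im).inter ?_
    exact (isOpen_lt Complex.continuous_im continuous_const).inter
      (isOpen_lt Complex.continuous_re.abs continuous_const)
  have hUmem : τ₀ ∈ U := by
    refine ⟨⟨hτ₀, ?_⟩, ?_, ?_, ?_⟩
    · have := norm_pos_iff.2 (theta_ne hτ₀')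
      change t < ‖jacobiTheta τ₀‖
      rw [ht]
      linarith
    · change y0 < τ₀.im
      rw [hy0]
      linarith
    · change τ₀.im < y1
      rw [hy1]
      linarith
    · change |τ₀.re| < R
      rw [hR]
      linarith
  have key : DifferentiableOn ℂ (fun τ => ∑' v, FZero_term Ψ v τ) U := by
    refine differentiableOn_tsum_of_summable_norm
      (u := fun v : ℤ × ℤ => (2 * M ^ (1 / 4 : ℝ) / y0 ^ (1 / 4 : ℝ) / t * A ^ 4) *
        (max |(v.1 : ℝ)| |(v.2 : ℝ)|) ^ (-3 : ℝ)) (summable_max.mul_left _) ?_ hUo ?_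
    · intro v
      unfold FZero_term
      by_cases hr : Row v.1 v.2
      · simp only [if_pos hr]
        intro τ hτ
        have hτ' : 0 < τ.im := hτ.1.1
        have h1 : DifferentiableAt ℂ (Ψ v.1 v.2) τ :=
          (hD v.1 v.2 hr).differentiableAt (hHo.mem_nhds hτ.1.1)
        have h2 : ((v.1 : ℂ) * τ + v.2) ≠ 0 := norm_pos_iff.1 (FZero_pos hτ' hr)
        have h3 : DifferentiableAt ℂ (fun τ : ℂ => ((v.1 : ℂ) * τ + v.2) ^ (-4 : ℤ)) τ := by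
          have h4 : DifferentiableAt ℂ (fun τ : ℂ => (v.1 : ℂ) * τ + v.2) τ := by fun_prop
          exact h4.zpow (Or.inl h2)
        exact (h1.mul h3).differentiableWithinAt
      · simp only [if_neg hr]
        exact differentiableOn_const _
    · intro v τ hτ
      have hτ' : 0 < τ.im := hτ.1.1
      have hθ : t < ‖jacobiTheta τ‖ := hτ.1.2
      have h0 : y0 < τ.im := hτ.2.1
      have h1 : τ.im < y1 := hτ.2.2.1
      have h2 : |τ.re| < R := hτ.2.2.2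
      have hmM : Hm M τ := by
        refine ⟨hτ', fun p q hpq => ?_⟩
        refine ((Hm_max hτ').2 p q hpq).trans ?_
        exact max_le_max h1.le (one_div_le_one_div_of_le hy00 h0.le)
      unfold FZero_term
      split_ifs with hr
      · have hN := FZero_pos hτ' hr
        have hlow := low_lin hτ' h2.le v.1 v.2
        have hmx := FZero_max hr
        have h3 := hB v.1 v.2 hr M τ hmM
        set N := ‖(v.1 : ℂ) * τ + v.2‖ with hNdef
        set mx := max |(v.1 : ℝ)| |(v.2 : ℝ)| with hmxdef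
        have hmx0 : 0 < mx := by linarith
        have hAN : mx ≤ A * N := by
          refine hlow.trans (mul_le_mul_of_nonneg_right ?_ hN.le)
          rw [hA]
          have : (1 + R) / τ.im ≤ (1 + R) / y0 :=
            div_le_div_of_nonneg_left (by positivity) hy00 h0.le
          linarith
        have h4 : ‖Ψ v.1 v.2 τ‖ ≤ 2 * mx * M ^ (1 / 4 : ℝ) / y0 ^ (1 / 4 : ℝ) / t := by
          rw [le_div_iff₀ ht0, le_div_iff₀ (Real.rpow_pos_of_pos hy00 _)]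
          have h5 : y0 ^ (1 / 4 : ℝ) ≤ τ.im ^ (1 / 4 : ℝ) :=
            Real.rpow_le_rpow hy00.le h0.le (by norm_num)
          calc ‖Ψ v.1 v.2 τ‖ * t * y0 ^ (1 / 4 : ℝ)
              ≤ ‖Ψ v.1 v.2 τ‖ * ‖jacobiTheta τ‖ * τ.im ^ (1 / 4 : ℝ) := by
                refine mul_le_mul ?_ h5 (by positivity) (by positivity)
                exact mul_le_mul_of_nonneg_left hθ.le (norm_nonneg _)
            _ = τ.im ^ (1 / 4 : ℝ) * ‖jacobiTheta τ * Ψ v.1 v.2 τ‖ := by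
                rw [norm_mul]
                ring
            _ ≤ 2 * |(v.1 : ℝ)| * M ^ (1 / 4 : ℝ) := h3
            _ ≤ 2 * mx * M ^ (1 / 4 : ℝ) := by
                have h6 : |(v.1 : ℝ)| ≤ mx := le_max_left _ _
                have h7 : 0 ≤ M ^ (1 / 4 : ℝ) := by positivity
                nlinarith
        rw [norm_mul, FZero_zpow, FZero_rpow hmx0]
        have h8 : (N ^ 4)⁻¹ ≤ A ^ 4 * (mx ^ 4)⁻¹ := by
          have h9 : mx ^ 4 ≤ (A * N) ^ 4 := pow_le_pow_left₀ hmx0.le hAN 4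
          rw [mul_pow] at h9
          rw [inv_eq_one_div, inv_eq_one_div, div_le_iff₀ (by positivity), mul_one_div,
            div_mul_eq_mul_div, le_div_iff₀ (by positivity)]
          linarith
        calc ‖Ψ v.1 v.2 τ‖ * (N ^ 4)⁻¹
            ≤ (2 * mx * M ^ (1 / 4 : ℝ) / y0 ^ (1 / 4 : ℝ) / t) * (A ^ 4 * (mx ^ 4)⁻¹) :=
              mul_le_mul h4 h8 (by positivity) (by positivity)
          _ = _ := by
              field_simp
      · rw [norm_zero]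
        have h3 : 0 ≤ (max |(v.1 : ℝ)| |(v.2 : ℝ)|) ^ (-3 : ℝ) :=
          Real.rpow_nonneg (le_max_of_le_left (abs_nonneg _)) _
        have h4 : 0 ≤ 2 * M ^ (1 / 4 : ℝ) / y0 ^ (1 / 4 : ℝ) / t * A ^ 4 := by positivity
        exact mul_nonneg h4 h3
  exact (key.differentiableAt (hUo.mem_nhds hUmem)).differentiableWithinAt

private theorem FZero_quarter {y : ℝ} (hy : 0 < y) :
    (max y (1 / y)) ^ (1 / 4 : ℝ) / y ^ (1 / 4 : ℝ) ≤ 1 + 1 / y := by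
  have h0 : 0 < max y (1 / y) := lt_of_lt_of_le hy (le_max_left _ _)
  rw [← Real.div_rpow h0.le hy.le]
  have h1 : max y (1 / y) / y ≤ (1 + 1 / y) ^ 4 := by
    have h2 : 1 ≤ 1 + 1 / y := by
      have : 0 < 1 / y := by positivity
      linarith
    have h3 : max y (1 / y) / y ≤ (1 + 1 / y) ^ 2 := by
      rw [div_le_iff₀ hy]
      apply max_le
      · have h4 : 1 ≤ (1 + 1 / y) ^ 2 := one_le_pow₀ h2
        nlinarith
      · have h5 : (1 + 1 / y) ^ 2 * y = y + 2 + 1 / y := by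
          field_simp
          ring
        rw [h5]
        linarith
    exact h3.trans (pow_le_pow_right₀ h2 (by norm_num))
  have h6 : 0 ≤ max y (1 / y) / y := by positivity
  calc (max y (1 / y) / y) ^ (1 / 4 : ℝ) ≤ ((1 + 1 / y) ^ 4) ^ (1 / 4 : ℝ) :=
        Real.rpow_le_rpow h6 h1 (by norm_num)
    _ = 1 + 1 / y := by
        rw [← Real.rpow_natCast, ← Real.rpow_mul (by positivity)]
        norm_num

end

private theorem FZero_T {Ψ : ℤ → ℤ → ℂ → ℂ}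
    (h1 : ∀ c d : ℤ, Row c d → ∀ τ : ℂ, 0 < τ.im → Ψ c (d + 2 * c) τ = Ψ c d (τ + 2))
    {τ : ℂ} (hτ : 0 < τ.im) :
    ∑' v, FZero_term Ψ v (τ + 2) = ∑' v, FZero_term Ψ v τ := by
  classical
  let e : ℤ × ℤ ≃ ℤ × ℤ :=
    { toFun := fun v => (v.1, v.2 + 2 * v.1)
      invFun := fun v => (v.1, v.2 - 2 * v.1)
      left_inv := fun v => by simp
      right_inv := fun v => by simp }
  rw [← Equiv.tsum_eq e (fun v => FZero_term Ψ v τ)]
  refine tsum_congr fun v => ?_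
  unfold FZero_term
  change _ = if Row v.1 (v.2 + 2 * v.1) then Ψ v.1 (v.2 + 2 * v.1) τ *
    ((v.1 : ℂ) * τ + ((v.2 + 2 * v.1 : ℤ) : ℂ)) ^ (-4 : ℤ) else 0
  by_cases hr : Row v.1 v.2
  · rw [if_pos hr, if_pos (row_T.2 hr), h1 v.1 v.2 hr τ hτ]
    congr 2
    push_cast
    ring
  · rw [if_neg hr, if_neg (fun h => hr (row_T.1 h))]

private theorem FZero_S {x : ℝ} {Ψ : ℤ → ℤ → ℂ → ℂ}
    (h2 : ∀ c d : ℤ, Row c d → ∀ τ : ℂ, 0 < τ.im → Ψ d (-c) τ = -rh x τ - Ψ c d (-1 / τ))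
    (hB : ∀ c d : ℤ, Row c d → ∀ (m : ℝ) (τ : ℂ), Hm m τ →
      τ.im ^ (1 / 4 : ℝ) * ‖jacobiTheta τ * Ψ c d τ‖ ≤ 2 * |(c : ℝ)| * m ^ (1 / 4 : ℝ))
    {τ : ℂ} (hτ : 0 < τ.im) :
    ∑' v, FZero_term Ψ v (-1 / τ) =
      -(τ ^ 4 * (rh x τ * E4 τ + ∑' v, FZero_term Ψ v τ)) := by
  classical
  have hne : τ ≠ 0 := by
    rintro rfl
    simp at hτ
  let e : ℤ × ℤ ≃ ℤ × ℤ :=
    { toFun := fun v => (v.2, -v.1)
      invFun := fun v => (-v.2, v.1)
      left_inv := fun v => by simp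
      right_inv := fun v => by simp }
  have hE : E4 τ = ∑' v, FZero_e v τ := rfl
  have h3 : rh x τ * E4 τ + ∑' v, FZero_term Ψ v τ =
      ∑' v, (rh x τ * FZero_e (e v) τ + FZero_term Ψ (e v) τ) := by
    have h4 : Summable fun v => rh x τ * FZero_e (e v) τ :=
      ((e.summable_iff (f := fun v => FZero_e v τ)).2 (FZero_e_summable hτ)).mul_left _
    have h5 : Summable fun v => FZero_term Ψ (e v) τ :=
      (e.summable_iff (f := fun v => FZero_term Ψ v τ)).2 (FZero_summable hB hτ)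
    rw [h4.tsum_add h5, tsum_mul_left, Equiv.tsum_eq e (fun v => FZero_e v τ),
      Equiv.tsum_eq e (fun v => FZero_term Ψ v τ), ← hE]
  rw [h3, ← tsum_mul_left, ← tsum_neg]
  refine tsum_congr fun v => ?_
  unfold FZero_term FZero_e
  change _ = -(τ ^ 4 * (rh x τ * (if Row v.2 (-v.1) then
    ((v.2 : ℂ) * τ + ((-v.1 : ℤ) : ℂ)) ^ (-4 : ℤ) else 0) + (if Row v.2 (-v.1) then
      Ψ v.2 (-v.1) τ * ((v.2 : ℂ) * τ + ((-v.1 : ℤ) : ℂ)) ^ (-4 : ℤ) else 0)))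
  by_cases hr : Row v.1 v.2
  · rw [if_pos hr, if_pos (row_S.2 hr), if_pos (row_S.2 hr), h2 v.1 v.2 hr τ hτ]
    have h6 : ((v.1 : ℂ) * (-1 / τ) + v.2) = ((v.2 : ℂ) * τ + ((-v.1 : ℤ) : ℂ)) / τ := by
      push_cast
      field_simp
      ring
    rw [h6, div_zpow]
    have h7 : (τ ^ (-4 : ℤ)) = (τ ^ 4)⁻¹ := by
      rw [zpow_neg]
      norm_cast
    rw [h7, div_inv_eq_mul]
    ring
  · rw [if_neg hr, if_neg (fun h => hr (row_S.1 h)), if_neg (fun h => hr (row_S.1 h))]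
    simp

theorem f_zero {x : ℝ} (hx : 0 ≤ x) : ∃ f : ℂ → ℂ,
    DifferentiableOn ℂ f {τ : ℂ | 0 < τ.im} ∧
    (∀ τ : ℂ, 0 < τ.im → f (τ + 2) = f τ) ∧
    (∀ τ : ℂ, 0 < τ.im → f τ + f (-1 / τ) = rh x τ) ∧
    ∃ C : ℝ, ∀ τ : ℂ, 0 < τ.im → |τ.re| ≤ 2 →
      ‖f τ‖ * ‖jacobiTheta τ‖ ^ 9 ≤ C * (1 + 1 / τ.im) ^ 5 := by
  obtain ⟨Ψ, h0, h1, h2, hD, hB⟩ := psi_exists hx
  have hE : ∀ τ : ℂ, 0 < τ.im → E4 τ ≠ 0 := by
    intro τ hτ
    rw [E4_eq hτ]
    exact mul_ne_zero two_ne_zero (pow_ne_zero _ (theta_ne hτ))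
  refine ⟨fun τ => -(∑' v, FZero_term Ψ v τ) / E4 τ, ?_, ?_, ?_, ?_⟩
  · exact ((FZero_diff hB hD).neg).div E4_diff fun τ hτ => hE τ hτ
  · intro τ hτ
    simp only
    rw [FZero_T h1 hτ, E4_T hτ]
  · intro τ hτ
    simp only
    have hne : τ ≠ 0 := by
      rintro rfl
      simp at hτ
    have hE' := hE τ hτ
    rw [FZero_S h2 hB hτ, E4_S hτ]
    field_simp
    ring
  · obtain ⟨C, hC0, hC⟩ := G3_le
    refine ⟨C, fun τ hτ hre => ?_⟩
    simp only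
    have hθ := norm_pos_iff.2 (theta_ne hτ)
    have h3 : ‖-(∑' v, FZero_term Ψ v τ) / E4 τ‖ * ‖jacobiTheta τ‖ ^ 9 =
        ‖jacobiTheta τ * ∑' v, FZero_term Ψ v τ‖ / 2 := by
      rw [E4_eq hτ, norm_div, norm_neg, norm_mul, norm_mul, norm_pow, Complex.norm_ofNat]
      field_simp
    rw [h3]
    have hm := Hm_max hτ
    have h4 : ‖jacobiTheta τ * ∑' v, FZero_term Ψ v τ‖ ≤
        2 * (max τ.im (1 / τ.im)) ^ (1 / 4 : ℝ) / τ.im ^ (1 / 4 : ℝ) * (1 / τ.im) * G3 τ := by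
      rw [← tsum_mul_left]
      exact tsum_of_norm_bounded ((summable_G3 hτ).hasSum.mul_left _) (FZero_bound hB hm)
    have h5 := FZero_quarter hτ
    have h6 := hC τ hτ hre
    have h7 : 0 < 1 / τ.im := by positivity
    have h8 : 0 ≤ G3 τ := tsum_nonneg fun v => Real.rpow_nonneg (norm_nonneg _) _
    have h9 : 2 * (max τ.im (1 / τ.im)) ^ (1 / 4 : ℝ) / τ.im ^ (1 / 4 : ℝ) * (1 / τ.im) * G3 τ ≤
        2 * (1 + 1 / τ.im) * (1 + 1 / τ.im) * (C * (1 + 1 / τ.im) ^ 3) := by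
      refine mul_le_mul ?_ h6 h8 (by positivity)
      refine mul_le_mul ?_ (by linarith) h7.le (by positivity)
      rw [mul_div_assoc]
      linarith
    have h10 := h4.trans h9
    have h11 : 2 * (1 + 1 / τ.im) * (1 + 1 / τ.im) * (C * (1 + 1 / τ.im) ^ 3) =
        2 * (C * (1 + 1 / τ.im) ^ 5) := by ring
    rw [h11] at h10
    linarith

end Pool.Agent.Helper31.FI
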