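import Pool.Agent.Helper31.FI.FCusp

/-!
# FI-FB: the size of `F - e` on the fundamental domain

By `Gen.sym` assume `re w ≥ 0`.  Case `im w ≤ 2`: `z = 1/(1-w)`, `κ = im z = im w/|w-1|² ≤ ht w`, `cusp_im`.
`(im w)^(1/4) ‖θ w‖ = (im z)^(1/4) ‖th2 z‖ ≤ 3 κ^(1/4) exp (-π κ/4)`, so with `fcusp`
`(im w)^(1/4) ‖F w‖ ≤ 3 C κ^(1/4) exp (-√(x δ) + π δ κ)`.  Take `δ = min (x/(4π²κ²)) (1/2)`: in the first case the exponent is
`-x/(4πκ)`, in the second (`κ < √x/(π√2)`) it is `≤ -√x/(2√2)`; both are `≤ -c x / max (ht w) (√x)` with `c ≤ 1/(4π)`.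
`‖e‖ = exp (-π x im w)`, `im w = κ/|z|² ≥ (3/10)/κ`.
Case `im w ≥ 2`: `fup` with `δ = 1/2`, `‖θ‖ ≤ 3/2`, `ht w ≥ im w`.
-/

set_option autoImplicit false

namespace Pool.Agent.Helper31.FI

open Complex Real

/-- height of a point of `FD` with respect to the cusps `∞`, `1`, `-1` -/
noncomputable def ht (w : ℂ) : ℝ := max w.im (max (w.im / ‖w - 1‖ ^ 2) (w.im / ‖w + 1‖ ^ 2))

private theorem FactB_near {a v : ℝ} (hv : 0 < v) (h0 : 0 ≤ a) (h1 : a ≤ 1)
    (hn : 1 ≤ a ^ 2 + v ^ 2) (hv2 : v < 1 / 2) : 1 / 2 ≤ v / ((a - 1) ^ 2 + v ^ 2) := by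
  have h2 : 1 - a ≤ v ^ 2 := by nlinarith
  have h3 : (a - 1) ^ 2 ≤ v ^ 2 := by nlinarith
  have h4 : 0 < (a - 1) ^ 2 + v ^ 2 := by positivity
  rw [le_div_iff₀ h4]
  nlinarith

private theorem FactB_nsq (a b : ℂ) : ‖a - b‖ ^ 2 = (a.re - b.re) ^ 2 + (a.im - b.im) ^ 2 := by
  rw [← Complex.normSq_eq_norm_sq, Complex.normSq_apply]
  simp only [Complex.sub_re, Complex.sub_im]
  ring

theorem half_le_ht {w : ℂ} (hw : w ∈ FD) : 1 / 2 ≤ ht w := by
  obtain ⟨h1, h2, h3⟩ := hw
  rw [abs_le] at h2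
  have h4 : 1 ≤ w.re ^ 2 + w.im ^ 2 := by
    have h5 : ‖w‖ ^ 2 = w.re ^ 2 + w.im ^ 2 := by
      rw [← Complex.normSq_eq_norm_sq, Complex.normSq_apply]
      ring
    rw [← h5]
    nlinarith
  unfold ht
  by_cases h5 : 1 / 2 ≤ w.im
  · exact h5.trans (le_max_left _ _)
  · push Not at h5
    rcases le_total 0 w.re with h6 | h6
    · refine le_trans ?_ ((le_max_left _ _).trans (le_max_right _ _))
      have e : ‖w - 1‖ ^ 2 = (w.re - 1) ^ 2 + w.im ^ 2 := by
        rw [FactB_nsq, Complex.one_re, Complex.one_im, sub_zero]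
      rw [e]
      exact FactB_near h1 h6 h2.2 h4 h5
    · refine le_trans ?_ ((le_max_right _ _).trans (le_max_right _ _))
      have e : ‖w + 1‖ ^ 2 = ((-w.re) - 1) ^ 2 + w.im ^ 2 := by
        have e1 : w + 1 = w - (-1) := by ring
        rw [e1, FactB_nsq, Complex.neg_re, Complex.neg_im, Complex.one_re, Complex.one_im]
        ring
      rw [e]
      exact FactB_near h1 (by linarith) (by linarith) (by rw [neg_sq]; exact h4) h5

private theorem FactB_exp {x κ M : ℝ} (hx : 1 ≤ x) (hκ : 0 < κ) (h1 : κ ≤ M) (h2 : √x ≤ M) :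
    ∃ δ : ℝ, 0 < δ ∧ δ ≤ 1 / 2 ∧ -√(x * δ) + π * δ * κ ≤ -(1 / 20 * x / M) := by
  have hx0 : 0 < x := by linarith
  have hM : 0 < M := hκ.trans_le h1
  have hπ := Real.pi_pos
  have hπ4 : π ≤ 4 := Real.pi_le_four
  by_cases h : x ≤ 2 * π ^ 2 * κ ^ 2
  · refine ⟨x / (4 * π ^ 2 * κ ^ 2), by positivity, ?_, ?_⟩
    · rw [div_le_iff₀ (by positivity)]
      linarith
    · have e1 : x * (x / (4 * π ^ 2 * κ ^ 2)) = (x / (2 * π * κ)) ^ 2 := by
        field_simp
        ring
      rw [e1, Real.sqrt_sq (by positivity)]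
      have e2 : π * (x / (4 * π ^ 2 * κ ^ 2)) * κ = x / (4 * π * κ) := by
        field_simp
      have e3 : x / (2 * π * κ) = 2 * (x / (4 * π * κ)) := by
        field_simp
        ring
      rw [e2, e3]
      have e4 : 1 / 20 * x / M ≤ x / (4 * π * κ) := by
        rw [div_le_div_iff₀ hM (by positivity)]
        have e5 : π * κ ≤ 4 * M := mul_le_mul hπ4 h1 hκ.le (by norm_num)
        nlinarith
      linarith
  · push Not at h
    refine ⟨1 / 2, by norm_num, le_rfl, ?_⟩
    set t := √(x * (1 / 2)) with ht'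
    have ht0 : 0 ≤ t := Real.sqrt_nonneg _
    have ht2 : t ^ 2 = x / 2 := by
      rw [ht', Real.sq_sqrt (by positivity)]
      ring
    have hs0 : 0 ≤ √x := Real.sqrt_nonneg _
    have hs2 : √x ^ 2 = x := Real.sq_sqrt hx0.le
    have e1 : π * κ ≤ t := by
      refine le_of_sq_le_sq ?_ ht0
      rw [ht2]
      nlinarith
    have e2 : √x ≤ 10 * t := by
      refine le_of_sq_le_sq ?_ (by positivity)
      rw [hs2, mul_pow, ht2]
      linarith
    have e3 : 1 / 20 * x / M ≤ √x / 20 := by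
      rw [div_le_div_iff₀ hM (by norm_num)]
      nlinarith
    nlinarith

private theorem FactB_ex (x : ℝ) (w : ℂ) : ‖ex x w‖ = rexp (-(π * x * w.im)) := by
  unfold ex
  rw [Complex.norm_exp]
  congr 1
  simp [Complex.mul_re, Complex.mul_im]

/-- the estimate in the right half of the domain -/
private theorem FactB_right : ∃ C : ℝ, 0 < C ∧ ∀ (x : ℝ) (F : ℂ → ℂ), 1 ≤ x → Gen x F → ∀ w ∈ FD,
    0 ≤ w.re → w.im ^ (1 / 4 : ℝ) * ‖F w - ex x w‖ ≤
      C * (ht w ^ (1 / 4 : ℝ) * rexp (-(1 / 20 * x / max (ht w) (√x)))) := by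
  obtain ⟨C1, hC1, h1⟩ := fcusp
  obtain ⟨C2, hC2, h2⟩ := fup
  refine ⟨3 * C1 + 5 / 2 * C2 + 1, by positivity, fun x F hx hF w hw hre => ?_⟩
  have hx0 : 0 < x := by linarith
  have hhalf := half_le_ht hw
  set M := max (ht w) (√x) with hM
  have hMht : ht w ≤ M := le_max_left _ _
  have hMs : √x ≤ M := le_max_right _ _
  have hM0 : 0 < M := by linarith
  have him0 : 0 < w.im := hw.1
  have hht0 : 0 < ht w := by linarith
  have himht : w.im ≤ ht w := le_max_left _ _
  have hrp : w.im ^ (1 / 4 : ℝ) ≤ ht w ^ (1 / 4 : ℝ) :=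
    Real.rpow_le_rpow him0.le himht (by norm_num)
  have hπ := Real.pi_pos
  have hπ3 : 3 < π := Real.pi_gt_three
  have hxM : x / M ≤ √x := by
    rw [div_le_iff₀ hM0]
    have hs2 : √x * √x = x := Real.mul_self_sqrt hx0.le
    nlinarith [Real.sqrt_nonneg x]
  have hE : 0 < rexp (-(1 / 20 * x / M)) := Real.exp_pos _
  have hT : 0 ≤ ht w ^ (1 / 4 : ℝ) * rexp (-(1 / 20 * x / M)) := by positivity
  -- it suffices to bound the two parts
  suffices hmain : w.im ^ (1 / 4 : ℝ) * ‖F w‖ ≤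
      (3 * C1 + 5 / 2 * C2) * (ht w ^ (1 / 4 : ℝ) * rexp (-(1 / 20 * x / M))) ∧
      w.im ^ (1 / 4 : ℝ) * ‖ex x w‖ ≤ ht w ^ (1 / 4 : ℝ) * rexp (-(1 / 20 * x / M)) by
    calc w.im ^ (1 / 4 : ℝ) * ‖F w - ex x w‖
        ≤ w.im ^ (1 / 4 : ℝ) * (‖F w‖ + ‖ex x w‖) :=
          mul_le_mul_of_nonneg_left (norm_sub_le _ _) (by positivity)
      _ = w.im ^ (1 / 4 : ℝ) * ‖F w‖ + w.im ^ (1 / 4 : ℝ) * ‖ex x w‖ := by ring
      _ ≤ _ := add_le_add hmain.1 hmain.2
      _ = _ := by ring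
  by_cases hcase : w.im ≤ 2
  · -- near the cusp
    have hw1 : (1 : ℂ) - w ≠ 0 := by
      intro h
      have := congrArg Complex.im h
      simp at this
      linarith
    set z := 1 / (1 - w) with hz
    have hz0 : z ≠ 0 := one_div_ne_zero hw1
    have hwz : w = 1 - 1 / z := by
      rw [hz, one_div_one_div]
      ring
    obtain ⟨hz1, hz2, hz3⟩ := cusp_im hw hre hcase
    set κ := z.im with hκ
    have hκ0 : 0 < κ := by linarith
    have hn0 : 0 < ‖1 - w‖ := norm_pos_iff.2 hw1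
    have hκw : κ = w.im / ‖w - 1‖ ^ 2 := by
      rw [hκ, hz, one_div, Complex.inv_im, Complex.normSq_eq_norm_sq, norm_sub_rev]
      simp
    have hκht : κ ≤ ht w := by
      rw [hκw]
      exact (le_max_left _ _).trans (le_max_right _ _)
    have hκM : κ ≤ M := hκht.trans hMht
    have hnz0 : 0 < ‖z‖ := norm_pos_iff.2 hz0
    have himw : w.im = κ / ‖z‖ ^ 2 := by
      have h3 : w.im = (1 - 1 / z).im := congrArg Complex.im hwz
      rw [h3, Complex.sub_im, one_div, Complex.inv_im, Complex.normSq_eq_norm_sq,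
        Complex.one_im, ← hκ]
      ring
    have hzn : ‖z‖ ^ 2 = z.re ^ 2 + κ ^ 2 := by
      rw [← Complex.normSq_eq_norm_sq, Complex.normSq_apply]
      ring
    refine ⟨?_, ?_⟩
    · obtain ⟨δ, hδ0, hδ1, hδ⟩ := FactB_exp hx hκ0 hκM hMs
      have h3 := h1 x δ F z hx0.le hδ0 hδ1 hF hz1 hz2 hz3
      rw [← hwz] at h3
      have hth : jacobiTheta w ≠ 0 := theta_ne him0
      have h4 : w.im ^ (1 / 4 : ℝ) * ‖jacobiTheta w‖ ≤
          κ ^ (1 / 4 : ℝ) * (3 * rexp (-(π * κ / 4))) := by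
        have h5 : ‖jacobiTheta w‖ = ‖z‖ ^ (1 / 2 : ℝ) * ‖th2 z‖ := by
          rw [hwz, theta_cusp hκ0, norm_mul]
          congr 1
          have h6 : ((1 / 2 : ℂ)) = (((1 / 2 : ℝ)) : ℂ) := by push_cast; ring
          rw [h6, Complex.norm_cpow_real, norm_mul, norm_neg, Complex.norm_I, one_mul]
        have h6 : w.im ^ (1 / 4 : ℝ) * ‖z‖ ^ (1 / 2 : ℝ) = κ ^ (1 / 4 : ℝ) := by
          rw [himw, Real.div_rpow hκ0.le (by positivity), ← Real.rpow_natCast ‖z‖ 2,
            ← Real.rpow_mul hnz0.le]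
          have h7 : ((2 : ℕ) : ℝ) * (1 / 4) = 1 / 2 := by norm_num
          rw [h7, div_mul_cancel₀]
          exact (Real.rpow_pos_of_pos hnz0 _).ne'
        rw [h5, ← mul_assoc, h6]
        exact mul_le_mul_of_nonneg_left (th2_up (by linarith)) (by positivity)
      have h5 : w.im ^ (1 / 4 : ℝ) * ‖F w‖ =
          (w.im ^ (1 / 4 : ℝ) * ‖jacobiTheta w‖) * ‖F w / jacobiTheta w‖ := by
        rw [norm_div]
        field_simp
      rw [h5]
      calc (w.im ^ (1 / 4 : ℝ) * ‖jacobiTheta w‖) * ‖F w / jacobiTheta w‖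
          ≤ (κ ^ (1 / 4 : ℝ) * (3 * rexp (-(π * κ / 4)))) *
            (C1 * rexp (-√(x * δ)) * rexp (π * (δ + 1 / 4) * κ)) :=
            mul_le_mul h4 h3 (norm_nonneg _) (by positivity)
        _ = 3 * C1 * (κ ^ (1 / 4 : ℝ) * rexp (-√(x * δ) + π * δ * κ)) := by
            have h6 : rexp (-√(x * δ) + π * δ * κ) =
                rexp (-(π * κ / 4)) * (rexp (-√(x * δ)) * rexp (π * (δ + 1 / 4) * κ)) := by
              rw [← Real.exp_add, ← Real.exp_add]
              congr 1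
              ring
            rw [h6]
            ring
        _ ≤ 3 * C1 * (ht w ^ (1 / 4 : ℝ) * rexp (-(1 / 20 * x / M))) := by
            refine mul_le_mul_of_nonneg_left ?_ (by positivity)
            exact mul_le_mul (Real.rpow_le_rpow hκ0.le hκht (by norm_num))
              (Real.exp_le_exp.2 hδ) (Real.exp_pos _).le (by positivity)
        _ ≤ _ := by
            refine mul_le_mul_of_nonneg_right ?_ hT
            linarith
    · rw [FactB_ex]
      refine mul_le_mul hrp (Real.exp_le_exp.2 ?_) (Real.exp_pos _).le (by positivity)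
      have h3 : 1 / 20 / M ≤ π * w.im := by
        have h4 : 1 / 20 / M ≤ 1 / 20 / κ :=
          div_le_div_of_nonneg_left (by norm_num) hκ0 hκM
        refine h4.trans ?_
        rw [himw, hzn, ← mul_div_assoc, div_le_div_iff₀ hκ0 (by positivity)]
        have h5 : z.re ^ 2 ≤ 1 / 4 := by nlinarith
        have h6 : (24 / 100 : ℝ) ^ 2 ≤ κ ^ 2 := pow_le_pow_left₀ (by norm_num) hz1 2
        nlinarith
      have h4 : 1 / 20 * x / M = x * (1 / 20 / M) := by ring
      rw [h4]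
      have h5 : x * (1 / 20 / M) ≤ x * (π * w.im) := mul_le_mul_of_nonneg_left h3 hx0.le
      linarith
  · push Not at hcase
    have hexM : 1 / 20 * x / M ≤ √x / 20 := by
      have : 1 / 20 * x / M = 1 / 20 * (x / M) := by ring
      rw [this]
      linarith
    refine ⟨?_, ?_⟩
    · have h3 := h2 x (1 / 2) F w hx0.le (by norm_num) le_rfl hF hcase.le hw.2.1
      have hth : jacobiTheta w ≠ 0 := theta_ne him0
      have hth2 : ‖jacobiTheta w‖ ≤ 5 / 2 := theta_up (by linarith)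
      have h5 : ‖F w‖ = ‖jacobiTheta w‖ * ‖F w / jacobiTheta w‖ := by
        rw [norm_div]
        field_simp
      rw [h5]
      have h6 : -√(x * (1 / 2)) ≤ -(1 / 20 * x / M) := by
        have h7 : √x ≤ 10 * √(x * (1 / 2)) := by
          refine le_of_sq_le_sq ?_ (by positivity)
          rw [Real.sq_sqrt hx0.le, mul_pow, Real.sq_sqrt (by positivity)]
          linarith
        have h8 := Real.sqrt_nonneg x
        linarith
      calc w.im ^ (1 / 4 : ℝ) * (‖jacobiTheta w‖ * ‖F w / jacobiTheta w‖)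
          ≤ ht w ^ (1 / 4 : ℝ) * (5 / 2 * (C2 * rexp (-√(x * (1 / 2))))) := by
            refine mul_le_mul hrp (mul_le_mul hth2 h3 (norm_nonneg _) (by norm_num))
              (by positivity) (by positivity)
        _ = 5 / 2 * C2 * (ht w ^ (1 / 4 : ℝ) * rexp (-√(x * (1 / 2)))) := by ring
        _ ≤ 5 / 2 * C2 * (ht w ^ (1 / 4 : ℝ) * rexp (-(1 / 20 * x / M))) := by
            refine mul_le_mul_of_nonneg_left ?_ (by positivity)
            exact mul_le_mul_of_nonneg_left (Real.exp_le_exp.2 h6) (by positivity)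
        _ ≤ _ := by
            refine mul_le_mul_of_nonneg_right ?_ hT
            linarith
    · rw [FactB_ex]
      refine mul_le_mul hrp (Real.exp_le_exp.2 ?_) (Real.exp_pos _).le (by positivity)
      have h3 : √x ≤ x := by
        have h4 : 1 ≤ √x := by
          rw [show (1 : ℝ) = √1 by rw [Real.sqrt_one]]
          exact Real.sqrt_le_sqrt hx
        have h5 : √x * √x = x := Real.mul_self_sqrt hx0.le
        nlinarith
      have h4 : x ≤ π * x * w.im := by
        have h5 : 1 ≤ π * w.im := by nlinarith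
        nlinarith
      have h8 := Real.sqrt_nonneg x
      linarith

theorem factB : ∃ C c : ℝ, 0 < C ∧ 0 < c ∧ ∀ (x : ℝ) (F : ℂ → ℂ), 1 ≤ x → Gen x F → ∀ w ∈ FD,
    w.im ^ (1 / 4 : ℝ) * ‖F w - ex x w‖ ≤
      C * (ht w ^ (1 / 4 : ℝ) * rexp (-(c * x / max (ht w) (√x)))) := by
  obtain ⟨C, hC, h⟩ := FactB_right
  refine ⟨C, 1 / 20, hC, by norm_num, fun x F hx hF w hw => ?_⟩
  rcases le_total 0 w.re with hre | hre
  · exact h x F hx hF w hw hre
  · have hsre : (sr w).re = -w.re := by simp [sr]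
    have hsim : (sr w).im = w.im := by simp [sr]
    have hsn : ‖sr w‖ = ‖w‖ := by unfold sr; rw [norm_neg, RCLike.norm_conj]
    have hsw : sr w ∈ FD := by
      refine ⟨?_, ?_, ?_⟩
      · rw [hsim]; exact hw.1
      · rw [hsre, abs_neg]; exact hw.2.1
      · rw [hsn]; exact hw.2.2
    have e1 : ‖sr w - 1‖ = ‖w + 1‖ := by
      have : sr w - 1 = -(starRingEnd ℂ) (w + 1) := by
        unfold sr
        rw [map_add, map_one]
        ring
      rw [this, norm_neg, RCLike.norm_conj]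
    have e2 : ‖sr w + 1‖ = ‖w - 1‖ := by
      have : sr w + 1 = -(starRingEnd ℂ) (w - 1) := by
        unfold sr
        rw [map_sub, map_one]
        ring
      rw [this, norm_neg, RCLike.norm_conj]
    have hht : ht (sr w) = ht w := by
      unfold ht
      rw [e1, e2, hsim, max_comm (w.im / ‖w + 1‖ ^ 2)]
    have hex : ex x (sr w) = (starRingEnd ℂ) (ex x w) := by
      unfold ex sr
      rw [← Complex.exp_conj]
      congr 1
      simp only [map_mul, Complex.conj_ofReal, Complex.conj_I]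
      ring
    have h3 := h x F hx hF (sr w) hsw (by rw [hsre]; linarith)
    rw [hF.sym w hw.1, hex, ← map_sub, RCLike.norm_conj, hht, hsim] at h3
    exact h3

end Pool.Agent.Helper31.FI
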