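import Pool.Agent.Helper31.FI.Interp
import Pool.Agent.Helper31.FI.ExGen
import Pool.Agent.Helper31.FI.CoefBd

/-!
# FI-FA: the pointwise theorem

`exists_gen`, `delta`, `cf_indep`, `coef_bd`.
-/

set_option autoImplicit false

namespace Pool.Agent.Helper31.FI

open Complex Real MeasureTheory

theorem final_a : ∃ C : ℝ, 0 < C ∧ ∀ (n : ℕ), 1 ≤ n → ∀ b : SchwartzMap ℝ ℂ,
    (∀ s : ℝ, b (-s) = b s) → (∀ ξ : ℝ, ∫ s : ℝ, cexp (-(2 * π * I * ξ * s)) * b s = b ξ) →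
    (∀ m : ℕ, b (√m) = if m = n then 1 else 0) →
    ∀ x : ℝ, 1 ≤ x → x ≤ n - √n →
      ‖b (√x)‖ ≤ C * ((1 + Real.log n) ^ 2 * ((n : ℝ) ^ (1 / 4 : ℝ) * x ^ (-(33 / 52) : ℝ))) := by
  obtain ⟨C, hC, h⟩ := coef_bd
  refine ⟨C, hC, fun n hn b hb hb' hd x hx hxn => ?_⟩
  have hn0 : (0 : ℝ) < n := by exact_mod_cast hn
  obtain ⟨F, hF⟩ := exists_gen (x := x) (by linarith)
  have h1 : cf F 1 n = cf F (1 / n) n := cf_indep hF one_pos (by positivity) n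
  rw [delta (by linarith) hF n b hb hb' hd, h1]
  exact h x F n hn hx hxn hF

end Pool.Agent.Helper31.FI
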