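import Pool.Agent.Helper31.FI.MainB

/-!
# FI-MF: mean square of the weighted sum of main sums

`L = 2 + 2 log n`, `16 L ≤ X`, `2 X ≤ n`.  For `x ∈ [X, 2X]` only `j` with `j² X ≤ n` matter.  Cauchy-Schwarz with the weights
`w = j^(-1/2) n^(-1/2)`: `mw² ≤ (∑ w) (∑ w mx²)`.  `∑ w ≤ n^(-1/2) ∑_{j ≤ √(n/X)} j^(1/2) ≤ n^(-1/2) (n/X)^(3/4)` (`card_Ms`).
`∑_{m ∈ Ms j} 1/ν₀ ≤ ∑_{c ≤ j} j/c ≤ j (1 + log j)` (`m ↦ c0 j m` is injective with values in `[1, j]`), so by `ms_x`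
`∑ w ∫ mx² ≤ C n^(-1/2) ∑_j j^(-1/2) (√(X n)/j) (j (1 + log n) + j log (2 + n)) ≤ C √X (1 + log n) (n/X)^(1/4)`.
The product is `C (1 + log n) n^(1/2) X^(-1/2)`.
-/

set_option autoImplicit false

namespace Pool.Agent.Helper31.FI

open Complex Real Finset MeasureTheory

private theorem MSfin_cop {j : ℕ} {m : ℤ} (hm : m ∈ Ms j) : IsCoprime (j : ℤ) m := by
  unfold Ms at hm
  rw [Finset.mem_filter] at hm
  exact hm.2.2

private theorem MSfin_nu {j : ℕ} {m : ℤ} (hj : 1 ≤ j) (hm : m ∈ Ms j) :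
    0 < (c0 j m : ℝ) / j ∧ (c0 j m : ℝ) / j ≤ 1 := by
  have h := c0_spec hj (MSfin_cop hm)
  have hj0 : (0 : ℝ) < j := by exact_mod_cast hj
  have h1 : (1 : ℝ) ≤ c0 j m := by exact_mod_cast h.1
  have h2 : (c0 j m : ℝ) ≤ j := by exact_mod_cast h.2.1
  refine ⟨by positivity, ?_⟩
  rw [div_le_one hj0]
  exact h2

/-- `∑ 1/ν₀ ≤ j (1 + log j)` -/
private theorem MSfin_sum {j : ℕ} (hj : Odd j) :
    ∑ m ∈ Ms j, 1 / ((c0 j m : ℝ) / j) ≤ j * (1 + Real.log j) := by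
  classical
  have hj1 : 1 ≤ j := hj.pos
  have hj0 : (0 : ℝ) < j := by exact_mod_cast hj1
  have hinj : Set.InjOn (fun m => c0 j m) (Ms j : Set ℤ) := by
    intro m hm m' hm' he
    have h1 := (c0_spec hj1 (MSfin_cop hm)).2.2
    have h2 := (c0_spec hj1 (MSfin_cop hm')).2.2
    have he' : c0 j m = c0 j m' := he
    rw [← he'] at h2
    have h3 : IsCoprime (j : ℤ) (c0 j m : ℤ) := ⟨-d0 j m, m, by linarith⟩
    refine Cidx_inj hj hm hm' (h3.dvd_of_dvd_mul_left ⟨d0 j m - d0 j m', ?_⟩)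
    linarith
  have h1 : ∑ m ∈ Ms j, 1 / ((c0 j m : ℝ) / j) =
      ∑ c ∈ (Ms j).image (fun m => c0 j m), 1 / ((c : ℝ) / j) := by
    rw [Finset.sum_image]
    intro m hm m' hm' he
    exact hinj hm hm' he
  have h2 : ∑ c ∈ (Ms j).image (fun m => c0 j m), 1 / ((c : ℝ) / j) ≤
      ∑ c ∈ Finset.Icc 1 j, 1 / ((c : ℝ) / j) := by
    refine Finset.sum_le_sum_of_subset_of_nonneg ?_ (fun _ _ _ => by positivity)
    intro c hc
    rw [Finset.mem_image] at hc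
    obtain ⟨m, hm, rfl⟩ := hc
    have h3 := c0_spec hj1 (MSfin_cop hm)
    rw [Finset.mem_Icc]
    exact ⟨h3.1, h3.2.1⟩
  have h3 : ∑ c ∈ Finset.Icc 1 j, 1 / ((c : ℝ) / j) = j * ((harmonic j : ℚ) : ℝ) := by
    rw [harmonic_eq_sum_Icc]
    push_cast
    rw [Finset.mul_sum]
    refine Finset.sum_congr rfl fun c _ => ?_
    rw [one_div, inv_div]
    rfl
  rw [h1]
  refine h2.trans ?_
  rw [h3]
  exact mul_le_mul_of_nonneg_left (harmonic_le_one_add_log j) hj0.le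

private theorem MSfin_bdd {ι : Type*} (s : Finset ι) (f : ι → ℝ → ℝ) (X : ℝ)
    (h : ∀ i ∈ s, ∃ B : ℝ, ∀ x : ℝ, 0 ≤ x → x ≤ X → 0 ≤ f i x ∧ f i x ≤ B) :
    ∃ B : ℝ, ∀ x : ℝ, 0 ≤ x → x ≤ X → 0 ≤ ∑ i ∈ s, f i x ∧ ∑ i ∈ s, f i x ≤ B := by
  choose! B hB using h
  refine ⟨∑ i ∈ s, B i, fun x hx hX => ⟨?_, ?_⟩⟩
  · exact Finset.sum_nonneg fun i hi => (hB i hi x hx hX).1
  · exact Finset.sum_le_sum fun i hi => (hB i hi x hx hX).2

private theorem MSfin_L {n : ℕ} (hn : 1 ≤ n) : 1 ≤ 2 + 2 * Real.log n := by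
  have : 0 ≤ Real.log n := Real.log_natCast_nonneg n
  linarith

private theorem MSfin_mx (n : ℕ) (hn : 1 ≤ n) {j : ℕ} {m : ℤ} (hj : 1 ≤ j) (hm : m ∈ Ms j)
    (X : ℝ) : ∃ B : ℝ, ∀ x : ℝ, 0 ≤ x → x ≤ X →
      0 ≤ mx (n / (j : ℝ) ^ 2) ((c0 j m : ℝ) / j) (2 + 2 * Real.log n) x ∧
      mx (n / (j : ℝ) ^ 2) ((c0 j m : ℝ) / j) (2 + 2 * Real.log n) x ≤ B := by
  have hn0 : (0 : ℝ) < n := by exact_mod_cast hn
  have hj0 : (0 : ℝ) < j := by exact_mod_cast hj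
  exact mx_bdd _ _ _ X (by positivity) (MSfin_nu hj hm).1 (MSfin_L hn)

private theorem MSfin_ii {f : ℝ → ℝ} (hf : Measurable f) {X : ℝ} (hX : 0 ≤ X)
    (hb : ∃ B : ℝ, ∀ x : ℝ, 0 ≤ x → x ≤ 2 * X → 0 ≤ f x ∧ f x ≤ B) :
    IntervalIntegrable (fun x => f x ^ 2) volume X (2 * X) := by
  obtain ⟨B, hB⟩ := hb
  rw [intervalIntegrable_iff_integrableOn_Ioc_of_le (by linarith)]
  refine Measure.integrableOn_of_bounded (M := B ^ 2) (by simp)
    (hf.pow_const 2).aestronglyMeasurable ?_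
  refine (ae_restrict_iff' measurableSet_Ioc).2 (Filter.Eventually.of_forall fun x hx => ?_)
  have h := hB x (by linarith [hx.1]) hx.2
  rw [Real.norm_of_nonneg (by positivity)]
  exact pow_le_pow_left₀ h.1 h.2 2

theorem mw_meas (n : ℕ) : Measurable (mw n) := by
  unfold mw
  exact Finset.measurable_fun_sum _ fun j _ => Finset.measurable_fun_sum _ fun m _ =>
    (mx_meas _ _ _).const_mul _

theorem mw_bdd (n : ℕ) (X : ℝ) : ∃ B : ℝ, ∀ x : ℝ, 0 ≤ x → x ≤ X → 0 ≤ mw n x ∧ mw n x ≤ B := by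
  unfold mw
  refine MSfin_bdd _ _ X fun j hj => MSfin_bdd _ _ X fun m hm => ?_
  rw [Finset.mem_filter, Finset.mem_range] at hj
  obtain ⟨B, hB⟩ := MSfin_mx n (by omega) hj.2.pos hm X
  have h0 : 0 ≤ (j : ℝ) ^ (-(1 / 2) : ℝ) * (n : ℝ) ^ (-(1 / 2) : ℝ) := by positivity
  refine ⟨(j : ℝ) ^ (-(1 / 2) : ℝ) * (n : ℝ) ^ (-(1 / 2) : ℝ) * B, fun x hx hX => ⟨?_, ?_⟩⟩
  · exact mul_nonneg h0 (hB x hx hX).1
  · exact mul_le_mul_of_nonneg_left (hB x hx hX).2 h0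

open Classical in
private noncomputable def MSfin_J (n : ℕ) (X : ℝ) : Finset ℕ :=
  ((range n).filter Odd).filter fun j => (j : ℝ) ^ 2 * X ≤ n

private theorem MSfin_memJ {n : ℕ} {X : ℝ} (hX : 0 < X) {j : ℕ}
    (hj : j ∈ MSfin_J n X) : j < n ∧ Odd j ∧ (j : ℝ) ≤ √(n / X) := by
  classical
  unfold MSfin_J at hj
  rw [Finset.mem_filter, Finset.mem_filter, Finset.mem_range] at hj
  refine ⟨hj.1.1, hj.1.2, ?_⟩
  refine Real.le_sqrt_of_sq_le ?_
  rw [le_div_iff₀ hX]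
  exact hj.2

private theorem MSfin_Jsub {n : ℕ} {X : ℝ} (hX : 0 < X) :
    MSfin_J n X ⊆ Finset.Icc 1 ⌊√(n / X)⌋₊ := by
  intro j hj
  have h := MSfin_memJ hX hj
  rw [Finset.mem_Icc]
  exact ⟨h.2.1.pos, Nat.le_floor h.2.2⟩

private theorem MSfin_eq (n : ℕ) {X x : ℝ} (hx : X ≤ x) :
    mw n x = ∑ i ∈ (MSfin_J n X).sigma Ms,
      ((i.1 : ℝ) ^ (-(1 / 2) : ℝ) * (n : ℝ) ^ (-(1 / 2) : ℝ)) *
      mx (n / (i.1 : ℝ) ^ 2) ((c0 i.1 i.2 : ℝ) / i.1) (2 + 2 * Real.log n) x := by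
  classical
  rw [Finset.sum_sigma]
  unfold mw
  symm
  refine Finset.sum_subset ?_ ?_
  · unfold MSfin_J
    exact Finset.filter_subset _ _
  · intro j hj hjJ
    have hj1 : 1 ≤ j := (Finset.mem_filter.1 hj).2.pos
    have hj0 : (0 : ℝ) < j := by exact_mod_cast hj1
    have h1 : ¬ (j : ℝ) ^ 2 * X ≤ n := by
      intro h2
      refine hjJ ?_
      unfold MSfin_J
      exact Finset.mem_filter.2 ⟨hj, h2⟩
    refine Finset.sum_eq_zero fun m _ => ?_
    have h2 : ¬ x ≤ n / (j : ℝ) ^ 2 := by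
      intro h3
      rw [le_div_iff₀ (by positivity)] at h3
      exact h1 (by nlinarith [sq_nonneg (j : ℝ)])
    simp only [mx]
    rw [if_neg h2, mul_zero]

theorem ms_fin : ∃ C : ℝ, 0 < C ∧ ∀ (n : ℕ) (X : ℝ), 1 ≤ n → 16 * (2 + 2 * Real.log n) ≤ X → 2 * X ≤ n →
    ∫ x in X..(2 * X), mw n x ^ 2 ≤ C * ((1 + Real.log n) * ((n : ℝ) ^ (1 / 2 : ℝ) * X ^ (-(1 / 2) : ℝ))) := by
  classical
  obtain ⟨C₀, hC₀, hms⟩ := ms_x
  refine ⟨6 * C₀, by positivity, ?_⟩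
  intro n X hn hLX hXn
  have hlog : 0 ≤ Real.log n := Real.log_natCast_nonneg n
  have hX : 0 < X := by linarith
  have hn0 : (0 : ℝ) < n := by exact_mod_cast hn
  have hsn : 0 < √(n : ℝ) := Real.sqrt_pos.2 hn0
  have hsX : 0 < √X := Real.sqrt_pos.2 hX
  set T : ℝ := √(n / X) with hT
  have hT0 : 0 < T := Real.sqrt_pos.2 (by positivity)
  set D := (MSfin_J n X).sigma Ms with hD
  set w : ℕ → ℝ := fun j => (j : ℝ) ^ (-(1 / 2) : ℝ) * (n : ℝ) ^ (-(1 / 2) : ℝ) with hw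
  set a : ((_ : ℕ) × ℤ) → ℝ → ℝ := fun i x =>
    mx (n / (i.1 : ℝ) ^ 2) ((c0 i.1 i.2 : ℝ) / i.1) (2 + 2 * Real.log n) x with ha
  have hweq : ∀ j : ℕ, w j = 1 / √(j : ℝ) * (1 / √(n : ℝ)) := by
    intro j
    simp only [hw]
    rw [Real.rpow_neg (by positivity), Real.rpow_neg hn0.le, ← Real.sqrt_eq_rpow,
      ← Real.sqrt_eq_rpow, one_div, one_div]
  have hw0 : ∀ j : ℕ, 0 ≤ w j := fun j => by
    rw [hweq]
    positivity
  have hDj : ∀ i ∈ D, 1 ≤ i.1 ∧ i.1 < n ∧ i.2 ∈ Ms i.1 := by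
    intro i hi
    rw [hD, Finset.mem_sigma] at hi
    have h := MSfin_memJ hX hi.1
    exact ⟨h.2.1.pos, h.1, hi.2⟩
  have hai : ∀ i ∈ D, IntervalIntegrable (fun x => a i x ^ 2) volume X (2 * X) := by
    intro i hi
    exact MSfin_ii (mx_meas _ _ _) hX.le
      (MSfin_mx n hn (hDj i hi).1 (hDj i hi).2.2 (2 * X))
  -- Cauchy-Schwarz
  have hCS : ∀ x ∈ Set.Icc X (2 * X), mw n x ^ 2 ≤
      (∑ i ∈ D, w i.1) * ∑ i ∈ D, w i.1 * a i x ^ 2 := by
    intro x hx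
    rw [MSfin_eq n hx.1]
    refine Finset.sum_sq_le_sum_mul_sum_of_sq_le_mul D (fun i _ => hw0 _)
      (fun i _ => mul_nonneg (hw0 _) (sq_nonneg _)) (fun i _ => le_of_eq ?_)
    simp only [hw, ha]
    ring
  have hint : ∫ x in X..(2 * X), mw n x ^ 2 ≤
      (∑ i ∈ D, w i.1) * ∑ i ∈ D, w i.1 * ∫ x in X..(2 * X), a i x ^ 2 := by
    have h1 : IntervalIntegrable (fun x => (∑ i ∈ D, w i.1) * ∑ i ∈ D, w i.1 * a i x ^ 2)
        volume X (2 * X) := by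
      refine IntervalIntegrable.const_mul ?_ _
      rw [intervalIntegrable_iff_integrableOn_Ioc_of_le (by linarith)]
      refine integrable_finsetSum _ fun i hi => ?_
      have h2 := (hai i hi).const_mul (w i.1)
      rw [intervalIntegrable_iff_integrableOn_Ioc_of_le (by linarith)] at h2
      exact h2
    refine (intervalIntegral.integral_mono_on (by linarith)
      (MSfin_ii (mw_meas n) hX.le (mw_bdd n (2 * X))) h1 hCS).trans (le_of_eq ?_)
    rw [intervalIntegral.integral_const_mul, intervalIntegral.integral_finsetSum fun i hi =>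
      (hai i hi).const_mul (w i.1)]
    congr 1
    refine Finset.sum_congr rfl fun i _ => ?_
    rw [intervalIntegral.integral_const_mul]
  -- the first factor
  have hcardJ : ((MSfin_J n X).card : ℝ) ≤ T := by
    have h1 := Finset.card_le_card (MSfin_Jsub (n := n) hX)
    rw [Nat.card_Icc, Nat.add_sub_cancel] at h1
    have h2 : ((MSfin_J n X).card : ℝ) ≤ (⌊√(n / X)⌋₊ : ℝ) := by exact_mod_cast h1
    exact h2.trans (Nat.floor_le (Real.sqrt_nonneg _))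
  have hW : ∑ i ∈ D, w i.1 ≤ T * (√T * (1 / √(n : ℝ))) := by
    rw [hD, Finset.sum_sigma]
    have h1 : ∀ j ∈ MSfin_J n X, ∑ _m ∈ Ms j, w j ≤ √T * (1 / √(n : ℝ)) := by
      intro j hj
      have h := MSfin_memJ hX hj
      have hj1 : 1 ≤ j := h.2.1.pos
      have hj0 : (0 : ℝ) < j := by exact_mod_cast hj1
      rw [Finset.sum_const, nsmul_eq_mul]
      have h2 : ((Ms j).card : ℝ) ≤ j := by exact_mod_cast card_Ms h.2.1
      have h3 : (j : ℝ) * w j = √(j : ℝ) * (1 / √(n : ℝ)) := by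
        rw [hweq]
        have h4 : √(j : ℝ) * √(j : ℝ) = j := Real.mul_self_sqrt hj0.le
        have h5 : 0 < √(j : ℝ) := Real.sqrt_pos.2 hj0
        field_simp
        linarith
      calc ((Ms j).card : ℝ) * w j ≤ j * w j := mul_le_mul_of_nonneg_right h2 (hw0 j)
        _ = √(j : ℝ) * (1 / √(n : ℝ)) := h3
        _ ≤ √T * (1 / √(n : ℝ)) :=
          mul_le_mul_of_nonneg_right (Real.sqrt_le_sqrt h.2.2) (by positivity)
    refine (Finset.sum_le_sum h1).trans ?_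
    rw [Finset.sum_const, nsmul_eq_mul]
    exact mul_le_mul_of_nonneg_right hcardJ (by positivity)
  -- the second factor
  have hS : ∑ i ∈ D, w i.1 * ∫ x in X..(2 * X), a i x ^ 2 ≤
      3 * C₀ * √X * (1 + Real.log n) * (2 * √T) := by
    rw [hD, Finset.sum_sigma]
    have h1 : ∀ j ∈ MSfin_J n X, ∑ m ∈ Ms j, w j * ∫ x in X..(2 * X), a ⟨j, m⟩ x ^ 2 ≤
        3 * C₀ * √X * (1 + Real.log n) * (1 / √(j : ℝ)) := by
      intro j hj
      have h := MSfin_memJ hX hj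
      have hj1 : 1 ≤ j := h.2.1.pos
      have hj0 : (0 : ℝ) < j := by exact_mod_cast hj1
      have hj1' : (1 : ℝ) ≤ j := by exact_mod_cast hj1
      have hjn : (j : ℝ) ≤ n := by exact_mod_cast h.1.le
      have hN0 : 0 < (n : ℝ) / (j : ℝ) ^ 2 := by positivity
      have h2 : ∀ m ∈ Ms j, ∫ x in X..(2 * X), a ⟨j, m⟩ x ^ 2 ≤
          C₀ * (√X * √(n : ℝ) / j) * (1 / ((c0 j m : ℝ) / j) + (2 + Real.log n)) := by
        intro m hm
        have h3 := hms X (n / (j : ℝ) ^ 2) ((c0 j m : ℝ) / j) (2 + 2 * Real.log n)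
          (MSfin_L hn) hLX hN0 (MSfin_nu hj1 hm).1 (MSfin_nu hj1 hm).2
        have h4 : √(X * (n / (j : ℝ) ^ 2)) = √X * √(n : ℝ) / j := by
          rw [Real.sqrt_mul hX.le, Real.sqrt_div hn0.le, Real.sqrt_sq hj0.le]
          ring
        have h5 : Real.log (2 + n / (j : ℝ) ^ 2) ≤ 2 + Real.log n := by
          have h6 : (n : ℝ) / (j : ℝ) ^ 2 ≤ n := by
            rw [div_le_iff₀ (by positivity)]
            have h10 : 1 ≤ (j : ℝ) ^ 2 := one_le_pow₀ hj1'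
            nlinarith
          have h7 : 2 + (n : ℝ) / (j : ℝ) ^ 2 ≤ rexp 2 * n := by
            have h8 := Real.add_one_le_exp (2 : ℝ)
            have h9 : (1 : ℝ) ≤ n := by exact_mod_cast hn
            nlinarith
          have h8 := Real.log_le_log (by positivity) h7
          rwa [Real.log_mul (Real.exp_pos _).ne' hn0.ne', Real.log_exp] at h8
        refine h3.trans ?_
        rw [h4, ← mul_assoc]
        refine mul_le_mul_of_nonneg_left ?_ (by positivity)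
        linarith
      have h3 : ∑ m ∈ Ms j, (1 / ((c0 j m : ℝ) / j) + (2 + Real.log n)) ≤
          3 * j * (1 + Real.log n) := by
        rw [Finset.sum_add_distrib, Finset.sum_const, nsmul_eq_mul]
        have h4 := MSfin_sum h.2.1
        have h5 : ((Ms j).card : ℝ) ≤ j := by exact_mod_cast card_Ms h.2.1
        have h6 : Real.log j ≤ Real.log n := Real.log_le_log hj0 hjn
        have h7 : ((Ms j).card : ℝ) * (2 + Real.log n) ≤ j * (2 + Real.log n) :=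
          mul_le_mul_of_nonneg_right h5 (by linarith)
        have h8 : (j : ℝ) * (1 + Real.log j) ≤ j * (1 + Real.log n) :=
          mul_le_mul_of_nonneg_left (by linarith) hj0.le
        have h9 : 0 ≤ (j : ℝ) * Real.log n := by positivity
        nlinarith
      rw [← Finset.mul_sum]
      have h5 : 0 < √(j : ℝ) := Real.sqrt_pos.2 hj0
      calc w j * ∑ m ∈ Ms j, ∫ x in X..(2 * X), a ⟨j, m⟩ x ^ 2 ≤
          w j * ∑ m ∈ Ms j, C₀ * (√X * √(n : ℝ) / j) *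
            (1 / ((c0 j m : ℝ) / j) + (2 + Real.log n)) :=
            mul_le_mul_of_nonneg_left (Finset.sum_le_sum h2) (hw0 j)
        _ = w j * (C₀ * (√X * √(n : ℝ) / j) *
            ∑ m ∈ Ms j, (1 / ((c0 j m : ℝ) / j) + (2 + Real.log n))) := by
            congr 1
            rw [Finset.mul_sum]
        _ ≤ w j * (C₀ * (√X * √(n : ℝ) / j) * (3 * j * (1 + Real.log n))) := by
            refine mul_le_mul_of_nonneg_left ?_ (hw0 j)
            exact mul_le_mul_of_nonneg_left h3 (by positivity)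
        _ = 3 * C₀ * √X * (1 + Real.log n) * (1 / √(j : ℝ)) := by
            rw [hweq]
            field_simp
    refine (Finset.sum_le_sum h1).trans ?_
    rw [← Finset.mul_sum]
    refine mul_le_mul_of_nonneg_left ?_ (by positivity)
    calc ∑ j ∈ MSfin_J n X, 1 / √(j : ℝ) ≤ ∑ j ∈ Finset.Icc 1 ⌊√(n / X)⌋₊, 1 / √(j : ℝ) :=
          Finset.sum_le_sum_of_subset_of_nonneg (MSfin_Jsub hX) fun _ _ _ => by positivity
      _ ≤ 2 * √((⌊√(n / X)⌋₊ : ℕ) : ℝ) := Cidx_sum _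
      _ ≤ 2 * √T := by
          refine mul_le_mul_of_nonneg_left ?_ (by norm_num)
          exact Real.sqrt_le_sqrt (Nat.floor_le (Real.sqrt_nonneg _))
  have hS0 : 0 ≤ 3 * C₀ * √X * (1 + Real.log n) * (2 * √T) := by positivity
  have hW0 : 0 ≤ ∑ i ∈ D, w i.1 := Finset.sum_nonneg fun i _ => hw0 _
  have hTT : √T * √T = T := Real.mul_self_sqrt hT0.le
  have hT2 : T * T = n / X := Real.mul_self_sqrt (by positivity)
  have e1 : (n : ℝ) ^ (1 / 2 : ℝ) = √(n : ℝ) := (Real.sqrt_eq_rpow _).symm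
  have e2 : X ^ (-(1 / 2) : ℝ) = 1 / √X := by
    rw [Real.rpow_neg hX.le, ← Real.sqrt_eq_rpow, one_div]
  calc ∫ x in X..(2 * X), mw n x ^ 2 ≤
      (∑ i ∈ D, w i.1) * ∑ i ∈ D, w i.1 * ∫ x in X..(2 * X), a i x ^ 2 := hint
    _ ≤ (∑ i ∈ D, w i.1) * (3 * C₀ * √X * (1 + Real.log n) * (2 * √T)) :=
        mul_le_mul_of_nonneg_left hS hW0
    _ ≤ (T * (√T * (1 / √(n : ℝ)))) * (3 * C₀ * √X * (1 + Real.log n) * (2 * √T)) :=
        mul_le_mul_of_nonneg_right hW hS0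
    _ = 6 * C₀ * (1 + Real.log n) * (T * (√T * √T)) * (√X / √(n : ℝ)) := by ring
    _ = 6 * C₀ * (1 + Real.log n) * ((n / X) * (√X / √(n : ℝ))) := by
        rw [hTT, hT2]
        ring
    _ = 6 * C₀ * ((1 + Real.log n) * ((n : ℝ) ^ (1 / 2 : ℝ) * X ^ (-(1 / 2) : ℝ))) := by
        rw [e1, e2]
        have h1 : (n : ℝ) / X * (√X / √(n : ℝ)) = √(n : ℝ) * (1 / √X) := by
          have h2 : √(n : ℝ) * √(n : ℝ) = n := Real.mul_self_sqrt hn0.le
          have h3 : √X * √X = X := Real.mul_self_sqrt hX.le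
          field_simp
          nlinarith
        rw [h1]
        ring

end Pool.Agent.Helper31.FI
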