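import Pool.Agent.Helper31.FI.FinalA
import Pool.Agent.Helper31.FI.CoefB2
import Pool.Agent.Helper31.FI.MSfin

/-!
# FI-F2: the mean square theorem

`L = 2 + 2 log n`.  If `X ≥ 16 L`: pointwise `‖b √x‖ ≤ C (..) + C mw n x` (`exists_gen`, `delta`, `cf_indep`, `coef_bd2`), square
(`(a+b)² ≤ 2a² + 2b²`), integrate: `X (1+log n)^4 n^(1/2) X^(-3/2)` and `ms_fin`.
If `X < 16 L`: `final_a`: `‖b √x‖² ≤ C (1+log n)^4 n^(1/2) x^(-33/26)` and `X^(1 - 33/26) = X^(-1/2) X^(3/13) ≤ X^(-1/2) (16 L)^(3/13)`.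
-/

set_option autoImplicit false

namespace Pool.Agent.Helper31.FI

open Complex Real Finset MeasureTheory

private lemma FinalB_cont (b : SchwartzMap ℝ ℂ) : Continuous (fun x : ℝ => ‖b (√x)‖ ^ 2) := by
  have h1 : Continuous (fun x : ℝ => b (√x)) := b.continuous.comp Real.continuous_sqrt
  exact h1.norm.pow 2

private lemma FinalB_pow {X : ℝ} (hX : 0 < X) :
    X * (X ^ (-(3 / 4) : ℝ)) ^ 2 = X ^ (-(1 / 2) : ℝ) := by
  rw [← Real.rpow_natCast, ← Real.rpow_mul hX.le]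
  nth_rewrite 1 [← Real.rpow_one X]
  rw [← Real.rpow_add hX]
  norm_num

private lemma FinalB_pow' {X : ℝ} (hX : 0 < X) :
    X * (X ^ (-(33 / 52) : ℝ)) ^ 2 = X ^ (-(1 / 2) : ℝ) * X ^ (3 / 13 : ℝ) := by
  rw [← Real.rpow_natCast, ← Real.rpow_mul hX.le, ← Real.rpow_add hX]
  nth_rewrite 1 [← Real.rpow_one X]
  rw [← Real.rpow_add hX]
  norm_num

private lemma FinalB_n (n : ℕ) : ((n : ℝ) ^ (1 / 4 : ℝ)) ^ 2 = (n : ℝ) ^ (1 / 2 : ℝ) := by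
  rw [← Real.rpow_natCast, ← Real.rpow_mul (Nat.cast_nonneg n)]
  norm_num

/-- pointwise bound by the main sums -/
private lemma FinalB_pt {C1 : ℝ} (h1 : ∀ (x : ℝ) (F : ℂ → ℂ) (n : ℕ), 1 ≤ n → 1 ≤ x → x ≤ n - √n →
    Gen x F → ‖cf F (1 / n) n‖ ≤
      C1 * ((1 + Real.log n) ^ 2 * ((n : ℝ) ^ (1 / 4 : ℝ) * x ^ (-(3 / 4) : ℝ)) + mw n x))
    {n : ℕ} (hn : 1 ≤ n) {b : SchwartzMap ℝ ℂ} (hb : ∀ s : ℝ, b (-s) = b s)
    (hb' : ∀ ξ : ℝ, ∫ s : ℝ, cexp (-(2 * π * I * ξ * s)) * b s = b ξ)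
    (hd : ∀ m : ℕ, b (√m) = if m = n then 1 else 0) {x : ℝ} (hx : 1 ≤ x) (hxn : x ≤ n - √n) :
    ‖b (√x)‖ ≤
      C1 * ((1 + Real.log n) ^ 2 * ((n : ℝ) ^ (1 / 4 : ℝ) * x ^ (-(3 / 4) : ℝ)) + mw n x) := by
  have hn0 : (0 : ℝ) < n := by exact_mod_cast hn
  have hx0 : 0 ≤ x := by linarith
  obtain ⟨F, hF⟩ := exists_gen hx0
  rw [delta hx0 hF n b hb hb' hd, cf_indep hF one_pos (show 0 < 1 / (n : ℝ) by positivity) n]
  exact h1 x F n hn hx hxn hF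

theorem final_b : ∃ C : ℝ, 0 < C ∧ ∀ (n : ℕ), 1 ≤ n → ∀ b : SchwartzMap ℝ ℂ,
    (∀ s : ℝ, b (-s) = b s) → (∀ ξ : ℝ, ∫ s : ℝ, cexp (-(2 * π * I * ξ * s)) * b s = b ξ) →
    (∀ m : ℕ, b (√m) = if m = n then 1 else 0) →
    ∀ X : ℝ, 1 ≤ X → 2 * X ≤ n - √n →
      ∫ x in X..(2 * X), ‖b (√x)‖ ^ 2 ≤
        C * ((1 + Real.log n) ^ 5 * ((n : ℝ) ^ (1 / 2 : ℝ) * X ^ (-(1 / 2) : ℝ))) := by
  obtain ⟨C1, hC1, h1⟩ := coef_bd2
  obtain ⟨C2, hC2, h2⟩ := ms_fin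
  obtain ⟨C3, hC3, h3⟩ := final_a
  refine ⟨2 * C1 ^ 2 * (1 + C2) + 32 * C3 ^ 2, by positivity, ?_⟩
  intro n hn b hb hb' hd X hX hXn
  have hn1 : (1 : ℝ) ≤ n := by exact_mod_cast hn
  have hX0 : 0 < X := by linarith
  have hlog : 0 ≤ Real.log n := Real.log_nonneg hn1
  set G : ℝ := 1 + Real.log n with hG
  have hG1 : 1 ≤ G := by linarith
  have hle : X ≤ 2 * X := by linarith
  set P : ℝ := (n : ℝ) ^ (1 / 2 : ℝ) * X ^ (-(1 / 2) : ℝ) with hP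
  have hP0 : 0 ≤ P := by positivity
  have hi : IntervalIntegrable (fun x : ℝ => ‖b (√x)‖ ^ 2) volume X (2 * X) :=
    (FinalB_cont b).intervalIntegrable _ _
  have hG5 : G ^ 4 ≤ G ^ 5 := pow_le_pow_right₀ hG1 (by norm_num)
  have hGG5 : G ≤ G ^ 5 := le_self_pow₀ hG1 (by norm_num)
  rcases le_or_gt (16 * (2 + 2 * Real.log n)) X with hc | hc
  · -- large `X`
    set T : ℝ := G ^ 2 * ((n : ℝ) ^ (1 / 4 : ℝ) * X ^ (-(3 / 4) : ℝ)) with hT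
    have hT0 : 0 ≤ T := by positivity
    have hXn' : 2 * X ≤ n := by
      have := Real.sqrt_nonneg (n : ℝ)
      linarith
    obtain ⟨B, hB⟩ := mw_bdd n (2 * X)
    have hpt : ∀ x ∈ Set.Icc X (2 * X), ‖b (√x)‖ ^ 2 ≤ 2 * C1 ^ 2 * T ^ 2 + 2 * C1 ^ 2 * mw n x ^ 2 := by
      intro x hx
      have hx1 : 1 ≤ x := hX.trans hx.1
      have hm := hB x (by linarith) hx.2
      have h4 := FinalB_pt h1 hn hb hb' hd hx1 (hx.2.trans hXn)
      have h5 : x ^ (-(3 / 4) : ℝ) ≤ X ^ (-(3 / 4) : ℝ) :=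
        Real.rpow_le_rpow_of_nonpos hX0 hx.1 (by norm_num)
      have h6 : ‖b (√x)‖ ≤ C1 * (T + mw n x) := by
        refine h4.trans ?_
        rw [hT]
        gcongr
      have h7 : ‖b (√x)‖ ^ 2 ≤ (C1 * (T + mw n x)) ^ 2 := pow_le_pow_left₀ (norm_nonneg _) h6 2
      have h8 : (C1 * (T + mw n x)) ^ 2 ≤ 2 * C1 ^ 2 * T ^ 2 + 2 * C1 ^ 2 * mw n x ^ 2 := by
        nlinarith [mul_nonneg (sq_nonneg C1) (sq_nonneg (T - mw n x))]
      exact h7.trans h8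
    have hmwi : IntervalIntegrable (fun x : ℝ => mw n x ^ 2) volume X (2 * X) := by
      rw [intervalIntegrable_iff]
      refine IntegrableOn.of_bound (C := B ^ 2) ?_ ?_ ?_
      · rw [Set.uIoc_of_le hle]
        exact measure_Ioc_lt_top
      · exact ((mw_meas n).pow_const 2).aestronglyMeasurable
      · refine (ae_restrict_iff' measurableSet_uIoc).2 (Filter.Eventually.of_forall fun x hx => ?_)
        rw [Set.uIoc_of_le hle] at hx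
        have hm := hB x (by linarith [hx.1]) hx.2
        rw [Real.norm_of_nonneg (sq_nonneg _)]
        exact pow_le_pow_left₀ hm.1 hm.2 2
    have hmono := intervalIntegral.integral_mono_on hle hi
      ((intervalIntegrable_const (c := 2 * C1 ^ 2 * T ^ 2)).add (hmwi.const_mul (2 * C1 ^ 2))) hpt
    rw [intervalIntegral.integral_add intervalIntegrable_const (hmwi.const_mul _),
      intervalIntegral.integral_const, intervalIntegral.integral_const_mul] at hmono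
    have hms := h2 n X hn hc hXn'
    rw [← hG, ← hP] at hms
    have hTT : X * T ^ 2 = G ^ 4 * P := by
      rw [hT, hP, mul_pow, mul_pow, FinalB_n, ← FinalB_pow hX0]
      ring
    have h9 : (2 * X - X) • (2 * C1 ^ 2 * T ^ 2) = 2 * C1 ^ 2 * (G ^ 4 * P) := by
      rw [smul_eq_mul, ← hTT]
      ring
    rw [h9] at hmono
    have h10 : 2 * C1 ^ 2 * (G ^ 4 * P) ≤ 2 * C1 ^ 2 * (G ^ 5 * P) := by gcongr
    have h11 : 2 * C1 ^ 2 * ∫ x in X..(2 * X), mw n x ^ 2 ≤ 2 * C1 ^ 2 * (C2 * (G ^ 5 * P)) := by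
      refine mul_le_mul_of_nonneg_left (hms.trans ?_) (by positivity)
      gcongr
    have h12 : 0 ≤ 32 * C3 ^ 2 * (G ^ 5 * P) := by positivity
    calc ∫ x in X..(2 * X), ‖b (√x)‖ ^ 2
        ≤ 2 * C1 ^ 2 * (G ^ 5 * P) + 2 * C1 ^ 2 * (C2 * (G ^ 5 * P)) := by linarith
      _ ≤ (2 * C1 ^ 2 * (1 + C2) + 32 * C3 ^ 2) * (G ^ 5 * P) := by linarith
  · -- small `X`
    set T : ℝ := G ^ 2 * ((n : ℝ) ^ (1 / 4 : ℝ) * X ^ (-(33 / 52) : ℝ)) with hT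
    have hT0 : 0 ≤ T := by positivity
    have hpt : ∀ x ∈ Set.Icc X (2 * X), ‖b (√x)‖ ^ 2 ≤ C3 ^ 2 * T ^ 2 := by
      intro x hx
      have hx1 : 1 ≤ x := hX.trans hx.1
      have h4 := h3 n hn b hb hb' hd x hx1 (hx.2.trans hXn)
      have h5 : x ^ (-(33 / 52) : ℝ) ≤ X ^ (-(33 / 52) : ℝ) :=
        Real.rpow_le_rpow_of_nonpos hX0 hx.1 (by norm_num)
      have h6 : ‖b (√x)‖ ≤ C3 * T := by
        refine h4.trans ?_
        rw [hT]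
        gcongr
      have h7 : ‖b (√x)‖ ^ 2 ≤ (C3 * T) ^ 2 := pow_le_pow_left₀ (norm_nonneg _) h6 2
      rwa [mul_pow] at h7
    have hmono := intervalIntegral.integral_mono_on hle hi
      (intervalIntegrable_const (c := C3 ^ 2 * T ^ 2)) hpt
    rw [intervalIntegral.integral_const] at hmono
    have hTT : X * T ^ 2 = G ^ 4 * (P * X ^ (3 / 13 : ℝ)) := by
      have h8 : X * T ^ 2 = G ^ 4 * ((n : ℝ) ^ (1 / 2 : ℝ) *
          (X * (X ^ (-(33 / 52) : ℝ)) ^ 2)) := by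
        rw [hT, mul_pow, mul_pow, FinalB_n]
        ring
      rw [h8, FinalB_pow' hX0, hP]
      ring
    have h9 : (2 * X - X) • (C3 ^ 2 * T ^ 2) = C3 ^ 2 * (G ^ 4 * (P * X ^ (3 / 13 : ℝ))) := by
      rw [smul_eq_mul, ← hTT]
      ring
    rw [h9] at hmono
    have hX13 : X ^ (3 / 13 : ℝ) ≤ 32 * G := by
      have h10 : X ^ (3 / 13 : ℝ) ≤ X ^ (1 : ℝ) :=
        Real.rpow_le_rpow_of_exponent_le hX (by norm_num)
      rw [Real.rpow_one] at h10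
      rw [hG]
      linarith
    have h11 : C3 ^ 2 * (G ^ 4 * (P * X ^ (3 / 13 : ℝ))) ≤ C3 ^ 2 * (G ^ 4 * (P * (32 * G))) := by
      gcongr
    have h12 : C3 ^ 2 * (G ^ 4 * (P * (32 * G))) = 32 * C3 ^ 2 * (G ^ 5 * P) := by ring
    have h13 : 0 ≤ 2 * C1 ^ 2 * (1 + C2) * (G ^ 5 * P) := by positivity
    calc ∫ x in X..(2 * X), ‖b (√x)‖ ^ 2 ≤ 32 * C3 ^ 2 * (G ^ 5 * P) := by linarith
      _ ≤ (2 * C1 ^ 2 * (1 + C2) + 32 * C3 ^ 2) * (G ^ 5 * P) := by linarith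

end Pool.Agent.Helper31.FI
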