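import Pool.Agent.Helper31.FI.FinalA
import Pool.Agent.Helper31.FI.Asym

/-!
# FI-F3: the asymptotic formula for the basis functions

`exists_gen`, `delta`, `cf_indep`, `asym`.
-/

set_option autoImplicit false

namespace Pool.Agent.Helper31.FI

open Complex Real Finset MeasureTheory

theorem final_c : ∃ kap : ℕ → ℤ → ℂ, (∀ j : ℕ, Odd j → ∀ m ∈ Ms j, ‖kap j m‖ = 1) ∧ kap 1 1 = ze ∧
    ∃ C : ℝ, 0 < C ∧ ∀ (n : ℕ), 1 ≤ n → ∀ b : SchwartzMap ℝ ℂ,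
    (∀ s : ℝ, b (-s) = b s) → (∀ ξ : ℝ, ∫ s : ℝ, cexp (-(2 * π * I * ξ * s)) * b s = b ξ) →
    (∀ m : ℕ, b (√m) = if m = n then 1 else 0) →
    ∀ x : ℝ, 1 ≤ x → x ≤ n - √n →
      ‖b (√x) - ((2 * Real.sin (π * x) / √n * (cexp (π * I / 4) * mainC kap x n).im : ℝ) : ℂ)‖ ≤
        C * ((1 + Real.log n) ^ 3 * ((n : ℝ) ^ (1 / 4 : ℝ) * x ^ (-(3 / 4) : ℝ))) := by
  obtain ⟨kap, hk1, hk2, C, hC, h⟩ := asym
  refine ⟨kap, hk1, hk2, C, hC, fun n hn b hb hb' hd x hx hxn => ?_⟩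
  have hn0 : (0 : ℝ) < n := by exact_mod_cast hn
  obtain ⟨F, hF⟩ := exists_gen (x := x) (by linarith)
  have h1 : cf F 1 n = cf F (1 / n) n := cf_indep hF one_pos (by positivity) n
  rw [delta (by linarith) hF n b hb hb' hd, h1]
  exact h x F n hn hx hxn hF

end Pool.Agent.Helper31.FI
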