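import Pool.Agent.Helper31.FI.FinalB

/-!
# FI-F4: mean square up to `n - √n`

`Z = n - √n`.  If `Z < 2` then `n ≤ 3` and `final_a` gives `‖b √x‖² ≤ C` on `[1, 2]`.  Otherwise: if `2 X > Z` then
`[X, Z] ⊆ [Z/2, Z]` and `final_b` with `Z/2 ≥ X/2`.  If `2 X ≤ Z`: `∫_X^Z = ∫_X^{2X} + ∫_{2X}^Z`, induction on the number of doublings
(`2^k X ≤ Z < 2^(k+1) X`): total `≤ C B X^(-1/2) (∑_i 2^(-i/2) + √2) ≤ 5 C B X^(-1/2)`.  (`x ↦ ‖b √x‖²` is continuous.)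
-/

set_option autoImplicit false

namespace Pool.Agent.Helper31.FI

open Complex Real Finset MeasureTheory

private lemma FinalD_two : (2 : ℝ) ^ (-(1 / 2) : ℝ) ≤ 4 / 5 := by
  rw [Real.rpow_neg (by norm_num : (0 : ℝ) ≤ 2), ← Real.sqrt_eq_rpow, inv_eq_one_div, div_le_div_iff₀ (by positivity) (by norm_num)]
  have : (5 / 4 : ℝ) ≤ √2 := by
    apply Real.le_sqrt_of_sq_le
    norm_num
  linarith

private lemma FinalD_half : (1 / 2 : ℝ) ^ (-(1 / 2) : ℝ) ≤ 2 := by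
  rw [Real.rpow_neg (by norm_num : (0 : ℝ) ≤ 1 / 2), ← Real.sqrt_eq_rpow]
  have : (1 / 2 : ℝ) ≤ √(1 / 2) := by
    apply Real.le_sqrt_of_sq_le
    norm_num
  calc (√(1 / 2))⁻¹ ≤ (1 / 2 : ℝ)⁻¹ := inv_anti₀ (by norm_num) this
    _ = 2 := by norm_num

private lemma FinalD_ind {f : ℝ → ℝ} (hf : Continuous f) (hf0 : ∀ x, 0 ≤ f x) {Z A : ℝ} (hA : 0 ≤ A)
    (hZ : 2 ≤ Z) (h : ∀ X : ℝ, 1 ≤ X → 2 * X ≤ Z → ∫ x in X..(2 * X), f x ≤ A * X ^ (-(1 / 2) : ℝ)) (k : ℕ) :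
    ∀ X : ℝ, 1 ≤ X → X ≤ Z → Z < 2 ^ (k + 1) * X → ∫ x in X..Z, f x ≤ 5 * A * X ^ (-(1 / 2) : ℝ) := by
  have hlow : ∀ X : ℝ, 1 ≤ X → X ≤ Z → Z < 2 * X → ∫ x in X..Z, f x ≤ 5 * A * X ^ (-(1 / 2) : ℝ) := by
    intro X hX hXZ hk
    have hX0 : 0 < X := by linarith
    have h1 := h (Z / 2) (by linarith) (by linarith)
    have e : 2 * (Z / 2) = Z := by ring
    rw [e] at h1
    have h2 : ∫ x in X..Z, f x ≤ ∫ x in (Z / 2)..Z, f x := by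
      have := intervalIntegral.integral_add_adjacent_intervals (a := Z / 2) (b := X) (c := Z)
        (hf.intervalIntegrable _ _) (hf.intervalIntegrable (μ := volume) _ _)
      rw [← this]
      have h3 : 0 ≤ ∫ x in (Z / 2)..X, f x :=
        intervalIntegral.integral_nonneg (by linarith) (fun x _ => hf0 x)
      linarith
    have h4 : (Z / 2) ^ (-(1 / 2) : ℝ) ≤ ((1 / 2) * X) ^ (-(1 / 2) : ℝ) :=
      Real.rpow_le_rpow_of_nonpos (by positivity) (by linarith) (by norm_num)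
    rw [Real.mul_rpow (by norm_num) hX0.le] at h4
    have h5 : (0 : ℝ) ≤ X ^ (-(1 / 2) : ℝ) := by positivity
    have h6 : (1 / 2 : ℝ) ^ (-(1 / 2) : ℝ) * X ^ (-(1 / 2) : ℝ) ≤ 5 * X ^ (-(1 / 2) : ℝ) :=
      mul_le_mul_of_nonneg_right (FinalD_half.trans (by norm_num)) h5
    calc ∫ x in X..Z, f x ≤ A * (Z / 2) ^ (-(1 / 2) : ℝ) := h2.trans h1
      _ ≤ A * (5 * X ^ (-(1 / 2) : ℝ)) := mul_le_mul_of_nonneg_left (h4.trans h6) hA
      _ = 5 * A * X ^ (-(1 / 2) : ℝ) := by ring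
  induction k with
  | zero =>
    intro X hX hXZ hk
    exact hlow X hX hXZ (by simpa using hk)
  | succ k ih =>
    intro X hX hXZ hk
    have hX0 : 0 < X := by linarith
    rcases lt_or_ge Z (2 * X) with hc | hc
    · exact hlow X hX hXZ hc
    · have h1 := h X hX hc
      have h2 := ih (2 * X) (by linarith) hc (by
        calc Z < 2 ^ (k + 1 + 1) * X := hk
          _ = 2 ^ (k + 1) * (2 * X) := by ring)
      rw [Real.mul_rpow (by norm_num) hX0.le] at h2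
      have h5 : (0 : ℝ) ≤ X ^ (-(1 / 2) : ℝ) := by positivity
      have h3 : (2 : ℝ) ^ (-(1 / 2) : ℝ) * X ^ (-(1 / 2) : ℝ) ≤ 4 / 5 * X ^ (-(1 / 2) : ℝ) :=
        mul_le_mul_of_nonneg_right FinalD_two h5
      have h4 : 5 * A * ((2 : ℝ) ^ (-(1 / 2) : ℝ) * X ^ (-(1 / 2) : ℝ)) ≤
          5 * A * (4 / 5 * X ^ (-(1 / 2) : ℝ)) := mul_le_mul_of_nonneg_left h3 (by positivity)
      have := intervalIntegral.integral_add_adjacent_intervals (a := X) (b := 2 * X) (c := Z)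
        (hf.intervalIntegrable _ _) (hf.intervalIntegrable (μ := volume) _ _)
      rw [← this]
      linarith

private lemma FinalD_cont (b : SchwartzMap ℝ ℂ) : Continuous (fun x : ℝ => ‖b (√x)‖ ^ 2) := by
  have h1 : Continuous (fun x : ℝ => b (√x)) := b.continuous.comp Real.continuous_sqrt
  exact h1.norm.pow 2

theorem final_d : ∃ C : ℝ, 0 < C ∧ ∀ (n : ℕ), 1 ≤ n → ∀ b : SchwartzMap ℝ ℂ,
    (∀ s : ℝ, b (-s) = b s) → (∀ ξ : ℝ, ∫ s : ℝ, cexp (-(2 * π * I * ξ * s)) * b s = b ξ) →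
    (∀ m : ℕ, b (√m) = if m = n then 1 else 0) →
    ∀ X : ℝ, 1 ≤ X → X ≤ n - √n →
      ∫ x in X..(n - √n), ‖b (√x)‖ ^ 2 ≤
        C * ((1 + Real.log n) ^ 5 * ((n : ℝ) ^ (1 / 2 : ℝ) * X ^ (-(1 / 2) : ℝ))) := by
  obtain ⟨C1, hC1, h1⟩ := final_b
  obtain ⟨C3, hC3, h3⟩ := final_a
  refine ⟨5 * C1 + 2 * C3 ^ 2, by positivity, ?_⟩
  intro n hn b hb hb' hd X hX hXn
  have hn1 : (1 : ℝ) ≤ n := by exact_mod_cast hn
  have hX0 : 0 < X := by linarith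
  have hlog : 0 ≤ Real.log n := Real.log_nonneg hn1
  set G : ℝ := 1 + Real.log n with hG
  have hG1 : 1 ≤ G := by linarith
  set Z : ℝ := n - √n with hZ
  set N : ℝ := (n : ℝ) ^ (1 / 2 : ℝ) with hN
  have hN0 : 0 ≤ N := by positivity
  have hG5 : G ^ 4 ≤ G ^ 5 := pow_le_pow_right₀ hG1 (by norm_num)
  have hXp : (0 : ℝ) ≤ X ^ (-(1 / 2) : ℝ) := by positivity
  rcases lt_or_ge Z 2 with hc | hc
  · -- small `n`
    have hpt : ∀ x ∈ Set.Icc X Z, ‖b (√x)‖ ^ 2 ≤ C3 ^ 2 * (G ^ 5 * N) := by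
      intro x hx
      have hx1 : 1 ≤ x := hX.trans hx.1
      have h4 := h3 n hn b hb hb' hd x hx1 hx.2
      have h5 : x ^ (-(33 / 52) : ℝ) ≤ 1 :=
        Real.rpow_le_one_of_one_le_of_nonpos hx1 (by norm_num)
      have h6 : ‖b (√x)‖ ≤ C3 * (G ^ 2 * ((n : ℝ) ^ (1 / 4 : ℝ) * 1)) := by
        refine h4.trans ?_
        gcongr
      have h7 : ‖b (√x)‖ ^ 2 ≤ (C3 * (G ^ 2 * ((n : ℝ) ^ (1 / 4 : ℝ) * 1))) ^ 2 :=
        pow_le_pow_left₀ (norm_nonneg _) h6 2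
      have h8 : (C3 * (G ^ 2 * ((n : ℝ) ^ (1 / 4 : ℝ) * 1))) ^ 2 = C3 ^ 2 * (G ^ 4 * N) := by
        rw [hN, show (n : ℝ) ^ (1 / 2 : ℝ) = ((n : ℝ) ^ (1 / 4 : ℝ)) ^ 2 by
          rw [← Real.rpow_natCast, ← Real.rpow_mul (Nat.cast_nonneg n)]; norm_num]
        ring
      rw [h8] at h7
      refine h7.trans ?_
      gcongr
    have hmono := intervalIntegral.integral_mono_on hXn ((FinalD_cont b).intervalIntegrable (μ := volume) _ _)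
      (intervalIntegrable_const (c := C3 ^ 2 * (G ^ 5 * N))) hpt
    rw [intervalIntegral.integral_const, smul_eq_mul] at hmono
    have h9 : (1 / 2 : ℝ) ≤ X ^ (-(1 / 2) : ℝ) := by
      have h10 : (2 : ℝ) ^ (-(1 / 2) : ℝ) ≤ X ^ (-(1 / 2) : ℝ) :=
        Real.rpow_le_rpow_of_nonpos hX0 (by linarith) (by norm_num)
      have h11 : (2 : ℝ) ^ (-(1 : ℝ)) ≤ (2 : ℝ) ^ (-(1 / 2) : ℝ) :=
        Real.rpow_le_rpow_of_exponent_le (by norm_num) (by norm_num)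
      have h12 : (2 : ℝ) ^ (-(1 : ℝ)) = 1 / 2 := by
        rw [Real.rpow_neg_one]; norm_num
      linarith
    have h13 : (Z - X) * (C3 ^ 2 * (G ^ 5 * N)) ≤ 1 * (C3 ^ 2 * (G ^ 5 * N)) :=
      mul_le_mul_of_nonneg_right (by linarith) (by positivity)
    have h14 : C3 ^ 2 * (G ^ 5 * N) * (1 / 2) ≤ C3 ^ 2 * (G ^ 5 * N) * X ^ (-(1 / 2) : ℝ) :=
      mul_le_mul_of_nonneg_left h9 (by positivity)
    have h15 : 0 ≤ 5 * C1 * (G ^ 5 * (N * X ^ (-(1 / 2) : ℝ))) := by positivity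
    calc ∫ x in X..Z, ‖b (√x)‖ ^ 2 ≤ 1 * (C3 ^ 2 * (G ^ 5 * N)) := hmono.trans h13
      _ ≤ 2 * (C3 ^ 2 * (G ^ 5 * N) * X ^ (-(1 / 2) : ℝ)) := by linarith
      _ ≤ (5 * C1 + 2 * C3 ^ 2) * (G ^ 5 * (N * X ^ (-(1 / 2) : ℝ))) := by linarith
  · obtain ⟨k, hk⟩ := pow_unbounded_of_one_lt Z (show (1 : ℝ) < 2 by norm_num)
    have h4 := FinalD_ind (FinalD_cont b) (fun x => sq_nonneg _) (Z := Z) (A := C1 * (G ^ 5 * N))
      (by positivity) hc (fun Y hY hYZ => by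
        have := h1 n hn b hb hb' hd Y hY hYZ
        calc ∫ x in Y..(2 * Y), ‖b (√x)‖ ^ 2 ≤ C1 * (G ^ 5 * (N * Y ^ (-(1 / 2) : ℝ))) := this
          _ = C1 * (G ^ 5 * N) * Y ^ (-(1 / 2) : ℝ) := by ring) k X hX hXn (by
        have h5 : (2 : ℝ) ^ k ≤ 2 ^ (k + 1) * X := by
          have h6 : (0 : ℝ) < 2 ^ k := by positivity
          calc (2 : ℝ) ^ k ≤ 2 ^ k * (2 * X) := le_mul_of_one_le_right h6.le (by linarith)
            _ = 2 ^ (k + 1) * X := by ring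
        exact hk.trans_le h5)
    have h15 : 0 ≤ 2 * C3 ^ 2 * (G ^ 5 * (N * X ^ (-(1 / 2) : ℝ))) := by positivity
    calc ∫ x in X..Z, ‖b (√x)‖ ^ 2 ≤ 5 * (C1 * (G ^ 5 * N)) * X ^ (-(1 / 2) : ℝ) := h4
      _ ≤ (5 * C1 + 2 * C3 ^ 2) * (G ^ 5 * (N * X ^ (-(1 / 2) : ℝ))) := by linarith

end Pool.Agent.Helper31.FI
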