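import Pool.Agent.Helper31.FI.Defs

/-!
# Project FI: definitions for the generating function part
-/

set_option autoImplicit false

namespace Pool.Agent.Helper31.FI

open Complex Real

/-- `exp (π i x τ)` -/
noncomputable def ex (x : ℝ) (τ : ℂ) : ℂ := cexp (π * I * x * τ)

/-- `exp (π i x τ) / θ τ` -/
noncomputable def ep (x : ℝ) (τ : ℂ) : ℂ := ex x τ / jacobiTheta τ

/-- the reflection in the imaginary axis -/
noncomputable def sr (τ : ℂ) : ℂ := -(starRingEnd ℂ) τ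

/-- the conditions on the generating function `F τ = ∑ b_n (√x) exp (π i n τ)` -/
structure Gen (x : ℝ) (F : ℂ → ℂ) : Prop where
  ana : DifferentiableOn ℂ F {τ : ℂ | 0 < τ.im}
  per : ∀ τ : ℂ, 0 < τ.im → F (τ + 2) = F τ
  inv : ∀ τ : ℂ, 0 < τ.im → F τ + (-I * τ) ^ (-(1 / 2) : ℂ) * F (-1 / τ) =
    ex x τ + (-I * τ) ^ (-(1 / 2) : ℂ) * ex x (-1 / τ)
  sym : ∀ τ : ℂ, 0 < τ.im → F (sr τ) = (starRingEnd ℂ) (F τ)
  gr : ∃ C A : ℝ, ∀ τ : ℂ, 0 < τ.im → ‖F τ‖ ≤ C * (1 + 1 / τ.im) ^ A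

/-- coefficient of `exp (π i n τ)`, computed on the line `Im τ = v` -/
noncomputable def cf (F : ℂ → ℂ) (v : ℝ) (n : ℤ) : ℂ :=
  (1 / 2 : ℂ) * ∫ u in (-1 : ℝ)..1, F (u + I * v) * cexp (-(π * I * n * (u + I * v)))

/-- fundamental domain of the theta group -/
def FD : Set ℂ := {w | 0 < w.im ∧ |w.re| ≤ 1 ∧ 1 ≤ ‖w‖}

/-- the domain above all circles `|τ - 2k| = 1` -/
def D0 : Set ℂ := {τ | 0 < τ.im ∧ ∀ k : ℤ, 1 < ‖τ - 2 * k‖}

/-- its closure in the upper half plane -/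
def D0c : Set ℂ := {τ | 0 < τ.im ∧ ∀ k : ℤ, 1 ≤ ‖τ - 2 * k‖}

end Pool.Agent.Helper31.FI
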