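import Pool.Agent.Helper31.FI.TermEq
import Pool.Agent.Helper31.FI.Decomp
import Pool.Agent.Helper31.FI.Split

/-!
# FI-II: the integral of the path sum

For `|u| ≤ 1` by `decomp` and `term_eq`: `θ PP exp (-π i n τ) = ∑_j ∑_m κ_{j,m} √j ch x (n/j²) (c0/j) (j² u + j m)`.  Each summand is
integrable (`integrable_ch`), vanishes for `|u| > 1` (`cnt_zero`), and `∫ ch (j² u + j m) du = j^(-2) ∫ ch`.
-/

set_option autoImplicit false

namespace Pool.Agent.Helper31.FI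

open Complex Real Finset MeasureTheory

/-- the integrand -/
noncomputable def pint (x : ℝ) (n : ℕ) (u : ℝ) : ℂ :=
  jacobiTheta (u + I / n) * PP x (u + I / n) * cexp (-(π * I * n * (u + I / n)))

private theorem IntId_ex (x : ℝ) {n : ℕ} (hn : 1 ≤ n) {j : ℕ} (hjo : Odd j) {m : ℤ} (hm : m ∈ Ms j) :
    ∃ κ : ℂ, ‖κ‖ = 1 ∧ ∀ (i : ℕ) (u : ℝ),
      jacobiTheta (u + I / n) * ((-1 : ℂ) ^ ((c0 j m : ℤ) + i * j) *
          ep x (gm j m ((c0 j m : ℤ) + i * j) (d0 j m + i * m) (u + I / n))) *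
            cexp (-(π * I * n * (u + I / n))) =
        κ * (√(j : ℝ) : ℝ) * (ze ^ i * gk x (n / (j : ℝ) ^ 2) ((c0 j m : ℝ) / j + i)
          (((j : ℝ) ^ 2 * u + j * m : ℝ) + I / ((n / (j : ℝ) ^ 2 : ℝ) : ℂ))) := by
  have hj1 : 1 ≤ j := hjo.pos
  unfold Ms at hm
  rw [mem_filter] at hm
  obtain ⟨hm1, hm2, hm3⟩ := hm
  obtain ⟨h1, h2, h3⟩ := c0_spec hj1 hm3
  obtain ⟨κ, hκ, h⟩ := term_eq x hn (j := j) (m := m) (c₀ := c0 j m) (d₀ := d0 j m)
    (by exact_mod_cast hj1) (by exact_mod_cast hjo) hm2 (by exact_mod_cast h1) h3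
  refine ⟨κ, hκ, fun i u => ?_⟩
  have := h i u
  push_cast at this ⊢
  exact this

/-- the constant -/
private noncomputable def IntId_kap (x : ℝ) (n j : ℕ) (m : ℤ) : ℂ :=
  open Classical in
  if h : 1 ≤ n ∧ Odd j ∧ m ∈ Ms j then (IntId_ex x h.1 h.2.1 h.2.2).choose else 1

private theorem IntId_norm (x : ℝ) (n j : ℕ) (m : ℤ) : ‖IntId_kap x n j m‖ = 1 := by
  unfold IntId_kap
  split_ifs with h
  · exact (IntId_ex x h.1 h.2.1 h.2.2).choose_spec.1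
  · simp

/-- the integrand as a sum of chains -/
private theorem IntId_pint (x : ℝ) {n : ℕ} (hn : 1 ≤ n) {u : ℝ} (hu : |u| ≤ 1) :
    pint x n u = ∑ j ∈ (range n).filter Odd, ∑ m ∈ Ms j,
      IntId_kap x n j m * (√(j : ℝ) : ℝ) *
        ch x (n / (j : ℝ) ^ 2) ((c0 j m : ℝ) / j) ((j : ℝ) ^ 2 * u + j * m) := by
  unfold pint
  rw [decomp x hn hu, Finset.mul_sum, Finset.sum_mul]
  refine Finset.sum_congr rfl fun j hj => ?_
  rw [mem_filter] at hj
  have hjo : Odd j := hj.2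
  rw [Finset.mul_sum, Finset.sum_mul]
  refine Finset.sum_congr rfl fun m hm => ?_
  unfold ch
  rw [Finset.mul_sum, Finset.sum_mul, Finset.mul_sum]
  refine Finset.sum_congr rfl fun i _ => ?_
  have hκ : IntId_kap x n j m = (IntId_ex x hn hjo hm).choose := by
    unfold IntId_kap
    rw [dif_pos ⟨hn, hjo, hm⟩]
  rw [hκ]
  have h := (IntId_ex x hn hjo hm).choose_spec.2 i u
  push_cast at h ⊢
  exact h

/-- one chain -/
private theorem IntId_ch (x : ℝ) {n : ℕ} (hn : 1 ≤ n) {j : ℕ} (hj : Odd j) {m : ℤ} (hm : m ∈ Ms j) :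
    IntervalIntegrable (fun u : ℝ => ch x (n / (j : ℝ) ^ 2) ((c0 j m : ℝ) / j) ((j : ℝ) ^ 2 * u + j * m))
      volume (-1) 1 ∧
    ∫ u in (-1 : ℝ)..1, ch x (n / (j : ℝ) ^ 2) ((c0 j m : ℝ) / j) ((j : ℝ) ^ 2 * u + j * m) =
      (((j : ℝ) ^ 2)⁻¹ : ℝ) * ∫ u, ch x (n / (j : ℝ) ^ 2) ((c0 j m : ℝ) / j) u := by
  have hj1 : 1 ≤ j := hj.pos
  have hj0 : (0 : ℝ) < j := by exact_mod_cast hj1
  have hn0 : (0 : ℝ) < n := by exact_mod_cast hn
  have hc : 1 ≤ c0 j m := by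
    have hm' := hm
    unfold Ms at hm'
    rw [mem_filter] at hm'
    exact (c0_spec hj1 hm'.2.2).1
  have hc0 : (0 : ℝ) < c0 j m := by exact_mod_cast hc
  have hint := integrable_ch (x := x) (N := n / (j : ℝ) ^ 2) (ν₀ := (c0 j m : ℝ) / j)
    (by positivity) (by positivity)
  set f := ch x (n / (j : ℝ) ^ 2) ((c0 j m : ℝ) / j) with hf
  have h1 : Integrable (fun u : ℝ => f ((j : ℝ) ^ 2 * u + j * m)) :=
    (hint.comp_add_right ((j : ℝ) * m)).comp_mul_left' (by positivity)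
  refine ⟨h1.intervalIntegrable, ?_⟩
  have h2 : ∀ u : ℝ, u ∉ Set.Icc (-1 : ℝ) 1 → f ((j : ℝ) ^ 2 * u + j * m) = 0 := by
    intro u hu
    have hu1 : 1 < |u| := by
      by_contra hlt
      push Not at hlt
      exact hu (abs_le.1 hlt)
    rw [hf]
    unfold ch
    rw [cnt_zero hn hu1 hj hm]
    simp
  rw [intervalIntegral.integral_of_le (by norm_num), ← integral_Icc_eq_integral_Ioc,
    setIntegral_eq_integral_of_forall_compl_eq_zero h2]
  have h3 := Measure.integral_comp_mul_left (fun y : ℝ => f (y + j * m)) ((j : ℝ) ^ 2)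
  rw [h3, integral_add_right_eq_self f, abs_of_pos (by positivity)]
  rw [Complex.real_smul]

private theorem IntId_row (x : ℝ) {n : ℕ} (hn : 1 ≤ n) {j : ℕ} (hjo : Odd j) :
    IntervalIntegrable (fun u : ℝ => ∑ m ∈ Ms j, IntId_kap x n j m * (√(j : ℝ) : ℝ) *
        ch x (n / (j : ℝ) ^ 2) ((c0 j m : ℝ) / j) ((j : ℝ) ^ 2 * u + j * m)) volume (-1) 1 := by
  have h3 := IntervalIntegrable.sum (μ := volume) (a := (-1 : ℝ)) (b := 1) (Ms j)
    (f := fun (m : ℤ) (u : ℝ) => IntId_kap x n j m * (√(j : ℝ) : ℝ) *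
      ch x (n / (j : ℝ) ^ 2) ((c0 j m : ℝ) / j) ((j : ℝ) ^ 2 * u + j * m))
    (fun m hm => (IntId_ch x hn hjo hm).1.const_mul _)
  have h4 : (∑ m ∈ Ms j, fun (u : ℝ) => IntId_kap x n j m * (√(j : ℝ) : ℝ) *
      ch x (n / (j : ℝ) ^ 2) ((c0 j m : ℝ) / j) ((j : ℝ) ^ 2 * u + j * m)) =
      fun u : ℝ => ∑ m ∈ Ms j, IntId_kap x n j m * (√(j : ℝ) : ℝ) *
        ch x (n / (j : ℝ) ^ 2) ((c0 j m : ℝ) / j) ((j : ℝ) ^ 2 * u + j * m) := by
    funext u
    rw [Finset.sum_apply]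
  rw [h4] at h3
  exact h3

theorem pint_integrable (x : ℝ) {n : ℕ} (hn : 1 ≤ n) :
    IntervalIntegrable (pint x n) volume (-1) 1 := by
  have h5 := IntervalIntegrable.sum (μ := volume) (a := (-1 : ℝ)) (b := 1) ((range n).filter Odd)
    (f := fun (j : ℕ) (u : ℝ) => ∑ m ∈ Ms j, IntId_kap x n j m * (√(j : ℝ) : ℝ) *
      ch x (n / (j : ℝ) ^ 2) ((c0 j m : ℝ) / j) ((j : ℝ) ^ 2 * u + j * m))
    (fun j hj => IntId_row x hn (mem_filter.1 hj).2)
  refine h5.congr_uIoo ?_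
  intro u hu
  have hu' : |u| ≤ 1 := by
    rw [Set.uIoo_of_le (by norm_num)] at hu
    exact abs_le.2 ⟨hu.1.le, hu.2.le⟩
  simp only [Finset.sum_apply]
  exact (IntId_pint x hn hu').symm

theorem pint_le (x : ℝ) {n : ℕ} (hn : 1 ≤ n) :
    ‖∫ u in (-1 : ℝ)..1, pint x n u‖ ≤ ∑ j ∈ (range n).filter Odd, ∑ m ∈ Ms j,
      (j : ℝ) ^ (-(3 / 2) : ℝ) * ‖∫ u, ch x (n / (j : ℝ) ^ 2) ((c0 j m : ℝ) / j) u‖ := by
  have h1 : ∫ u in (-1 : ℝ)..1, pint x n u = ∫ u in (-1 : ℝ)..1,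
      ∑ j ∈ (range n).filter Odd, ∑ m ∈ Ms j,
      IntId_kap x n j m * (√(j : ℝ) : ℝ) *
        ch x (n / (j : ℝ) ^ 2) ((c0 j m : ℝ) / j) ((j : ℝ) ^ 2 * u + j * m) := by
    apply intervalIntegral.integral_congr
    intro u hu
    rw [Set.uIcc_of_le (by norm_num)] at hu
    exact IntId_pint x hn (abs_le.2 hu)
  rw [h1, intervalIntegral.integral_finsetSum]
  · refine (norm_sum_le _ _).trans (Finset.sum_le_sum fun j hj => ?_)
    rw [mem_filter] at hj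
    have hjo : Odd j := hj.2
    have hj0 : (0 : ℝ) < j := by exact_mod_cast hjo.pos
    rw [intervalIntegral.integral_finsetSum]
    · refine (norm_sum_le _ _).trans (Finset.sum_le_sum fun m hm => ?_)
      rw [intervalIntegral.integral_const_mul, (IntId_ch x hn hjo hm).2]
      have h2 : (√(j : ℝ) : ℝ) * ((j : ℝ) ^ 2)⁻¹ = (j : ℝ) ^ (-(3 / 2) : ℝ) := by
        rw [Real.sqrt_eq_rpow, ← Real.rpow_natCast, ← Real.rpow_neg hj0.le, ← Real.rpow_add hj0]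
        norm_num
      rw [norm_mul, norm_mul, norm_mul, IntId_norm, one_mul, ← h2, Complex.norm_real,
        Complex.norm_real, Real.norm_of_nonneg (Real.sqrt_nonneg _),
        Real.norm_of_nonneg (by positivity), mul_assoc]
    · intro m hm
      exact (IntId_ch x hn hjo hm).1.const_mul _
  · intro j hj
    exact IntId_row x hn (mem_filter.1 hj).2

end Pool.Agent.Helper31.FI
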