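import Pool.Agent.Helper31.FI.CvLim

/-!
# FI-IP: the interpolation formula for self dual even Schwartz functions

* `conv_id` (`t ≥ 1`): integrate `rbump` against `f a da`: `∑_n |c_n| ∫ ‖f a‖ (gb + |gh|) da < ∞` by `cv_decay` (with `K > 2 A + 2`,
  `y = √n`) and `|gh t a √n| ≤ exp (-π n/t)` (`hasSum_integral_of_summable_integral_norm`), `gh_int`.
* `interp`: `t → ∞` in `conv_id`, dominated convergence for series (`tendsto_tsum_of_dominated_convergence`): the terms are bounded by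
  `|c_n| (C (1 + √n)^(-K) + ‖f √n‖)`, summable; both sides give twice the claim.
-/

set_option autoImplicit false

namespace Pool.Agent.Helper31.FI

open Complex Real MeasureTheory Filter Topology

private theorem ip_pow_le (K : ℕ) (n : ℕ) :
    (1 + √(n : ℝ)) ^ (-((2 * K : ℕ) : ℝ)) ≤ ((n : ℝ) + 1) ^ (-(K : ℝ)) := by
  have hn : (0 : ℝ) ≤ n := Nat.cast_nonneg n
  have hs : 0 ≤ √(n : ℝ) := Real.sqrt_nonneg _
  have h1 : (0 : ℝ) < 1 + √(n : ℝ) := by positivity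
  have h2 : (0 : ℝ) < (n : ℝ) + 1 := by positivity
  have h3 : (n : ℝ) + 1 ≤ (1 + √(n : ℝ)) ^ 2 := by
    have := Real.sq_sqrt hn
    nlinarith
  have h4 : (1 + √(n : ℝ)) ^ (-((2 * K : ℕ) : ℝ)) = ((1 + √(n : ℝ)) ^ 2) ^ (-(K : ℝ)) := by
    rw [← Real.rpow_natCast (1 + √(n : ℝ)) 2, ← Real.rpow_mul h1.le]
    congr 1
    push_cast
    ring
  rw [h4]
  exact Real.rpow_le_rpow_of_nonpos h2 h3 (by simp)

private theorem ip_summable_rpow {C A : ℝ} (hC : 0 < C) {K : ℕ} (hK : A + 2 ≤ K) :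
    Summable (fun n : ℕ => (C * ((n : ℝ) + 1) ^ A) * (1 + √(n : ℝ)) ^ (-((2 * K : ℕ) : ℝ))) := by
  have hb : Summable (fun n : ℕ => C * ((n : ℝ) + 1) ^ (-2 : ℝ)) := by
    refine Summable.mul_left _ ?_
    have h := (summable_nat_add_iff 1).2 (Real.summable_nat_rpow.2 (by norm_num : (-2 : ℝ) < -1))
    refine h.congr fun n => ?_
    push_cast
    rfl
  refine Summable.of_nonneg_of_le (fun n => by positivity) (fun n => ?_) hb
  have h2 : (0 : ℝ) < (n : ℝ) + 1 := by positivity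
  have h21 : (1 : ℝ) ≤ (n : ℝ) + 1 := by
    have : (0 : ℝ) ≤ n := Nat.cast_nonneg n
    linarith
  calc (C * ((n : ℝ) + 1) ^ A) * (1 + √(n : ℝ)) ^ (-((2 * K : ℕ) : ℝ))
      ≤ (C * ((n : ℝ) + 1) ^ A) * ((n : ℝ) + 1) ^ (-(K : ℝ)) :=
        mul_le_mul_of_nonneg_left (ip_pow_le K n) (by positivity)
    _ = C * ((n : ℝ) + 1) ^ (A + (-(K : ℝ))) := by rw [mul_assoc, ← Real.rpow_add h2]
    _ ≤ C * ((n : ℝ) + 1) ^ (-2 : ℝ) :=
        mul_le_mul_of_nonneg_left (Real.rpow_le_rpow_of_exponent_le h21 (by linarith)) hC.le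

private theorem ip_summable_exp {C A r : ℝ} (hr : 0 < r) :
    Summable (fun n : ℕ => (C * ((n : ℝ) + 1) ^ A) * rexp (-(r * n))) := by
  have h0 := Real.summable_pow_mul_exp_neg_nat_mul (⌈A⌉₊) hr
  have h1 := (summable_nat_add_iff 1).2 h0
  have h2 : Summable (fun n : ℕ => (|C| * rexp r) * (((n + 1 : ℕ) : ℝ) ^ (⌈A⌉₊) * rexp (-r * ((n + 1 : ℕ) : ℝ)))) :=
    h1.mul_left _
  refine Summable.of_norm_bounded h2 (fun n => ?_)
  have hn : (0 : ℝ) < (n : ℝ) + 1 := by positivity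
  have hn1 : (1 : ℝ) ≤ (n : ℝ) + 1 := by
    have : (0 : ℝ) ≤ n := Nat.cast_nonneg n
    linarith
  rw [norm_mul, norm_mul, Real.norm_eq_abs, Real.norm_of_nonneg (Real.rpow_nonneg hn.le _),
    Real.norm_of_nonneg (Real.exp_pos _).le]
  have h3 : ((n : ℝ) + 1) ^ A ≤ ((n : ℝ) + 1) ^ (⌈A⌉₊) := by
    rw [← Real.rpow_natCast]
    exact Real.rpow_le_rpow_of_exponent_le hn1 (Nat.le_ceil A)
  have h4 : rexp (-(r * n)) = rexp r * rexp (-r * ((n + 1 : ℕ) : ℝ)) := by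
    rw [← Real.exp_add]
    congr 1
    push_cast
    ring
  rw [h4]
  push_cast
  have h5 : 0 ≤ rexp r * rexp (-r * ((n : ℝ) + 1)) := by positivity
  calc |C| * ((n : ℝ) + 1) ^ A * (rexp r * rexp (-r * ((n : ℝ) + 1)))
      ≤ |C| * ((n : ℝ) + 1) ^ (⌈A⌉₊) * (rexp r * rexp (-r * ((n : ℝ) + 1))) :=
        mul_le_mul_of_nonneg_right (mul_le_mul_of_nonneg_left h3 (abs_nonneg C)) h5
    _ = |C| * rexp r * (((n : ℝ) + 1) ^ (⌈A⌉₊) * rexp (-r * ((n : ℝ) + 1))) := by ring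

theorem conv_id {x : ℝ} (hx : 0 ≤ x) {F : ℂ → ℂ} (hF : Gen x F) (f : SchwartzMap ℝ ℂ)
    (hf : ∀ s : ℝ, f (-s) = f s) (hf' : ∀ ξ : ℝ, ∫ s : ℝ, cexp (-(2 * π * I * ξ * s)) * f s = f ξ)
    {t : ℝ} (ht : 1 ≤ t) :
    HasSum (fun n : ℕ => cf F 1 n * (cv f t (√n) + rexp (-(π * n / t)) * f (√n)))
      (cv f t (√x) + rexp (-(π * x / t)) * f (√x)) := by
  have ht0 : 0 < t := lt_of_lt_of_le one_pos ht
  obtain ⟨C, A, hC, hA, hcf⟩ := cf_bound hF
  obtain ⟨K, hK⟩ := exists_nat_ge (A + 2)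
  obtain ⟨D, hD, hdec⟩ := cv_decay f (2 * K)
  have hsplit : ∀ (y a : ℝ), f a * (((gb t a y + gh t a y : ℝ)) : ℂ) =
      f a * (gb t a y : ℂ) + f a * (gh t a y : ℂ) := by
    intro y a
    push_cast
    ring
  have hval : ∀ y : ℝ, ∫ a : ℝ, f a * (((gb t a y + gh t a y : ℝ)) : ℂ) =
      cv f t y + rexp (-(π * y ^ 2 / t)) * f y := by
    intro y
    simp only [hsplit]
    rw [integral_add (cv_int f ht0 y).1 (cv_int f ht0 y).2, gh_int f hf hf' t y]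
    rfl
  have hint : ∀ y : ℝ, Integrable (fun a : ℝ => f a * (((gb t a y + gh t a y : ℝ)) : ℂ)) := by
    intro y
    simp only [hsplit]
    exact (cv_int f ht0 y).1.add (cv_int f ht0 y).2
  have hI : ∀ n : ℕ, Integrable (fun a : ℝ => cf F 1 n *
      (f a * (((gb t a (√n) + gh t a (√n) : ℝ)) : ℂ))) := fun n => (hint _).const_mul _
  have hgh : ∀ (n : ℕ), ∫ a : ℝ, ‖f a * (gh t a (√n) : ℂ)‖ ≤ (∫ a : ℝ, ‖f a‖) * rexp (-(π / t * n)) := by
    intro n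
    rw [← integral_mul_const]
    refine integral_mono (cv_int f ht0 _).2.norm (f.integrable.norm.mul_const _) (fun a => ?_)
    simp only [norm_mul]
    refine mul_le_mul_of_nonneg_left ?_ (norm_nonneg _)
    rw [Complex.norm_real, Real.norm_eq_abs, gh, abs_mul, abs_of_pos (Real.exp_pos _)]
    have h1 : rexp (-(π * (√(n : ℝ)) ^ 2 / t)) = rexp (-(π / t * n)) := by
      rw [Real.sq_sqrt (Nat.cast_nonneg n)]
      congr 1
      ring
    rw [h1]
    exact mul_le_of_le_one_right (Real.exp_pos _).le (Real.abs_cos_le_one _)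
  have hS : Summable (fun n : ℕ => ∫ a : ℝ, ‖cf F 1 n *
      (f a * (((gb t a (√n) + gh t a (√n) : ℝ)) : ℂ))‖) := by
    have hb1 : Summable (fun n : ℕ => ((C * ((n : ℝ) + 1) ^ A) * (1 + √(n : ℝ)) ^ (-((2 * K : ℕ) : ℝ))) * D) :=
      (ip_summable_rpow hC hK).mul_right _
    have hb2 : Summable (fun n : ℕ => ((C * ((n : ℝ) + 1) ^ A) * rexp (-(π / t * n))) * (∫ a : ℝ, ‖f a‖)) :=
      (ip_summable_exp (div_pos Real.pi_pos ht0)).mul_right _
    refine Summable.of_nonneg_of_le (fun n => integral_nonneg fun a => norm_nonneg _) (fun n => ?_)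
      (hb1.add hb2)
    have h1 : ∫ a : ℝ, ‖cf F 1 n * (f a * (((gb t a (√n) + gh t a (√n) : ℝ)) : ℂ))‖ =
        ‖cf F 1 n‖ * ∫ a : ℝ, ‖f a * (((gb t a (√n) + gh t a (√n) : ℝ)) : ℂ)‖ := by
      rw [← integral_const_mul]
      congr 1
      ext a
      rw [norm_mul]
    have h2 : ∫ a : ℝ, ‖f a * (((gb t a (√n) + gh t a (√n) : ℝ)) : ℂ)‖ ≤
        D * (1 + √(n : ℝ)) ^ (-((2 * K : ℕ) : ℝ)) + (∫ a : ℝ, ‖f a‖) * rexp (-(π / t * n)) := by
      calc ∫ a : ℝ, ‖f a * (((gb t a (√n) + gh t a (√n) : ℝ)) : ℂ)‖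
          ≤ ∫ a : ℝ, (‖f a * (gb t a (√n) : ℂ)‖ + ‖f a * (gh t a (√n) : ℂ)‖) := by
            refine integral_mono (hint _).norm ((cv_int f ht0 _).1.norm.add (cv_int f ht0 _).2.norm)
              (fun a => ?_)
            simp only [hsplit]
            exact norm_add_le _ _
        _ = (∫ a : ℝ, ‖f a * (gb t a (√n) : ℂ)‖) + ∫ a : ℝ, ‖f a * (gh t a (√n) : ℂ)‖ :=
            integral_add (cv_int f ht0 _).1.norm (cv_int f ht0 _).2.norm
        _ ≤ _ := by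
            refine add_le_add ?_ (hgh n)
            have h3 := hdec t (√(n : ℝ)) ht
            rwa [abs_of_nonneg (Real.sqrt_nonneg _)] at h3
    rw [h1]
    have h4 : 0 ≤ D * (1 + √(n : ℝ)) ^ (-((2 * K : ℕ) : ℝ)) + (∫ a : ℝ, ‖f a‖) * rexp (-(π / t * n)) :=
      (integral_nonneg fun a => norm_nonneg _).trans h2
    calc ‖cf F 1 n‖ * ∫ a : ℝ, ‖f a * (((gb t a (√n) + gh t a (√n) : ℝ)) : ℂ)‖
        ≤ (C * ((n : ℝ) + 1) ^ A) *
          (D * (1 + √(n : ℝ)) ^ (-((2 * K : ℕ) : ℝ)) + (∫ a : ℝ, ‖f a‖) * rexp (-(π / t * n))) :=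
          mul_le_mul (hcf n) h2 (integral_nonneg fun a => norm_nonneg _) (by positivity)
      _ = _ := by ring
  have hmain := hasSum_integral_of_summable_integral_norm hI hS
  have hts : ∀ a : ℝ, ∑' n : ℕ, cf F 1 n * (f a * (((gb t a (√n) + gh t a (√n) : ℝ)) : ℂ)) =
      f a * (((gb t a (√x) + gh t a (√x) : ℝ)) : ℂ) := by
    intro a
    have h := (rbump hx hF ht0 a).mul_left (f a)
    rw [← h.tsum_eq]
    refine tsum_congr fun n => ?_
    ring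
  simp only [hts, hval] at hmain
  rw [Real.sq_sqrt hx] at hmain
  have hmain' : (fun n : ℕ => cf F 1 n * (cv f t (√n) + rexp (-(π * n / t)) * f (√n))) =
      fun n : ℕ => ∫ a : ℝ, cf F 1 n * (f a * (((gb t a (√n) + gh t a (√n) : ℝ)) : ℂ)) := by
    funext n
    rw [integral_const_mul, hval, Real.sq_sqrt (Nat.cast_nonneg n)]
  rw [hmain']
  exact hmain

theorem interp {x : ℝ} (hx : 0 ≤ x) {F : ℂ → ℂ} (hF : Gen x F) (f : SchwartzMap ℝ ℂ)
    (hf : ∀ s : ℝ, f (-s) = f s) (hf' : ∀ ξ : ℝ, ∫ s : ℝ, cexp (-(2 * π * I * ξ * s)) * f s = f ξ) :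
    HasSum (fun n : ℕ => cf F 1 n * f (√n)) (f (√x)) := by
  obtain ⟨C, A, hC, hA, hcf⟩ := cf_bound hF
  obtain ⟨K, hK⟩ := exists_nat_ge (A + 2)
  obtain ⟨D, hD, hdec⟩ := cv_decay f (2 * K)
  obtain ⟨E, hE, hfd⟩ : ∃ E : ℝ, 0 ≤ E ∧ ∀ y : ℝ, 0 ≤ y →
      ‖f y‖ ≤ E * (1 + y) ^ (-((2 * K : ℕ) : ℝ)) := by
    refine ⟨2 ^ (2 * K) * ((Finset.Iic (2 * K, 0)).sup fun m => SchwartzMap.seminorm ℝ m.1 m.2) f,
      by positivity, fun y hy => ?_⟩
    have h := SchwartzMap.one_add_le_sup_seminorm_apply (𝕜 := ℝ) (m := (2 * K, 0)) le_rfl le_rfl f y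
    rw [norm_iteratedFDeriv_zero, Real.norm_of_nonneg hy] at h
    have h1 : (0 : ℝ) < 1 + y := by positivity
    rw [Real.rpow_neg h1.le, Real.rpow_natCast, ← div_eq_mul_inv, le_div_iff₀ (by positivity)]
    linarith
  set g : ℝ → ℕ → ℂ := fun t n => cf F 1 n * (cv f t (√n) + rexp (-(π * n / t)) * f (√n)) with hg
  have hlim : ∀ (y c : ℝ), Tendsto (fun t : ℝ => cv f t y + rexp (-(c / t)) * f y) atTop
      (𝓝 (f y + f y)) := by
    intro y c
    have h1 := cv_tendsto f hf y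
    have h2 : Tendsto (fun t : ℝ => ((rexp (-(c / t)) : ℝ) : ℂ)) atTop (𝓝 1) := by
      have h3 : Tendsto (fun t : ℝ => -(c / t)) atTop (𝓝 0) := by
        have := (tendsto_const_nhds (x := c)).div_atTop tendsto_id
        simpa using this.neg
      have h4 := (Real.continuous_exp.tendsto 0).comp h3
      rw [Real.exp_zero] at h4
      have h5 := (Complex.continuous_ofReal.tendsto 1).comp h4
      rw [Complex.ofReal_one] at h5
      exact h5
    simpa using h1.add (h2.mul_const (f y))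
  have hbound : Summable (fun n : ℕ =>
      ((C * ((n : ℝ) + 1) ^ A) * (1 + √(n : ℝ)) ^ (-((2 * K : ℕ) : ℝ))) * (D + E)) :=
    (ip_summable_rpow hC hK).mul_right _
  have hcvb : ∀ t : ℝ, 1 ≤ t → ∀ n : ℕ, ‖g t n‖ ≤
      ((C * ((n : ℝ) + 1) ^ A) * (1 + √(n : ℝ)) ^ (-((2 * K : ℕ) : ℝ))) * (D + E) := by
    intro t ht n
    have ht0 : 0 < t := lt_of_lt_of_le one_pos ht
    rw [hg]
    simp only [norm_mul]
    have h1 : ‖cv f t (√(n : ℝ)) + rexp (-(π * n / t)) * f (√(n : ℝ))‖ ≤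
        D * (1 + √(n : ℝ)) ^ (-((2 * K : ℕ) : ℝ)) + E * (1 + √(n : ℝ)) ^ (-((2 * K : ℕ) : ℝ)) := by
      refine (norm_add_le _ _).trans (add_le_add ?_ ?_)
      · have h3 := hdec t (√n) ht
        rw [abs_of_nonneg (Real.sqrt_nonneg _)] at h3
        exact (norm_integral_le_integral_norm _).trans h3
      · rw [norm_mul, Complex.norm_real, Real.norm_of_nonneg (Real.exp_pos _).le]
        refine le_trans (mul_le_of_le_one_left (norm_nonneg _) ?_) (hfd _ (Real.sqrt_nonneg _))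
        rw [Real.exp_le_one_iff]
        have : 0 ≤ π * n / t := by positivity
        linarith
    calc ‖cf F 1 n‖ * ‖cv f t (√(n : ℝ)) + rexp (-(π * n / t)) * f (√(n : ℝ))‖
        ≤ (C * ((n : ℝ) + 1) ^ A) * (D * (1 + √(n : ℝ)) ^ (-((2 * K : ℕ) : ℝ)) +
          E * (1 + √(n : ℝ)) ^ (-((2 * K : ℕ) : ℝ))) :=
          mul_le_mul (hcf n) h1 (norm_nonneg _) (by positivity)
      _ = _ := by ring
  have hT : Tendsto (fun t => ∑' n, g t n) atTop (𝓝 (∑' n : ℕ, cf F 1 n * (f (√n) + f (√n)))) :=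
    tendsto_tsum_of_dominated_convergence hbound (fun n => (hlim _ _).const_mul _)
      ((eventually_ge_atTop 1).mono fun t ht n => hcvb t ht n)
  have hT2 : Tendsto (fun t => ∑' n, g t n) atTop (𝓝 (f (√x) + f (√x))) := by
    refine (hlim (√x) (π * x)).congr' ?_
    filter_upwards [eventually_ge_atTop 1] with t ht
    exact (conv_id hx hF f hf hf' ht).tsum_eq.symm
  have hEq := tendsto_nhds_unique hT hT2
  have hSum : Summable (fun n : ℕ => cf F 1 n * f (√n)) := by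
    have hb : Summable (fun n : ℕ =>
        ((C * ((n : ℝ) + 1) ^ A) * (1 + √(n : ℝ)) ^ (-((2 * K : ℕ) : ℝ))) * E) :=
      (ip_summable_rpow hC hK).mul_right _
    refine Summable.of_norm_bounded hb (fun n => ?_)
    rw [norm_mul]
    calc ‖cf F 1 n‖ * ‖f (√(n : ℝ))‖
        ≤ (C * ((n : ℝ) + 1) ^ A) * (E * (1 + √(n : ℝ)) ^ (-((2 * K : ℕ) : ℝ))) :=
          mul_le_mul (hcf n) (hfd _ (Real.sqrt_nonneg _)) (norm_nonneg _) (by positivity)
      _ = _ := by ring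
  have hEq2 : ∑' n : ℕ, cf F 1 n * (f (√n) + f (√n)) = 2 * ∑' n : ℕ, cf F 1 n * f (√n) := by
    rw [← tsum_mul_left]
    exact tsum_congr fun n => by ring
  have hEq3 : ∑' n : ℕ, cf F 1 n * f (√n) = f (√x) := by
    rw [hEq2] at hEq
    have h2 : (2 : ℂ) ≠ 0 := two_ne_zero
    have h3 : (2 : ℂ) * ∑' n : ℕ, cf F 1 n * f (√n) = 2 * f (√x) := by rw [hEq]; ring
    exact mul_left_cancel₀ h2 h3
  rw [← hEq3]
  exact hSum.hasSum

theorem delta {x : ℝ} (hx : 0 ≤ x) {F : ℂ → ℂ} (hF : Gen x F) (n : ℕ) (b : SchwartzMap ℝ ℂ)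
    (hb : ∀ s : ℝ, b (-s) = b s) (hb' : ∀ ξ : ℝ, ∫ s : ℝ, cexp (-(2 * π * I * ξ * s)) * b s = b ξ)
    (hd : ∀ m : ℕ, b (√m) = if m = n then 1 else 0) : b (√x) = cf F 1 n := by
  have h := interp hx hF b hb hb'
  have h2 : HasSum (fun m : ℕ => cf F 1 m * b (√m)) (cf F 1 n) := by
    have h3 := hasSum_single (f := fun m : ℕ => cf F 1 m * b (√m)) n (fun m hm => by
      simp [hd m, hm])
    simpa [hd n] using h3
  exact h.unique h2

end Pool.Agent.Helper31.FI
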