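import Pool.Agent.Helper31.FI.Defs

/-!
# FI-KL: Kuzmin-Landau inequality, difference form

`kl`: put `d i = dl f i`, `g i = 1 / (1 - ee (d i)) = (1 + i cot (π d i)) / 2`.  Then
`ee (f i) = (ee (f i) - ee (f (i+1))) * g i`, so for `N ≥ 1`
`∑_{i ≤ N} ee (f i) = ee (f 0) g 0 + ∑_{1 ≤ i < N} ee (f i) (g i - g (i-1)) + ee (f N) (1 - g (N-1))`.
`|g| = |1 - g| = 1 / (2 |sin (π d)|) ≤ 1 / (4 θ)` (as `sin (π s) ≥ 2 s` for `0 ≤ s ≤ 1/2`), and
`∑ |g i - g (i-1)| = |cot (π d 0) - cot (π d (N-1))| / 2 ≤ cot (π θ) ≤ 1 / (π θ)` because `cot` is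
decreasing on `(0, π)` and `d` is monotone.  The integer `k` is harmless (`ee` has period 1).
`kl'` is `kl` for `-f`  (complex conjugation).
-/

set_option autoImplicit false

namespace Pool.Agent.Helper31.FI

open Complex Real Finset

private lemma KL_norm_ee (t : ℝ) : ‖ee t‖ = 1 := by
  rw [ee, show (2 * π * I * t : ℂ) = ((2 * π * t : ℝ) : ℂ) * I by push_cast; ring,
    Complex.norm_exp_ofReal_mul_I]

private lemma KL_ee_add (s t : ℝ) : ee (s + t) = ee s * ee t := by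
  rw [ee, ee, ee, ← Complex.exp_add]
  congr 1
  push_cast
  ring

private lemma KL_ee_int (k : ℤ) : ee (k : ℝ) = 1 := by
  rw [ee, Complex.exp_eq_one_iff]
  exact ⟨k, by push_cast; ring⟩

/-- The cotangent of `π x`. -/
private noncomputable def KL_c (x : ℝ) : ℝ := Real.cos (π * x) / Real.sin (π * x)

private lemma KL_sin_pos {x : ℝ} (h0 : 0 < x) (h1 : x < 1) : 0 < Real.sin (π * x) :=
  Real.sin_pos_of_pos_of_lt_pi (by positivity) (by nlinarith [Real.pi_pos])

private lemma KL_g {x : ℝ} (h0 : 0 < x) (h1 : x < 1) :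
    (1 - ee x) * (1 / 2 + (KL_c x / 2 : ℝ) * I) = 1 := by
  have hs := KL_sin_pos h0 h1
  have h2 : ee x = ((Real.cos (π * x) ^ 2 - Real.sin (π * x) ^ 2 : ℝ) : ℂ) +
      ((2 * Real.sin (π * x) * Real.cos (π * x) : ℝ) : ℂ) * I := by
    rw [ee, show (2 * π * I * x : ℂ) = ((2 * (π * x) : ℝ) : ℂ) * I by push_cast; ring,
      Complex.exp_mul_I, ← Complex.ofReal_cos, ← Complex.ofReal_sin, Real.cos_two_mul',
      Real.sin_two_mul]
  have h3 : Real.cos (π * x) ^ 2 = 1 - Real.sin (π * x) ^ 2 := by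
    have := Real.sin_sq_add_cos_sq (π * x)
    linarith
  have h4 : 1 - ee x = (2 * Real.sin (π * x) : ℝ) *
      ((Real.sin (π * x) : ℝ) - (Real.cos (π * x) : ℝ) * I) := by
    rw [h2, h3]
    push_cast
    ring
  have h5 : ((2 * Real.sin (π * x) : ℝ) : ℂ) * (1 / 2 + (KL_c x / 2 : ℝ) * I) =
      (Real.sin (π * x) : ℝ) + (Real.cos (π * x) : ℝ) * I := by
    have h6 : 2 * Real.sin (π * x) * (KL_c x / 2) = Real.cos (π * x) := by
      rw [KL_c]
      field_simp
    rw [mul_add, ← mul_assoc, ← Complex.ofReal_mul, h6]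
    push_cast
    ring
  have h7 : ((Real.sin (π * x) : ℝ) : ℂ) ^ 2 + ((Real.cos (π * x) : ℝ) : ℂ) ^ 2 = 1 := by
    rw [← Complex.ofReal_pow, ← Complex.ofReal_pow, h3]
    push_cast
    ring
  calc (1 - ee x) * (1 / 2 + (KL_c x / 2 : ℝ) * I)
      = ((Real.sin (π * x) : ℝ) - (Real.cos (π * x) : ℝ) * I) *
          (((2 * Real.sin (π * x) : ℝ) : ℂ) * (1 / 2 + (KL_c x / 2 : ℝ) * I)) := by
        rw [h4]; ring
    _ = ((Real.sin (π * x) : ℝ) : ℂ) ^ 2 - ((Real.cos (π * x) : ℝ) : ℂ) ^ 2 * I ^ 2 := by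
        rw [h5]; ring
    _ = 1 := by rw [Complex.I_sq, mul_neg, mul_one, sub_neg_eq_add, h7]

private lemma KL_c_anti {x y : ℝ} (h0 : 0 < x) (hxy : x ≤ y) (h1 : y < 1) : KL_c y ≤ KL_c x := by
  have hx := KL_sin_pos h0 (lt_of_le_of_lt hxy h1)
  have hy := KL_sin_pos (lt_of_lt_of_le h0 hxy) h1
  have h2 : 0 ≤ Real.sin (π * y - π * x) :=
    Real.sin_nonneg_of_nonneg_of_le_pi (by nlinarith [Real.pi_pos]) (by nlinarith [Real.pi_pos])
  rw [KL_c, KL_c, div_le_div_iff₀ hy hx]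
  rw [Real.sin_sub] at h2
  linarith

private lemma KL_c_le {θ : ℝ} (hθ : 0 < θ) (hθ' : θ ≤ 1 / 2) : KL_c θ ≤ 1 / (π * θ) := by
  have hs := KL_sin_pos hθ (by linarith)
  have hp : 0 < π * θ := by positivity
  rw [KL_c, div_le_div_iff₀ hs hp, one_mul]
  rcases hθ'.lt_or_eq with h | h
  · have h1 := Real.lt_tan hp (by nlinarith [Real.pi_pos])
    have hc : 0 < Real.cos (π * θ) :=
      Real.cos_pos_of_mem_Ioo ⟨by linarith [Real.pi_pos], by nlinarith [Real.pi_pos]⟩
    rw [Real.tan_eq_sin_div_cos, lt_div_iff₀ hc] at h1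
    linarith
  · rw [h, show π * (1 / 2) = π / 2 by ring, Real.cos_pi_div_two, zero_mul, Real.sin_pi_div_two]
    norm_num

private lemma KL_c_one_sub (θ : ℝ) : KL_c (1 - θ) = -KL_c θ := by
  rw [KL_c, KL_c, show π * (1 - θ) = π - π * θ by ring, Real.cos_pi_sub, Real.sin_pi_sub, neg_div]

theorem kl (f : ℕ → ℝ) (N : ℕ) (θ : ℝ) (k : ℤ) (hθ : 0 < θ) (hθ' : θ ≤ 1 / 2)
    (hm : ∀ i, i + 1 < N → dl f i ≤ dl f (i + 1))
    (h1 : ∀ i < N, k + θ ≤ dl f i) (h2 : ∀ i < N, dl f i ≤ k + 1 - θ) :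
    ‖∑ i ∈ range (N + 1), ee (f i)‖ ≤ 1 + 1 / θ := by
  rcases N with _ | M
  · rw [sum_range_one, KL_norm_ee]
    have : 0 < 1 / θ := by positivity
    linarith
  set c : ℕ → ℝ := fun i => KL_c (dl f i - k) with hc
  set g : ℕ → ℂ := fun i => 1 / 2 + (c i / 2 : ℝ) * I with hg
  have hgi : ∀ i < M + 1, ee (f i) = (ee (f i) - ee (f (i + 1))) * g i := by
    intro i hi
    have e1 : ee (f (i + 1)) = ee (f i) * ee (dl f i - k) := by
      rw [← KL_ee_add, show f i + (dl f i - k) = f (i + 1) - k by rw [dl]; ring]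
      have := KL_ee_add (f (i + 1) - k) k
      rw [sub_add_cancel, KL_ee_int, mul_one] at this
      exact this
    have e2 := KL_g (x := dl f i - k) (by linarith [h1 i hi]) (by linarith [h2 i hi])
    calc ee (f i) = ee (f i) * 1 := (mul_one _).symm
      _ = ee (f i) * ((1 - ee (dl f i - k)) * g i) := by rw [e2]
      _ = (ee (f i) - ee (f (i + 1))) * g i := by rw [e1]; ring
  have habel : ∀ m ≤ M, ∑ i ∈ range (m + 1), ee (f i) =
      ee (f 0) * g 0 + ∑ i ∈ range m, ee (f (i + 1)) * (g (i + 1) - g i) -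
        ee (f (m + 1)) * g m := by
    intro m
    induction m with
    | zero =>
      intro _
      rw [sum_range_one, sum_range_zero]
      have := hgi 0 (by omega)
      linear_combination this
    | succ m ih =>
      intro hm'
      rw [sum_range_succ, ih (by omega), sum_range_succ]
      have := hgi (m + 1) (by omega)
      linear_combination this
  have hcb : ∀ i < M + 1, |c i| ≤ 1 / (π * θ) := by
    intro i hi
    have e1 : c i ≤ KL_c θ := KL_c_anti hθ (by linarith [h1 i hi]) (by linarith [h2 i hi])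
    have e2 : KL_c (1 - θ) ≤ c i :=
      KL_c_anti (by linarith [h1 i hi]) (by linarith [h2 i hi]) (by linarith)
    rw [KL_c_one_sub] at e2
    have e3 := KL_c_le hθ hθ'
    rw [abs_le]
    constructor <;> linarith
  have hmono : ∀ i < M, c (i + 1) ≤ c i := by
    intro i hi
    exact KL_c_anti (by linarith [h1 i (by omega)]) (by linarith [hm i (by omega)])
      (by linarith [h2 (i + 1) (by omega)])
  have hgn : ∀ i, ‖g i‖ ≤ 1 / 2 + |c i| / 2 := by
    intro i
    refine (norm_add_le _ _).trans ?_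
    rw [norm_mul, Complex.norm_I, mul_one, Complex.norm_real, Real.norm_eq_abs, abs_div]
    norm_num
  have hgn' : ∀ i, ‖1 - g i‖ ≤ 1 / 2 + |c i| / 2 := by
    intro i
    have : 1 - g i = 1 / 2 + -((c i / 2 : ℝ) * I) := by
      rw [hg]
      ring
    rw [this]
    refine (norm_add_le _ _).trans ?_
    rw [norm_neg, norm_mul, Complex.norm_I, mul_one, Complex.norm_real, Real.norm_eq_abs, abs_div]
    norm_num
  have hgd : ∀ i < M, ‖g (i + 1) - g i‖ = (c i - c (i + 1)) / 2 := by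
    intro i hi
    have : g (i + 1) - g i = ((c (i + 1) - c i) / 2 : ℝ) * I := by
      rw [hg]
      push_cast
      ring
    rw [this, norm_mul, Complex.norm_I, mul_one, Complex.norm_real, Real.norm_eq_abs, abs_div,
      abs_of_nonpos (by linarith [hmono i hi])]
    norm_num
  have htot : ∑ i ∈ range (M + 1 + 1), ee (f i) =
      ee (f 0) * g 0 + ∑ i ∈ range M, ee (f (i + 1)) * (g (i + 1) - g i) +
        ee (f (M + 1)) * (1 - g M) := by
    rw [sum_range_succ, habel M le_rfl]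
    ring
  have hsum : ‖∑ i ∈ range M, ee (f (i + 1)) * (g (i + 1) - g i)‖ ≤ (c 0 - c M) / 2 := by
    refine (norm_sum_le _ _).trans ?_
    have : ∀ m ≤ M, ∑ i ∈ range m, ‖ee (f (i + 1)) * (g (i + 1) - g i)‖ = (c 0 - c m) / 2 := by
      intro m
      induction m with
      | zero => intro _; simp
      | succ m ih =>
        intro hm'
        rw [sum_range_succ, ih (by omega), norm_mul, KL_norm_ee, one_mul, hgd m (by omega)]
        ring
    exact (this M le_rfl).le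
  rw [htot]
  have hb0 := hcb 0 (by omega)
  have hbM := hcb M (by omega)
  have t1 : ‖ee (f 0) * g 0‖ ≤ 1 / 2 + |c 0| / 2 := by
    rw [norm_mul, KL_norm_ee, one_mul]
    exact hgn 0
  have t2 : ‖ee (f (M + 1)) * (1 - g M)‖ ≤ 1 / 2 + |c M| / 2 := by
    rw [norm_mul, KL_norm_ee, one_mul]
    exact hgn' M
  have t3 := norm_add_le (ee (f 0) * g 0 + ∑ i ∈ range M, ee (f (i + 1)) * (g (i + 1) - g i))
    (ee (f (M + 1)) * (1 - g M))
  have t4 := norm_add_le (ee (f 0) * g 0) (∑ i ∈ range M, ee (f (i + 1)) * (g (i + 1) - g i))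
  have t5 := le_abs_self (c 0)
  have t6 := neg_abs_le (c M)
  have t7 : 2 * (1 / (π * θ)) ≤ 1 / θ := by
    rw [← mul_div_assoc, mul_one, div_le_div_iff₀ (by positivity) hθ]
    nlinarith [Real.pi_gt_three]
  linarith

theorem kl' (f : ℕ → ℝ) (N : ℕ) (θ : ℝ) (k : ℤ) (hθ : 0 < θ) (hθ' : θ ≤ 1 / 2)
    (hm : ∀ i, i + 1 < N → dl f (i + 1) ≤ dl f i)
    (h1 : ∀ i < N, k + θ ≤ dl f i) (h2 : ∀ i < N, dl f i ≤ k + 1 - θ) :
    ‖∑ i ∈ range (N + 1), ee (f i)‖ ≤ 1 + 1 / θ := by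
  have hd : ∀ i, dl (fun j => -f j) i = -dl f i := fun i => by rw [dl, dl]; ring
  have h := kl (fun j => -f j) N θ (-k - 1) hθ hθ'
    (fun i hi => by rw [hd, hd]; linarith [hm i hi])
    (fun i hi => by rw [hd]; push_cast; linarith [h2 i hi])
    (fun i hi => by rw [hd]; push_cast; linarith [h1 i hi])
  have he : ∀ t : ℝ, ee (-t) = (starRingEnd ℂ) (ee t) := by
    intro t
    rw [ee, ee, ← Complex.exp_conj]
    congr 1
    rw [map_mul, map_mul, map_mul, Complex.conj_I, Complex.conj_ofReal, Complex.conj_ofReal,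
      Complex.conj_ofNat]
    push_cast
    ring
  have : ∑ i ∈ range (N + 1), ee (-f i) = (starRingEnd ℂ) (∑ i ∈ range (N + 1), ee (f i)) := by
    rw [map_sum]
    exact sum_congr rfl fun i _ => he _
  rwa [this, Complex.norm_conj] at h

end Pool.Agent.Helper31.FI
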