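import Pool.Agent.Helper31.FI.GDefs

/-!
# FI-KE: the kernel

`Kz z s = ∑_k (4 π i z²)^k k!/(2k)! s^(-k-1)` converges for every `s ≠ 0` (`k!/(2k)! ≤ 1/k!`), locally uniformly.
`w_exp`: termwise (uniform convergence on the circle), `(2πi)⁻¹ ∮ h s (s-τ)^(-k-1) ds = h^(k) (τ)/k!`, here
`h s = exp (π i y² s)`, `h^(k) τ = (π i y²)^k h τ`; the sum is `h τ ∑ (4 π i z² π i y²)^k/(2k)! = h τ cos (2 π z y)`.
-/

set_option autoImplicit false

namespace Pool.Agent.Helper31.FI

open Complex Real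

/-- kernel -/
noncomputable def Kz (z s : ℂ) : ℂ :=
  ∑' k : ℕ, (4 * π * I * z ^ 2) ^ k * ((k.factorial : ℂ) / ((2 * k).factorial : ℂ)) * (s ^ (k + 1))⁻¹

private lemma Kern_fac (k : ℕ) :
    ‖((k.factorial : ℂ) / ((2 * k).factorial : ℂ))‖ ≤ 1 / (k.factorial : ℝ) := by
  rw [norm_div, Complex.norm_natCast, Complex.norm_natCast]
  have h1 : k.factorial * k.factorial ≤ (2 * k).factorial := by
    have h2 := Nat.factorial_mul_factorial_dvd_factorial_add k k
    have h3 : k + k = 2 * k := by ring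
    rw [h3] at h2
    exact Nat.le_of_dvd (Nat.factorial_pos _) h2
  have h2 : (0 : ℝ) < k.factorial := by exact_mod_cast Nat.factorial_pos k
  have h3 : (0 : ℝ) < (2 * k).factorial := by exact_mod_cast Nat.factorial_pos (2 * k)
  have h4 : (k.factorial : ℝ) * k.factorial ≤ (2 * k).factorial := by exact_mod_cast h1
  rw [div_le_div_iff₀ h3 h2]
  linarith

private lemma Kern_term (z s : ℂ) {r : ℝ} (hr : 0 < r) (hs : r ≤ ‖s‖) (k : ℕ) :
    ‖(4 * π * I * z ^ 2) ^ k * ((k.factorial : ℂ) / ((2 * k).factorial : ℂ)) * (s ^ (k + 1))⁻¹‖ ≤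
      (‖(4 * π * I * z ^ 2 : ℂ)‖ / r) ^ k / (k.factorial : ℝ) * r⁻¹ := by
  have h1 : ‖(s ^ (k + 1))⁻¹‖ ≤ (r ^ (k + 1))⁻¹ := by
    rw [norm_inv, norm_pow]
    exact inv_anti₀ (by positivity) (pow_le_pow_left₀ hr.le hs _)
  rw [norm_mul, norm_mul, norm_pow]
  have h2 : ‖(4 * π * I * z ^ 2 : ℂ)‖ ^ k * ‖((k.factorial : ℂ) / ((2 * k).factorial : ℂ))‖ ≤
      ‖(4 * π * I * z ^ 2 : ℂ)‖ ^ k * (1 / (k.factorial : ℝ)) :=
    mul_le_mul_of_nonneg_left (Kern_fac k) (by positivity)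
  refine (mul_le_mul h2 h1 (norm_nonneg _) (by positivity)).trans (le_of_eq ?_)
  rw [div_pow]
  field_simp
  ring

private lemma Kern_summ (a r : ℝ) : Summable fun k : ℕ => (a / r) ^ k / (k.factorial : ℝ) * r⁻¹ :=
  (Real.summable_pow_div_factorial (a / r)).mul_right _

private lemma Kern_hasSum (z : ℂ) {s : ℂ} (hs : s ≠ 0) :
    HasSum (fun k : ℕ => (4 * π * I * z ^ 2) ^ k *
      ((k.factorial : ℂ) / ((2 * k).factorial : ℂ)) * (s ^ (k + 1))⁻¹) (Kz z s) := by
  have hs0 : 0 < ‖s‖ := norm_pos_iff.2 hs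
  exact (Summable.of_norm_bounded (Kern_summ _ ‖s‖) fun k => Kern_term z s hs0 le_rfl k).hasSum

theorem Kz_cont (z : ℂ) : ContinuousOn (Kz z) {s : ℂ | s ≠ 0} := by
  intro s hs
  have hs0 : 0 < ‖s‖ := norm_pos_iff.2 hs
  have hopen : IsOpen {w : ℂ | ‖s‖ / 2 < ‖w‖} := isOpen_lt continuous_const continuous_norm
  have h1 : ContinuousOn (Kz z) {w : ℂ | ‖s‖ / 2 < ‖w‖} := by
    unfold Kz
    refine continuousOn_tsum (fun k => ?_) (Kern_summ ‖(4 * π * I * z ^ 2 : ℂ)‖ (‖s‖ / 2))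
      (fun k w hw => Kern_term z w (by positivity) (le_of_lt hw) k)
    refine ContinuousOn.mul continuousOn_const ?_
    refine ContinuousOn.inv₀ (by fun_prop) fun w hw => ?_
    have h2 : ‖s‖ / 2 < ‖w‖ := hw
    have h3 : 0 < ‖w‖ := by linarith [half_pos hs0]
    exact pow_ne_zero _ (norm_pos_iff.1 h3)
  exact (h1.continuousAt (hopen.mem_nhds (by
    show ‖s‖ / 2 < ‖s‖
    linarith))).continuousWithinAt

private lemma Kern_int (b z τ : ℂ) {r : ℝ} (hr : 0 < r) (k : ℕ) :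
    (∮ s in C(τ, r), cexp (b * s) * ((4 * π * I * z ^ 2) ^ k *
      ((k.factorial : ℂ) / ((2 * k).factorial : ℂ)) * ((s - τ) ^ (k + 1))⁻¹)) =
      (2 * π * I) * (cexp (b * τ) * ((4 * π * I * z ^ 2 * b) ^ k / ((2 * k).factorial : ℂ))) := by
  have hd : DifferentiableOn ℂ (fun s : ℂ => cexp (b * s)) (Metric.closedBall τ r) := by
    fun_prop
  have h1 := hd.circleIntegral_one_div_sub_center_pow_smul hr k
  rw [iteratedDeriv_cexp_const_mul] at h1
  have h2 : (fun s : ℂ => cexp (b * s) * ((4 * π * I * z ^ 2) ^ k *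
      ((k.factorial : ℂ) / ((2 * k).factorial : ℂ)) * ((s - τ) ^ (k + 1))⁻¹)) =
      fun s : ℂ => ((4 * π * I * z ^ 2) ^ k * ((k.factorial : ℂ) / ((2 * k).factorial : ℂ))) •
        ((1 / (s - τ) ^ (k + 1)) • cexp (b * s)) := by
    funext s
    simp only [smul_eq_mul, one_div]
    ring
  rw [h2, circleIntegral.integral_smul, h1]
  simp only [smul_eq_mul]
  have h3 : (k.factorial : ℂ) ≠ 0 := by exact_mod_cast (Nat.factorial_pos k).ne'
  rw [mul_pow _ b k]
  field_simp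

theorem w_exp (y z τ : ℂ) (r : ℝ) (hr : 0 < r) :
    (2 * π * I)⁻¹ * ∮ s in C(τ, r), cexp (π * I * y ^ 2 * s) * Kz z (s - τ) =
      cexp (π * I * y ^ 2 * τ) * Complex.cos (2 * π * z * y) := by
  set b : ℂ := π * I * y ^ 2 with hb
  set T : ℕ → ℂ → ℂ := fun k s => cexp (b * s) * ((4 * π * I * z ^ 2) ^ k *
      ((k.factorial : ℂ) / ((2 * k).factorial : ℂ)) * ((s - τ) ^ (k + 1))⁻¹) with hT
  have hsub : ∀ θ : ℝ, ‖circleMap τ r θ - τ‖ = r := by
    intro θ
    have h1 := circleMap_mem_sphere τ hr.le θ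
    rwa [mem_sphere_iff_norm] at h1
  have hne : ∀ θ : ℝ, circleMap τ r θ - τ ≠ 0 := fun θ =>
    norm_pos_iff.1 (by rw [hsub]; exact hr)
  -- a bound for the exponential on the circle
  set M : ℝ := rexp (‖b‖ * (‖τ‖ + r)) with hM
  have hM0 : 0 < M := Real.exp_pos _
  have hexp : ∀ θ : ℝ, ‖cexp (b * circleMap τ r θ)‖ ≤ M := by
    intro θ
    refine (Complex.norm_exp_le_exp_norm _).trans (Real.exp_le_exp.2 ?_)
    rw [norm_mul]
    refine mul_le_mul_of_nonneg_left ?_ (norm_nonneg _)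
    calc ‖circleMap τ r θ‖ = ‖τ + (circleMap τ r θ - τ)‖ := by rw [add_sub_cancel]
      _ ≤ ‖τ‖ + ‖circleMap τ r θ - τ‖ := norm_add_le _ _
      _ = ‖τ‖ + r := by rw [hsub]
  have hderiv : ∀ θ : ℝ, ‖deriv (circleMap τ r) θ‖ = r := by
    intro θ
    rw [deriv_circleMap, norm_mul, Complex.norm_I, mul_one, norm_circleMap_zero, abs_of_pos hr]
  set bd : ℕ → ℝ := fun k => r * (M * ((‖(4 * π * I * z ^ 2 : ℂ)‖ / r) ^ k /
    (k.factorial : ℝ) * r⁻¹)) with hbd
  have hbdsum : Summable bd := ((Kern_summ _ r).mul_left M).mul_left r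
  have hsum : HasSum (fun k => ∮ s in C(τ, r), T k s)
      (∮ s in C(τ, r), cexp (b * s) * Kz z (s - τ)) := by
    unfold circleIntegral
    refine intervalIntegral.hasSum_integral_of_dominated_convergence (fun k _ => bd k) ?_ ?_ ?_ ?_ ?_
    · intro k
      apply Continuous.aestronglyMeasurable
      have h1 : Continuous fun θ : ℝ => deriv (circleMap τ r) θ := by
        have : (fun θ : ℝ => deriv (circleMap τ r) θ) = fun θ => circleMap 0 r θ * I := by
          funext θ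
          rw [deriv_circleMap]
        rw [this]
        fun_prop
      have h2 : Continuous fun θ : ℝ => T k (circleMap τ r θ) := by
        simp only [hT]
        refine Continuous.mul (by fun_prop) (Continuous.mul continuous_const ?_)
        exact Continuous.inv₀ (by fun_prop) fun θ => pow_ne_zero _ (hne θ)
      exact h1.smul h2
    · intro k
      refine Filter.Eventually.of_forall fun θ _ => ?_
      rw [norm_smul, hderiv]
      refine mul_le_mul_of_nonneg_left ?_ hr.le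
      simp only [hT]
      rw [norm_mul]
      exact mul_le_mul (hexp θ) (Kern_term z _ hr (hsub θ).ge k) (norm_nonneg _) hM0.le
    · exact Filter.Eventually.of_forall fun θ _ => hbdsum
    · exact intervalIntegrable_const
    · refine Filter.Eventually.of_forall fun θ _ => ?_
      have h1 := (Kern_hasSum z (hne θ)).mul_left (cexp (b * circleMap τ r θ))
      exact h1.const_smul (deriv (circleMap τ r) θ)
  have h1 : ∀ k, ∮ s in C(τ, r), T k s = (2 * π * I) * (cexp (b * τ) *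
      ((4 * π * I * z ^ 2 * b) ^ k / ((2 * k).factorial : ℂ))) := fun k => Kern_int b z τ hr k
  simp only [h1] at hsum
  have hπI : (2 * π * I : ℂ) ≠ 0 := Complex.two_pi_I_ne_zero
  have h2 := ((Complex.hasSum_cos (2 * π * z * y)).mul_left (cexp (b * τ))).mul_left (2 * π * I : ℂ)
  have h3 : ∀ k : ℕ, (4 * π * I * z ^ 2 * b) ^ k / ((2 * k).factorial : ℂ) =
      (-1) ^ k * (2 * π * z * y) ^ (2 * k) / ((2 * k).factorial : ℂ) := by
    intro k
    congr 1
    rw [pow_mul, ← mul_pow]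
    congr 1
    rw [hb]
    linear_combination (4 * π ^ 2 * z ^ 2 * y ^ 2 : ℂ) * Complex.I_sq
  simp only [h3] at hsum
  have h4 := hsum.unique h2
  rw [h4]
  field_simp

end Pool.Agent.Helper31.FI
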