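import Pool.Agent.Helper31.FI.MaxP
import Pool.Agent.Helper31.FI.ThNe

/-!
# FI-LP: `Re Lam ≥ 0` on `D0c`, and powers of `1 + Lam`

`Lam_re_nonneg`: `maxprin` for `W = exp (-Lam)`, `M = 1`.  On `‖τ‖ = 1`: `-1/τ = sr τ`, so `conj (Lam τ) = - Lam τ` and
`‖W τ‖ = 1`.  Cusp: for `τ ∈ D0`, `|re τ| ≤ 1`, `im τ` small we have `τ ∈ FD` (`im_small`); if `re τ ≥ 0` put `z = 1/(1-τ)`, `cusp_im`
(and its proof: `im z ≥ 1/(v (1+v²))` for `v = im τ < 1`): `0 ≤ re z ≤ 1/2`, so by `Lam_cusp_est`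
`Re Lam τ ≥ exp (π im z) cos (π re z) / 8 - C exp (-π im z) ≥ - C exp (-π im z)`.  If `re τ < 0` use `Lam_conj`.
Infinity: `Lam_inf`.
`Qb β = (1 + Lam)^β`: `Re (1 + Lam) ≥ 1`, so the argument is in `[-π/2, π/2]`, `Re Qb ≥ cos (3π/8) ‖1 + Lam‖^β ≥ (3/10) ‖1 + Lam‖^β`
for `0 ≤ β ≤ 3/4`, and `‖Qb‖ = ‖1 + Lam‖^β`.
`one_add_Lam_low`: `‖1 + Lam‖ ≥ max (1, ‖Lam‖)`; for large `im z` use `Lam_cusp_est`, for bounded `im z` use `1`.
-/

set_option autoImplicit false

namespace Pool.Agent.Helper31.FI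

open Complex Real

private theorem LamPos_sr_unit {τ : ℂ} (h : ‖τ‖ = 1) : -1 / τ = sr τ := by
  have h0 : τ ≠ 0 := by
    intro h1
    rw [h1, norm_zero] at h
    exact zero_ne_one h
  have h1 : τ * (starRingEnd ℂ) τ = 1 := by
    rw [Complex.mul_conj, Complex.normSq_eq_norm_sq, h]
    norm_num
  unfold sr
  rw [div_eq_iff h0]
  linear_combination h1

private theorem LamPos_sr_FD {τ : ℂ} (h : τ ∈ FD) : sr τ ∈ FD := by
  obtain ⟨h1, h2, h3⟩ := h
  refine ⟨?_, ?_, ?_⟩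
  · unfold sr
    rw [neg_im, conj_im, neg_neg]
    exact h1
  · unfold sr
    rw [neg_re, conj_re, abs_neg]
    exact h2
  · unfold sr
    rw [norm_neg, Complex.norm_conj]
    exact h3

/-- the imaginary part at the cusp -/
private theorem LamPos_im {w : ℂ} (hw : w ∈ FD) (h0 : 0 ≤ w.re) (h1 : w.im ≤ 1) :
    1 / (2 * w.im) ≤ (1 / (1 - w)).im := by
  obtain ⟨hv, hu, hn⟩ := hw
  have hu1 : w.re ≤ 1 := (abs_le.1 hu).2
  have hn2 : 1 ≤ w.re ^ 2 + w.im ^ 2 := by
    have h2 : 1 ≤ ‖w‖ ^ 2 := by nlinarith [norm_nonneg w]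
    rw [← Complex.normSq_eq_norm_sq, Complex.normSq_apply] at h2
    nlinarith
  have hns : Complex.normSq (1 - w) = (1 - w.re) ^ 2 + w.im ^ 2 := by
    rw [Complex.normSq_apply]
    simp only [sub_re, one_re, sub_im, one_im]
    ring
  have him : (1 / (1 - w)).im = w.im / ((1 - w.re) ^ 2 + w.im ^ 2) := by
    rw [one_div, Complex.inv_im, hns]
    simp only [sub_im, one_im]
    ring
  have h3 : 1 - w.re ≤ w.im ^ 2 := by nlinarith
  have h4 : (1 - w.re) ^ 2 ≤ w.im ^ 2 := by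
    have h5 : 0 ≤ 1 - w.re := by linarith
    have h6 : w.im ^ 2 ≤ w.im := by nlinarith
    nlinarith
  rw [him, div_le_div_iff₀ (by positivity) (by positivity)]
  nlinarith

private theorem LamPos_exp {C : ℝ} (hC : 0 < C)
    (hE : ∀ z : ℂ, 1 / 2 ≤ z.im →
      ‖Lam (1 - 1 / z) - cexp (-(π * I * z)) / 8‖ ≤ C * rexp (-(π * z.im)))
    {τ : ℂ} (h : τ ∈ FD) (h0 : 0 ≤ τ.re) (h1 : τ.im < 1 / 2) :
    -(2 * C * τ.im) ≤ (Lam τ).re := by
  set z : ℂ := 1 / (1 - τ) with hz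
  have hv : 0 < τ.im := h.1
  have hne : (1 : ℂ) - τ ≠ 0 := by
    intro h2
    have h3 := congrArg Complex.im h2
    simp only [sub_im, one_im, zero_im] at h3
    linarith
  have hτ : 1 - 1 / z = τ := by
    rw [hz, one_div_one_div, sub_sub_cancel]
  have him : 1 / (2 * τ.im) ≤ z.im := LamPos_im h h0 (by linarith)
  have him1 : 1 ≤ z.im := by
    refine le_trans ?_ him
    rw [le_div_iff₀ (by linarith)]
    linarith
  obtain ⟨-, hre0, hre1⟩ := cusp_im h h0 (by linarith)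
  have h2 := hE z (by linarith)
  rw [hτ] at h2
  have h3 : 0 ≤ (cexp (-(π * I * z))).re := by
    rw [Complex.exp_re]
    refine mul_nonneg (Real.exp_pos _).le (Real.cos_nonneg_of_mem_Icc ?_)
    have h4 : (-(π * I * z : ℂ)).im = -(π * z.re) := by
      simp
    rw [h4]
    have hpi := Real.pi_pos
    constructor
    · nlinarith
    · have : 0 ≤ π * z.re := mul_nonneg hpi.le hre0
      linarith
  have h5 : |(Lam τ - cexp (-(π * I * z)) / 8).re| ≤ C * rexp (-(π * z.im)) :=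
    (Complex.abs_re_le_norm _).trans h2
  have h6 := (abs_le.1 h5).1
  have h7 : (Lam τ - cexp (-(π * I * z)) / 8).re = (Lam τ).re - (cexp (-(π * I * z))).re / 8 := by
    rw [sub_re]
    congr 1
    have h8 : ((8 : ℂ)) = ((8 : ℝ) : ℂ) := by norm_num
    rw [h8, Complex.div_ofReal_re]
  rw [h7] at h6
  have h9 : rexp (-(π * z.im)) ≤ 2 * τ.im := by
    have hpi := Real.pi_gt_three
    have h10 : z.im ≤ rexp (π * z.im) := by
      have h11 := Real.add_one_le_exp (π * z.im)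
      nlinarith
    rw [Real.exp_neg]
    have h12 : 1 / (2 * τ.im) ≤ rexp (π * z.im) := him.trans h10
    calc (rexp (π * z.im))⁻¹ ≤ (1 / (2 * τ.im))⁻¹ := by
          apply inv_anti₀ (by positivity) h12
      _ = 2 * τ.im := by rw [one_div, inv_inv]
  have h13 : C * rexp (-(π * z.im)) ≤ C * (2 * τ.im) := mul_le_mul_of_nonneg_left h9 hC.le
  nlinarith

theorem Lam_re_nonneg {τ : ℂ} (h : τ ∈ D0c) : 0 ≤ (Lam τ).re := by
  have hnorm : ∀ τ : ℂ, ‖cexp (-Lam τ)‖ = rexp (-(Lam τ).re) := fun τ => by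
    rw [Complex.norm_exp, neg_re]
  have hdiff : ∀ τ : ℂ, 0 < τ.im → DifferentiableAt ℂ (fun τ => cexp (-Lam τ)) τ := fun τ hτ =>
    (differentiableAt_Lam hτ).neg.cexp
  have key := maxprin (fun τ => cexp (-Lam τ)) 1
    (fun τ hτ => (hdiff τ (D0_sub hτ).1).differentiableWithinAt)
    (fun τ hτ => (hdiff τ hτ.1).continuousAt.continuousWithinAt)
    (fun τ hτ => by
      rw [Lam_add_two hτ.1])
    (fun τ hτ h1 => by
      have h2 := Lam_inv hτ
      rw [LamPos_sr_unit h1, Lam_conj hτ] at h2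
      have h3 := congrArg Complex.re h2
      rw [conj_re, neg_re] at h3
      change ‖cexp (-Lam τ)‖ ≤ 1
      rw [hnorm]
      have h4 : (Lam τ).re = 0 := by linarith
      rw [h4, neg_zero, Real.exp_zero])
    (fun δ hδ => by
      obtain ⟨C, hC, hE⟩ := Lam_cusp_est
      have hlog : 0 < Real.log (1 + δ) := Real.log_pos (by linarith)
      refine ⟨min (1 / 2) (Real.log (1 + δ) / (2 * C)), by positivity, fun τ hτ h1 h2 => ?_⟩
      have hF : τ ∈ FD := im_small (D0_sub hτ) h1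
      have h3 : τ.im < 1 / 2 := lt_of_lt_of_le h2 (min_le_left _ _)
      have h4 : τ.im < Real.log (1 + δ) / (2 * C) := lt_of_lt_of_le h2 (min_le_right _ _)
      have h5 : -(2 * C * τ.im) ≤ (Lam τ).re := by
        rcases le_total 0 τ.re with h6 | h6
        · exact LamPos_exp hC hE hF h6 h3
        · have h7 : (sr τ).im = τ.im := by
            unfold sr
            rw [neg_im, conj_im, neg_neg]
          have h8 : (sr τ).re = -τ.re := by
            unfold sr
            rw [neg_re, conj_re]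
          have h9 := LamPos_exp hC hE (LamPos_sr_FD hF) (by rw [h8]; linarith) (by rw [h7]; exact h3)
          rw [h7, Lam_conj hF.1, conj_re] at h9
          exact h9
      change ‖cexp (-Lam τ)‖ ≤ 1 + δ
      rw [hnorm]
      have h10 : -(Lam τ).re ≤ Real.log (1 + δ) := by
        rw [lt_div_iff₀ (by linarith)] at h4
        linarith
      calc rexp (-(Lam τ).re) ≤ rexp (Real.log (1 + δ)) := Real.exp_le_exp.2 h10
        _ = 1 + δ := Real.exp_log (by linarith))
    (by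
      obtain ⟨C, hC, hE⟩ := Lam_inf
      refine ⟨rexp C, fun τ hτ => ?_⟩
      rw [hnorm]
      refine Real.exp_le_exp.2 ?_
      have h1 := hE τ (by linarith)
      have h2 : |(Lam τ - 1).re| ≤ C * rexp (-(π * τ.im)) := (Complex.abs_re_le_norm _).trans h1
      rw [sub_re, one_re] at h2
      have h3 := (abs_le.1 h2).1
      have h4 : rexp (-(π * τ.im)) ≤ 1 := by
        rw [Real.exp_le_one_iff]
        have := Real.pi_pos
        nlinarith
      nlinarith)
  have h1 : ‖cexp (-Lam τ)‖ ≤ 1 := key τ h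
  rw [hnorm, Real.exp_le_one_iff] at h1
  linarith

/-- powers of `1 + Lam` -/
noncomputable def Qb (β : ℝ) (τ : ℂ) : ℂ := (1 + Lam τ) ^ (β : ℂ)

private theorem LamPos_one_le {τ : ℂ} (h : τ ∈ D0c) : 1 ≤ (1 + Lam τ).re := by
  rw [add_re, one_re]
  linarith [Lam_re_nonneg h]

theorem Qb_diff (β : ℝ) {τ : ℂ} (h : τ ∈ D0c) : DifferentiableAt ℂ (Qb β) τ := by
  have h1 := LamPos_one_le h
  have h2 : (1 + Lam τ) ∈ slitPlane := Or.inl (by linarith)
  exact ((differentiableAt_const (1 : ℂ)).add (differentiableAt_Lam h.1)).cpow_const h2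

theorem norm_Qb (β : ℝ) {τ : ℂ} (h : τ ∈ D0c) : ‖Qb β τ‖ = ‖1 + Lam τ‖ ^ β :=
  Complex.norm_cpow_real _ _

private theorem LamPos_cos : 3 / 10 ≤ Real.cos (3 * π / 8) := by
  have h1 : Real.cos (3 * π / 8) = Real.sin (π / 8) := by
    rw [← Real.cos_pi_div_two_sub]
    congr 1
    ring
  rw [h1, Real.sin_pi_div_eight]
  have h2 : √2 ≤ 41 / 25 := by
    rw [Real.sqrt_le_left (by norm_num)]
    norm_num
  have h3 : 3 / 5 ≤ √(2 - √2) := by
    apply Real.le_sqrt_of_sq_le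
    linarith
  linarith

theorem re_Qb {β : ℝ} (h0 : 0 ≤ β) (h1 : β ≤ 3 / 4) {τ : ℂ} (h : τ ∈ D0c) :
    3 / 10 * ‖1 + Lam τ‖ ^ β ≤ (Qb β τ).re := by
  have h2 := LamPos_one_le h
  have hne : (1 + Lam τ) ≠ 0 := by
    intro h3
    rw [h3, zero_re] at h2
    linarith
  have hpos : 0 < ‖1 + Lam τ‖ := norm_pos_iff.2 hne
  have harg : |Complex.arg (1 + Lam τ)| ≤ π / 2 := Complex.abs_arg_le_pi_div_two_iff.2 (by linarith)
  have h3 : (Qb β τ).re = ‖1 + Lam τ‖ ^ β * Real.cos (Complex.arg (1 + Lam τ) * β) := by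
    unfold Qb
    rw [Complex.cpow_def_of_ne_zero hne, Complex.exp_re, Complex.re_mul_ofReal,
      Complex.im_mul_ofReal, Complex.log_re, Complex.log_im, Real.rpow_def_of_pos hpos]
  rw [h3]
  have h4 : |Complex.arg (1 + Lam τ) * β| ≤ 3 * π / 8 := by
    rw [abs_mul, abs_of_nonneg h0]
    have hpi := Real.pi_pos
    nlinarith [abs_nonneg (Complex.arg (1 + Lam τ))]
  have h5 : Real.cos (3 * π / 8) ≤ Real.cos (Complex.arg (1 + Lam τ) * β) := by
    rw [← Real.cos_abs (Complex.arg (1 + Lam τ) * β)]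
    have hpi := Real.pi_pos
    exact Real.cos_le_cos_of_nonneg_of_le_pi (abs_nonneg _) (by linarith) h4
  have h6 : 0 ≤ ‖1 + Lam τ‖ ^ β := Real.rpow_nonneg hpos.le _
  have h7 := LamPos_cos
  nlinarith

theorem one_add_Lam_low : ∃ c : ℝ, 0 < c ∧ ∀ z : ℂ, 17 / 100 ≤ z.im → |z.re| ≤ 1 / 2 →
    c * rexp (π * z.im) ≤ ‖1 + Lam (1 - 1 / z)‖ := by
  obtain ⟨C, hC, hE⟩ := Lam_cusp_est
  have hK : 0 < 16 * C + rexp (π / 2) := by positivity
  refine ⟨min (1 / 16) (1 / (16 * C + rexp (π / 2))), by positivity, fun z hz hz' => ?_⟩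
  have hD : 1 - 1 / z ∈ D0c := cusp_mem hz hz'
  have h1 : 1 ≤ ‖1 + Lam (1 - 1 / z)‖ := (LamPos_one_le hD).trans (Complex.re_le_norm _)
  set E : ℝ := rexp (π * z.im) with hEdef
  have hpi := Real.pi_pos
  have hE1 : 1 ≤ E := Real.one_le_exp (by positivity)
  by_cases hc : E ≤ 16 * C + rexp (π / 2)
  · have h2 : min (1 / 16) (1 / (16 * C + rexp (π / 2))) * E ≤
        1 / (16 * C + rexp (π / 2)) * (16 * C + rexp (π / 2)) :=
      mul_le_mul (min_le_right _ _) hc (by linarith) (by positivity)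
    have h3 : 1 / (16 * C + rexp (π / 2)) * (16 * C + rexp (π / 2)) = 1 := by
      field_simp
    linarith
  · have hc' : 16 * C + rexp (π / 2) < E := not_le.1 hc
    have hz2 : 1 / 2 ≤ z.im := by
      by_contra hlt
      have h2 : π * z.im ≤ π / 2 := by nlinarith
      have h3 : E ≤ rexp (π / 2) := Real.exp_le_exp.2 h2
      linarith
    have h2 := hE z hz2
    have h3 : rexp (-(π * z.im)) = E⁻¹ := by rw [Real.exp_neg]
    have h4 : ‖cexp (-(π * I * z)) / 8‖ = E / 8 := by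
      rw [norm_div, Complex.norm_exp]
      have h5 : (-(π * I * z : ℂ)).re = π * z.im := by
        simp
      rw [h5, hEdef]
      norm_num
    have h5 : E / 8 ≤ ‖Lam (1 - 1 / z)‖ + C * E⁻¹ := by
      rw [h3] at h2
      have h6 := norm_sub_norm_le (cexp (-(π * I * z)) / 8) (Lam (1 - 1 / z))
      rw [norm_sub_rev] at h6
      rw [h4] at h6
      linarith
    have h6 : C * E⁻¹ ≤ E / 16 := by
      rw [← div_eq_mul_inv, div_le_div_iff₀ (by linarith) (by norm_num)]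
      have h7 : 16 * C < E := by linarith [Real.exp_pos (π / 2)]
      nlinarith
    have h7 : ‖Lam (1 - 1 / z)‖ ≤ ‖1 + Lam (1 - 1 / z)‖ := by
      have h8 := Lam_re_nonneg hD
      have h9 : ‖Lam (1 - 1 / z)‖ ^ 2 ≤ ‖1 + Lam (1 - 1 / z)‖ ^ 2 := by
        rw [← Complex.normSq_eq_norm_sq, ← Complex.normSq_eq_norm_sq, Complex.normSq_apply,
          Complex.normSq_apply]
        simp only [add_re, one_re, add_im, one_im]
        nlinarith
      exact (pow_le_pow_iff_left₀ (norm_nonneg _) (norm_nonneg _) two_ne_zero).1 h9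
    have h8 : min (1 / 16) (1 / (16 * C + rexp (π / 2))) * E ≤ 1 / 16 * E :=
      mul_le_mul_of_nonneg_right (min_le_left _ _) (by linarith)
    linarith

end Pool.Agent.Helper31.FI
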