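import Pool.Agent.Helper31.FI.Defs

/-!
# FI-MQ: mean square of the main sum

`S ≤ 1`: `m ≤ 20`, `‖mains‖ ≤ ν₀^(-1/2) + ∑_{1 ≤ i < 20} i^(-1/2) ≤ ν₀^(-1/2) + 9`.
`S > 1`: `m ≤ 20 S`.  Expand the square.  Diagonal: `S ∑ 1/(ν₀ + i) ≤ S (1/ν₀ + 1 + log m)`.  Off diagonal, `ν = ν₀ + i`, `ν' = ν₀ + i'`,
`θ = 1/ν - 1/ν' = (i' - i)/(ν ν')`: `|∫_S^{2S} exp (-π i θ s²) ds| ≤ 2/(π |θ| S)` (integrate by parts:
`exp (-π i θ s²) = (exp (-π i θ s²))'/(-2 π i θ s)`).  So the sum is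
`≤ (2/(π S)) ∑_{i ≠ i'} (ν ν')^(1/2)/|i - i'| ≤ (C/S) (m+1) m (1 + log m) ≤ C S log (2 + S)`.
-/

set_option autoImplicit false

namespace Pool.Agent.Helper31.FI

open Complex Real Finset MeasureTheory

private theorem MSq_norm_exp (θ s : ℝ) : ‖cexp (-(π * I * θ * s ^ 2))‖ = 1 := by
  rw [Complex.norm_exp]
  have : (-(π * I * θ * s ^ 2) : ℂ) = ((-(π * θ * s ^ 2) : ℝ) : ℂ) * I := by
    push_cast
    ring
  rw [this, Complex.re_ofReal_mul, Complex.I_re, mul_zero, Real.exp_zero]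

theorem osc (θ S : ℝ) (hθ : θ ≠ 0) (hS : 0 < S) :
    ‖∫ s in S..(2 * S), cexp (-(π * I * θ * s ^ 2))‖ ≤ 2 / (π * |θ| * S) := by
  have hπ : (0 : ℝ) < π := Real.pi_pos
  have hθ0 : 0 < |θ| := abs_pos.2 hθ
  have hθc : (θ : ℂ) ≠ 0 := by exact_mod_cast hθ
  have hπc : (π : ℂ) ≠ 0 := by exact_mod_cast hπ.ne'
  set k : ℂ := 2 * π * I * θ with hk
  have hk0 : k ≠ 0 := by
    rw [hk]
    exact mul_ne_zero (mul_ne_zero (mul_ne_zero two_ne_zero hπc) I_ne_zero) hθc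
  have hkn : ‖k‖ = 2 * π * |θ| := by
    rw [hk]
    simp [abs_of_pos hπ]
  have hle : S ≤ 2 * S := by linarith
  -- the primitive
  have hder : ∀ s ∈ Set.uIcc S (2 * S), HasDerivAt
      (fun s : ℝ => -(cexp (-(π * I * θ * s ^ 2)) / (k * s)))
      (cexp (-(π * I * θ * s ^ 2)) + cexp (-(π * I * θ * s ^ 2)) / (k * s ^ 2)) s := by
    intro s hs
    rw [Set.uIcc_of_le hle] at hs
    have hs0 : 0 < s := lt_of_lt_of_le hS hs.1
    have hsc : (s : ℂ) ≠ 0 := by exact_mod_cast hs0.ne'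
    have h1 : HasDerivAt (fun s : ℝ => (s : ℂ)) 1 s := Complex.ofRealCLM.hasDerivAt
    have h2 : HasDerivAt (fun s : ℝ => (-(π * I * θ * (s : ℂ) ^ 2) : ℂ))
        (-(π * I * θ * (2 * (s : ℂ)))) s := by
      have := ((h1.pow 2).const_mul (π * I * θ : ℂ)).neg
      refine this.congr_deriv ?_
      simp
    have h3 := h2.cexp
    have h4 : HasDerivAt (fun s : ℝ => k * (s : ℂ)) (k * 1) s := h1.const_mul k
    have h5 := (h3.div h4 (mul_ne_zero hk0 hsc)).neg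
    refine h5.congr_deriv ?_
    field_simp
    rw [hk]
    ring
  have hcont1 : Continuous fun s : ℝ => cexp (-(π * I * θ * s ^ 2)) := by fun_prop
  have hint1 : IntervalIntegrable (fun s : ℝ => cexp (-(π * I * θ * s ^ 2))) volume S (2 * S) :=
    hcont1.intervalIntegrable _ _
  have hint2 : IntervalIntegrable (fun s : ℝ => cexp (-(π * I * θ * s ^ 2)) / (k * s ^ 2))
      volume S (2 * S) := by
    refine ContinuousOn.intervalIntegrable ?_
    refine hcont1.continuousOn.div (by fun_prop) fun s hs => ?_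
    rw [Set.uIcc_of_le hle] at hs
    have hs0 : 0 < s := lt_of_lt_of_le hS hs.1
    have hsc : (s : ℂ) ≠ 0 := by exact_mod_cast hs0.ne'
    exact mul_ne_zero hk0 (pow_ne_zero 2 hsc)
  have hftc := intervalIntegral.integral_eq_sub_of_hasDerivAt hder (hint1.add hint2)
  rw [intervalIntegral.integral_add hint1 hint2] at hftc
  have hrem : ‖∫ s in S..(2 * S), cexp (-(π * I * θ * s ^ 2)) / (k * s ^ 2)‖ ≤
      1 / (2 * π * |θ| * S ^ 2) * |2 * S - S| := by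
    refine intervalIntegral.norm_integral_le_of_norm_le_const fun s hs => ?_
    rw [Set.uIoc_of_le hle] at hs
    rw [norm_div, MSq_norm_exp, norm_mul, hkn, norm_pow, Complex.norm_real, Real.norm_eq_abs,
      sq_abs]
    refine one_div_le_one_div_of_le (by positivity) ?_
    refine mul_le_mul_of_nonneg_left ?_ (by positivity)
    exact pow_le_pow_left₀ hS.le hs.1.le 2
  have hb1 : ‖cexp (-(π * I * θ * ((2 * S : ℝ) : ℂ) ^ 2)) / (k * ((2 * S : ℝ) : ℂ))‖ =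
      1 / (2 * π * |θ| * (2 * S)) := by
    rw [norm_div, MSq_norm_exp, norm_mul, hkn, Complex.norm_real, Real.norm_eq_abs,
      abs_of_pos (show (0 : ℝ) < 2 * S by linarith)]
  have hb2 : ‖cexp (-(π * I * θ * (S : ℂ) ^ 2)) / (k * (S : ℂ))‖ = 1 / (2 * π * |θ| * S) := by
    rw [norm_div, MSq_norm_exp, norm_mul, hkn, Complex.norm_real, Real.norm_eq_abs,
      abs_of_pos hS]
  have hmain : ∫ s in S..(2 * S), cexp (-(π * I * θ * s ^ 2)) =
      cexp (-(π * I * θ * (S : ℂ) ^ 2)) / (k * (S : ℂ)) -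
      cexp (-(π * I * θ * ((2 * S : ℝ) : ℂ) ^ 2)) / (k * ((2 * S : ℝ) : ℂ)) -
      ∫ s in S..(2 * S), cexp (-(π * I * θ * s ^ 2)) / (k * s ^ 2) := by
    linear_combination hftc
  rw [hmain]
  refine (norm_sub_le _ _).trans ((add_le_add (norm_sub_le _ _) hrem).trans ?_)
  rw [hb1, hb2]
  have h6 : |2 * S - S| = S := by
    rw [show 2 * S - S = S by ring, abs_of_pos hS]
  rw [h6]
  have h7 : 1 / (2 * π * |θ| * S) + 1 / (2 * π * |θ| * (2 * S)) + 1 / (2 * π * |θ| * S ^ 2) * S =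
      (5 / 4) / (π * |θ| * S) := by
    field_simp
    ring
  rw [h7]
  exact div_le_div_of_nonneg_right (by norm_num) (by positivity)

/-- harmonic numbers -/
private noncomputable def MSq_H (m : ℕ) : ℝ := ∑ k ∈ range m, ((k : ℝ) + 1)⁻¹

private theorem MSq_H_le (m : ℕ) : MSq_H m ≤ 1 + Real.log m := by
  have h := harmonic_le_one_add_log m
  have h2 : ((harmonic m : ℚ) : ℝ) = MSq_H m := by
    unfold harmonic MSq_H
    push_cast
    rfl
  rwa [h2] at h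

private theorem MSq_H_mono {m n : ℕ} (h : m ≤ n) : MSq_H m ≤ MSq_H n := by
  unfold MSq_H
  exact Finset.sum_le_sum_of_subset_of_nonneg (Finset.range_subset_range.2 h)
    fun k _ _ => by positivity

private theorem MSq_H_nonneg (m : ℕ) : 0 ≤ MSq_H m := by
  unfold MSq_H
  positivity

private theorem MSq_inv (n : ℕ) : ∑ k ∈ range n, ((k : ℝ))⁻¹ ≤ MSq_H n := by
  rcases n with _ | n
  · simp [MSq_H]
  · rw [Finset.sum_range_succ']
    simp only [Nat.cast_zero, inv_zero, add_zero]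
    refine le_trans (le_of_eq ?_) (MSq_H_mono (Nat.le_succ n))
    unfold MSq_H
    refine Finset.sum_congr rfl fun k _ => ?_
    push_cast
    rfl

private theorem MSq_dist {m i : ℕ} (hi : i < m) :
    ∑ j ∈ range m, |(i : ℝ) - j|⁻¹ ≤ 2 * MSq_H m := by
  rw [Finset.range_eq_Ico, ← Finset.sum_Ico_consecutive _ (Nat.zero_le i) hi.le,
    ← Finset.range_eq_Ico]
  have h1 : ∑ j ∈ range i, |(i : ℝ) - j|⁻¹ = MSq_H i := by
    unfold MSq_H
    rw [← Finset.sum_range_reflect (fun k : ℕ => ((k : ℝ) + 1)⁻¹) i]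
    refine Finset.sum_congr rfl fun j hj => ?_
    have hj' := Finset.mem_range.1 hj
    congr 1
    have h2 : ((i - 1 - j : ℕ) : ℝ) = (i : ℝ) - 1 - j := by
      rw [Nat.cast_sub (by omega), Nat.cast_sub (by omega), Nat.cast_one]
    rw [h2, abs_of_pos]
    · ring
    · have : (j : ℝ) < i := by exact_mod_cast hj'
      linarith
  have h2 : ∑ j ∈ Finset.Ico i m, |(i : ℝ) - j|⁻¹ ≤ MSq_H (m - i) := by
    rw [Finset.sum_Ico_eq_sum_range]
    refine le_trans (le_of_eq ?_) (MSq_inv (m - i))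
    refine Finset.sum_congr rfl fun k _ => ?_
    congr 1
    push_cast
    rw [show (i : ℝ) - (i + k) = -k by ring, abs_neg, abs_of_nonneg (Nat.cast_nonneg k)]
  rw [h1]
  have h3 := MSq_H_mono hi.le
  have h4 := MSq_H_mono (Nat.sub_le m i)
  linarith

private theorem MSq_diag {ν₀ : ℝ} (hν : 0 < ν₀) (m : ℕ) :
    ∑ i ∈ range m, (ν₀ + i)⁻¹ ≤ 1 / ν₀ + MSq_H m := by
  rcases m with _ | n
  · simp only [Finset.range_zero, Finset.sum_empty]
    have := MSq_H_nonneg 0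
    positivity
  · rw [Finset.sum_range_succ']
    simp only [Nat.cast_zero, add_zero]
    have h1 : ∑ k ∈ range n, (ν₀ + ((k + 1 : ℕ) : ℝ))⁻¹ ≤ MSq_H n := by
      unfold MSq_H
      refine Finset.sum_le_sum fun k _ => ?_
      refine inv_anti₀ (by positivity) ?_
      push_cast
      linarith
    have h2 := MSq_H_mono (Nat.le_succ n)
    rw [one_div]
    have h3 : MSq_H n ≤ MSq_H (n + 1) := h2
    linarith

private theorem MSq_ze : ‖ze‖ = 1 := by
  unfold ze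
  rw [Complex.norm_exp]
  have : (3 * π * I / 4 : ℂ) = ((3 * π / 4 : ℝ) : ℂ) * I := by
    push_cast
    ring
  rw [this, Complex.re_ofReal_mul, Complex.I_re, mul_zero, Real.exp_zero]

/-- one term of the main sum -/
private noncomputable def MSq_a (ν₀ : ℝ) (i : ℕ) (s : ℝ) : ℂ :=
  ze ^ i * ((ν₀ + i : ℝ) ^ (-(1 / 2) : ℝ) : ℝ) * cexp (-(π * I * ((s ^ 2 : ℝ) : ℂ) / (ν₀ + i)))

private theorem MSq_mains (ν₀ : ℝ) (m : ℕ) (s : ℝ) :
    mains (s ^ 2) ν₀ m = ∑ i ∈ range m, MSq_a ν₀ i s := by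
  rfl

private theorem MSq_a_cont (ν₀ : ℝ) (i : ℕ) : Continuous (MSq_a ν₀ i) := by
  unfold MSq_a
  fun_prop

private theorem MSq_exp_form (ν₀ : ℝ) (i : ℕ) (s : ℝ) :
    cexp (-(π * I * ((s ^ 2 : ℝ) : ℂ) / (ν₀ + i))) =
      cexp (((-(π * s ^ 2 / (ν₀ + i)) : ℝ) : ℂ) * I) := by
  congr 1
  push_cast
  ring

private theorem MSq_a_norm {ν₀ : ℝ} (hν : 0 < ν₀) (i : ℕ) (s : ℝ) :
    ‖MSq_a ν₀ i s‖ = (√(ν₀ + i))⁻¹ := by
  unfold MSq_a
  rw [MSq_exp_form, norm_mul, norm_mul, norm_pow, MSq_ze, one_pow, one_mul, Complex.norm_real,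
    Complex.norm_exp_ofReal_mul_I, mul_one, Real.rpow_neg (by positivity), ← Real.sqrt_eq_rpow,
    Real.norm_of_nonneg (by positivity)]

/-- the product of two terms -/
private theorem MSq_prod {ν₀ : ℝ} (hν : 0 < ν₀) (i j : ℕ) :
    ∃ c : ℂ, ‖c‖ = (√(ν₀ + i))⁻¹ * (√(ν₀ + j))⁻¹ ∧ ∀ s : ℝ,
      MSq_a ν₀ i s * (starRingEnd ℂ) (MSq_a ν₀ j s) =
        c * cexp (-(π * I * (((ν₀ + i)⁻¹ - (ν₀ + j)⁻¹ : ℝ) : ℂ) * s ^ 2)) := by
  refine ⟨ze ^ i * ((ν₀ + i : ℝ) ^ (-(1 / 2) : ℝ) : ℝ) *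
    (starRingEnd ℂ) (ze ^ j * ((ν₀ + j : ℝ) ^ (-(1 / 2) : ℝ) : ℝ)), ?_, fun s => ?_⟩
  · rw [norm_mul, RCLike.norm_conj, norm_mul, norm_mul, norm_pow, norm_pow, MSq_ze, one_pow, one_pow,
      one_mul, one_mul, Complex.norm_real, Complex.norm_real, Real.rpow_neg (by positivity),
      Real.rpow_neg (by positivity), ← Real.sqrt_eq_rpow, ← Real.sqrt_eq_rpow,
      Real.norm_of_nonneg (by positivity), Real.norm_of_nonneg (by positivity)]
  · unfold MSq_a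
    rw [MSq_exp_form, MSq_exp_form, map_mul (starRingEnd ℂ) (ze ^ j * _), ← Complex.exp_conj,
      map_mul (starRingEnd ℂ) (((-(π * s ^ 2 / (ν₀ + j)) : ℝ) : ℂ)) I, Complex.conj_ofReal, conj_I]
    have h1 : cexp (-(π * I * (((ν₀ + i)⁻¹ - (ν₀ + j)⁻¹ : ℝ) : ℂ) * s ^ 2)) =
        cexp (((-(π * s ^ 2 / (ν₀ + i)) : ℝ) : ℂ) * I) *
        cexp (((-(π * s ^ 2 / (ν₀ + j)) : ℝ) : ℂ) * -I) := by
      rw [← Complex.exp_add]
      congr 1
      push_cast
      ring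
    rw [h1]
    ring

/-- expansion of the square -/
private theorem MSq_expand {ν₀ : ℝ} (S : ℝ) (m : ℕ) (hS : 0 < S) :
    ∫ s in S..(2 * S), ‖mains (s ^ 2) ν₀ m‖ ^ 2 ≤
      ∑ i ∈ range m, ∑ j ∈ range m,
        ‖∫ s in S..(2 * S), MSq_a ν₀ i s * (starRingEnd ℂ) (MSq_a ν₀ j s)‖ := by
  have h1 : ((∫ s in S..(2 * S), ‖mains (s ^ 2) ν₀ m‖ ^ 2 : ℝ) : ℂ) =
      ∑ i ∈ range m, ∑ j ∈ range m,
        ∫ s in S..(2 * S), MSq_a ν₀ i s * (starRingEnd ℂ) (MSq_a ν₀ j s) := by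
    have hc : ∀ i j : ℕ, Continuous fun s : ℝ =>
        MSq_a ν₀ i s * (starRingEnd ℂ) (MSq_a ν₀ j s) := fun i j =>
      (MSq_a_cont ν₀ i).mul (Complex.continuous_conj.comp (MSq_a_cont ν₀ j))
    rw [← intervalIntegral.integral_ofReal]
    have h2 : ∀ s : ℝ, ((‖mains (s ^ 2) ν₀ m‖ ^ 2 : ℝ) : ℂ) =
        ∑ i ∈ range m, ∑ j ∈ range m, MSq_a ν₀ i s * (starRingEnd ℂ) (MSq_a ν₀ j s) := by
      intro s
      rw [MSq_mains, ← Complex.normSq_eq_norm_sq, Complex.normSq_eq_conj_mul_self, map_sum,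
        mul_comm, Finset.sum_mul_sum]
    simp only [h2]
    rw [intervalIntegral.integral_finsetSum]
    · refine Finset.sum_congr rfl fun i _ => ?_
      rw [intervalIntegral.integral_finsetSum]
      exact fun j _ => (hc i j).intervalIntegrable _ _
    · intro i _
      exact (continuous_finsetSum _ fun j _ => hc i j).intervalIntegrable _ _
  have h3 : 0 ≤ ∫ s in S..(2 * S), ‖mains (s ^ 2) ν₀ m‖ ^ 2 :=
    intervalIntegral.integral_nonneg (by linarith) fun s _ => by positivity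
  calc ∫ s in S..(2 * S), ‖mains (s ^ 2) ν₀ m‖ ^ 2
      = ‖((∫ s in S..(2 * S), ‖mains (s ^ 2) ν₀ m‖ ^ 2 : ℝ) : ℂ)‖ := by
        rw [Complex.norm_real, Real.norm_of_nonneg h3]
    _ ≤ _ := by
        rw [h1]
        refine (norm_sum_le _ _).trans (Finset.sum_le_sum fun i _ => norm_sum_le _ _)

/-- bound of one term of the expansion -/
private theorem MSq_term {ν₀ S : ℝ} {m i j : ℕ} (hν : 0 < ν₀) (hν1 : ν₀ ≤ 1) (hS : 0 < S)
    (hi : i < m) (hj : j < m) :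
    ‖∫ s in S..(2 * S), MSq_a ν₀ i s * (starRingEnd ℂ) (MSq_a ν₀ j s)‖ ≤
      (if i = j then S * (ν₀ + i)⁻¹ else 0) + 2 * m / (π * S) * |(i : ℝ) - j|⁻¹ := by
  obtain ⟨c, hc, hcs⟩ := MSq_prod hν i j
  simp only [hcs]
  rw [intervalIntegral.integral_const_mul, norm_mul, hc]
  have hπ := Real.pi_pos
  have hni : 0 < ν₀ + i := by positivity
  have hnj : 0 < ν₀ + j := by positivity
  have hm : (0 : ℝ) < m := by exact_mod_cast (by omega : 0 < m)
  by_cases hij : i = j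
  · subst hij
    rw [if_pos rfl, sub_self, sub_self, abs_zero, inv_zero, mul_zero, add_zero]
    have h1 : ‖∫ s in S..(2 * S), cexp (-(π * I * ((0 : ℝ) : ℂ) * s ^ 2))‖ ≤ S := by
      have h2 := intervalIntegral.norm_integral_le_of_norm_le_const (a := S) (b := 2 * S)
        (f := fun s : ℝ => cexp (-(π * I * ((0 : ℝ) : ℂ) * s ^ 2))) (C := 1)
        (fun s _ => (MSq_norm_exp 0 s).le)
      rwa [show 2 * S - S = S by ring, abs_of_pos hS, one_mul] at h2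
    have h3 : (√(ν₀ + i))⁻¹ * (√(ν₀ + i))⁻¹ = (ν₀ + i)⁻¹ := by
      rw [← mul_inv, Real.mul_self_sqrt hni.le]
    rw [h3, mul_comm]
    exact mul_le_mul_of_nonneg_right h1 (by positivity)
  · rw [if_neg hij, zero_add]
    have hd : (i : ℝ) - j ≠ 0 := by
      intro h
      apply hij
      have : (i : ℝ) = j := by linarith
      exact_mod_cast this
    have hθeq : (ν₀ + i)⁻¹ - (ν₀ + j)⁻¹ = -((i : ℝ) - j) / ((ν₀ + i) * (ν₀ + j)) := by
      field_simp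
      ring
    have hθ : (ν₀ + i)⁻¹ - (ν₀ + j)⁻¹ ≠ 0 := by
      rw [hθeq]
      exact div_ne_zero (neg_ne_zero.2 hd) (mul_pos hni hnj).ne'
    have h1 := osc _ S hθ hS
    have habs : |(ν₀ + i)⁻¹ - (ν₀ + j)⁻¹| = |(i : ℝ) - j| / ((ν₀ + i) * (ν₀ + j)) := by
      rw [hθeq, abs_div, abs_neg, abs_of_pos (mul_pos hni hnj)]
    rw [habs] at h1
    have hda : 0 < |(i : ℝ) - j| := abs_pos.2 hd
    have hsi : √(ν₀ + i) ≤ √m := by
      refine Real.sqrt_le_sqrt ?_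
      have : (i : ℝ) + 1 ≤ m := by exact_mod_cast hi
      linarith
    have hsj : √(ν₀ + j) ≤ √m := by
      refine Real.sqrt_le_sqrt ?_
      have : (j : ℝ) + 1 ≤ m := by exact_mod_cast hj
      linarith
    have hi0 : 0 < √(ν₀ + i) := Real.sqrt_pos.2 hni
    have hj0 : 0 < √(ν₀ + j) := Real.sqrt_pos.2 hnj
    have hprod : √(ν₀ + i) * √(ν₀ + j) ≤ m := by
      calc √(ν₀ + i) * √(ν₀ + j) ≤ √m * √m := mul_le_mul hsi hsj hj0.le (Real.sqrt_nonneg _)
        _ = m := Real.mul_self_sqrt hm.le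
    calc (√(ν₀ + i))⁻¹ * (√(ν₀ + j))⁻¹ *
          ‖∫ s in S..(2 * S), cexp (-(π * I * (((ν₀ + i)⁻¹ - (ν₀ + j)⁻¹ : ℝ) : ℂ) * s ^ 2))‖
        ≤ (√(ν₀ + i))⁻¹ * (√(ν₀ + j))⁻¹ *
          (2 / (π * (|(i : ℝ) - j| / ((ν₀ + i) * (ν₀ + j))) * S)) :=
          mul_le_mul_of_nonneg_left h1 (by positivity)
      _ = 2 / (π * S) * (√(ν₀ + i) * √(ν₀ + j)) * |(i : ℝ) - j|⁻¹ := by
          have e1 : ν₀ + i = √(ν₀ + i) * √(ν₀ + i) := (Real.mul_self_sqrt hni.le).symm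
          have e2 : ν₀ + j = √(ν₀ + j) * √(ν₀ + j) := (Real.mul_self_sqrt hnj.le).symm
          generalize √(ν₀ + i) = p at *
          generalize √(ν₀ + j) = q at *
          rw [e1, e2]
          field_simp
      _ ≤ 2 / (π * S) * m * |(i : ℝ) - j|⁻¹ :=
          mul_le_mul_of_nonneg_right (mul_le_mul_of_nonneg_left hprod (by positivity))
            (by positivity)
      _ = 2 * m / (π * S) * |(i : ℝ) - j|⁻¹ := by ring

private theorem MSq_small {ν₀ S : ℝ} {m : ℕ} (hν : 0 < ν₀) (hν1 : ν₀ ≤ 1) (hS : 0 < S)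
    (hm : m ≤ 20) : ∫ s in S..(2 * S), ‖mains (s ^ 2) ν₀ m‖ ^ 2 ≤ 400 * (S * (1 / ν₀)) := by
  have hb : ∀ s : ℝ, ‖mains (s ^ 2) ν₀ m‖ ≤ 20 * (√ν₀)⁻¹ := by
    intro s
    have h0 : 0 < √ν₀ := Real.sqrt_pos.2 hν
    rw [MSq_mains]
    calc ‖∑ i ∈ range m, MSq_a ν₀ i s‖ ≤ ∑ i ∈ range m, ‖MSq_a ν₀ i s‖ := norm_sum_le _ _
      _ ≤ ∑ _i ∈ range m, (√ν₀)⁻¹ := by
          refine Finset.sum_le_sum fun i _ => ?_
          rw [MSq_a_norm hν]
          exact inv_anti₀ h0 (Real.sqrt_le_sqrt (by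
            have := Nat.cast_nonneg (α := ℝ) i
            linarith))
      _ = m * (√ν₀)⁻¹ := by rw [Finset.sum_const, Finset.card_range, nsmul_eq_mul]
      _ ≤ 20 * (√ν₀)⁻¹ := by
          refine mul_le_mul_of_nonneg_right ?_ (by positivity)
          exact_mod_cast hm
  have hb2 : ∀ s ∈ Set.uIoc S (2 * S), ‖‖mains (s ^ 2) ν₀ m‖ ^ 2‖ ≤ 400 * (1 / ν₀) := by
    intro s _
    rw [Real.norm_of_nonneg (by positivity)]
    calc ‖mains (s ^ 2) ν₀ m‖ ^ 2 ≤ (20 * (√ν₀)⁻¹) ^ 2 :=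
          pow_le_pow_left₀ (norm_nonneg _) (hb s) 2
      _ = 400 * (1 / ν₀) := by
          rw [mul_pow, inv_pow, Real.sq_sqrt hν.le]
          norm_num
  have h1 := intervalIntegral.norm_integral_le_of_norm_le_const hb2
  rw [show 2 * S - S = S by ring, abs_of_pos hS] at h1
  calc ∫ s in S..(2 * S), ‖mains (s ^ 2) ν₀ m‖ ^ 2
      ≤ ‖∫ s in S..(2 * S), ‖mains (s ^ 2) ν₀ m‖ ^ 2‖ := Real.le_norm_self _
    _ ≤ 400 * (1 / ν₀) * S := h1
    _ = 400 * (S * (1 / ν₀)) := by ring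

theorem ms_dyadic : ∃ C : ℝ, 0 < C ∧ ∀ (S ν₀ : ℝ) (m : ℕ), 0 < S → 0 < ν₀ → ν₀ ≤ 1 → (m : ℝ) ≤ 10 * (S + 1) →
    ∫ s in S..(2 * S), ‖mains (s ^ 2) ν₀ m‖ ^ 2 ≤ C * (S * (1 / ν₀ + Real.log (2 + S))) := by
  refine ⟨8005, by norm_num, fun S ν₀ m hS hν hν1 hm => ?_⟩
  have hlog0 : 0 < Real.log (2 + S) := Real.log_pos (by linarith)
  rcases le_total S 1 with hS1 | hS1
  · have hm20 : m ≤ 20 := by
      have : (m : ℝ) ≤ 20 := by linarith
      exact_mod_cast this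
    refine (MSq_small hν hν1 hS hm20).trans ?_
    have h1 : 0 ≤ S * (1 / ν₀) := by positivity
    have h2 : 0 ≤ S * Real.log (2 + S) := by positivity
    nlinarith
  · have hπ := Real.pi_gt_three
    have hm1 : (m : ℝ) ≤ 20 * S := by linarith
    have hlog1 : 1 ≤ Real.log (2 + S) := by
      rw [Real.le_log_iff_exp_le (by linarith)]
      have := Real.exp_one_lt_d9
      linarith
    have hH : MSq_H m ≤ 5 * Real.log (2 + S) := by
      refine (MSq_H_le m).trans ?_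
      rcases Nat.eq_zero_or_pos m with h0 | h0
      · subst h0
        simp only [Nat.cast_zero, Real.log_zero, add_zero]
        linarith
      · have h1 : Real.log m ≤ Real.log ((2 + S) ^ 4) := by
          refine Real.log_le_log (by exact_mod_cast h0) (hm1.trans ?_)
          have h2 : (27 : ℝ) ≤ (2 + S) ^ 3 := by
            calc (27 : ℝ) = 3 ^ 3 := by norm_num
              _ ≤ (2 + S) ^ 3 := pow_le_pow_left₀ (by norm_num) (by linarith) 3
          calc 20 * S ≤ 27 * (2 + S) := by linarith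
            _ ≤ (2 + S) ^ 3 * (2 + S) := mul_le_mul_of_nonneg_right h2 (by linarith)
            _ = (2 + S) ^ 4 := by ring
        rw [Real.log_pow] at h1
        push_cast at h1
        linarith
    have hH0 := MSq_H_nonneg m
    refine (MSq_expand S m hS).trans ?_
    have h1 : ∑ i ∈ range m, ∑ j ∈ range m,
        ‖∫ s in S..(2 * S), MSq_a ν₀ i s * (starRingEnd ℂ) (MSq_a ν₀ j s)‖ ≤
        ∑ i ∈ range m, (S * (ν₀ + i)⁻¹ + 2 * m / (π * S) * (2 * MSq_H m)) := by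
      refine Finset.sum_le_sum fun i hi => ?_
      have hi' := Finset.mem_range.1 hi
      calc ∑ j ∈ range m, ‖∫ s in S..(2 * S), MSq_a ν₀ i s * (starRingEnd ℂ) (MSq_a ν₀ j s)‖
          ≤ ∑ j ∈ range m, ((if i = j then S * (ν₀ + i)⁻¹ else 0) +
            2 * m / (π * S) * |(i : ℝ) - j|⁻¹) :=
            Finset.sum_le_sum fun j hj => MSq_term hν hν1 hS hi' (Finset.mem_range.1 hj)
        _ = S * (ν₀ + i)⁻¹ + 2 * m / (π * S) * ∑ j ∈ range m, |(i : ℝ) - j|⁻¹ := by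
            rw [Finset.sum_add_distrib, Finset.sum_ite_eq, if_pos hi, Finset.mul_sum]
        _ ≤ S * (ν₀ + i)⁻¹ + 2 * m / (π * S) * (2 * MSq_H m) := by
            refine add_le_add le_rfl (mul_le_mul_of_nonneg_left (MSq_dist hi') (by positivity))
    refine h1.trans ?_
    rw [Finset.sum_add_distrib, ← Finset.mul_sum, Finset.sum_const, Finset.card_range,
      nsmul_eq_mul]
    have h2 := MSq_diag hν m
    have h3 : (m : ℝ) * (2 * m / (π * S) * (2 * MSq_H m)) ≤ 1600 * S * MSq_H m := by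
      have h4 : (m : ℝ) * (2 * m / (π * S) * (2 * MSq_H m)) = 4 * (m : ℝ) ^ 2 / (π * S) * MSq_H m := by
        ring
      rw [h4]
      refine mul_le_mul_of_nonneg_right ?_ hH0
      rw [div_le_iff₀ (by positivity)]
      have h5 : (m : ℝ) ^ 2 ≤ (20 * S) ^ 2 := pow_le_pow_left₀ (Nat.cast_nonneg m) hm1 2
      nlinarith [mul_pos hS hS]
    calc S * ∑ i ∈ range m, (ν₀ + i)⁻¹ + (m : ℝ) * (2 * m / (π * S) * (2 * MSq_H m))
        ≤ S * (1 / ν₀ + MSq_H m) + 1600 * S * MSq_H m :=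
          add_le_add (mul_le_mul_of_nonneg_left h2 hS.le) h3
      _ = S * (1 / ν₀) + 1601 * (S * MSq_H m) := by ring
      _ ≤ S * (1 / ν₀) + 1601 * (S * (5 * Real.log (2 + S))) := by
          have := mul_le_mul_of_nonneg_left hH hS.le
          linarith
      _ ≤ 8005 * (S * (1 / ν₀ + Real.log (2 + S))) := by
          have h6 : 0 ≤ S * (1 / ν₀) := by positivity
          nlinarith

end Pool.Agent.Helper31.FI
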