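import Pool.Agent.Helper31.FI.Dom

/-!
# FI-MP: maximum principle on `D0` for functions with periodic modulus

Note `M ≥ 0` (`τ = i` in `hb`).  Fix `η, δ > 0` and put `U τ = W τ exp (i η τ)`, `‖U τ‖ = ‖W τ‖ exp (-η im τ) ≤ ‖W τ‖`.
Let `v` be from `hcu δ` and `Y ≥ 1` with `B exp (-η Y) ≤ M + δ`.  If `‖U τ₀‖ > M + δ` for some `τ₀ ∈ D0` then, shifting by an
even integer, `|re τ₀| ≤ 1` and `v ≤ im τ₀ ≤ Y`.  The compact set `{τ ∈ D0c, |re τ| ≤ 1, v ≤ im τ ≤ Y}` (`D0c_closed`) has a point `a`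
where `‖U‖` is maximal, `‖U a‖ > M + δ`; `a ∈ D0` by `D0c_bdry`, periodicity and `hb`; by periodicity `a` is a maximum of
`‖U‖` over all of `D0`.  `Complex.norm_eqOn_of_isPreconnected_of_isMaxOn` : `‖U‖` is constant on `D0`, but it is
`≤ M + δ` for `im τ > Y`: contradiction.  Now let `η → 0`, `δ → 0`.  On `D0c \ D0` use `D0c_bdry`, `hp`, `hb`.
-/

set_option autoImplicit false

namespace Pool.Agent.Helper31.FI

open Complex Real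

private lemma MaxP_per {W : ℂ → ℂ} (hp : ∀ τ ∈ D0c, ‖W (τ + 2)‖ = ‖W τ‖) (k : ℤ) :
    ∀ τ ∈ D0c, ‖W (τ + 2 * k)‖ = ‖W τ‖ := by
  induction k using Int.induction_on with
  | zero => intro τ _; simp
  | succ n ih =>
    intro τ hτ
    have h1 := hp _ (D0c_shift hτ (n : ℤ))
    have e : τ + 2 * (((n : ℤ) + 1 : ℤ) : ℂ) = τ + 2 * ((n : ℤ) : ℂ) + 2 := by push_cast; ring
    rw [e, h1, ih τ hτ]
  | pred n ih =>
    intro τ hτ
    have h1 := hp _ (D0c_shift hτ (-(n : ℤ) - 1))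
    have e : τ + 2 * ((-(n : ℤ) - 1 : ℤ) : ℂ) + 2 = τ + 2 * ((-(n : ℤ) : ℤ) : ℂ) := by push_cast; ring
    rw [← h1, e, ih τ hτ]

private lemma MaxP_strip (τ : ℂ) : ∃ k : ℤ, |(τ + 2 * (k : ℂ)).re| ≤ 1 ∧ (τ + 2 * (k : ℂ)).im = τ.im := by
  refine ⟨-round (τ.re / 2), ?_, ?_⟩
  · have h := abs_sub_round (τ.re / 2)
    have e : (τ + 2 * ((-round (τ.re / 2) : ℤ) : ℂ)).re = 2 * (τ.re / 2 - (round (τ.re / 2) : ℝ)) := by
      simp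
      ring
    rw [e, abs_mul, abs_of_pos (by norm_num : (0 : ℝ) < 2)]
    linarith
  · simp

private lemma MaxP_bd {W : ℂ → ℂ} {M : ℝ} (hp : ∀ τ ∈ D0c, ‖W (τ + 2)‖ = ‖W τ‖)
    (hb : ∀ τ : ℂ, 0 < τ.im → ‖τ‖ = 1 → ‖W τ‖ ≤ M) {τ : ℂ} (h : τ ∈ D0c) (h' : τ ∉ D0) :
    ‖W τ‖ ≤ M := by
  obtain ⟨k, hk⟩ := D0c_bdry h h'
  have e : τ + 2 * ((-k : ℤ) : ℂ) = τ - 2 * k := by push_cast; ring
  rw [← MaxP_per hp (-k) τ h, e]
  refine hb _ ?_ hk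
  simpa using h.1

private lemma MaxP_norm (W : ℂ → ℂ) (η : ℝ) (τ : ℂ) :
    ‖W τ * cexp (I * η * τ)‖ = ‖W τ‖ * Real.exp (-(η * τ.im)) := by
  rw [norm_mul, Complex.norm_exp]
  congr 2
  simp

private lemma MaxP_key {W : ℂ → ℂ} {M : ℝ} (hd : DifferentiableOn ℂ W D0) (hc : ContinuousOn W D0c)
    (hp : ∀ τ ∈ D0c, ‖W (τ + 2)‖ = ‖W τ‖) (hb : ∀ τ : ℂ, 0 < τ.im → ‖τ‖ = 1 → ‖W τ‖ ≤ M)
    (hcu : ∀ δ : ℝ, 0 < δ → ∃ v : ℝ, 0 < v ∧ ∀ τ ∈ D0, |τ.re| ≤ 1 → τ.im < v → ‖W τ‖ ≤ M + δ)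
    (hi : ∃ B : ℝ, ∀ τ : ℂ, 1 < τ.im → ‖W τ‖ ≤ B) {η δ : ℝ} (hη : 0 < η) (hδ : 0 < δ)
    {τ₀ : ℂ} (h0 : τ₀ ∈ D0) : ‖W τ₀‖ * Real.exp (-(η * τ₀.im)) ≤ M + δ := by
  by_contra hcon
  push Not at hcon
  have hM : 0 ≤ M := (norm_nonneg _).trans (hb I (by simp) (by simp))
  obtain ⟨v, hv, hvb⟩ := hcu δ hδ
  obtain ⟨B, hB⟩ := hi
  obtain ⟨Y, hY1, hY⟩ : ∃ Y : ℝ, 1 ≤ Y ∧ ∀ y : ℝ, Y < y → B * Real.exp (-(η * y)) ≤ M + δ := by
    have ht : Filter.Tendsto (fun y : ℝ => B * Real.exp (-(η * y))) Filter.atTop (nhds (B * 0)) := by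
      refine Filter.Tendsto.const_mul _ ?_
      refine Real.tendsto_exp_neg_atTop_nhds_zero.comp ?_
      exact Filter.tendsto_id.const_mul_atTop hη
    rw [mul_zero] at ht
    have hev := ht.eventually (Iic_mem_nhds (by linarith : (0 : ℝ) < M + δ))
    obtain ⟨Y, hY⟩ := (hev.and (Filter.eventually_ge_atTop 1)).exists_forall_of_atTop
    exact ⟨max Y 1, le_max_right _ _, fun y hy => (hY y ((le_max_left _ _).trans hy.le)).1⟩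
  set U : ℂ → ℂ := fun τ => W τ * cexp (I * η * τ) with hU
  have hUn : ∀ τ, ‖U τ‖ = ‖W τ‖ * Real.exp (-(η * τ.im)) := fun τ => MaxP_norm W η τ
  have hUle : ∀ τ : ℂ, 0 < τ.im → ‖U τ‖ ≤ ‖W τ‖ := by
    intro τ hτ
    rw [hUn]
    have : Real.exp (-(η * τ.im)) ≤ 1 := Real.exp_le_one_iff.mpr (by nlinarith)
    have h2 := norm_nonneg (W τ)
    nlinarith
  have hUsh : ∀ (k : ℤ), ∀ τ ∈ D0c, ‖U (τ + 2 * k)‖ = ‖U τ‖ := by
    intro k τ hτ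
    rw [hUn, hUn, MaxP_per hp k τ hτ]
    simp
  -- large im
  have hlarge : ∀ τ : ℂ, Y < τ.im → ‖U τ‖ ≤ M + δ := by
    intro τ hτ
    rw [hUn]
    refine le_trans ?_ (hY _ hτ)
    exact mul_le_mul_of_nonneg_right (hB τ (by linarith)) (Real.exp_pos _).le
  have hsmall : ∀ τ ∈ D0, |τ.re| ≤ 1 → τ.im < v → ‖U τ‖ ≤ M + δ := fun τ hτ h1 h2 =>
    (hUle τ hτ.1).trans (hvb τ hτ h1 h2)
  set K : Set ℂ := {τ : ℂ | (τ ∈ D0c ∧ v ≤ τ.im) ∧ (|τ.re| ≤ 1 ∧ τ.im ≤ Y)} with hK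
  have hKc : IsCompact K := by
    refine Metric.isCompact_of_isClosed_isBounded ?_ ?_
    · refine (D0c_closed v hv).inter (IsClosed.inter ?_ ?_)
      · exact isClosed_le (continuous_abs.comp Complex.continuous_re) continuous_const
      · exact isClosed_le Complex.continuous_im continuous_const
    · refine (Metric.isBounded_iff_subset_closedBall 0).mpr ⟨1 + Y, fun τ hτ => ?_⟩
      rw [mem_closedBall_zero_iff]
      refine (Complex.norm_le_abs_re_add_abs_im τ).trans ?_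
      have h1 := hτ.2.1
      have h2 := hτ.2.2
      have h3 := hτ.1.2
      rw [abs_of_pos (by linarith : 0 < τ.im)]
      linarith
  have hred : ∀ τ ∈ D0, M + δ < ‖U τ‖ → ∃ τ' ∈ K, ‖U τ'‖ = ‖U τ‖ := by
    intro τ hτ hgt
    obtain ⟨k, hk1, hk2⟩ := MaxP_strip τ
    have hτ' := D0_shift hτ k
    have he := hUsh k τ (D0_sub hτ)
    refine ⟨τ + 2 * k, ⟨⟨D0_sub hτ', ?_⟩, hk1, ?_⟩, he⟩
    · by_contra hlt
      push Not at hlt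
      have := hsmall _ hτ' hk1 hlt
      rw [he] at this
      linarith
    · by_contra hlt
      push Not at hlt
      have := hlarge _ hlt
      rw [he] at this
      linarith
  have hU0 : M + δ < ‖U τ₀‖ := by rw [hUn]; exact hcon
  obtain ⟨τ₁, hτ₁, he₁⟩ := hred τ₀ h0 hU0
  have hUc : ContinuousOn (fun τ => ‖U τ‖) K := by
    refine ContinuousOn.norm ?_
    refine (hc.mono fun τ hτ => hτ.1.1).mul ?_
    fun_prop
  obtain ⟨a, haK, hamax⟩ := hKc.exists_isMaxOn ⟨τ₁, hτ₁⟩ hUc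
  have ha1 : ‖U τ₀‖ ≤ ‖U a‖ := by
    rw [← he₁]
    exact hamax hτ₁
  have haD : a ∈ D0 := by
    by_contra hn
    have h1 := MaxP_bd hp hb haK.1.1 hn
    have h2 := hUle a haK.1.1.1
    linarith
  have hmax : IsMaxOn (norm ∘ U) D0 a := by
    intro τ hτ
    change ‖U τ‖ ≤ ‖U a‖
    by_cases hgt : M + δ < ‖U τ‖
    · obtain ⟨τ', hτ'K, he⟩ := hred τ hτ hgt
      rw [← he]
      exact hamax hτ'K
    · push Not at hgt
      linarith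
  have hUd : DifferentiableOn ℂ U D0 := by
    refine hd.mul ?_
    fun_prop
  have hconst := Complex.norm_eqOn_of_isPreconnected_of_isMaxOn D0_preconnected D0_open hUd haD hmax
  have hb0 : (I * ((Y + 1 : ℝ) : ℂ)).im = Y + 1 := by simp
  have hbD : I * ((Y + 1 : ℝ) : ℂ) ∈ D0 := D0_up (by rw [hb0]; linarith)
  have h1 := hconst hbD
  have h2 : ‖U (I * ((Y + 1 : ℝ) : ℂ))‖ = ‖U a‖ := h1
  have h3 := hlarge (I * ((Y + 1 : ℝ) : ℂ)) (by rw [hb0]; linarith)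
  linarith

theorem maxprin (W : ℂ → ℂ) (M : ℝ) (hd : DifferentiableOn ℂ W D0) (hc : ContinuousOn W D0c)
    (hp : ∀ τ ∈ D0c, ‖W (τ + 2)‖ = ‖W τ‖) (hb : ∀ τ : ℂ, 0 < τ.im → ‖τ‖ = 1 → ‖W τ‖ ≤ M)
    (hcu : ∀ δ : ℝ, 0 < δ → ∃ v : ℝ, 0 < v ∧ ∀ τ ∈ D0, |τ.re| ≤ 1 → τ.im < v → ‖W τ‖ ≤ M + δ)
    (hi : ∃ B : ℝ, ∀ τ : ℂ, 1 < τ.im → ‖W τ‖ ≤ B) :
    ∀ τ ∈ D0c, ‖W τ‖ ≤ M := by
  intro τ hτ
  by_cases h : τ ∈ D0
  · refine le_of_forall_pos_le_add fun δ hδ => ?_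
    have ht : Filter.Tendsto (fun η : ℝ => ‖W τ‖ * Real.exp (-(η * τ.im))) (nhdsWithin 0 (Set.Ioi 0))
        (nhds (‖W τ‖ * Real.exp (-(0 * τ.im)))) := by
      refine Filter.Tendsto.mono_left ?_ nhdsWithin_le_nhds
      have hcont : Continuous (fun η : ℝ => ‖W τ‖ * Real.exp (-(η * τ.im))) := by fun_prop
      exact hcont.tendsto 0
    rw [zero_mul, neg_zero, Real.exp_zero, mul_one] at ht
    refine le_of_tendsto ht ?_
    filter_upwards [self_mem_nhdsWithin] with η hη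
    exact MaxP_key hd hc hp hb hcu hi hη hδ h
  · exact MaxP_bd hp hb hτ h

end Pool.Agent.Helper31.FI
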