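import Pool.Agent.Helper31.FI.GDefs

/-!
# FI-VB: the index set of the path formula

With `A = j re τ + m`, `B = c re τ + d` the last condition is `A B + j c (im τ)² < 0`, and `c A - j B = c m - j d = 1`.
* `inV_pos`: `A B < 0` and `c A - j B = 1` give `A > 0 > B`; `(c A) (j |B|) ≤ 1/4` (sum is `1`), so
  `(j c im τ)² < j c A |B| ≤ 1/4`.
* no integer `k` with `- m/j < k < - d/c`: otherwise `j k + m ≥ 1`, `- (c k + d) ≥ 1` and
  `1 = c (j k + m) - j (c k + d) ≥ c + j ≥ 2`.  This gives `inV_bd`: `-m/j < re τ ≤ 1` so `m > -j`; `m ≤ j` (else `k = -1`);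
  `-d/c > re τ ≥ -1` so `d < c`; `-d ≤ c` (else `k = 1`) and `-d = c` forces `c = 1`, `d = -1`, `m = 1 - j` even.
* `VS_finite`: `j, c < 1/im τ`, `A ∈ (0, 1)` allows one `m` for each `j`, `d` is determined.
* `VS_FD`: for `|re w| ≤ 1`, `‖w‖ ≥ 1`: `A B + j c (im w)² ≥ j c + (j d + c m) re w + m d`, linear in `re w`, equal to `(j+m)(c+d) ≥ 0` and
  `(j-m)(c-d) ≥ 0` at `± 1`.
* `gm j m c d τ = ((c - j) τ + (d - m))/(c τ + d)`, determinant `1`.
-/

set_option autoImplicit false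

namespace Pool.Agent.Helper31.FI

open Complex Real

/-- index condition -/
def InV (τ : ℂ) (j m c d : ℤ) : Prop :=
  1 ≤ j ∧ Odd j ∧ Odd m ∧ 1 ≤ c ∧ c * m - j * d = 1 ∧
    ((j : ℝ) * τ.re + m) * ((c : ℝ) * τ.re + d) + (j : ℝ) * c * τ.im ^ 2 < 0

/-- index set -/
def VS (τ : ℂ) : Set (ℤ × ℤ × ℤ × ℤ) := {v | InV τ v.1 v.2.1 v.2.2.1 v.2.2.2}

/-- the point belonging to an index -/
noncomputable def gm (j m c d : ℤ) (τ : ℂ) : ℂ := 1 - (j * τ + m) / (c * τ + d)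

/-- the sum over the index set -/
noncomputable def PP (x : ℝ) (τ : ℂ) : ℂ :=
  ∑ᶠ v ∈ VS τ, (-1 : ℂ) ^ v.2.2.1 * ep x (gm v.1 v.2.1 v.2.2.1 v.2.2.2 τ)

private theorem VBas_id {τ : ℂ} {j m c d : ℤ} (h : c * m - j * d = 1) :
    (c : ℝ) * ((j : ℝ) * τ.re + m) - j * ((c : ℝ) * τ.re + d) = 1 := by
  have h' : (c : ℝ) * m - j * d = 1 := by exact_mod_cast h
  linear_combination h'

theorem inV_pos {τ : ℂ} (hτ : 0 < τ.im) {j m c d : ℤ} (h : InV τ j m c d) :
    0 < (j : ℝ) * τ.re + m ∧ (c : ℝ) * τ.re + d < 0 ∧ (j : ℝ) * c * τ.im < 1 / 2 := by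
  obtain ⟨hj, -, -, hc, hdet, hlt⟩ := h
  have hj' : (1 : ℝ) ≤ j := by exact_mod_cast hj
  have hc' : (1 : ℝ) ≤ c := by exact_mod_cast hc
  have hid := VBas_id (τ := τ) hdet
  set A : ℝ := (j : ℝ) * τ.re + m with hA
  set B : ℝ := (c : ℝ) * τ.re + d with hB
  have hpos : 0 < (j : ℝ) * c * τ.im ^ 2 := by positivity
  have hAB : A * B < 0 := by linarith
  have hA0 : 0 < A := by
    by_contra hcon
    push Not at hcon
    rcases mul_neg_iff.1 hAB with h1 | h1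
    · linarith [h1.1]
    · nlinarith [h1.1, h1.2]
  have hB0 : B < 0 := by
    by_contra hcon
    push Not at hcon
    nlinarith
  refine ⟨hA0, hB0, ?_⟩
  have h1 : ((j : ℝ) * c * τ.im) ^ 2 < 1 / 4 := by
    have h2 : (j : ℝ) * c * (A * B + (j : ℝ) * c * τ.im ^ 2) < 0 :=
      mul_neg_of_pos_of_neg (by positivity) hlt
    have h3 : (c * A) * (-(j * B)) ≤ 1 / 4 := by
      nlinarith [sq_nonneg ((c : ℝ) * A + j * B)]
    nlinarith
  have h2 : 0 ≤ (j : ℝ) * c * τ.im := by positivity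
  nlinarith

theorem inV_no_int {τ : ℂ} (hτ : 0 < τ.im) {j m c d : ℤ} (h : InV τ j m c d) (k : ℤ)
    (h1 : 0 < j * k + m) : 0 ≤ c * k + d := by
  obtain ⟨hj, -, -, hc, hdet, -⟩ := h
  by_contra hcon
  push Not at hcon
  have h2 : 1 ≤ j * k + m := by omega
  have h3 : 1 ≤ -(c * k + d) := by omega
  have h4 : c * (j * k + m) + j * (-(c * k + d)) = 1 := by linear_combination hdet
  nlinarith

theorem inV_bd {τ : ℂ} (hτ : 0 < τ.im) (hre : |τ.re| ≤ 1) {j m c d : ℤ} (h : InV τ j m c d) :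
    -j < m ∧ m ≤ j ∧ -c < d ∧ d < c := by
  obtain ⟨hA, hB, -⟩ := inV_pos hτ h
  have hni := inV_no_int hτ h
  obtain ⟨hj, hoj, hom, hc, hdet, -⟩ := h
  have hj' : (1 : ℝ) ≤ j := by exact_mod_cast hj
  have hc' : (1 : ℝ) ≤ c := by exact_mod_cast hc
  rw [abs_le] at hre
  have h1 : -j < m := by
    have : -(j : ℝ) < m := by nlinarith [hre.2]
    exact_mod_cast this
  have h2 : d < c := by
    have : (d : ℝ) < c := by nlinarith [hre.1]
    exact_mod_cast this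
  have h3 : m ≤ j := by
    by_contra hcon
    push Not at hcon
    have := hni (-1) (by linarith)
    linarith
  have h4 : -c ≤ d := by
    have := hni 1 (by linarith)
    linarith
  refine ⟨h1, h3, lt_of_le_of_ne h4 ?_, h2⟩
  intro h5
  subst h5
  have h6 : c * (m + j) = 1 := by linear_combination hdet
  have h7 : Even (m + j) := hom.add_odd hoj
  obtain ⟨r, hr⟩ := h7
  rw [hr] at h6
  have h8 : c * (r + r) = 2 * (c * r) := by ring
  omega

theorem VS_finite {τ : ℂ} (hτ : 0 < τ.im) : (VS τ).Finite := by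
  obtain ⟨N, hN⟩ := exists_nat_gt ((1 / (2 * τ.im)) * (|τ.re| + 1) + 1)
  have hfin : (Set.Icc (-(N : ℤ)) N ×ˢ (Set.Icc (-(N : ℤ)) N ×ˢ
      (Set.Icc (-(N : ℤ)) N ×ˢ Set.Icc (-(N : ℤ)) N))).Finite :=
    (Set.finite_Icc _ _).prod ((Set.finite_Icc _ _).prod
      ((Set.finite_Icc _ _).prod (Set.finite_Icc _ _)))
  refine hfin.subset ?_
  rintro ⟨j, m, c, d⟩ hv
  have h : InV τ j m c d := hv
  obtain ⟨hA, hB, hy⟩ := inV_pos hτ h
  obtain ⟨hj, -, -, hc, hdet, -⟩ := h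
  have hj' : (1 : ℝ) ≤ j := by exact_mod_cast hj
  have hc' : (1 : ℝ) ≤ c := by exact_mod_cast hc
  have hid := VBas_id (τ := τ) hdet
  set A : ℝ := (j : ℝ) * τ.re + m with hAd
  set B : ℝ := (c : ℝ) * τ.re + d with hBd
  have hA1 : A ≤ 1 := by nlinarith
  have hB1 : -1 ≤ B := by nlinarith
  set K : ℝ := 1 / (2 * τ.im) with hK
  have hK0 : 0 < K := by positivity
  have hKy : K * τ.im = 1 / 2 := by
    rw [hK]
    field_simp
  have hjK : (j : ℝ) ≤ K := by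
    have h1 : (j : ℝ) * τ.im ≤ K * τ.im := by
      rw [hKy]
      nlinarith [mul_pos (by linarith : (0 : ℝ) < j) hτ]
    exact le_of_mul_le_mul_right h1 hτ
  have hcK : (c : ℝ) ≤ K := by
    have h1 : (c : ℝ) * τ.im ≤ K * τ.im := by
      rw [hKy]
      nlinarith [mul_pos (by linarith : (0 : ℝ) < c) hτ]
    exact le_of_mul_le_mul_right h1 hτ
  have habs := abs_nonneg τ.re
  have h1 : |(j : ℝ) * τ.re| ≤ K * |τ.re| := by
    rw [abs_mul, abs_of_pos (by linarith : (0 : ℝ) < j)]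
    exact mul_le_mul_of_nonneg_right hjK habs
  have h2 : |(c : ℝ) * τ.re| ≤ K * |τ.re| := by
    rw [abs_mul, abs_of_pos (by linarith : (0 : ℝ) < c)]
    exact mul_le_mul_of_nonneg_right hcK habs
  rw [abs_le] at h1 h2
  have hN' : K * |τ.re| + K + 1 < N := by
    have : K * (|τ.re| + 1) + 1 < N := hN
    linarith
  have hKr : 0 ≤ K * |τ.re| := by positivity
  have key : ∀ a : ℤ, -(K * |τ.re| + K + 1) ≤ (a : ℝ) → (a : ℝ) ≤ K * |τ.re| + K + 1 →
      a ∈ Set.Icc (-(N : ℤ)) N := by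
    intro a ha1 ha2
    constructor
    · have : (-(N : ℝ)) ≤ a := by linarith
      exact_mod_cast this
    · have : (a : ℝ) ≤ N := by linarith
      exact_mod_cast this
  refine ⟨key j (by linarith) (by linarith), key m ?_ ?_, key c (by linarith) (by linarith),
    key d ?_ ?_⟩ <;> linarith [h1.1, h1.2, h2.1, h2.2]

theorem VS_FD {w : ℂ} (hw : w ∈ FD) : VS w = ∅ := by
  obtain ⟨hw0, hre, hn⟩ := hw
  refine Set.eq_empty_iff_forall_notMem.2 ?_
  rintro ⟨j, m, c, d⟩ hv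
  have h : InV w j m c d := hv
  obtain ⟨h1, h2, h3, h4⟩ := inV_bd hw0 hre h
  obtain ⟨hj, -, -, hc, -, hlt⟩ := h
  have h1' : 0 < (j : ℝ) + m := by
    have : 0 < j + m := by linarith
    exact_mod_cast this
  have h2' : 0 ≤ (j : ℝ) - m := by
    have : 0 ≤ j - m := by linarith
    exact_mod_cast this
  have h3' : 0 < (c : ℝ) + d := by
    have : 0 < c + d := by linarith
    exact_mod_cast this
  have h4' : 0 < (c : ℝ) - d := by
    have : 0 < c - d := by linarith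
    exact_mod_cast this
  have hj' : (1 : ℝ) ≤ j := by exact_mod_cast hj
  have hc' : (1 : ℝ) ≤ c := by exact_mod_cast hc
  have hn2 : 1 ≤ w.re ^ 2 + w.im ^ 2 := by
    have h5 : 1 ≤ ‖w‖ ^ 2 := one_le_pow₀ hn
    rw [Complex.sq_norm, Complex.normSq_apply] at h5
    nlinarith
  rw [abs_le] at hre
  have hjc : 0 < (j : ℝ) * c := by positivity
  have h5 : (j : ℝ) * c * 1 ≤ (j : ℝ) * c * (w.re ^ 2 + w.im ^ 2) :=
    mul_le_mul_of_nonneg_left hn2 hjc.le
  have h6 : 0 ≤ (1 + w.re) * (((j : ℝ) + m) * (c + d)) :=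
    mul_nonneg (by linarith [hre.1]) (by positivity)
  have h7 : 0 ≤ (1 - w.re) * (((j : ℝ) - m) * (c - d)) :=
    mul_nonneg (by linarith [hre.2]) (mul_nonneg h2' h4'.le)
  nlinarith

theorem VS_zero {τ : ℂ} (hτ : 0 < τ.im) (h : τ.re = 0) : VS τ = ∅ := by
  refine Set.eq_empty_iff_forall_notMem.2 ?_
  rintro ⟨j, m, c, d⟩ hv
  have h' : InV τ j m c d := hv
  obtain ⟨hA, hB, -⟩ := inV_pos hτ h'
  obtain ⟨hj, -, -, hc, hdet, -⟩ := h'
  rw [h, mul_zero, zero_add] at hA hB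
  have h1 : 0 < m := by exact_mod_cast hA
  have h2 : d < 0 := by exact_mod_cast hB
  nlinarith

theorem gm_im {τ : ℂ} (hτ : 0 < τ.im) {j m c d : ℤ} (hc : 1 ≤ c) (h : c * m - j * d = 1) :
    (gm j m c d τ).im = τ.im / ‖(c : ℂ) * τ + d‖ ^ 2 := by
  have h' : (c : ℝ) * m - j * d = 1 := by exact_mod_cast h
  unfold gm
  rw [Complex.sq_norm, Complex.sub_im, Complex.one_im, Complex.div_im]
  have e1 : ((j : ℂ) * τ + m).im = j * τ.im := by simp
  have e2 : ((c : ℂ) * τ + d).im = c * τ.im := by simp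
  have e3 : ((j : ℂ) * τ + m).re = j * τ.re + m := by simp
  have e4 : ((c : ℂ) * τ + d).re = c * τ.re + d := by simp
  rw [e1, e2, e3, e4, ← sub_div, zero_sub, ← neg_div]
  congr 1
  linear_combination τ.im * h'

end Pool.Agent.Helper31.FI
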