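import Pool.Agent.Helper31.FI.ThNe
import Pool.Agent.Helper31.FI.VBas

/-!
# FI-MU: the multiplier

`theta_mult`: strong induction on `|c|`.  `c = 0`: `a = d = ± 1`, `b` even, `(aτ+b)/(cτ+d) = τ ± b`.  `c ≠ 0`: `a`, `c` have opposite
parity (`a b`, `c d` even and determinant `1` force the matrix to be the identity or `S` modulo `2`), so there is `k` with
`|a - 2 k c| < |c|`; with `γτ = (aτ+b)/(cτ+d)`: `γτ - 2k = (a'τ+b')/(cτ+d)`, `a' = a - 2kc`, `b' = b - 2kd`,
`-1/(γτ - 2k) = (-cτ - d)/(a'τ+b')`, and `θ(γτ)² = θ(γτ-2k)²`, `θ(-1/w)² = (-I w) θ(w)²`.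
`chain_mult`: `X i = 1 - ν_i y`, `y = j² τ + j m`, `ν_i = (c₀ + i j)/j`; `c_i τ + d_i = - X i/j`.
Step: with `z = (jτ+m)/(c_iτ+d_i)`: `gm_i = 1 - z`, `gm_{i+1} = 1/(1+z) = -1/(gm_i - 2)`, so
`θ(gm_{i+1}) = (I (1+z))^(1/2) θ(gm_i)`, `1 + z = X_{i+1}/X_i`; all arguments of `X_i`, `X_{i+1}/X_i` are in `(-π, 0)`, hence
`(I X_{i+1}/X_i)^(1/2) = exp (π i/4) X_{i+1}^(1/2)/X_i^(1/2)`; together with `(-1)^j = -1` the factor is `- exp (-π i/4) = ze`.
Base `i = 0`: by `theta_mult` (matrix `c₀-j, d₀-m; c₀, d₀`) the square of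
`(θ τ/θ (gm₀ τ)) X₀^(1/2)` is a constant of norm `j`; an analytic function on the half plane with constant nonzero square is constant.
-/

set_option autoImplicit false

namespace Pool.Agent.Helper31.FI

open Complex Real

private theorem mult_shift (τ : ℂ) (k : ℤ) : jacobiTheta (τ - 2 * k) = jacobiTheta τ := by
  have h1 : ∀ (n : ℕ) (τ : ℂ), jacobiTheta (τ + 2 * n) = jacobiTheta τ := by
    intro n
    induction n with
    | zero => intro τ; simp
    | succ n ih =>
      intro τ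
      have : τ + 2 * ((n + 1 : ℕ) : ℂ) = 2 + (τ + 2 * n) := by push_cast; ring
      rw [this, jacobiTheta_two_add, ih]
  obtain ⟨n, rfl | rfl⟩ := k.eq_nat_or_neg
  · have h2 := h1 n (τ - 2 * n)
    rw [show τ - 2 * (n : ℂ) + 2 * n = τ by ring] at h2
    rw [h2]
    simp
  · have h2 := h1 n τ
    rw [← h2]
    congr 1
    push_cast
    ring

/-- the imaginary part of a Moebius image -/
theorem mult_im (a b c d : ℤ) (hdet : a * d - b * c = 1) (τ : ℂ) (hτ : 0 < τ.im) :
    0 < ((a * τ + b) / (c * τ + d) : ℂ).im ∧ (c * τ + d : ℂ) ≠ 0 := by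
  have hne : (c * τ + d : ℂ) ≠ 0 := by
    intro h
    have h1 := congrArg Complex.im h
    have h2 := congrArg Complex.re h
    simp at h1 h2
    rcases h1 with h1 | h1
    · subst h1
      simp at h2
      subst h2
      simp at hdet
    · linarith
  refine ⟨?_, hne⟩
  have hn : 0 < Complex.normSq (c * τ + d : ℂ) := Complex.normSq_pos.2 hne
  have hdet' : (a : ℝ) * d - b * c = 1 := by exact_mod_cast hdet
  have e : ((a * τ + b) / (c * τ + d) : ℂ).im = τ.im / Complex.normSq (c * τ + d : ℂ) := by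
    rw [Complex.div_im]
    have e1 : (a * τ + b : ℂ).im = a * τ.im := by simp
    have e2 : (a * τ + b : ℂ).re = a * τ.re + b := by simp
    have e3 : (c * τ + d : ℂ).im = c * τ.im := by simp
    have e4 : (c * τ + d : ℂ).re = c * τ.re + d := by simp
    rw [e1, e2, e3, e4, ← sub_div]
    congr 1
    linear_combination τ.im * hdet'
  rw [e]
  positivity

private theorem mult_parity {a b c d : ℤ} (hdet : a * d - b * c = 1) (h1 : Even (a * b))
    (h2 : Even (c * d)) : ¬ Even (a - c) := by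
  intro h
  rw [Int.even_mul] at h1 h2
  have h3 : ¬ Even (a * d - b * c) := by rw [hdet]; decide
  apply h3
  rw [Int.even_sub] at h ⊢
  rw [Int.even_mul, Int.even_mul]
  tauto

private theorem mult_div {a c : ℤ} (hc : c ≠ 0) (h : ¬ Even (a - c)) :
    ∃ k : ℤ, (a - 2 * k * c).natAbs < c.natAbs := by
  have hc' : 0 < |c| := abs_pos.2 hc
  obtain ⟨q, r, h3, h1, h2⟩ : ∃ q r : ℤ, r + 2 * |c| * q = a ∧ 0 ≤ r ∧ r < 2 * |c| :=
    ⟨a / (2 * |c|), a % (2 * |c|), Int.emod_add_mul_ediv a (2 * |c|),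
      Int.emod_nonneg _ (by positivity), Int.emod_lt_of_pos _ (by positivity)⟩
  obtain ⟨s, hs⟩ : ∃ s : ℤ, |c| = s * c := by
    rcases abs_choice c with h | h
    · exact ⟨1, by rw [h]; ring⟩
    · exact ⟨-1, by rw [h]; ring⟩
  have key : ∃ k : ℤ, |a - 2 * k * c| < |c| := by
    rcases lt_trichotomy r |c| with h4 | h4 | h4
    · refine ⟨s * q, ?_⟩
      have e : a - 2 * (s * q) * c = r := by
        linear_combination -h3 + 2 * q * hs
      rw [e, abs_of_nonneg h1]
      exact h4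
    · exfalso
      apply h
      have h5 : Even (|c| - c) := by
        rw [Int.even_sub, even_abs]
      have h6 : a - c = (|c| - c) + 2 * (|c| * q) := by linear_combination -h3 + h4
      rw [h6]
      exact h5.add (even_two_mul _)
    · refine ⟨s * q + s, ?_⟩
      have e : a - 2 * (s * q + s) * c = r - 2 * |c| := by
        linear_combination -h3 + 2 * q * hs + 2 * hs
      rw [e, abs_of_neg (by linarith)]
      linarith
  obtain ⟨k, hk⟩ := key
  refine ⟨k, ?_⟩
  rw [Int.abs_eq_natAbs, Int.abs_eq_natAbs] at hk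
  exact_mod_cast hk

theorem theta_mult (a b c d : ℤ) (hdet : a * d - b * c = 1) (h1 : Even (a * b)) (h2 : Even (c * d)) :
    ∃ κ : ℂ, ‖κ‖ = 1 ∧ ∀ τ : ℂ, 0 < τ.im →
      jacobiTheta ((a * τ + b) / (c * τ + d)) ^ 2 = κ * (c * τ + d) * jacobiTheta τ ^ 2 := by
  obtain ⟨n, hn⟩ : ∃ n : ℕ, c.natAbs = n := ⟨_, rfl⟩
  induction n using Nat.strong_induction_on generalizing a b c d with
  | _ n ih =>
  by_cases hc : c = 0
  · subst hc
    simp only [mul_zero, sub_zero] at hdet
    have had : (a = 1 ∧ d = 1) ∨ (a = -1 ∧ d = -1) := Int.mul_eq_one_iff_eq_one_or_neg_one.1 hdet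
    have hb : Even b := by
      rcases had with ⟨rfl, rfl⟩ | ⟨rfl, rfl⟩
      · simpa using h1
      · simpa using h1
    obtain ⟨k, hk⟩ := hb
    rcases had with ⟨rfl, rfl⟩ | ⟨rfl, rfl⟩
    · refine ⟨1, by simp, fun τ _ => ?_⟩
      have h3 := mult_shift τ (-k)
      rw [← h3]
      have e : (((1 : ℤ) : ℂ) * τ + b) / (((0 : ℤ) : ℂ) * τ + ((1 : ℤ) : ℂ)) = τ - 2 * ((-k : ℤ) : ℂ) := by
        rw [hk]
        push_cast
        ring
      rw [e]
      push_cast
      ring
    · refine ⟨-1, by simp, fun τ _ => ?_⟩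
      have h3 := mult_shift τ k
      rw [← h3]
      have e : (((-1 : ℤ) : ℂ) * τ + b) / (((0 : ℤ) : ℂ) * τ + ((-1 : ℤ) : ℂ)) = τ - 2 * ((k : ℤ) : ℂ) := by
        rw [hk]
        push_cast
        ring
      rw [e]
      push_cast
      ring
  · obtain ⟨k, hk⟩ := mult_div hc (mult_parity hdet h1 h2)
    have hdet' : (-c) * (b - 2 * k * d) - (-d) * (a - 2 * k * c) = 1 := by linear_combination hdet
    have h1' : Even ((-c) * (-d)) := by simpa using h2
    have h2' : Even ((a - 2 * k * c) * (b - 2 * k * d)) := by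
      have e : (a - 2 * k * c) * (b - 2 * k * d) = a * b + 2 * (-(k * a * d) - k * c * b + 2 * k * k * (c * d)) := by
        ring
      rw [e]
      exact h1.add (even_two_mul _)
    obtain ⟨κ, hκ, h⟩ := ih _ (by omega) (-c) (-d) (a - 2 * k * c) (b - 2 * k * d) hdet' h1' h2' rfl
    refine ⟨I * κ, by simp [hκ], fun τ hτ => ?_⟩
    obtain ⟨him, hne⟩ := mult_im a b c d hdet τ hτ
    obtain ⟨him2, hne2⟩ := mult_im (-c) (-d) (a - 2 * k * c) (b - 2 * k * d) hdet' τ hτ
    set w : ℂ := (a * τ + b) / (c * τ + d) - 2 * k with hw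
    have hwim : 0 < w.im := by
      rw [hw]
      simpa using him
    have hwe : w = (((a - 2 * k * c : ℤ) : ℂ) * τ + ((b - 2 * k * d : ℤ) : ℂ)) / (c * τ + d) := by
      rw [hw, eq_div_iff hne, sub_mul, div_mul_cancel₀ _ hne]
      push_cast
      ring
    have hw0 : w ≠ 0 := by
      intro h5
      rw [h5] at hwim
      simp at hwim
    have h3 := theta_inv hwim
    have h4 : -1 / w = (((-c : ℤ) : ℂ) * τ + ((-d : ℤ) : ℂ)) /
        (((a - 2 * k * c : ℤ) : ℂ) * τ + ((b - 2 * k * d : ℤ) : ℂ)) := by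
      rw [hwe, div_div_eq_mul_div]
      congr 1
      push_cast
      ring
    have h5 := h τ hτ
    rw [← h4, h3, mul_pow] at h5
    have h6 : ((-I * w) ^ (1 / 2 : ℂ)) ^ 2 = -I * w := by
      rw [← Complex.cpow_nat_mul]
      norm_num
    have h7 : jacobiTheta w = jacobiTheta ((a * τ + b) / (c * τ + d)) := by
      rw [hw, mult_shift]
    rw [h6, h7] at h5
    have h8 : (((a - 2 * k * c : ℤ) : ℂ) * τ + ((b - 2 * k * d : ℤ) : ℂ)) = w * (c * τ + d) := by
      rw [hwe, div_mul_cancel₀ _ hne]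
    rw [h8] at h5
    have h9 : -I * w ≠ 0 := mul_ne_zero (neg_ne_zero.2 I_ne_zero) hw0
    apply mul_left_cancel₀ h9
    rw [h5]
    clear_value w
    linear_combination (κ * w * (c * τ + d) * jacobiTheta τ ^ 2) * I_sq

end Pool.Agent.Helper31.FI
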