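import Pool.Agent.Helper31.FI.FinalC
import Pool.Agent.Helper22.PSI.Omega

/-!
# FI-OM: large values of the basis functions

`psi_link`: `mains t 1 M = ∑_{k=1}^{M} ze^(k-1) k^(-1/2) exp (-π i t/k)`,
`2 Im (exp (π i/4) ze mains) = - 2 Im mains = ∑_{k ≤ M} (2/√k) cos (π ((3k-1)/4 - t/k)) = PSI.S t M` (`exp (π i/4) ze = -1`,
`(3k-1)/4 = 3(k-1)/4 + 1/2`).
`psi_cut`: for `M ≥ 1`, `4 t ≤ M²`: `|PSI.Psi t - PSI.S t M| ≤ 28` (`mains_cut` and the limit `PSI.tendsto_Psi`).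
`omega_f`: let `n/2 ≤ x ≤ n - √n`.  Then `j² x ≤ n` forces `j = 1`, `Ms 1 = {1}`, `c0 1 1 = 1`, so by `final_c`
`‖b √x‖ ≥ n^(-1/2) |sin (π x)| (|Psi t| - 28) - C 2^(3/4) (1 + log n)³ n^(-1/2)`, `t = (√n - √x)²`.
Take `t₀` large with `Psi t₀ ≥ exp ((log t₀)^(1/2 - ε/2))` (`PSI.omega 1`, first part), `n = ⌈t₀⌉₊ ^ 10`, `x₀ = (√n - √t₀)²`, `x` a half
odd integer with `|x - x₀| ≤ 1/2`: `|sin (π x)| = 1`, `|√t - √t₀| = |√x - √x₀| ≤ 1/√n`, so `t ≥ 1` and `|t - t₀| ≤ 3 √t₀/√n ≤ 1`;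
`|PSI.S t M - PSI.S t₀ M| ≤ ∑ (2/√k) π |t - t₀|/k ≤ 20` for `M = ⌈2√n⌉₊ + 1`.  `x ≤ n - √n` since `n - x = √t (√n + √x) ≥ √n`.  Finally
`(log t₀)^(1/2 - ε/2) ≥ (log n/20)^(1/2 - ε/2) ≥ (log n)^(1/2 - ε) + K log log n` for large `n`.
(For `ε ≥ 1/2` the claim follows from the one for `ε = 1/4` as `log n ≥ 1`.)
-/

set_option autoImplicit false

namespace Pool.Agent.Helper31.FI

open Complex Real Finset MeasureTheory

theorem psi_link (t : ℝ) (M : ℕ) :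
    2 * (cexp (π * I / 4) * (ze * mains t 1 M)).im = Pool.Agent.Helper22.PSI.S t M := by
  induction M with
  | zero => simp [mains, Pool.Agent.Helper22.PSI.S]
  | succ M ih =>
    have h1 : mains t 1 (M + 1) = mains t 1 M +
        ze ^ M * (((1 : ℝ) + M : ℝ) ^ (-(1 / 2) : ℝ) : ℝ) * cexp (-(π * I * t / (1 + M))) := by
      unfold mains
      rw [Finset.sum_range_succ]
      push_cast
      rfl
    have h2 : Pool.Agent.Helper22.PSI.S t (M + 1) = Pool.Agent.Helper22.PSI.S t M +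
        Pool.Agent.Helper22.PSI.term t (M + 1) := by
      unfold Pool.Agent.Helper22.PSI.S
      rw [Finset.sum_Icc_succ_top (by omega)]
    have hM : (0 : ℝ) < 1 + M := by positivity
    have hMc : (1 + M : ℂ) ≠ 0 := by
      have : ((1 + M : ℝ) : ℂ) ≠ 0 := by exact_mod_cast hM.ne'
      simpa using this
    have h3 : cexp (π * I / 4) * (ze * (ze ^ M * (((1 : ℝ) + M : ℝ) ^ (-(1 / 2) : ℝ) : ℝ) *
        cexp (-(π * I * t / (1 + M))))) =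
        (((1 : ℝ) + M : ℝ) ^ (-(1 / 2) : ℝ) : ℝ) *
          cexp ((π * (1 + 3 * M / 4 - t / (1 + M)) : ℝ) * I) := by
      unfold ze
      rw [← Complex.exp_nat_mul]
      rw [show cexp (π * I / 4) * (cexp (3 * π * I / 4) * (cexp (M * (3 * π * I / 4)) *
        ((((1 : ℝ) + M : ℝ) ^ (-(1 / 2) : ℝ) : ℝ) : ℂ) *
        cexp (-(π * I * t / (1 + M))))) = ((((1 : ℝ) + M : ℝ) ^ (-(1 / 2) : ℝ) : ℝ) : ℂ) *
        (cexp (π * I / 4) * cexp (3 * π * I / 4) * cexp (M * (3 * π * I / 4)) *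
        cexp (-(π * I * t / (1 + M)))) by ring, ← Complex.exp_add, ← Complex.exp_add, ← Complex.exp_add]
      congr 2
      push_cast
      field_simp
      ring
    have h4 : (cexp (π * I / 4) * (ze * (ze ^ M * (((1 : ℝ) + M : ℝ) ^ (-(1 / 2) : ℝ) : ℝ) *
        cexp (-(π * I * t / (1 + M)))))).im =
        ((1 : ℝ) + M) ^ (-(1 / 2) : ℝ) * Real.sin (π * (1 + 3 * M / 4 - t / (1 + M))) := by
      rw [h3, Complex.im_ofReal_mul, Complex.exp_ofReal_mul_I_im]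
    rw [h1, h2, ← ih, mul_add, mul_add, Complex.add_im, mul_add, h4]
    congr 1
    unfold Pool.Agent.Helper22.PSI.term
    have h5 : ((1 : ℝ) + M) ^ (-(1 / 2) : ℝ) = 1 / √((M + 1 : ℕ) : ℝ) := by
      rw [Real.rpow_neg hM.le, ← Real.sqrt_eq_rpow]
      push_cast
      rw [add_comm, one_div]
    have h6 : Real.sin (π * (1 + 3 * M / 4 - t / (1 + M))) =
        Real.cos (π * ((3 * ((M + 1 : ℕ) : ℝ) - 1) / 4 - t / ((M + 1 : ℕ) : ℝ))) := by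
      rw [← Real.cos_sub_pi_div_two]
      congr 1
      push_cast
      rw [add_comm (M : ℝ) 1]
      ring
    rw [h5, h6]
    ring

private theorem OmF_cut (t : ℝ) (M : ℕ) (ht : 0 ≤ t) (hM : 1 ≤ M) (h : 4 * t ≤ (M : ℝ) ^ 2) :
    |Pool.Agent.Helper22.PSI.Psi t - Pool.Agent.Helper22.PSI.S t M| ≤ 8 := by
  have h1 := Pool.Agent.Helper22.PSI.Psi_sub t M (by rwa [abs_of_nonneg ht]) hM
  have h2 : (1 : ℝ) ≤ √M := Real.one_le_sqrt.mpr (by exact_mod_cast hM)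
  have h3 : 8 / √(M : ℝ) ≤ 8 := div_le_self (by norm_num) h2
  linarith

theorem psi_cut (t : ℝ) (M : ℕ) (ht : 0 ≤ t) (hM : 1 ≤ M) (h : 4 * t ≤ (M : ℝ) ^ 2) :
    |Pool.Agent.Helper22.PSI.Psi t - Pool.Agent.Helper22.PSI.S t M| ≤ 28 := by
  have h1 := Pool.Agent.Helper22.PSI.Psi_sub t M (by rwa [abs_of_nonneg ht]) hM
  have h2 : (1 : ℝ) ≤ √M := Real.one_le_sqrt.mpr (by exact_mod_cast hM)
  have h3 : 8 / √(M : ℝ) ≤ 8 := div_le_self (by norm_num) h2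
  linarith

private theorem OmF_growth (C ε : ℝ) (hC : 0 < C) (hε : 0 < ε) (hε1 : ε ≤ 1 / 4) :
    ∃ L₀ : ℝ, 1 ≤ L₀ ∧ ∀ L : ℝ, L₀ ≤ L →
      28 + 2 * C * (1 + 20 * L) ^ 3 + rexp ((20 * L) ^ (1 / 2 - ε)) ≤ rexp (L ^ (1 / 2 - ε / 2)) := by
  have ha : 0 < 1 / 2 - ε / 2 := by linarith
  have e1 : ∀ᶠ L : ℝ in Filter.atTop, 2 * (20 : ℝ) ^ (1 / 2 - ε) ≤ L ^ (ε / 2) :=
    (tendsto_rpow_atTop (by linarith)).eventually_ge_atTop _
  have e2 : ∀ᶠ y : ℝ in Filter.atTop, (28 + 2 * C * 21 ^ 3) * 2 ^ 8 ≤ rexp y / y ^ 8 :=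
    (Real.tendsto_exp_div_pow_atTop 8).eventually_ge_atTop _
  have e3 : Filter.Tendsto (fun L : ℝ => L ^ (1 / 2 - ε / 2) / 2) Filter.atTop Filter.atTop :=
    (tendsto_rpow_atTop ha).atTop_div_const (by norm_num)
  obtain ⟨L₁, h1⟩ := Filter.eventually_atTop.mp
    (((e1.and (e3.eventually e2)).and (e3.eventually_ge_atTop 1)))
  refine ⟨max L₁ 1, le_max_right _ _, fun L hL => ?_⟩
  have hL1 : 1 ≤ L := (le_max_right _ _).trans hL
  have hL0 : 0 < L := by linarith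
  obtain ⟨⟨g1, g2⟩, g3⟩ := h1 L ((le_max_left _ _).trans hL)
  set y := L ^ (1 / 2 - ε / 2) with hy
  have hy2 : 2 ≤ y := by linarith
  have k1 : (20 * L) ^ (1 / 2 - ε) ≤ y / 2 := by
    rw [Real.mul_rpow (by norm_num) hL0.le]
    have : y = L ^ (1 / 2 - ε) * L ^ (ε / 2) := by
      rw [hy, ← Real.rpow_add hL0]; congr 1; ring
    rw [this]
    have h0 : 0 < L ^ (1 / 2 - ε) := Real.rpow_pos_of_pos hL0 _
    nlinarith
  have k2 : L ^ 3 ≤ y ^ 8 := by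
    rw [hy, ← Real.rpow_natCast, ← Real.rpow_natCast, ← Real.rpow_mul hL0.le]
    apply Real.rpow_le_rpow_of_exponent_le hL1
    push_cast
    linarith
  have k3 : 28 + 2 * C * (1 + 20 * L) ^ 3 ≤ (28 + 2 * C * 21 ^ 3) * L ^ 3 := by
    have q1 : 1 + 20 * L ≤ 21 * L := by linarith
    have q2 : (1 + 20 * L) ^ 3 ≤ (21 * L) ^ 3 := pow_le_pow_left₀ (by positivity) q1 3
    have q3 : 1 ≤ L ^ 3 := one_le_pow₀ hL1
    have q4 : 2 * C * (1 + 20 * L) ^ 3 ≤ 2 * C * (21 * L) ^ 3 :=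
      mul_le_mul_of_nonneg_left q2 (by positivity)
    nlinarith
  have k4 : 28 + 2 * C * (1 + 20 * L) ^ 3 ≤ rexp (y / 2) := by
    have q1 : 0 < (y / 2) ^ 8 := by positivity
    rw [le_div_iff₀ q1] at g2
    have q2 : (28 + 2 * C * 21 ^ 3) * 2 ^ 8 * (y / 2) ^ 8 = (28 + 2 * C * 21 ^ 3) * y ^ 8 := by
      rw [div_pow]; ring
    rw [q2] at g2
    have q3 : (28 + 2 * C * 21 ^ 3) * L ^ 3 ≤ (28 + 2 * C * 21 ^ 3) * y ^ 8 :=
      mul_le_mul_of_nonneg_left k2 (by positivity)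
    linarith
  have k5 : rexp ((20 * L) ^ (1 / 2 - ε)) ≤ rexp (y / 2) := Real.exp_le_exp.mpr k1
  have k6 : 2 ≤ rexp (y / 2) := by
    have := Real.add_one_le_exp (y / 2)
    linarith
  have k7 : rexp y = rexp (y / 2) * rexp (y / 2) := by
    rw [← Real.exp_add]; congr 1; ring
  rw [k7]
  nlinarith

private theorem OmF_S (t t₀ : ℝ) (K : ℕ) :
    |Pool.Agent.Helper22.PSI.S t K - Pool.Agent.Helper22.PSI.S t₀ K| ≤ K * (2 * π * |t - t₀|) := by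
  unfold Pool.Agent.Helper22.PSI.S
  rw [← Finset.sum_sub_distrib]
  refine (Finset.abs_sum_le_sum_abs _ _).trans ?_
  have : ∀ k ∈ Icc 1 K, |Pool.Agent.Helper22.PSI.term t k - Pool.Agent.Helper22.PSI.term t₀ k| ≤
      2 * π * |t - t₀| := by
    intro k hk
    have hk1 : (1 : ℝ) ≤ k := by exact_mod_cast (Finset.mem_Icc.mp hk).1
    have hs : 1 ≤ √(k : ℝ) := Real.one_le_sqrt.mpr hk1
    unfold Pool.Agent.Helper22.PSI.term
    rw [← mul_sub, abs_mul, abs_of_nonneg (by positivity : (0 : ℝ) ≤ 2 / √(k : ℝ))]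
    have h1 : |Real.cos (π * ((3 * k - 1) / 4 - t / k)) - Real.cos (π * ((3 * k - 1) / 4 - t₀ / k))| ≤
        π * |t - t₀| := by
      have := Real.abs_cos_sub_cos_le (π * ((3 * k - 1) / 4 - t / k)) (π * ((3 * k - 1) / 4 - t₀ / k))
      refine this.trans ?_
      rw [← mul_sub, abs_mul, abs_of_pos Real.pi_pos]
      apply mul_le_mul_of_nonneg_left _ Real.pi_pos.le
      rw [show (3 * (k : ℝ) - 1) / 4 - t / k - ((3 * k - 1) / 4 - t₀ / k) = -((t - t₀) / k) by ring,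
        abs_neg, abs_div, abs_of_nonneg (by positivity : (0 : ℝ) ≤ (k : ℝ))]
      exact div_le_self (abs_nonneg _) hk1
    have h2 : 2 / √(k : ℝ) ≤ 2 := div_le_self (by norm_num) hs
    calc 2 / √(k : ℝ) * |Real.cos (π * ((3 * k - 1) / 4 - t / k)) -
          Real.cos (π * ((3 * k - 1) / 4 - t₀ / k))| ≤ 2 * (π * |t - t₀|) :=
          mul_le_mul h2 h1 (abs_nonneg _) (by norm_num)
      _ = _ := by ring
  refine (Finset.sum_le_sum this).trans ?_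
  simp

private theorem OmF_x (N : ℕ) (hN : 16 ≤ N) (t₀ : ℝ) (h4 : 4 ≤ t₀) (htN : t₀ ≤ N) :
    ∃ x : ℝ, ((N : ℝ) ^ 5) ^ 2 / 2 ≤ x ∧ x ≤ ((N : ℝ) ^ 5) ^ 2 - (N : ℝ) ^ 5 ∧
      |Real.sin (π * x)| = 1 ∧ |((N : ℝ) ^ 5 - √x) ^ 2 - t₀| ≤ 3 / (N : ℝ) ^ 4 := by
  have hN' : (16 : ℝ) ≤ N := by exact_mod_cast hN
  set R : ℝ := (N : ℝ) ^ 5 with hR
  have hR1 : (65536 : ℝ) * N ≤ R := by
    have : (16 : ℝ) ^ 4 ≤ (N : ℝ) ^ 4 := pow_le_pow_left₀ (by norm_num) hN' 4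
    rw [hR, pow_succ]
    norm_num at this
    nlinarith
  have hR0 : 0 < R := by linarith
  set s₀ := √t₀ with hs₀
  have hs2 : s₀ ^ 2 = t₀ := Real.sq_sqrt (by linarith)
  have hs0 : 0 ≤ s₀ := Real.sqrt_nonneg _
  have hs1 : 2 ≤ s₀ := by nlinarith
  have hsN : s₀ ≤ N := by
    by_contra hc
    push Not at hc
    nlinarith
  set x₀ := (R - s₀) ^ 2 with hx₀
  have hx₀s : √x₀ = R - s₀ := Real.sqrt_sq (by linarith)
  have f1 := Int.floor_le x₀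
  have f2 := Int.lt_floor_add_one x₀
  set x : ℝ := ⌊x₀⌋ + 1 / 2 with hx
  have hxx : |x - x₀| ≤ 1 / 2 := by
    rw [abs_le]; constructor <;> rw [hx] <;> linarith
  have hx0 : 0 ≤ x := by
    have : 0 ≤ ⌊x₀⌋ := Int.floor_nonneg.mpr (sq_nonneg _)
    have : (0 : ℝ) ≤ ⌊x₀⌋ := by exact_mod_cast this
    linarith
  have hsx0 : 0 ≤ √x := Real.sqrt_nonneg _
  have hsx2 : √x ^ 2 = x := Real.sq_sqrt hx0
  have hdiff : |√x - (R - s₀)| ≤ 1 / R := by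
    have e1 : x - x₀ = (√x - (R - s₀)) * (√x + (R - s₀)) := by
      rw [hx₀]; nlinarith
    have e2 : R / 2 ≤ √x + (R - s₀) := by linarith
    rw [e1, abs_mul, abs_of_nonneg (by linarith : 0 ≤ √x + (R - s₀))] at hxx
    rw [le_div_iff₀ hR0]
    have := abs_nonneg (√x - (R - s₀))
    nlinarith
  have hR1' : 1 / R ≤ 1 := by
    rw [div_le_one hR0]; linarith
  obtain ⟨d1, d2⟩ := abs_le.mp hdiff
  refine ⟨x, ?_, ?_, ?_, ?_⟩
  · have : 3 / 4 * R ≤ √x := by linarith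
    nlinarith
  · have e1 : R ^ 2 - x = (R - √x) * (R + √x) := by nlinarith
    have e2 : 1 ≤ R - √x := by linarith
    nlinarith
  · have e1 : π * x = π / 2 + ⌊x₀⌋ * π := by rw [hx]; ring
    rw [e1, Real.sin_add_int_mul_pi, Real.sin_pi_div_two, mul_one, abs_zpow]
    simp
  · have e1 : (R - √x) ^ 2 - t₀ = (-(√x - (R - s₀))) * ((R - √x) + s₀) := by
      rw [← hs2]; ring
    rw [e1, abs_mul, abs_neg]
    have e2 : |(R - √x) + s₀| ≤ 3 * N := by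
      rw [abs_le]; constructor <;> linarith
    calc |√x - (R - s₀)| * |(R - √x) + s₀| ≤ 1 / R * (3 * N) :=
          mul_le_mul hdiff e2 (abs_nonneg _) (by positivity)
      _ = 3 / (N : ℝ) ^ 4 := by rw [hR]; field_simp

private theorem OmF_main (kap : ℕ → ℤ → ℂ) (hk : kap 1 1 = ze) (x : ℝ) (n : ℕ) (hn : 1 ≤ n)
    (hx : (n : ℝ) / 2 ≤ x) (hx1 : x ≤ n) :
    mainC kap x n = ((-1 : ℝ) ^ n : ℝ) * (ze * mains ((√n - √x) ^ 2) 1 (⌈2 * √n⌉₊ + 1)) := by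
  classical
  have hn' : (1 : ℝ) ≤ n := by exact_mod_cast hn
  have hset : (range (n + 1)).filter (fun j : ℕ => Odd j ∧ (j : ℝ) ^ 2 * x ≤ n) = {1} := by
    ext j
    simp only [Finset.mem_filter, Finset.mem_range, Finset.mem_singleton]
    constructor
    · rintro ⟨h1, h2, h3⟩
      by_contra hj
      have hj3 : 3 ≤ j := by
        rcases h2 with ⟨k, hk⟩
        omega
      have hj4 : (3 : ℝ) ≤ j := by exact_mod_cast hj3
      have hj9 : (9 : ℝ) ≤ (j : ℝ) ^ 2 := by nlinarith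
      have hx2 : 0 < x := by linarith
      have : 9 * x ≤ (j : ℝ) ^ 2 * x := mul_le_mul_of_nonneg_right hj9 hx2.le
      linarith
    · rintro rfl
      refine ⟨by omega, odd_one, ?_⟩
      simpa using hx1
  have hMs : Ms 1 = {1} := by
    unfold Ms
    ext m
    simp only [Finset.mem_filter, Finset.mem_Ioc, Finset.mem_singleton]
    constructor
    · rintro ⟨⟨h1, h2⟩, ⟨k, hk⟩, -⟩
      push_cast at h1 h2
      omega
    · rintro rfl
      refine ⟨⟨by norm_num, by norm_num⟩, odd_one, ?_⟩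
      simp [isCoprime_one_left]
  unfold mainC
  have hset' : (range (n + 1)).filter (fun j : ℕ => Odd j ∧ (j : ℝ) ^ 2 * x ≤ n) = {1} := by
    convert hset
  rw [hset', Finset.sum_singleton, hMs, Finset.sum_singleton, hk]
  have hc : c0 1 1 = 1 := by simp [c0]
  rw [hc]
  have he : cexp (π * I * n * (1 : ℤ) / (1 : ℕ)) = (((-1 : ℝ) ^ n : ℝ) : ℂ) := by
    rw [show (π * I * n * (1 : ℤ) / (1 : ℕ) : ℂ) = n * (π * I) by push_cast; ring,
      Complex.exp_nat_mul, Complex.exp_pi_mul_I]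
    push_cast
    rfl
  rw [he]
  simp only [Nat.cast_one, div_one, Real.one_rpow, Complex.ofReal_one, mul_one]
  ring

private theorem OmF_r (n : ℝ) (hn : 0 ≤ n) : n ^ (-(1 / 2) : ℝ) = 1 / √n := by
  rw [Real.rpow_neg hn, ← Real.sqrt_eq_rpow, one_div]

theorem omega_f : ∀ ε : ℝ, 0 < ε → ∀ N₀ : ℕ, ∃ n : ℕ, N₀ ≤ n ∧ ∀ b : SchwartzMap ℝ ℂ,
    (∀ s : ℝ, b (-s) = b s) → (∀ ξ : ℝ, ∫ s : ℝ, cexp (-(2 * π * I * ξ * s)) * b s = b ξ) →
    (∀ m : ℕ, b (√m) = if m = n then 1 else 0) →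
    ∃ x : ℝ, n / 2 ≤ x ∧ x ≤ n - √n ∧
      (n : ℝ) ^ (-(1 / 2) : ℝ) * rexp (Real.log n ^ (1 / 2 - ε)) ≤ ‖b (√x)‖ := by
  intro ε hε N₀
  obtain ⟨kap, -, hk1, C, hC, hfin⟩ := final_c
  set ε₁ : ℝ := min ε (1 / 4) with hε₁
  have hε₁0 : 0 < ε₁ := lt_min hε (by norm_num)
  have hε₁1 : ε₁ ≤ 1 / 4 := min_le_right _ _
  have hε₁2 : ε₁ ≤ ε := min_le_left _ _
  obtain ⟨L₀, hL₀, hgr⟩ := OmF_growth C ε₁ hC hε₁0 hε₁1
  obtain ⟨⟨t₀, ht₀, hΨ⟩, -⟩ := Pool.Agent.Helper22.PSI.omega 1 (Or.inl rfl) (ε₁ / 2)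
    (max (max (N₀ : ℝ) 16) (rexp L₀)) (by linarith)
  rw [Int.cast_one, one_mul] at hΨ
  have ht1 : (N₀ : ℝ) ≤ t₀ := ((le_max_left _ _).trans (le_max_left _ _)).trans ht₀
  have ht2 : (16 : ℝ) ≤ t₀ := ((le_max_right _ _).trans (le_max_left _ _)).trans ht₀
  have ht3 : rexp L₀ ≤ t₀ := (le_max_right _ _).trans ht₀
  have ht00 : 0 < t₀ := by linarith
  set N := ⌈t₀⌉₊ with hNdef
  have hN1 : t₀ ≤ N := Nat.le_ceil _
  have hN2 : (N : ℝ) < t₀ + 1 := Nat.ceil_lt_add_one ht00.le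
  have hN16 : 16 ≤ N := by
    have : (16 : ℝ) ≤ N := ht2.trans hN1
    exact_mod_cast this
  have hN16' : (16 : ℝ) ≤ N := by exact_mod_cast hN16
  set n := N ^ 10 with hndef
  have hnN : N ≤ n := Nat.le_self_pow (by norm_num) N
  have hn1 : 1 ≤ n := by omega
  have hn1' : (1 : ℝ) ≤ n := by exact_mod_cast hn1
  have hnR : (n : ℝ) = ((N : ℝ) ^ 5) ^ 2 := by rw [hndef]; push_cast; ring
  have hsq : √(n : ℝ) = (N : ℝ) ^ 5 := by rw [hnR]; exact Real.sqrt_sq (by positivity)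
  refine ⟨n, ?_, fun b hb1 hb2 hb3 => ?_⟩
  · have : (N₀ : ℝ) ≤ N := ht1.trans hN1
    have : N₀ ≤ N := by exact_mod_cast this
    omega
  obtain ⟨x, hx1, hx2, hsin, htt⟩ := OmF_x N hN16 t₀ (by linarith) hN1
  rw [← hnR] at hx1 hx2
  rw [← hsq] at hx2 htt
  refine ⟨x, hx1, hx2, ?_⟩
  set R := √(n : ℝ) with hRdef
  have hRn : R ^ 2 = n := Real.sq_sqrt (by linarith)
  have hR0 : 0 < R := by rw [hRdef]; exact Real.sqrt_pos.mpr (by linarith)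
  have hx0 : 0 < x := by linarith
  have hxn : x ≤ n := by linarith
  have hx11 : 1 ≤ x := by
    have h16 : (16 : ℝ) ≤ n := by
      have : (N : ℝ) ≤ n := by exact_mod_cast hnN
      linarith
    linarith
  have hf := hfin n hn1 b hb1 hb2 hb3 x hx11 hx2
  have hmain := OmF_main kap hk1 x n hn1 hx1 hxn
  set t := (R - √x) ^ 2 with htdef
  set M := ⌈2 * R⌉₊ + 1 with hMdef
  have hM1 : 1 ≤ M := by omega
  have hM2 : 2 * R ≤ (M : ℝ) := by
    have := Nat.le_ceil (2 * R)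
    rw [hMdef]; push_cast; linarith
  have ht0 : 0 ≤ t := sq_nonneg _
  have hsx : √x ≤ R := Real.sqrt_le_sqrt hxn
  have hsx0 : 0 ≤ √x := Real.sqrt_nonneg _
  have htR : t ≤ R ^ 2 := by
    rw [htdef]
    exact pow_le_pow_left₀ (by linarith) (by linarith) 2
  have hN4 : (16 : ℝ) ^ 3 * N ≤ (N : ℝ) ^ 4 := by
    have : (16 : ℝ) ^ 3 ≤ (N : ℝ) ^ 3 := pow_le_pow_left₀ (by norm_num) hN16' 3
    rw [pow_succ (N : ℝ) 3]
    exact mul_le_mul_of_nonneg_right this (by positivity)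
  have hN4' : 0 < (N : ℝ) ^ 4 := by positivity
  have htt1 : |t - t₀| * N ≤ 3 / 16 ^ 3 := by
    have h1 : 3 / (N : ℝ) ^ 4 * N ≤ 3 / 16 ^ 3 := by
      rw [div_mul_eq_mul_div, div_le_div_iff₀ hN4' (by norm_num)]
      linarith
    exact (mul_le_mul_of_nonneg_right htt (by positivity)).trans h1
  have habs := abs_nonneg (t - t₀)
  have htt2 : |t - t₀| ≤ 1 := by nlinarith
  obtain ⟨u1, u2⟩ := abs_le.mp htt2
  -- comparison of the values of `Psi`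
  have c1 := OmF_cut t M ht0 hM1 (by nlinarith)
  have hK1 : 1 ≤ 2 * N := by omega
  have c2 := OmF_cut t (2 * N) ht0 hK1 (by push_cast; nlinarith)
  have c3 := OmF_cut t₀ (2 * N) ht00.le hK1 (by push_cast; nlinarith)
  have c4 := OmF_S t t₀ (2 * N)
  have c5 : (((2 * N : ℕ) : ℝ)) * (2 * π * |t - t₀|) ≤ 1 := by
    push_cast
    have hpi := Real.pi_le_four
    have hpi0 := Real.pi_pos
    have e1 : (2 * (N : ℝ)) * (2 * π * |t - t₀|) = 4 * π * (|t - t₀| * N) := by ring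
    rw [e1]
    nlinarith [mul_nonneg habs (by positivity : (0 : ℝ) ≤ N)]
  have c6 : Pool.Agent.Helper22.PSI.Psi t₀ - 28 ≤ Pool.Agent.Helper22.PSI.S t M := by
    have a1 := abs_le.mp c1
    have a2 := abs_le.mp c2
    have a3 := abs_le.mp c3
    have a4 := abs_le.mp (c4.trans c5)
    linarith [a1.1, a1.2, a2.1, a2.2, a3.1, a3.2, a4.1, a4.2]
  -- the main term
  set S := Pool.Agent.Helper22.PSI.S t M with hS
  have m1 : (cexp (π * I / 4) * mainC kap x n).im = (-1 : ℝ) ^ n * (S / 2) := by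
    rw [hmain]
    have hl := psi_link t M
    have : cexp (π * I / 4) * ((((-1 : ℝ) ^ n : ℝ) : ℂ) * (ze * mains t 1 M)) =
        (((-1 : ℝ) ^ n : ℝ) : ℂ) * (cexp (π * I / 4) * (ze * mains t 1 M)) := by ring
    rw [this, Complex.im_ofReal_mul]
    congr 1
    linarith
  have m2 : |2 * Real.sin (π * x) / R * (cexp (π * I / 4) * mainC kap x n).im| = |S| / R := by
    rw [m1, abs_mul, abs_div, abs_mul, hsin, abs_mul, abs_pow, abs_neg, abs_one, one_pow, abs_div,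
      abs_of_pos hR0]
    norm_num
  -- the error term
  have r1 : (n : ℝ) ^ (1 / 4 : ℝ) * x ^ (-(3 / 4) : ℝ) ≤ 2 / R := by
    have n0 : (0 : ℝ) < n := by linarith
    have e1 : x ^ (-(3 / 4) : ℝ) ≤ ((n : ℝ) / 2) ^ (-(3 / 4) : ℝ) :=
      Real.rpow_le_rpow_of_nonpos (by linarith) hx1 (by norm_num)
    have e2 : ((n : ℝ) / 2) ^ (-(3 / 4) : ℝ) = (n : ℝ) ^ (-(3 / 4) : ℝ) * (2 : ℝ) ^ (3 / 4 : ℝ) := by
      rw [Real.div_rpow n0.le (by norm_num), Real.rpow_neg (by norm_num : (0 : ℝ) ≤ 2), div_inv_eq_mul]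
    have e3 : (2 : ℝ) ^ (3 / 4 : ℝ) ≤ 2 := by
      calc (2 : ℝ) ^ (3 / 4 : ℝ) ≤ (2 : ℝ) ^ (1 : ℝ) :=
            Real.rpow_le_rpow_of_exponent_le (by norm_num) (by norm_num)
        _ = 2 := Real.rpow_one 2
    have e4 : (n : ℝ) ^ (1 / 4 : ℝ) * (n : ℝ) ^ (-(3 / 4) : ℝ) = 1 / R := by
      rw [← Real.rpow_add n0, hRdef, ← OmF_r n n0.le]
      norm_num
    calc (n : ℝ) ^ (1 / 4 : ℝ) * x ^ (-(3 / 4) : ℝ)
        ≤ (n : ℝ) ^ (1 / 4 : ℝ) * ((n : ℝ) ^ (-(3 / 4) : ℝ) * (2 : ℝ) ^ (3 / 4 : ℝ)) := by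
          rw [← e2]; exact mul_le_mul_of_nonneg_left e1 (by positivity)
      _ = 1 / R * (2 : ℝ) ^ (3 / 4 : ℝ) := by rw [← mul_assoc, e4]
      _ ≤ 1 / R * 2 := mul_le_mul_of_nonneg_left e3 (by positivity)
      _ = 2 / R := by ring
  set L := Real.log t₀ with hL
  have hLL : L₀ ≤ L := by
    rw [hL, Real.le_log_iff_exp_le ht00]; exact ht3
  have hL1 : 1 ≤ L := hL₀.trans hLL
  have hlog0 : 0 ≤ Real.log n := Real.log_nonneg hn1'
  have hlog : Real.log n ≤ 20 * L := by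
    have e1 : Real.log n = 10 * Real.log N := by
      rw [hndef]; push_cast; rw [Real.log_pow]; norm_num
    have e2 : Real.log N ≤ Real.log (t₀ ^ 2) := by
      apply Real.log_le_log (by linarith)
      nlinarith
    rw [Real.log_pow] at e2
    push_cast at e2
    rw [e1]
    linarith
  have hlog1 : 1 ≤ Real.log n := by
    have : L ≤ Real.log n := by
      rw [hL]
      apply Real.log_le_log ht00
      have : (N : ℝ) ≤ n := by exact_mod_cast hnN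
      linarith
    linarith
  have r2 : C * ((1 + Real.log n) ^ 3 * ((n : ℝ) ^ (1 / 4 : ℝ) * x ^ (-(3 / 4) : ℝ))) ≤
      2 * C * (1 + 20 * L) ^ 3 / R := by
    have e1 : (1 + Real.log n) ^ 3 ≤ (1 + 20 * L) ^ 3 :=
      pow_le_pow_left₀ (by linarith) (by linarith) 3
    calc C * ((1 + Real.log n) ^ 3 * ((n : ℝ) ^ (1 / 4 : ℝ) * x ^ (-(3 / 4) : ℝ)))
        ≤ C * ((1 + 20 * L) ^ 3 * (2 / R)) := by
          apply mul_le_mul_of_nonneg_left _ hC.le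
          exact mul_le_mul e1 r1 (by positivity) (by positivity)
      _ = _ := by ring
  -- assembly
  have hg := hgr L hLL
  have e5 : Real.log n ^ (1 / 2 - ε) ≤ (20 * L) ^ (1 / 2 - ε₁) := by
    calc Real.log n ^ (1 / 2 - ε) ≤ Real.log n ^ (1 / 2 - ε₁) :=
          Real.rpow_le_rpow_of_exponent_le hlog1 (by linarith)
      _ ≤ (20 * L) ^ (1 / 2 - ε₁) := Real.rpow_le_rpow hlog0 hlog (by linarith)
  have e6 : rexp (Real.log n ^ (1 / 2 - ε)) ≤ rexp ((20 * L) ^ (1 / 2 - ε₁)) :=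
    Real.exp_le_exp.mpr e5
  have e7 : rexp (Real.log n ^ (1 / 2 - ε)) + 2 * C * (1 + 20 * L) ^ 3 ≤ S := by
    have : rexp (L ^ (1 / 2 - ε₁ / 2)) ≤ Pool.Agent.Helper22.PSI.Psi t₀ := hΨ
    linarith
  have e8 : |S| / R - 2 * C * (1 + 20 * L) ^ 3 / R ≤ ‖b (√x)‖ := by
    set Z : ℝ := 2 * Real.sin (π * x) / R * (cexp (π * I / 4) * mainC kap x n).im with hZ
    have h1 : ‖((Z : ℝ) : ℂ)‖ = |S| / R := by rw [Complex.norm_real, Real.norm_eq_abs, m2]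
    have h2 : ‖((Z : ℝ) : ℂ)‖ - ‖b (√x)‖ ≤ ‖b (√x) - ((Z : ℝ) : ℂ)‖ := by
      rw [norm_sub_rev]; exact norm_sub_norm_le _ _
    have h3 := hf.trans r2
    linarith
  have e9 : (n : ℝ) ^ (-(1 / 2) : ℝ) = 1 / R := OmF_r n (by linarith)
  rw [e9]
  refine le_trans ?_ e8
  rw [← sub_div, one_div, inv_mul_eq_div]
  apply div_le_div_of_nonneg_right _ hR0.le
  linarith [le_abs_self S]

end Pool.Agent.Helper31.FI
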