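import Pool.Agent.Helper31.FI.VRec
import Pool.Agent.Helper31.FI.Red
import Pool.Agent.Helper31.FI.EpEst

/-!
# FI-PA: the path formula

`g = gg x F`.  `gg_inv`: from `Gen.inv` and `theta_inv`.  `gg_sub`: `F`, `θ` have period `2`,
`g (w) = g (w - 2) + ep (w - 2) - ep w`, `ep (w - 2) = exp (-2 π i x) ep w`, so `g w = g (w - 2) - mu ep w` and
`g w = g (w + 2) - conj mu ep w`.
`path`: `red_ind`; the property includes all four conclusions.  On `FD`: `w = τ`, `r = g τ`, `VS τ = ∅`, and `sr τ ∈ FD`.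
Step, `‖τ‖ < 1`: if `re τ < 0` choose `K : ℕ` with `-1 < re (-1/τ) - 2K ≤ 1`, `τ₁ = -1/τ - 2K`:
`g τ = - g (-1/τ) = mu ∑_{i<K} ep (-1/τ - 2i) - g τ₁`; `pp_neg` for `τ`, and `pp_pos` for `sr τ`, as
`-1/sr τ + 2K = sr τ₁`.  If `re τ > 0`: `τ₁ = -1/τ + 2K`, `-1 ≤ re τ₁ < 1`:
`g τ = conj mu ∑_{i<K} ep (-1/τ + 2i) - g τ₁`; `pp_pos` for `τ`, `pp_neg` for `sr τ` (with `ep_conj`).  If `re τ = 0`:
`τ₁ = -1/τ ∈ FD`, `VS_zero`.  Theta: `‖θ (-1/τ)‖⁴ im (-1/τ) = ‖θ τ‖⁴ im τ`.  Last item: `orb`.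
-/

set_option autoImplicit false

namespace Pool.Agent.Helper31.FI

open Complex Real

/-- `(F - e)/θ` -/
noncomputable def gg (x : ℝ) (F : ℂ → ℂ) (τ : ℂ) : ℂ := (F τ - ex x τ) / jacobiTheta τ

/-- the factor `1 - exp (-2 π i x)` -/
noncomputable def mu (x : ℝ) : ℂ := 1 - cexp (-(2 * π * I * x))

private theorem Path_ne {τ : ℂ} (hτ : 0 < τ.im) : τ ≠ 0 := by
  rintro rfl
  rw [zero_im] at hτ
  exact lt_irrefl _ hτ

theorem gg_inv {x : ℝ} {F : ℂ → ℂ} (hF : Gen x F) {τ : ℂ} (hτ : 0 < τ.im) :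
    gg x F (-1 / τ) = -gg x F τ := by
  have h0 : -I * τ ≠ 0 := mul_ne_zero (neg_ne_zero.2 I_ne_zero) (Path_ne hτ)
  have ha : (-I * τ) ^ (1 / 2 : ℂ) ≠ 0 := by
    rw [Complex.cpow_def_of_ne_zero h0]
    exact Complex.exp_ne_zero _
  have h1 := hF.inv τ hτ
  rw [Complex.cpow_neg] at h1
  have h2 : F (-1 / τ) - ex x (-1 / τ) = -((-I * τ) ^ (1 / 2 : ℂ) * (F τ - ex x τ)) := by
    have h3 : (-I * τ) ^ (1 / 2 : ℂ) * ((-I * τ) ^ (1 / 2 : ℂ))⁻¹ = 1 := mul_inv_cancel₀ ha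
    linear_combination (-I * τ) ^ (1 / 2 : ℂ) * h1 -
      (F (-1 / τ) - ex x (-1 / τ)) * h3
  unfold gg
  rw [h2, theta_inv hτ, neg_div, mul_div_mul_left _ _ ha]

private theorem Path_theta (w : ℂ) : jacobiTheta (w - 2) = jacobiTheta w := by
  have h1 := jacobiTheta_two_add (w - 2)
  rw [← h1]
  congr 1
  ring

private theorem Path_theta' (w : ℂ) : jacobiTheta (w + 2) = jacobiTheta w := by
  rw [add_comm, jacobiTheta_two_add]

theorem gg_sub {x : ℝ} {F : ℂ → ℂ} (hF : Gen x F) {w : ℂ} (hw : 0 < w.im) :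
    gg x F w = gg x F (w - 2) - mu x * ep x w ∧
      gg x F w = gg x F (w + 2) - (starRingEnd ℂ) (mu x) * ep x w := by
  have hF1 : F (w - 2) = F w := by
    have h1 : 0 < (w - 2).im := by simpa using hw
    have h2 := hF.per (w - 2) h1
    rw [sub_add_cancel] at h2
    exact h2.symm
  have he1 : ex x (w - 2) = cexp (-(2 * π * I * x)) * ex x w := by
    unfold ex
    rw [← Complex.exp_add]
    congr 1
    ring
  have he2 : ex x (w + 2) = cexp (2 * π * I * x) * ex x w := by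
    unfold ex
    rw [← Complex.exp_add]
    congr 1
    ring
  have hmu : (starRingEnd ℂ) (mu x) = 1 - cexp (2 * π * I * x) := by
    unfold mu
    rw [map_sub, map_one, ← Complex.exp_conj]
    congr 2
    rw [map_neg, map_mul, map_mul, map_mul, Complex.conj_ofReal, Complex.conj_ofReal,
      Complex.conj_I, map_ofNat]
    ring
  constructor
  · unfold gg ep mu
    rw [hF1, he1, Path_theta]
    ring
  · rw [hmu]
    unfold gg ep
    rw [hF.per w hw, he2, Path_theta']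
    ring

private theorem Path_im {τ : ℂ} (K : ℤ) : (-1 / τ - 2 * K).im = τ.im / ‖τ‖ ^ 2 := by
  have h1 : (2 * (K : ℂ)).im = 0 := by simp
  have h2 : (-1 / τ).im = τ.im / ‖τ‖ ^ 2 := by
    rw [neg_div, Complex.neg_im, one_div, Complex.inv_im, Complex.normSq_eq_norm_sq]
    ring
  rw [Complex.sub_im, h1, h2, sub_zero]

private theorem Path_re {τ : ℂ} : (-1 / τ).re = -τ.re / ‖τ‖ ^ 2 := by
  rw [neg_div, Complex.neg_re, one_div, Complex.inv_re, Complex.normSq_eq_norm_sq]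
  ring

private theorem Path_im_pos {τ : ℂ} (hτ : 0 < τ.im) (K : ℤ) : 0 < (-1 / τ - 2 * K).im := by
  rw [Path_im]
  have := norm_pos_iff.mpr (Path_ne hτ)
  positivity

private theorem Path_sr_im (τ : ℂ) : (sr τ).im = τ.im := by
  unfold sr
  rw [neg_im, conj_im, neg_neg]

private theorem Path_sr_re (τ : ℂ) : (sr τ).re = -τ.re := by
  unfold sr
  rw [neg_re, conj_re]

private theorem Path_sr_norm (τ : ℂ) : ‖sr τ‖ = ‖τ‖ := by
  unfold sr
  rw [norm_neg, Complex.norm_conj]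

private theorem Path_sr_sub (τ : ℂ) (k : ℝ) : -1 / sr τ + 2 * (k : ℂ) = sr (-1 / τ - 2 * (k : ℂ)) := by
  unfold sr
  rw [map_sub, map_div₀, map_neg, map_one, map_mul, Complex.conj_ofReal, map_ofNat, div_neg]
  ring

private theorem Path_sr_add (τ : ℂ) (k : ℝ) : -1 / sr τ - 2 * (k : ℂ) = sr (-1 / τ + 2 * (k : ℂ)) := by
  unfold sr
  rw [map_add, map_div₀, map_neg, map_one, map_mul, Complex.conj_ofReal, map_ofNat, div_neg]
  ring

/-- iteration of `gg_sub` -/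
private theorem Path_iter {x : ℝ} {F : ℂ → ℂ} (hF : Gen x F) {w : ℂ} (hw : 0 < w.im) (K : ℕ) :
    gg x F w = gg x F (w - 2 * (K : ℂ)) -
      mu x * ∑ i ∈ Finset.range K, ep x (w - 2 * (i : ℂ)) := by
  induction K with
  | zero => simp
  | succ K ih =>
    have h1 : 0 < (w - 2 * (K : ℂ)).im := by simpa using hw
    have h2 := (gg_sub hF h1).1
    rw [ih, h2, Finset.sum_range_succ]
    have h3 : w - 2 * (K : ℂ) - 2 = w - 2 * ((K + 1 : ℕ) : ℂ) := by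
      push_cast
      ring
    rw [h3]
    ring

private theorem Path_iter' {x : ℝ} {F : ℂ → ℂ} (hF : Gen x F) {w : ℂ} (hw : 0 < w.im) (K : ℕ) :
    gg x F w = gg x F (w + 2 * (K : ℂ)) -
      (starRingEnd ℂ) (mu x) * ∑ i ∈ Finset.range K, ep x (w + 2 * (i : ℂ)) := by
  induction K with
  | zero => simp
  | succ K ih =>
    have h1 : 0 < (w + 2 * (K : ℂ)).im := by simpa using hw
    have h2 := (gg_sub hF h1).2
    rw [ih, h2, Finset.sum_range_succ]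
    have h3 : w + 2 * (K : ℂ) + 2 = w + 2 * ((K + 1 : ℕ) : ℂ) := by
      push_cast
      ring
    rw [h3]
    ring

/-- the two sums -/
private noncomputable def Path_D (x : ℝ) (τ : ℂ) : ℂ :=
  -(mu x * PP x τ) - (starRingEnd ℂ) (mu x) * (starRingEnd ℂ) (PP x (sr τ))

private def Path_P (x : ℝ) (F : ℂ → ℂ) (τ : ℂ) : Prop :=
  ∃ w ∈ FD, ∃ r : ℂ, ‖r‖ = ‖gg x F w‖ ∧ gg x F τ = Path_D x τ + r ∧
    ‖jacobiTheta w‖ ^ 4 * w.im = ‖jacobiTheta τ‖ ^ 4 * τ.im ∧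
    ∀ p q : ℤ, (p, q) ≠ (0, 0) → ∃ p' q' : ℤ, (p', q') ≠ (0, 0) ∧
      w.im / ‖(p : ℂ) * w + q‖ ^ 2 = τ.im / ‖(p' : ℂ) * τ + q'‖ ^ 2

private theorem Path_theta_shift (w : ℂ) (K : ℤ) : jacobiTheta (w - 2 * K) = jacobiTheta w := by
  induction K using Int.induction_on with
  | zero => simp
  | succ i ih =>
    have h1 : w - 2 * (((i : ℤ) + 1 : ℤ) : ℂ) = w - 2 * ((i : ℤ) : ℂ) - 2 := by push_cast; ring
    rw [h1, Path_theta, ih]
  | pred i ih =>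
    have h1 : w - 2 * ((-(i : ℤ) - 1 : ℤ) : ℂ) = w - 2 * ((-(i : ℤ) : ℤ) : ℂ) + 2 := by
      push_cast; ring
    rw [h1, Path_theta', ih]

private theorem Path_theta_norm {τ : ℂ} (hτ : 0 < τ.im) (K : ℤ) :
    ‖jacobiTheta (-1 / τ - 2 * K)‖ ^ 4 * (-1 / τ - 2 * K).im = ‖jacobiTheta τ‖ ^ 4 * τ.im := by
  rw [Path_theta_shift, Path_im, theta_inv hτ, norm_mul]
  have h1 : ‖(-I * τ) ^ (1 / 2 : ℂ)‖ = ‖τ‖ ^ (1 / 2 : ℝ) := by
    have h2 : (1 / 2 : ℂ) = ((1 / 2 : ℝ) : ℂ) := by push_cast; rfl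
    rw [h2, Complex.norm_cpow_real]
    congr 1
    rw [norm_mul, norm_neg, Complex.norm_I, one_mul]
  have hn : 0 < ‖τ‖ := norm_pos_iff.2 (Path_ne hτ)
  have h2 : (‖τ‖ ^ (1 / 2 : ℝ)) ^ 4 = ‖τ‖ ^ 2 := by
    rw [← Real.rpow_natCast, ← Real.rpow_mul hn.le, ← Real.rpow_natCast]
    congr 1
    norm_num
  rw [h1, mul_pow, h2]
  field_simp

/-- one step -/
private theorem Path_step {x : ℝ} {F : ℂ → ℂ} {τ : ℂ} (hτ : 0 < τ.im) (K : ℤ) (S : ℂ)
    (h1 : gg x F τ = -gg x F (-1 / τ - 2 * K) + S)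
    (h2 : Path_D x τ = -Path_D x (-1 / τ - 2 * K) + S) (h : Path_P x F (-1 / τ - 2 * K)) :
    Path_P x F τ := by
  obtain ⟨w, hw, r, hr, hg, ht, ho⟩ := h
  refine ⟨w, hw, -r, by rw [norm_neg, hr], ?_, ht.trans (Path_theta_norm hτ K), ?_⟩
  · rw [h1, h2, hg]
    ring
  · intro p q hpq
    obtain ⟨p', q', h3, h4⟩ := ho p q hpq
    obtain ⟨p'', q'', h5, h6⟩ := orb hτ K p' q' h3
    exact ⟨p'', q'', h5, h4.trans h6⟩

private theorem Path_PP_zero {x : ℝ} {τ : ℂ} (h : VS τ = ∅) : PP x τ = 0 := by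
  unfold PP
  rw [h]
  exact finsum_mem_empty

private theorem Path_D_zero {x : ℝ} {τ : ℂ} (h : VS τ = ∅) (h' : VS (sr τ) = ∅) :
    Path_D x τ = 0 := by
  unfold Path_D
  rw [Path_PP_zero h, Path_PP_zero h']
  simp

private theorem Path_choose {a : ℝ} (ha : 0 < a) : ∃ K : ℕ, -1 < a - 2 * K ∧ a - 2 * K ≤ 1 := by
  refine ⟨⌈(a - 1) / 2⌉₊, ?_, ?_⟩
  · rcases le_total 0 ((a - 1) / 2) with h | h
    · have h1 := Nat.ceil_lt_add_one h
      linarith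
    · rw [Nat.ceil_eq_zero.2 h]
      push_cast
      linarith
  · have h1 := Nat.le_ceil ((a - 1) / 2)
    linarith

private theorem Path_neg {x : ℝ} {F : ℂ → ℂ} (hF : Gen x F) {τ : ℂ} (hτ : 0 < τ.im)
    (hre : τ.re < 0) (h1 : ‖τ‖ < 1)
    (ih : ∀ K : ℤ, |(-1 / τ - 2 * K).re| ≤ 1 → Path_P x F (-1 / τ - 2 * K)) :
    Path_P x F τ := by
  have hn : 0 < ‖τ‖ := norm_pos_iff.2 (Path_ne hτ)
  have ha : 0 < (-1 / τ).re := by
    rw [Path_re]
    have : 0 < -τ.re := by linarith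
    positivity
  obtain ⟨K, hK1, hK2⟩ := Path_choose ha
  have hre1 : (-1 / τ - 2 * (K : ℂ)).re = (-1 / τ).re - 2 * K := by simp
  have hsr : -1 / sr τ + 2 * (K : ℂ) = sr (-1 / τ - 2 * (K : ℂ)) := by
    have := Path_sr_sub τ K
    simpa using this
  have hpn := pp_neg x hτ hre h1 K (by rw [hre1]; exact hK1) (by rw [hre1]; exact hK2)
  have hpp := pp_pos x (τ := sr τ) (by rw [Path_sr_im]; exact hτ)
    (by rw [Path_sr_re]; linarith) (by rw [Path_sr_norm]; exact h1) K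
    (by rw [hsr, Path_sr_re, hre1]; linarith) (by rw [hsr, Path_sr_re, hre1]; linarith)
  rw [hsr] at hpp
  have hw : 0 < (-1 / τ).im := by
    have := Path_im_pos hτ 0
    simpa using this
  have hg := Path_iter hF hw K
  rw [gg_inv hF hτ] at hg
  refine Path_step hτ (K : ℤ) (mu x * ∑ i ∈ Finset.range K, ep x (-1 / τ - 2 * (i : ℂ))) ?_ ?_
    (ih K ?_)
  · rw [Int.cast_natCast]
    linear_combination -hg
  · rw [Int.cast_natCast]
    unfold Path_D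
    rw [hpn, hpp, map_neg]
    ring
  · rw [Int.cast_natCast, hre1, abs_le]
    constructor <;> linarith

private theorem Path_pos {x : ℝ} {F : ℂ → ℂ} (hF : Gen x F) {τ : ℂ} (hτ : 0 < τ.im)
    (hre : 0 < τ.re) (h1 : ‖τ‖ < 1)
    (ih : ∀ K : ℤ, |(-1 / τ - 2 * K).re| ≤ 1 → Path_P x F (-1 / τ - 2 * K)) :
    Path_P x F τ := by
  have hn : 0 < ‖τ‖ := norm_pos_iff.2 (Path_ne hτ)
  have ha : 0 < -(-1 / τ).re := by
    rw [Path_re, neg_div, neg_neg]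
    positivity
  obtain ⟨K, hK1, hK2⟩ := Path_choose ha
  have hre1 : (-1 / τ + 2 * (K : ℂ)).re = (-1 / τ).re + 2 * K := by simp
  have hsr : -1 / sr τ - 2 * (K : ℂ) = sr (-1 / τ + 2 * (K : ℂ)) := by
    have := Path_sr_add τ K
    simpa using this
  have hpp := pp_pos x hτ hre h1 K (by rw [hre1]; linarith) (by rw [hre1]; linarith)
  have hpn := pp_neg x (τ := sr τ) (by rw [Path_sr_im]; exact hτ)
    (by rw [Path_sr_re]; linarith) (by rw [Path_sr_norm]; exact h1) K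
    (by rw [hsr, Path_sr_re, hre1]; linarith) (by rw [hsr, Path_sr_re, hre1]; linarith)
  rw [hsr] at hpn
  have hw : 0 < (-1 / τ).im := by
    have := Path_im_pos hτ 0
    simpa using this
  have hg := Path_iter' hF hw K
  rw [gg_inv hF hτ] at hg
  have hcast : -1 / τ - 2 * ((-(K : ℤ) : ℤ) : ℂ) = -1 / τ + 2 * (K : ℂ) := by
    push_cast
    ring
  have hsum : (starRingEnd ℂ) (∑ i ∈ Finset.range K, ep x (-1 / sr τ - 2 * (i : ℂ))) =
      ∑ i ∈ Finset.range K, ep x (-1 / τ + 2 * (i : ℂ)) := by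
    rw [map_sum]
    refine Finset.sum_congr rfl fun i _ => ?_
    have h2 : -1 / sr τ - 2 * (i : ℂ) = sr (-1 / τ + 2 * (i : ℂ)) := by
      have := Path_sr_add τ i
      simpa using this
    have h3 : 0 < (-1 / τ + 2 * (i : ℂ)).im := by simpa using hw
    rw [h2, ep_conj x h3, Complex.conj_conj]
  refine Path_step hτ (-(K : ℤ))
    ((starRingEnd ℂ) (mu x) * ∑ i ∈ Finset.range K, ep x (-1 / τ + 2 * (i : ℂ))) ?_ ?_
    (ih (-(K : ℤ)) ?_)
  · rw [hcast]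
    linear_combination -hg
  · rw [hcast]
    unfold Path_D
    rw [hpn, hpp, map_sub, map_neg, hsum]
    ring
  · rw [hcast, hre1, abs_le]
    constructor <;> linarith

private theorem Path_zero {x : ℝ} {F : ℂ → ℂ} (hF : Gen x F) {τ : ℂ} (hτ : 0 < τ.im)
    (hre : τ.re = 0)
    (ih : ∀ K : ℤ, |(-1 / τ - 2 * K).re| ≤ 1 → Path_P x F (-1 / τ - 2 * K)) :
    Path_P x F τ := by
  have hre1 : (-1 / τ - 2 * ((0 : ℤ) : ℂ)).re = 0 := by
    have h2 : (-1 / τ).re = 0 := by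
      rw [Path_re, hre, neg_zero, zero_div]
    simpa using h2
  have hpos := Path_im_pos hτ 0
  refine Path_step hτ 0 0 ?_ ?_ (ih 0 ?_)
  · have h2 : -1 / τ - 2 * ((0 : ℤ) : ℂ) = -1 / τ := by simp
    rw [h2, gg_inv hF hτ]
    ring
  · rw [Path_D_zero (VS_zero hτ hre) (VS_zero (by rw [Path_sr_im]; exact hτ)
      (by rw [Path_sr_re, hre, neg_zero])), Path_D_zero (VS_zero hpos hre1)
      (VS_zero (by rw [Path_sr_im]; exact hpos) (by rw [Path_sr_re, hre1, neg_zero]))]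
    ring
  · rw [hre1, abs_zero]
    exact zero_le_one

theorem path {x : ℝ} {F : ℂ → ℂ} (hF : Gen x F) {τ : ℂ} (hτ : 0 < τ.im) (hre : |τ.re| ≤ 1) :
    ∃ w ∈ FD, ∃ r : ℂ, ‖r‖ = ‖gg x F w‖ ∧
      gg x F τ = -(mu x * PP x τ) - (starRingEnd ℂ) (mu x) * (starRingEnd ℂ) (PP x (sr τ)) + r ∧
      ‖jacobiTheta w‖ ^ 4 * w.im = ‖jacobiTheta τ‖ ^ 4 * τ.im ∧
      ∀ p q : ℤ, (p, q) ≠ (0, 0) → ∃ p' q' : ℤ, (p', q') ≠ (0, 0) ∧
        w.im / ‖(p : ℂ) * w + q‖ ^ 2 = τ.im / ‖(p' : ℂ) * τ + q'‖ ^ 2 := by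
  have h : Path_P x F τ := by
    refine red_ind (Path_P x F) ?_ ?_ τ hτ hre
    · intro τ hτ
      have hsr : sr τ ∈ FD :=
        ⟨by rw [Path_sr_im]; exact hτ.1, by rw [Path_sr_re, abs_neg]; exact hτ.2.1,
          by rw [Path_sr_norm]; exact hτ.2.2⟩
      refine ⟨τ, hτ, gg x F τ, rfl, ?_, rfl, fun p q hpq => ⟨p, q, hpq, rfl⟩⟩
      rw [Path_D_zero (VS_FD hτ) (VS_FD hsr), zero_add]
    · intro τ hτ _ h1 ih
      rcases lt_trichotomy τ.re 0 with h2 | h2 | h2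
      · exact Path_neg hF hτ h2 h1 ih
      · exact Path_zero hF hτ h2 ih
      · exact Path_pos hF hτ h2 h1 ih
  exact h

end Pool.Agent.Helper31.FI
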