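import Pool.Agent.Helper31.FI.Rows
import Pool.Agent.Helper31.FI.ThNe

/-!
# FI-PS: the cocycle

Definition by recursion on `|c|`: `Ψ 0 d = 0`; for `c ≠ 0` and a row `(c, d)` there is a unique `k` with `r = d - 2 k c`, `|r| < |c|`
(opposite parity, so `|r| ≠ |c|`; if `(c,d)` is not a row put `Ψ = 0`), and
`Ψ c d τ = - rh x (τ + 2k) - Ψ (-r) c (-1/(τ + 2k))`.
* sign: `Ψ (-c) (-d) = Ψ c d` by induction (same `k`).
* first relation: `(c, d + 2c)` has `k + 1`.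
* second relation: if `|c| < |d|` then `(d, -c)` has `k = 0`, `r = -c`; if `|c| > |d|` use the first case for
  `(-d, c)`, i.e. `Ψ c d (-1/τ) = - rh x (-1/τ) - Ψ (-d) c τ`, `rh x (-1/τ) = rh x τ` and the sign rule (`|c| = |d|` is impossible for a row).
* bound, by induction: with `τ' = τ + 2k` (same family `im/|pτ+q|²`):
  `(im τ')^(1/4) |θ rh| ≤ (im τ')^(1/4) + (im (-1/τ'))^(1/4) ≤ 2 m^(1/4)` because `|θ(τ') ep (-1/τ')| = |τ'|^(-1/2) |e|`, and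
  `(im τ')^(1/4) |θ τ'| = (im (-1/τ'))^(1/4) |θ (-1/τ')|`.
-/

set_option autoImplicit false

namespace Pool.Agent.Helper31.FI

open Complex Real

/-- `ep τ + ep (-1/τ)` -/
noncomputable def rh (x : ℝ) (τ : ℂ) : ℂ := ep x τ + ep x (-1 / τ)

/-- all heights of `τ` are at most `m` -/
def Hm (m : ℝ) (τ : ℂ) : Prop :=
  0 < τ.im ∧ ∀ p q : ℤ, (p, q) ≠ (0, 0) → τ.im / ‖(p : ℂ) * τ + q‖ ^ 2 ≤ m

private theorem Psi_im_T (τ : ℂ) (k : ℤ) : (τ + 2 * (k : ℂ)).im = τ.im := by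
  simp

private theorem Psi_ne {τ : ℂ} (h : 0 < τ.im) : τ ≠ 0 := by
  rintro rfl
  simp at h

private theorem Psi_im_S (τ : ℂ) : (-1 / τ).im = τ.im / ‖τ‖ ^ 2 := by
  rw [← Complex.normSq_eq_norm_sq, neg_div, one_div, Complex.neg_im, Complex.inv_im]
  ring

private theorem Psi_im_S_pos {τ : ℂ} (h : 0 < τ.im) : 0 < (-1 / τ).im := by
  rw [Psi_im_S]
  have h1 : 0 < ‖τ‖ := norm_pos_iff.2 (Psi_ne h)
  positivity

private theorem Psi_invol {τ : ℂ} (h : 0 < τ.im) : -1 / (-1 / τ) = τ := by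
  have h1 := Psi_ne h
  field_simp

theorem Hm_T {m : ℝ} {τ : ℂ} (h : Hm m τ) (k : ℤ) : Hm m (τ + 2 * k) := by
  obtain ⟨h0, h1⟩ := h
  refine ⟨by rwa [Psi_im_T], fun p q hpq => ?_⟩
  have h2 := h1 p (q + 2 * k * p) (by
    intro he
    apply hpq
    rw [Prod.mk.injEq] at he ⊢
    obtain ⟨rfl, h3⟩ := he
    exact ⟨rfl, by simpa using h3⟩)
  rw [Psi_im_T]
  have e : (p : ℂ) * (τ + 2 * k) + q = (p : ℂ) * τ + ((q + 2 * k * p : ℤ) : ℂ) := by
    push_cast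
    ring
  rw [e]
  exact h2

theorem Hm_S {m : ℝ} {τ : ℂ} (h : Hm m τ) : Hm m (-1 / τ) := by
  obtain ⟨h0, h1⟩ := h
  refine ⟨Psi_im_S_pos h0, fun p q hpq => ?_⟩
  have h2 := h1 q (-p) (by
    intro he
    apply hpq
    rw [Prod.mk.injEq] at he ⊢
    exact ⟨neg_eq_zero.1 he.2, he.1⟩)
  have hne := Psi_ne h0
  have hn : 0 < ‖τ‖ := norm_pos_iff.2 hne
  have e : (p : ℂ) * (-1 / τ) + q = ((q : ℂ) * τ + ((-p : ℤ) : ℂ)) / τ := by
    push_cast
    field_simp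
    ring
  rw [e, norm_div, Psi_im_S, div_pow, div_div_div_cancel_right₀ (by positivity)]
  exact h2

theorem Hm_max {τ : ℂ} (h : 0 < τ.im) : Hm (max τ.im (1 / τ.im)) τ := by
  refine ⟨h, fun p q hpq => ?_⟩
  rcases eq_or_ne p 0 with rfl | hp
  · refine le_max_of_le_left ?_
    have hq : q ≠ 0 := by
      rintro rfl
      exact hpq rfl
    have hq1 : (1 : ℝ) ≤ |(q : ℝ)| := by
      rw [← Int.cast_abs]
      exact_mod_cast Int.one_le_abs hq
    have e : ((0 : ℤ) : ℂ) * τ + q = ((q : ℝ) : ℂ) := by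
      push_cast
      ring
    rw [e, Complex.norm_real, Real.norm_eq_abs]
    exact div_le_self h.le (one_le_pow₀ hq1)
  · refine le_max_of_le_right ?_
    have hp1 : (1 : ℝ) ≤ |(p : ℝ)| := by
      rw [← Int.cast_abs]
      exact_mod_cast Int.one_le_abs hp
    have him : ((p : ℂ) * τ + q).im = p * τ.im := by simp
    have h2 : τ.im ≤ ‖(p : ℂ) * τ + q‖ := by
      refine le_trans ?_ (Complex.abs_im_le_norm _)
      rw [him, abs_mul, abs_of_pos h]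
      nlinarith
    have h3 : τ.im ^ 2 ≤ ‖(p : ℂ) * τ + q‖ ^ 2 := pow_le_pow_left₀ h.le h2 2
    have h4 : 0 < ‖(p : ℂ) * τ + q‖ := lt_of_lt_of_le h h2
    rw [div_le_div_iff₀ (pow_pos h4 2) h]
    nlinarith

private theorem Psi_norm_theta {τ : ℂ} (h : 0 < τ.im) :
    ‖jacobiTheta (-1 / τ)‖ = ‖τ‖ ^ (1 / 2 : ℝ) * ‖jacobiTheta τ‖ := by
  rw [theta_inv h, norm_mul]
  congr 1
  have h1 : -I * τ ≠ 0 := mul_ne_zero (neg_ne_zero.2 I_ne_zero) (Psi_ne h)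
  have h2 : (1 / 2 : ℂ) = ((1 / 2 : ℝ) : ℂ) := by norm_num
  rw [h2, Complex.norm_cpow_real, norm_mul, norm_neg, Complex.norm_I, one_mul]

/-- `(im τ)^(1/4) |θ τ|` is invariant under `τ ↦ -1/τ` -/
private theorem Psi_inv_S {τ : ℂ} (h : 0 < τ.im) :
    (-1 / τ).im ^ (1 / 4 : ℝ) * ‖jacobiTheta (-1 / τ)‖ = τ.im ^ (1 / 4 : ℝ) * ‖jacobiTheta τ‖ := by
  have hn : 0 < ‖τ‖ := norm_pos_iff.2 (Psi_ne h)
  rw [Psi_norm_theta h, Psi_im_S, Real.div_rpow h.le (by positivity)]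
  have e : (‖τ‖ ^ 2) ^ (1 / 4 : ℝ) = ‖τ‖ ^ (1 / 2 : ℝ) := by
    rw [← Real.rpow_natCast, ← Real.rpow_mul hn.le]
    norm_num
  rw [e]
  have h3 : 0 < ‖τ‖ ^ (1 / 2 : ℝ) := Real.rpow_pos_of_pos hn _
  field_simp

private theorem Psi_norm_ex {x : ℝ} (hx : 0 ≤ x) {τ : ℂ} (h : 0 < τ.im) : ‖ex x τ‖ ≤ 1 := by
  unfold ex
  rw [Complex.norm_exp, Real.exp_le_one_iff]
  have e : (π * I * x * τ).re = -(π * x * τ.im) := by
    simp
  rw [e]
  have := Real.pi_pos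
  have h2 : 0 ≤ π * x * τ.im := by positivity
  linarith

private theorem Psi_theta_ep {x : ℝ} {τ : ℂ} (h : 0 < τ.im) :
    jacobiTheta τ * ep x τ = ex x τ := by
  unfold ep
  rw [mul_div_cancel₀]
  exact theta_ne h

theorem rh_bound {x : ℝ} (hx : 0 ≤ x) {m : ℝ} {τ : ℂ} (h : Hm m τ) :
    τ.im ^ (1 / 4 : ℝ) * ‖jacobiTheta τ * rh x τ‖ ≤ 2 * m ^ (1 / 4 : ℝ) := by
  obtain ⟨h0, h1⟩ := h
  have hS := Psi_im_S_pos h0
  have m1 : τ.im ≤ m := by
    have h2 := h1 0 1 (by simp)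
    simpa using h2
  have m2 : (-1 / τ).im ≤ m := by
    have h2 := h1 1 0 (by simp)
    rw [Psi_im_S]
    simpa using h2
  have hp1 : 0 ≤ τ.im ^ (1 / 4 : ℝ) := Real.rpow_nonneg h0.le _
  have hp2 : 0 ≤ (-1 / τ).im ^ (1 / 4 : ℝ) := Real.rpow_nonneg hS.le _
  have b1 : τ.im ^ (1 / 4 : ℝ) * ‖jacobiTheta τ * ep x τ‖ ≤ m ^ (1 / 4 : ℝ) := by
    rw [Psi_theta_ep h0]
    calc τ.im ^ (1 / 4 : ℝ) * ‖ex x τ‖ ≤ τ.im ^ (1 / 4 : ℝ) * 1 :=
          mul_le_mul_of_nonneg_left (Psi_norm_ex hx h0) hp1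
      _ ≤ m ^ (1 / 4 : ℝ) := by
          rw [mul_one]
          exact Real.rpow_le_rpow h0.le m1 (by norm_num)
  have b2 : τ.im ^ (1 / 4 : ℝ) * ‖jacobiTheta τ * ep x (-1 / τ)‖ ≤ m ^ (1 / 4 : ℝ) := by
    rw [norm_mul, ← mul_assoc, ← Psi_inv_S h0, mul_assoc, ← norm_mul, Psi_theta_ep hS]
    calc (-1 / τ).im ^ (1 / 4 : ℝ) * ‖ex x (-1 / τ)‖ ≤ (-1 / τ).im ^ (1 / 4 : ℝ) * 1 :=
          mul_le_mul_of_nonneg_left (Psi_norm_ex hx hS) hp2
      _ ≤ m ^ (1 / 4 : ℝ) := by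
          rw [mul_one]
          exact Real.rpow_le_rpow hS.le m2 (by norm_num)
  unfold rh
  rw [mul_add]
  calc τ.im ^ (1 / 4 : ℝ) * ‖jacobiTheta τ * ep x τ + jacobiTheta τ * ep x (-1 / τ)‖
      ≤ τ.im ^ (1 / 4 : ℝ) * (‖jacobiTheta τ * ep x τ‖ + ‖jacobiTheta τ * ep x (-1 / τ)‖) :=
        mul_le_mul_of_nonneg_left (norm_add_le _ _) hp1
    _ ≤ 2 * m ^ (1 / 4 : ℝ) := by
        rw [mul_add]
        linarith

/-- the shift -/
private def Psi_k (c d : ℤ) : ℤ := (d + |c|) / (2 * c)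

private theorem Psi_k_le {c d : ℤ} (hc : c ≠ 0) : |d - 2 * Psi_k c d * c| ≤ |c| := by
  have h1 := Int.mul_ediv_add_emod (d + |c|) (2 * c)
  have h2 := Int.emod_nonneg (d + |c|) (b := 2 * c) (by omega)
  have h3 := Int.emod_lt_abs (d + |c|) (b := 2 * c) (by omega)
  rw [abs_mul, abs_two] at h3
  have e : d - 2 * Psi_k c d * c = (d + |c|) % (2 * c) - |c| := by
    unfold Psi_k
    linarith
  rw [e, abs_le]
  constructor <;> linarith

private theorem Psi_row_r {c d : ℤ} (h : Row c d) (k : ℤ) : Row c (d - 2 * k * c) := by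
  obtain ⟨⟨a, b, hab⟩, ho⟩ := h
  refine ⟨⟨a + 2 * k * b, b, by linear_combination hab⟩, ?_⟩
  have e : c + (d - 2 * k * c) = (c + d) - 2 * (k * c) := by ring
  rw [e]
  exact ho.sub_even (even_two_mul _)

private theorem Psi_row_ne {c d : ℤ} (h : Row c d) : |d| ≠ |c| := by
  intro he
  obtain ⟨-, ho⟩ := h
  rcases abs_eq_abs.1 he with rfl | rfl
  · rw [← two_mul] at ho
    exact (Int.not_odd_iff_even.2 (even_two_mul _)) ho
  · simp at ho

private theorem Psi_k_lt {c d : ℤ} (hc : c ≠ 0) (h : Row c d) :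
    |d - 2 * Psi_k c d * c| < |c| :=
  lt_of_le_of_ne (Psi_k_le hc) (Psi_row_ne (Psi_row_r h _))

private theorem Psi_k_unique {c d k : ℤ} (h : Row c d) (hk : |d - 2 * k * c| < |c|) :
    Psi_k c d = k := by
  have hc : c ≠ 0 := by
    rintro rfl
    rw [abs_zero] at hk
    exact absurd hk (not_lt.2 (abs_nonneg _))
  have h1 := Psi_k_lt hc h
  by_contra hne
  have h2 : |2 * (Psi_k c d - k) * c| < 2 * |c| := by
    have e : 2 * (Psi_k c d - k) * c = (d - 2 * k * c) - (d - 2 * Psi_k c d * c) := by ring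
    rw [e]
    calc |(d - 2 * k * c) - (d - 2 * Psi_k c d * c)|
        ≤ |d - 2 * k * c| + |d - 2 * Psi_k c d * c| := abs_sub _ _
      _ < 2 * |c| := by linarith
  rw [abs_mul, abs_mul, abs_two] at h2
  have h3 : 1 ≤ |Psi_k c d - k| := Int.one_le_abs (sub_ne_zero.2 hne)
  have h4 : 0 < |c| := abs_pos.2 hc
  nlinarith

/-- the cocycle -/
private noncomputable def Psi_f (x : ℝ) (c d : ℤ) (τ : ℂ) : ℂ :=
  if _h : |d - 2 * Psi_k c d * c| < |c| then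
    -rh x (τ + 2 * (Psi_k c d : ℂ)) -
      Psi_f x (-(d - 2 * Psi_k c d * c)) c (-1 / (τ + 2 * (Psi_k c d : ℂ)))
  else 0
termination_by c.natAbs
decreasing_by
  rw [Int.natAbs_neg]
  zify
  exact _h

private theorem Psi_f_zero (x : ℝ) (d : ℤ) (τ : ℂ) : Psi_f x 0 d τ = 0 := by
  rw [Psi_f, dif_neg]
  rw [abs_zero]
  exact not_lt.2 (abs_nonneg _)

private theorem Psi_f_step (x : ℝ) {c d k : ℤ} (h : Row c d) (hk : |d - 2 * k * c| < |c|)
    (τ : ℂ) : Psi_f x c d τ =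
      -rh x (τ + 2 * (k : ℂ)) - Psi_f x (-(d - 2 * k * c)) c (-1 / (τ + 2 * (k : ℂ))) := by
  have hkk := Psi_k_unique h hk
  rw [Psi_f, dif_pos (by rw [hkk]; exact hk), hkk]

private theorem Psi_row_next {c d : ℤ} (h : Row c d) (k : ℤ) : Row (-(d - 2 * k * c)) c := by
  have h1 := Psi_row_r h k
  rw [← row_S, neg_neg]
  exact h1

private theorem Psi_row_neg {c d : ℤ} (h : Row c d) : Row (-c) (-d) := by
  obtain ⟨h1, h2⟩ := h
  refine ⟨h1.neg_neg, ?_⟩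
  rw [← neg_add]
  exact h2.neg

/-- induction along the recursion -/
private theorem Psi_ind {p : ℤ → ℤ → Prop} (h0 : ∀ d, Row 0 d → p 0 d)
    (h1 : ∀ c d k, Row c d → |d - 2 * k * c| < |c| → p (-(d - 2 * k * c)) c → p c d) :
    ∀ c d, Row c d → p c d := by
  have key : ∀ n : ℕ, ∀ c d : ℤ, c.natAbs = n → Row c d → p c d := by
    intro n
    induction n using Nat.strong_induction_on with
    | _ n ih =>
      intro c d hn hr
      rcases eq_or_ne c 0 with rfl | hc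
      · exact h0 d hr
      · have hk := Psi_k_lt hc hr
        refine h1 c d _ hr hk (ih _ ?_ _ _ rfl (Psi_row_next hr _))
        rw [← hn, Int.natAbs_neg]
        zify
        exact hk
  exact fun c d hr => key _ c d rfl hr

private theorem Psi_f_neg (x : ℝ) (c d : ℤ) (h : Row c d) :
    ∀ τ, Psi_f x (-c) (-d) τ = Psi_f x c d τ := by
  refine Psi_ind (p := fun c d => ∀ τ, Psi_f x (-c) (-d) τ = Psi_f x c d τ) ?_ ?_ c d h
  · intro d _ τ
    rw [neg_zero, Psi_f_zero, Psi_f_zero]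
  · intro c d k hr hk ih τ
    have e : -d - 2 * k * -c = -(d - 2 * k * c) := by ring
    rw [Psi_f_step x hr hk, Psi_f_step x (Psi_row_neg hr) (k := k) (by rw [e, abs_neg, abs_neg]; exact hk),
      e, ih]

private theorem Psi_rh_S (x : ℝ) {τ : ℂ} (h : 0 < τ.im) : rh x (-1 / τ) = rh x τ := by
  unfold rh
  rw [Psi_invol h, add_comm]

private theorem Psi_theta_T (τ : ℂ) (k : ℤ) : jacobiTheta (τ + 2 * (k : ℂ)) = jacobiTheta τ := by
  have h1 : ∀ (n : ℕ) (τ : ℂ), jacobiTheta (τ + 2 * (n : ℂ)) = jacobiTheta τ := by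
    intro n
    induction n with
    | zero => intro τ; simp
    | succ n ih =>
      intro τ
      have e : τ + 2 * ((n + 1 : ℕ) : ℂ) = 2 + (τ + 2 * (n : ℂ)) := by
        push_cast
        ring
      rw [e, jacobiTheta_two_add, ih]
  rcases Int.eq_nat_or_neg k with ⟨n, rfl | rfl⟩
  · exact_mod_cast h1 n τ
  · have h2 := h1 n (τ + 2 * ((-(n : ℤ) : ℤ) : ℂ))
    rw [← h2]
    congr 1
    push_cast
    ring

theorem psi_exists {x : ℝ} (hx : 0 ≤ x) : ∃ Ψ : ℤ → ℤ → ℂ → ℂ,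
    (∀ d : ℤ, ∀ τ : ℂ, Ψ 0 d τ = 0) ∧
    (∀ c d : ℤ, Row c d → ∀ τ : ℂ, 0 < τ.im → Ψ c (d + 2 * c) τ = Ψ c d (τ + 2)) ∧
    (∀ c d : ℤ, Row c d → ∀ τ : ℂ, 0 < τ.im → Ψ d (-c) τ = -rh x τ - Ψ c d (-1 / τ)) ∧
    (∀ c d : ℤ, Row c d → DifferentiableOn ℂ (Ψ c d) {τ : ℂ | 0 < τ.im}) ∧
    (∀ c d : ℤ, Row c d → ∀ (m : ℝ) (τ : ℂ), Hm m τ →
      τ.im ^ (1 / 4 : ℝ) * ‖jacobiTheta τ * Ψ c d τ‖ ≤ 2 * |(c : ℝ)| * m ^ (1 / 4 : ℝ)) := by
  refine ⟨Psi_f x, Psi_f_zero x, ?_, ?_, ?_, ?_⟩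
  · intro c d hr τ _
    rcases eq_or_ne c 0 with rfl | hc
    · rw [Psi_f_zero, Psi_f_zero]
    · have hk := Psi_k_lt hc hr
      have e : d + 2 * c - 2 * (Psi_k c d + 1) * c = d - 2 * Psi_k c d * c := by ring
      rw [Psi_f_step x hr hk, Psi_f_step x (row_T.2 hr) (k := Psi_k c d + 1) (by rw [e]; exact hk), e]
      have e2 : τ + 2 * ((Psi_k c d + 1 : ℤ) : ℂ) = τ + 2 + 2 * (Psi_k c d : ℂ) := by
        push_cast
        ring
      rw [e2]
  · intro c d hr τ hτ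
    have hr' : Row d (-c) := row_S.2 hr
    rcases lt_trichotomy |c| |d| with h | h | h
    · rw [Psi_f_step x hr' (k := 0) (by simpa using h)]
      simp
    · exact absurd h.symm (Psi_row_ne hr)
    · rw [Psi_f_step x hr (k := 0) (by simpa using h)]
      have h2 := Psi_f_neg x _ _ hr' τ
      rw [neg_neg] at h2
      simp only [Int.cast_zero, mul_zero, add_zero, zero_mul, sub_zero]
      rw [Psi_invol hτ, h2, Psi_rh_S x hτ]
      ring
  · refine Psi_ind (p := fun c d => DifferentiableOn ℂ (Psi_f x c d) {τ : ℂ | 0 < τ.im}) ?_ ?_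
    · intro d _
      exact (differentiableOn_const 0).congr fun τ _ => Psi_f_zero x d τ
    · intro c d k hr hk ih
      have hT : DifferentiableOn ℂ (fun τ : ℂ => τ + 2 * (k : ℂ)) {τ : ℂ | 0 < τ.im} := by
        fun_prop
      have hmT : Set.MapsTo (fun τ : ℂ => τ + 2 * (k : ℂ)) {τ : ℂ | 0 < τ.im}
          {τ : ℂ | 0 < τ.im} := fun τ hτ => by
        show 0 < (τ + 2 * (k : ℂ)).im
        rw [Psi_im_T]
        exact hτ
      have hS : DifferentiableOn ℂ (fun τ : ℂ => -1 / τ) {τ : ℂ | 0 < τ.im} := by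
        intro τ hτ
        have hne : τ ≠ 0 := Psi_ne hτ
        exact ((differentiableAt_const (-1 : ℂ)).div (differentiableAt_fun_id) hne).differentiableWithinAt
      have hmS : Set.MapsTo (fun τ : ℂ => -1 / τ) {τ : ℂ | 0 < τ.im}
          {τ : ℂ | 0 < τ.im} := fun τ hτ => Psi_im_S_pos hτ
      have hep : DifferentiableOn ℂ (ep x) {τ : ℂ | 0 < τ.im} := fun τ hτ =>
        (differentiableAt_ep x hτ).differentiableWithinAt
      have hrh : DifferentiableOn ℂ (rh x) {τ : ℂ | 0 < τ.im} := hep.add (hep.comp hS hmS)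
      have h1 : DifferentiableOn ℂ (fun τ : ℂ => -rh x (τ + 2 * (k : ℂ)) -
          Psi_f x (-(d - 2 * k * c)) c (-1 / (τ + 2 * (k : ℂ)))) {τ : ℂ | 0 < τ.im} :=
        (hrh.comp hT hmT).neg.sub (ih.comp (hS.comp hT hmT) (hmS.comp hmT))
      exact h1.congr fun τ _ => Psi_f_step x hr hk τ
  · refine Psi_ind (p := fun c d => ∀ (m : ℝ) (τ : ℂ), Hm m τ →
      τ.im ^ (1 / 4 : ℝ) * ‖jacobiTheta τ * Psi_f x c d τ‖ ≤ 2 * |(c : ℝ)| * m ^ (1 / 4 : ℝ)) ?_ ?_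
    · intro d _ m τ _
      rw [Psi_f_zero]
      simp
    · intro c d k hr hk ih m τ hm
      rw [Psi_f_step x hr hk]
      have hm' := Hm_T hm k
      set τ' := τ + 2 * (k : ℂ) with hτ'
      have him : τ.im = τ'.im := (Psi_im_T τ k).symm
      have hth : jacobiTheta τ = jacobiTheta τ' := (Psi_theta_T τ k).symm
      rw [him, hth]
      have h0 : 0 < τ'.im := hm'.1
      have b1 := rh_bound hx hm'
      have b2 := ih m (-1 / τ') (Hm_S hm')
      rw [norm_mul, ← mul_assoc, Psi_inv_S h0, mul_assoc, ← norm_mul] at b2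
      have hm0 : 0 ≤ m ^ (1 / 4 : ℝ) := by
        have h2 : (0 : ℝ) ≤ m := by
          have h3 := hm'.2 1 0 (by simp)
          exact le_trans (by positivity) h3
        exact Real.rpow_nonneg h2 _
      have hc1 : |((-(d - 2 * k * c) : ℤ) : ℝ)| + 1 ≤ |(c : ℝ)| := by
        rw [← Int.cast_abs, ← Int.cast_abs, abs_neg]
        exact_mod_cast hk
      have hp1 : 0 ≤ τ'.im ^ (1 / 4 : ℝ) := Real.rpow_nonneg h0.le _
      set A := Psi_f x (-(d - 2 * k * c)) c (-1 / τ') with hA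
      have e : jacobiTheta τ' * (-rh x τ' - A) =
          -(jacobiTheta τ' * rh x τ') - jacobiTheta τ' * A := by ring
      rw [e]
      calc τ'.im ^ (1 / 4 : ℝ) * ‖-(jacobiTheta τ' * rh x τ') - jacobiTheta τ' * A‖
          ≤ τ'.im ^ (1 / 4 : ℝ) * (‖jacobiTheta τ' * rh x τ'‖ + ‖jacobiTheta τ' * A‖) := by
            refine mul_le_mul_of_nonneg_left ((norm_sub_le _ _).trans ?_) hp1
            rw [norm_neg]
        _ ≤ 2 * m ^ (1 / 4 : ℝ) +
            2 * |((-(d - 2 * k * c) : ℤ) : ℝ)| * m ^ (1 / 4 : ℝ) := by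
            rw [mul_add]
            exact add_le_add b1 b2
        _ ≤ 2 * |(c : ℝ)| * m ^ (1 / 4 : ℝ) := by
            nlinarith

end Pool.Agent.Helper31.FI
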