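import Pool.Agent.Helper31.FI.Defs

/-!
# FI-RI: integral of the majorant of the remainder

`bq` is a majorant of `R^(-1/2) exp (-c x/ max (R^(-2)) √x)`, `R² = n (p u + q)² + p²/n`.  For fixed `p ≥ 1`, `q` substitute
`t = √n (p u + q)`, `du = dt/(p √n)`; there are `2 p + 3 ≤ 5 p` values of `q`.  So
`∫ RB ≤ 5 ∑_p n^(-1/2) (p/√n)^(-1/4) (exp (-c x p²/n) ∫ |t|^(-1/4) exp (-c x t²) dt + 1_{p² ≤ 2n} exp (-c √x) ∫_{t² ≤ 2} |t|^(-1/4) dt)`.
`∫ |t|^(-1/4) exp (-c x t²) dt = C x^(-3/8)` (scaling), `∑_p n^(-1/2) (p/√n)^(-1/4) exp (-c x p²/n) ≤ ∫_0^∞ s^(-1/4) exp (-c x s²) ds` (decreasing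
function), `∑_{p² ≤ 2n} n^(-1/2) (p/√n)^(-1/4) ≤ C`, `exp (-c √x) ≤ C x^(-3/4)`.
-/

set_option autoImplicit false

namespace Pool.Agent.Helper31.FI

open Complex Real Finset MeasureTheory

open Classical in
/-- one term of the majorant -/
noncomputable def bq (c x : ℝ) (n : ℕ) (p q : ℤ) (u : ℝ) : ℝ :=
  (|√n * (p * u + q)| * (p / √n)) ^ (-(1 / 4) : ℝ) *
    (rexp (-(c * x * (n * (p * u + q) ^ 2)) - c * x * (p ^ 2 / n)) +
      if n * (p * u + q) ^ 2 ≤ 2 ∧ (p : ℝ) ^ 2 ≤ 2 * n then rexp (-(c * √x)) else 0)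

/-- the majorant -/
noncomputable def RB (c x : ℝ) (n : ℕ) (u : ℝ) : ℝ :=
  ∑ p ∈ Icc (1 : ℤ) (2 * n), ∑ q ∈ Icc (-p - 1) (p + 1), bq c x n p q u

private noncomputable def RInt_G : ℝ := 1 / 2 * Real.Gamma (3 / 8)

private theorem RInt_G_pos : 0 < RInt_G := by
  have h : 0 < Real.Gamma (3 / 8) := Real.Gamma_pos_of_pos (by norm_num)
  unfold RInt_G
  positivity

private theorem RInt_f {b : ℝ} (hb : 0 < b) :
    ∫ x in Set.Ioi (0 : ℝ), x ^ (-(1 / 4) : ℝ) * rexp (-(b * x ^ 2)) =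
      b ^ (-(3 / 8) : ℝ) * RInt_G := by
  have h := integral_rpow_mul_exp_neg_mul_rpow (p := 2) (q := -(1 / 4)) (b := b) two_pos
    (by norm_num) hb
  rw [show (-(-(1 / 4 : ℝ) + 1) / 2) = -(3 / 8) by norm_num,
    show (-(1 / 4 : ℝ) + 1) / 2 = 3 / 8 by norm_num] at h
  rw [RInt_G, ← mul_assoc, ← h]
  refine setIntegral_congr_fun measurableSet_Ioi fun x hx => ?_
  simp only [Real.rpow_two, neg_mul]

private theorem RInt_fi {b : ℝ} (hb : 0 < b) :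
    IntegrableOn (fun x : ℝ => x ^ (-(1 / 4) : ℝ) * rexp (-(b * x ^ 2))) (Set.Ioi 0) := by
  have h := integrableOn_rpow_mul_exp_neg_mul_sq hb (s := -(1 / 4)) (by norm_num)
  simpa only [neg_mul] using h

private theorem RInt_abs {b : ℝ} (hb : 0 < b) :
    ∫ t : ℝ, |t| ^ (-(1 / 4) : ℝ) * rexp (-(b * t ^ 2)) = 2 * (b ^ (-(3 / 8) : ℝ) * RInt_G) := by
  have h := integral_comp_abs (f := fun x : ℝ => x ^ (-(1 / 4) : ℝ) * rexp (-(b * x ^ 2)))
  rw [RInt_f hb] at h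
  rw [← h]
  simp only [sq_abs]

private theorem RInt_absi {b : ℝ} (hb : 0 < b) :
    Integrable fun t : ℝ => |t| ^ (-(1 / 4) : ℝ) * rexp (-(b * t ^ 2)) := by
  refine Integrable.of_integral_ne_zero ?_
  rw [RInt_abs hb]
  have := RInt_G_pos
  positivity

private theorem RInt_riem {b h : ℝ} (hb : 0 < b) (hh : 0 < h) (N : ℕ) :
    ∑ k ∈ range N, h * ((((k + 1 : ℕ) : ℝ) * h) ^ (-(1 / 4) : ℝ) *
      rexp (-(b * (((k + 1 : ℕ) : ℝ) * h) ^ 2))) ≤ b ^ (-(3 / 8) : ℝ) * RInt_G := by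
  set f : ℝ → ℝ := fun x => x ^ (-(1 / 4) : ℝ) * rexp (-(b * x ^ 2)) with hf
  have hfi : IntegrableOn f (Set.Ioi 0) := RInt_fi hb
  have hle : ∀ k : ℕ, (k : ℝ) * h ≤ ((k + 1 : ℕ) : ℝ) * h := fun k => by
    push_cast
    nlinarith
  have hsub : ∀ k : ℕ, Set.Ioc ((k : ℝ) * h) (((k + 1 : ℕ) : ℝ) * h) ⊆ Set.Ioi 0 :=
    fun k x hx => lt_of_le_of_lt (by positivity) hx.1
  have hii : ∀ k : ℕ, IntervalIntegrable f volume ((k : ℝ) * h) (((k + 1 : ℕ) : ℝ) * h) := by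
    intro k
    rw [intervalIntegrable_iff_integrableOn_Ioc_of_le (hle k)]
    exact hfi.mono_set (hsub k)
  have h1 : ∀ k ∈ range N, h * f (((k + 1 : ℕ) : ℝ) * h) ≤
      ∫ x in ((k : ℝ) * h)..(((k + 1 : ℕ) : ℝ) * h), f x := by
    intro k _
    have h2 : ∫ x in ((k : ℝ) * h)..(((k + 1 : ℕ) : ℝ) * h), f (((k + 1 : ℕ) : ℝ) * h) =
        h * f (((k + 1 : ℕ) : ℝ) * h) := by
      rw [intervalIntegral.integral_const, smul_eq_mul]
      push_cast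
      ring
    rw [← h2, intervalIntegral.integral_of_le (hle k), intervalIntegral.integral_of_le (hle k)]
    refine setIntegral_mono_on ?_ (hfi.mono_set (hsub k)) measurableSet_Ioc ?_
    · exact integrableOn_const (by simp)
    · intro x hx
      have hx0 : 0 < x := hsub k hx
      have hx2 : x ≤ ((k + 1 : ℕ) : ℝ) * h := hx.2
      simp only [hf]
      have h3 : (((k + 1 : ℕ) : ℝ) * h) ^ (-(1 / 4) : ℝ) ≤ x ^ (-(1 / 4) : ℝ) :=
        Real.rpow_le_rpow_of_nonpos hx0 hx2 (by norm_num)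
      have h4 : rexp (-(b * (((k + 1 : ℕ) : ℝ) * h) ^ 2)) ≤ rexp (-(b * x ^ 2)) := by
        rw [Real.exp_le_exp]
        have : x ^ 2 ≤ (((k + 1 : ℕ) : ℝ) * h) ^ 2 := pow_le_pow_left₀ hx0.le hx2 2
        nlinarith
      exact mul_le_mul h3 h4 (Real.exp_pos _).le (Real.rpow_nonneg hx0.le _)
  have h5 : ∑ k ∈ range N, ∫ x in ((k : ℝ) * h)..(((k + 1 : ℕ) : ℝ) * h), f x =
      ∫ x in ((0 : ℕ) : ℝ) * h..(N : ℝ) * h, f x :=
    intervalIntegral.sum_integral_adjacent_intervals (a := fun k : ℕ => (k : ℝ) * h)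
      fun k _ => hii k
  refine (Finset.sum_le_sum h1).trans ?_
  rw [h5, intervalIntegral.integral_of_le (by rw [Nat.cast_zero, zero_mul]; positivity),
    ← RInt_f hb]
  refine setIntegral_mono_set hfi ?_ (Filter.Eventually.of_forall fun x hx => ?_)
  · exact (ae_restrict_iff' measurableSet_Ioi).2 (Filter.Eventually.of_forall fun x hx =>
      mul_nonneg (Real.rpow_nonneg (le_of_lt hx) _) (Real.exp_pos _).le)
  · have h6 : ((0 : ℕ) : ℝ) * h < x := hx.1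
    rw [Nat.cast_zero, zero_mul] at h6
    exact h6

private noncomputable def RInt_K (b : ℝ) (n : ℕ) (p q : ℤ) (u : ℝ) : ℝ :=
  (|√n * (p * u + q)| * (p / √n)) ^ (-(1 / 4) : ℝ) *
    rexp (-(b * (n * (p * u + q) ^ 2)) - b * (p ^ 2 / n))

private theorem RInt_K_eq (b : ℝ) {n : ℕ} (hn : 1 ≤ n) {p : ℤ} (hp : 1 ≤ p) (q : ℤ) (u : ℝ) :
    RInt_K b n p q u = ((p : ℝ) * (1 / √n)) ^ (-(1 / 4) : ℝ) *
      rexp (-(b * ((p : ℝ) * (1 / √n)) ^ 2)) *
      (|√n * p * u + √n * q| ^ (-(1 / 4) : ℝ) * rexp (-(b * (√n * p * u + √n * q) ^ 2))) := by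
  have hn0 : (0 : ℝ) < n := by exact_mod_cast hn
  have hp0 : (0 : ℝ) < p := by exact_mod_cast hp
  have hs : 0 < √(n : ℝ) := Real.sqrt_pos.2 hn0
  have hss : √(n : ℝ) ^ 2 = n := Real.sq_sqrt hn0.le
  unfold RInt_K
  have e1 : (p : ℝ) * (1 / √n) = p / √n := by ring
  have e2 : √(n : ℝ) * p * u + √n * q = √n * (p * u + q) := by ring
  have e3 : (√(n : ℝ) * (p * u + q)) ^ 2 = n * (p * u + q) ^ 2 := by rw [mul_pow, hss]
  have e4 : ((p : ℝ) / √n) ^ 2 = p ^ 2 / n := by rw [div_pow, hss]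
  rw [e1, e2, e3, e4, Real.mul_rpow (abs_nonneg _) (by positivity), sub_eq_add_neg, Real.exp_add]
  ring

private theorem RInt_K_nonneg (b : ℝ) (n : ℕ) {p : ℤ} (hp : 1 ≤ p) (q : ℤ) (u : ℝ) :
    0 ≤ RInt_K b n p q u := by
  have hp0 : (0 : ℝ) < p := by exact_mod_cast hp
  unfold RInt_K
  positivity

private theorem RInt_K_int {b : ℝ} (hb : 0 < b) {n : ℕ} (hn : 1 ≤ n) {p : ℤ} (hp : 1 ≤ p)
    (q : ℤ) : Integrable (RInt_K b n p q) := by
  have hn0 : (0 : ℝ) < n := by exact_mod_cast hn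
  have hp0 : (0 : ℝ) < p := by exact_mod_cast hp
  have hs : 0 < √(n : ℝ) := Real.sqrt_pos.2 hn0
  have h1 := ((RInt_absi hb).comp_add_right (√(n : ℝ) * q)).comp_mul_left'
    (R := √(n : ℝ) * p) (by positivity)
  have h2 := h1.const_mul (((p : ℝ) * (1 / √n)) ^ (-(1 / 4) : ℝ) *
      rexp (-(b * ((p : ℝ) * (1 / √n)) ^ 2)))
  exact h2.congr (Filter.Eventually.of_forall fun u => (RInt_K_eq b hn hp q u).symm)

private theorem RInt_K_le {b : ℝ} (hb : 0 < b) {n : ℕ} (hn : 1 ≤ n) {p : ℤ} (hp : 1 ≤ p)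
    (q : ℤ) : ∫ u in (-1 : ℝ)..1, RInt_K b n p q u ≤
      ((p : ℝ) * (1 / √n)) ^ (-(1 / 4) : ℝ) * rexp (-(b * ((p : ℝ) * (1 / √n)) ^ 2)) *
      ((√n * p)⁻¹ * (2 * (b ^ (-(3 / 8) : ℝ) * RInt_G))) := by
  have hn0 : (0 : ℝ) < n := by exact_mod_cast hn
  have hp0 : (0 : ℝ) < p := by exact_mod_cast hp
  have hs : 0 < √(n : ℝ) := Real.sqrt_pos.2 hn0
  rw [intervalIntegral.integral_of_le (by norm_num)]
  refine (setIntegral_le_integral (RInt_K_int hb hn hp q)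
    (Filter.Eventually.of_forall fun u => RInt_K_nonneg b n hp q u)).trans (le_of_eq ?_)
  simp only [RInt_K_eq b hn hp q]
  rw [integral_const_mul]
  congr 1
  have h1 := Measure.integral_comp_mul_left (fun y : ℝ => |y + √(n : ℝ) * q| ^ (-(1 / 4) : ℝ) *
    rexp (-(b * (y + √(n : ℝ) * q) ^ 2))) (√(n : ℝ) * p)
  rw [h1, integral_add_right_eq_self
    (fun y : ℝ => |y| ^ (-(1 / 4) : ℝ) * rexp (-(b * y ^ 2))), RInt_abs hb, smul_eq_mul,
    abs_of_pos (by positivity)]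

private noncomputable def RInt_KB (b : ℝ) (n : ℕ) (u : ℝ) : ℝ :=
  ∑ p ∈ Icc (1 : ℤ) (2 * n), ∑ q ∈ Icc (-p - 1) (p + 1), RInt_K b n p q u

private theorem RInt_KB_int {b : ℝ} (hb : 0 < b) {n : ℕ} (hn : 1 ≤ n) :
    Integrable (RInt_KB b n) := by
  unfold RInt_KB
  refine integrable_finsetSum _ fun p hp => integrable_finsetSum _ fun q _ => ?_
  exact RInt_K_int hb hn (Finset.mem_Icc.1 hp).1 q

private theorem RInt_KB_le {b : ℝ} (hb : 0 < b) {n : ℕ} (hn : 1 ≤ n) :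
    ∫ u in (-1 : ℝ)..1, RInt_KB b n u ≤ 10 * RInt_G ^ 2 * b ^ (-(3 / 4) : ℝ) := by
  have hG := RInt_G_pos
  have hn0 : (0 : ℝ) < n := by exact_mod_cast hn
  have hs : 0 < √(n : ℝ) := Real.sqrt_pos.2 hn0
  unfold RInt_KB
  rw [intervalIntegral.integral_finsetSum fun p hp => by
    refine Integrable.intervalIntegrable (integrable_finsetSum _ fun q _ => ?_)
    exact RInt_K_int hb hn (Finset.mem_Icc.1 hp).1 q]
  have h1 : ∀ p ∈ Icc (1 : ℤ) (2 * n),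
      ∫ u in (-1 : ℝ)..1, ∑ q ∈ Icc (-p - 1) (p + 1), RInt_K b n p q u ≤
      10 * (b ^ (-(3 / 8) : ℝ) * RInt_G) * ((1 / √n) *
        (((p : ℝ) * (1 / √n)) ^ (-(1 / 4) : ℝ) * rexp (-(b * ((p : ℝ) * (1 / √n)) ^ 2)))) := by
    intro p hp
    have hp1 : 1 ≤ p := (Finset.mem_Icc.1 hp).1
    have hp0 : (1 : ℝ) ≤ p := by exact_mod_cast hp1
    rw [intervalIntegral.integral_finsetSum fun q _ =>
      (RInt_K_int hb hn hp1 q).intervalIntegrable]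
    refine (Finset.sum_le_sum fun q _ => RInt_K_le hb hn hp1 q).trans ?_
    rw [Finset.sum_const, nsmul_eq_mul, Int.card_Icc]
    have h2 : (((p + 1 + 1 - (-p - 1)).toNat : ℕ) : ℝ) = 2 * p + 3 := by
      have h3 : (((p + 1 + 1 - (-p - 1)).toNat : ℕ) : ℤ) = 2 * p + 3 := by omega
      exact_mod_cast h3
    rw [h2]
    set E : ℝ := ((p : ℝ) * (1 / √n)) ^ (-(1 / 4) : ℝ) * rexp (-(b * ((p : ℝ) * (1 / √n)) ^ 2))
      with hE
    have hE0 : 0 ≤ E := by positivity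
    have h4 : (2 * (p : ℝ) + 3) * (E * ((√n * p)⁻¹ * (2 * (b ^ (-(3 / 8) : ℝ) * RInt_G)))) =
        ((2 * (p : ℝ) + 3) / p) * (2 * (b ^ (-(3 / 8) : ℝ) * RInt_G) * (1 / √n) * E) := by
      field_simp
    have h5 : (2 * (p : ℝ) + 3) / p ≤ 5 := by
      rw [div_le_iff₀ (by linarith)]
      linarith
    rw [h4]
    calc ((2 * (p : ℝ) + 3) / p) * (2 * (b ^ (-(3 / 8) : ℝ) * RInt_G) * (1 / √n) * E) ≤
        5 * (2 * (b ^ (-(3 / 8) : ℝ) * RInt_G) * (1 / √n) * E) := by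
          apply mul_le_mul_of_nonneg_right h5
          positivity
      _ = _ := by ring
  refine (Finset.sum_le_sum h1).trans ?_
  rw [← Finset.mul_sum]
  have h6 : ∑ p ∈ Icc (1 : ℤ) (2 * n), (1 / √n) *
        (((p : ℝ) * (1 / √n)) ^ (-(1 / 4) : ℝ) * rexp (-(b * ((p : ℝ) * (1 / √n)) ^ 2))) =
      ∑ k ∈ range (2 * n), (1 / √n) * ((((k + 1 : ℕ) : ℝ) * (1 / √n)) ^ (-(1 / 4) : ℝ) *
      rexp (-(b * (((k + 1 : ℕ) : ℝ) * (1 / √n)) ^ 2))) := by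
    symm
    refine Finset.sum_nbij' (fun k : ℕ => (k : ℤ) + 1) (fun p : ℤ => (p - 1).toNat) ?_ ?_ ?_ ?_ ?_
    · intro k hk
      rw [Finset.mem_range] at hk
      rw [Finset.mem_Icc]
      omega
    · intro p hp
      rw [Finset.mem_Icc] at hp
      rw [Finset.mem_range]
      omega
    · intro k hk
      omega
    · intro p hp
      rw [Finset.mem_Icc] at hp
      omega
    · intro k _
      push_cast
      rfl
  rw [h6]
  have h7 := RInt_riem hb (h := 1 / √(n : ℝ)) (by positivity) (2 * n)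
  have h8 : b ^ (-(3 / 8) : ℝ) * b ^ (-(3 / 8) : ℝ) = b ^ (-(3 / 4) : ℝ) := by
    rw [← Real.rpow_add hb]
    norm_num
  calc 10 * (b ^ (-(3 / 8) : ℝ) * RInt_G) * ∑ k ∈ range (2 * n), (1 / √n) *
      ((((k + 1 : ℕ) : ℝ) * (1 / √n)) ^ (-(1 / 4) : ℝ) *
      rexp (-(b * (((k + 1 : ℕ) : ℝ) * (1 / √n)) ^ 2))) ≤
      10 * (b ^ (-(3 / 8) : ℝ) * RInt_G) * (b ^ (-(3 / 8) : ℝ) * RInt_G) := by
        apply mul_le_mul_of_nonneg_left h7
        positivity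
    _ = 10 * RInt_G ^ 2 * (b ^ (-(3 / 8) : ℝ) * b ^ (-(3 / 8) : ℝ)) := by ring
    _ = 10 * RInt_G ^ 2 * b ^ (-(3 / 4) : ℝ) := by rw [h8]

private theorem RInt_bq_nonneg (c x : ℝ) (n : ℕ) {p : ℤ} (hp : 1 ≤ p) (q : ℤ) (u : ℝ) :
    0 ≤ bq c x n p q u := by
  have hp0 : (0 : ℝ) < p := by exact_mod_cast hp
  unfold bq
  refine mul_nonneg (by positivity) (add_nonneg (Real.exp_pos _).le ?_)
  split_ifs
  · exact (Real.exp_pos _).le
  · exact le_rfl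

private theorem RInt_bq_le (c x : ℝ) {n : ℕ} (hn : 1 ≤ n) {p : ℤ} (hp : 1 ≤ p) (q : ℤ) (u : ℝ) :
    bq c x n p q u ≤ RInt_K (c * x) n p q u + rexp 4 * rexp (-(c * √x)) * RInt_K 1 n p q u := by
  have hp0 : (0 : ℝ) < p := by exact_mod_cast hp
  have hn0 : (0 : ℝ) < n := by exact_mod_cast hn
  unfold bq RInt_K
  have h0 : 0 ≤ (|√(n : ℝ) * (p * u + q)| * (p / √n)) ^ (-(1 / 4) : ℝ) := by positivity
  set T := (|√(n : ℝ) * (p * u + q)| * (p / √n)) ^ (-(1 / 4) : ℝ) with hT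
  have h1 : (if (n : ℝ) * (p * u + q) ^ 2 ≤ 2 ∧ (p : ℝ) ^ 2 ≤ 2 * n then rexp (-(c * √x)) else 0) ≤
      rexp 4 * rexp (-(c * √x)) *
        rexp (-(1 * ((n : ℝ) * (p * u + q) ^ 2)) - 1 * ((p : ℝ) ^ 2 / n)) := by
    split_ifs with h
    · have h2 : (p : ℝ) ^ 2 / n ≤ 2 := by
        rw [div_le_iff₀ hn0]
        exact h.2
      have h3 : 1 ≤ rexp 4 *
          rexp (-(1 * ((n : ℝ) * (p * u + q) ^ 2)) - 1 * ((p : ℝ) ^ 2 / n)) := by
        rw [← Real.exp_add]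
        exact Real.one_le_exp (by linarith [h.1])
      calc rexp (-(c * √x)) = 1 * rexp (-(c * √x)) := by ring
        _ ≤ (rexp 4 *
          rexp (-(1 * ((n : ℝ) * (p * u + q) ^ 2)) - 1 * ((p : ℝ) ^ 2 / n))) *
            rexp (-(c * √x)) := mul_le_mul_of_nonneg_right h3 (Real.exp_pos _).le
        _ = _ := by ring
    · positivity
  have h4 := mul_le_mul_of_nonneg_left h1 h0
  have h5 : T * (rexp (-(c * x * ((n : ℝ) * (p * u + q) ^ 2)) - c * x * ((p : ℝ) ^ 2 / n)) +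
      if (n : ℝ) * (p * u + q) ^ 2 ≤ 2 ∧ (p : ℝ) ^ 2 ≤ 2 * n then rexp (-(c * √x)) else 0) =
      T * rexp (-(c * x * ((n : ℝ) * (p * u + q) ^ 2)) - c * x * ((p : ℝ) ^ 2 / n)) +
      T * (if (n : ℝ) * (p * u + q) ^ 2 ≤ 2 ∧ (p : ℝ) ^ 2 ≤ 2 * n then rexp (-(c * √x)) else 0) := by
    ring
  rw [h5]
  linarith

private theorem RInt_bq_meas (c x : ℝ) (n : ℕ) (p q : ℤ) : Measurable (bq c x n p q) := by
  unfold bq
  refine Measurable.mul ?_ (Measurable.add ?_ ?_)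
  · exact Measurable.pow_const (by fun_prop) _
  · fun_prop
  · refine Measurable.ite ?_ measurable_const measurable_const
    have h1 : MeasurableSet {u : ℝ | (n : ℝ) * (p * u + q) ^ 2 ≤ 2} :=
      measurableSet_le (by fun_prop) measurable_const
    exact h1.inter (MeasurableSet.const _)

private theorem RInt_bq_int {c x : ℝ} (hc : 0 < c) (hx : 1 ≤ x) {n : ℕ} (hn : 1 ≤ n) {p : ℤ}
    (hp : 1 ≤ p) (q : ℤ) : Integrable (bq c x n p q) := by
  refine Integrable.mono' ((RInt_K_int (mul_pos hc (by linarith)) hn hp q).add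
    ((RInt_K_int one_pos hn hp q).const_mul (rexp 4 * rexp (-(c * √x)))))
    (RInt_bq_meas c x n p q).aestronglyMeasurable (Filter.Eventually.of_forall fun u => ?_)
  rw [Real.norm_of_nonneg (RInt_bq_nonneg c x n hp q u)]
  exact RInt_bq_le c x hn hp q u

private theorem RInt_RB_int {c x : ℝ} (hc : 0 < c) (hx : 1 ≤ x) {n : ℕ} (hn : 1 ≤ n) :
    Integrable (RB c x n) := by
  unfold RB
  refine integrable_finsetSum _ fun p hp => integrable_finsetSum _ fun q _ => ?_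
  exact RInt_bq_int hc hx hn (Finset.mem_Icc.1 hp).1 q

theorem RB_nonneg (c x : ℝ) (n : ℕ) (u : ℝ) : 0 ≤ RB c x n u :=
  Finset.sum_nonneg fun p hp => Finset.sum_nonneg fun q _ =>
    RInt_bq_nonneg c x n (Finset.mem_Icc.1 hp).1 q u

theorem RB_integrable {c x : ℝ} (hc : 0 < c) (hx : 1 ≤ x) {n : ℕ} (hn : 1 ≤ n) :
    IntervalIntegrable (RB c x n) volume (-1) 1 :=
  (RInt_RB_int hc hx hn).intervalIntegrable

private theorem RInt_exp {c x : ℝ} (hc : 0 < c) (hx : 1 ≤ x) :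
    rexp (-(c * √x)) ≤ 2 * c ^ (-(3 / 2) : ℝ) * x ^ (-(3 / 4) : ℝ) := by
  have hx0 : 0 < x := by linarith
  set y := c * √x with hy
  have hy0 : 0 < y := mul_pos hc (Real.sqrt_pos.2 hx0)
  have h1 : y ^ (3 / 2 : ℝ) ≤ 2 * rexp y := by
    have h2 := Real.quadratic_le_exp_of_nonneg hy0.le
    have h3 : y ^ (3 / 2 : ℝ) ≤ 1 + y ^ 2 := by
      rcases le_total y 1 with h | h
      · have := Real.rpow_le_one hy0.le h (show (0 : ℝ) ≤ 3 / 2 by norm_num)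
        nlinarith
      · have h4 := Real.rpow_le_rpow_of_exponent_le h (show (3 / 2 : ℝ) ≤ 2 by norm_num)
        rw [Real.rpow_two] at h4
        linarith
    nlinarith
  have h5 : y ^ (-(3 / 2) : ℝ) = c ^ (-(3 / 2) : ℝ) * x ^ (-(3 / 4) : ℝ) := by
    rw [hy, Real.mul_rpow hc.le (Real.sqrt_nonneg _), Real.sqrt_eq_rpow, ← Real.rpow_mul hx0.le]
    norm_num
  rw [mul_assoc, ← h5, Real.rpow_neg hy0.le, Real.exp_neg]
  have h6 : 0 < y ^ (3 / 2 : ℝ) := Real.rpow_pos_of_pos hy0 _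
  rw [← div_eq_mul_inv, ← one_div, div_le_div_iff₀ (Real.exp_pos _) h6]
  linarith

theorem RB_int (c : ℝ) (hc : 0 < c) : ∃ C : ℝ, 0 < C ∧ ∀ (x : ℝ) (n : ℕ), 1 ≤ x → 1 ≤ n →
    ∫ u in (-1 : ℝ)..1, RB c x n u ≤ C * x ^ (-(3 / 4) : ℝ) := by
  have hG := RInt_G_pos
  refine ⟨10 * RInt_G ^ 2 * c ^ (-(3 / 4) : ℝ) +
    rexp 4 * (2 * c ^ (-(3 / 2) : ℝ)) * (10 * RInt_G ^ 2), by positivity, ?_⟩
  intro x n hx hn
  have hx0 : 0 < x := by linarith
  have h1 : ∫ u in (-1 : ℝ)..1, RB c x n u ≤ ∫ u in (-1 : ℝ)..1,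
      (RInt_KB (c * x) n u + rexp 4 * rexp (-(c * √x)) * RInt_KB 1 n u) := by
    refine intervalIntegral.integral_mono_on (by norm_num) (RB_integrable hc hx hn) ?_ ?_
    · exact ((RInt_KB_int (mul_pos hc hx0) hn).add
        ((RInt_KB_int one_pos hn).const_mul _)).intervalIntegrable
    · intro u _
      unfold RB RInt_KB
      rw [Finset.mul_sum, ← Finset.sum_add_distrib]
      refine Finset.sum_le_sum fun p hp => ?_
      rw [Finset.mul_sum, ← Finset.sum_add_distrib]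
      exact Finset.sum_le_sum fun q _ => RInt_bq_le c x hn (Finset.mem_Icc.1 hp).1 q u
  rw [intervalIntegral.integral_add (RInt_KB_int (mul_pos hc hx0) hn).intervalIntegrable
    ((RInt_KB_int one_pos hn).const_mul _).intervalIntegrable,
    intervalIntegral.integral_const_mul] at h1
  have h2 := RInt_KB_le (mul_pos hc hx0) hn
  have h3 := RInt_KB_le one_pos hn
  rw [Real.one_rpow, mul_one] at h3
  rw [Real.mul_rpow hc.le hx0.le] at h2
  have h4 := RInt_exp hc hx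
  have h5 : rexp 4 * rexp (-(c * √x)) * ∫ u in (-1 : ℝ)..1, RInt_KB 1 n u ≤
      rexp 4 * (2 * c ^ (-(3 / 2) : ℝ) * x ^ (-(3 / 4) : ℝ)) * (10 * RInt_G ^ 2) := by
    refine (mul_le_mul_of_nonneg_left h3 (by positivity)).trans ?_
    refine mul_le_mul_of_nonneg_right ?_ (by positivity)
    exact mul_le_mul_of_nonneg_left h4 (Real.exp_pos _).le
  calc ∫ u in (-1 : ℝ)..1, RB c x n u ≤ _ := h1
    _ ≤ 10 * RInt_G ^ 2 * (c ^ (-(3 / 4) : ℝ) * x ^ (-(3 / 4) : ℝ)) +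
      rexp 4 * (2 * c ^ (-(3 / 2) : ℝ) * x ^ (-(3 / 4) : ℝ)) * (10 * RInt_G ^ 2) :=
        add_le_add h2 h5
    _ = _ := by ring

end Pool.Agent.Helper31.FI
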