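import Pool.Agent.Helper31.FI.FactB
import Pool.Agent.Helper31.FI.Path
import Pool.Agent.Helper31.FI.RInt
import Pool.Agent.Helper31.FI.IntId

/-!
# FI-RP: the remainder

`rpt`: `τ = u + I/n`, `u` irrational.  `path` gives `w`, `r`; `‖θ τ r‖ = (im w/im τ)^(1/4) ‖θ w gg w‖ = n^(1/4) (im w)^(1/4) ‖F w - ex x w‖`,
`factB` with constants `C, c`.  `ht w` is one of `im w/|p w + q|²` for `(p,q) = (0,1), (1,-1), (1,1)`, so it equals
`im τ/|p τ + q|² = 1/R²`, `R² = n (p u + q)² + p²/n`, with integers `(p,q) ≠ (0,0)`; `half_le_ht` gives `R² ≤ 2`.  `p ≠ 0` since `n ≥ 3`; by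
sign change `p ≥ 1`; `p² ≤ 2 n` so `p ≤ 2 n`; `|p u + q| ≤ √(2/n) < 1`, so `|q| ≤ p + 1`.
`R² ≥ |√n (p u + q)| (p/√n)` (a² + b² ≥ ab), positive as `u` is irrational, so `R^(-1/2) ≤ (..)^(-1/4)`; and
`exp (-c x/max (1/R²) √x) ≤ exp (-c x R²) + exp (-c √x)`.  All terms of `RB` are nonnegative.
`rpart`: the integrand is interval integrable (`gg` is continuous on the line; `pint_integrable`, and the reflected path sum is
`u ↦ -u`, conjugated: `sr (u + I/n) = -u + I/n`, `θ (sr τ) = conj (θ τ)`), almost every `u` is irrational,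
`‖exp (-π i n τ)‖ = exp π`.
-/

set_option autoImplicit false

namespace Pool.Agent.Helper31.FI

open Complex Real Finset MeasureTheory

/-- remainder -/
noncomputable def rem (x : ℝ) (F : ℂ → ℂ) (τ : ℂ) : ℂ :=
  gg x F τ + mu x * PP x τ + (starRingEnd ℂ) (mu x) * (starRingEnd ℂ) (PP x (sr τ))

private theorem RPart_im {n : ℕ} (u : ℝ) : ((u : ℂ) + I / n).im = 1 / n := by
  have : (I / (n : ℂ)) = ((1 / n : ℝ) : ℂ) * I := by push_cast; ring
  rw [this, Complex.add_im, Complex.im_ofReal_mul, Complex.I_im, Complex.ofReal_im]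
  ring

private theorem RPart_re {n : ℕ} (u : ℝ) : ((u : ℂ) + I / n).re = u := by
  have : (I / (n : ℂ)) = ((1 / n : ℝ) : ℂ) * I := by push_cast; ring
  rw [this, Complex.add_re, Complex.re_ofReal_mul, Complex.I_re, Complex.ofReal_re]
  ring

private theorem RPart_sr {n : ℕ} (u : ℝ) : sr ((u : ℂ) + I / n) = ((-u : ℝ) : ℂ) + I / n := by
  unfold sr
  rw [map_add, map_div₀, Complex.conj_I, Complex.conj_ofReal, map_natCast]
  push_cast
  ring

private theorem RPart_bq (c x : ℝ) (n : ℕ) {p q : ℤ} (hp : 1 ≤ p) (u : ℝ) :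
    0 ≤ bq c x n p q u := by
  unfold bq
  have hp' : (0 : ℝ) ≤ p := by
    have : (1 : ℝ) ≤ p := by exact_mod_cast hp
    linarith
  refine mul_nonneg (Real.rpow_nonneg (by positivity) _) (add_nonneg (Real.exp_pos _).le ?_)
  split_ifs
  · exact (Real.exp_pos _).le
  · exact le_refl _

private theorem RPart_single (c x : ℝ) {n : ℕ} {p q : ℤ} (hp : 1 ≤ p) (hpn : p ≤ 2 * n)
    (hq1 : -p - 1 ≤ q) (hq2 : q ≤ p + 1) (u : ℝ) : bq c x n p q u ≤ RB c x n u := by
  unfold RB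
  have h1 : bq c x n p q u ≤ ∑ q ∈ Icc (-p - 1) (p + 1), bq c x n p q u :=
    Finset.single_le_sum (f := fun q => bq c x n p q u) (fun q _ => RPart_bq c x n hp u)
      (Finset.mem_Icc.2 ⟨hq1, hq2⟩)
  refine h1.trans ?_
  exact Finset.single_le_sum
    (f := fun p => ∑ q ∈ Icc (-p - 1) (p + 1), bq c x n p q u)
    (fun p hp => Finset.sum_nonneg fun q _ => RPart_bq c x n (Finset.mem_Icc.1 hp).1 u)
    (Finset.mem_Icc.2 ⟨hp, hpn⟩)

private theorem RPart_ht (w : ℂ) : ∃ p q : ℤ, (p, q) ≠ (0, 0) ∧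
    ht w = w.im / ‖(p : ℂ) * w + q‖ ^ 2 := by
  unfold ht
  rcases max_choice w.im (max (w.im / ‖w - 1‖ ^ 2) (w.im / ‖w + 1‖ ^ 2)) with h | h
  · refine ⟨0, 1, by simp, ?_⟩
    rw [h]
    simp
  · rcases max_choice (w.im / ‖w - 1‖ ^ 2) (w.im / ‖w + 1‖ ^ 2) with h' | h'
    · refine ⟨1, -1, by simp, ?_⟩
      rw [h, h']
      simp [sub_eq_add_neg]
    · refine ⟨1, 1, by simp, ?_⟩
      rw [h, h']
      simp

private theorem RPart_main {c x : ℝ} (hc : 0 < c) (hx : 1 ≤ x) {n : ℕ} (hn : 3 ≤ n) {u H : ℝ}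
    (hu : |u| ≤ 1) (hirr : Irrational u) (hH : 1 / 2 ≤ H) {p q : ℤ} (hp : 1 ≤ p)
    (hR : H * (n * (p * u + q) ^ 2 + p ^ 2 / n) = 1) :
    H ^ (1 / 4 : ℝ) * rexp (-(c * x / max H (√x))) ≤ RB c x n u := by
  have hn0 : (3 : ℝ) ≤ n := by exact_mod_cast hn
  have hn1 : (0 : ℝ) < n := by linarith
  have hp1 : (1 : ℝ) ≤ p := by exact_mod_cast hp
  have hH0 : 0 < H := by linarith
  set R2 : ℝ := n * (p * u + q) ^ 2 + p ^ 2 / n with hR2
  have hR0 : 0 < R2 := by positivity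
  have hRle : R2 ≤ 2 := by
    have h1 : 1 / 2 * R2 ≤ H * R2 := mul_le_mul_of_nonneg_right hH hR0.le
    linarith
  have ha : (n : ℝ) * (p * u + q) ^ 2 ≤ 2 := by
    have : 0 ≤ (p : ℝ) ^ 2 / n := by positivity
    linarith
  have hb : (p : ℝ) ^ 2 ≤ 2 * n := by
    have h1 : 0 ≤ (n : ℝ) * (p * u + q) ^ 2 := by positivity
    have h2 : (p : ℝ) ^ 2 / n ≤ 2 := by linarith
    rwa [div_le_iff₀ hn1] at h2
  have hpn : p ≤ 2 * n := by
    have h1 : (p : ℝ) ≤ 2 * n := by nlinarith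
    exact_mod_cast h1
  have hq : |(p : ℝ) * u + q| < 1 := by
    have h1 : ((p : ℝ) * u + q) ^ 2 < 1 := by nlinarith [sq_nonneg ((p : ℝ) * u + q)]
    rw [← sq_abs] at h1
    nlinarith [abs_nonneg ((p : ℝ) * u + q)]
  rw [abs_lt] at hq
  have hpu : |(p : ℝ) * u| ≤ p := by
    rw [abs_mul, abs_of_pos (by linarith : (0 : ℝ) < p)]
    nlinarith
  rw [abs_le] at hpu
  have hq1 : -p - 1 ≤ q := by
    have h1 : (-(p : ℝ) - 1) ≤ q := by linarith [hq.1, hpu.2]
    exact_mod_cast h1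
  have hq2 : q ≤ p + 1 := by
    have h1 : (q : ℝ) ≤ p + 1 := by linarith [hq.2, hpu.1]
    exact_mod_cast h1
  refine le_trans ?_ (RPart_single c x hp hpn hq1 hq2 u)
  unfold bq
  have hne : (p : ℝ) * u + q ≠ 0 := by
    intro h0
    apply hirr
    refine ⟨(-q : ℚ) / p, ?_⟩
    push_cast
    rw [div_eq_iff (by linarith : (p : ℝ) ≠ 0)]
    linarith
  have hsn : 0 < √(n : ℝ) := Real.sqrt_pos.2 hn1
  have hsq : √(n : ℝ) ^ 2 = n := Real.sq_sqrt hn1.le
  have hab0 : 0 < |√n * (p * u + q)| * (p / √n) := by positivity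
  have hab : |√n * (p * u + q)| * (p / √n) ≤ R2 := by
    have h1 : (|√n * (p * u + q)| - p / √n) ^ 2 ≥ 0 := sq_nonneg _
    have h2 : |√n * (p * u + q)| ^ 2 = n * (p * u + q) ^ 2 := by
      rw [sq_abs, mul_pow, hsq]
    have h3 : ((p : ℝ) / √n) ^ 2 = p ^ 2 / n := by rw [div_pow, hsq]
    nlinarith
  have hpow : H ^ (1 / 4 : ℝ) ≤ (|√n * (p * u + q)| * (p / √n)) ^ (-(1 / 4) : ℝ) := by
    have h1 : H = R2⁻¹ := eq_inv_of_mul_eq_one_left hR
    rw [h1, Real.inv_rpow hR0.le, ← Real.rpow_neg hR0.le]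
    exact Real.rpow_le_rpow_of_nonpos hab0 hab (by norm_num)
  refine mul_le_mul hpow ?_ (Real.exp_pos _).le (Real.rpow_nonneg hab0.le _)
  rcases le_total (√x) H with h1 | h1
  · rw [max_eq_left h1]
    have h2 : c * x / H = c * x * (n * (p * u + q) ^ 2) + c * x * (p ^ 2 / n) := by
      rw [div_eq_iff hH0.ne']
      linear_combination -(c * x) * hR
    have h3 : -(c * x / H) = -(c * x * (n * (p * u + q) ^ 2)) - c * x * (p ^ 2 / n) := by
      rw [h2]; ring
    rw [h3]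
    refine le_add_of_nonneg_right ?_
    split_ifs
    · exact (Real.exp_pos _).le
    · exact le_refl _
  · rw [max_eq_right h1, if_pos ⟨ha, hb⟩]
    have h2 : c * x / √x = c * √x := by
      rw [mul_div_assoc, Real.div_sqrt]
    rw [h2]
    exact le_add_of_nonneg_left (Real.exp_pos _).le

theorem rpt : ∃ C c : ℝ, 0 < C ∧ 0 < c ∧ ∀ (x : ℝ) (F : ℂ → ℂ) (n : ℕ) (u : ℝ), 1 ≤ x → Gen x F → 3 ≤ n →
    |u| ≤ 1 → Irrational u →
    ‖jacobiTheta (u + I / n) * rem x F (u + I / n)‖ ≤ C * ((n : ℝ) ^ (1 / 4 : ℝ) * RB c x n u) := by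
  obtain ⟨C, c, hC, hc, hB⟩ := factB
  refine ⟨C, c, hC, hc, fun x F n u hx hF hn hu hirr => ?_⟩
  have hn0 : (3 : ℝ) ≤ n := by exact_mod_cast hn
  have hn1 : (0 : ℝ) < n := by linarith
  set τ : ℂ := (u : ℂ) + I / n with hτdef
  have him : τ.im = 1 / n := RPart_im u
  have hre : τ.re = u := RPart_re u
  have hτ : 0 < τ.im := by rw [him]; positivity
  obtain ⟨w, hw, r, hr, hg, hθ, hfam⟩ := path hF hτ (by rw [hre]; exact hu)
  have hw0 : 0 < w.im := hw.1
  have hrem : rem x F τ = r := by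
    unfold rem
    rw [hg]
    ring
  have hθw : jacobiTheta w ≠ 0 := theta_ne hw0
  have h1 : ‖jacobiTheta τ‖ = (n : ℝ) ^ (1 / 4 : ℝ) * (w.im ^ (1 / 4 : ℝ) * ‖jacobiTheta w‖) := by
    have h2 : ‖jacobiTheta τ‖ ^ 4 = n * (w.im * ‖jacobiTheta w‖ ^ 4) := by
      rw [him] at hθ
      field_simp at hθ
      linarith
    have h3 : ‖jacobiTheta τ‖ = (‖jacobiTheta τ‖ ^ 4) ^ (1 / 4 : ℝ) := by
      rw [← Real.rpow_natCast, ← Real.rpow_mul (norm_nonneg _)]
      norm_num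
    have h4 : ‖jacobiTheta w‖ = (‖jacobiTheta w‖ ^ 4) ^ (1 / 4 : ℝ) := by
      rw [← Real.rpow_natCast, ← Real.rpow_mul (norm_nonneg _)]
      norm_num
    rw [h3, h2, Real.mul_rpow hn1.le (by positivity), Real.mul_rpow hw0.le (by positivity), ← h4]
  have h2 : ‖jacobiTheta τ * rem x F τ‖ =
      (n : ℝ) ^ (1 / 4 : ℝ) * (w.im ^ (1 / 4 : ℝ) * ‖F w - ex x w‖) := by
    rw [hrem, norm_mul, hr, h1]
    unfold gg
    rw [norm_div]
    have h3 : ‖jacobiTheta w‖ ≠ 0 := norm_ne_zero_iff.2 hθw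
    field_simp
  rw [h2]
  have h3 := hB x F hx hF w hw
  have hH := half_le_ht hw
  obtain ⟨p0, q0, hpq0, hht⟩ := RPart_ht w
  obtain ⟨p1, q1, hpq1, hht1⟩ := hfam p0 q0 hpq0
  rw [← hht] at hht1
  -- make the first entry nonnegative
  have hfin : ∀ p q : ℤ, (p, q) ≠ (0, 0) → ht w = τ.im / ‖(p : ℂ) * τ + q‖ ^ 2 → 0 ≤ p →
      ht w ^ (1 / 4 : ℝ) * rexp (-(c * x / max (ht w) (√x))) ≤ RB c x n u := by
    intro p q hpq hh hp0
    have hns : ‖(p : ℂ) * τ + q‖ ^ 2 = (p * u + q) ^ 2 + (p / n) ^ 2 := by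
      rw [← Complex.normSq_eq_norm_sq, Complex.normSq_apply]
      have e1 : ((p : ℂ) * τ + q).re = p * u + q := by
        simp [hre]
      have e2 : ((p : ℂ) * τ + q).im = p / n := by
        simp [him, div_eq_mul_inv]
      rw [e1, e2]
      ring
    have hpos : 0 < ‖(p : ℂ) * τ + q‖ ^ 2 := by
      by_contra hcon
      have h0 : ‖(p : ℂ) * τ + q‖ ^ 2 = 0 := le_antisymm (not_lt.1 hcon) (by positivity)
      rw [h0, div_zero] at hh
      linarith
    have hR : ht w * (n * (p * u + q) ^ 2 + p ^ 2 / n) = 1 := by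
      have e3 : (n : ℝ) * (p * u + q) ^ 2 + p ^ 2 / n = n * ‖(p : ℂ) * τ + q‖ ^ 2 := by
        rw [hns]
        field_simp
      rw [e3, hh, him]
      generalize ‖(p : ℂ) * τ + q‖ ^ 2 = N at hpos
      field_simp
    have hp1 : 1 ≤ p := by
      rcases hp0.lt_or_eq with h4 | h4
      · omega
      · exfalso
        rw [← h4] at hR hpq
        have hq : q ≠ 0 := by
          rintro rfl
          exact hpq rfl
        have hq2 : (1 : ℝ) ≤ (q : ℝ) ^ 2 := by
          have : 1 ≤ q ^ 2 := by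
            have := sq_pos_of_ne_zero hq
            omega
          exact_mod_cast this
        simp only [Int.cast_zero, zero_mul, zero_add] at hR
        have h5 : (3 : ℝ) ≤ n * (q : ℝ) ^ 2 + (0 : ℝ) ^ 2 / n := by
          have : (0 : ℝ) ^ 2 / n = 0 := by simp
          rw [this]
          nlinarith
        nlinarith
    exact RPart_main hc hx hn hu hirr hH hp1 hR
  have h4 : ht w ^ (1 / 4 : ℝ) * rexp (-(c * x / max (ht w) (√x))) ≤ RB c x n u := by
    rcases le_total 0 p1 with hp | hp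
    · exact hfin p1 q1 hpq1 hht1 hp
    · refine hfin (-p1) (-q1) ?_ ?_ (by omega)
      · intro h
        apply hpq1
        simp only [Prod.mk.injEq, neg_eq_zero] at h
        rw [h.1, h.2]
      · rw [hht1]
        congr 2
        have : ((-p1 : ℤ) : ℂ) * τ + ((-q1 : ℤ) : ℂ) = -((p1 : ℂ) * τ + q1) := by
          push_cast
          ring
        rw [this, norm_neg]
  calc (n : ℝ) ^ (1 / 4 : ℝ) * (w.im ^ (1 / 4 : ℝ) * ‖F w - ex x w‖)
      ≤ (n : ℝ) ^ (1 / 4 : ℝ) * (C * (ht w ^ (1 / 4 : ℝ) * rexp (-(c * x / max (ht w) (√x))))) :=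
        mul_le_mul_of_nonneg_left h3 (by positivity)
    _ ≤ (n : ℝ) ^ (1 / 4 : ℝ) * (C * RB c x n u) :=
        mul_le_mul_of_nonneg_left (mul_le_mul_of_nonneg_left h4 hC.le) (by positivity)
    _ = C * ((n : ℝ) ^ (1 / 4 : ℝ) * RB c x n u) := by ring

private theorem RPart_exp {n : ℕ} (hn : 1 ≤ n) (u : ℝ) :
    ‖cexp (-(π * I * n * (u + I / n)))‖ = rexp π := by
  have hn1 : (n : ℂ) ≠ 0 := by
    have : (n : ℕ) ≠ 0 := by omega
    exact_mod_cast this
  rw [Complex.norm_exp]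
  congr 1
  have : -((π : ℂ) * I * n * (u + I / n)) = ((π : ℝ) : ℂ) + ((-(π * n * u) : ℝ) : ℂ) * I := by
    field_simp
    push_cast
    linear_combination (-(π : ℂ)) * Complex.I_sq
  rw [this, Complex.add_re, Complex.ofReal_re, Complex.re_ofReal_mul, Complex.I_re, mul_zero, add_zero]

private theorem RPart_cont {x : ℝ} {F : ℂ → ℂ} (hF : Gen x F) {n : ℕ} (hn : 1 ≤ n) :
    Continuous fun u : ℝ => (F (u + I / n) - ex x (u + I / n)) *
      cexp (-(π * I * n * (u + I / n))) := by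
  have h1 : Continuous fun u : ℝ => (u : ℂ) + I / n := by fun_prop
  have h2 : Continuous fun u : ℝ => F ((u : ℂ) + I / n) := by
    have h3 : ContinuousOn F {τ : ℂ | 0 < τ.im} := hF.ana.continuousOn
    refine h3.comp_continuous h1 fun u => ?_
    show 0 < ((u : ℂ) + I / n).im
    rw [RPart_im]
    have : (0 : ℝ) < n := by exact_mod_cast hn
    positivity
  have h3 : Continuous fun u : ℝ => ex x ((u : ℂ) + I / n) := by
    unfold ex
    fun_prop
  refine (h2.sub h3).mul ?_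
  fun_prop

private theorem RPart_conj {f : ℝ → ℂ} {a b : ℝ} (h : IntervalIntegrable f volume a b) :
    IntervalIntegrable (fun u => (starRingEnd ℂ) (f u)) volume a b := by
  constructor
  · exact Complex.conjLIE.toContinuousLinearEquiv.toContinuousLinearMap.integrable_comp h.1
  · exact Complex.conjLIE.toContinuousLinearEquiv.toContinuousLinearMap.integrable_comp h.2

private theorem RPart_int {x : ℝ} {F : ℂ → ℂ} (hF : Gen x F) {n : ℕ} (hn : 1 ≤ n) :
    IntervalIntegrable (fun u : ℝ => jacobiTheta (u + I / n) * rem x F (u + I / n) *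
      cexp (-(π * I * n * (u + I / n)))) volume (-1) 1 := by
  have hn1 : (0 : ℝ) < n := by exact_mod_cast hn
  have h1 := (RPart_cont hF hn).intervalIntegrable (μ := volume) (-1) 1
  have h2 := (pint_integrable x hn).const_mul (mu x)
  have h3 : IntervalIntegrable (fun u => pint x n (-u)) volume (-1) 1 := by
    have h4 := (pint_integrable x hn).symm
    have h5 := (IntervalIntegrable.iff_comp_neg (f := pint x n) (a := 1) (b := -1)
      (by finiteness)).1 h4
    simpa using h5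
  have h4 := (RPart_conj h3).const_mul ((starRingEnd ℂ) (mu x))
  refine ((h1.add h2).add h4).congr ?_
  intro u _
  have him : ((u : ℂ) + I / n).im = 1 / n := RPart_im u
  have hpos : 0 < ((u : ℂ) + I / n).im := by rw [him]; positivity
  have hθ : jacobiTheta ((u : ℂ) + I / n) ≠ 0 := theta_ne hpos
  show (F (u + I / n) - ex x (u + I / n)) * cexp (-(π * I * n * (u + I / n))) +
      mu x * pint x n u + (starRingEnd ℂ) (mu x) * (starRingEnd ℂ) (pint x n (-u)) = _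
  have h5 : (starRingEnd ℂ) (pint x n (-u)) = jacobiTheta ((u : ℂ) + I / n) *
      (starRingEnd ℂ) (PP x (sr ((u : ℂ) + I / n))) * cexp (-(π * I * n * (u + I / n))) := by
    unfold pint
    rw [map_mul, map_mul, ← RPart_sr, theta_conj hpos, Complex.conj_conj, ← Complex.exp_conj]
    congr 2
    unfold sr
    simp only [map_neg, map_mul, map_add, map_div₀, Complex.conj_conj, Complex.conj_I,
      Complex.conj_ofReal, map_natCast]
    ring
  rw [h5]
  unfold rem gg pint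
  field_simp

theorem rpart : ∃ C : ℝ, 0 < C ∧ ∀ (x : ℝ) (F : ℂ → ℂ) (n : ℕ), 1 ≤ x → Gen x F → 3 ≤ n →
    IntervalIntegrable (fun u : ℝ => jacobiTheta (u + I / n) * rem x F (u + I / n) *
      cexp (-(π * I * n * (u + I / n)))) volume (-1) 1 ∧
    ‖∫ u in (-1 : ℝ)..1, jacobiTheta (u + I / n) * rem x F (u + I / n) *
      cexp (-(π * I * n * (u + I / n)))‖ ≤ C * ((n : ℝ) ^ (1 / 4 : ℝ) * x ^ (-(3 / 4) : ℝ)) := by
  obtain ⟨C, c, hC, hc, hr⟩ := rpt
  obtain ⟨C', hC', hI⟩ := RB_int c hc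
  refine ⟨C * rexp π * C', by positivity, fun x F n hx hF hn => ?_⟩
  have hn1 : 1 ≤ n := by omega
  refine ⟨RPart_int hF hn1, ?_⟩
  have hb : ∀ᵐ u : ℝ, u ∈ Set.Ioc (-1 : ℝ) 1 →
      ‖jacobiTheta (u + I / n) * rem x F (u + I / n) * cexp (-(π * I * n * (u + I / n)))‖ ≤
        (C * rexp π * (n : ℝ) ^ (1 / 4 : ℝ)) * RB c x n u := by
    have hirr : ∀ᵐ u : ℝ, Irrational u := by
      have hc : (Set.range ((↑) : ℚ → ℝ)).Countable := Set.countable_range _
      exact hc.ae_notMem volume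
    filter_upwards [hirr] with u hu hmem
    have hu1 : |u| ≤ 1 := abs_le.2 ⟨hmem.1.le, hmem.2⟩
    rw [norm_mul, RPart_exp hn1]
    calc ‖jacobiTheta (u + I / n) * rem x F (u + I / n)‖ * rexp π
        ≤ (C * ((n : ℝ) ^ (1 / 4 : ℝ) * RB c x n u)) * rexp π :=
          mul_le_mul_of_nonneg_right (hr x F n u hx hF hn hu1 hu) (Real.exp_pos _).le
      _ = (C * rexp π * (n : ℝ) ^ (1 / 4 : ℝ)) * RB c x n u := by ring
  have hint := (RB_integrable (c := c) hc hx hn1).const_mul (C * rexp π * (n : ℝ) ^ (1 / 4 : ℝ))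
  refine (intervalIntegral.norm_integral_le_of_norm_le (by norm_num) hb hint).trans ?_
  rw [intervalIntegral.integral_const_mul]
  calc C * rexp π * (n : ℝ) ^ (1 / 4 : ℝ) * ∫ u in (-1 : ℝ)..1, RB c x n u
      ≤ C * rexp π * (n : ℝ) ^ (1 / 4 : ℝ) * (C' * x ^ (-(3 / 4) : ℝ)) :=
        mul_le_mul_of_nonneg_left (hI x n hx hn1) (by positivity)
    _ = C * rexp π * C' * ((n : ℝ) ^ (1 / 4 : ℝ) * x ^ (-(3 / 4) : ℝ)) := by ring

end Pool.Agent.Helper31.FI
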