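import Pool.Agent.Helper31.FI.LamPos
import Pool.Agent.Helper31.FI.EpEst

/-!
# FI-RF: bound for the real part of `F / θ` on `D0c`

`f = F / θ`, `β = 1/4 + δ ≤ 3/4`.  `f_inv`: divide `Gen.inv` by `θ` and use `theta_inv`:
`f τ + f (-1/τ) = ep τ + ep (-1/τ)`.  On `‖τ‖ = 1` one has `-1/τ = sr τ`, so `Re f = Re ep`.  There, if `re τ ≥ 0`, put
`z = 1/(1-τ)`: `re z = 1/2`, `im z ≥ 1/2` (`cusp_im`); `ep_cusp` and `one_add_Lam_low`, `re_Qb` give
`|Re f| ≤ C e Re Qb β`, `e = exp (-√(x δ))`, `C` absolute (`re τ < 0`: `ep_conj`, `Lam_conj`).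
`maxprin` for `W = exp (± f - C e Qb β)`, `M = 1`.  Infinity: `f` is bounded for `im τ ≥ 1` (`Gen.gr`, `theta_sub_one`) and
`Re Qb ≥ 0`.  Cusp (fixed `x`, `δ`, `F`): `‖f‖ ≤ C' (1 + 1/im τ)^A exp (π im z/4)` with `1/im τ = |z|²/im z ≤ 2 im z + 1`
while `Re Qb β ≥ c exp (π β im z)` and `β > 1/4`, so `W → 0` as `im τ → 0`.
-/

set_option autoImplicit false

namespace Pool.Agent.Helper31.FI

open Complex Real

theorem f_inv {x : ℝ} {F : ℂ → ℂ} (hF : Gen x F) {τ : ℂ} (hτ : 0 < τ.im) :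
    F τ / jacobiTheta τ + F (-1 / τ) / jacobiTheta (-1 / τ) = ep x τ + ep x (-1 / τ) := by
  have h0 := theta_ne hτ
  have hτ0 : τ ≠ 0 := by
    rintro rfl
    simp at hτ
  have hu : (-I * τ) ≠ 0 := mul_ne_zero (neg_ne_zero.2 I_ne_zero) hτ0
  have hu' : (-I * τ) ^ (1 / 2 : ℂ) ≠ 0 := by
    rw [Ne, cpow_eq_zero_iff]
    exact fun h => hu h.1
  have h1 : (-I * τ) ^ (-(1 / 2) : ℂ) = ((-I * τ) ^ (1 / 2 : ℂ))⁻¹ := cpow_neg _ _
  have h2 := hF.inv τ hτ
  unfold ep
  rw [theta_inv hτ]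
  rw [h1] at h2
  calc F τ / jacobiTheta τ + F (-1 / τ) / ((-I * τ) ^ (1 / 2 : ℂ) * jacobiTheta τ)
      = (F τ + ((-I * τ) ^ (1 / 2 : ℂ))⁻¹ * F (-1 / τ)) / jacobiTheta τ := by
        field_simp
    _ = (ex x τ + ((-I * τ) ^ (1 / 2 : ℂ))⁻¹ * ex x (-1 / τ)) / jacobiTheta τ := by rw [h2]
    _ = _ := by field_simp

private theorem ReF_sr_im (τ : ℂ) : (sr τ).im = τ.im := by
  unfold sr
  simp

private theorem ReF_sr_re (τ : ℂ) : (sr τ).re = -τ.re := by
  unfold sr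
  simp

private theorem ReF_sr_norm (τ : ℂ) : ‖sr τ‖ = ‖τ‖ := by
  unfold sr
  rw [norm_neg, Complex.norm_conj]

private theorem ReF_pt {τ : ℂ} (h : τ ∈ FD) (h2 : τ.im ≤ 2) :
    ∃ z : ℂ, 24 / 100 ≤ z.im ∧ |z.re| ≤ 1 / 2 ∧ (1 - 1 / z = τ ∨ 1 - 1 / z = sr τ) := by
  have key : ∀ w ∈ FD, 0 ≤ w.re → w.im ≤ 2 →
      ∃ z : ℂ, 24 / 100 ≤ z.im ∧ |z.re| ≤ 1 / 2 ∧ 1 - 1 / z = w := by
    intro w hw h0 h1
    obtain ⟨a, b, c⟩ := cusp_im hw h0 h1
    refine ⟨1 / (1 - w), a, ?_, ?_⟩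
    · rw [abs_of_nonneg b]
      exact c
    · have hne : 1 - w ≠ 0 := by
        intro h3
        have h4 := congrArg Complex.im h3
        have h5 := hw.1
        simp at h4
        linarith
      field_simp
      ring
  rcases le_total 0 τ.re with h0 | h0
  · obtain ⟨z, a, b, c⟩ := key τ h h0 h2
    exact ⟨z, a, b, Or.inl c⟩
  · obtain ⟨z, a, b, c⟩ := key (sr τ) ⟨by rw [ReF_sr_im]; exact h.1,
      by rw [ReF_sr_re, abs_neg]; exact h.2.1, by rw [ReF_sr_norm]; exact h.2.2⟩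
      (by rw [ReF_sr_re]; linarith) (by rw [ReF_sr_im]; exact h2)
    exact ⟨z, a, b, Or.inr c⟩

/-- norms of symmetric functions -/
private theorem ReF_sym {τ z : ℂ} (g : ℂ → ℂ) (hg : g (sr τ) = (starRingEnd ℂ) (g τ))
    (h : 1 - 1 / z = τ ∨ 1 - 1 / z = sr τ) : ‖g τ‖ = ‖g (1 - 1 / z)‖ := by
  rcases h with h | h
  · rw [h]
  · rw [h, hg, Complex.norm_conj]

private theorem ReF_im {τ z : ℂ} (h : 1 - 1 / z = τ ∨ 1 - 1 / z = sr τ) :
    τ.im = z.im / normSq z := by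
  have h1 : τ.im = (1 - 1 / z).im := by
    rcases h with h | h
    · rw [h]
    · rw [h, ReF_sr_im]
  rw [h1, Complex.sub_im, one_div, Complex.inv_im, Complex.one_im]
  ring

private theorem ReF_theta {z : ℂ} (hz : 1 ≤ z.im) :
    rexp (-(π * z.im / 4)) ≤ ‖jacobiTheta (1 - 1 / z)‖ := by
  have hz0 : 0 < z.im := by linarith
  rw [theta_cusp hz0, norm_mul]
  have h1 : (1 / 2 : ℂ) = ((1 / 2 : ℝ) : ℂ) := by push_cast; rfl
  have h2 : ‖(-I * z) ^ (1 / 2 : ℂ)‖ = ‖z‖ ^ (1 / 2 : ℝ) := by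
    rw [h1, Complex.norm_cpow_real, norm_mul, norm_neg, Complex.norm_I, one_mul]
  have h3 : 1 ≤ ‖z‖ := by
    calc (1 : ℝ) ≤ z.im := hz
      _ ≤ |z.im| := le_abs_self _
      _ ≤ ‖z‖ := Complex.abs_im_le_norm z
  have h4 : 1 ≤ ‖z‖ ^ (1 / 2 : ℝ) := Real.one_le_rpow h3 (by norm_num)
  have h5 := th2_low (τ := z) (by linarith)
  rw [h2]
  calc rexp (-(π * z.im / 4)) ≤ ‖th2 z‖ := h5
    _ = 1 * ‖th2 z‖ := (one_mul _).symm
    _ ≤ ‖z‖ ^ (1 / 2 : ℝ) * ‖th2 z‖ := mul_le_mul_of_nonneg_right h4 (norm_nonneg _)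

/-- exponentials beat powers -/
private theorem ReF_growth (a b ε : ℝ) (hb : 0 < b) (hε : 0 < ε) :
    ∃ Y : ℝ, 1 ≤ Y ∧ ∀ y : ℝ, Y ≤ y → (y + 3) ^ a ≤ ε * rexp (b * y) := by
  have h1 := tendsto_rpow_mul_exp_neg_mul_atTop_nhds_zero a b hb
  have hε' : 0 < ε * rexp (-(b * 3)) := by positivity
  have h2 := (h1.eventually (gt_mem_nhds hε')).exists_forall_of_atTop
  obtain ⟨T, hT⟩ := h2
  refine ⟨max 1 T, le_max_left _ _, fun y hy => ?_⟩
  have h3 := hT (y + 3) (by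
    have := le_max_right 1 T
    linarith)
  have h4 : rexp (-b * (y + 3)) = rexp (-(b * 3)) * rexp (-(b * y)) := by
    rw [← Real.exp_add]
    congr 1
    ring
  rw [h4] at h3
  have h5 : 0 < rexp (-(b * 3)) := Real.exp_pos _
  have h6 : (y + 3) ^ a * rexp (-(b * y)) < ε := by
    have h7 : (y + 3) ^ a * rexp (-(b * y)) * rexp (-(b * 3)) < ε * rexp (-(b * 3)) := by
      calc (y + 3) ^ a * rexp (-(b * y)) * rexp (-(b * 3))
          = (y + 3) ^ a * (rexp (-(b * 3)) * rexp (-(b * y))) := by ring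
        _ < _ := h3
    exact lt_of_mul_lt_mul_right h7 h5.le
  have h8 : rexp (-(b * y)) * rexp (b * y) = 1 := by
    rw [← Real.exp_add]
    simp
  calc (y + 3) ^ a = (y + 3) ^ a * (rexp (-(b * y)) * rexp (b * y)) := by rw [h8, mul_one]
    _ = ((y + 3) ^ a * rexp (-(b * y))) * rexp (b * y) := by ring
    _ ≤ ε * rexp (b * y) := mul_le_mul_of_nonneg_right h6.le (Real.exp_pos _).le

private theorem ReF_circle {x : ℝ} {F : ℂ → ℂ} (hF : Gen x F) {τ : ℂ} (hτ : 0 < τ.im)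
    (h1 : ‖τ‖ = 1) : (F τ / jacobiTheta τ).re = (ep x τ).re := by
  have h2 : -1 / τ = sr τ := by
    unfold sr
    rw [neg_div, one_div, Complex.inv_eq_conj h1]
  have h3 := f_inv hF hτ
  rw [h2, hF.sym τ hτ, theta_conj hτ, ep_conj x hτ, ← map_div₀] at h3
  have h4 := congrArg Complex.re h3
  rw [Complex.add_re, Complex.add_re, Complex.conj_re, Complex.conj_re] at h4
  linarith

theorem ref : ∃ C : ℝ, 0 < C ∧ ∀ (x δ : ℝ) (F : ℂ → ℂ), 0 ≤ x → 0 < δ → δ ≤ 1 / 2 → Gen x F →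
    ∀ τ ∈ D0c, |(F τ / jacobiTheta τ).re| ≤ C * rexp (-√(x * δ)) * (Qb (1 / 4 + δ) τ).re := by
  obtain ⟨C1, hC1, hep⟩ := ep_cusp
  obtain ⟨c, hc, hlow⟩ := one_add_Lam_low
  set m : ℝ := max 1 (1 / c) with hm
  have hm0 : 0 < m := lt_of_lt_of_le one_pos (le_max_left _ _)
  refine ⟨C1 * m * (10 / 3), by positivity, ?_⟩
  intro x δ F hx hδ hδ2 hF
  set β : ℝ := 1 / 4 + δ with hβ
  set e : ℝ := rexp (-√(x * δ)) with he
  have he0 : 0 < e := Real.exp_pos _
  have hβ0 : 0 ≤ β := by linarith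
  have hβ1 : β ≤ 3 / 4 := by linarith
  set K : ℝ := C1 * m * (10 / 3) with hK
  have hK0 : 0 < K := by positivity
  have hpi := Real.pi_pos
  have hpw : ∀ y : ℝ, rexp (π * y) ^ β = rexp (π * β * y) := by
    intro y
    rw [← Real.exp_mul]
    congr 1
    ring
  have hpow0 : ∀ (y : ℝ) (τ : ℂ), c * rexp (π * y) ≤ ‖1 + Lam τ‖ →
      c ^ β * rexp (π * β * y) ≤ ‖1 + Lam τ‖ ^ β := by
    intro y τ h
    have h2 := Real.rpow_le_rpow (by positivity) h hβ0
    rwa [Real.mul_rpow hc.le (Real.exp_pos _).le, hpw] at h2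
  have hmc : 1 ≤ m * c ^ β := by
    rcases le_total 1 c with hc1 | hc1
    · calc (1 : ℝ) ≤ c ^ β := Real.one_le_rpow hc1 hβ0
        _ = 1 * c ^ β := (one_mul _).symm
        _ ≤ m * c ^ β := mul_le_mul_of_nonneg_right (le_max_left _ _) (by positivity)
    · have h3 : c ≤ c ^ β := by
        calc c = c ^ (1 : ℝ) := (Real.rpow_one c).symm
          _ ≤ c ^ β := Real.rpow_le_rpow_of_exponent_ge hc hc1 (by linarith)
      calc (1 : ℝ) = (1 / c) * c := by field_simp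
        _ ≤ m * c ^ β := mul_le_mul (le_max_right _ _) h3 hc.le hm0.le
  have hpow : ∀ (y : ℝ) (τ : ℂ), c * rexp (π * y) ≤ ‖1 + Lam τ‖ →
      rexp (π * β * y) ≤ m * ‖1 + Lam τ‖ ^ β := by
    intro y τ h
    have h2 := hpow0 y τ h
    calc rexp (π * β * y) = 1 * rexp (π * β * y) := (one_mul _).symm
      _ ≤ (m * c ^ β) * rexp (π * β * y) :=
        mul_le_mul_of_nonneg_right hmc (Real.exp_pos _).le
      _ = m * (c ^ β * rexp (π * β * y)) := by ring
      _ ≤ m * ‖1 + Lam τ‖ ^ β := mul_le_mul_of_nonneg_left h2 hm0.le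
  have hLsym : ∀ τ : ℂ, 0 < τ.im →
      (fun w => 1 + Lam w) (sr τ) = (starRingEnd ℂ) ((fun w => 1 + Lam w) τ) := by
    intro τ hτ
    change 1 + Lam (sr τ) = (starRingEnd ℂ) (1 + Lam τ)
    rw [Lam_conj hτ, map_add, map_one]
  have hlow2 : ∀ τ : ℂ, 0 < τ.im → ∀ z : ℂ, 24 / 100 ≤ z.im → |z.re| ≤ 1 / 2 →
      (1 - 1 / z = τ ∨ 1 - 1 / z = sr τ) → c * rexp (π * z.im) ≤ ‖1 + Lam τ‖ := by
    intro τ hτ z hz1 hz2 hz3
    have h1 : ‖1 + Lam τ‖ = ‖1 + Lam (1 - 1 / z)‖ :=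
      ReF_sym (fun w => 1 + Lam w) (hLsym τ hτ) hz3
    rw [h1]
    exact hlow z (by linarith) hz2
  -- the bound for `ep`
  have hbd : ∀ τ ∈ FD, τ.im ≤ 2 → ‖ep x τ‖ ≤ K * e * (Qb β τ).re := by
    intro τ hτ hτ2
    obtain ⟨z, hz1, hz2, hz3⟩ := ReF_pt hτ hτ2
    have h1 := ReF_sym (ep x) (ep_conj x hτ.1) hz3
    have h2 := hep x δ z hx hδ (by linarith) (by linarith)
    have h3 := hpow z.im τ (hlow2 τ hτ.1 z hz1 hz2 hz3)
    have h4 := re_Qb hβ0 hβ1 (FD_sub hτ)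
    have h5 : π * (δ + 1 / 4) * z.im = π * β * z.im := by rw [hβ]; ring
    rw [h1]
    calc ‖ep x (1 - 1 / z)‖ ≤ C1 * e * rexp (π * β * z.im) := by rw [← h5]; exact h2
      _ ≤ C1 * e * (m * ‖1 + Lam τ‖ ^ β) := mul_le_mul_of_nonneg_left h3 (by positivity)
      _ ≤ C1 * e * (m * (10 / 3 * (Qb β τ).re)) := by
        refine mul_le_mul_of_nonneg_left (mul_le_mul_of_nonneg_left ?_ hm0.le) (by positivity)
        linarith
      _ = K * e * (Qb β τ).re := by rw [hK]; ring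
  have hQ0 : ∀ τ ∈ D0c, 0 ≤ (Qb β τ).re := by
    intro τ hτ
    refine le_trans ?_ (re_Qb hβ0 hβ1 hτ)
    positivity
  obtain ⟨C', A, hgr⟩ := hF.gr
  have hgr2 : ∀ τ : ℂ, 0 < τ.im → ‖F τ‖ ≤ |C'| * (1 + 1 / τ.im) ^ |A| := by
    intro τ hτ
    have h1 : 1 ≤ 1 + 1 / τ.im := by
      have : 0 < 1 / τ.im := by positivity
      linarith
    calc ‖F τ‖ ≤ C' * (1 + 1 / τ.im) ^ A := hgr τ hτ
      _ ≤ |C'| * (1 + 1 / τ.im) ^ A :=
        mul_le_mul_of_nonneg_right (le_abs_self _) (by positivity)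
      _ ≤ |C'| * (1 + 1 / τ.im) ^ |A| :=
        mul_le_mul_of_nonneg_left (Real.rpow_le_rpow_of_exponent_le h1 (le_abs_self _))
          (abs_nonneg _)
  have main : ∀ σ : ℝ, |σ| = 1 → ∀ τ ∈ D0c,
      σ * (F τ / jacobiTheta τ).re ≤ K * e * (Qb β τ).re := by
    intro σ hσ
    set W : ℂ → ℂ := fun τ => cexp ((σ : ℂ) * (F τ / jacobiTheta τ) - ((K * e : ℝ) : ℂ) * Qb β τ)
      with hW
    have hnorm : ∀ τ, ‖W τ‖ =
        rexp (σ * (F τ / jacobiTheta τ).re - K * e * (Qb β τ).re) := by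
      intro τ
      rw [hW]
      simp only
      rw [Complex.norm_exp, Complex.sub_re, Complex.re_ofReal_mul, Complex.re_ofReal_mul]
    have hσle : ∀ w : ℂ, σ * w.re ≤ ‖w‖ := by
      intro w
      calc σ * w.re ≤ |σ * w.re| := le_abs_self _
        _ = |w.re| := by rw [abs_mul, hσ, one_mul]
        _ ≤ ‖w‖ := Complex.abs_re_le_norm w
    have hdiff : ∀ τ ∈ D0c, DifferentiableAt ℂ W τ := by
      intro τ hτ
      have h1 : DifferentiableAt ℂ F τ := hF.ana.differentiableAt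
        ((isOpen_lt continuous_const Complex.continuous_im).mem_nhds hτ.1)
      have h2 : DifferentiableAt ℂ jacobiTheta τ := differentiableAt_jacobiTheta hτ.1
      have h3 := h1.div h2 (theta_ne hτ.1)
      exact ((h3.const_mul _).sub ((Qb_diff β hτ).const_mul _)).cexp
    have hmax := maxprin W 1 (fun τ hτ => (hdiff τ (D0_sub hτ)).differentiableWithinAt)
      (fun τ hτ => (hdiff τ hτ).continuousAt.continuousWithinAt) ?_ ?_ ?_ ?_
    · intro τ hτ
      have h1 := hmax τ hτ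
      rw [hnorm, Real.exp_le_one_iff] at h1
      linarith
    · -- periodicity
      intro τ hτ
      rw [hnorm, hnorm, hF.per τ hτ.1, add_comm τ 2, jacobiTheta_two_add, add_comm 2 τ]
      have h1 : Qb β (τ + 2) = Qb β τ := by
        unfold Qb
        rw [Lam_add_two hτ.1]
      rw [h1]
    · -- the circle
      intro τ hτ h1
      have hFD : τ ∈ FD := by
        refine ⟨hτ, ?_, h1.ge⟩
        rw [← h1]
        exact Complex.abs_re_le_norm τ
      have him : τ.im ≤ 2 := by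
        have h2 := Complex.abs_im_le_norm τ
        rw [h1] at h2
        linarith [le_abs_self τ.im]
      rw [hnorm, Real.exp_le_one_iff, ReF_circle hF hτ h1]
      have h2 := hbd τ hFD him
      have h3 := hσle (ep x τ)
      linarith
    · -- the cusp
      intro δ' hδ'
      have hκ : 0 < K * e * (3 / 10 * c ^ β) / (|C'| + 1) := by positivity
      obtain ⟨Y, hY1, hY⟩ := ReF_growth |A| (π * δ) _ (by positivity) hκ
      refine ⟨1 / (Y + 2), by positivity, ?_⟩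
      intro τ hτ hre him
      have hτc := D0_sub hτ
      have hτi : 0 < τ.im := hτc.1
      have hFD := im_small hτc hre
      have hv2 : 1 / (Y + 2) ≤ 2 := by
        rw [div_le_iff₀ (by linarith)]
        linarith
      obtain ⟨z, hz1, hz2, hz3⟩ := ReF_pt hFD (by linarith)
      have hz0 : 0 < z.im := by linarith
      have hnsq : normSq z = z.re * z.re + z.im * z.im := Complex.normSq_apply z
      have hre2 : z.re * z.re ≤ 1 / 4 := by
        have h5 : |z.re| * |z.re| ≤ 1 / 2 * (1 / 2) :=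
          mul_le_mul hz2 hz2 (abs_nonneg _) (by norm_num)
        rw [abs_mul_abs_self] at h5
        linarith
      have him2 := ReF_im hz3
      have hinv : 1 / τ.im ≤ z.im + 2 := by
        rw [him2, one_div_div, hnsq, div_le_iff₀ hz0]
        nlinarith
      have hYy : Y ≤ z.im := by
        have h5 : Y + 2 < 1 / τ.im := by
          rw [lt_div_iff₀ hτi]
          rw [lt_div_iff₀ (by linarith)] at him
          linarith
        linarith
      have h6 := hY z.im hYy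
      have h7 : ‖F τ‖ ≤ |C'| * (z.im + 3) ^ |A| := by
        refine (hgr2 τ hτi).trans (mul_le_mul_of_nonneg_left ?_ (abs_nonneg _))
        exact Real.rpow_le_rpow (by positivity) (by linarith) (abs_nonneg _)
      have h8 : rexp (-(π * z.im / 4)) ≤ ‖jacobiTheta τ‖ := by
        rw [ReF_sym jacobiTheta (theta_conj hτi) hz3]
        exact ReF_theta (by linarith)
      have h9 : ‖F τ / jacobiTheta τ‖ ≤ K * e * (3 / 10 * c ^ β) * rexp (π * β * z.im) := by
        rw [norm_div, div_le_iff₀ ((Real.exp_pos _).trans_le h8)]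
        calc ‖F τ‖ ≤ |C'| * (z.im + 3) ^ |A| := h7
          _ ≤ (|C'| + 1) * (z.im + 3) ^ |A| := by
            refine mul_le_mul_of_nonneg_right (by linarith) ?_
            exact Real.rpow_nonneg (by linarith) _
          _ ≤ (|C'| + 1) * (K * e * (3 / 10 * c ^ β) / (|C'| + 1) * rexp (π * δ * z.im)) :=
            mul_le_mul_of_nonneg_left h6 (by positivity)
          _ = K * e * (3 / 10 * c ^ β) * rexp (π * δ * z.im) := by
            field_simp
          _ = K * e * (3 / 10 * c ^ β) * rexp (π * β * z.im) * rexp (-(π * z.im / 4)) := by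
            have h10 : rexp (π * δ * z.im) = rexp (π * β * z.im) * rexp (-(π * z.im / 4)) := by
              rw [← Real.exp_add]
              congr 1
              rw [hβ]
              ring
            rw [h10]
            ring
          _ ≤ K * e * (3 / 10 * c ^ β) * rexp (π * β * z.im) * ‖jacobiTheta τ‖ :=
            mul_le_mul_of_nonneg_left h8 (by positivity)
      have h11 := hpow0 z.im τ (hlow2 τ hτi z hz1 hz2 hz3)
      have h12 := re_Qb hβ0 hβ1 hτc
      have h13 : K * e * (3 / 10 * c ^ β) * rexp (π * β * z.im) ≤ K * e * (Qb β τ).re := by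
        calc K * e * (3 / 10 * c ^ β) * rexp (π * β * z.im)
            = K * e * (3 / 10 * (c ^ β * rexp (π * β * z.im))) := by ring
          _ ≤ K * e * (3 / 10 * ‖1 + Lam τ‖ ^ β) := by
            refine mul_le_mul_of_nonneg_left ?_ (by positivity)
            linarith
          _ ≤ K * e * (Qb β τ).re := mul_le_mul_of_nonneg_left h12 (by positivity)
      have h14 := hσle (F τ / jacobiTheta τ)
      have h15 : ‖W τ‖ ≤ 1 := by
        rw [hnorm, Real.exp_le_one_iff]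
        linarith
      linarith
    · -- infinity
      refine ⟨rexp (|C'| * 2 ^ |A| / (1 / 2)), ?_⟩
      intro τ hτ
      have hτi : 0 < τ.im := by linarith
      have hτc : τ ∈ D0c := D0_sub (D0_up hτ)
      rw [hnorm, Real.exp_le_exp]
      have h1 : 0 ≤ K * e * (Qb β τ).re := mul_nonneg (by positivity) (hQ0 τ hτc)
      have h2 := hσle (F τ / jacobiTheta τ)
      have h3 : 1 / 2 ≤ ‖jacobiTheta τ‖ := by
        have h4 := theta_sub_one (τ := τ) (by linarith)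
        have h5 : (1 : ℝ) ≤ ‖jacobiTheta τ‖ + ‖jacobiTheta τ - 1‖ := by
          calc (1 : ℝ) = ‖(1 : ℂ)‖ := by simp
            _ = ‖jacobiTheta τ - (jacobiTheta τ - 1)‖ := by congr 1; ring
            _ ≤ _ := norm_sub_le _ _
        linarith
      have h4 : ‖F τ‖ ≤ |C'| * 2 ^ |A| := by
        refine (hgr2 τ hτi).trans (mul_le_mul_of_nonneg_left ?_ (abs_nonneg _))
        refine Real.rpow_le_rpow (by positivity) ?_ (abs_nonneg _)
        have h5 : 1 / τ.im ≤ 1 := by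
          rw [div_le_one hτi]
          exact hτ.le
        linarith
      have h5 : ‖F τ / jacobiTheta τ‖ ≤ |C'| * 2 ^ |A| / (1 / 2) := by
        rw [norm_div]
        exact div_le_div₀ (by positivity) h4 (by norm_num) h3
      linarith
  intro τ hτ
  rw [abs_le]
  have h1 := main 1 (by norm_num) τ hτ
  have h2 := main (-1) (by norm_num) τ hτ
  constructor
  · linarith
  · linarith

end Pool.Agent.Helper31.FI
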