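import Pool.Agent.Helper31.FI.GDefs

/-!
# FI-RO: rows and summability

For `|re τ| ≤ R` : `|c| ≤ |c τ + d| / im τ`, `|d| ≤ |c τ + d| + |c| R`, so
`max |c| |d| ≤ (1 + (1 + R)/im τ) |c τ + d|`; and `∑_{v ≠ 0} (max |c| |d|)^(-3) < ∞`
(Mathlib: `EisensteinSeries.summable_one_div_norm_rpow` or similar, or count `8 k` pairs with maximum `k`).
`G3` is the sum over all pairs (the term of `(0,0)` is `0 ^ (-3) = 0`).
-/

set_option autoImplicit false

namespace Pool.Agent.Helper31.FI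

open Complex Real

/-- bottom rows of the theta group -/
def Row (c d : ℤ) : Prop := IsCoprime c d ∧ Odd (c + d)

/-- absolute sum -/
noncomputable def G3 (τ : ℂ) : ℝ := ∑' v : ℤ × ℤ, ‖(v.1 : ℂ) * τ + v.2‖ ^ (-3 : ℝ)

theorem low_lin {τ : ℂ} (hτ : 0 < τ.im) {R : ℝ} (hR : |τ.re| ≤ R) (c d : ℤ) :
    max |(c : ℝ)| |(d : ℝ)| ≤ (1 + (1 + R) / τ.im) * ‖(c : ℂ) * τ + d‖ := by
  have hR0 : 0 ≤ R := (abs_nonneg _).trans hR
  set N := ‖(c : ℂ) * τ + d‖ with hN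
  have hN0 : 0 ≤ N := norm_nonneg _
  have him : |(c : ℝ)| * τ.im ≤ N := by
    have h1 := Complex.abs_im_le_norm ((c : ℂ) * τ + d)
    have h2 : ((c : ℂ) * τ + d).im = c * τ.im := by simp
    rw [h2, abs_mul, abs_of_pos hτ] at h1
    exact h1
  have hc : |(c : ℝ)| ≤ N / τ.im := (le_div_iff₀ hτ).2 him
  have hd : |(d : ℝ)| ≤ N + |(c : ℝ)| * R := by
    have h1 := Complex.abs_re_le_norm ((c : ℂ) * τ + d)
    have h2 : ((c : ℂ) * τ + d).re = c * τ.re + d := by simp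
    rw [h2] at h1
    have h3 : |(d : ℝ)| ≤ |(c : ℝ) * τ.re + d| + |(c : ℝ) * τ.re| := by
      have := abs_sub (((c : ℝ) * τ.re + d)) ((c : ℝ) * τ.re)
      calc |(d : ℝ)| = |((c : ℝ) * τ.re + d) - (c : ℝ) * τ.re| := by congr 1; ring
        _ ≤ _ := this
    have h4 : |(c : ℝ) * τ.re| ≤ |(c : ℝ)| * R := by
      rw [abs_mul]
      exact mul_le_mul_of_nonneg_left hR (abs_nonneg _)
    linarith
  have e : (1 + (1 + R) / τ.im) * N = N + N / τ.im + N / τ.im * R := by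
    field_simp
    ring
  have hNi : 0 ≤ N / τ.im := div_nonneg hN0 hτ.le
  rw [e]
  refine max_le ?_ ?_
  · have : 0 ≤ N / τ.im * R := mul_nonneg hNi hR0
    linarith
  · have : |(c : ℝ)| * R ≤ N / τ.im * R := mul_le_mul_of_nonneg_right hc hR0
    linarith

theorem summable_max : Summable fun v : ℤ × ℤ => (max |(v.1 : ℝ)| |(v.2 : ℝ)|) ^ (-3 : ℝ) := by
  have h := EisensteinSeries.summable_one_div_norm_rpow (k := 3) (by norm_num)
  rw [← (finTwoArrowEquiv ℤ).symm.summable_iff] at h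
  refine h.congr fun v => ?_
  simp only [Function.comp, EisensteinSeries.norm_eq_max_natAbs]
  congr 1
  simp [Nat.cast_natAbs]

private theorem term_le {τ : ℂ} {K : ℝ} (hK : 0 < K) {v : ℤ × ℤ}
    (h : max |(v.1 : ℝ)| |(v.2 : ℝ)| ≤ K * ‖(v.1 : ℂ) * τ + v.2‖) :
    ‖(v.1 : ℂ) * τ + v.2‖ ^ (-3 : ℝ) ≤ K ^ 3 * (max |(v.1 : ℝ)| |(v.2 : ℝ)|) ^ (-3 : ℝ) := by
  set M := max |(v.1 : ℝ)| |(v.2 : ℝ)| with hM
  set N := ‖(v.1 : ℂ) * τ + v.2‖ with hN
  have hM0 : 0 ≤ M := (abs_nonneg _).trans (le_max_left _ _)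
  rcases hM0.eq_or_lt with h0 | h0
  · have h1 : |(v.1 : ℝ)| ≤ 0 := by rw [h0]; exact le_max_left _ _
    have h2 : |(v.2 : ℝ)| ≤ 0 := by rw [h0]; exact le_max_right _ _
    have h3 : v.1 = 0 := by
      have := abs_nonpos_iff.1 h1
      exact_mod_cast this
    have h4 : v.2 = 0 := by
      have := abs_nonpos_iff.1 h2
      exact_mod_cast this
    have h5 : N = 0 := by rw [hN, h3, h4]; simp
    rw [h5, ← h0, Real.zero_rpow (by norm_num)]
    simp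
  · have h1 : M / K ≤ N := by rw [div_le_iff₀ hK, mul_comm]; exact h
    have h2 : 0 < M / K := div_pos h0 hK
    have h3 := Real.rpow_le_rpow_of_nonpos h2 h1 (by norm_num : (-3 : ℝ) ≤ 0)
    refine h3.trans (le_of_eq ?_)
    rw [Real.div_rpow h0.le hK.le, Real.rpow_neg hK.le, div_inv_eq_mul, mul_comm]
    congr 1
    exact_mod_cast Real.rpow_natCast K 3

theorem summable_G3 {τ : ℂ} (hτ : 0 < τ.im) :
    Summable fun v : ℤ × ℤ => ‖(v.1 : ℂ) * τ + v.2‖ ^ (-3 : ℝ) := by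
  have hK : 0 < 1 + (1 + |τ.re|) / τ.im := by positivity
  refine Summable.of_nonneg_of_le (fun v => Real.rpow_nonneg (norm_nonneg _) _)
    (fun v => term_le hK (low_lin hτ le_rfl v.1 v.2)) ?_
  exact summable_max.mul_left _

theorem G3_le : ∃ C : ℝ, 0 < C ∧ ∀ τ : ℂ, 0 < τ.im → |τ.re| ≤ 2 → G3 τ ≤ C * (1 + 1 / τ.im) ^ 3 := by
  set S := ∑' v : ℤ × ℤ, (max |(v.1 : ℝ)| |(v.2 : ℝ)|) ^ (-3 : ℝ) with hS
  have hS0 : 0 ≤ S := tsum_nonneg fun v =>
    Real.rpow_nonneg ((abs_nonneg _).trans (le_max_left _ _)) _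
  refine ⟨27 * S + 1, by positivity, fun τ hτ hR => ?_⟩
  have hK : 0 < 1 + (1 + 2) / τ.im := by positivity
  have h1 : G3 τ ≤ (1 + (1 + 2) / τ.im) ^ 3 * S := by
    rw [hS, ← tsum_mul_left]
    unfold G3
    exact (summable_G3 hτ).tsum_le_tsum (fun v => term_le hK (low_lin hτ hR v.1 v.2))
      (summable_max.mul_left _)
  have h2 : 1 + (1 + 2) / τ.im ≤ 3 * (1 + 1 / τ.im) := by
    have : 0 < 1 / τ.im := by positivity
    have e : (1 + 2) / τ.im = 3 * (1 / τ.im) := by ring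
    rw [e]
    linarith
  have h3 : (1 + (1 + 2) / τ.im) ^ 3 ≤ (3 * (1 + 1 / τ.im)) ^ 3 :=
    pow_le_pow_left₀ hK.le h2 3
  have h4 : 0 ≤ (1 + 1 / τ.im) ^ 3 := by positivity
  calc G3 τ ≤ (1 + (1 + 2) / τ.im) ^ 3 * S := h1
    _ ≤ (3 * (1 + 1 / τ.im)) ^ 3 * S := mul_le_mul_of_nonneg_right h3 hS0
    _ = (27 * S) * (1 + 1 / τ.im) ^ 3 := by ring
    _ ≤ (27 * S + 1) * (1 + 1 / τ.im) ^ 3 := mul_le_mul_of_nonneg_right (by linarith) h4

theorem row_zero {d : ℤ} (h : Row 0 d) : d = 1 ∨ d = -1 := by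
  have h1 : IsUnit d := isCoprime_zero_left.1 h.1
  exact Int.isUnit_iff.1 h1

theorem row_T {c d : ℤ} : Row c (d + 2 * c) ↔ Row c d := by
  unfold Row
  have h1 : IsCoprime c (d + 2 * c) ↔ IsCoprime c d := by
    rw [mul_comm]
    exact IsCoprime.add_mul_left_right_iff
  have h2 : Odd (c + (d + 2 * c)) ↔ Odd (c + d) := by
    rw [← add_assoc, Int.odd_add]
    simp
  rw [h1, h2]

theorem row_S {c d : ℤ} : Row d (-c) ↔ Row c d := by
  unfold Row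
  have h1 : IsCoprime d (-c) ↔ IsCoprime c d := by
    rw [IsCoprime.neg_right_iff, isCoprime_comm]
  have h2 : Odd (d + -c) ↔ Odd (c + d) := by
    rw [Int.odd_iff, Int.odd_iff]
    omega
  rw [h1, h2]

end Pool.Agent.Helper31.FI
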