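import Pool.Agent.Helper31.FI.Anti

/-!
# FI-TE: evaluation of `Tn`

`Af 1`: arguments `σ₋ = (√N-√x)/√ν`, `σ₊ = (√N+√x)/√ν` real; by `Fr_eq`
`e(-) Fr σ₊ = w/2 exp (-π i σ₊²) - Wc σ₊` (`w = exp (π i/4)`), and for `x ≤ N` the same for `σ₋`; for `x > N` use `Fr_neg`:
`exp (-π i σ₋²) Fr σ₋ = - w/2 exp (-π i σ₋²) + Wc |σ₋|`.
`Af (-i ν/N)`: `X^(1/2) = √(ν/N) exp(-π i/4)`, `X^(-1/2) = √(N/ν) exp(π i/4)`; the arguments are
`± R exp(π i/4) + exp(-π i/4)`, `R = √(x N)/ν ≥ 2 √L`; `(R exp(π i/4) + exp(-π i/4))² = i R² + 2 R - i`, so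
`|exp (π i s²)| = exp (-π R² + π)`; for `s = R exp(πi/4) ± exp(-π i/4)` one has `re s + im s = √2 R ≥ 0`, so `‖Wc s‖ ≤ 1/2`.
Hence `Af (-iν/N) = - w/2 exp (-π i σ₋²) + w/2 exp (-π i σ₊²) + err`, `‖err‖ ≤ exp (π - 4 π L) ≤ 24 exp (-L)`.
-/

set_option autoImplicit false

namespace Pool.Agent.Helper31.FI

open Complex Real Finset MeasureTheory

private lemma TE_pow {ρ : ℝ} (hρ : 0 < ρ) :
    (-(I * (ρ : ℂ))) ^ (1 / 2 : ℂ) = (√ρ : ℝ) * cexp (-(π * I / 4)) ∧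
    (-(I * (ρ : ℂ))) ^ (-(1 / 2) : ℂ) = ((√ρ)⁻¹ : ℝ) * cexp (π * I / 4) := by
  have h1 : -(I * (ρ : ℂ)) = cexp ((Real.log ρ : ℂ) - π / 2 * I) := by
    rw [Complex.exp_sub, Complex.exp_pi_div_two_mul_I, ← Complex.ofReal_exp, Real.exp_log hρ,
      div_I]
    ring
  have h2 : Complex.log (-(I * (ρ : ℂ))) = (Real.log ρ : ℂ) - π / 2 * I := by
    rw [h1]
    have him : ((Real.log ρ : ℂ) - π / 2 * I).im = -(π / 2) := by simp
    apply Complex.log_exp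
    · rw [him]
      linarith [Real.pi_pos]
    · rw [him]
      linarith [Real.pi_pos]
  have h0 : -(I * (ρ : ℂ)) ≠ 0 := by
    rw [h1]
    exact Complex.exp_ne_zero _
  have h3 : √ρ = rexp (Real.log ρ / 2) := by
    rw [Real.exp_half, Real.exp_log hρ]
  have h4 : (√ρ)⁻¹ = rexp (-(Real.log ρ / 2)) := by
    rw [Real.exp_neg, ← h3]
  constructor
  · rw [Complex.cpow_def_of_ne_zero h0, h2, h3, Complex.ofReal_exp, ← Complex.exp_add]
    congr 1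
    push_cast
    ring
  · rw [Complex.cpow_def_of_ne_zero h0, h2, h4, Complex.ofReal_exp, ← Complex.exp_add]
    congr 1
    push_cast
    ring

private lemma TE_w : cexp (π * I / 4) = ((√2 / 2 : ℝ) : ℂ) + ((√2 / 2 : ℝ) : ℂ) * I := by
  have h : (π * I / 4 : ℂ) = ((π / 4 : ℝ) : ℂ) * I := by push_cast; ring
  rw [h, Complex.exp_mul_I, ← Complex.ofReal_cos, ← Complex.ofReal_sin, Real.cos_pi_div_four,
    Real.sin_pi_div_four]

private lemma TE_wb : cexp (-(π * I / 4)) = ((√2 / 2 : ℝ) : ℂ) - ((√2 / 2 : ℝ) : ℂ) * I := by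
  have h : (-(π * I / 4) : ℂ) = ((-(π / 4) : ℝ) : ℂ) * I := by push_cast; ring
  rw [h, Complex.exp_mul_I, ← Complex.ofReal_cos, ← Complex.ofReal_sin, Real.cos_neg,
    Real.sin_neg, Real.cos_pi_div_four, Real.sin_pi_div_four]
  push_cast
  ring

private lemma TE_half : ((√2 / 2 : ℝ) : ℂ) * ((√2 / 2 : ℝ) : ℂ) = 1 / 2 := by
  rw [← Complex.ofReal_mul]
  have : (√2 / 2) * (√2 / 2) = (1 / 2 : ℝ) := by
    have := Real.mul_self_sqrt (show (0 : ℝ) ≤ 2 by norm_num)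
    nlinarith
  rw [this]
  push_cast
  ring

/-- the two arguments far away -/
private lemma TE_far (R ε : ℝ) (hR : 0 ≤ R) (hε : ε = 1 ∨ ε = -1) :
    ‖cexp (π * I * (R * cexp (π * I / 4) + ε * cexp (-(π * I / 4))) ^ 2) *
      Wc (R * cexp (π * I / 4) + ε * cexp (-(π * I / 4)))‖ ≤ rexp (π - π * R ^ 2) * (1 / 2) := by
  have hε2 : ε * ε = 1 := by rcases hε with h | h <;> rw [h] <;> norm_num
  have hsq : (R * cexp (π * I / 4) + ε * cexp (-(π * I / 4))) ^ 2 =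
      ((2 * R * ε : ℝ) : ℂ) + ((R ^ 2 - 1 : ℝ) : ℂ) * I := by
    rw [TE_w, TE_wb]
    set c : ℂ := ((√2 / 2 : ℝ) : ℂ) with hc
    have hcc : c * c = 1 / 2 := TE_half
    have hI : I * I = -1 := Complex.I_mul_I
    have hε3 : (ε : ℂ) * ε = 1 := by rw [← Complex.ofReal_mul, hε2, Complex.ofReal_one]
    push_cast
    have : (R * (c + c * I) + ε * (c - c * I)) ^ 2 =
        (c * c) * ((R : ℂ) ^ 2 * (1 + 2 * I + I * I) + 2 * R * ε * (1 - I * I) +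
          (ε * ε) * (1 - 2 * I + I * I)) := by ring
    rw [this, hcc, hI, hε3]
    ring
  have h1 : ‖cexp (π * I * (R * cexp (π * I / 4) + ε * cexp (-(π * I / 4))) ^ 2)‖ =
      rexp (π - π * R ^ 2) := by
    rw [hsq, Complex.norm_exp]
    congr 1
    simp only [Complex.mul_re, Complex.add_re, Complex.add_im, Complex.ofReal_re,
      Complex.ofReal_im, Complex.mul_im, Complex.I_re, Complex.I_im]
    ring
  have h2 : ‖Wc (R * cexp (π * I / 4) + ε * cexp (-(π * I / 4)))‖ ≤ 1 / 2 := by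
    apply norm_Wc_le
    rw [TE_w, TE_wb]
    simp only [Complex.mul_re, Complex.add_re, Complex.add_im, Complex.ofReal_re, Complex.sub_re,
      Complex.sub_im, Complex.ofReal_im, Complex.mul_im, Complex.I_re, Complex.I_im]
    have h3 : 0 ≤ √2 := Real.sqrt_nonneg 2
    have h4 : 0 ≤ R * √2 := mul_nonneg hR h3
    nlinarith
  rw [norm_mul, h1]
  exact mul_le_mul_of_nonneg_left h2 (Real.exp_pos _).le

private lemma TE_unit (a : ℝ) : ‖cexp (-(π * I * (a : ℝ)))‖ = 1 := by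
  have : (-(π * I * (a : ℝ)) : ℂ) = ((-(π * a) : ℝ) : ℂ) * I := by push_cast; ring
  rw [this, Complex.norm_exp_ofReal_mul_I]

private lemma TE_real (σ : ℝ) :
    cexp (-(π * I * ((σ ^ 2 : ℝ) : ℂ))) * Fr (σ : ℂ) =
      cexp (-(π * I * ((σ ^ 2 : ℝ) : ℂ))) * (cexp (π * I / 4) / 2) - Wc σ := by
  rw [Fr_eq, mul_sub, ← mul_assoc (cexp (-(π * I * ((σ ^ 2 : ℝ) : ℂ)))) (cexp _) (Wc _),
    ← Complex.exp_add]
  have : (-(π * I * ((σ ^ 2 : ℝ) : ℂ)) + π * I * (σ : ℂ) ^ 2 : ℂ) = 0 := by push_cast; ring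
  rw [this, Complex.exp_zero, one_mul]

theorem teval {x N ν L : ℝ} (hx : 0 < x) (hN : 0 < N) (hν : 0 < ν) (hL : 1 ≤ L)
    (hV : ν ≤ √(x * N / L) / 2) :
    ‖Tn x N ν - (1 / √(ν * N) : ℝ) *
      ((if x ≤ N then cexp (π * I / 4) * cexp (-(π * I * ((√N - √x) ^ 2 / ν : ℝ))) else 0)
        - (if x ≤ N then 1 else -1) * Wc ((|√N - √x| / √ν : ℝ)) - Wc (((√N + √x) / √ν : ℝ)))‖ ≤
      1 / √(ν * N) * (24 * rexp (-L)) := by
  have hsν : 0 < √ν := Real.sqrt_pos.2 hν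
  have hsN : 0 < √N := Real.sqrt_pos.2 hN
  have hsx : 0 < √x := Real.sqrt_pos.2 hx
  have hνν : √ν * √ν = ν := Real.mul_self_sqrt hν.le
  have hsνc : ((√ν : ℝ) : ℂ) ≠ 0 := Complex.ofReal_ne_zero.2 hsν.ne'
  have hsNc : ((√N : ℝ) : ℂ) ≠ 0 := Complex.ofReal_ne_zero.2 hsN.ne'
  have hνc : (ν : ℂ) ≠ 0 := Complex.ofReal_ne_zero.2 hν.ne'
  set Am : ℂ := cexp (-(π * I * ((√N - √x) ^ 2 / ν : ℝ))) with hAm
  set Ap : ℂ := cexp (-(π * I * ((√N + √x) ^ 2 / ν : ℝ))) with hAp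
  set w : ℂ := cexp (π * I / 4) with hw
  have hAm1 : ‖Am‖ = 1 := TE_unit _
  have hAp1 : ‖Ap‖ = 1 := TE_unit _
  -- the value at `1`
  have hone : Af x N ν 1 = Am * Fr (((√N - √x) / √ν : ℝ)) + Ap * Fr (((√N + √x) / √ν : ℝ)) := by
    unfold Af
    rw [Complex.one_cpow, Complex.one_cpow, mul_one, mul_one, hAm, hAp]
    push_cast
    rfl
  have hsqm : ((√N - √x) / √ν) ^ 2 = (√N - √x) ^ 2 / ν := by
    rw [div_pow, Real.sq_sqrt hν.le]
  have hsqp : ((√N + √x) / √ν) ^ 2 = (√N + √x) ^ 2 / ν := by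
    rw [div_pow, Real.sq_sqrt hν.le]
  have hp1 : Ap * Fr (((√N + √x) / √ν : ℝ)) = Ap * (w / 2) - Wc (((√N + √x) / √ν : ℝ)) := by
    have := TE_real ((√N + √x) / √ν)
    rw [hsqp] at this
    exact this
  have hm1 : Am * Fr (((√N - √x) / √ν : ℝ)) =
      (if x ≤ N then w * Am else 0) - (if x ≤ N then 1 else -1) * Wc ((|√N - √x| / √ν : ℝ)) -
        Am * (w / 2) := by
    by_cases hxN : x ≤ N
    · rw [if_pos hxN, if_pos hxN]
      have h1 : |√N - √x| = √N - √x := abs_of_nonneg (sub_nonneg.2 (Real.sqrt_le_sqrt hxN))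
      rw [h1]
      have := TE_real ((√N - √x) / √ν)
      rw [hsqm] at this
      rw [← hAm, ← hw] at this
      rw [this]
      ring
    · rw [if_neg hxN, if_neg hxN]
      have h1 : |√N - √x| = -(√N - √x) :=
        abs_of_nonpos (sub_nonpos.2 (Real.sqrt_le_sqrt (not_le.1 hxN).le))
      rw [h1]
      have := TE_real (-(√N - √x) / √ν)
      have h2 : (-(√N - √x) / √ν) ^ 2 = (√N - √x) ^ 2 / ν := by
        rw [← hsqm]
        ring
      rw [h2, ← hAm, ← hw] at this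
      have h3 : (((√N - √x) / √ν : ℝ) : ℂ) = -(((-(√N - √x) / √ν : ℝ)) : ℂ) := by
        push_cast
        ring
      rw [h3, Fr_neg, mul_neg, this]
      ring
  -- the value at the other end
  set R : ℝ := √x * √N / ν with hR
  have hR0 : 0 ≤ R := by positivity
  have hR2 : 4 * L ≤ R ^ 2 := by
    have hL0 : 0 < L := by linarith
    have h1 : ν ^ 2 ≤ x * N / L / 4 := by
      have h2 : ν ^ 2 ≤ (√(x * N / L) / 2) ^ 2 := pow_le_pow_left₀ hν.le hV 2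
      rw [div_pow, Real.sq_sqrt (by positivity)] at h2
      linarith
    have h3 : R ^ 2 = x * N / ν ^ 2 := by
      rw [hR, div_pow, mul_pow, Real.sq_sqrt hx.le, Real.sq_sqrt hN.le]
    rw [h3, le_div_iff₀ (by positivity)]
    have h4 : 4 * L * (x * N / L / 4) = x * N := by field_simp
    calc 4 * L * ν ^ 2 ≤ 4 * L * (x * N / L / 4) := mul_le_mul_of_nonneg_left h1 (by positivity)
      _ = x * N := h4
  have hρ : 0 < ν / N := by positivity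
  obtain ⟨hq1, hq2⟩ := TE_pow hρ
  have hρc : ((ν / N : ℝ) : ℂ) = (ν : ℂ) / N := by push_cast; rfl
  rw [hρc] at hq1 hq2
  have hsq : √(ν / N) = √ν / √N := Real.sqrt_div hν.le N
  set wb : ℂ := cexp (-(π * I / 4)) with hwb
  have hνc2 : (ν : ℂ) = (√ν : ℝ) * (√ν : ℝ) := by
    rw [← Complex.ofReal_mul, hνν]
  have harg1 : ((√N : ℝ) * (-(I * ((ν : ℂ) / N))) ^ (1 / 2 : ℂ)) / (√ν : ℝ) = wb := by
    rw [hq1, hsq]
    push_cast
    field_simp
  have harg2 : ((√x : ℝ) * (-(I * ((ν : ℂ) / N))) ^ (-(1 / 2) : ℂ)) / (√ν : ℝ) = (R : ℝ) * w := by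
    rw [hq2, hsq, hR, ← hw]
    push_cast
    rw [hνc2]
    field_simp
  have hend : Af x N ν (-(I * ((ν : ℂ) / N))) =
      -(Am * Fr ((R : ℝ) * w + ((-1 : ℝ) : ℂ) * wb)) + Ap * Fr ((R : ℝ) * w + ((1 : ℝ) : ℂ) * wb) := by
    unfold Af
    rw [sub_div, add_div, harg1, harg2]
    have h1 : wb - (R : ℝ) * w = -((R : ℝ) * w + ((-1 : ℝ) : ℂ) * wb) := by
      push_cast
      ring
    have h2 : wb + (R : ℝ) * w = (R : ℝ) * w + ((1 : ℝ) : ℂ) * wb := by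
      push_cast
      ring
    rw [h1, h2, Fr_neg, mul_neg]
  have hf1 := TE_far R 1 hR0 (Or.inl rfl)
  have hf2 := TE_far R (-1) hR0 (Or.inr rfl)
  rw [← hw, ← hwb] at hf1 hf2
  have hexp : rexp (π - π * R ^ 2) ≤ rexp (-L) := by
    apply Real.exp_le_exp.2
    have h1 := Real.pi_gt_three
    nlinarith
  have hkey : (Af x N ν 1 - Af x N ν (-(I * ((ν : ℂ) / N)))) -
      ((if x ≤ N then w * Am else 0)
        - (if x ≤ N then 1 else -1) * Wc ((|√N - √x| / √ν : ℝ)) - Wc (((√N + √x) / √ν : ℝ))) =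
      -(Am * (cexp (π * I * ((R : ℝ) * w + ((-1 : ℝ) : ℂ) * wb) ^ 2) *
          Wc ((R : ℝ) * w + ((-1 : ℝ) : ℂ) * wb))) +
        Ap * (cexp (π * I * ((R : ℝ) * w + ((1 : ℝ) : ℂ) * wb) ^ 2) *
          Wc ((R : ℝ) * w + ((1 : ℝ) : ℂ) * wb)) := by
    rw [hone, hend, hm1, hp1, Fr_eq ((R : ℝ) * w + ((-1 : ℝ) : ℂ) * wb),
      Fr_eq ((R : ℝ) * w + ((1 : ℝ) : ℂ) * wb), ← hw]
    ring
  rw [tint hx hN hν, ← mul_sub, hkey, norm_mul, Complex.norm_real, Real.norm_eq_abs,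
    abs_of_nonneg (by positivity)]
  apply mul_le_mul_of_nonneg_left _ (by positivity)
  refine (norm_add_le _ _).trans ?_
  rw [norm_neg, norm_mul Am, norm_mul Ap, hAm1, hAp1, one_mul, one_mul]
  have h5 := Real.exp_pos (-L)
  linarith

end Pool.Agent.Helper31.FI
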