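import Pool.Agent.Helper31.FI.CMult

/-!
# FI-TQ: one term of the path sum is one term of a chain

`τ = u + I/n`, `y = j² τ + j m = (j² u + j m) + I/N`, `N = n/j²`, `ν = c₀/j + i`; `gm = 1 + y/(1 - ν y)`, so
`ex x (gm ..) = exp (π i x) exp (π i x y/(1 - ν y))`, and `τ = y/j² - m/j`, so
`exp (-π i n τ) = exp (π i n m/j) exp (-π i N y)`.  The constant `κ` is the one of `chain_mult` times these two unimodular numbers.
-/

set_option autoImplicit false

namespace Pool.Agent.Helper31.FI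

open Complex Real

theorem term_eq (x : ℝ) {n : ℕ} (hn : 1 ≤ n) {j m c₀ d₀ : ℤ} (hj : 1 ≤ j) (hjo : Odd j) (hm : Odd m)
    (hc : 1 ≤ c₀) (hdet : c₀ * m - j * d₀ = 1) :
    ∃ κ : ℂ, ‖κ‖ = 1 ∧ ∀ (i : ℕ) (u : ℝ),
      jacobiTheta (u + I / n) * ((-1 : ℂ) ^ (c₀ + i * j) *
          ep x (gm j m (c₀ + i * j) (d₀ + i * m) (u + I / n))) * cexp (-(π * I * n * (u + I / n))) =
        κ * (√(j : ℝ) : ℝ) * (ze ^ i * gk x (n / (j : ℝ) ^ 2) ((c₀ : ℝ) / j + i)
          (((j : ℝ) ^ 2 * u + j * m : ℝ) + I / ((n / (j : ℝ) ^ 2 : ℝ) : ℂ))) := by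
  obtain ⟨κ, hκ, H⟩ := chain_mult hj hjo hm hc hdet
  have hn0 : (n : ℂ) ≠ 0 := by
    have : n ≠ 0 := by omega
    exact_mod_cast this
  have hj0 : (j : ℂ) ≠ 0 := by
    have : j ≠ 0 := by omega
    exact_mod_cast this
  refine ⟨κ * cexp (π * I * x) * cexp (π * I * ((n * m / j : ℝ) : ℂ)), ?_, ?_⟩
  · have h1 : ‖cexp (π * I * x)‖ = 1 := by
      have : (π * I * x : ℂ) = ((π * x : ℝ) : ℂ) * I := by push_cast; ring
      rw [this, Complex.norm_exp_ofReal_mul_I]
    have h2 : ‖cexp (π * I * ((n * m / j : ℝ) : ℂ))‖ = 1 := by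
      have : (π * I * ((n * m / j : ℝ) : ℂ) : ℂ) = ((π * (n * m / j) : ℝ) : ℂ) * I := by
        push_cast
        ring
      rw [this, Complex.norm_exp_ofReal_mul_I]
    rw [norm_mul, norm_mul, hκ, h1, h2]
    norm_num
  · intro i u
    set τ : ℂ := u + I / n with hτdef
    have hτ : 0 < τ.im := by
      have h1 : τ.im = 1 / n := by
        rw [hτdef, add_im, ofReal_im, zero_add]
        have h2 : (I / (n : ℂ)) = ((1 / (n : ℝ) : ℝ) : ℂ) * I := by
          push_cast
          field_simp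
        rw [h2]
        simp
      rw [h1]
      have : (0 : ℝ) < n := by exact_mod_cast hn
      positivity
    set Y : ℂ := (j : ℂ) ^ 2 * τ + j * m with hYdef
    have hY : ((((j : ℝ) ^ 2 * u + j * m : ℝ)) : ℂ) + I / ((n / (j : ℝ) ^ 2 : ℝ) : ℂ) = Y := by
      rw [hYdef, hτdef]
      push_cast
      field_simp
      ring
    have hdetC : (c₀ : ℂ) * m - j * d₀ = 1 := by exact_mod_cast hdet
    have hW : 1 - ((c₀ : ℂ) / j + i) * Y = -(j * ((c₀ + i * j) * τ + (d₀ + i * m))) := by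
      rw [hYdef]
      field_simp
      linear_combination -hdetC
    have hcd : ((c₀ : ℂ) + i * j) * τ + (d₀ + i * m) ≠ 0 := by
      intro h0
      have h1 := congrArg Complex.im h0
      have h2 : (((c₀ : ℂ) + i * j) * τ + (d₀ + i * m)).im = ((c₀ : ℝ) + i * j) * τ.im := by
        simp
      rw [h2, zero_im] at h1
      have h3 : (0 : ℝ) < (c₀ : ℝ) + i * j := by
        have h4 : (1 : ℝ) ≤ c₀ := by exact_mod_cast hc
        have h5 : (1 : ℝ) ≤ j := by exact_mod_cast hj
        positivity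
      exact absurd h1 (mul_pos h3 hτ).ne'
    have hgm : gm j m (c₀ + i * j) (d₀ + i * m) τ = 1 + Y / (1 - ((c₀ : ℂ) / j + i) * Y) := by
      rw [hW]
      unfold gm
      push_cast
      rw [hYdef]
      field_simp
      ring
    have hNY : (n : ℂ) / j ^ 2 * Y = n * τ + n * m / j := by
      rw [hYdef]
      field_simp
    have hexp : cexp (π * I * x * gm j m (c₀ + i * j) (d₀ + i * m) τ) * cexp (-(π * I * n * τ)) =
        cexp (π * I * x) * cexp (π * I * ((n * m / j : ℝ) : ℂ)) *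
          cexp (π * I * (x * Y / (1 - ((c₀ : ℂ) / j + i) * Y) - (n : ℂ) / j ^ 2 * Y)) := by
      rw [← Complex.exp_add, ← Complex.exp_add, ← Complex.exp_add, hgm, hNY]
      congr 1
      push_cast
      ring
    have hH := H i τ hτ
    rw [hY]
    unfold ep gk ex
    calc jacobiTheta τ * ((-1 : ℂ) ^ (c₀ + i * j) *
          (cexp (π * I * x * gm j m (c₀ + i * j) (d₀ + i * m) τ) /
            jacobiTheta (gm j m (c₀ + i * j) (d₀ + i * m) τ))) * cexp (-(π * I * n * τ))
        = ((-1 : ℂ) ^ (c₀ + i * j) * (jacobiTheta τ /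
            jacobiTheta (gm j m (c₀ + i * j) (d₀ + i * m) τ))) *
          (cexp (π * I * x * gm j m (c₀ + i * j) (d₀ + i * m) τ) * cexp (-(π * I * n * τ))) := by
          ring
      _ = _ := by
          rw [hH, hexp]
          push_cast
          ring

end Pool.Agent.Helper31.FI
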