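import Pool.Agent.Helper31.FI.GDefs

/-!
# FI-T2: the second theta constant and the function `Lam`

`th2 τ = ∑ exp (π i (n + 1/2)² τ)`.
* `th2_add_one`: `(n+1/2)² = n² + n + 1/4`, `n² + n` even.  In terms of `jacobiTheta₂`: `jacobiTheta₂_add_right`,
  `jacobiTheta₂_add_left'` (quasi periodicity) or directly from the series.
* `theta_cusp`: `jacobiTheta (1 - 1/τ) = jacobiTheta₂ (1/2) (-1/τ)` (termwise `(-1)^(n²) = (-1)^n`), then
  `jacobiTheta₂_functional_equation (τ/2) τ`.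
* `theta_inv`: `jacobiTheta_S_smul`.
* `th2_inv`: apply `theta_cusp` at `-1/τ`.
* `Lam = (θ₄⁴ - θ₂⁴)/θ₃⁴`, with `θ₄ τ = jacobiTheta (τ + 1)`: under `τ ↦ -1/τ`: `θ₄⁴ ↦ -τ² θ₂⁴`, `θ₂⁴ ↦ -τ² θ₄⁴`,
  `θ₃⁴ ↦ -τ² θ₃⁴`.
-/

set_option autoImplicit false

namespace Pool.Agent.Helper31.FI

open Complex Real

/-- theta constant with characteristic one half -/
noncomputable def th2 (τ : ℂ) : ℂ := cexp (π * I * τ / 4) * jacobiTheta₂ (τ / 2) τ

/-- the Hauptmodul-like function -/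
noncomputable def Lam (τ : ℂ) : ℂ := (jacobiTheta (τ + 1) ^ 4 - th2 τ ^ 4) / jacobiTheta τ ^ 4

private lemma t2_shift (z τ : ℂ) : jacobiTheta₂ z (τ + 1) = jacobiTheta₂ (z + 1 / 2) τ := by
  refine tsum_congr fun n => ?_
  simp_rw [jacobiTheta₂_term, Complex.exp_add]
  have h1 : cexp (π * I * n ^ 2 * (τ + 1)) = cexp (π * I * n ^ 2 * τ) * cexp (π * I * n) := by
    rw [← Complex.exp_add, Complex.exp_eq_exp_iff_exists_int]
    obtain ⟨k, hk⟩ := Int.even_mul_succ_self (n - 1)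
    refine ⟨k, ?_⟩
    have h2 : ((n : ℂ) ^ 2) = n + 2 * k := by
      have h3 : (n - 1) * (n - 1 + 1) = k + k := hk
      have h4 : n ^ 2 = n + 2 * k := by linarith
      exact_mod_cast h4
    rw [h2]
    ring
  have h5 : cexp (2 * π * I * n * (z + 1 / 2)) = cexp (2 * π * I * n * z) * cexp (π * I * n) := by
    rw [← Complex.exp_add]
    congr 1
    ring
  rw [h1, h5]
  ring

private lemma t2_ne {τ : ℂ} (hτ : 0 < τ.im) : τ ≠ 0 := by
  rintro rfl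
  simp at hτ

private lemma t2_im {τ : ℂ} (hτ : 0 < τ.im) : 0 < (-1 / τ).im := by
  have h := t2_ne hτ
  rw [neg_div, one_div, Complex.neg_im, Complex.inv_im]
  have h2 : 0 < Complex.normSq τ := Complex.normSq_pos.2 h
  rw [neg_div, neg_neg]
  exact div_pos hτ h2

private lemma t2_pow_ne {τ : ℂ} (hτ : 0 < τ.im) : (-I * τ) ^ (1 / 2 : ℂ) ≠ 0 := by
  rw [Ne, Complex.cpow_eq_zero_iff]
  rintro ⟨h, -⟩
  rcases mul_eq_zero.1 h with h | h
  · simp at h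
  · exact t2_ne hτ h

private lemma t2_pow4 (τ : ℂ) : ((-I * τ) ^ (1 / 2 : ℂ)) ^ 4 = -τ ^ 2 := by
  rw [← Complex.cpow_nat_mul]
  have h1 : ((4 : ℕ) : ℂ) * (1 / 2) = ((2 : ℕ) : ℂ) := by norm_num
  rw [h1, Complex.cpow_natCast, mul_pow, neg_sq, Complex.I_sq]
  ring

theorem th2_add_one {τ : ℂ} (hτ : 0 < τ.im) : th2 (τ + 1) = cexp (π * I / 4) * th2 τ := by
  have h1 : (τ + 1) / 2 + 1 / 2 = τ / 2 + 1 := by ring
  rw [th2, th2, t2_shift, h1, jacobiTheta₂_add_left, ← mul_assoc, ← Complex.exp_add]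
  congr 2
  ring

theorem differentiableAt_th2 {τ : ℂ} (hτ : 0 < τ.im) : DifferentiableAt ℂ th2 τ := by
  have h1 : DifferentiableAt ℂ (fun p : ℂ × ℂ => jacobiTheta₂ p.1 p.2) (τ / 2, τ) :=
    (hasFDerivAt_jacobiTheta₂ (τ / 2) hτ).differentiableAt
  have h2 : DifferentiableAt ℂ (fun t : ℂ => (t / 2, t)) τ := by fun_prop
  have h3 : DifferentiableAt ℂ (fun t : ℂ => jacobiTheta₂ (t / 2) t) τ :=
    DifferentiableAt.comp (f := fun t : ℂ => (t / 2, t)) τ h1 h2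
  have h4 : DifferentiableAt ℂ (fun t : ℂ => cexp (π * I * t / 4)) τ := by fun_prop
  exact h4.mul h3

theorem theta_inv {τ : ℂ} (hτ : 0 < τ.im) :
    jacobiTheta (-1 / τ) = (-I * τ) ^ (1 / 2 : ℂ) * jacobiTheta τ := by
  have h := jacobiTheta₂_functional_equation 0 τ
  rw [jacobiTheta_eq_jacobiTheta₂, jacobiTheta_eq_jacobiTheta₂, h, zero_div]
  have h1 : -(π : ℂ) * I * 0 ^ 2 / τ = 0 := by simp
  rw [h1, Complex.exp_zero, mul_one, ← mul_assoc, mul_one_div_cancel (t2_pow_ne hτ), one_mul]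

theorem theta_cusp {τ : ℂ} (hτ : 0 < τ.im) :
    jacobiTheta (1 - 1 / τ) = (-I * τ) ^ (1 / 2 : ℂ) * th2 τ := by
  have h0 := t2_ne hτ
  have h := jacobiTheta₂_functional_equation (τ / 2) τ
  have h2 : (1 : ℂ) - 1 / τ = -1 / τ + 1 := by ring
  have h3 : τ / 2 / τ = 0 + 1 / 2 := by
    field_simp
    ring
  rw [jacobiTheta_eq_jacobiTheta₂, h2, t2_shift, th2, h, h3]
  have h1 : -(π : ℂ) * I * (τ / 2) ^ 2 / τ = -(π * I * τ / 4) := by
    field_simp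
    ring
  rw [h1, Complex.exp_neg]
  have h4 := Complex.exp_ne_zero (π * I * τ / 4)
  have h5 := t2_pow_ne hτ
  field_simp

theorem th2_inv {τ : ℂ} (hτ : 0 < τ.im) : th2 (-1 / τ) ^ 4 = -(τ ^ 2 * jacobiTheta (τ + 1) ^ 4) := by
  have h0 := t2_ne hτ
  have h := theta_cusp (t2_im hτ)
  have h1 : (1 : ℂ) - 1 / (-1 / τ) = τ + 1 := by
    field_simp
    ring
  rw [h1] at h
  rw [h, mul_pow, t2_pow4]
  field_simp

theorem theta_conj {τ : ℂ} (hτ : 0 < τ.im) : jacobiTheta (sr τ) = (starRingEnd ℂ) (jacobiTheta τ) := by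
  rw [jacobiTheta_eq_jacobiTheta₂, jacobiTheta_eq_jacobiTheta₂, jacobiTheta₂_conj, map_zero, sr]

private lemma t2_inv4 {τ : ℂ} (hτ : 0 < τ.im) :
    jacobiTheta (-1 / τ) ^ 4 = -(τ ^ 2 * jacobiTheta τ ^ 4) := by
  rw [theta_inv hτ, mul_pow, t2_pow4]
  ring

private lemma t2_cusp4 {τ : ℂ} (hτ : 0 < τ.im) :
    jacobiTheta (1 - 1 / τ) ^ 4 = -(τ ^ 2 * th2 τ ^ 4) := by
  rw [theta_cusp hτ, mul_pow, t2_pow4]
  ring

private lemma t2_e4 : cexp (π * I / 4) ^ 4 = -1 := by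
  rw [← Complex.exp_nat_mul]
  have h1 : ((4 : ℕ) : ℂ) * (π * I / 4) = π * I := by
    push_cast
    ring
  rw [h1, Complex.exp_pi_mul_I]

theorem Lam_add_two {τ : ℂ} (hτ : 0 < τ.im) : Lam (τ + 2) = Lam τ := by
  have h1 : jacobiTheta (τ + 2 + 1) = jacobiTheta (τ + 1) := by
    rw [show τ + 2 + 1 = 2 + (τ + 1) by ring, jacobiTheta_two_add]
  have h2 : jacobiTheta (τ + 2) = jacobiTheta τ := by
    rw [add_comm, jacobiTheta_two_add]
  have h3 : 0 < (τ + 1).im := by simpa using hτ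
  have h4 : th2 (τ + 2) ^ 4 = th2 τ ^ 4 := by
    rw [show τ + 2 = τ + 1 + 1 by ring, th2_add_one h3, th2_add_one hτ, mul_pow, mul_pow, t2_e4]
    ring
  rw [Lam, Lam, h1, h2, h4]

theorem Lam_inv {τ : ℂ} (hτ : 0 < τ.im) : Lam (-1 / τ) = -Lam τ := by
  have h0 := t2_ne hτ
  have h1 : (-1 : ℂ) / τ + 1 = 1 - 1 / τ := by ring
  rw [Lam, Lam, h1, t2_cusp4 hτ, th2_inv hτ, t2_inv4 hτ]
  have h2 : -(τ ^ 2 * th2 τ ^ 4) - -(τ ^ 2 * jacobiTheta (τ + 1) ^ 4) =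
      τ ^ 2 * (jacobiTheta (τ + 1) ^ 4 - th2 τ ^ 4) := by ring
  rw [h2, div_neg, mul_div_mul_left _ _ (pow_ne_zero 2 h0)]

theorem Lam_cusp {τ : ℂ} (hτ : 0 < τ.im) :
    Lam (1 - 1 / τ) = (jacobiTheta τ ^ 4 + jacobiTheta (τ + 1) ^ 4) / th2 τ ^ 4 := by
  have h0 := t2_ne hτ
  have h1 : jacobiTheta (1 - 1 / τ + 1) = jacobiTheta (-1 / τ) := by
    rw [show (1 : ℂ) - 1 / τ + 1 = 2 + -1 / τ by ring, jacobiTheta_two_add]
  have h2 : th2 (1 - 1 / τ) ^ 4 = τ ^ 2 * jacobiTheta (τ + 1) ^ 4 := by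
    rw [show (1 : ℂ) - 1 / τ = -1 / τ + 1 by ring, th2_add_one (t2_im hτ), mul_pow, t2_e4,
      th2_inv hτ]
    ring
  rw [Lam, h1, h2, t2_cusp4 hτ, t2_inv4 hτ]
  have h3 : -(τ ^ 2 * jacobiTheta τ ^ 4) - τ ^ 2 * jacobiTheta (τ + 1) ^ 4 =
      -(τ ^ 2 * (jacobiTheta τ ^ 4 + jacobiTheta (τ + 1) ^ 4)) := by ring
  rw [h3, neg_div_neg_eq, mul_div_mul_left _ _ (pow_ne_zero 2 h0)]

theorem Lam_conj {τ : ℂ} (hτ : 0 < τ.im) : Lam (sr τ) = (starRingEnd ℂ) (Lam τ) := by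
  have h3 : 0 < (τ + 1).im := by simpa using hτ
  have h1 : jacobiTheta (sr τ + 1) = (starRingEnd ℂ) (jacobiTheta (τ + 1)) := by
    rw [← theta_conj h3, ← jacobiTheta_two_add (sr (τ + 1))]
    congr 1
    simp only [sr, map_add, map_one]
    ring
  have h2 : th2 (sr τ) = (starRingEnd ℂ) (th2 τ) := by
    rw [th2, th2, map_mul, jacobiTheta₂_conj, ← Complex.exp_conj]
    have h4 : sr τ / 2 = -((starRingEnd ℂ) (τ / 2)) := by
      simp only [sr, map_div₀, Complex.conj_ofNat]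
      ring
    rw [h4, jacobiTheta₂_neg_left]
    congr 1
    congr 1
    simp only [sr, map_div₀, map_mul, Complex.conj_ofReal, Complex.conj_I, Complex.conj_ofNat]
    ring
  rw [Lam, Lam, h1, h2, theta_conj hτ]
  simp only [map_div₀, map_sub, map_pow]

end Pool.Agent.Helper31.FI
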