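import Pool.Agent.Helper31.FI.Th2

/-!
# FI-TS: estimates for the theta constants

`v = Im τ`.  `‖θ - 1‖ ≤ 2 ∑_{k ≥ 1} exp (-π k² v)`.  For `v ≥ 17/100`: `≤ 2 (.587 + .119 + .0082 + .0003 + ..) ≤ 3/2`; for
`v ≥ 1/2`: `≤ .42`.
`th2 τ exp (-π i τ/4) = 2 (1 + ∑_{n ≥ 1} exp (π i n (n+1) τ))`, and for `v ≥ 17/100`:
`2 ∑ exp (-π n (n+1) v) ≤ 2 (.344 + .041 + .002 + ..) ≤ .78`; so `1.2 ≤ ‖..‖ ≤ 2.8`.
With `q = exp (π i z)`: `θ₃(z)⁴ + θ₄(z)⁴ - 2 = O(q²)` (odd powers cancel: write `θ₃ = a + b`, `θ₄ = a - b`,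
`a = θ₃(4z) = 1 + O(q⁴)`, `b = th2 (4z) = O(q)`, so the sum is `2 a⁴ + 12 a² b² + 2 b⁴`; or simply
`θ₃ = 1 + 2q + O(q⁴)`, `θ₄ = 1 - 2q + O(q⁴)` with explicit `O`), `th2 z ^ 4 = 16 q (1 + O(q²))`; all for `Im z ≥ 1/2`.
`Lam_inf`: `θ₃, θ₄ = 1 + O(q)`, `th2⁴ = O(q)`, `θ₃ ≠ 0` as `‖θ₃ - 1‖ ≤ 1/2`.
-/

set_option autoImplicit false

namespace Pool.Agent.Helper31.FI

open Complex Real

/-- the norm of a power of the nome -/
private theorem ThEst_norm (k : ℕ) (τ : ℂ) :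
    ‖cexp (π * I * (k : ℂ) * τ)‖ = rexp (-(π * τ.im)) ^ k := by
  rw [Complex.norm_exp, ← Real.exp_nat_mul]
  congr 1
  simp [Complex.mul_re, Complex.mul_im]
  ring

private theorem ThEst_r_pos (τ : ℂ) : 0 < rexp (-(π * τ.im)) := Real.exp_pos _

private theorem ThEst_r_lt {τ : ℂ} (hτ : 0 < τ.im) : rexp (-(π * τ.im)) < 1 := by
  rw [Real.exp_lt_one_iff]
  have := mul_pos Real.pi_pos hτ
  linarith

/-- the tail of the series of `θ` -/
private theorem ThEst_tail {τ : ℂ} (hτ : 0 < τ.im) :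
    ‖(jacobiTheta τ - 1) / 2 - cexp (π * I * τ)‖ ≤
      rexp (-(π * τ.im)) ^ 4 / (1 - rexp (-(π * τ.im)) ^ 5) := by
  set r := rexp (-(π * τ.im)) with hr
  have hr0 : 0 < r := ThEst_r_pos τ
  have hr1 : r < 1 := ThEst_r_lt hτ
  have h := hasSum_nat_jacobiTheta hτ
  rw [← hasSum_nat_add_iff' 1] at h
  simp only [Finset.sum_range_one, Nat.cast_zero, zero_add, one_pow, mul_one] at h
  have hr5 : r ^ 5 < 1 := pow_lt_one₀ hr0.le hr1 (by norm_num)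
  have hg : HasSum (fun n : ℕ => r ^ 4 * (r ^ 5) ^ n) (r ^ 4 * (1 - r ^ 5)⁻¹) :=
    (hasSum_geometric_of_lt_one (by positivity) hr5).mul_left _
  rw [div_eq_mul_inv (r ^ 4)]
  refine h.norm_le_of_bounded hg fun n => ?_
  have e : cexp (π * I * (((n + 1 : ℕ) : ℂ) + 1) ^ 2 * τ) =
      cexp (π * I * (((n + 2) ^ 2 : ℕ) : ℂ) * τ) := by
    congr 1
    push_cast
    ring
  rw [e, ThEst_norm, ← hr, ← pow_mul, ← pow_add]
  apply pow_le_pow_of_le_one hr0.le hr1.le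
  nlinarith [Nat.zero_le (n * (n - 1)), Nat.mul_le_mul_left n (Nat.le_succ n), sq_nonneg (n - 1 : ℤ),
    Nat.le_self_pow (two_ne_zero) n]

/-- the series of `th2` -/
private theorem ThEst_two {τ : ℂ} (hτ : 0 < τ.im) :
    ‖jacobiTheta₂ (τ / 2) τ / 2 - 1‖ ≤
      rexp (-(π * τ.im)) ^ 2 / (1 - rexp (-(π * τ.im)) ^ 4) := by
  set r := rexp (-(π * τ.im)) with hr
  have hr0 : 0 < r := ThEst_r_pos τ
  have hr1 : r < 1 := ThEst_r_lt hτ
  have h := (hasSum_jacobiTheta₂_term (τ / 2) hτ).nat_add_neg_add_one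
  have h2 : HasSum (fun n : ℕ => cexp (π * I * ((n * (n + 1) : ℕ) : ℂ) * τ))
      (jacobiTheta₂ (τ / 2) τ / 2) := by
    have h3 := h.div_const 2
    have e : (fun n : ℕ => (jacobiTheta₂_term (n : ℤ) (τ / 2) τ +
        jacobiTheta₂_term (-((n : ℤ) + 1)) (τ / 2) τ) / 2) =
        (fun n : ℕ => cexp (π * I * ((n * (n + 1) : ℕ) : ℂ) * τ)) := by
      funext n
      have e1 : jacobiTheta₂_term (n : ℤ) (τ / 2) τ = cexp (π * I * ((n * (n + 1) : ℕ) : ℂ) * τ) := by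
        unfold jacobiTheta₂_term
        congr 1
        push_cast
        ring
      have e2 : jacobiTheta₂_term (-((n : ℤ) + 1)) (τ / 2) τ =
          cexp (π * I * ((n * (n + 1) : ℕ) : ℂ) * τ) := by
        unfold jacobiTheta₂_term
        congr 1
        push_cast
        ring
      rw [e1, e2]
      ring
    rw [e] at h3
    exact h3
  rw [← hasSum_nat_add_iff' 1] at h2
  simp only [Finset.sum_range_one, zero_mul, Nat.cast_zero, mul_zero, Complex.exp_zero] at h2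
  have hr4 : r ^ 4 < 1 := pow_lt_one₀ hr0.le hr1 (by norm_num)
  have hg : HasSum (fun n : ℕ => r ^ 2 * (r ^ 4) ^ n) (r ^ 2 * (1 - r ^ 4)⁻¹) :=
    (hasSum_geometric_of_lt_one (by positivity) hr4).mul_left _
  rw [div_eq_mul_inv (r ^ 2)]
  refine h2.norm_le_of_bounded hg fun n => ?_
  rw [ThEst_norm, ← hr, ← pow_mul, ← pow_add]
  apply pow_le_pow_of_le_one hr0.le hr1.le
  nlinarith [Nat.le_self_pow (two_ne_zero) n]

/-- numeric bound for the nome, `v ≥ 17/100` -/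
private theorem ThEst_r1 {τ : ℂ} (hτ : 17 / 100 ≤ τ.im) : rexp (-(π * τ.im)) ≤ 59 / 100 := by
  have h1 : 5338 / 10000 ≤ π * τ.im := by
    have := Real.pi_gt_d2
    nlinarith
  have h2 : rexp (-(π * τ.im)) ≤ rexp (-(5338 / 10000)) := Real.exp_le_exp.mpr (by linarith)
  refine h2.trans ?_
  have h3 := Real.sum_le_exp_of_nonneg (x := 5338 / 10000) (by norm_num) 4
  have h4 : (100 / 59 : ℝ) ≤ rexp (5338 / 10000) := by
    refine le_trans ?_ h3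
    norm_num [Finset.sum_range_succ, Nat.factorial]
  rw [Real.exp_neg]
  calc (rexp (5338 / 10000))⁻¹ ≤ (100 / 59 : ℝ)⁻¹ := inv_anti₀ (by norm_num) h4
    _ = 59 / 100 := by norm_num

/-- numeric bound for the nome, `v ≥ 1/2` -/
private theorem ThEst_r2 {τ : ℂ} (hτ : 1 / 2 ≤ τ.im) : rexp (-(π * τ.im)) ≤ 23 / 100 := by
  have h1 : 157 / 100 ≤ π * τ.im := by
    have := Real.pi_gt_d2
    nlinarith
  have h2 : rexp (-(π * τ.im)) ≤ rexp (-(157 / 100)) := Real.exp_le_exp.mpr (by linarith)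
  refine h2.trans ?_
  have h3 := Real.sum_le_exp_of_nonneg (x := 157 / 100) (by norm_num) 4
  have h4 : (100 / 23 : ℝ) ≤ rexp (157 / 100) := by
    refine le_trans ?_ h3
    norm_num [Finset.sum_range_succ, Nat.factorial]
  rw [Real.exp_neg]
  calc (rexp (157 / 100))⁻¹ ≤ (100 / 23 : ℝ)⁻¹ := inv_anti₀ (by norm_num) h4
    _ = 23 / 100 := by norm_num

/-- the nome itself -/
private theorem ThEst_q (τ : ℂ) : ‖cexp (π * I * τ)‖ = rexp (-(π * τ.im)) := by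
  have := ThEst_norm 1 τ
  simpa using this

private theorem ThEst_sub {τ : ℂ} (hτ : 0 < τ.im) :
    ‖jacobiTheta τ - 1‖ ≤ 2 * (rexp (-(π * τ.im)) +
      rexp (-(π * τ.im)) ^ 4 / (1 - rexp (-(π * τ.im)) ^ 5)) := by
  have h := ThEst_tail hτ
  have e : jacobiTheta τ - 1 =
      2 * (cexp (π * I * τ) + ((jacobiTheta τ - 1) / 2 - cexp (π * I * τ))) := by ring
  rw [e, norm_mul]
  have h2 : ‖(2 : ℂ)‖ = 2 := by norm_num
  rw [h2]
  have h3 := norm_add_le (cexp (π * I * τ)) ((jacobiTheta τ - 1) / 2 - cexp (π * I * τ))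
  rw [ThEst_q] at h3
  nlinarith

/-- monotonicity of the tail bound -/
private theorem ThEst_mono {r R : ℝ} (h0 : 0 ≤ r) (h : r ≤ R) (hR : R < 1) (a b : ℕ) (hb : b ≠ 0) :
    r ^ a / (1 - r ^ b) ≤ R ^ a / (1 - R ^ b) := by
  have h1 : r ^ a ≤ R ^ a := pow_le_pow_left₀ h0 h a
  have h2 : r ^ b ≤ R ^ b := pow_le_pow_left₀ h0 h b
  have h3 : R ^ b < 1 := pow_lt_one₀ (h0.trans h) hR hb
  exact div_le_div₀ (by positivity [h0.trans h]) h1 (by linarith) (by linarith)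

theorem theta_up {τ : ℂ} (hτ : 17 / 100 ≤ τ.im) : ‖jacobiTheta τ‖ ≤ 5 / 2 := by
  have h0 : 0 < τ.im := by linarith
  have h := ThEst_sub h0
  have h1 := ThEst_r1 hτ
  have h2 := ThEst_mono (ThEst_r_pos τ).le h1 (by norm_num) 4 5 (by norm_num)
  have h3 : ((59 / 100 : ℝ)) ^ 4 / (1 - (59 / 100 : ℝ) ^ 5) ≤ 15 / 100 := by norm_num
  have h4 : ‖jacobiTheta τ‖ ≤ ‖jacobiTheta τ - 1‖ + ‖(1 : ℂ)‖ := by
    have := norm_add_le (jacobiTheta τ - 1) 1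
    simpa using this
  rw [norm_one] at h4
  linarith

theorem theta_sub_one {τ : ℂ} (hτ : 1 / 2 ≤ τ.im) : ‖jacobiTheta τ - 1‖ ≤ 1 / 2 := by
  have h0 : 0 < τ.im := by linarith
  have h := ThEst_sub h0
  have h1 := ThEst_r2 hτ
  have h2 := ThEst_mono (ThEst_r_pos τ).le h1 (by norm_num) 4 5 (by norm_num)
  have h3 : ((23 / 100 : ℝ)) ^ 4 / (1 - (23 / 100 : ℝ) ^ 5) ≤ 1 / 100 := by norm_num
  linarith

/-- the modulus of the first factor of `th2` -/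
private theorem ThEst_fac (τ : ℂ) : ‖cexp (π * I * τ / 4)‖ = rexp (-(π * τ.im / 4)) := by
  rw [Complex.norm_exp]
  congr 1
  have : (π * I * τ / 4 : ℂ) = ((π / 4 : ℝ) : ℂ) * (I * τ) := by
    push_cast
    ring
  rw [this, Complex.re_ofReal_mul]
  simp
  ring

private theorem ThEst_th2 (τ : ℂ) :
    th2 τ = 2 * cexp (π * I * τ / 4) * (1 + (jacobiTheta₂ (τ / 2) τ / 2 - 1)) := by
  unfold th2
  ring

private theorem ThEst_E1 {τ : ℂ} (hτ : 17 / 100 ≤ τ.im) :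
    ‖jacobiTheta₂ (τ / 2) τ / 2 - 1‖ ≤ 2 / 5 := by
  have h0 : 0 < τ.im := by linarith
  refine (ThEst_two h0).trans ?_
  refine (ThEst_mono (ThEst_r_pos τ).le (ThEst_r1 hτ) (by norm_num) 2 4 (by norm_num)).trans ?_
  norm_num

theorem th2_low {τ : ℂ} (hτ : 17 / 100 ≤ τ.im) : rexp (-(π * τ.im / 4)) ≤ ‖th2 τ‖ := by
  rw [ThEst_th2, norm_mul, norm_mul, ThEst_fac]
  have h2 : ‖(2 : ℂ)‖ = 2 := by norm_num
  rw [h2]
  have h3 : 3 / 5 ≤ ‖1 + (jacobiTheta₂ (τ / 2) τ / 2 - 1)‖ := by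
    have h4 := norm_sub_norm_le (1 : ℂ) (-(jacobiTheta₂ (τ / 2) τ / 2 - 1))
    rw [norm_one, norm_neg, sub_neg_eq_add] at h4
    linarith [ThEst_E1 hτ]
  have h5 := Real.exp_pos (-(π * τ.im / 4))
  nlinarith

theorem th2_up {τ : ℂ} (hτ : 17 / 100 ≤ τ.im) : ‖th2 τ‖ ≤ 3 * rexp (-(π * τ.im / 4)) := by
  rw [ThEst_th2, norm_mul, norm_mul, ThEst_fac]
  have h2 : ‖(2 : ℂ)‖ = 2 := by norm_num
  rw [h2]
  have h3 : ‖1 + (jacobiTheta₂ (τ / 2) τ / 2 - 1)‖ ≤ 7 / 5 := by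
    have h4 := norm_add_le (1 : ℂ) (jacobiTheta₂ (τ / 2) τ / 2 - 1)
    rw [norm_one] at h4
    linarith [ThEst_E1 hτ]
  have h5 := Real.exp_pos (-(π * τ.im / 4))
  nlinarith

/-- shift by one changes the sign of the nome -/
private theorem ThEst_shift (z : ℂ) : cexp (π * I * (z + 1)) = -cexp (π * I * z) := by
  have : (π * I * (z + 1) : ℂ) = π * I * z + π * I := by ring
  rw [this, Complex.exp_add, Complex.exp_pi_mul_I]
  ring

private theorem ThEst_q4 (z : ℂ) : cexp (π * I * z / 4) ^ 4 = cexp (π * I * z) := by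
  rw [← Complex.exp_nat_mul]
  congr 1
  push_cast
  ring

/-- the two theta constants up to second order -/
private theorem ThEst_second {z : ℂ} (hz : 1 / 2 ≤ z.im) :
    ‖jacobiTheta z - (1 + 2 * cexp (π * I * z))‖ ≤ rexp (-(π * z.im)) ^ 2 := by
  have h0 : 0 < z.im := by linarith
  have h1 := ThEst_tail h0
  have h2 := ThEst_r2 hz
  have hr := ThEst_r_pos z
  set r := rexp (-(π * z.im)) with hrd
  have e : jacobiTheta z - (1 + 2 * cexp (π * I * z)) =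
      2 * ((jacobiTheta z - 1) / 2 - cexp (π * I * z)) := by ring
  rw [e, norm_mul]
  have h3 : ‖(2 : ℂ)‖ = 2 := by norm_num
  rw [h3]
  have h5 : r ^ 5 ≤ 1 / 2 := by
    calc r ^ 5 ≤ (23 / 100 : ℝ) ^ 5 := pow_le_pow_left₀ hr.le h2 5
      _ ≤ 1 / 2 := by norm_num
  have h6 : r ^ 4 / (1 - r ^ 5) ≤ 2 * r ^ 4 := by
    rw [div_le_iff₀ (by linarith)]
    nlinarith [pow_pos hr 4]
  have h7 : 4 * r ^ 4 ≤ r ^ 2 := by
    have : r ^ 2 ≤ (23 / 100 : ℝ) ^ 2 := pow_le_pow_left₀ hr.le h2 2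
    nlinarith [pow_pos hr 2]
  linarith


/-- difference of fourth powers -/
private theorem ThEst_pow4 {x y : ℂ} {M : ℝ} (hx : ‖x‖ ≤ M) (hy : ‖y‖ ≤ M) :
    ‖x ^ 4 - y ^ 4‖ ≤ ‖x - y‖ * (4 * M ^ 3) := by
  have hM : 0 ≤ M := (norm_nonneg x).trans hx
  have e : x ^ 4 - y ^ 4 = (x - y) * (x ^ 3 + x ^ 2 * y + x * y ^ 2 + y ^ 3) := by ring
  rw [e, norm_mul]
  refine mul_le_mul_of_nonneg_left ?_ (norm_nonneg _)
  have h1 : ‖x ^ 3‖ ≤ M ^ 3 := by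
    rw [norm_pow]
    exact pow_le_pow_left₀ (norm_nonneg _) hx 3
  have h2 : ‖x ^ 2 * y‖ ≤ M ^ 3 := by
    rw [norm_mul, norm_pow]
    calc ‖x‖ ^ 2 * ‖y‖ ≤ M ^ 2 * M :=
          mul_le_mul (pow_le_pow_left₀ (norm_nonneg _) hx 2) hy (norm_nonneg _) (by positivity)
      _ = M ^ 3 := by ring
  have h3 : ‖x * y ^ 2‖ ≤ M ^ 3 := by
    rw [norm_mul, norm_pow]
    calc ‖x‖ * ‖y‖ ^ 2 ≤ M * M ^ 2 :=
          mul_le_mul hx (pow_le_pow_left₀ (norm_nonneg _) hy 2) (by positivity) hM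
      _ = M ^ 3 := by ring
  have h4 : ‖y ^ 3‖ ≤ M ^ 3 := by
    rw [norm_pow]
    exact pow_le_pow_left₀ (norm_nonneg _) hy 3
  calc ‖x ^ 3 + x ^ 2 * y + x * y ^ 2 + y ^ 3‖
      ≤ ‖x ^ 3‖ + ‖x ^ 2 * y‖ + ‖x * y ^ 2‖ + ‖y ^ 3‖ := norm_add₄_le
    _ ≤ 4 * M ^ 3 := by linarith

theorem Lam_cusp_est : ∃ C : ℝ, 0 < C ∧ ∀ z : ℂ, 1 / 2 ≤ z.im →
    ‖Lam (1 - 1 / z) - cexp (-(π * I * z)) / 8‖ ≤ C * rexp (-(π * z.im)) := by
  refine ⟨100, by norm_num, fun z hz => ?_⟩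
  have h0 : 0 < z.im := by linarith
  have hr := ThEst_r_pos z
  have hr2 := ThEst_r2 hz
  have ha := ThEst_second hz
  have hz1 : (z + 1).im = z.im := by simp
  have hb := ThEst_second (z := z + 1) (by rw [hz1]; exact hz)
  rw [ThEst_shift, hz1] at hb
  have hE := ThEst_two h0
  have hq := ThEst_q z
  have hth := ThEst_th2 z
  have hL := Lam_cusp h0
  set r := rexp (-(π * z.im)) with hrd
  set q := cexp (π * I * z) with hqd
  set E := jacobiTheta₂ (z / 2) z / 2 - 1 with hEd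
  have hq0 : q ≠ 0 := Complex.exp_ne_zero _
  have hE2 : ‖E‖ ≤ 2 * r ^ 2 := by
    refine hE.trans ?_
    have h5 : r ^ 4 ≤ 1 / 2 := by
      calc r ^ 4 ≤ (23 / 100 : ℝ) ^ 4 := pow_le_pow_left₀ hr.le hr2 4
        _ ≤ 1 / 2 := by norm_num
    rw [div_le_iff₀ (by linarith)]
    nlinarith [pow_pos hr 2]
  have hr3 : r ^ 2 ≤ 6 / 100 := by
    calc r ^ 2 ≤ (23 / 100 : ℝ) ^ 2 := pow_le_pow_left₀ hr.le hr2 2
      _ ≤ 6 / 100 := by norm_num
  have hE3 : 4 / 5 ≤ ‖1 + E‖ := by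
    have h4 := norm_sub_norm_le (1 : ℂ) (-E)
    rw [norm_one, norm_neg, sub_neg_eq_add] at h4
    linarith
  have hE4 : ‖1 + E‖ ≤ 2 := by
    have h4 := norm_add_le (1 : ℂ) E
    rw [norm_one] at h4
    linarith
  have hEn : (1 + E) ≠ 0 := by
    intro h
    rw [h, norm_zero] at hE3
    linarith
  have hth4 : th2 z ^ 4 = 16 * q * (1 + E) ^ 4 := by
    rw [hth, mul_pow, mul_pow, ThEst_q4, ← hqd]
    norm_num
  have hexp : cexp (-(π * I * z)) = q⁻¹ := by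
    rw [Complex.exp_neg]
  -- the numerator
  have n2q : ‖2 * q‖ ≤ 46 / 100 := by
    rw [norm_mul, hq]
    have : ‖(2 : ℂ)‖ = 2 := by norm_num
    rw [this]
    linarith
  have nx1 : ‖1 + 2 * q‖ ≤ 2 := by
    have := norm_add_le (1 : ℂ) (2 * q)
    rw [norm_one] at this
    linarith
  have ny1 : ‖1 + 2 * -q‖ ≤ 2 := by
    have := norm_add_le (1 : ℂ) (2 * -q)
    rw [norm_one, mul_neg, norm_neg] at this
    rw [mul_neg]
    linarith
  have nx2 : ‖jacobiTheta z‖ ≤ 2 := by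
    have := norm_add_le (1 : ℂ) (jacobiTheta z - 1)
    rw [norm_one, add_sub_cancel] at this
    linarith [theta_sub_one hz]
  have ny2 : ‖jacobiTheta (z + 1)‖ ≤ 2 := by
    have := norm_add_le (1 : ℂ) (jacobiTheta (z + 1) - 1)
    rw [norm_one, add_sub_cancel] at this
    linarith [theta_sub_one (τ := z + 1) (by rw [hz1]; exact hz)]
  have A := ThEst_pow4 nx2 nx1
  have B := ThEst_pow4 ny2 ny1
  have Cc := ThEst_pow4 (x := 1 + E) (y := 1) (M := 2) hE4 (by rw [norm_one]; norm_num)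
  have ec : (1 + E - 1 : ℂ) = E := by ring
  rw [ec] at Cc
  have D : ‖48 * q ^ 2 + 32 * q ^ 4‖ ≤ 80 * r ^ 2 := by
    refine (norm_add_le _ _).trans ?_
    rw [norm_mul, norm_mul, norm_pow, norm_pow, hq]
    have h48 : ‖(48 : ℂ)‖ = 48 := by norm_num
    have h32 : ‖(32 : ℂ)‖ = 32 := by norm_num
    rw [h48, h32]
    have : r ^ 4 ≤ r ^ 2 := pow_le_pow_of_le_one hr.le (by linarith) (by norm_num)
    linarith
  have en : jacobiTheta z ^ 4 + jacobiTheta (z + 1) ^ 4 - 2 * (1 + E) ^ 4 =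
      (jacobiTheta z ^ 4 - (1 + 2 * q) ^ 4) + (jacobiTheta (z + 1) ^ 4 - (1 + 2 * -q) ^ 4) +
        (48 * q ^ 2 + 32 * q ^ 4) + (-2) * ((1 + E) ^ 4 - 1 ^ 4) := by ring
  have hn : ‖jacobiTheta z ^ 4 + jacobiTheta (z + 1) ^ 4 - 2 * (1 + E) ^ 4‖ ≤ 300 * r ^ 2 := by
    rw [en]
    refine norm_add₄_le.trans ?_
    have h2 : ‖(-2 : ℂ)‖ = 2 := by norm_num
    rw [norm_mul (-2 : ℂ), h2]
    nlinarith
  have ef : (jacobiTheta z ^ 4 + jacobiTheta (z + 1) ^ 4) / (16 * q * (1 + E) ^ 4) - q⁻¹ / 8 =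
      (jacobiTheta z ^ 4 + jacobiTheta (z + 1) ^ 4 - 2 * (1 + E) ^ 4) / (16 * q * (1 + E) ^ 4) := by
    field_simp
    ring
  rw [hL, hexp, hth4, ef, norm_div, norm_mul, norm_mul, norm_pow, hq]
  have h16 : ‖(16 : ℂ)‖ = 16 := by norm_num
  rw [h16]
  have hp : (4 / 5 : ℝ) ^ 4 ≤ ‖1 + E‖ ^ 4 := pow_le_pow_left₀ (by norm_num) hE3 4
  have hp2 : 6 * r ≤ 16 * r * ‖1 + E‖ ^ 4 := by
    have : (6 / 16 : ℝ) ≤ ‖1 + E‖ ^ 4 := le_trans (by norm_num) hp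
    nlinarith
  rw [div_le_iff₀ (by positivity)]
  have h7 : 100 * r * (6 * r) ≤ 100 * r * (16 * r * ‖1 + E‖ ^ 4) :=
    mul_le_mul_of_nonneg_left hp2 (by positivity)
  nlinarith [sq_nonneg r]

theorem Lam_cusp_up : ∃ C : ℝ, 0 < C ∧ ∀ z : ℂ, 17 / 100 ≤ z.im →
    ‖Lam (1 - 1 / z)‖ ≤ C * rexp (π * z.im) := by
  refine ⟨2 * (5 / 2) ^ 4, by norm_num, fun z hz => ?_⟩
  have h0 : 0 < z.im := by linarith
  have hz1 : (z + 1).im = z.im := by simp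
  rw [Lam_cusp h0, norm_div, norm_pow]
  have hl := th2_low hz
  have hl4 : rexp (-(π * z.im)) ≤ ‖th2 z‖ ^ 4 := by
    have h := pow_le_pow_left₀ (Real.exp_pos _).le hl 4
    refine le_trans (le_of_eq ?_) h
    rw [← Real.exp_nat_mul]
    congr 1
    push_cast
    ring
  have hnum : ‖jacobiTheta z ^ 4 + jacobiTheta (z + 1) ^ 4‖ ≤ 2 * (5 / 2) ^ 4 := by
    refine (norm_add_le _ _).trans ?_
    rw [norm_pow, norm_pow]
    have h1 := pow_le_pow_left₀ (norm_nonneg _) (theta_up hz) 4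
    have h2 := pow_le_pow_left₀ (norm_nonneg _) (theta_up (τ := z + 1) (by rw [hz1]; exact hz)) 4
    linarith
  have hpos : 0 < rexp (-(π * z.im)) := Real.exp_pos _
  calc ‖jacobiTheta z ^ 4 + jacobiTheta (z + 1) ^ 4‖ / ‖th2 z‖ ^ 4
      ≤ 2 * (5 / 2) ^ 4 / rexp (-(π * z.im)) :=
        div_le_div₀ (by norm_num) hnum hpos hl4
    _ = 2 * (5 / 2) ^ 4 * rexp (π * z.im) := by
        rw [Real.exp_neg, div_inv_eq_mul]

theorem Lam_inf : ∃ C : ℝ, 0 < C ∧ ∀ τ : ℂ, 1 / 2 ≤ τ.im → ‖Lam τ - 1‖ ≤ C * rexp (-(π * τ.im)) := by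
  refine ⟨4000, by norm_num, fun τ hτ => ?_⟩
  have h0 : 0 < τ.im := by linarith
  have h1 : (τ + 1).im = τ.im := by simp
  have hr := ThEst_r_pos τ
  have hr2 := ThEst_r2 hτ
  have ht := theta_sub_one hτ
  have ht1 := theta_sub_one (τ := τ + 1) (by rw [h1]; exact hτ)
  have hs := ThEst_sub h0
  have hs1 := ThEst_sub (τ := τ + 1) (by rw [h1]; exact h0)
  rw [h1] at hs1
  have hup := th2_up (τ := τ) (by linarith)
  have hup4 : ‖th2 τ ^ 4‖ ≤ 81 * rexp (-(π * τ.im)) := by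
    rw [norm_pow]
    have h := pow_le_pow_left₀ (norm_nonneg _) hup 4
    refine h.trans (le_of_eq ?_)
    rw [mul_pow, ← Real.exp_nat_mul]
    norm_num
    ring
  set r := rexp (-(π * τ.im)) with hrd
  have h5 : r ^ 5 ≤ 1 / 2 := by
    calc r ^ 5 ≤ (23 / 100 : ℝ) ^ 5 := pow_le_pow_left₀ hr.le hr2 5
      _ ≤ 1 / 2 := by norm_num
  have h6 : r ^ 4 / (1 - r ^ 5) ≤ r := by
    rw [div_le_iff₀ (by linarith)]
    have h7 : r ^ 3 ≤ 1 / 2 := by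
      calc r ^ 3 ≤ (23 / 100 : ℝ) ^ 3 := pow_le_pow_left₀ hr.le hr2 3
        _ ≤ 1 / 2 := by norm_num
    nlinarith
  have n1 : ‖jacobiTheta τ‖ ≤ 3 / 2 := by
    have := norm_add_le (1 : ℂ) (jacobiTheta τ - 1)
    rw [norm_one, add_sub_cancel] at this
    linarith
  have n2 : ‖jacobiTheta (τ + 1)‖ ≤ 3 / 2 := by
    have := norm_add_le (1 : ℂ) (jacobiTheta (τ + 1) - 1)
    rw [norm_one, add_sub_cancel] at this
    linarith
  have n3 : 1 / 2 ≤ ‖jacobiTheta τ‖ := by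
    have h4 := norm_sub_norm_le (1 : ℂ) (1 - jacobiTheta τ)
    rw [norm_one, sub_sub_cancel, norm_sub_rev] at h4
    linarith
  have hne : jacobiTheta τ ≠ 0 := by
    intro h
    rw [h, norm_zero] at n3
    linarith
  have A := ThEst_pow4 n2 n1
  have hd : ‖jacobiTheta (τ + 1) - jacobiTheta τ‖ ≤ 8 * r := by
    have e : jacobiTheta (τ + 1) - jacobiTheta τ = (jacobiTheta (τ + 1) - 1) - (jacobiTheta τ - 1) := by
      ring
    rw [e]
    refine (norm_sub_le _ _).trans ?_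
    linarith
  have hnum : ‖jacobiTheta (τ + 1) ^ 4 - jacobiTheta τ ^ 4 - th2 τ ^ 4‖ ≤ 200 * r := by
    refine (norm_sub_le _ _).trans ?_
    nlinarith
  have e : Lam τ - 1 =
      (jacobiTheta (τ + 1) ^ 4 - jacobiTheta τ ^ 4 - th2 τ ^ 4) / jacobiTheta τ ^ 4 := by
    unfold Lam
    field_simp
    ring
  rw [e, norm_div, norm_pow]
  have hp : (1 / 2 : ℝ) ^ 4 ≤ ‖jacobiTheta τ‖ ^ 4 := pow_le_pow_left₀ (by norm_num) n3 4
  rw [div_le_iff₀ (by positivity)]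
  nlinarith

end Pool.Agent.Helper31.FI
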