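import Pool.Agent.Helper31.FI.VBas

/-!
# FI-VR: recursion for the index set

`τ₁ = -1/τ - 2 K`, `(j, m, c, d) = (2 K j₁ - m₁, j₁, 2 K c₁ - d₁, c₁)`:
`j₁ τ₁ + m₁ = -(j τ + m)/τ`, `c₁ τ₁ + d₁ = -(c τ + d)/τ`, so the quotients agree (`gm_rec`), and the quantity in the last condition
is divided by `|τ|²` (`quad_rec`; it is `Re ((jτ+m) conj (cτ+d))`).
`pp_neg` (`re τ < 0`, so `re (-1/τ) > 0`): for `v = (j,m,c,d) ∈ VS τ` one has `d ≥ 0` (`inV_no_int` with `k = 0`: if `m > 0`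
then `d ≥ 0`; and `m > -j re τ > 0`).  If `d = 0` then `c = m = 1` and `v = (2 i + 1, 1, 1, 0)` with
`1 + 2 i < re (-1/τ)`, i.e. `i < K`; here `gm = -1/τ - 2 i`, sign `-1`.  If `d ≥ 1` then `m ≥ 1` and
`(m, 2 K m - j, d, 2 K d - c) ∈ VS τ₁`.  Conversely, if `K ≥ 1` and `v₁ ∈ VS τ₁` then (`inV_bd` for `τ₁`, `|re τ₁| ≤ 1`)
`2 K j₁ - m₁ ≥ j₁ ≥ 1`, `2 K c₁ - d₁ ≥ 1`.  If `K = 0` then `τ₁ ∈ FD` and `VS τ₁ = ∅`.  Signs: `c = 2 K c₁ - d₁` and
`c₁ - d₁` is odd (from `c₁ m₁ - j₁ d₁ = 1`), so `(-1)^c = -(-1)^c₁`.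
`pp_pos` (`re τ > 0`): the same with `τ₁ = -1/τ + 2 K` and `(j, m, c, d) = (2 K j₁ + m₁, -j₁, 2 K c₁ + d₁, -c₁)`; now `m ≤ -1`, `d ≤ -1`
(`B < 0` gives `d < 0`; if `m ≥ 1` then `d ≥ 0` by `inV_no_int`).
-/

set_option autoImplicit false

namespace Pool.Agent.Helper31.FI

open Complex Real Finset

private theorem VRec_ne {τ : ℂ} (hτ : 0 < τ.im) : τ ≠ 0 := by
  rintro rfl
  simp at hτ

/-- the quotient does not change -/
private theorem VRec_quot {τ : ℂ} (hτ : 0 < τ.im) (K j m c d : ℤ) :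
    ((j : ℂ) * (-1 / τ - 2 * K) + m) / ((c : ℂ) * (-1 / τ - 2 * K) + d) =
      (((2 * K * j - m : ℤ) : ℂ) * τ + j) / (((2 * K * c - d : ℤ) : ℂ) * τ + c) := by
  have h0 := VRec_ne hτ
  have key : ∀ a b : ℤ, ((a : ℂ) * (-1 / τ - 2 * K) + b) =
      -(((2 * K * a - b : ℤ) : ℂ) * τ + a) / τ := by
    intro a b
    push_cast
    field_simp
    ring
  rw [key, key, div_div_div_cancel_right₀ h0, neg_div_neg_eq]

private theorem VRec_re (τ : ℂ) (K : ℤ) :
    (-1 / τ - 2 * (K : ℂ)).re = -τ.re / (τ.re ^ 2 + τ.im ^ 2) - 2 * K := by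
  rw [Complex.sub_re, Complex.div_re, Complex.normSq_apply]
  simp
  ring

private theorem VRec_im (τ : ℂ) (K : ℤ) :
    (-1 / τ - 2 * (K : ℂ)).im = τ.im / (τ.re ^ 2 + τ.im ^ 2) := by
  rw [Complex.sub_im, Complex.div_im, Complex.normSq_apply]
  simp
  ring

private theorem VRec_N {τ : ℂ} (hτ : 0 < τ.im) : 0 < τ.re ^ 2 + τ.im ^ 2 := by positivity

/-- the quantity in the last condition is divided by `|τ|²` -/
private theorem VRec_quad {τ : ℂ} (hτ : 0 < τ.im) (K j m c d : ℤ) :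
    ((j : ℝ) * (-1 / τ - 2 * (K : ℂ)).re + m) * ((c : ℝ) * (-1 / τ - 2 * (K : ℂ)).re + d) +
        (j : ℝ) * c * (-1 / τ - 2 * (K : ℂ)).im ^ 2 =
      ((((2 * K * j - m : ℤ) : ℝ) * τ.re + j) * (((2 * K * c - d : ℤ) : ℝ) * τ.re + c) +
        ((2 * K * j - m : ℤ) : ℝ) * ((2 * K * c - d : ℤ) : ℝ) * τ.im ^ 2) /
          (τ.re ^ 2 + τ.im ^ 2) := by
  have hN := VRec_N hτ
  rw [VRec_re, VRec_im, eq_div_iff hN.ne']
  have h1 : -τ.re / (τ.re ^ 2 + τ.im ^ 2) = -(τ.re / (τ.re ^ 2 + τ.im ^ 2)) := by ring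
  have h2 : τ.re / (τ.re ^ 2 + τ.im ^ 2) * (τ.re ^ 2 + τ.im ^ 2) = τ.re := by
    field_simp
  have h3 : τ.im / (τ.re ^ 2 + τ.im ^ 2) * (τ.re ^ 2 + τ.im ^ 2) = τ.im := by
    field_simp
  rw [h1]
  set N := τ.re ^ 2 + τ.im ^ 2 with hNdef
  set a := τ.re / N with ha
  set b := τ.im / N with hb
  have h4 : a ^ 2 * N + b ^ 2 * N = 1 := by
    have : (a ^ 2 * N + b ^ 2 * N) * N = 1 * N := by
      have e : (a ^ 2 * N + b ^ 2 * N) * N = (a * N) ^ 2 + (b * N) ^ 2 := by ring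
      rw [e, h2, h3, hNdef]
      ring
    exact mul_right_cancel₀ hN.ne' this
  have e1 : ((j : ℝ) * (-a - 2 * K) + m) * ((c : ℝ) * (-a - 2 * K) + d) * N +
      (j : ℝ) * c * b ^ 2 * N =
      (j : ℝ) * c * (a ^ 2 * N + b ^ 2 * N) + ((2 * K * j - m) * c + (2 * K * c - d) * j) * (a * N)
        + (2 * K * j - m) * (2 * K * c - d) * N := by ring
  have e2 : (((j : ℝ) * (-a - 2 * K) + m) * ((c : ℝ) * (-a - 2 * K) + d) +
      (j : ℝ) * c * b ^ 2) * N = ((j : ℝ) * (-a - 2 * K) + m) * ((c : ℝ) * (-a - 2 * K) + d) * N +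
      (j : ℝ) * c * b ^ 2 * N := by ring
  rw [e2, e1, h4, h2, hNdef]
  push_cast
  ring

theorem gm_rec {τ : ℂ} (hτ : 0 < τ.im) (K j m c d : ℤ) (hc : (c, d) ≠ (0, 0)) :
    gm (2 * K * j - m) j (2 * K * c - d) c τ = gm j m c d (-1 / τ - 2 * K) := by
  unfold gm
  rw [VRec_quot hτ]

private theorem VRec_im_pos {τ : ℂ} (hτ : 0 < τ.im) (K : ℤ) : 0 < (-1 / τ - 2 * (K : ℂ)).im := by
  rw [VRec_im]
  exact div_pos hτ (VRec_N hτ)

/-- forward map, negative real part -/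
private theorem VRec_iff_neg {τ : ℂ} (hτ : 0 < τ.im) (K j m c d : ℤ) (hj : 1 ≤ j)
    (hc : 1 ≤ c) (hj' : 1 ≤ 2 * K * j - m) (hc' : 1 ≤ 2 * K * c - d) :
    InV τ (2 * K * j - m) j (2 * K * c - d) c ↔ InV (-1 / τ - 2 * (K : ℂ)) j m c d := by
  have hN := VRec_N hτ
  unfold InV
  rw [VRec_quad hτ, div_lt_iff₀ hN, zero_mul]
  have e1 : Odd (2 * K * j - m) ↔ Odd m := by
    rw [Int.odd_sub', mul_assoc]
    simp
  have e2 : (2 * K * c - d) * j - (2 * K * j - m) * c = c * m - j * d := by ring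
  rw [e1, e2]
  constructor
  · rintro ⟨-, h2, h3, -, h5, h6⟩
    exact ⟨hj, h3, h2, hc, h5, h6⟩
  · rintro ⟨-, h2, h3, -, h5, h6⟩
    exact ⟨hj', h3, h2, hc', h5, h6⟩

/-- the same for positive real part -/
private theorem VRec_iff_pos {τ : ℂ} (hτ : 0 < τ.im) (K j m c d : ℤ) (hj : 1 ≤ j)
    (hc : 1 ≤ c) (hj' : 1 ≤ 2 * K * j + m) (hc' : 1 ≤ 2 * K * c + d) :
    InV τ (2 * K * j + m) (-j) (2 * K * c + d) (-c) ↔
      InV (-1 / τ - 2 * ((-K : ℤ) : ℂ)) j m c d := by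
  have hN := VRec_N hτ
  unfold InV
  rw [VRec_quad hτ, div_lt_iff₀ hN, zero_mul]
  have e1 : Odd (2 * K * j + m) ↔ Odd m := by
    rw [Int.odd_add', mul_assoc]
    simp
  have e2 : (2 * K * c + d) * (-j) - (2 * K * j + m) * (-c) = c * m - j * d := by ring
  have e3 : (((2 * (-K) * j - m : ℤ) : ℝ) * τ.re + j) * (((2 * (-K) * c - d : ℤ) : ℝ) * τ.re + c) +
        ((2 * (-K) * j - m : ℤ) : ℝ) * ((2 * (-K) * c - d : ℤ) : ℝ) * τ.im ^ 2 =
      (((2 * K * j + m : ℤ) : ℝ) * τ.re + ((-j : ℤ) : ℝ)) *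
        (((2 * K * c + d : ℤ) : ℝ) * τ.re + ((-c : ℤ) : ℝ)) +
        ((2 * K * j + m : ℤ) : ℝ) * ((2 * K * c + d : ℤ) : ℝ) * τ.im ^ 2 := by
    push_cast
    ring
  rw [e1, e2, e3, odd_neg]
  constructor
  · rintro ⟨-, h2, h3, -, h5, h6⟩
    exact ⟨hj, h3, h2, hc, h5, h6⟩
  · rintro ⟨-, h2, h3, -, h5, h6⟩
    exact ⟨hj', h3, h2, hc', h5, h6⟩

/-- the point, positive real part -/
private theorem VRec_gm_pos {τ : ℂ} (hτ : 0 < τ.im) (K j m c d : ℤ) :
    gm (2 * K * j + m) (-j) (2 * K * c + d) (-c) τ = gm j m c d (-1 / τ - 2 * ((-K : ℤ) : ℂ)) := by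
  unfold gm
  rw [VRec_quot hτ]
  congr 1
  have key : ∀ a b : ℤ, (((2 * (-K) * a - b : ℤ) : ℂ) * τ + a) =
      -(((2 * K * a + b : ℤ) : ℂ) * τ + ((-a : ℤ) : ℂ)) := by
    intro a b
    push_cast
    ring
  rw [key, key, neg_div_neg_eq]

private theorem VRec_sign {c d : ℤ} (K j m : ℤ) (hj : Odd j) (hm : Odd m)
    (h : c * m - j * d = 1) :
    (-1 : ℂ) ^ (2 * K * c - d) = -((-1 : ℂ) ^ c) := by
  have h1 : Odd (c - d) := by
    obtain ⟨a, rfl⟩ := hj
    obtain ⟨b, rfl⟩ := hm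
    refine ⟨-(c * b) + a * d, ?_⟩
    linarith
  have h2 : 2 * K * c - d = c + (2 * (K * c - c) + (c - d)) := by ring
  have hne : (-1 : ℂ) ≠ 0 := by norm_num
  rw [h2, zpow_add₀ hne, zpow_add₀ hne, h1.neg_one_zpow, (even_two_mul _).neg_one_zpow]
  ring

private theorem VRec_sign' {c d : ℤ} (K j m : ℤ) (hj : Odd j) (hm : Odd m)
    (h : c * m - j * d = 1) :
    (-1 : ℂ) ^ (2 * K * c + d) = -((-1 : ℂ) ^ c) := by
  rw [← VRec_sign K j m hj hm h]
  have h2 : 2 * K * c + d = (2 * K * c - d) + 2 * d := by ring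
  have hne : (-1 : ℂ) ≠ 0 := by norm_num
  rw [h2, zpow_add₀ hne, (even_two_mul _).neg_one_zpow, mul_one]

private theorem VRec_FD {τ : ℂ} (hτ : 0 < τ.im) (h1 : ‖τ‖ < 1) (K : ℤ) (hK : K = 0)
    (hre : |(-1 / τ - 2 * (K : ℂ)).re| ≤ 1) : VS (-1 / τ - 2 * (K : ℂ)) = ∅ := by
  apply VS_FD
  refine ⟨VRec_im_pos hτ K, hre, ?_⟩
  rw [hK]
  simp only [Int.cast_zero, mul_zero, sub_zero, norm_div, norm_neg, norm_one]
  have h0 : 0 < ‖τ‖ := norm_pos_iff.2 (VRec_ne hτ)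
  rw [le_div_iff₀ h0]
  linarith

theorem pp_neg (x : ℝ) {τ : ℂ} (hτ : 0 < τ.im) (hre : τ.re < 0) (h1 : ‖τ‖ < 1) (K : ℕ)
    (hK : -1 < (-1 / τ - 2 * (K : ℂ)).re) (hK' : (-1 / τ - 2 * (K : ℂ)).re ≤ 1) :
    PP x τ = -(∑ i ∈ range K, ep x (-1 / τ - 2 * (i : ℂ))) - PP x (-1 / τ - 2 * (K : ℂ)) := by
  have hN := VRec_N hτ
  have hKc : (K : ℂ) = ((K : ℤ) : ℂ) := by simp
  have hKr : (K : ℝ) = ((K : ℤ) : ℝ) := by simp
  rw [hKc] at hK hK' ⊢
  set w : ℂ := -1 / τ - 2 * ((K : ℤ) : ℂ) with hw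
  have hwim : 0 < w.im := VRec_im_pos hτ K
  have hwre : |w.re| ≤ 1 := abs_le.2 ⟨hK.le, hK'⟩
  have hwre' : w.re = -τ.re / (τ.re ^ 2 + τ.im ^ 2) - 2 * (K : ℤ) := VRec_re τ K
  -- the two maps
  set e : ℤ × ℤ × ℤ × ℤ → ℤ × ℤ × ℤ × ℤ := fun v =>
    (2 * (K : ℤ) * v.1 - v.2.1, v.1, 2 * (K : ℤ) * v.2.2.1 - v.2.2.2, v.2.2.1) with he
  set f : ℕ → ℤ × ℤ × ℤ × ℤ := fun i => (2 * (i : ℤ) + 1, 1, 1, 0) with hf
  have heinj : Function.Injective e := by
    rintro ⟨a, b, c, d⟩ ⟨a', b', c', d'⟩ h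
    simp only [he, Prod.mk.injEq] at h
    obtain ⟨h1, h2, h3, h4⟩ := h
    subst h2 h4
    simp only [Prod.mk.injEq, true_and]
    constructor <;> linarith
  have hfinj : Function.Injective f := by
    intro i i' h
    simp only [hf, Prod.mk.injEq] at h
    have := h.1
    omega
  have hVS : VS τ = f '' (range K : Set ℕ) ∪ e '' VS w := by
    ext v
    obtain ⟨j, m, c, d⟩ := v
    constructor
    · intro hv
      have hv' : InV τ j m c d := hv
      obtain ⟨hA, hB, -⟩ := inV_pos hτ hv'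
      obtain ⟨g1, g2, g3, g4, g5, g6⟩ := hv'
      have hj0 : (0 : ℝ) < j := by exact_mod_cast (by omega : 0 < j)
      have hm : 0 < m := by
        have : (j : ℝ) * τ.re < 0 := mul_neg_of_pos_of_neg hj0 hre
        have h3 : (0 : ℝ) < m := by linarith
        exact_mod_cast h3
      have hd : 0 ≤ d := by
        have := inV_no_int hτ hv 0 (by show 0 < j * 0 + m; rw [mul_zero, zero_add]; exact hm)
        simpa using this
      rcases hd.eq_or_lt with hd0 | hd0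
      · left
        subst hd0
        rw [mul_zero, sub_zero] at g5
        have hc1 : c = 1 := by
          have : c ∣ 1 := ⟨m, g5.symm⟩
          exact Int.eq_one_of_dvd_one (by omega) this
        subst hc1
        rw [one_mul] at g5
        subst g5
        obtain ⟨i, hi⟩ := g2
        have hi0 : 0 ≤ i := by omega
        lift i to ℕ using hi0
        refine ⟨i, ?_, ?_⟩
        · rw [Finset.mem_coe, Finset.mem_range]
          rw [hi] at g6
          push_cast at g6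
          have h3 : (2 * (i : ℝ) + 1) * (τ.re ^ 2 + τ.im ^ 2) < -τ.re := by nlinarith
          have h4 : (2 * (i : ℝ) + 1) < -τ.re / (τ.re ^ 2 + τ.im ^ 2) := by
            rw [lt_div_iff₀ hN]
            exact h3
          have h5 : (2 * (i : ℝ) + 1) < 2 * K + 1 := by
            have : (((K : ℤ)) : ℝ) = K := by simp
            rw [this] at hwre'
            linarith
          have h6 : (i : ℝ) < K := by linarith
          exact_mod_cast h6
        · simp only [hf, hi]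
      · right
        refine ⟨(m, 2 * (K : ℤ) * m - j, d, 2 * (K : ℤ) * d - c), ?_, ?_⟩
        · have h3 := (VRec_iff_neg hτ K m (2 * (K : ℤ) * m - j) d (2 * (K : ℤ) * d - c)
            (by omega) (by omega) (by ring_nf; exact g1) (by ring_nf; exact g4)).1
          apply h3
          have e1 : 2 * (K : ℤ) * m - (2 * (K : ℤ) * m - j) = j := by ring
          have e2 : 2 * (K : ℤ) * d - (2 * (K : ℤ) * d - c) = c := by ring
          rw [e1, e2]
          exact hv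
        · simp only [he, Prod.mk.injEq]
          refine ⟨by ring, trivial, by ring, trivial⟩
    · rintro (⟨i, hi, hi'⟩ | ⟨⟨j', m', c', d'⟩, hv, hv'⟩)
      · rw [Finset.mem_coe, Finset.mem_range] at hi
        simp only [hf, Prod.mk.injEq] at hi'
        obtain ⟨rfl, rfl, rfl, rfl⟩ := hi'
        refine ⟨?_, ⟨i, rfl⟩, ⟨0, by norm_num⟩, le_rfl, by norm_num, ?_⟩
        · show (1 : ℤ) ≤ 2 * (i : ℤ) + 1
          omega
        · have h3 : (i : ℝ) + 1 ≤ K := by exact_mod_cast hi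
          have h4 : (2 * (i : ℝ) + 1) < -τ.re / (τ.re ^ 2 + τ.im ^ 2) := by
            have : (((K : ℤ)) : ℝ) = K := by simp
            rw [this] at hwre'
            linarith
          rw [lt_div_iff₀ hN] at h4
          push_cast
          nlinarith
      · have hv1 : InV w j' m' c' d' := hv
        simp only [he, Prod.mk.injEq] at hv'
        obtain ⟨rfl, rfl, rfl, rfl⟩ := hv'
        rcases Nat.eq_zero_or_pos K with hK0 | hK0
        · exfalso
          have h3 := VRec_FD hτ h1 (K : ℤ) (by rw [hK0]; rfl) hwre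
          have : (j', m', c', d') ∈ VS w := hv
          rw [hw, h3] at this
          exact this
        · obtain ⟨b1, b2, b3, b4⟩ := inV_bd hwim hwre hv1
          have g1 := hv1.1
          have g4 := hv1.2.2.2.1
          have hKz : (1 : ℤ) ≤ K := by exact_mod_cast hK0
          have h5 : 1 ≤ 2 * (K : ℤ) * j' - m' := by nlinarith
          have h6 : 1 ≤ 2 * (K : ℤ) * c' - d' := by nlinarith
          exact (VRec_iff_neg hτ K j' m' c' d' g1 g4 h5 h6).2 hv1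
  have hdisj : Disjoint (f '' (range K : Set ℕ)) (e '' VS w) := by
    rw [Set.disjoint_left]
    rintro _ ⟨i, -, rfl⟩ ⟨⟨j', m', c', d'⟩, hv, hv'⟩
    simp only [he, hf, Prod.mk.injEq] at hv'
    have := hv.2.2.2.1
    have h3 := hv'.2.2.2
    change 1 ≤ c' at this
    omega
  have hfin : (VS w).Finite := VS_finite hwim
  unfold PP
  rw [hVS, finsum_mem_union hdisj ((Finset.finite_toSet _).image _) (hfin.image _),
    finsum_mem_image hfinj.injOn, finsum_mem_coe_finset, finsum_mem_image heinj.injOn,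
    sub_eq_add_neg]
  congr 1
  · rw [← Finset.sum_neg_distrib]
    refine Finset.sum_congr rfl fun i _ => ?_
    simp only [hf]
    have h3 : gm (2 * (i : ℤ) + 1) 1 1 0 τ = -1 / τ - 2 * (i : ℂ) := by
      unfold gm
      have h0 := VRec_ne hτ
      have h5 : ((1 : ℤ) : ℂ) * τ + ((0 : ℤ) : ℂ) = τ := by simp
      rw [h5]
      push_cast
      field_simp
      ring
    rw [h3]
    norm_num
  · rw [← finsum_mem_neg_distrib _ hfin]
    refine finsum_mem_congr rfl ?_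
    rintro ⟨j', m', c', d'⟩ hv
    have hv1 : InV w j' m' c' d' := hv
    simp only [he]
    rw [VRec_sign K j' m' hv1.2.1 hv1.2.2.1 hv1.2.2.2.2.1]
    have h3 := gm_rec hτ K j' m' c' d' (by
      intro hcd
      rw [Prod.mk.injEq] at hcd
      have := hv1.2.2.2.1
      omega)
    rw [h3]
    ring

theorem pp_pos (x : ℝ) {τ : ℂ} (hτ : 0 < τ.im) (hre : 0 < τ.re) (h1 : ‖τ‖ < 1) (K : ℕ)
    (hK : -1 ≤ (-1 / τ + 2 * (K : ℂ)).re) (hK' : (-1 / τ + 2 * (K : ℂ)).re < 1) :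
    PP x τ = -PP x (-1 / τ + 2 * (K : ℂ)) := by
  have hN := VRec_N hτ
  have hKc : -1 / τ + 2 * (K : ℂ) = -1 / τ - 2 * ((-(K : ℤ) : ℤ) : ℂ) := by
    push_cast
    ring
  rw [hKc] at hK hK' ⊢
  set w : ℂ := -1 / τ - 2 * ((-(K : ℤ) : ℤ) : ℂ) with hw
  have hwim : 0 < w.im := VRec_im_pos hτ _
  have hwre : |w.re| ≤ 1 := abs_le.2 ⟨hK, hK'.le⟩
  set e : ℤ × ℤ × ℤ × ℤ → ℤ × ℤ × ℤ × ℤ := fun v =>
    (2 * (K : ℤ) * v.1 + v.2.1, -v.1, 2 * (K : ℤ) * v.2.2.1 + v.2.2.2, -v.2.2.1) with he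
  have heinj : Function.Injective e := by
    rintro ⟨a, b, c, d⟩ ⟨a', b', c', d'⟩ h
    simp only [he, Prod.mk.injEq, neg_inj] at h
    obtain ⟨h1, h2, h3, h4⟩ := h
    subst h2 h4
    simp only [Prod.mk.injEq, true_and]
    constructor <;> linarith
  have hVS : VS τ = e '' VS w := by
    ext v
    obtain ⟨j, m, c, d⟩ := v
    constructor
    · intro hv
      have hv' : InV τ j m c d := hv
      obtain ⟨hA, hB, -⟩ := inV_pos hτ hv'
      obtain ⟨g1, g2, g3, g4, g5, g6⟩ := hv'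
      have hd : d < 0 := by
        have hc0 : (0 : ℝ) < c := by exact_mod_cast (by omega : 0 < c)
        have : 0 < (c : ℝ) * τ.re := mul_pos hc0 hre
        have h3 : (d : ℝ) < 0 := by linarith
        exact_mod_cast h3
      have hm : m < 0 := by
        by_contra hcon
        have hm0 : 0 < m := by
          rcases (not_lt.1 hcon).eq_or_lt with h0 | h0
          · rw [← h0] at g3
            exact absurd g3 (by decide)
          · exact h0
        have := inV_no_int hτ hv 0 (by show 0 < j * 0 + m; rw [mul_zero, zero_add]; exact hm0)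
        have h4 : 0 ≤ d := by simpa using this
        omega
      refine ⟨(-m, j + 2 * (K : ℤ) * m, -d, c + 2 * (K : ℤ) * d), ?_, ?_⟩
      · have h3 := (VRec_iff_pos hτ K (-m) (j + 2 * (K : ℤ) * m) (-d) (c + 2 * (K : ℤ) * d)
          (by omega) (by omega) (by ring_nf; exact g1) (by ring_nf; exact g4)).1
        apply h3
        have e1 : 2 * (K : ℤ) * -m + (j + 2 * (K : ℤ) * m) = j := by ring
        have e2 : 2 * (K : ℤ) * -d + (c + 2 * (K : ℤ) * d) = c := by ring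
        rw [e1, e2, neg_neg, neg_neg]
        exact hv
      · simp only [he, Prod.mk.injEq, neg_neg]
        refine ⟨by ring, trivial, by ring, trivial⟩
    · rintro ⟨⟨j', m', c', d'⟩, hv, hv'⟩
      have hv1 : InV w j' m' c' d' := hv
      simp only [he, Prod.mk.injEq] at hv'
      obtain ⟨rfl, rfl, rfl, rfl⟩ := hv'
      rcases Nat.eq_zero_or_pos K with hK0 | hK0
      · exfalso
        have h3 := VRec_FD hτ h1 (-(K : ℤ)) (by rw [hK0]; rfl) hwre
        have : (j', m', c', d') ∈ VS w := hv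
        rw [hw, h3] at this
        exact this
      · obtain ⟨b1, b2, b3, b4⟩ := inV_bd hwim hwre hv1
        have g1 := hv1.1
        have g4 := hv1.2.2.2.1
        have hKz : (1 : ℤ) ≤ K := by exact_mod_cast hK0
        have h5 : 1 ≤ 2 * (K : ℤ) * j' + m' := by nlinarith
        have h6 : 1 ≤ 2 * (K : ℤ) * c' + d' := by nlinarith
        exact (VRec_iff_pos hτ K j' m' c' d' g1 g4 h5 h6).2 hv1
  have hfin : (VS w).Finite := VS_finite hwim
  unfold PP
  rw [hVS, finsum_mem_image heinj.injOn, ← finsum_mem_neg_distrib _ hfin]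
  refine finsum_mem_congr rfl ?_
  rintro ⟨j', m', c', d'⟩ hv
  have hv1 : InV w j' m' c' d' := hv
  simp only [he]
  rw [VRec_sign' K j' m' hv1.2.1 hv1.2.2.1 hv1.2.2.2.2.1]
  have h3 := VRec_gm_pos hτ K j' m' c' d'
  rw [h3]
  ring

end Pool.Agent.Helper31.FI
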