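import Pool.Agent.Helper31.FI.KL

/-!
# FI-V2: second difference test

If all second differences of `f` are in `[lam, h lam]` then the sum is `O(h N √lam + 1/√lam)`.
Proof: `lam ≥ 1/16`: trivial.  Otherwise `d i = dl f i` is increasing, `d (i+1) - d i ∈ [lam, h lam]`, so
`d` takes values in an interval of length `≤ h lam N`, which meets at most `h lam N + 2` of the
intervals `[k - θ, k + 1 - θ)`, `k` integer, `θ = √lam ≤ 1/4`.  For each `k` the indices with
`d i ∈ [k - θ, k + θ)` are consecutive, at most `2 θ / lam + 1` of them, and those with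
`d i ∈ [k + θ, k + 1 - θ]` are consecutive: `kl` gives `≤ 1 + 1/θ` (apply `kl` to a shift of `f`).
-/

set_option autoImplicit false

namespace Pool.Agent.Helper31.FI

open Complex Real Finset

private lemma V2_len (d : ℕ → ℝ) (lam : ℝ) (a : ℕ) : ∀ c, a ≤ c →
    (∀ i, a ≤ i → i < c → lam ≤ d (i + 1) - d i) → ((c : ℝ) - a) * lam ≤ d c - d a := by
  intro c hac
  induction c, hac using Nat.le_induction with
  | base => intro _; simp
  | succ c hac ih =>
    intro h
    have h1 := ih fun i h1 h2 => h i h1 (by omega)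
    have h2 := h c hac (Nat.lt_succ_self c)
    push_cast
    nlinarith

private lemma V2_cut (P : ℕ → Prop) (a N : ℕ) (hP : ∀ i j, a ≤ i → i ≤ j → j ≤ N → P i → P j) :
    ∀ b, a ≤ b → b ≤ N → ∃ c, a ≤ c ∧ c ≤ b ∧ (∀ i, a ≤ i → i < c → ¬ P i) ∧
      (∀ i, c ≤ i → i < b → P i) := by
  intro b hab
  induction b, hab using Nat.le_induction with
  | base => intro _; exact ⟨a, le_rfl, le_rfl, fun i h1 h2 => by omega, fun i h1 h2 => by omega⟩
  | succ b hab ih =>
    intro hb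
    obtain ⟨c, h1, h2, h3, h4⟩ := ih (by omega)
    by_cases h : P b
    · refine ⟨c, h1, by omega, h3, fun i hi hib => ?_⟩
      rcases Nat.lt_or_ge i b with h5 | h5
      · exact h4 i hi h5
      · have : i = b := by omega
        rw [this]
        exact h
    · refine ⟨b + 1, by omega, le_rfl, fun i hi hib hPi => h ?_, fun i h5 h6 => by omega⟩
      exact hP i b hi (by omega) (by omega) hPi

private lemma V2_norm (t : ℝ) : ‖ee t‖ = 1 := by
  unfold ee
  have : (2 * π * I * t : ℂ) = ((2 * π * t : ℝ) : ℂ) * I := by push_cast; ring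
  rw [this, Complex.norm_exp_ofReal_mul_I]

private lemma V2_triv (f : ℕ → ℝ) (s : Finset ℕ) : ‖∑ i ∈ s, ee (f i)‖ ≤ s.card := by
  refine (norm_sum_le _ _).trans ?_
  simp [V2_norm]

private lemma V2_mono {f : ℕ → ℝ} {N : ℕ} {lam : ℝ} (hlam : 0 < lam)
    (h1 : ∀ i < N, lam ≤ dl (dl f) i) : ∀ i j, i ≤ j → j ≤ N → dl f i ≤ dl f j := by
  intro i j hij hj
  have h2 := V2_len (dl f) lam i j hij fun l _ h4 => h1 l (by omega)
  have h3 : (0 : ℝ) ≤ (j : ℝ) - i := by
    have : (i : ℝ) ≤ j := by exact_mod_cast hij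
    linarith
  nlinarith [mul_nonneg h3 hlam.le]

private lemma V2_fiber {f : ℕ → ℝ} {N : ℕ} {lam θ : ℝ} (hθ : 0 < θ) (hθ' : θ ≤ 1 / 4)
    (hlam : lam = θ ^ 2) (h1 : ∀ i < N, lam ≤ dl (dl f) i) (k : ℤ) (a b : ℕ) (hab : a ≤ b)
    (hb : b ≤ N) (hk : ∀ i, a ≤ i → i < b → k - θ ≤ dl f i ∧ dl f i < k + 1 - θ) :
    ‖∑ i ∈ Ico a b, ee (f i)‖ ≤ 4 / θ := by
  have hlam0 : 0 < lam := by rw [hlam]; positivity
  have hmono := V2_mono hlam0 h1
  obtain ⟨c, hac, hcb, hc1, hc2⟩ := V2_cut (fun i => k + θ ≤ dl f i) a N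
    (fun i j _ h3 h4 h5 => h5.trans (hmono i j h3 h4)) b hab hb
  have hA : ‖∑ i ∈ Ico a c, ee (f i)‖ ≤ 2 / θ + 1 := by
    refine (V2_triv f _).trans ?_
    rw [Nat.card_Ico]
    rcases Nat.eq_or_lt_of_le hac with h | h
    · rw [h, Nat.sub_self, Nat.cast_zero]
      positivity
    · have h2 := V2_len (dl f) lam a (c - 1) (by omega) fun l _ h4 => h1 l (by omega)
      have h3 := hc1 (c - 1) (by omega) (by omega)
      have h4 := (hk a le_rfl (by omega)).1
      have h5 : ((c - 1 : ℕ) : ℝ) = (c : ℝ) - 1 := by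
        rw [Nat.cast_sub (by omega), Nat.cast_one]
      rw [Nat.cast_sub hac]
      rw [h5] at h2
      push Not at h3
      have h6 : ((c : ℝ) - 1 - a) * lam ≤ 2 * θ := by linarith
      have h7 : ((c : ℝ) - 1 - a) ≤ 2 / θ := by
        rw [le_div_iff₀ hθ]
        rw [hlam] at h6
        nlinarith
      linarith
  have hB : ‖∑ i ∈ Ico c b, ee (f i)‖ ≤ 1 + 1 / θ := by
    rcases Nat.eq_or_lt_of_le hcb with h | h
    · rw [h, Ico_self, sum_empty, norm_zero]
      positivity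
    · have h2 : ∑ i ∈ Ico c b, ee (f i) = ∑ i ∈ range ((b - c - 1) + 1), ee (f (c + i)) := by
        rw [sum_Ico_eq_sum_range]
        congr 2
        omega
      rw [h2]
      have hdl : ∀ i, dl (fun i => f (c + i)) i = dl f (c + i) := fun i => rfl
      refine kl (fun i => f (c + i)) (b - c - 1) θ k hθ (by linarith) ?_ ?_ ?_
      · intro i hi
        rw [hdl, hdl]
        exact hmono _ _ (by omega) (by omega)
      · intro i hi
        rw [hdl]
        exact hc2 _ (by omega) (by omega)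
      · intro i hi
        rw [hdl]
        exact (hk _ (by omega) (by omega)).2.le
  rw [← sum_Ico_consecutive _ hac hcb]
  refine (norm_add_le _ _).trans ((add_le_add hA hB).trans ?_)
  have h2 : 1 ≤ (1 / 4) / θ := by
    rw [le_div_iff₀ hθ]
    linarith
  have h3 : 4 / θ = 2 / θ + 1 / θ + 4 * ((1 / 4) / θ) := by
    field_simp
    ring
  rw [h3]
  linarith

private lemma V2_tot {f : ℕ → ℝ} {N : ℕ} {lam θ : ℝ} (hθ : 0 < θ) (hθ' : θ ≤ 1 / 4)
    (hlam : lam = θ ^ 2) (h1 : ∀ i < N, lam ≤ dl (dl f) i) : ∀ (n a b : ℕ), a ≤ b → b ≤ N →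
    ⌊dl f b + θ⌋ - ⌊dl f a + θ⌋ ≤ n → ‖∑ i ∈ Ico a b, ee (f i)‖ ≤ (n + 1) * (4 / θ) := by
  have hlam0 : 0 < lam := by rw [hlam]; positivity
  have hmono := V2_mono hlam0 h1
  have hmono' : ∀ i j, i ≤ j → j ≤ N → ⌊dl f i + θ⌋ ≤ ⌊dl f j + θ⌋ := fun i j h2 h3 =>
    Int.floor_le_floor (by linarith [hmono i j h2 h3])
  have hfib : ∀ a c, a ≤ c → c ≤ N → (∀ i, a ≤ i → i < c → ⌊dl f i + θ⌋ ≤ ⌊dl f a + θ⌋) →
      ‖∑ i ∈ Ico a c, ee (f i)‖ ≤ 4 / θ := by
    intro a c hac hc h
    refine V2_fiber hθ hθ' hlam h1 ⌊dl f a + θ⌋ a c hac hc fun i hi hic => ?_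
    have h2 : ⌊dl f i + θ⌋ = ⌊dl f a + θ⌋ :=
      le_antisymm (h i hi hic) (hmono' a i hi (by omega))
    rw [← h2]
    constructor
    · linarith [Int.floor_le (dl f i + θ)]
    · linarith [Int.lt_floor_add_one (dl f i + θ)]
  intro n
  induction n with
  | zero =>
    intro a b hab hb h
    rw [Nat.cast_zero, zero_add, one_mul]
    refine hfib a b hab hb fun i hi hib => ?_
    have := hmono' i b hib.le hb
    push_cast at h
    omega
  | succ n ih =>
    intro a b hab hb h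
    obtain ⟨c, hac, hcb, hc1, hc2⟩ := V2_cut (fun i => ⌊dl f a + θ⌋ < ⌊dl f i + θ⌋) a N
      (fun i j _ h3 h4 h5 => lt_of_lt_of_le h5 (hmono' i j h3 h4)) b hab hb
    rw [← sum_Ico_consecutive _ hac hcb]
    refine (norm_add_le _ _).trans ?_
    have h2 := hfib a c hac (by omega) fun i hi hic => not_lt.1 (hc1 i hi hic)
    have h3 := ih c b hcb hb (by
      rcases Nat.eq_or_lt_of_le hcb with h4 | h4
      · rw [h4]
        simp
      · have h5 : ⌊dl f a + θ⌋ < ⌊dl f c + θ⌋ := hc2 c le_rfl h4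
        push_cast at h
        omega)
    push_cast
    linarith

theorem vdc2 : ∃ C : ℝ, 0 < C ∧ ∀ (f : ℕ → ℝ) (N : ℕ) (lam h : ℝ), 0 < lam → 1 ≤ h →
    (∀ i < N, lam ≤ dl (dl f) i) → (∀ i < N, dl (dl f) i ≤ h * lam) →
    ‖∑ i ∈ range N, ee (f i)‖ ≤ C * (h * N * √lam + 1 / √lam) := by
  refine ⟨8, by norm_num, fun f N lam h hlam hh h1 h2 => ?_⟩
  have hs : 0 < √lam := Real.sqrt_pos.2 hlam
  have hN : (0 : ℝ) ≤ N := Nat.cast_nonneg N
  rcases le_or_gt (√lam) (1 / 4) with h3 | h3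
  · have hsq : lam = (√lam) ^ 2 := (Real.sq_sqrt hlam.le).symm
    have h4 := V2_tot hs h3 hsq h1 (⌊dl f N + √lam⌋ - ⌊dl f 0 + √lam⌋).toNat 0 N
      (Nat.zero_le N) le_rfl (Int.self_le_toNat _)
    rw [← range_eq_Ico] at h4
    have hmono := V2_mono hlam h1
    have h5 : (((⌊dl f N + √lam⌋ - ⌊dl f 0 + √lam⌋).toNat : ℕ) : ℝ) ≤ h * lam * N + 1 := by
      have h6 : 0 ≤ ⌊dl f N + √lam⌋ - ⌊dl f 0 + √lam⌋ := by
        have := Int.floor_le_floor (show dl f 0 + √lam ≤ dl f N + √lam by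
          linarith [hmono 0 N (Nat.zero_le N) le_rfl])
        linarith
      have h7 : (((⌊dl f N + √lam⌋ - ⌊dl f 0 + √lam⌋).toNat : ℕ) : ℝ) =
          ((⌊dl f N + √lam⌋ - ⌊dl f 0 + √lam⌋ : ℤ) : ℝ) := by
        rw [← Int.cast_natCast, Int.toNat_of_nonneg h6]
      rw [h7]
      push_cast
      have h8 := Int.floor_le (dl f N + √lam)
      have h9 := Int.lt_floor_add_one (dl f 0 + √lam)
      have h10 := V2_len (fun i => -dl f i) (-(h * lam)) 0 N (Nat.zero_le N) (by
        intro i _ hi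
        have := h2 i hi
        unfold dl at this ⊢
        linarith)
      simp only [Nat.cast_zero, sub_zero] at h10
      linarith
    refine h4.trans ?_
    have h6 : (0 : ℝ) ≤ 4 / √lam := by positivity
    calc _ ≤ (h * lam * N + 1 + 1) * (4 / √lam) := by
          apply mul_le_mul_of_nonneg_right _ h6
          linarith
      _ = 4 * (h * N * √lam) + 8 * (1 / √lam) := by
          have h7 : lam / √lam = √lam := Real.div_sqrt
          have h8 : (h * lam * N + 1 + 1) * (4 / √lam) =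
              4 * (h * N * (lam / √lam)) + 8 * (1 / √lam) := by ring
          rw [h8, h7]
      _ ≤ 8 * (h * N * √lam + 1 / √lam) := by
          have h7 : 0 ≤ h * N * √lam := by positivity
          linarith
  · refine (V2_triv f _).trans ?_
    rw [card_range]
    have h4 : (N : ℝ) * (1 / 4) ≤ h * N * √lam := by
      have h5 : (N : ℝ) * (1 / 4) ≤ N * √lam := mul_le_mul_of_nonneg_left h3.le hN
      have h6 : (N : ℝ) * √lam ≤ h * (N * √lam) :=
        le_mul_of_one_le_left (by positivity) hh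
      linarith
    have h5 : 0 < 1 / √lam := by positivity
    linarith

private lemma V2_conj (t : ℝ) : ee (-t) = (starRingEnd ℂ) (ee t) := by
  unfold ee
  rw [← Complex.exp_conj]
  congr 1
  simp only [map_mul, Complex.conj_ofReal, Complex.conj_I, map_ofNat, Complex.ofReal_neg]
  ring

/-- the same with negative second differences (conjugate) -/
theorem vdc2' : ∃ C : ℝ, 0 < C ∧ ∀ (f : ℕ → ℝ) (N : ℕ) (lam h : ℝ), 0 < lam → 1 ≤ h →
    (∀ i < N, lam ≤ -dl (dl f) i) → (∀ i < N, -dl (dl f) i ≤ h * lam) →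
    ‖∑ i ∈ range N, ee (f i)‖ ≤ C * (h * N * √lam + 1 / √lam) := by
  obtain ⟨C, hC, H⟩ := vdc2
  refine ⟨C, hC, fun f N lam h hlam hh h1 h2 => ?_⟩
  have hd : ∀ i, dl (dl fun i => -f i) i = -dl (dl f) i := fun i => by
    unfold dl
    ring
  have h3 := H (fun i => -f i) N lam h hlam hh (fun i hi => by rw [hd]; exact h1 i hi)
    (fun i hi => by rw [hd]; exact h2 i hi)
  have h4 : ∑ i ∈ range N, ee (-f i) = (starRingEnd ℂ) (∑ i ∈ range N, ee (f i)) := by
    rw [map_sum]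
    exact sum_congr rfl fun i _ => V2_conj _
  rw [h4, RCLike.norm_conj] at h3
  exact h3

end Pool.Agent.Helper31.FI
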