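import Pool.Agent.Helper31.FI.Defs

/-!
# FI-WE: the van der Corput - Weyl inequality

`weyl`: extend `z` by zero outside `[0, N)`.  `H S = ∑_{n} ∑_{k < H} z (n + k)` over the `N + H - 1 ≤ 2 N` values
`-H < n < N`; Cauchy-Schwarz: `H² |S|² ≤ 2 N ∑_n |∑_{k<H} z (n+k)|² = 2 N ∑_{|l| < H} (H - |l|) r l`,
`r l = ∑_n z (n + l) conj (z n)`, `|r (-l)| = |r l|`, `r 0 ≤ N`.  So
`|S|² ≤ 2 N² / H + (4 N / H) ∑_{1 ≤ l < H} |r l|`.
-/

set_option autoImplicit false

namespace Pool.Agent.Helper31.FI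

open Complex Real Finset

/-- shifted sums of a function supported in `[H, H + P)` -/
private theorem Weyl_shift (g : ℕ → ℂ) (N H P k : ℕ) (hP : P ≤ N) (hk : k ≤ H)
    (hg : ∀ j, ¬ (H ≤ j ∧ j < H + P) → g j = 0) :
    ∑ m ∈ range (N + H), g (m + k) = ∑ n ∈ range P, g (H + n) := by
  have h1 : ∑ m ∈ range (N + H), g (m + k) = ∑ j ∈ Ico k (N + H + k), g j := by
    rw [sum_Ico_eq_sum_range]
    have h2 : N + H + k - k = N + H := by omega
    rw [h2]
    exact sum_congr rfl fun m _ => by rw [add_comm]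
  have h3 : ∑ n ∈ range P, g (H + n) = ∑ j ∈ Ico H (H + P), g j := by
    rw [sum_Ico_eq_sum_range]
    have h2 : H + P - H = P := by omega
    rw [h2]
  rw [h1, h3]
  symm
  apply sum_subset
  · intro j hj
    rw [mem_Ico] at hj ⊢
    omega
  · intro j _ hj
    rw [mem_Ico] at hj
    exact hg j hj

private theorem Weyl_row (a : ℕ → ℝ) (ha : ∀ l, 0 ≤ a l) (H k : ℕ) (hk : k < H) :
    ∑ k' ∈ range H, a ((k - k') + (k' - k)) ≤ a 0 + 2 * ∑ l ∈ Ico 1 H, a l := by
  have h1 : ∑ k' ∈ range H, a ((k - k') + (k' - k)) =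
      ∑ k' ∈ range k, a ((k - k') + (k' - k)) +
        (a 0 + ∑ k' ∈ Ico (k + 1) H, a ((k - k') + (k' - k))) := by
    have e1 : ∑ k' ∈ Ico k H, a ((k - k') + (k' - k)) =
        a 0 + ∑ k' ∈ Ico (k + 1) H, a ((k - k') + (k' - k)) := by
      rw [sum_eq_sum_Ico_succ_bot hk]
      simp
    rw [← e1, sum_range_add_sum_Ico _ hk.le]
  have h2 : ∑ k' ∈ range k, a ((k - k') + (k' - k)) ≤ ∑ l ∈ Ico 1 H, a l := by
    have e1 : ∑ k' ∈ range k, a ((k - k') + (k' - k)) = ∑ l ∈ Ico 1 (k + 1), a l := by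
      rw [sum_Ico_eq_sum_range, ← sum_range_reflect]
      refine sum_congr (by rw [Nat.add_sub_cancel]) fun j hj => ?_
      rw [mem_range] at hj
      congr 1
      omega
    rw [e1]
    apply sum_le_sum_of_subset_of_nonneg
    · intro l hl
      rw [mem_Ico] at hl ⊢
      omega
    · intro l _ _
      exact ha l
  have h3 : ∑ k' ∈ Ico (k + 1) H, a ((k - k') + (k' - k)) ≤ ∑ l ∈ Ico 1 H, a l := by
    have e1 : ∑ k' ∈ Ico (k + 1) H, a ((k - k') + (k' - k)) = ∑ l ∈ Ico 1 (H - k), a l := by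
      rw [sum_Ico_eq_sum_range, sum_Ico_eq_sum_range]
      have e2 : H - (k + 1) = H - k - 1 := by omega
      rw [e2]
      refine sum_congr rfl fun j _ => ?_
      congr 1
      omega
    rw [e1]
    apply sum_le_sum_of_subset_of_nonneg
    · intro l hl
      rw [mem_Ico] at hl ⊢
      omega
    · intro l _ _
      exact ha l
  rw [h1]
  linarith

theorem weyl (z : ℕ → ℂ) (hz : ∀ n, ‖z n‖ ≤ 1) (N H : ℕ) (hH : 1 ≤ H) (hHN : H ≤ N) :
    ‖∑ n ∈ range N, z n‖ ^ 2 ≤ 2 * (N : ℝ) ^ 2 / H +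
      4 * N / H * ∑ l ∈ Ico 1 H, ‖∑ n ∈ range (N - l), z (n + l) * (starRingEnd ℂ) (z n)‖ := by
  classical
  let y : ℕ → ℂ := fun j => if H ≤ j ∧ j < H + N then z (j - H) else 0
  have hy0 : ∀ j, ¬ (H ≤ j ∧ j < H + N) → y j = 0 := fun j hj => if_neg hj
  have hy1 : ∀ n, n < N → y (H + n) = z n := by
    intro n hn
    have h1 : y (H + n) = z (H + n - H) := if_pos ⟨by omega, by omega⟩
    rw [h1, Nat.add_sub_cancel_left]
  let a : ℕ → ℝ := fun l => ‖∑ n ∈ range (N - l), z (n + l) * (starRingEnd ℂ) (z n)‖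
  have ha : ∀ l, 0 ≤ a l := fun l => norm_nonneg _
  have ha0 : a 0 ≤ N := by
    change ‖∑ n ∈ range (N - 0), z (n + 0) * (starRingEnd ℂ) (z n)‖ ≤ N
    refine (norm_sum_le _ _).trans ?_
    calc ∑ n ∈ range (N - 0), ‖z (n + 0) * (starRingEnd ℂ) (z n)‖
        ≤ ∑ _n ∈ range (N - 0), (1 : ℝ) := by
          refine sum_le_sum fun n _ => ?_
          rw [norm_mul, RCLike.norm_conj]
          exact mul_le_one₀ (hz _) (norm_nonneg _) (hz _)
      _ = N := by simp
  let S : ℕ → ℂ := fun m => ∑ k ∈ range H, y (m + k)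
  have hS : ∑ m ∈ range (N + H), S m = H * ∑ n ∈ range N, z n := by
    change ∑ m ∈ range (N + H), ∑ k ∈ range H, y (m + k) = _
    rw [sum_comm]
    have h1 : ∀ k ∈ range H, ∑ m ∈ range (N + H), y (m + k) = ∑ n ∈ range N, z n := by
      intro k hk
      rw [mem_range] at hk
      rw [Weyl_shift y N H N k le_rfl hk.le hy0]
      exact sum_congr rfl fun n hn => hy1 n (mem_range.1 hn)
    rw [sum_congr rfl h1, sum_const, card_range, nsmul_eq_mul]
  have hc : ∀ k' l, k' + l < H →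
      ∑ m ∈ range (N + H), y (m + (k' + l)) * (starRingEnd ℂ) (y (m + k')) =
        ∑ n ∈ range (N - l), z (n + l) * (starRingEnd ℂ) (z n) := by
    intro k' l hl
    have h1 : ∀ m, y (m + (k' + l)) * (starRingEnd ℂ) (y (m + k')) =
        (fun j => y (j + l) * (starRingEnd ℂ) (y j)) (m + k') := by
      intro m
      change _ = y (m + k' + l) * _
      rw [add_assoc]
    rw [sum_congr rfl fun m _ => h1 m,
      Weyl_shift (fun j => y (j + l) * (starRingEnd ℂ) (y j)) N H (N - l) k' (by omega)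
        (by omega) ?_]
    · refine sum_congr rfl fun n hn => ?_
      rw [mem_range] at hn
      change y (H + n + l) * (starRingEnd ℂ) (y (H + n)) = _
      rw [add_assoc, hy1 (n + l) (by omega), hy1 n (by omega)]
    · intro j hj
      change y (j + l) * (starRingEnd ℂ) (y j) = 0
      by_cases h2 : H ≤ j ∧ j < H + N
      · rw [hy0 (j + l) (by omega), zero_mul]
      · rw [hy0 j h2, map_zero, mul_zero]
  have hcn : ∀ k ∈ range H, ∀ k' ∈ range H,
      ‖∑ m ∈ range (N + H), y (m + k) * (starRingEnd ℂ) (y (m + k'))‖ =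
        a ((k - k') + (k' - k)) := by
    intro k hk k' hk'
    rw [mem_range] at hk hk'
    rcases le_total k' k with h | h
    · obtain ⟨l, rfl⟩ := Nat.exists_eq_add_of_le h
      rw [hc k' l hk]
      have h1 : (k' + l - k') + (k' - (k' + l)) = l := by omega
      rw [h1]
    · obtain ⟨l, rfl⟩ := Nat.exists_eq_add_of_le h
      have h1 : (k - (k + l)) + (k + l - k) = l := by omega
      rw [h1]
      change _ = ‖∑ n ∈ range (N - l), z (n + l) * (starRingEnd ℂ) (z n)‖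
      rw [← hc k l hk', ← RCLike.norm_conj, map_sum]
      congr 1
      refine sum_congr rfl fun m _ => ?_
      rw [map_mul, Complex.conj_conj, mul_comm]
  have hSS : ∑ m ∈ range (N + H), ‖S m‖ ^ 2 ≤
      H * (N + 2 * ∑ l ∈ Ico 1 H, a l) := by
    have h1 : ((∑ m ∈ range (N + H), ‖S m‖ ^ 2 : ℝ) : ℂ) =
        ∑ k ∈ range H, ∑ k' ∈ range H,
          ∑ m ∈ range (N + H), y (m + k) * (starRingEnd ℂ) (y (m + k')) := by
      rw [Complex.ofReal_sum]
      have h2 : ∀ m, ((‖S m‖ ^ 2 : ℝ) : ℂ) =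
          ∑ k ∈ range H, ∑ k' ∈ range H, y (m + k) * (starRingEnd ℂ) (y (m + k')) := by
        intro m
        rw [Complex.ofReal_pow, ← Complex.mul_conj']
        change (∑ k ∈ range H, y (m + k)) * (starRingEnd ℂ) (∑ k ∈ range H, y (m + k)) = _
        rw [map_sum, sum_mul_sum]
      rw [sum_congr rfl fun m _ => h2 m, sum_comm]
      refine sum_congr rfl fun k _ => ?_
      rw [sum_comm]
    have h3 : ∑ m ∈ range (N + H), ‖S m‖ ^ 2 =
        ‖((∑ m ∈ range (N + H), ‖S m‖ ^ 2 : ℝ) : ℂ)‖ := by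
      rw [Complex.norm_real, Real.norm_eq_abs, abs_of_nonneg]
      exact sum_nonneg fun m _ => sq_nonneg _
    rw [h3, h1]
    refine (norm_sum_le _ _).trans ?_
    calc ∑ k ∈ range H, ‖∑ k' ∈ range H,
          ∑ m ∈ range (N + H), y (m + k) * (starRingEnd ℂ) (y (m + k'))‖
        ≤ ∑ _k ∈ range H, ((N : ℝ) + 2 * ∑ l ∈ Ico 1 H, a l) := by
          refine sum_le_sum fun k hk => ?_
          refine (norm_sum_le _ _).trans ?_
          rw [sum_congr rfl fun k' hk' => hcn k hk k' hk']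
          refine (Weyl_row a ha H k (mem_range.1 hk)).trans ?_
          linarith
      _ = H * (N + 2 * ∑ l ∈ Ico 1 H, a l) := by
          rw [sum_const, card_range, nsmul_eq_mul]
  have hCS : ‖∑ m ∈ range (N + H), S m‖ ^ 2 ≤
      (2 * N) * ∑ m ∈ range (N + H), ‖S m‖ ^ 2 := by
    have h1 : ‖∑ m ∈ range (N + H), S m‖ ^ 2 ≤ (∑ m ∈ range (N + H), ‖S m‖) ^ 2 :=
      pow_le_pow_left₀ (norm_nonneg _) (norm_sum_le _ _) 2
    have h2 : (∑ m ∈ range (N + H), ‖S m‖) ^ 2 ≤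
        ((range (N + H)).card : ℝ) * ∑ m ∈ range (N + H), ‖S m‖ ^ 2 :=
      sq_sum_le_card_mul_sum_sq
    rw [card_range] at h2
    have h3 : ((N + H : ℕ) : ℝ) ≤ 2 * N := by
      push_cast
      have : (H : ℝ) ≤ N := by exact_mod_cast hHN
      linarith
    have h4 : 0 ≤ ∑ m ∈ range (N + H), ‖S m‖ ^ 2 := sum_nonneg fun m _ => sq_nonneg _
    exact h1.trans (h2.trans (mul_le_mul_of_nonneg_right h3 h4))
  rw [hS, norm_mul, mul_pow, Complex.norm_natCast] at hCS
  have hHpos : (0 : ℝ) < H := by exact_mod_cast hH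
  have hNn : (0 : ℝ) ≤ N := Nat.cast_nonneg N
  have hfin : (H : ℝ) ^ 2 * ‖∑ n ∈ range N, z n‖ ^ 2 ≤
      (2 * N) * (H * (N + 2 * ∑ l ∈ Ico 1 H, a l)) :=
    hCS.trans (mul_le_mul_of_nonneg_left hSS (by linarith))
  change ‖∑ n ∈ range N, z n‖ ^ 2 ≤ 2 * (N : ℝ) ^ 2 / H + 4 * N / H * ∑ l ∈ Ico 1 H, a l
  have h5 : 2 * (N : ℝ) ^ 2 / H + 4 * N / H * ∑ l ∈ Ico 1 H, a l =
      (2 * N) * (H * (N + 2 * ∑ l ∈ Ico 1 H, a l)) / H ^ 2 := by
    field_simp
    ring
  rw [h5, le_div_iff₀ (by positivity)]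
  linarith

end Pool.Agent.Helper31.FI
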