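import Pool.Agent.Helper31.FI.VdC2
import Pool.Agent.Helper31.FI.Weyl

/-!
# FI-V3: third difference test

Differencing `f` by `l` gives `F n = f (n + l) - f n`; `dl (dl F) n = ∑_{k < l} dl (dl (dl f)) (n + k)`
lies in `[l lam, l h lam]` for `n + l ≤ N`.  `weyl` with `z n = ee (f n)` and `vdc2` for `F` (length `N - l`,
`lam` replaced by `l lam`) give, for `1 ≤ H ≤ N`,
`|S|² ≤ 2 N² / H + 4 N C (h N √(H lam) + 2 / √(H lam))`  (`∑_{l < H} 1/√l ≤ 2 √H`).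
Choose `H = ⌈lam^(-1/3)⌉` if `N⁻³ ≤ lam ≤ 1` (so `H ≤ 2 lam^(-1/3)`); if `lam > 1` or `lam < N⁻³` the bound is trivial:
`N ≤ N lam^(1/6)`, `N ≤ N^(1/2) lam^(-1/6)`.  (If `H > N` after rounding take `H = N`.)
-/

set_option autoImplicit false

namespace Pool.Agent.Helper31.FI

open Complex Real Finset

private theorem v3_sum (H : ℕ) :
    ∑ l ∈ range H, ((1 + l : ℕ) : ℝ) ^ (-(1 / 2) : ℝ) ≤ 2 * (H : ℝ) ^ (1 / 2 : ℝ) := by
  induction H with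
  | zero => simp
  | succ H ih =>
    rw [Finset.sum_range_succ]
    have h8 : ((1 + H : ℕ) : ℝ) = (H : ℝ) + 1 := by
      push_cast
      ring
    rw [h8, Nat.cast_succ]
    have h0 : (0 : ℝ) < (H : ℝ) + 1 := by positivity
    have hH : (0 : ℝ) ≤ (H : ℝ) := Nat.cast_nonneg H
    rw [Real.rpow_neg h0.le]
    simp only [← Real.sqrt_eq_rpow] at ih ⊢
    have h1 : 0 < √((H : ℝ) + 1) := Real.sqrt_pos.2 h0
    have h2 : √(H : ℝ) ≤ √((H : ℝ) + 1) := Real.sqrt_le_sqrt (by linarith)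
    have h3 : √((H : ℝ) + 1) ^ 2 = (H : ℝ) + 1 := Real.sq_sqrt h0.le
    have h4 : √(H : ℝ) ^ 2 = (H : ℝ) := Real.sq_sqrt hH
    have h5 : (√((H : ℝ) + 1))⁻¹ ≤ 2 * √((H : ℝ) + 1) - 2 * √(H : ℝ) := by
      rw [inv_eq_one_div, div_le_iff₀ h1]
      nlinarith
    linarith

private theorem v3_sum' (H : ℕ) :
    ∑ l ∈ Ico 1 H, (l : ℝ) ^ (-(1 / 2) : ℝ) ≤ 2 * (H : ℝ) ^ (1 / 2 : ℝ) := by
  rw [Finset.sum_Ico_eq_sum_range]
  refine (v3_sum (H - 1)).trans ?_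
  have h1 : (((H - 1 : ℕ)) : ℝ) ^ (1 / 2 : ℝ) ≤ (H : ℝ) ^ (1 / 2 : ℝ) := by
    apply Real.rpow_le_rpow (Nat.cast_nonneg _) _ (by norm_num)
    exact_mod_cast Nat.sub_le H 1
  linarith

private theorem v3_shift (g : ℕ → ℝ) (l : ℕ) :
    dl (fun n => g (n + l) - g n) = fun n => dl g (n + l) - dl g n := by
  funext n
  show (g (n + 1 + l) - g (n + 1)) - (g (n + l) - g n) =
    (g (n + l + 1) - g (n + l)) - (g (n + 1) - g n)
  rw [show n + 1 + l = n + l + 1 by omega]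
  ring

private theorem v3_diff (f : ℕ → ℝ) (l n : ℕ) :
    dl (dl (fun n => f (n + l) - f n)) n =
      ∑ k ∈ range l, dl (dl (dl f)) (n + k) := by
  rw [v3_shift, v3_shift]
  have h := Finset.sum_range_sub (fun k => dl (dl f) (n + k)) l
  rw [add_zero] at h
  exact h.symm

private theorem v3_ee (a b : ℝ) : ee a * (starRingEnd ℂ) (ee b) = ee (a - b) := by
  unfold ee
  rw [← Complex.exp_conj, ← Complex.exp_add]
  congr 1
  simp only [map_mul, map_ofNat, Complex.conj_ofReal, Complex.conj_I]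
  push_cast
  ring

private theorem v3_norm (a : ℝ) : ‖ee a‖ = 1 := by
  unfold ee
  rw [show (2 * π * I * a : ℂ) = ((2 * π * a : ℝ) : ℂ) * I by push_cast; ring]
  exact Complex.norm_exp_ofReal_mul_I _

/-- the inequality before the choice of `H` -/
private theorem v3_pre {h C2 : ℝ} (hh : 1 ≤ h) (hC2 : 0 < C2)
    (hv : ∀ (f : ℕ → ℝ) (N : ℕ) (lam : ℝ), 0 < lam →
      (∀ i < N, lam ≤ dl (dl f) i) → (∀ i < N, dl (dl f) i ≤ h * lam) →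
      ‖∑ i ∈ range N, ee (f i)‖ ≤
        C2 * (h * (N : ℝ) * lam ^ (1 / 2 : ℝ) + lam ^ (-(1 / 2) : ℝ)))
    (f : ℕ → ℝ) (N : ℕ) (lam : ℝ) (hlam : 0 < lam)
    (h1 : ∀ i < N, lam ≤ dl (dl (dl f)) i)
    (h2 : ∀ i < N, dl (dl (dl f)) i ≤ h * lam) (H : ℕ) (hH : 1 ≤ H) (hHN : H ≤ N) :
    ‖∑ i ∈ range N, ee (f i)‖ ^ 2 ≤ 2 * (N : ℝ) ^ 2 / H +
      4 * N * C2 * (h * N * (H * lam) ^ (1 / 2 : ℝ) +
        2 * ((H : ℝ) * lam) ^ (-(1 / 2) : ℝ)) := by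
  have hw := weyl (fun n => ee (f n)) (fun n => (v3_norm _).le) N H hH hHN
  refine hw.trans ?_
  have hH0 : (0 : ℝ) < H := by exact_mod_cast hH
  have hh0 : (0 : ℝ) < h := by linarith
  have hl : ∀ l ∈ Ico 1 H, ‖∑ n ∈ range (N - l), ee (f (n + l)) * (starRingEnd ℂ) (ee (f n))‖ ≤
      C2 * (h * (N : ℝ) * (H * lam) ^ (1 / 2 : ℝ) +
        lam ^ (-(1 / 2) : ℝ) * (l : ℝ) ^ (-(1 / 2) : ℝ)) := by
    intro l hl
    rw [Finset.mem_Ico] at hl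
    have hl0 : (0 : ℝ) < l := by exact_mod_cast hl.1
    have e1 : ∑ n ∈ range (N - l), ee (f (n + l)) * (starRingEnd ℂ) (ee (f n)) =
        ∑ n ∈ range (N - l), ee ((fun n => f (n + l) - f n) n) :=
      Finset.sum_congr rfl fun n _ => v3_ee _ _
    rw [e1]
    have h3 := hv (fun n => f (n + l) - f n) (N - l) (l * lam) (by positivity)
      (by
        intro i hi
        rw [v3_diff]
        have : ∑ k ∈ range l, lam ≤ ∑ k ∈ range l, dl (dl (dl f)) (i + k) :=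
          Finset.sum_le_sum fun k hk => h1 _ (by rw [Finset.mem_range] at hk; omega)
        rw [Finset.sum_const, Finset.card_range, nsmul_eq_mul] at this
        exact this)
      (by
        intro i hi
        rw [v3_diff]
        have : ∑ k ∈ range l, dl (dl (dl f)) (i + k) ≤ ∑ k ∈ range l, h * lam :=
          Finset.sum_le_sum fun k hk => h2 _ (by rw [Finset.mem_range] at hk; omega)
        rw [Finset.sum_const, Finset.card_range, nsmul_eq_mul] at this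
        linarith)
    refine h3.trans ?_
    apply mul_le_mul_of_nonneg_left _ hC2.le
    have hN1 : (((N - l : ℕ)) : ℝ) ≤ N := by exact_mod_cast Nat.sub_le N l
    have hlH : (l : ℝ) ≤ H := by exact_mod_cast hl.2.le
    apply add_le_add
    · apply mul_le_mul (mul_le_mul_of_nonneg_left hN1 hh0.le) _ (by positivity) (by positivity)
      exact Real.rpow_le_rpow (by positivity) (mul_le_mul_of_nonneg_right hlH hlam.le)
        (by norm_num)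
    · rw [Real.mul_rpow hl0.le hlam.le, mul_comm (lam ^ (-(1 / 2) : ℝ))]
  have hsum := Finset.sum_le_sum hl
  rw [← Finset.mul_sum, Finset.sum_add_distrib, Finset.sum_const, Nat.card_Ico, nsmul_eq_mul,
    ← Finset.mul_sum] at hsum
  have hs := v3_sum' H
  have hH1 : (((H - 1 : ℕ)) : ℝ) ≤ H := by exact_mod_cast Nat.sub_le H 1
  have e2 : (H : ℝ) ^ (1 / 2 : ℝ) = H * (H : ℝ) ^ (-(1 / 2) : ℝ) := by
    conv_rhs => rw [show (H : ℝ) * (H : ℝ) ^ (-(1 / 2) : ℝ) =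
      (H : ℝ) ^ (1 : ℝ) * (H : ℝ) ^ (-(1 / 2) : ℝ) by rw [Real.rpow_one]]
    rw [← Real.rpow_add hH0]
    norm_num
  have hA : (0 : ℝ) ≤ h * (N : ℝ) * (H * lam) ^ (1 / 2 : ℝ) := by positivity
  have hB : (0 : ℝ) ≤ lam ^ (-(1 / 2) : ℝ) := by positivity
  have hfin : ∑ l ∈ Ico 1 H, ‖∑ n ∈ range (N - l), ee (f (n + l)) * (starRingEnd ℂ) (ee (f n))‖ ≤
      H * (C2 * (h * N * (H * lam) ^ (1 / 2 : ℝ) +
        2 * ((H : ℝ) * lam) ^ (-(1 / 2) : ℝ))) := by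
    refine hsum.trans ?_
    rw [mul_left_comm (H : ℝ) C2]
    apply mul_le_mul_of_nonneg_left _ hC2.le
    rw [mul_add]
    apply add_le_add
    · exact mul_le_mul_of_nonneg_right hH1 hA
    · rw [Real.mul_rpow hH0.le hlam.le]
      calc lam ^ (-(1 / 2) : ℝ) * ∑ l ∈ Ico 1 H, (l : ℝ) ^ (-(1 / 2) : ℝ)
          ≤ lam ^ (-(1 / 2) : ℝ) * (2 * (H : ℝ) ^ (1 / 2 : ℝ)) :=
            mul_le_mul_of_nonneg_left hs hB
        _ = _ := by
            rw [e2]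
            ring
  have hc : (0 : ℝ) ≤ 4 * N / H := by positivity
  have h9 := mul_le_mul_of_nonneg_left hfin hc
  calc 2 * (N : ℝ) ^ 2 / H + 4 * N / H *
        ∑ l ∈ Ico 1 H, ‖∑ n ∈ range (N - l), ee (f (n + l)) * (starRingEnd ℂ) (ee (f n))‖
      ≤ 2 * (N : ℝ) ^ 2 / H + 4 * N / H *
        (H * (C2 * (h * N * (H * lam) ^ (1 / 2 : ℝ) +
          2 * ((H : ℝ) * lam) ^ (-(1 / 2) : ℝ)))) := by linarith
    _ = _ := by
        field_simp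

theorem vdc3 (h : ℝ) (hh : 1 ≤ h) : ∃ C : ℝ, 0 < C ∧ ∀ (f : ℕ → ℝ) (N : ℕ) (lam : ℝ), 0 < lam →
    (∀ i < N, lam ≤ dl (dl (dl f)) i) → (∀ i < N, dl (dl (dl f)) i ≤ h * lam) →
    ‖∑ i ∈ range N, ee (f i)‖ ≤
      C * ((N : ℝ) * lam ^ (1 / 6 : ℝ) + (N : ℝ) ^ (1 / 2 : ℝ) * lam ^ (-(1 / 6) : ℝ)) := by
  obtain ⟨C2, hC2, hv2⟩ := vdc2
  have hh0 : (0 : ℝ) < h := by linarith
  have hv : ∀ (f : ℕ → ℝ) (N : ℕ) (lam : ℝ), 0 < lam →
      (∀ i < N, lam ≤ dl (dl f) i) → (∀ i < N, dl (dl f) i ≤ h * lam) →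
      ‖∑ i ∈ range N, ee (f i)‖ ≤
        C2 * (h * (N : ℝ) * lam ^ (1 / 2 : ℝ) + lam ^ (-(1 / 2) : ℝ)) := by
    intro f N lam hlam h1 h2
    have := hv2 f N lam h hlam hh h1 h2
    rw [Real.sqrt_eq_rpow] at this
    rw [Real.rpow_neg hlam.le, inv_eq_one_div]
    exact this
  refine ⟨2 + 16 * (C2 * h), by positivity, ?_⟩
  intro f N lam hlam h1 h2
  rcases Nat.eq_zero_or_pos N with rfl | hN
  · rw [Finset.range_zero, Finset.sum_empty, norm_zero]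
    positivity
  have hN0 : (0 : ℝ) < N := by exact_mod_cast hN
  have hN1 : (1 : ℝ) ≤ N := by exact_mod_cast hN
  have htriv : ‖∑ i ∈ range N, ee (f i)‖ ≤ N := by
    refine (norm_sum_le _ _).trans ?_
    rw [Finset.sum_congr rfl fun i _ => v3_norm (f i)]
    simp
  have hu : (0 : ℝ) < lam ^ (1 / 6 : ℝ) := Real.rpow_pos_of_pos hlam _
  have hu' : (0 : ℝ) < lam ^ (-(1 / 6) : ℝ) := Real.rpow_pos_of_pos hlam _
  have hN12 : (0 : ℝ) < (N : ℝ) ^ (1 / 2 : ℝ) := Real.rpow_pos_of_pos hN0 _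
  have hP : (0 : ℝ) < (N : ℝ) * lam ^ (1 / 6 : ℝ) + (N : ℝ) ^ (1 / 2 : ℝ) * lam ^ (-(1 / 6) : ℝ) := by
    positivity
  have hC1 : (1 : ℝ) ≤ 2 + 16 * (C2 * h) := by nlinarith [mul_pos hC2 hh0]
  have hend : (N : ℝ) ≤ (N : ℝ) * lam ^ (1 / 6 : ℝ) + (N : ℝ) ^ (1 / 2 : ℝ) * lam ^ (-(1 / 6) : ℝ) →
      ‖∑ i ∈ range N, ee (f i)‖ ≤ (2 + 16 * (C2 * h)) *
        ((N : ℝ) * lam ^ (1 / 6 : ℝ) + (N : ℝ) ^ (1 / 2 : ℝ) * lam ^ (-(1 / 6) : ℝ)) := by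
    intro hle
    refine (htriv.trans hle).trans ?_
    exact le_mul_of_one_le_left hP.le hC1
  by_cases hl1 : 1 ≤ lam
  · apply hend
    have h3 : (1 : ℝ) ≤ lam ^ (1 / 6 : ℝ) := Real.one_le_rpow hl1 (by norm_num)
    have h4 : (N : ℝ) ≤ N * lam ^ (1 / 6 : ℝ) := le_mul_of_one_le_right hN0.le h3
    have h5 : 0 < (N : ℝ) ^ (1 / 2 : ℝ) * lam ^ (-(1 / 6) : ℝ) := by positivity
    linarith
  rw [not_le] at hl1
  by_cases hl2 : lam < (N : ℝ) ^ (-3 : ℝ)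
  · apply hend
    have h3 : (N : ℝ) ^ (1 / 2 : ℝ) ≤ lam ^ (-(1 / 6) : ℝ) := by
      have h4 : ((N : ℝ) ^ (-3 : ℝ)) ^ (-(1 / 6) : ℝ) ≤ lam ^ (-(1 / 6) : ℝ) :=
        Real.rpow_le_rpow_of_nonpos hlam hl2.le (by norm_num)
      rw [← Real.rpow_mul hN0.le] at h4
      have h6 : ((-3 : ℝ) * -(1 / 6)) = 1 / 2 := by norm_num
      rw [h6] at h4
      exact h4
    have h7 : (N : ℝ) = (N : ℝ) ^ (1 / 2 : ℝ) * (N : ℝ) ^ (1 / 2 : ℝ) := by
      rw [← Real.rpow_add hN0]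
      norm_num
    have h8 : (N : ℝ) ^ (1 / 2 : ℝ) * (N : ℝ) ^ (1 / 2 : ℝ) ≤
        (N : ℝ) ^ (1 / 2 : ℝ) * lam ^ (-(1 / 6) : ℝ) := mul_le_mul_of_nonneg_left h3 hN12.le
    have h9 : 0 < (N : ℝ) * lam ^ (1 / 6 : ℝ) := by positivity
    linarith
  rw [not_lt] at hl2
  -- the main case
  have hg0 : (1 : ℝ) ≤ lam ^ (-(1 / 3) : ℝ) :=
    Real.one_le_rpow_of_pos_of_le_one_of_nonpos hlam hl1.le (by norm_num)
  have hhN : lam ^ (-(1 / 3) : ℝ) ≤ N := by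
    have h4 : lam ^ (-(1 / 3) : ℝ) ≤ ((N : ℝ) ^ (-3 : ℝ)) ^ (-(1 / 3) : ℝ) :=
      Real.rpow_le_rpow_of_nonpos (Real.rpow_pos_of_pos hN0 _) hl2 (by norm_num)
    rw [← Real.rpow_mul hN0.le] at h4
    have h6 : ((-3 : ℝ) * -(1 / 3)) = 1 := by norm_num
    rwa [h6, Real.rpow_one] at h4
  set H : ℕ := ⌈lam ^ (-(1 / 3) : ℝ)⌉₊ with hH
  have hHge : lam ^ (-(1 / 3) : ℝ) ≤ H := Nat.le_ceil _
  have hHlt : (H : ℝ) < lam ^ (-(1 / 3) : ℝ) + 1 := Nat.ceil_lt_add_one (by positivity)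
  have hH1 : 1 ≤ H := by
    have : (1 : ℝ) ≤ H := hg0.trans hHge
    exact_mod_cast this
  have hHN : H ≤ N := Nat.ceil_le.2 hhN
  have hH2 : (H : ℝ) ≤ 2 * lam ^ (-(1 / 3) : ℝ) := by linarith
  have hH0 : (0 : ℝ) < H := by exact_mod_cast hH1
  have hpre := v3_pre hh hC2 hv f N lam hlam h1 h2 H hH1 hHN
  have e23 : lam ^ (-(1 / 3) : ℝ) * lam = lam ^ (2 / 3 : ℝ) := by
    conv_lhs => rw [show lam ^ (-(1 / 3) : ℝ) * lam = lam ^ (-(1 / 3) : ℝ) * lam ^ (1 : ℝ) by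
      rw [Real.rpow_one]]
    rw [← Real.rpow_add hlam]
    norm_num
  have b1 : 2 * (N : ℝ) ^ 2 / H ≤ 2 * (N : ℝ) ^ 2 * lam ^ (1 / 3 : ℝ) := by
    rw [div_le_iff₀ hH0]
    have h5 : (1 : ℝ) ≤ lam ^ (1 / 3 : ℝ) * H := by
      calc (1 : ℝ) = lam ^ (1 / 3 : ℝ) * lam ^ (-(1 / 3) : ℝ) := by
            rw [← Real.rpow_add hlam]
            norm_num
        _ ≤ lam ^ (1 / 3 : ℝ) * H := mul_le_mul_of_nonneg_left hHge (by positivity)
    have h6 : (0 : ℝ) ≤ 2 * (N : ℝ) ^ 2 := by positivity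
    calc 2 * (N : ℝ) ^ 2 = 2 * (N : ℝ) ^ 2 * 1 := by ring
      _ ≤ 2 * (N : ℝ) ^ 2 * (lam ^ (1 / 3 : ℝ) * H) := mul_le_mul_of_nonneg_left h5 h6
      _ = _ := by ring
  have b2 : (H * lam) ^ (1 / 2 : ℝ) ≤ 2 * lam ^ (1 / 3 : ℝ) := by
    have h5 : (H : ℝ) * lam ≤ 2 * lam ^ (2 / 3 : ℝ) := by
      calc (H : ℝ) * lam ≤ 2 * lam ^ (-(1 / 3) : ℝ) * lam :=
            mul_le_mul_of_nonneg_right hH2 hlam.le
        _ = _ := by rw [mul_assoc, e23]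
    calc (H * lam) ^ (1 / 2 : ℝ) ≤ (2 * lam ^ (2 / 3 : ℝ)) ^ (1 / 2 : ℝ) :=
          Real.rpow_le_rpow (by positivity) h5 (by norm_num)
      _ = (2 : ℝ) ^ (1 / 2 : ℝ) * lam ^ (1 / 3 : ℝ) := by
          rw [Real.mul_rpow (by norm_num) (by positivity), ← Real.rpow_mul hlam.le]
          norm_num
      _ ≤ 2 * lam ^ (1 / 3 : ℝ) := by
          apply mul_le_mul_of_nonneg_right _ (by positivity)
          calc (2 : ℝ) ^ (1 / 2 : ℝ) ≤ (2 : ℝ) ^ (1 : ℝ) :=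
                Real.rpow_le_rpow_of_exponent_le (by norm_num) (by norm_num)
            _ = 2 := Real.rpow_one _
  have b3 : ((H : ℝ) * lam) ^ (-(1 / 2) : ℝ) ≤ lam ^ (-(1 / 3) : ℝ) := by
    have h5 : lam ^ (2 / 3 : ℝ) ≤ (H : ℝ) * lam := by
      rw [← e23]
      exact mul_le_mul_of_nonneg_right hHge hlam.le
    calc ((H : ℝ) * lam) ^ (-(1 / 2) : ℝ) ≤ (lam ^ (2 / 3 : ℝ)) ^ (-(1 / 2) : ℝ) :=
          Real.rpow_le_rpow_of_nonpos (by positivity) h5 (by norm_num)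
      _ = _ := by
          rw [← Real.rpow_mul hlam.le]
          norm_num
  -- squares
  have q1 : lam ^ (1 / 3 : ℝ) = (lam ^ (1 / 6 : ℝ)) ^ 2 := by
    rw [← Real.rpow_natCast, ← Real.rpow_mul hlam.le]
    norm_num
  have q2 : lam ^ (-(1 / 3) : ℝ) = (lam ^ (-(1 / 6) : ℝ)) ^ 2 := by
    rw [← Real.rpow_natCast, ← Real.rpow_mul hlam.le]
    norm_num
  have q3 : (N : ℝ) = ((N : ℝ) ^ (1 / 2 : ℝ)) ^ 2 := by
    conv_lhs => rw [show (N : ℝ) = (N : ℝ) ^ (1 : ℝ) by rw [Real.rpow_one]]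
    rw [← Real.rpow_natCast, ← Real.rpow_mul hN0.le]
    norm_num
  set U := (N : ℝ) * lam ^ (1 / 6 : ℝ) with hU
  set V := (N : ℝ) ^ (1 / 2 : ℝ) * lam ^ (-(1 / 6) : ℝ) with hV
  have hU0 : 0 < U := by positivity
  have hV0 : 0 < V := by positivity
  have hCh : 0 < C2 * h := mul_pos hC2 hh0
  have hCle : C2 ≤ C2 * h := le_mul_of_one_le_right hC2.le hh
  have hsq : ‖∑ i ∈ range N, ee (f i)‖ ^ 2 ≤ (2 + 16 * (C2 * h)) * (U + V) ^ 2 := by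
    refine hpre.trans ?_
    have c1 : 2 * (N : ℝ) ^ 2 * lam ^ (1 / 3 : ℝ) = 2 * U ^ 2 := by
      rw [q1, hU]
      ring
    have c2 : 4 * N * C2 * (h * N * (H * lam) ^ (1 / 2 : ℝ)) ≤ 8 * (C2 * h) * U ^ 2 := by
      have : 8 * (C2 * h) * U ^ 2 = 4 * N * C2 * (h * N * (2 * lam ^ (1 / 3 : ℝ))) := by
        rw [q1, hU]
        ring
      rw [this]
      gcongr
    have c3 : 4 * N * C2 * (2 * ((H : ℝ) * lam) ^ (-(1 / 2) : ℝ)) ≤ 8 * C2 * V ^ 2 := by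
      have : 8 * C2 * V ^ 2 = 4 * N * C2 * (2 * lam ^ (-(1 / 3) : ℝ)) := by
        rw [q2, hV]
        calc 8 * C2 * ((N : ℝ) ^ (1 / 2 : ℝ) * lam ^ (-(1 / 6) : ℝ)) ^ 2
            = 8 * C2 * (((N : ℝ) ^ (1 / 2 : ℝ)) ^ 2 * (lam ^ (-(1 / 6) : ℝ)) ^ 2) := by ring
          _ = _ := by
              rw [← q3]
              ring
      rw [this]
      gcongr
    have c4 : 0 < U * V := by positivity
    have c5 : 0 < (C2 * h) * (U * V) := by positivity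
    have c6 : 0 < (C2 * h) * U ^ 2 := by positivity
    have c7 : 0 < (C2 * h) * V ^ 2 := by positivity
    have c8 : 0 < V ^ 2 := by positivity
    have c9 : 8 * C2 * V ^ 2 ≤ 8 * (C2 * h) * V ^ 2 := by
      apply mul_le_mul_of_nonneg_right _ c8.le
      linarith
    calc 2 * (N : ℝ) ^ 2 / H + 4 * N * C2 * (h * N * (H * lam) ^ (1 / 2 : ℝ) +
          2 * ((H : ℝ) * lam) ^ (-(1 / 2) : ℝ))
        = 2 * (N : ℝ) ^ 2 / H + 4 * N * C2 * (h * N * (H * lam) ^ (1 / 2 : ℝ)) +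
          4 * N * C2 * (2 * ((H : ℝ) * lam) ^ (-(1 / 2) : ℝ)) := by ring
      _ ≤ 2 * U ^ 2 + 8 * (C2 * h) * U ^ 2 + 8 * (C2 * h) * V ^ 2 := by linarith
      _ ≤ (2 + 16 * (C2 * h)) * (U + V) ^ 2 := by
        have e : (2 + 16 * (C2 * h)) * (U + V) ^ 2 = 2 * U ^ 2 + 8 * (C2 * h) * U ^ 2 +
            8 * (C2 * h) * V ^ 2 + (2 * V ^ 2 + 4 * (U * V) + 8 * ((C2 * h) * U ^ 2) +
            8 * ((C2 * h) * V ^ 2) + 32 * ((C2 * h) * (U * V))) := by ring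
        rw [e]
        linarith
  have hfin : ‖∑ i ∈ range N, ee (f i)‖ ^ 2 ≤ ((2 + 16 * (C2 * h)) * (U + V)) ^ 2 := by
    refine hsq.trans ?_
    rw [mul_pow]
    apply mul_le_mul_of_nonneg_right _ (by positivity)
    exact le_self_pow₀ hC1 two_ne_zero
  exact (sq_le_sq₀ (norm_nonneg _) (by positivity)).1 hfin

private theorem v3_conj (t : ℝ) : ee (-t) = (starRingEnd ℂ) (ee t) := by
  unfold ee
  rw [← Complex.exp_conj]
  congr 1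
  simp only [map_mul, Complex.conj_ofReal, Complex.conj_I, map_ofNat, Complex.ofReal_neg]
  ring

/-- negative third differences -/
theorem vdc3' (h : ℝ) (hh : 1 ≤ h) : ∃ C : ℝ, 0 < C ∧ ∀ (f : ℕ → ℝ) (N : ℕ) (lam : ℝ), 0 < lam →
    (∀ i < N, lam ≤ -dl (dl (dl f)) i) → (∀ i < N, -dl (dl (dl f)) i ≤ h * lam) →
    ‖∑ i ∈ range N, ee (f i)‖ ≤
      C * ((N : ℝ) * lam ^ (1 / 6 : ℝ) + (N : ℝ) ^ (1 / 2 : ℝ) * lam ^ (-(1 / 6) : ℝ)) := by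
  obtain ⟨C, hC, H⟩ := vdc3 h hh
  refine ⟨C, hC, fun f N lam hlam h1 h2 => ?_⟩
  have hd : ∀ i, dl (dl (dl fun i => -f i)) i = -dl (dl (dl f)) i := fun i => by
    unfold dl
    ring
  have h3 := H (fun i => -f i) N lam hlam (fun i hi => by rw [hd]; exact h1 i hi)
    (fun i hi => by rw [hd]; exact h2 i hi)
  have h4 : ∑ i ∈ range N, ee (-f i) = (starRingEnd ℂ) (∑ i ∈ range N, ee (f i)) := by
    rw [map_sum]
    exact sum_congr rfl fun i _ => v3_conj _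
  rw [h4, RCLike.norm_conj] at h3
  exact h3

end Pool.Agent.Helper31.FI
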